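import Pool.Agent.Lib.MP_901be3_an.Hd.Defs
import Pool.Agent.Lib.MP_cc859a_an.Birkhoff

namespace Pool.Agent.Lib.MP_901be3_an.Hd

open MeasureTheory Filter Topology Metric Set
open scoped ENNReal

variable {X : Type*} [MeasurableSpace X] {μ : Measure X} [IsProbabilityMeasure μ] {T : X → X}

theorem BirkAux.limit (hT : MeasurePreserving T μ μ) {φ : X → ℝ} (hφ : Measurable φ) {B : ℝ}
    (hB : ∀ x, |φ x| ≤ B) : ∃ g : X → ℝ, Measurable g ∧ g ∘ T = g ∧
      (∀ᵐ x ∂μ, Tendsto (fun n : ℕ => (∑ i ∈ Finset.range n, φ (T^[i] x)) / n) atTop (𝓝 (g x))) ∧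
      ∀ s, MeasurableSet s → T ⁻¹' s = s →
        IntegrableOn g s μ ∧ ∫ x in s, g x ∂μ = ∫ x in s, φ x ∂μ := by
  set A : ℕ → X → ℝ := fun n x => MP_cc859a_an.av (fun k => φ (T^[k] x)) n with hA
  have hAeq : ∀ x, (fun n : ℕ => (∑ i ∈ Finset.range n, φ (T^[i] x)) / n) = fun n => A n x :=
    fun x => funext fun n => by simp only [hA, MP_cc859a_an.av, div_eq_inv_mul]
  have Am : ∀ n, Measurable (A n) := fun n =>
    measurable_const.mul (Finset.measurable_sum _ fun k _ => hφ.comp (hT.measurable.iterate k))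
  have Ab : ∀ n x, |A n x| ≤ B := fun n x => MP_cc859a_an.abs_av_le (fun k => hB _) n
  set g : X → ℝ := fun x => limUnder atTop fun n => A n x with hg
  have gm : Measurable g :=
    (StronglyMeasurable.limUnder fun n => (Am n).stronglyMeasurable).measurable
  have hlim : ∀ᵐ x ∂μ, Tendsto (fun n => A n x) atTop (𝓝 (g x)) := by
    filter_upwards [MP_cc859a_an.birkhoff_real hT hφ hB] with x hx
    exact tendsto_nhds_limUnder hx
  have φi : Integrable φ μ :=
    Integrable.of_bound hφ.aestronglyMeasurable B (Eventually.of_forall hB)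
  refine ⟨g, gm, funext fun x => ?_, by simpa only [hAeq] using hlim, fun s hs hinv => ?_⟩
  · have h0 := MP_cc859a_an.av_shift_sub (T := T) hB x
    have hiff : ∀ L, Tendsto (fun n => A n (T x)) atTop (𝓝 L) ↔
        Tendsto (fun n => A n x) atTop (𝓝 L) := fun L => by
      constructor
      · intro h
        have := h.sub h0
        simpa [hA] using this
      · intro h
        have := h.add h0
        simpa [hA] using this
    simp only [hg, Function.comp_apply, limUnder, lim]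
    congr 1
    exact funext fun L => propext (hiff L)
  · have gb : ∀ᵐ x ∂μ, ‖g x‖ ≤ B := by
      filter_upwards [hlim] with x hx
      exact le_of_tendsto' hx.norm fun n => Ab n x
    have gi : Integrable g μ := Integrable.of_bound gm.aestronglyMeasurable B gb
    refine ⟨gi.integrableOn, ?_⟩
    have hTs : MeasurePreserving T (μ.restrict s) (μ.restrict s) := by
      have := hT.restrict_preimage hs
      rwa [hinv] at this
    have h1 : Tendsto (fun n => ∫ x in s, A n x ∂μ) atTop (𝓝 (∫ x in s, g x ∂μ)) :=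
      tendsto_integral_of_dominated_convergence (fun _ => B)
        (fun n => (Am n).aestronglyMeasurable) (integrable_const B)
        (fun n => Eventually.of_forall (Ab n)) (ae_restrict_of_ae hlim)
    have h2 : ∀ᶠ n in atTop, ∫ x in s, φ x ∂μ = ∫ x in s, A n x ∂μ := by
      filter_upwards [eventually_gt_atTop 0] with n hn
      have hn' : (n : ℝ) ≠ 0 := by exact_mod_cast hn.ne'
      simp only [hA, MP_cc859a_an.av]
      rw [integral_const_mul,
        integral_finsetSum (f := fun k x => φ (T^[k] x)) _ fun k _ =>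
        (hTs.iterate k).integrable_comp_of_integrable φi.integrableOn,
        Finset.sum_congr rfl fun k _ =>
          MP_cc859a_an.integral_comp_mp (hTs.iterate k) hφ.aestronglyMeasurable]
      simp only [Finset.sum_const, Finset.card_range, nsmul_eq_mul]
      field_simp
    exact tendsto_nhds_unique h1 (tendsto_const_nhds.congr' h2)

theorem BirkAux.tempered (hT : MeasurePreserving T μ μ) {φ : X → ℝ} (hφ : Measurable φ) {B : ℝ}
    (hB : ∀ᵐ x ∂μ, |φ (T x) - φ x| ≤ B) :
    ∀ᵐ x ∂μ, Tendsto (fun n : ℕ => φ (T^[n] x) / n) atTop (𝓝 0) := by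
  set ψ : X → ℝ := fun x => max (-|B|) (min |B| (φ (T x) - φ x)) with hψ
  have ψm : Measurable ψ :=
    measurable_const.max (measurable_const.min ((hφ.comp hT.measurable).sub hφ))
  have ψb : ∀ x, |ψ x| ≤ |B| := fun x =>
    abs_le.2 ⟨le_max_left _ _, max_le (by linarith [abs_nonneg B]) (min_le_left _ _)⟩
  have h1 : ∀ᵐ x ∂μ, ψ x = φ (T x) - φ x := by
    filter_upwards [hB] with x hx
    have h := abs_le.1 (hx.trans (le_abs_self B))
    simp only [hψ]
    rw [min_eq_right h.2, max_eq_right h.1]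
  have h2 : ∀ᵐ x ∂μ, ∀ k, ψ (T^[k] x) = φ (T (T^[k] x)) - φ (T^[k] x) :=
    ae_all_iff.2 fun k => (hT.iterate k).quasiMeasurePreserving.ae h1
  have h3 : ∀ᵐ x ∂μ, ∀ N : ℕ, x ∈ {y | |φ y| ≤ N} →
      ∃ᶠ n in atTop, T^[n] x ∈ {y | |φ y| ≤ N} :=
    ae_all_iff.2 fun N => hT.conservative.ae_mem_imp_frequently_image_mem
      (measurableSet_le (continuous_abs.measurable.comp hφ) measurable_const).nullMeasurableSet
  filter_upwards [h2, h3, MP_cc859a_an.birkhoff_real hT ψm ψb] with x h2 h3 ⟨L, hL⟩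
  have hs : ∀ n, ∑ k ∈ Finset.range n, ψ (T^[k] x) = φ (T^[n] x) - φ x := fun n => by
    induction n with
    | zero => simp
    | succ n ih => rw [Finset.sum_range_succ, ih, h2, Function.iterate_succ_apply']; ring
  have h4 : Tendsto (fun n : ℕ => φ (T^[n] x) / n) atTop (𝓝 L) := by
    have := hL.add (tendsto_const_div_atTop_nhds_zero_nat (φ x))
    rw [add_zero] at this
    refine this.congr fun n => ?_
    simp only [MP_cc859a_an.av, hs]
    ring
  obtain ⟨N, hN⟩ := exists_nat_ge |φ x|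
  have h5 : |L| ≤ 0 := by
    by_contra hcon
    have hpos : 0 < |L| := not_le.1 hcon
    have e1 := h4.abs.eventually (lt_mem_nhds (half_lt_self hpos))
    have e2 := (tendsto_const_div_atTop_nhds_zero_nat (N : ℝ)).eventually
      (gt_mem_nhds (half_pos hpos))
    obtain ⟨n, hn1, hn2, hn3⟩ := ((h3 N hN).and_eventually (e1.and e2)).exists
    rw [abs_div, Nat.abs_cast] at hn2
    have : |φ (T^[n] x)| / n ≤ (N : ℝ) / n :=
      div_le_div_of_nonneg_right hn1 (Nat.cast_nonneg n)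
    linarith
  rwa [abs_nonpos_iff.1 h5] at h4

theorem birkhoff_erg (hT : Ergodic T μ) {φ : X → ℝ} (hφ : Measurable φ) {B : ℝ}
    (hB : ∀ x, |φ x| ≤ B) :
    ∀ᵐ x ∂μ, Tendsto (fun n : ℕ => (∑ k ∈ Finset.range n, φ (T^[k] x)) / n) atTop
      (𝓝 (∫ y, φ y ∂μ)) := by
  obtain ⟨g, gm, ginv, hlim, hint⟩ := BirkAux.limit hT.toMeasurePreserving hφ hB
  obtain ⟨c, hc⟩ := hT.toPreErgodic.ae_eq_const_of_ae_eq_comp gm ginv
  have h1 := (hint univ MeasurableSet.univ preimage_univ).2
  rw [Measure.restrict_univ, integral_congr_ae hc] at h1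
  have h2 : c = ∫ y, φ y ∂μ := by simpa using h1
  filter_upwards [hc, hlim] with x h3 h4
  rw [← h2]
  rwa [h3] at h4

/-- a function with bounded coboundary is tempered -/
theorem tempered (hT : Ergodic T μ) {ψ : X → ℝ} (hψ : Measurable ψ) {B : ℝ}
    (hB : ∀ᵐ x ∂μ, |ψ (T x) - ψ x| ≤ B) :
    ∀ᵐ x ∂μ, Tendsto (fun n : ℕ => ψ (T^[n] x) / n) atTop (𝓝 0) :=
  BirkAux.tempered hT.toMeasurePreserving hψ hB

/-- returns in short windows -/
theorem returns (hT : Ergodic T μ) {Γ : Set X} (hΓ : MeasurableSet Γ) (h0 : μ Γ ≠ 0) {γ : ℝ}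
    (hγ : 0 < γ) :
    ∀ᵐ x ∂μ, ∀ᶠ n : ℕ in atTop, ∃ l : ℕ, n ≤ l ∧ (l : ℝ) ≤ (1 + γ) * n ∧ T^[l] x ∈ Γ := by
  have hb : ∀ x, |Γ.indicator (fun _ => (1 : ℝ)) x| ≤ 1 := fun x => by
    by_cases hx : x ∈ Γ <;> simp [hx]
  have hc : 0 < μ.real Γ := ENNReal.toReal_pos h0 (measure_ne_top _ _)
  filter_upwards [birkhoff_erg hT (measurable_const.indicator hΓ) hb] with x hx
  rw [integral_indicator_const _ hΓ, smul_eq_mul, mul_one] at hx
  set c := μ.real Γ
  have hm : ∀ n : ℕ, (1 + γ) * n < ((⌊(1 + γ) * n⌋₊ + 1 : ℕ) : ℝ) := fun n => by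
    push_cast
    exact Nat.lt_floor_add_one _
  have hn : ∀ n : ℕ, n ≤ ⌊(1 + γ) * n⌋₊ + 1 := fun n => by
    have h1 : (n : ℝ) ≤ (1 + γ) * n := by nlinarith [(Nat.cast_nonneg n : (0 : ℝ) ≤ n)]
    exact_mod_cast (h1.trans_lt (hm n)).le
  have h1 : c * (1 + γ / 2) / (1 + γ) < c := by
    rw [div_lt_iff₀ (by linarith)]
    nlinarith
  have h2 : c < c * (1 + γ / 2) := by nlinarith
  filter_upwards [(hx.comp (tendsto_atTop_mono hn tendsto_id)).eventually (lt_mem_nhds h1),
    hx.eventually (gt_mem_nhds h2), eventually_gt_atTop 0] with n e1 e2 e3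
  by_contra hcon
  have h3 : ∑ k ∈ Finset.range (⌊(1 + γ) * n⌋₊ + 1), Γ.indicator (fun _ => (1 : ℝ)) (T^[k] x) =
      ∑ k ∈ Finset.range n, Γ.indicator (fun _ => (1 : ℝ)) (T^[k] x) := by
    refine (Finset.sum_subset (Finset.range_mono (hn n)) fun l h4 h5 => ?_).symm
    refine indicator_of_notMem (fun h6 => hcon ⟨l, not_lt.1 fun h => h5 (Finset.mem_range.2 h),
      ?_, h6⟩) _
    exact (Nat.cast_le.2 (Nat.lt_succ_iff.1 (Finset.mem_range.1 h4))).trans
      (Nat.floor_le (by positivity))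
  have e3' : (0 : ℝ) < n := Nat.cast_pos.2 e3
  have h4 := hm n
  simp only [Function.comp_apply, h3] at e1
  rw [div_lt_iff₀ e3'] at e2
  rw [lt_div_iff₀ (lt_trans (by positivity) h4)] at e1
  have h5 : c * (1 + γ / 2) / (1 + γ) * ((1 + γ) * n) = c * (1 + γ / 2) * n := by field_simp
  have h6 := mul_lt_mul_of_pos_left h4 (by positivity : 0 < c * (1 + γ / 2) / (1 + γ))
  linarith

end Pool.Agent.Lib.MP_901be3_an.Hd
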