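import Pool.Agent.Lib.MP_901be3_an.Hd.Defs
import Pool.Agent.Lib.MP_cc859a_an.Birkhoff

namespace Pool.Agent.Lib.MP_901be3_an.Hd

open MeasureTheory Filter Topology Metric Set
open scoped ENNReal

namespace ErgDecAux

open ProbabilityTheory

section

variable {X : Type*} [MeasurableSpace X] {μ : Measure X} [IsFiniteMeasure μ] {T : X → X}

theorem Birk_limit (hT : MeasurePreserving T μ μ) {φ : X → ℝ} (hφ : Measurable φ) {B : ℝ}
    (hB : ∀ x, |φ x| ≤ B) : ∃ g : X → ℝ, Measurable g ∧ g ∘ T = g ∧
      (∀ᵐ x ∂μ, Tendsto (fun n : ℕ => (∑ i ∈ Finset.range n, φ (T^[i] x)) / n) atTop (𝓝 (g x))) ∧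
      ∀ s, MeasurableSet s → T ⁻¹' s = s →
        IntegrableOn g s μ ∧ ∫ x in s, g x ∂μ = ∫ x in s, φ x ∂μ := by
  set A : ℕ → X → ℝ := fun n x => MP_cc859a_an.av (fun k => φ (T^[k] x)) n with hA
  have hAeq : ∀ x, (fun n : ℕ => (∑ i ∈ Finset.range n, φ (T^[i] x)) / n) = fun n => A n x :=
    fun x => funext fun n => by simp only [hA, MP_cc859a_an.av, div_eq_inv_mul]
  have Am : ∀ n, Measurable (A n) := fun n =>
    measurable_const.mul (Finset.measurable_sum _ fun k _ => hφ.comp (hT.measurable.iterate k))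
  have Ab : ∀ n x, |A n x| ≤ B := fun n x => MP_cc859a_an.abs_av_le (fun k => hB _) n
  set g : X → ℝ := fun x => limUnder atTop fun n => A n x with hg
  have gm : Measurable g :=
    (StronglyMeasurable.limUnder fun n => (Am n).stronglyMeasurable).measurable
  have hlim : ∀ᵐ x ∂μ, Tendsto (fun n => A n x) atTop (𝓝 (g x)) := by
    filter_upwards [MP_cc859a_an.birkhoff_real hT hφ hB] with x hx
    exact tendsto_nhds_limUnder hx
  have φi : Integrable φ μ :=
    Integrable.of_bound hφ.aestronglyMeasurable B (Eventually.of_forall hB)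
  refine ⟨g, gm, funext fun x => ?_, by simpa only [hAeq] using hlim, fun s hs hinv => ?_⟩
  · have h0 := MP_cc859a_an.av_shift_sub (T := T) hB x
    have hiff : ∀ L, Tendsto (fun n => A n (T x)) atTop (𝓝 L) ↔
        Tendsto (fun n => A n x) atTop (𝓝 L) := fun L => by
      constructor
      · intro h
        have := h.sub h0
        simpa [hA] using this
      · intro h
        have := h.add h0
        simpa [hA] using this
    simp only [hg, Function.comp_apply, limUnder, lim]
    congr 1
    exact funext fun L => propext (hiff L)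
  · have gb : ∀ᵐ x ∂μ, ‖g x‖ ≤ B := by
      filter_upwards [hlim] with x hx
      exact le_of_tendsto' hx.norm fun n => Ab n x
    have gi : Integrable g μ := Integrable.of_bound gm.aestronglyMeasurable B gb
    refine ⟨gi.integrableOn, ?_⟩
    have hTs : MeasurePreserving T (μ.restrict s) (μ.restrict s) := by
      have := hT.restrict_preimage hs
      rwa [hinv] at this
    have h1 : Tendsto (fun n => ∫ x in s, A n x ∂μ) atTop (𝓝 (∫ x in s, g x ∂μ)) :=
      tendsto_integral_of_dominated_convergence (fun _ => B)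
        (fun n => (Am n).aestronglyMeasurable) (integrable_const B)
        (fun n => Eventually.of_forall (Ab n)) (ae_restrict_of_ae hlim)
    have h2 : ∀ᶠ n in atTop, ∫ x in s, φ x ∂μ = ∫ x in s, A n x ∂μ := by
      filter_upwards [eventually_gt_atTop 0] with n hn
      have hn' : (n : ℝ) ≠ 0 := by exact_mod_cast hn.ne'
      simp only [hA, MP_cc859a_an.av]
      rw [integral_const_mul,
        integral_finsetSum (f := fun k x => φ (T^[k] x)) _ fun k _ =>
        (hTs.iterate k).integrable_comp_of_integrable φi.integrableOn,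
        Finset.sum_congr rfl fun k _ =>
          MP_cc859a_an.integral_comp_mp (hTs.iterate k) hφ.aestronglyMeasurable]
      simp only [Finset.sum_const, Finset.card_range, nsmul_eq_mul]
      field_simp
    exact tendsto_nhds_unique h1 (tendsto_const_nhds.congr' h2)

theorem birkhoff_condExp (hT : MeasurePreserving T μ μ) {φ : X → ℝ} (hφ : Measurable φ) {B : ℝ}
    (hB : ∀ x, |φ x| ≤ B) :
    ∀ᵐ x ∂μ, Tendsto (fun n : ℕ => (∑ i ∈ Finset.range n, φ (T^[i] x)) / n) atTop
      (𝓝 ((μ[φ | MeasurableSpace.invariants T]) x)) := by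
  obtain ⟨g, gm, ginv, hlim, hint⟩ := Birk_limit hT hφ hB
  have φi : Integrable φ μ :=
    Integrable.of_bound hφ.aestronglyMeasurable B (Eventually.of_forall hB)
  have gm' : Measurable[MeasurableSpace.invariants T] g :=
    MeasurableSpace.measurable_invariants_dom.2 ⟨gm, fun s _ => by rw [ginv]⟩
  have h := ae_eq_condExp_of_forall_setIntegral_eq (μ := μ) (MeasurableSpace.invariants_le T) φi
    (g := g) (fun s hs _ => (hint s hs.1 hs.2).1) (fun s hs _ => (hint s hs.1 hs.2).2)
    gm'.stronglyMeasurable.aestronglyMeasurable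
  filter_upwards [h, hlim] with x h1 h2
  rwa [← h1]

end

theorem ErgDec_prod {X : Type*} [MeasurableSpace X] {T : X → X} {ν : Measure X}
    [IsProbabilityMeasure ν] (hT : MeasurePreserving T ν ν) {B C : Set X} (hB : MeasurableSet B)
    (hTB : T ⁻¹' B = B) (hC : MeasurableSet C)
    (h : ∀ᵐ y ∂ν, Tendsto
      (fun n : ℕ => (∑ i ∈ Finset.range n, C.indicator (fun _ => (1 : ℝ)) (T^[i] y)) / n) atTop
      (𝓝 (ν.real C))) : ν (C ∩ B) = ν B * ν C := by
  have hm : ∀ i, Measurable fun y => C.indicator (fun _ => (1 : ℝ)) (T^[i] y) := fun i =>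
    (measurable_const.indicator hC).comp (hT.measurable.iterate i)
  have hb : ∀ z, ‖C.indicator (fun _ => (1 : ℝ)) z‖ ≤ 1 := fun z =>
    (norm_indicator_le_norm_self _ _).trans norm_one.le
  have h1 : ∀ i, ∫ y in B, C.indicator (fun _ => (1 : ℝ)) (T^[i] y) ∂ν = ν.real (C ∩ B) := by
    intro i
    have k1 : T^[i] ⁻¹' B = B := Function.IsFixedPt.preimage_iterate hTB i
    have k2 := hT.measurable.iterate i hC
    have k3 : ∫ y in B, (T^[i] ⁻¹' C).indicator (fun _ => (1 : ℝ)) y ∂ν =
        (ν.restrict B).real (T^[i] ⁻¹' C) := integral_indicator_one k2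
    refine k3.trans ?_
    rw [measureReal_restrict_apply k2, ← (hT.iterate i).measureReal_preimage
      (hC.inter hB).nullMeasurableSet, preimage_inter, k1]
  have h2 := tendsto_integral_of_dominated_convergence (μ := ν.restrict B) (fun _ => (1 : ℝ))
    (fun n => ((Finset.measurable_fun_sum _ fun i _ => hm i).div_const _).aestronglyMeasurable)
    (integrable_const _) (fun n => ae_of_all _ fun y => by
      rw [norm_div, Real.norm_natCast]
      refine div_le_one_of_le₀ ((norm_sum_le _ _).trans ?_) (Nat.cast_nonneg _)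
      simpa using Finset.sum_le_sum fun i (_ : i ∈ Finset.range n) => hb (T^[i] y))
    (ae_restrict_of_ae h)
  have h3 : ∀ᶠ n : ℕ in atTop, ∫ y in B,
      (∑ i ∈ Finset.range n, C.indicator (fun _ => (1 : ℝ)) (T^[i] y)) / n ∂ν = ν.real (C ∩ B) := by
    filter_upwards [eventually_gt_atTop 0] with n hn
    rw [integral_div, integral_finsetSum _ fun i _ =>
      Integrable.of_bound (hm i).aestronglyMeasurable 1 (ae_of_all _ fun y => hb _)]
    simp only [h1, Finset.sum_const, Finset.card_range, nsmul_eq_mul]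
    exact mul_div_cancel_left₀ _ (Nat.cast_ne_zero.2 hn.ne')
  have h4 := tendsto_nhds_unique (tendsto_const_nhds.congr' (h3.mono fun n hn => hn.symm)) h2
  rw [setIntegral_const, smul_eq_mul] at h4
  rw [← ENNReal.toReal_eq_toReal_iff' (measure_ne_top _ _) (by finiteness), ENNReal.toReal_mul]
  exact h4

theorem ErgDec_erg {X : Type*} [mX : MeasurableSpace X] {T : X → X} (hT : Measurable T)
    {ν : Measure X} [IsProbabilityMeasure ν] {G : Set (Set X)} (hG : IsPiSystem G)
    (hgen : mX = MeasurableSpace.generateFrom G) (hi : ∀ C ∈ G, ν (T ⁻¹' C) = ν C)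
    (h : ∀ C ∈ G, ∀ᵐ y ∂ν, Tendsto
      (fun n : ℕ => (∑ i ∈ Finset.range n, C.indicator (fun _ => (1 : ℝ)) (T^[i] y)) / n) atTop
      (𝓝 (ν.real C))) : Ergodic T ν := by
  have hm : ∀ C ∈ G, MeasurableSet C := fun C hC =>
    hgen ▸ MeasurableSpace.measurableSet_generateFrom hC
  have h1 : MeasurePreserving T ν ν := ⟨hT, ext_of_generate_finite G hgen hG
    (fun C hC => by rw [Measure.map_apply hT (hm C hC), hi C hC])
    (by rw [Measure.map_apply hT MeasurableSet.univ, preimage_univ])⟩
  refine ⟨h1, ⟨fun B hB hTB => ?_⟩⟩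
  have h2 : ν.restrict B = ν B • ν := ext_of_generate_finite G hgen hG
    (fun C hC => by
      rw [Measure.restrict_apply (hm C hC), ErgDec_prod h1 hB hTB (hm C hC) (h C hC)]
      rfl)
    (by simp)
  have h3 : ν B * ν Bᶜ = 0 := by
    have h4 := congrArg (fun μ : Measure X => μ Bᶜ) h2
    simp only [Measure.restrict_apply hB.compl, compl_inter_self, measure_empty] at h4
    exact h4.symm
  rw [eventuallyConst_set]
  rcases mul_eq_zero.1 h3 with h4 | h4
  · exact Or.inr (measure_eq_zero_iff_ae_notMem.1 h4)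
  · exact Or.inl h4

theorem ErgDec_int {X : Type*} {m : MeasurableSpace X} [mX : MeasurableSpace X]
    [StandardBorelSpace X] (ξ : Measure X) [IsFiniteMeasure ξ] (hm : m ≤ mX) {A C : Set X}
    (hA : MeasurableSet[m] A) (hC : MeasurableSet C) :
    ∫⁻ x in A, condExpKernel ξ m x C ∂ξ = ξ (A ∩ C) := by
  have h1 := congrArg (fun μ : @Measure (X × X) (m.prod mX) => μ (A ×ˢ C))
    (compProd_trim_condExpKernel (μ := ξ) hm)
  have h2 : @Measurable X (X × X) mX (m.prod mX) Function.diag :=
    (measurable_id'' hm).prodMk measurable_id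
  simp only [Measure.compProd_apply_prod hA hC] at h1
  rw [Measure.map_apply h2 (hA.prod hC), setLIntegral_trim hm (measurable_condExpKernel hC) hA]
    at h1
  exact h1

theorem ErgDec_diag {X : Type*} {m : MeasurableSpace X} [mX : MeasurableSpace X]
    [StandardBorelSpace X] (ξ : Measure X) [IsFiniteMeasure ξ] (hm : m ≤ mX)
    {f : X → ENNReal} (hf : Measurable[m] f) :
    ∀ᵐ x ∂ξ, ∀ᵐ y ∂condExpKernel ξ m x, f x = f y := by
  have h2 : @Measurable X (X × X) mX (m.prod mX) Function.diag :=
    (measurable_id'' hm).prodMk measurable_id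
  have h3 : MeasurableSet[m.prod mX] {p : X × X | f p.1 = f p.2} :=
    measurableSet_eq_fun (hf.comp (@measurable_fst X X m mX))
      ((hf.mono hm le_rfl).comp (@measurable_snd X X m mX))
  refine ae_of_ae_trim hm (Measure.ae_ae_of_ae_compProd (p := fun p => f p.1 = f p.2) ?_)
  rw [compProd_trim_condExpKernel hm]
  exact (@ae_map_iff X (X × X) mX (m.prod mX) ξ _ (@Measurable.aemeasurable X (X × X) mX
    (m.prod mX) _ ξ h2) _ h3).2 (ae_of_all _ fun _ => rfl)

theorem ErgDec_ae {X : Type*} {m : MeasurableSpace X} [mX : MeasurableSpace X]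
    [StandardBorelSpace X] (ξ : Measure X) [IsFiniteMeasure ξ] (hm : m ≤ mX) {p : X → Prop}
    (h : ∀ᵐ y ∂ξ, p y) : ∀ᵐ x ∂ξ, ∀ᵐ y ∂condExpKernel ξ m x, p y := by
  refine ae_of_ae_trim hm (Measure.ae_ae_of_ae_comp ?_)
  rwa [condExpKernel_comp_trim hm]

theorem ErgDec_inv {X : Type*} [MeasurableSpace X] [StandardBorelSpace X] {T : X → X}
    {ξ : Measure X} [IsFiniteMeasure ξ] (hT : MeasurePreserving T ξ ξ) {C : Set X}
    (hC : MeasurableSet C) : ∀ᵐ x ∂ξ, condExpKernel ξ (MeasurableSpace.invariants T) x (T ⁻¹' C) =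
      condExpKernel ξ (MeasurableSpace.invariants T) x C := by
  have hm := MeasurableSpace.invariants_le T
  have hC' := hT.measurable hC
  refine ae_of_ae_trim hm (ae_eq_of_forall_setLIntegral_eq_of_sigmaFinite
    (measurable_condExpKernel hC') (measurable_condExpKernel hC) fun A hA _ => ?_)
  rw [setLIntegral_trim hm (measurable_condExpKernel hC') hA,
    setLIntegral_trim hm (measurable_condExpKernel hC) hA, ErgDec_int ξ hm hA hC',
    ErgDec_int ξ hm hA hC, ← hT.measure_preimage ((hm A hA).inter hC).nullMeasurableSet,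
    preimage_inter, hA.2]

theorem ErgDec_lim {X : Type*} [MeasurableSpace X] [StandardBorelSpace X] {T : X → X}
    {ξ : Measure X} [IsFiniteMeasure ξ] (hT : MeasurePreserving T ξ ξ) {C : Set X}
    (hC : MeasurableSet C) :
    ∀ᵐ x ∂ξ, ∀ᵐ y ∂condExpKernel ξ (MeasurableSpace.invariants T) x, Tendsto
      (fun n : ℕ => (∑ i ∈ Finset.range n, C.indicator (fun _ => (1 : ℝ)) (T^[i] y)) / n) atTop
      (𝓝 ((condExpKernel ξ (MeasurableSpace.invariants T) x).real C)) := by
  have hm := MeasurableSpace.invariants_le T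
  have h1 := birkhoff_condExp hT (φ := C.indicator fun _ => (1 : ℝ))
    (measurable_const.indicator hC) (B := 1)
    fun z => (norm_indicator_le_norm_self (fun _ => (1 : ℝ)) z).trans norm_one.le
  filter_upwards [ErgDec_ae ξ hm (h1.and (condExpKernel_ae_eq_condExp (μ := ξ) hm hC)),
    ErgDec_diag ξ hm (measurable_condExpKernel (μ := ξ) hC)] with x h2 h3
  filter_upwards [h2, h3] with y h4 h5
  rw [measureReal_def, h5, ← measureReal_def, h4.2]
  exact h4.1

end ErgDecAux

open ErgDecAux ProbabilityTheory in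
/-- ergodic decomposition -/
theorem ergdec {X : Type*} [MetricSpace X] [CompactSpace X] [MeasurableSpace X] [BorelSpace X]
    {f : X → X} {ξ : Measure X} [IsFiniteMeasure ξ] (hξ : MeasurePreserving f ξ ξ) :
    ∃ κ : X → Measure X, (∀ x, IsProbabilityMeasure (κ x)) ∧ (∀ᵐ x ∂ξ, Ergodic f (κ x)) ∧
      (∀ s, MeasurableSet s → Measurable[MeasurableSpace.invariants f] fun x => κ x s) ∧
      ∀ B, MeasurableSet[MeasurableSpace.invariants f] B → ∀ s, MeasurableSet s →
        ξ (B ∩ s) = ∫⁻ x in B, κ x s ∂ξ := by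
  have hm := MeasurableSpace.invariants_le f
  refine ⟨condExpKernel ξ (MeasurableSpace.invariants f), fun _ => inferInstance, ?_,
    fun C hC => measurable_condExpKernel hC, fun A hA C hC => (ErgDec_int ξ hm hA hC).symm⟩
  have hc : (generateSetAlgebra (MeasurableSpace.countableGeneratingSet X)).Countable :=
    countable_generateSetAlgebra MeasurableSpace.countable_countableGeneratingSet
  have hgen : ‹MeasurableSpace X› = MeasurableSpace.generateFrom
      (generateSetAlgebra (MeasurableSpace.countableGeneratingSet X)) := by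
    rw [generateFrom_generateSetAlgebra_eq, MeasurableSpace.generateFrom_countableGeneratingSet]
  have hmeas : ∀ C ∈ generateSetAlgebra (MeasurableSpace.countableGeneratingSet X),
      MeasurableSet C := fun C hC => by
    have h := MeasurableSpace.measurableSet_generateFrom hC
    rwa [← hgen] at h
  filter_upwards [(ae_ball_iff hc).2 fun C hC => ErgDec_inv hξ (hmeas C hC),
    (ae_ball_iff hc).2 fun C hC => ErgDec_lim hξ (hmeas C hC)] with x h1 h2
  exact ErgDec_erg (ν := condExpKernel ξ (MeasurableSpace.invariants f) x) hξ.measurable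
    (fun s hs t ht _ => isSetAlgebra_generateSetAlgebra.inter_mem hs ht) hgen h1 h2

end Pool.Agent.Lib.MP_901be3_an.Hd
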