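import Pool.Agent.Lib.MP_901be3_an.Hd.Birk

namespace Pool.Agent.Lib.MP_901be3_an.Hd

open MeasureTheory Filter Topology Metric Set
open scoped ENNReal

namespace KingmanAux

section aux

variable {X : Type*} {T : X → X} {φ : ℕ → X → ℝ} {C : ℝ}

theorem Kingman_sum_add (T : X → X) (g : X → ℝ) (m n : ℕ) (x : X) :
    ∑ i ∈ Finset.range (m + n), g (T^[i] x) =
      ∑ i ∈ Finset.range m, g (T^[i] x) + ∑ i ∈ Finset.range n, g (T^[i] (T^[m] x)) := by
  rw [Finset.sum_range_add]
  congr 1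
  exact Finset.sum_congr rfl fun i _ => by rw [add_comm m i, Function.iterate_add_apply]

theorem Kingman_sum_ge {g : X → ℝ} {B : ℝ} (hg : ∀ x, |g x| ≤ B) (n : ℕ) (x : X) :
    -(n * B) ≤ ∑ i ∈ Finset.range n, g (T^[i] x) ∧ ∑ i ∈ Finset.range n, g (T^[i] x) ≤ n * B := by
  rw [← abs_le]
  refine (Finset.abs_sum_le_sum_abs _ _).trans ((Finset.sum_le_card_nsmul _ _ B
    fun i _ => hg _).trans (le_of_eq ?_))
  rw [Finset.card_range, nsmul_eq_mul]

/-- comparison with the Birkhoff sums of `φ N` -/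
theorem Kingman_upper (hC0 : 0 ≤ C) (hC : ∀ n x, |φ n x| ≤ C * n)
    (hs : ∀ m n x, φ (m + n) x ≤ φ m x + φ n (T^[m] x)) {N : ℕ} (hN : 0 < N) (n : ℕ) (x : X) :
    N * φ n x ≤ ∑ i ∈ Finset.range n, φ N (T^[i] x) + 4 * (N * (C * N)) := by
  have hK : 0 ≤ (N : ℝ) * (C * N) := by positivity
  have hlt : ∀ {m : ℕ}, m ≤ N → (m : ℝ) * (C * N) ≤ N * (C * N) ∧ N * (C * m) ≤ N * (C * N) := by
    intro m hm
    have h1 : (m : ℝ) ≤ N := Nat.cast_le.2 hm
    constructor <;> gcongr
  have key : ∀ (m : ℕ) (y : X), ∑ j ∈ Finset.range N, φ m (T^[j] y) ≤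
      ∑ i ∈ Finset.range m, φ N (T^[i] y) + 2 * (N * (C * N)) := by
    intro m
    induction m using Nat.strong_induction_on with
    | _ m ih =>
      intro y
      rcases lt_or_ge m N with hm | hm
      · have h1 := (Kingman_sum_ge (T := T) (hC m) N y).2
        have h2 := (Kingman_sum_ge (T := T) (hC N) m y).1
        have h3 := hlt hm.le
        linarith [h3.1, h3.2]
      · obtain ⟨k, rfl⟩ := Nat.exists_eq_add_of_le hm
        have h1 := ih k (by omega) (T^[N] y)
        have h2 : ∑ j ∈ Finset.range N, φ (N + k) (T^[j] y) ≤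
            ∑ j ∈ Finset.range N, (φ N (T^[j] y) + φ k (T^[j] (T^[N] y))) :=
          Finset.sum_le_sum fun j _ => by
            have h3 := hs N k (T^[j] y)
            rwa [← Function.iterate_add_apply, add_comm N j, Function.iterate_add_apply] at h3
        rw [Finset.sum_add_distrib] at h2
        rw [Kingman_sum_add]
        linarith
  rcases lt_or_ge n N with hn | hn
  · have h1 : (N : ℝ) * φ n x ≤ N * (C * n) :=
      mul_le_mul_of_nonneg_left ((le_abs_self _).trans (hC n x)) (Nat.cast_nonneg N)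
    have h2 := (Kingman_sum_ge (T := T) (hC N) n x).1
    have h3 := hlt hn.le
    linarith [h3.1, h3.2]
  · obtain ⟨k, rfl⟩ : ∃ k, n = k + N := ⟨n - N, by omega⟩
    have h1 : ∀ j ∈ Finset.range N, φ (k + N) x ≤ φ k (T^[j] x) + C * N := by
      intro j hj
      obtain ⟨i, rfl⟩ := Nat.exists_eq_add_of_le (Finset.mem_range.1 hj).le
      have a1 := hs j (k + i) x
      have a2 := hs k i (T^[j] x)
      have a3 := (le_abs_self _).trans (hC j x)
      have a4 := (le_abs_self _).trans (hC i (T^[k] (T^[j] x)))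
      rw [show k + (j + i) = j + (k + i) by omega]
      push_cast
      linarith
    have h2 := Finset.card_nsmul_le_sum _ _ _ h1
    rw [Finset.card_range, nsmul_eq_mul, Finset.sum_add_distrib, Finset.sum_const,
      Finset.card_range, nsmul_eq_mul] at h2
    have h3 := key k x
    have h4 := (Kingman_sum_ge (T := T) (hC N) N (T^[k] x)).1
    rw [Kingman_sum_add]
    linarith

/-- greedy parsing -/
theorem Kingman_greedy (hC0 : 0 ≤ C) (hC : ∀ n x, |φ n x| ≤ C * n)
    (hs : ∀ m n x, φ (m + n) x ≤ φ m x + φ n (T^[m] x)) (b : ℝ) (L : ℕ) {B : Set X}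
    (hB : ∀ x, x ∉ B → ∃ m, 1 ≤ m ∧ m ≤ L ∧ φ m x ≤ b * m) (n : ℕ) (x : X) :
    φ n x ≤ b * n + (C + |b|) *
      (∑ i ∈ Finset.range n, B.indicator (fun _ => (1 : ℝ)) (T^[i] x) + L) := by
  have hD : 0 ≤ C + |b| := by positivity
  have h0 : ∀ (m : ℕ) (y : X),
      0 ≤ ∑ i ∈ Finset.range m, B.indicator (fun _ => (1 : ℝ)) (T^[i] y) :=
    fun m y => Finset.sum_nonneg fun i _ => indicator_nonneg (fun _ _ => zero_le_one) _
  induction n using Nat.strong_induction_on generalizing x with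
  | _ n ih =>
    rcases le_or_gt n L with hn | hn
    · have h1 := (le_abs_self _).trans (hC n x)
      have h2 : (n : ℝ) ≤ ∑ i ∈ Finset.range n, B.indicator (fun _ => (1 : ℝ)) (T^[i] x) + L := by
        linarith [h0 n x, (Nat.cast_le (α := ℝ)).2 hn]
      have h3 := mul_le_mul_of_nonneg_left h2 hD
      have h4 := mul_le_mul_of_nonneg_right (neg_abs_le b) (Nat.cast_nonneg (α := ℝ) n)
      linarith
    · by_cases hx : x ∈ B
      · obtain ⟨k, rfl⟩ : ∃ k, n = 1 + k := ⟨n - 1, by omega⟩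
        have h1 := hs 1 k x
        have h2 := ih k (by omega) (T^[1] x)
        have h3 := (le_abs_self _).trans (hC 1 x)
        rw [Kingman_sum_add, Finset.sum_range_one, Function.iterate_zero_apply,
          indicator_of_mem hx]
        push_cast at h3 ⊢
        linarith [neg_abs_le b]
      · obtain ⟨m, hm1, hm2, hm⟩ := hB x hx
        obtain ⟨k, rfl⟩ : ∃ k, n = m + k := ⟨n - m, by omega⟩
        have h1 := hs m k x
        have h2 := ih k (by omega) (T^[m] x)
        have h3 := mul_nonneg hD (h0 m x)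
        rw [Kingman_sum_add]
        push_cast
        linarith

/-- the set where the lower limit is less than `b` -/
def Kingman_low (φ : ℕ → X → ℝ) (b : ℝ) : Set X :=
  {x | ∃ q : ℚ, (q : ℝ) < b ∧ ∀ N : ℕ, ∃ n : ℕ, N ≤ n ∧ φ n x ≤ q * n}

theorem Kingman_low_inv (hC : ∀ n x, |φ n x| ≤ C * n)
    (hs : ∀ m n x, φ (m + n) x ≤ φ m x + φ n (T^[m] x)) (b : ℝ) :
    T ⁻¹' Kingman_low φ b ⊆ Kingman_low φ b := by
  rintro x ⟨q, hq, h⟩
  obtain ⟨q', h1, h2⟩ := exists_rat_btwn hq
  obtain ⟨N₀, hN₀⟩ := exists_nat_ge ((C - q') / (q' - q))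
  refine ⟨q', h2, fun N => ?_⟩
  obtain ⟨n, hn, h3⟩ := h (max N N₀)
  refine ⟨1 + n, by omega, ?_⟩
  have h4 := hs 1 n x
  have h5 := (le_abs_self _).trans (hC 1 x)
  have h6 : (N₀ : ℝ) ≤ n := Nat.cast_le.2 (by omega)
  have h7 := (div_le_iff₀ (sub_pos.2 h1)).1 (hN₀.trans h6)
  rw [Function.iterate_one] at h4
  push_cast at h5 ⊢
  linarith

variable [MeasurableSpace X] {μ : Measure X} [IsProbabilityMeasure μ]

theorem Kingman_int {g : X → ℝ} (hg : Measurable g) {B : ℝ} (hB : ∀ x, |g x| ≤ B) :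
    Integrable g μ :=
  Integrable.of_bound hg.aestronglyMeasurable B (Eventually.of_forall hB)

theorem Kingman_lower (hT : MeasurePreserving T μ μ) (hφ : ∀ n, Measurable (φ n)) (hC0 : 0 ≤ C)
    (hC : ∀ n x, |φ n x| ≤ C * n) (hs : ∀ m n x, φ (m + n) x ≤ φ m x + φ n (T^[m] x)) {l b : ℝ}
    (hl : Tendsto (fun n : ℕ => (∫ x, φ n x ∂μ) / n) atTop (𝓝 l))
    (hb : ∀ᵐ x ∂μ, ∃ m, 1 ≤ m ∧ φ m x ≤ b * m) : l ≤ b := by
  let B : ℕ → Set X := fun L => {x | ∀ m : ℕ, 1 ≤ m → m ≤ L → b * m < φ m x}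
  have hBm : ∀ L, MeasurableSet (B L) := fun L =>
    measurableSet_setOfPred.2 (Measurable.forall fun m => measurable_const.imp
      (measurable_const.imp (measurable_const.lt (hφ m))))
  have h1 : ∀ L, l ≤ b + (C + |b|) * μ.real (B L) := by
    intro L
    have hi : ∀ i, Integrable (fun x => (B L).indicator (fun _ => (1 : ℝ)) (T^[i] x)) μ :=
      fun i => (hT.iterate i).integrable_comp_of_integrable ((integrable_const 1).indicator (hBm L))
    have h2 : ∀ n : ℕ, ∫ x, φ n x ∂μ ≤ b * n + (C + |b|) * (n * μ.real (B L) + L) := by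
      intro n
      have hsum := integrable_finsetSum (Finset.range n) fun i _ => hi i
      refine (integral_mono (Kingman_int (hφ n) (hC n)) ((integrable_const _).add
        ((hsum.add (integrable_const _)).const_mul _))
        (Kingman_greedy hC0 hC hs b L (B := B L) (fun x hx => ?_) n)).trans (le_of_eq ?_)
      · by_contra hcon
        exact hx fun m h3 h4 => lt_of_not_ge fun h5 => hcon ⟨m, h3, h4, h5⟩
      · have h3 : ∀ i ∈ Finset.range n,
            ∫ x, (B L).indicator (fun _ => (1 : ℝ)) (T^[i] x) ∂μ = μ.real (B L) := by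
          intro i _
          rw [MP_cc859a_an.integral_comp_mp (hT.iterate i)
            (aestronglyMeasurable_const.indicator (hBm L)), integral_indicator_const _ (hBm L),
            smul_eq_mul, mul_one]
        rw [integral_add' (integrable_const _) ((hsum.add (integrable_const _)).const_mul _),
          integral_const_mul (C + |b|), integral_add' hsum (integrable_const _),
          integral_finsetSum _ fun i _ => hi i, Finset.sum_congr rfl h3]
        simp
    have h4 : Tendsto (fun n : ℕ => b + (C + |b|) * μ.real (B L) + (C + |b|) * L / n) atTop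
        (𝓝 (b + (C + |b|) * μ.real (B L) + 0)) :=
      tendsto_const_nhds.add (tendsto_const_div_atTop_nhds_zero_nat _)
    rw [add_zero] at h4
    refine le_of_tendsto_of_tendsto hl h4 ((eventually_gt_atTop 0).mono fun n hn => ?_)
    have hn' : (0 : ℝ) < n := Nat.cast_pos.2 hn
    dsimp only
    rw [div_le_iff₀ hn', add_mul, div_mul_cancel₀ _ hn'.ne']
    linarith [h2 n]
  have h5 : μ (⋂ L, B L) = 0 := by
    refine measure_mono_null (fun x hx => ?_) (ae_iff.1 hb)
    rintro ⟨m, h6, h7⟩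
    exact absurd (mem_iInter.1 hx m m h6 le_rfl) (not_lt.2 h7)
  have h6 := tendsto_measure_iInter_atTop (μ := μ) (fun L => (hBm L).nullMeasurableSet)
    (fun L L' h x hx m h7 h8 => hx m h7 (h8.trans h)) ⟨0, measure_ne_top _ _⟩
  rw [h5] at h6
  have h7 : Tendsto (fun L => b + (C + |b|) * μ.real (B L)) atTop (𝓝 (b + (C + |b|) * 0)) :=
    tendsto_const_nhds.add (((ENNReal.tendsto_toReal ENNReal.zero_ne_top).comp h6).const_mul _)
  rw [mul_zero, add_zero] at h7
  exact ge_of_tendsto' h7 h1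

end aux

/-- Let `l = lim (∫ φ n) / n` (Fekete).  Upper bound: for fixed `N ≥ 1`,
`φ n x ≤ (1/N) ∑_{i<n} φ N (T^i x) + 4 C N`, then `birkhoff_erg`.  Lower bound: `liminf φ n x / n`
satisfies `u x ≤ u (T x)`, so it is a.e. a constant `c`; with `N x` the least `n ≥ 1` such that
`φ n x ≤ n (c + ε)` and `B_L = {N > L}`, parse `[0, n)` greedily to get
`φ n x ≤ n (c + ε) + C' (card {i < n | T^i x ∈ B_L} + L)` for all `x`; integrate. -/
theorem kingman_swap {X : Type*} [MeasurableSpace X] {μ : Measure X} [IsProbabilityMeasure μ]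
    {T : X → X} (hT : Ergodic T μ) {φ : ℕ → X → ℝ} (hφ : ∀ n, Measurable (φ n)) {C : ℝ}
    (hC : ∀ n x, |φ n x| ≤ C * n) (hs : ∀ m n x, φ (m + n) x ≤ φ m x + φ n (T^[m] x)) :
    ∃ l : ℝ, (∀ᵐ x ∂μ, Tendsto (fun n : ℕ => φ n x / n) atTop (𝓝 l)) ∧
      Tendsto (fun n : ℕ => (∫ x, φ n x ∂μ) / n) atTop (𝓝 l) := by
  obtain ⟨x₀⟩ := nonempty_of_isProbabilityMeasure μ
  have hC0 : 0 ≤ C := by simpa using (abs_nonneg _).trans (hC 1 x₀)
  have hint : ∀ n, Integrable (φ n) μ := fun n => Kingman_int (hφ n) (hC n)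
  have hsub : Subadditive fun n => ∫ x, φ n x ∂μ := by
    intro m n
    have h1 := (hT.toMeasurePreserving.iterate m).integrable_comp_of_integrable (hint n)
    refine (integral_mono (hint _) ((hint m).add h1) (hs m n)).trans (le_of_eq ?_)
    exact (integral_add (hint m) h1).trans (congrArg _ (MP_cc859a_an.integral_comp_mp
      (hT.toMeasurePreserving.iterate m) (hφ n).aestronglyMeasurable))
  have hbdd : BddBelow (range fun n : ℕ => (∫ x, φ n x ∂μ) / n) := by
    refine ⟨-C, ?_⟩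
    rintro _ ⟨n, rfl⟩
    rcases Nat.eq_zero_or_pos n with rfl | hn
    · simpa using hC0
    · have h1 : ‖∫ x, φ n x ∂μ‖ ≤ C * n * μ.real univ :=
        norm_integral_le_of_norm_le_const (Eventually.of_forall (hC n))
      rw [probReal_univ, mul_one, Real.norm_eq_abs] at h1
      rw [le_div_iff₀ (Nat.cast_pos.2 hn)]
      linarith [(abs_le.1 h1).1]
  have hl := hsub.tendsto_lim hbdd
  refine ⟨hsub.lim, ?_, hl⟩
  have h1 : ∀ q : ℚ, ∀ᵐ x ∂μ, (q : ℝ) < hsub.lim → x ∉ Kingman_low φ q := by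
    intro q
    have hm : MeasurableSet (Kingman_low φ q) :=
      measurableSet_setOfPred.2 (Measurable.exists fun q' => measurable_const.and
        (Measurable.forall fun N => Measurable.exists fun n => measurable_const.and
          ((hφ n).le' measurable_const)))
    rcases hT.ae_empty_or_univ_of_preimage_ae_le hm.nullMeasurableSet
      (Kingman_low_inv hC hs q).eventuallyLE with h | h
    · filter_upwards [ae_eq_empty.1 h |> measure_eq_zero_iff_ae_notMem.1] with x hx _ using hx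
    · refine Eventually.of_forall fun x hq => absurd (Kingman_lower hT.toMeasurePreserving hφ hC0
        hC hs hl ?_) (not_le.2 hq)
      filter_upwards [mem_ae_iff.2 (ae_eq_univ.1 h)] with y hy
      obtain ⟨q', a1, a2⟩ := hy
      obtain ⟨n, a3, a4⟩ := a2 1
      exact ⟨n, a3, a4.trans (mul_le_mul_of_nonneg_right a1.le (Nat.cast_nonneg n))⟩
  filter_upwards [ae_all_iff.2 h1, ae_all_iff.2 fun N => birkhoff_erg hT (hφ N) (hC N)]
    with x hx1 hx2
  refine tendsto_order.2 ⟨fun a ha => ?_, fun a ha => ?_⟩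
  · obtain ⟨q, a1, a2⟩ := exists_rat_btwn ha
    obtain ⟨q', a3, a4⟩ := exists_rat_btwn a1
    have h2 : ¬ ∀ N : ℕ, ∃ n : ℕ, N ≤ n ∧ φ n x ≤ q' * n := fun h => hx1 q a2 ⟨q', a4, h⟩
    obtain ⟨N, hN⟩ := not_forall.1 h2
    filter_upwards [eventually_ge_atTop N, eventually_gt_atTop 0] with n b1 b2
    refine a3.trans ((lt_div_iff₀ (Nat.cast_pos.2 b2)).2 (lt_of_not_ge fun h => hN ⟨n, b1, h⟩))
  · obtain ⟨N, b1, b2⟩ := ((hl.eventually (gt_mem_nhds ha)).and (eventually_gt_atTop 0)).exists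
    have hN : (0 : ℝ) < N := Nat.cast_pos.2 b2
    have h2 := ((hx2 N).add (tendsto_const_div_atTop_nhds_zero_nat (4 * (N * (C * N))))).div_const
      (N : ℝ)
    rw [add_zero] at h2
    filter_upwards [h2.eventually (gt_mem_nhds b1)] with n hn
    refine lt_of_le_of_lt ?_ hn
    rw [← add_div, le_div_iff₀ hN, div_mul_eq_mul_div, mul_comm]
    exact div_le_div_of_nonneg_right (Kingman_upper hC0 hC hs b2 n x) (Nat.cast_nonneg n)

end KingmanAux

/-- subadditive ergodic theorem, bounded ergodic case -/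
theorem kingman {X : Type*} [MeasurableSpace X] {μ : Measure X} [IsProbabilityMeasure μ]
    {T : X → X} (hT : Ergodic T μ) {φ : ℕ → X → ℝ} (hφ : ∀ n, Measurable (φ n)) {B : ℝ}
    (hB : ∀ n x, |φ n x| ≤ B * n)
    (hsub : ∀ m n x, φ (m + n) x ≤ φ m x + φ n (T^[m] x)) :
    ∃ l : ℝ, Tendsto (fun n : ℕ => (∫ x, φ n x ∂μ) / n) atTop (𝓝 l) ∧
      ∀ᵐ x ∂μ, Tendsto (fun n : ℕ => φ n x / n) atTop (𝓝 l) := by
  obtain ⟨l, h1, h2⟩ := KingmanAux.kingman_swap hT hφ hB hsub
  exact ⟨l, h2, h1⟩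

end Pool.Agent.Lib.MP_901be3_an.Hd
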