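import Pool.Agent.Lib.MP_901be3_an.Hd.Defs

namespace Pool.Agent.Lib.MP_901be3_an.Hd

open MeasureTheory Filter Topology Metric Set
open scoped ENNReal

namespace LimitAux

variable {X : Type*} [MetricSpace X] [CompactSpace X] [MeasurableSpace X] [BorelSpace X]

omit [MetricSpace X] [CompactSpace X] [BorelSpace X] in
theorem fin_of_le {μ : Measure X} (h : μ univ ≤ 1) : IsFiniteMeasure μ :=
  ⟨h.trans_lt ENNReal.one_lt_top⟩

theorem integ (μ : Measure X) [IsFiniteMeasure μ] {u : X → ℝ} (hu : Continuous u) :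
    Integrable u μ :=
  hu.integrable_of_hasCompactSupport (HasCompactSupport.of_compactSpace u)

/-- weak limit along an ultrafilter -/
theorem exists_lim {J : Type*} (𝒱 : Ultrafilter J) (μ : J → Measure X) (h : ∀ j, μ j univ ≤ 1) :
    ∃ ν : Measure X, ν univ ≤ 1 ∧ ∀ φ : X → ℝ, Continuous φ →
      Tendsto (fun j => ∫ x, φ x ∂μ j) (𝒱 : Filter J) (𝓝 (∫ x, φ x ∂ν)) := by
  let m : J → FiniteMeasure X := fun j => ⟨μ j, fin_of_le (h j)⟩
  have hm : ∀ j, (m j).mass ≤ 1 := fun j => by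
    rw [← ENNReal.coe_le_coe, FiniteMeasure.ennreal_mass]
    exact h j
  obtain ⟨ν, hν, hl⟩ := (isCompact_setOfPred_finiteMeasure_le_of_compactSpace X 1).ultrafilter_le_nhds'
    (𝒱.map m) (Ultrafilter.mem_map.2 (by
      rw [show m ⁻¹' {μ : FiniteMeasure X | μ.mass ≤ 1} = univ from eq_univ_of_forall hm]
      exact univ_mem))
  refine ⟨ν, ?_, fun φ hφ => ?_⟩
  · rw [← FiniteMeasure.ennreal_mass]
    exact_mod_cast hν
  · have ht : Tendsto m (𝒱 : Filter J) (𝓝 ν) := hl
    exact FiniteMeasure.tendsto_iff_forall_integral_tendsto.1 ht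
      (BoundedContinuousFunction.mkOfCompact ⟨φ, hφ⟩)

omit [MeasurableSpace X] [BorelSpace X] in
theorem unif_iter {I : Type*} {l : Filter I} {g : I → X → X} {f : X → X} (hf : Continuous f)
    (h : TendstoUniformly g f l) (j : ℕ) : TendstoUniformly (fun n => (g n)^[j]) (f^[j]) l := by
  induction j with
  | zero => exact Metric.tendstoUniformly_iff.2 fun ε hε => Eventually.of_forall fun n x => by simpa
  | succ j ih =>
    have h1 := (CompactSpace.uniformContinuous_of_continuous (hf.iterate j)).comp_tendstoUniformly h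
    refine Metric.tendstoUniformly_iff.2 fun ε hε => ?_
    filter_upwards [Metric.tendstoUniformly_iff.1 h1 _ (half_pos hε),
      Metric.tendstoUniformly_iff.1 ih _ (half_pos hε)] with n a b x
    exact (dist_triangle _ _ _).trans_lt ((add_lt_add (a x) (b (g n x))).trans_eq (add_halves ε))

theorem int_comp {Y : Type*} [MetricSpace Y] [CompactSpace Y] {I : Type*} {l : Filter I}
    {G : I → X → Y} {F : X → Y} (hF : Continuous F) (hG : ∀ n, Continuous (G n))
    (h : TendstoUniformly G F l) {μ : I → Measure X} (hμ : ∀ j, μ j univ ≤ 1) {ν : Measure X}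
    (hl : ∀ φ : X → ℝ, Continuous φ → Tendsto (fun j => ∫ x, φ x ∂μ j) l (𝓝 (∫ x, φ x ∂ν)))
    {φ : Y → ℝ} (hφ : Continuous φ) :
    Tendsto (fun n => ∫ x, φ (G n x) ∂μ n) l (𝓝 (∫ x, φ (F x) ∂ν)) := by
  have h1 := (CompactSpace.uniformContinuous_of_continuous hφ).comp_tendstoUniformly h
  refine (hl _ (hφ.comp hF)).congr_dist (Metric.tendsto_nhds.2 fun ε hε => ?_)
  filter_upwards [Metric.tendstoUniformly_iff.1 h1 _ (half_pos hε)] with n hn
  have := fin_of_le (hμ n)
  rw [dist_zero_right, Real.norm_of_nonneg dist_nonneg, dist_eq_norm]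
  refine lt_of_le_of_lt ?_ (half_lt_self hε)
  refine (congrArg norm (integral_sub (integ _ (hφ.comp hF))
    (integ _ (hφ.comp (hG n)))).symm).trans_le
    ((norm_integral_le_of_norm_le_const (Eventually.of_forall fun x => (hn x).le)).trans ?_)
  have : (μ n).real univ ≤ 1 := by
    rw [Measure.real_def]
    exact ENNReal.toReal_le_of_le_ofReal zero_le_one (by simpa using hμ n)
  nlinarith

theorem real_le_int (μ : Measure X) [IsFiniteMeasure μ] {S : Set X} {u : X → ℝ}
    (hu : Continuous u) (h0 : ∀ x, 0 ≤ u x) (h1 : ∀ x ∈ S, 1 ≤ u x) :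
    μ.real S ≤ ∫ x, u x ∂μ := by
  have hm : MeasurableSet {x | 1 ≤ u x} := (isClosed_le continuous_const hu).measurableSet
  calc μ.real S ≤ μ.real {x | 1 ≤ u x} := measureReal_mono h1
    _ ≤ ∫ x, u x ∂μ := by
      have := mul_meas_ge_le_integral_of_nonneg (μ := μ) (Eventually.of_forall h0) (integ μ hu) 1
      simpa using this

end LimitAux

open LimitAux in
/-- limit of almost invariant measures along an ultrafilter -/
theorem limit_measure {X : Type*} [MetricSpace X] [CompactSpace X] [MeasurableSpace X]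
    [BorelSpace X] {I : Type*} (𝒰 : Ultrafilter I) {f : X → X} (hf : Continuous f)
    {g : I → X → X} (hg : ∀ k, Continuous (g k))
    (hconv : ∀ γ > 0, ∀ᶠ k in (𝒰 : Filter I), ∀ x, dist (g k x) (f x) ≤ γ)
    (ξ : I → ℕ → Measure X) (hmass : ∀ k M, ξ k M univ ≤ 1)
    (hmono : ∀ k M M', M ≤ M' → ξ k M ≤ ξ k M')
    (hinv : ∀ γ > 0, ∃ M₁, ∀ M ≥ M₁, ∀ᶠ k in (𝒰 : Filter I), ∀ φ : X → ℝ, Continuous φ →
      (∀ x, |φ x| ≤ 1) → |∫ x, φ (g k x) ∂ξ k M - ∫ x, φ x ∂ξ k M| ≤ γ) :
    ∃ ζ : Measure X, ζ univ ≤ 1 ∧ MeasurePreserving f ζ ζ ∧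
      (∀ γ > 0, ∃ M₁, ∀ M ≥ M₁, ∀ᶠ k in (𝒰 : Filter I), ζ.real univ - γ ≤ (ξ k M).real univ) ∧
      ∀ (K : ℕ) (Q : X → Fin K) (Lb : ℕ), (∀ a, ζ (frontier (Q ⁻¹' {a})) = 0) → ∀ γ > 0, ∀ M,
        ∀ᶠ k in (𝒰 : Filter I), ∀ w, (ξ k M).real (name (g k) Q Lb ⁻¹' {w}) ≤
          ζ.real (name f Q Lb ⁻¹' {w}) + γ := by
  have hU : TendstoUniformly g f (𝒰 : Filter I) := Metric.tendstoUniformly_iff.2 fun ε hε =>
    (hconv _ (half_pos hε)).mono fun k hk x => by
      rw [dist_comm]; exact (hk x).trans_lt (half_lt_self hε)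
  choose ζM hM1 hM using fun M => exists_lim 𝒰 (fun k => ξ k M) (fun k => hmass k M)
  obtain ⟨ζ, hζ1, hζ⟩ := exists_lim (hyperfilter ℕ) ζM hM1
  have := fin_of_le hζ1
  have hev : ∀ M : ℕ, ∀ᶠ M' in (hyperfilter ℕ : Filter ℕ), M ≤ M' := fun M =>
    (Nat.hyperfilter_le_atTop) (eventually_ge_atTop M)
  have hmon : ∀ φ : X → ℝ, Continuous φ → (∀ x, 0 ≤ φ x) → ∀ M M', M ≤ M' →
      ∫ x, φ x ∂ζM M ≤ ∫ x, φ x ∂ζM M' := fun φ hφ h0 M M' hMM =>
    le_of_tendsto_of_tendsto' (hM M φ hφ) (hM M' φ hφ) fun k => by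
      have := fin_of_le (hmass k M')
      exact integral_mono_measure (hmono k M M' hMM) (Eventually.of_forall h0) (integ _ hφ)
  have hle : ∀ φ : X → ℝ, Continuous φ → (∀ x, 0 ≤ φ x) → ∀ M,
      ∫ x, φ x ∂ζM M ≤ ∫ x, φ x ∂ζ := fun φ hφ h0 M =>
    ge_of_tendsto (hζ φ hφ) ((hev M).mono fun M' h => hmon φ hφ h0 M M' h)
  have hinv1 : ∀ φ : X → ℝ, Continuous φ → (∀ x, |φ x| ≤ 1) →
      ∫ x, φ (f x) ∂ζ = ∫ x, φ x ∂ζ := fun φ hφ h1 => by
    rw [← sub_eq_zero, ← abs_nonpos_iff]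
    refine le_of_forall_pos_le_add fun γ hγ => ?_
    rw [zero_add]
    obtain ⟨M₁, hM₁⟩ := hinv γ hγ
    refine le_of_tendsto ((hζ _ (hφ.comp hf)).sub (hζ φ hφ)).abs ((hev M₁).mono fun M h => ?_)
    exact le_of_tendsto ((int_comp hf hg hU (fun k => hmass k M) (hM M) hφ).sub (hM M φ hφ)).abs
      ((hM₁ M h).mono fun k hk => hk φ hφ h1)
  have hmp : MeasurePreserving f ζ ζ := by
    refine ⟨hf.measurable, ext_of_forall_integral_eq_of_IsFiniteMeasure fun φ => ?_⟩
    rw [integral_map hf.aemeasurable φ.continuous.aestronglyMeasurable]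
    have hC : 0 < ‖φ‖ + 1 := by positivity
    have := hinv1 (fun x => (‖φ‖ + 1)⁻¹ * φ x) (continuous_const.mul φ.continuous) fun x => by
      rw [abs_mul, abs_of_pos (inv_pos.2 hC), inv_mul_le_iff₀ hC, mul_one]
      exact (φ.norm_coe_le_norm x).trans (by linarith)
    rw [integral_const_mul, integral_const_mul] at this
    exact mul_left_cancel₀ (inv_pos.2 hC).ne' this
  refine ⟨ζ, hζ1, hmp, fun γ hγ => ?_, fun K Q Lb hQ γ hγ M => ?_⟩
  · have h1 := hζ (fun _ => 1) continuous_const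
    obtain ⟨M₁, hM₁⟩ := (h1.eventually (lt_mem_nhds (sub_lt_self _ hγ))).exists
    refine ⟨M₁, fun M h => ?_⟩
    have h2 := (hM M (fun _ => 1) continuous_const).eventually (lt_mem_nhds
      (hM₁.trans_le (hmon (fun _ => 1) continuous_const (fun _ => zero_le_one) M₁ M h)))
    refine h2.mono fun k hk => ?_
    simpa using hk.le
  · refine eventually_all.2 fun w => ?_
    have hc : ∀ u : X → X, Continuous u → Continuous fun x (i : Fin Lb) => u^[i] x := fun u hu =>
      continuous_pi fun i => hu.iterate i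
    set G : Set (Fin Lb → X) := ⋂ i, (fun y => y i) ⁻¹' closure (Q ⁻¹' {w i}) with hG
    have hGc : IsClosed G := isClosed_iInter fun i => isClosed_closure.preimage (continuous_apply i)
    -- the closed set has the measure of the atom
    have hF : (ζ.map fun x (i : Fin Lb) => f^[i] x).real G ≤ ζ.real (name f Q Lb ⁻¹' {w}) := by
      rw [Measure.real_def, Measure.real_def, Measure.map_apply (hc f hf).measurable
        hGc.measurableSet]
      refine ENNReal.toReal_mono (measure_ne_top _ _) ?_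
      have hn : ζ (⋃ i : Fin Lb, f^[i] ⁻¹' frontier (Q ⁻¹' {w i})) = 0 :=
        measure_iUnion_null fun i => ((hmp.iterate i).measure_preimage
          isClosed_frontier.measurableSet.nullMeasurableSet).trans (hQ _)
      refine (measure_mono (t := name f Q Lb ⁻¹' {w} ∪
        ⋃ i : Fin Lb, f^[i] ⁻¹' frontier (Q ⁻¹' {w i})) fun x hx => ?_).trans
        ((measure_union_le _ _).trans_eq (by rw [hn, add_zero]))
      by_cases h : x ∈ ⋃ i : Fin Lb, f^[i] ⁻¹' frontier (Q ⁻¹' {w i})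
      · exact Or.inr h
      · refine Or.inl (funext fun i => ?_)
        have h1 : f^[i] x ∈ closure (Q ⁻¹' {w i}) := mem_iInter.1 hx i
        have h2 : f^[i] x ∉ frontier (Q ⁻¹' {w i}) := fun h2 => h (mem_iUnion.2 ⟨i, h2⟩)
        have h3 : f^[i] x ∈ interior (Q ⁻¹' {w i}) := by
          by_contra h3
          exact h2 ⟨h1, h3⟩
        have h4 : f^[i] x ∈ Q ⁻¹' {w i} := interior_subset h3
        exact h4
    obtain ⟨n, hn⟩ := ((tendsto_integral_thickenedIndicator_of_isClosed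
      (ζ.map fun x (i : Fin Lb) => f^[i] x) hGc (δs := fun n : ℕ => 1 / ((n : ℝ) + 1))
      (fun n => Nat.one_div_pos_of_nat) tendsto_one_div_add_atTop_nhds_zero_nat).eventually
      (gt_mem_nhds (lt_add_of_pos_right _ hγ))).exists
    set ψ : (Fin Lb → X) → ℝ := fun y =>
      (thickenedIndicator (Nat.one_div_pos_of_nat (α := ℝ) (n := n)) G y : ℝ) with hψ
    have hψc : Continuous ψ := NNReal.continuous_coe.comp (BoundedContinuousFunction.continuous _)
    rw [integral_map (hc f hf).aemeasurable hψc.aestronglyMeasurable] at hn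
    have hUn : TendstoUniformly (fun k x (i : Fin Lb) => (g k)^[i] x)
        (fun x (i : Fin Lb) => f^[i] x) (𝒰 : Filter I) :=
      Metric.tendstoUniformly_iff.2 fun ε hε => (eventually_all.2 fun i : Fin Lb =>
        Metric.tendstoUniformly_iff.1 (unif_iter hf hU i) ε hε).mono
          fun _ hk x => (dist_pi_lt_iff hε).2 fun i => hk i x
    have h1 := int_comp (hc f hf) (fun k => hc _ (hg k)) hUn (fun k => hmass k M) (hM M) hψc
    have h2 := hle (fun x => ψ fun i : Fin Lb => f^[i] x) (hψc.comp (hc f hf))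
      (fun x => NNReal.coe_nonneg _) M
    filter_upwards [h1.eventually (gt_mem_nhds (h2.trans_lt hn))] with k hk
    have := fin_of_le (hmass k M)
    refine (real_le_int (ξ k M) (hψc.comp (hc _ (hg k))) (fun x => NNReal.coe_nonneg _)
      fun x hx => ?_).trans (hk.le.trans (by linarith))
    have hx' : (fun i : Fin Lb => (g k)^[i] x) ∈ G :=
      mem_iInter.2 fun i => subset_closure (congrFun hx i)
    simp only [Function.comp, hψ, thickenedIndicator_one _ G hx', NNReal.coe_one, le_refl]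

end Pool.Agent.Lib.MP_901be3_an.Hd
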