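import Pool.Agent.Lib.MP_901be3_an.Hd.Defs

namespace Pool.Agent.Lib.MP_901be3_an.Hd

open MeasureTheory Filter Topology Metric Set
open scoped ENNReal

open Manifold

namespace AAtlasAux

/-- restriction of a chart to the preimage of a ball -/
def cut {M : Type*} [TopologicalSpace M] (E : OpenPartialHomeomorph M V) (r : ℝ) :
    OpenPartialHomeomorph M V := (E.symm.restrOpen (ball 0 r) isOpen_ball).symm

lemma cut_source {M : Type*} [TopologicalSpace M] (E : OpenPartialHomeomorph M V) (r : ℝ) (x : M) :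
    x ∈ (cut E r).source ↔ x ∈ E.source ∧ ‖E x‖ < r := by
  have : (cut E r).source = E.source ∩ E ⁻¹' ball 0 r := rfl
  rw [this, mem_inter_iff, mem_preimage, mem_ball_zero_iff]

lemma cut_target {M : Type*} [TopologicalSpace M] (E : OpenPartialHomeomorph M V) (r : ℝ) :
    (cut E r).target = E.target ∩ ball 0 r := rfl

lemma cut_apply {M : Type*} [TopologicalSpace M] (E : OpenPartialHomeomorph M V) (r : ℝ) :
    ⇑(cut E r) = E := rfl

lemma cut_symm {M : Type*} [TopologicalSpace M] (E : OpenPartialHomeomorph M V) (r : ℝ) :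
    ⇑(cut E r).symm = E.symm := rfl

variable {M : Type*} [TopologicalSpace M] [ChartedSpace E2 M]

/-- smooth chart onto the ball of radius five -/
structure Ch (E : OpenPartialHomeomorph M V) : Prop where
  tgt : E.target = ball 0 5
  sm : ContMDiffOn (𝓡 2) 𝓘(ℝ, V) (⊤ : ℕ∞) E E.source
  sm' : ContMDiffOn 𝓘(ℝ, V) (𝓡 2) (⊤ : ℕ∞) E.symm E.target

lemma exists_ch [IsManifold (𝓡 2) (⊤ : ℕ∞) M] (x : M) :
    ∃ E : OpenPartialHomeomorph M V, Ch E ∧ x ∈ E.source ∧ E x = 0 := by
  let φ : E2 ≃L[ℝ] V :=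
    (EuclideanSpace.equiv (Fin 2) ℝ).trans (ContinuousLinearEquiv.finTwoArrow ℝ ℝ)
  let c := chartAt E2 x
  have hx : x ∈ c.source := mem_chart_source E2 x
  have ho : IsOpen (φ.symm ⁻¹' c.target) := c.open_target.preimage φ.symm.continuous
  obtain ⟨ρ, hρ, hb⟩ := Metric.isOpen_iff.1 ho (φ (c x)) (by simpa using c.map_source hx)
  have hr : (0 : ℝ) < ρ / 5 := by positivity
  let h : E2 ≃ₜ V :=
    { toFun := fun w => (ρ / 5)⁻¹ • (φ w - φ (c x))
      invFun := fun v => φ.symm ((ρ / 5) • v + φ (c x))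
      left_inv := fun w => by
        simp only [smul_smul, mul_inv_cancel₀ hr.ne', one_smul, sub_add_cancel,
          ContinuousLinearEquiv.symm_apply_apply]
      right_inv := fun v => by
        simp only [ContinuousLinearEquiv.apply_symm_apply, add_sub_cancel_right, smul_smul,
          inv_mul_cancel₀ hr.ne', one_smul]
      continuous_toFun := by fun_prop
      continuous_invFun := by fun_prop }
  have hh : ContDiff ℝ (⊤ : ℕ∞) (fun w : E2 => (ρ / 5)⁻¹ • (φ w - φ (c x))) :=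
    (φ.contDiff.sub contDiff_const).const_smul _
  have hh' : ContDiff ℝ (⊤ : ℕ∞) (fun v : V => φ.symm ((ρ / 5) • v + φ (c x))) :=
    φ.symm.contDiff.comp ((contDiff_id.const_smul _).add contDiff_const)
  have hsub : ∀ v : V, v ∈ ball (0 : V) 5 → φ.symm ((ρ / 5) • v + φ (c x)) ∈ c.target := by
    intro v hv
    refine hb ?_
    rw [mem_ball_iff_norm, add_sub_cancel_right, norm_smul, Real.norm_eq_abs, abs_of_pos hr]
    have := mem_ball_zero_iff.1 hv
    nlinarith
  have h0 : (c.transHomeomorph h) x = 0 := by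
    change (ρ / 5)⁻¹ • (φ (c x) - φ (c x)) = 0
    rw [sub_self, smul_zero]
  refine ⟨cut (c.transHomeomorph h) 5, ⟨?_, ?_, ?_⟩, ?_, h0⟩
  · rw [cut_target]
    exact inter_eq_right.2 fun v hv => hsub v hv
  · have h1 : ContMDiffOn (𝓡 2) (𝓡 2) (⊤ : ℕ∞) c c.source := contMDiffOn_chart
    exact (hh.contMDiff.comp_contMDiffOn h1).mono fun y hy => ((cut_source _ _ _).1 hy).1
  · have h1 : ContMDiffOn (𝓡 2) (𝓡 2) (⊤ : ℕ∞) c.symm c.target := contMDiffOn_chart_symm
    exact h1.comp hh'.contMDiff.contMDiffOn fun v hv => hsub v hv.2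
  · exact (cut_source _ _ _).2 ⟨hx, by rw [h0, norm_zero]; norm_num⟩

lemma exists_cover [IsManifold (𝓡 2) (⊤ : ℕ∞) M] [CompactSpace M] :
    ∃ (K : ℕ) (E : Fin K → OpenPartialHomeomorph M V), (∀ i, Ch (E i)) ∧
      ∀ y, ∃ i, y ∈ (E i).source ∧ ‖E i y‖ < 1 := by
  choose E hE hx h0 using exists_ch (M := M)
  obtain ⟨t, ht⟩ := isCompact_univ.elim_finite_subcover (fun x => (cut (E x) 1).source)
    (fun x => (cut (E x) 1).open_source) fun x _ => mem_iUnion.2
      ⟨x, (cut_source _ _ _).2 ⟨hx x, by rw [h0, norm_zero]; norm_num⟩⟩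
  refine ⟨t.card, fun i => E (t.equivFin.symm i), fun i => hE _, fun y => ?_⟩
  obtain ⟨x, hxt, hy⟩ := mem_iUnion₂.1 (ht (mem_univ y))
  refine ⟨t.equivFin ⟨x, hxt⟩, ?_⟩
  simp only [Equiv.symm_apply_apply]
  exact (cut_source _ _ _).1 hy

/-- the cut-off function -/
noncomputable def bump : ContDiffBump (0 : V) := ⟨3, 4, by norm_num, by norm_num⟩

/-- one coordinate of the embedding -/
noncomputable def G (v : V) : ℝ × V := (bump v, bump v • v)

lemma G_smooth : ContDiff ℝ (⊤ : ℕ∞) G :=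
  bump.contDiff.prodMk (bump.contDiff.smul contDiff_id)

lemma G_one {v : V} (hv : ‖v‖ < 3) : G v = (1, v) := by
  have : bump v = 1 := bump.one_of_mem_closedBall (mem_closedBall_zero_iff.2 hv.le)
  rw [G, this, one_smul]

lemma G_zero {v : V} (hv : 4 ≤ ‖v‖) : G v = 0 := by
  have : bump v = 0 := bump.zero_of_le_dist (by rwa [dist_zero_right])
  rw [G, this, zero_smul]
  rfl

open Classical in
/-- extension by zero -/
noncomputable def Jc (E : OpenPartialHomeomorph M V) (y : M) : ℝ × V :=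
  if y ∈ E.source then G (E y) else 0

omit [ChartedSpace E2 M] in
lemma Jc_of_mem {E : OpenPartialHomeomorph M V} {y : M} (hy : y ∈ E.source) :
    Jc E y = G (E y) := if_pos hy

omit [ChartedSpace E2 M] in
lemma Jc_of_not_mem {E : OpenPartialHomeomorph M V} {y : M} (hy : y ∉ E.source) :
    Jc E y = 0 := if_neg hy

lemma Jc_smooth [T2Space M] {E : OpenPartialHomeomorph M V} (hE : Ch E) :
    ContMDiff (𝓡 2) 𝓘(ℝ, ℝ × V) (⊤ : ℕ∞) (Jc E) := by
  intro y
  by_cases hy : y ∈ E.source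
  · have h1 : ContMDiffAt (𝓡 2) 𝓘(ℝ, ℝ × V) (⊤ : ℕ∞) (G ∘ E) y :=
      G_smooth.contMDiff.contMDiffAt.comp y (hE.sm.contMDiffAt (E.open_source.mem_nhds hy))
    refine h1.congr_of_eventuallyEq ?_
    filter_upwards [E.open_source.mem_nhds hy] with z hz using Jc_of_mem hz
  · have hsub : closedBall (0 : V) 4 ⊆ E.target := by
      rw [hE.tgt]; exact closedBall_subset_ball (by norm_num)
    have hc : IsClosed (E.symm '' closedBall 0 4) :=
      ((isCompact_closedBall 0 4).image_of_continuousOn (E.continuousOn_symm.mono hsub)).isClosed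
    have hy' : y ∈ (E.symm '' closedBall 0 4)ᶜ := by
      rintro ⟨v, hv, rfl⟩
      exact hy (E.map_target (hsub hv))
    refine (contMDiffAt_const (c := (0 : ℝ × V))).congr_of_eventuallyEq ?_
    filter_upwards [hc.isOpen_compl.mem_nhds hy'] with z hz
    by_cases hzs : z ∈ E.source
    · rw [Jc_of_mem hzs]
      refine G_zero (not_lt.1 fun hlt => hz ⟨E z, mem_closedBall_zero_iff.2 hlt.le, E.left_inv hzs⟩)
    · exact Jc_of_not_mem hzs

omit [ChartedSpace E2 M] in
lemma Jc_close {E : OpenPartialHomeomorph M V} {x y : M} (hx : x ∈ E.source) (h2 : ‖E x‖ < 2)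
    (hd : dist (Jc E x) (Jc E y) < 1 / 5) : y ∈ E.source ∧ ‖E y‖ < 3 := by
  rw [Jc_of_mem hx, G_one (by linarith)] at hd
  by_cases hy : y ∈ E.source
  · refine ⟨hy, ?_⟩
    rw [Jc_of_mem hy, G, Prod.dist_eq, max_lt_iff, Real.dist_eq, dist_eq_norm] at hd
    obtain ⟨h3, h4⟩ := hd
    simp only at h3 h4
    have h5 : 4 / 5 < bump (E y) := by linarith [(abs_lt.1 h3).2]
    have h6 : ‖bump (E y) • E y‖ ≤ ‖E x‖ + ‖E x - bump (E y) • E y‖ := by
      simpa using norm_sub_le (E x) (E x - bump (E y) • E y)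
    rw [norm_smul, Real.norm_eq_abs, abs_of_pos (by linarith)] at h6
    nlinarith [norm_nonneg (E y)]
  · rw [Jc_of_not_mem hy, Prod.dist_eq, max_lt_iff] at hd
    have := hd.1
    norm_num at this

lemma lip [T2Space M] {K : ℕ} {E : Fin K → OpenPartialHomeomorph M V} (hE : ∀ i, Ch (E i))
    (i : Fin K) : ∃ L : NNReal,
      LipschitzOnWith L (fun v => fun j => Jc (E j) ((E i).symm v)) (closedBall 0 3) := by
  have hsub : closedBall (0 : V) 3 ⊆ (E i).target := by
    rw [(hE i).tgt]; exact closedBall_subset_ball (by norm_num)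
  refine LocallyLipschitzOn.exists_lipschitzOnWith_of_compact (isCompact_closedBall 0 3)
    fun v hv => ?_
  have h1 : ContDiffAt ℝ 1 (fun v => fun j => Jc (E j) ((E i).symm v)) v := by
    refine contDiffAt_pi.2 fun j => ?_
    have h2 := (Jc_smooth (hE j)).contMDiffAt.comp v
      ((hE i).sm'.contMDiffAt ((E i).open_target.mem_nhds (hsub hv)))
    exact (contMDiffAt_iff_contDiffAt.1 h2).of_le (by exact_mod_cast le_top)
  obtain ⟨L, s, hs, hL⟩ := h1.exists_lipschitzOnWith
  exact ⟨L, s, mem_nhdsWithin_of_mem_nhds hs, hL⟩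

omit [ChartedSpace E2 M] in
lemma exists_idx [MeasurableSpace M] [BorelSpace M] {K : ℕ}
    {E : Fin K → OpenPartialHomeomorph M V} (hc : ∀ y, ∃ i, y ∈ (E i).source ∧ ‖E i y‖ < 1) :
    ∃ idx : M → Fin K, Measurable idx ∧ ∀ y, y ∈ (E (idx y)).source ∧ ‖E (idx y) y‖ < 1 := by
  classical
  have hp : ∀ y, ∃ k : ℕ, ∃ h : k < K, y ∈ (cut (E ⟨k, h⟩) 1).source := fun y => by
    obtain ⟨i, hi⟩ := hc y
    exact ⟨i.1, i.2, (cut_source _ _ _).2 hi⟩
  have hm : Measurable fun y => Nat.find (hp y) := measurable_find hp fun k => by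
    rw [Set.ofPred_exists]
    exact MeasurableSet.iUnion fun h => (cut (E ⟨k, h⟩) 1).open_source.measurableSet
  refine ⟨fun y => ⟨Nat.find (hp y), (Nat.find_spec (hp y)).1⟩, ?_,
    fun y => (cut_source _ _ _).1 (Nat.find_spec (hp y)).2⟩
  refine measurable_to_countable' fun i => ?_
  convert hm (measurableSet_singleton i.1) using 1
  ext y
  simp [Fin.ext_iff]

end AAtlasAux

open AAtlasAux in
/-- a compact surface embeds in a Euclidean space so that it has a bi-Lipschitz smooth atlas -/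
theorem exists_atlas (M : Type*) [TopologicalSpace M] [ChartedSpace E2 M]
    [IsManifold (𝓡 2) (⊤ : ℕ∞) M] [CompactSpace M] [T2Space M] [MeasurableSpace M]
    [BorelSpace M] :
    ∃ (K : ℕ) (J : M → Fin K → ℝ × V) (hJ : Topology.IsEmbedding J),
      letI : MetricSpace M := hJ.comapMetricSpace J
      ∃ A : Atlas M, Compat A := by
  obtain ⟨K, E, hE, hc⟩ := exists_cover (M := M)
  obtain ⟨idx, hidx, hi⟩ := exists_idx hc
  choose L hL using lip hE
  have hcont : Continuous fun y j => Jc (E j) y :=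
    continuous_pi fun j => (Jc_smooth (hE j)).continuous
  have hinj : Function.Injective fun y j => Jc (E j) y := by
    intro x y hxy
    obtain ⟨i, h1, h2⟩ := hc x
    have h3 : Jc (E i) x = Jc (E i) y := congrFun hxy i
    obtain ⟨h4, h5⟩ := Jc_close (y := y) h1 (by linarith) (by rw [h3, dist_self]; norm_num)
    rw [Jc_of_mem h1, Jc_of_mem h4, G_one (by linarith), G_one h5] at h3
    exact (E i).injOn h1 h4 (Prod.ext_iff.1 h3).2
  have hJ := (hcont.isClosedEmbedding hinj).isEmbedding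
  refine ⟨K, fun y j => Jc (E j) y, hJ, ?_⟩
  letI : MetricSpace M := hJ.comapMetricSpace _
  have hd : ∀ x y : M, dist x y = dist (fun j => Jc (E j) x) (fun j => Jc (E j) y) :=
    fun _ _ => rfl
  have hs : (0 : ℝ) ≤ ∑ i, (L i : ℝ) := Finset.sum_nonneg fun i _ => (L i).2
  refine ⟨⟨K, fun i => cut (E i) 3, 5 + ∑ i, (L i : ℝ), idx, by linarith, fun i => ?_,
    fun x => ?_, fun x => (hi x).2, hidx, ?_, ?_, ?_⟩, fun i => ⟨?_, ?_⟩⟩
  · rw [cut_target, (hE i).tgt]
    exact inter_eq_right.2 (ball_subset_ball (by norm_num))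
  · exact (cut_source _ _ _).2 ⟨(hi x).1, by linarith [(hi x).2]⟩
  · intro i x hx y hy
    obtain ⟨hx1, hx2⟩ := (cut_source _ _ _).1 hx
    obtain ⟨hy1, hy2⟩ := (cut_source _ _ _).1 hy
    have h1 := (hL i).dist_le_mul _ (mem_closedBall_zero_iff.2 hx2.le) _
      (mem_closedBall_zero_iff.2 hy2.le)
    simp only [(E i).left_inv hx1, (E i).left_inv hy1] at h1
    rw [hd, cut_apply]
    refine h1.trans ?_
    rw [dist_eq_norm]
    have h2 : (L i : ℝ) ≤ ∑ i, (L i : ℝ) :=
      Finset.single_le_sum (f := fun i => (L i : ℝ)) (fun i _ => (L i).2) (Finset.mem_univ i)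
    exact mul_le_mul_of_nonneg_right (by linarith) (norm_nonneg _)
  · intro i x hx y hy
    obtain ⟨hx1, hx2⟩ := (cut_source _ _ _).1 hx
    obtain ⟨hy1, hy2⟩ := (cut_source _ _ _).1 hy
    have h1 := dist_le_pi_dist (fun j => Jc (E j) x) (fun j => Jc (E j) y) i
    simp only [Jc_of_mem hx1, Jc_of_mem hy1, G_one hx2, G_one hy2] at h1
    rw [← hd, Prod.dist_eq, dist_eq_norm (E i x)] at h1
    have h2 := (le_max_right _ _).trans h1
    rw [cut_apply]
    nlinarith [dist_nonneg (x := x) (y := y)]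
  · intro i x hx h2 y hxy
    refine (cut_source _ _ _).2 (Jc_close ((cut_source _ _ _).1 hx).1 h2 ?_)
    have h1 := dist_le_pi_dist (fun j => Jc (E j) x) (fun j => Jc (E j) y) i
    rw [← hd] at h1
    have h3 : (5 + ∑ i, (L i : ℝ))⁻¹ ≤ 1 / 5 := by
      rw [one_div]
      exact inv_anti₀ (by norm_num) (by linarith)
    exact h1.trans_lt (hxy.trans_le h3)
  · exact (hE i).sm.mono fun y hy => ((cut_source _ _ _).1 hy).1
  · exact (hE i).sm'.mono fun v hv => hv.1

end Pool.Agent.Lib.MP_901be3_an.Hd
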