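import Pool.Agent.Lib.MP_901be3_an.Hd.Defs

namespace Pool.Agent.Lib.MP_901be3_an.Hd

open MeasureTheory Filter Topology Metric Set
open scoped ENNReal

open Manifold

namespace AConvAux

theorem contDiffOn_inCharts {M : Type*} [TopologicalSpace M] [ChartedSpace E2 M]
    [IsManifold (𝓡 2) (⊤ : ℕ∞) M] {j : ℕ} {g : M → M} (hg : ContMDiff (𝓡 2) (𝓡 2) j g)
    {x y : M} {W : Set E2} (hW : W ⊆ (extChartAt (𝓡 2) x).target)
    (hm : MapsTo (g ∘ (extChartAt (𝓡 2) x).symm) W (extChartAt (𝓡 2) y).source) :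
    ContDiffOn ℝ j (inCharts g x y) W := by
  haveI : IsManifold (𝓡 2) (j : WithTop ℕ∞) M :=
    IsManifold.of_le (n := ((⊤ : ℕ∞) : WithTop ℕ∞)) (by exact_mod_cast le_top)
  rw [← contMDiffOn_iff_contDiffOn]
  have h1 : ContMDiffOn 𝓘(ℝ, E2) (𝓡 2) j (g ∘ (extChartAt (𝓡 2) x).symm) W :=
    hg.comp_contMDiffOn ((contMDiffOn_extChartAt_symm x).mono hW)
  refine (contMDiffOn_extChartAt (x := y)).comp h1 ?_
  intro v hv
  have := hm hv
  rwa [extChartAt_source] at this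

theorem le_rpow {t α β : ℝ} (h0 : 0 ≤ t) (h1 : t ≤ 1) (hα : 0 < α) (hβ : α ≤ β) :
    t ^ β ≤ t ^ α :=
  Real.rpow_le_rpow_of_exponent_ge' h0 h1 hα.le hβ

theorem norm_le_one {c v w : E2} {ρ : ℝ} (hρ : ρ ≤ 1 / 2) (hv : v ∈ ball c ρ)
    (hw : w ∈ ball c ρ) : ‖v - w‖ ≤ 1 := by
  rw [← dist_eq_norm]
  have := dist_triangle_right v w c
  rw [mem_ball] at hv hw
  linarith

theorem holderBd_of_succ {k : ℕ} {α B ρ : ℝ} (hα : 0 < α) (hα1 : α ≤ 1) (hρ : ρ ≤ 1 / 2)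
    {g : E2 → E2} {c : E2} (hg : ContDiffOn ℝ (k + 1 : ℕ) g (ball c ρ))
    (hB : ∀ i ≤ k + 1, ∀ v ∈ ball c ρ, ‖iteratedFDeriv ℝ i g v‖ ≤ B) :
    HolderBd k α B g (ball c ρ) := by
  refine ⟨hg.of_le (by exact_mod_cast Nat.le_succ k), fun i hi => hB i (by omega), ?_⟩
  intro v hv w hw
  have hB0 : 0 ≤ B := (norm_nonneg _).trans (hB 0 (by omega) v hv)
  have h1 : ‖iteratedFDeriv ℝ k g v - iteratedFDeriv ℝ k g w‖ ≤ B * ‖v - w‖ := by
    refine (convex_ball c ρ).norm_image_sub_le_of_norm_fderiv_le (𝕜 := ℝ) (fun z hz => ?_)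
      (fun z hz => ?_) hw hv
    · exact (hg.contDiffAt (isOpen_ball.mem_nhds hz)).differentiableAt_iteratedFDeriv
        (by exact_mod_cast Nat.lt_succ_self k)
    · rw [norm_fderiv_iteratedFDeriv]
      exact hB _ le_rfl z hz
  refine h1.trans (mul_le_mul_of_nonneg_left ?_ hB0)
  have := le_rpow (norm_nonneg (v - w)) (norm_le_one hρ hv hw) hα hα1
  rwa [Real.rpow_one] at this

theorem holder_le {F : Type*} [NormedAddCommGroup F] {α ρ : ℝ} (hα : 0 < α) (hρ : ρ ≤ 1 / 2)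
    {C β : NNReal} (hβ : α ≤ β) {h : E2 → F} {c : E2} {U : Set E2} (hU : ball c ρ ⊆ U)
    (hh : HolderOnWith C β h U) {v w : E2} (hv : v ∈ ball c ρ) (hw : w ∈ ball c ρ) :
    ‖h v - h w‖ ≤ C * ‖v - w‖ ^ α := by
  have h1 := hh.dist_le (hU hv) (hU hw)
  rw [dist_eq_norm, dist_eq_norm] at h1
  exact h1.trans (mul_le_mul_of_nonneg_left
    (le_rpow (norm_nonneg _) (norm_le_one hρ hv hw) hα hβ) C.2)

theorem exists_ball {M : Type*} [TopologicalSpace M] [ChartedSpace E2 M]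
    [IsManifold (𝓡 2) (⊤ : ℕ∞) M] {K : ℕ} {f : M → M} (hf : ContMDiff (𝓡 2) (𝓡 2) K f) (x : M)
    {U : Set E2} (hU : U ∈ 𝓝 (extChartAt (𝓡 2) x x)) :
    ∃ ρ > 0, ∃ B : ℝ, 0 ≤ B ∧ ρ ≤ 1 / 2 ∧ ball (extChartAt (𝓡 2) x x) ρ ⊆ U ∧
      ball (extChartAt (𝓡 2) x x) ρ ⊆ (extChartAt (𝓡 2) x).target ∧
      MapsTo (f ∘ (extChartAt (𝓡 2) x).symm) (ball (extChartAt (𝓡 2) x x) ρ)
        (extChartAt (𝓡 2) (f x)).source ∧
      ∀ i ≤ K, ∀ v ∈ ball (extChartAt (𝓡 2) x x) ρ,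
        ‖iteratedFDeriv ℝ i (inCharts f x (f x)) v‖ ≤ B := by
  have h1 : (extChartAt (𝓡 2) x).target ∈ 𝓝 (extChartAt (𝓡 2) x x) := extChartAt_target_mem_nhds x
  have h2 : (f ∘ (extChartAt (𝓡 2) x).symm) ⁻¹' (extChartAt (𝓡 2) (f x)).source
      ∈ 𝓝 (extChartAt (𝓡 2) x x) := by
    have hc : ContinuousAt (f ∘ (extChartAt (𝓡 2) x).symm) (extChartAt (𝓡 2) x x) :=
      hf.continuous.continuousAt.comp (continuousAt_extChartAt_symm x)
    refine hc.preimage_mem_nhds ?_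
    rw [Function.comp_apply, extChartAt_to_inv]
    exact extChartAt_source_mem_nhds (f x)
  have h3 : ContDiffAt ℝ K (inCharts f x (f x)) (extChartAt (𝓡 2) x x) :=
    (contDiffOn_inCharts hf inter_subset_left (fun v hv => hv.2)).contDiffAt (inter_mem h1 h2)
  obtain ⟨B, hB⟩ : ∃ B : ℝ, B = ∑ i ∈ Finset.range (K + 1),
      (‖iteratedFDeriv ℝ i (inCharts f x (f x)) (extChartAt (𝓡 2) x x)‖ + 1) := ⟨_, rfl⟩
  have h4 : ∀ᶠ v in 𝓝 (extChartAt (𝓡 2) x x), ∀ i ∈ Finset.range (K + 1),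
      ‖iteratedFDeriv ℝ i (inCharts f x (f x)) v‖ ≤ B := by
    rw [eventually_all_finset]
    intro i hi
    have hc : ContinuousAt (iteratedFDeriv ℝ i (inCharts f x (f x))) (extChartAt (𝓡 2) x x) :=
      h3.continuousAt_iteratedFDeriv (by exact_mod_cast Nat.lt_succ_iff.1 (Finset.mem_range.1 hi))
    refine hc.norm.eventually (eventually_le_nhds ?_)
    have := Finset.single_le_sum (f := fun i =>
      ‖iteratedFDeriv ℝ i (inCharts f x (f x)) (extChartAt (𝓡 2) x x)‖ + 1)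
      (fun i _ => by positivity) hi
    rw [hB]
    linarith
  obtain ⟨ρ, hρ, hb⟩ := Metric.mem_nhds_iff.1 (inter_mem (inter_mem hU h1) (inter_mem h2 h4))
  have hs : ball (extChartAt (𝓡 2) x x) (min ρ (1 / 2)) ⊆ ball (extChartAt (𝓡 2) x x) ρ :=
    ball_subset_ball (min_le_left _ _)
  refine ⟨min ρ (1 / 2), lt_min hρ (by norm_num), B, ?_, min_le_right _ _,
    fun v hv => (hb (hs hv)).1.1, fun v hv => (hb (hs hv)).1.2, fun v hv => (hb (hs hv)).2.1,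
    fun i hi v hv => (hb (hs hv)).2.2 i (Finset.mem_range.2 (Nat.lt_succ_iff.2 hi))⟩
  rw [hB]
  exact Finset.sum_nonneg fun i _ => by positivity

theorem eventually_bd {K : ℕ} {g : E2 → E2} {G : ℕ → E2 → E2} {U W : Set E2} (hW : W ⊆ U)
    {B : ℝ} (hB : ∀ i ≤ K, ∀ v ∈ W, ‖iteratedFDeriv ℝ i g v‖ ≤ B)
    (h : ∀ i ≤ K, TendstoUniformlyOn (fun n => iteratedFDeriv ℝ i (G n)) (iteratedFDeriv ℝ i g)
      atTop U) :
    ∀ᶠ n in atTop, ∀ i ≤ K, ∀ v ∈ W, ‖iteratedFDeriv ℝ i (G n) v‖ ≤ B + 1 := by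
  have h1 : ∀ᶠ n in atTop, ∀ i ∈ Finset.range (K + 1), ∀ v ∈ W,
      ‖iteratedFDeriv ℝ i (G n) v‖ ≤ B + 1 := by
    rw [eventually_all_finset]
    intro i hi
    have hi' := Nat.lt_succ_iff.1 (Finset.mem_range.1 hi)
    filter_upwards [Metric.tendstoUniformlyOn_iff.1 (h i hi') 1 one_pos] with n hn v hv
    have h2 := hn v (hW hv)
    rw [dist_comm, dist_eq_norm] at h2
    have h3 := norm_sub_norm_le (iteratedFDeriv ℝ i (G n) v) (iteratedFDeriv ℝ i g v)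
    have h4 := hB i hi' v hv
    linarith
  filter_upwards [h1] with n hn i hi
  exact hn i (Finset.mem_range.2 (Nat.lt_succ_iff.2 hi))

theorem tendsto_zero {g : E2 → E2} {G : ℕ → E2 → E2} {U W : Set E2} (hW : W ⊆ U)
    (h : TendstoUniformlyOn (fun n => iteratedFDeriv ℝ 0 (G n)) (iteratedFDeriv ℝ 0 g) atTop U) :
    TendstoUniformlyOn G g atTop W := by
  rw [Metric.tendstoUniformlyOn_iff] at h ⊢
  intro ε hε
  filter_upwards [h ε hε] with n hn v hv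
  have h1 := hn v (hW hv)
  rw [dist_eq_norm] at h1 ⊢
  have h2 := (iteratedFDeriv ℝ 0 g v - iteratedFDeriv ℝ 0 (G n) v).le_opNorm 0
  simp only [ContinuousMultilinearMap.sub_apply, iteratedFDeriv_zero_apply,
    Finset.univ_eq_empty, Finset.prod_empty, mul_one] at h2
  exact h2.trans_lt h1

end AConvAux

open AConvAux in
/-- `C^r` convergence gives uniform `C^{k,α}` bounds for `k + α ≤ r` -/
theorem bddConv_of_crTendsto {M : Type*} [TopologicalSpace M] [ChartedSpace E2 M]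
    [IsManifold (𝓡 2) (⊤ : ℕ∞) M] {r : ℝ≥0∞} {f : M → M} {F : ℕ → M → M} (hf : IsCr r f)
    (hF : ∀ n, IsCr r (F n)) (hlim : CrTendsto r F f) {k : ℕ} {α : ℝ} (hα : 0 < α)
    (hα1 : α ≤ 1) (hk : (k : ℝ≥0∞) + ENNReal.ofReal α ≤ r) : BddConv k α F f := by
  intro x
  obtain ⟨U, hU, hmap, hconv, hhol⟩ := hlim x
  have hkr : (k : ℝ≥0∞) < r :=
    lt_of_lt_of_le (ENNReal.lt_add_right (by simp) (by simpa using hα)) hk
  rcases le_or_gt ((k : ℝ≥0∞) + 1) r with h | h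
  · have hK : ((k + 1 : ℕ) : ℝ≥0∞) ≤ r := by exact_mod_cast h
    obtain ⟨ρ, hρ, B, -, hρ2, hbU, hbT, hm, hB⟩ := exists_ball (hf.1 _ hK) x hU
    refine ⟨ρ, hρ, B + 1, hbT, ⟨hm, holderBd_of_succ hα hα1 hρ2
      (contDiffOn_inCharts (hf.1 _ hK) hbT hm) fun i hi v hv => (hB i hi v hv).trans (by linarith)⟩,
      ?_, tendsto_zero hbU (hconv 0 (by simp))⟩
    filter_upwards [hmap, eventually_bd hbU hB fun i hi =>
      hconv i (le_trans (by exact_mod_cast hi) hK)] with n hn hn'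
    have hm' := hn.mono_left hbU
    exact ⟨hm', holderBd_of_succ hα hα1 hρ2 (contDiffOn_inCharts ((hF n).1 _ hK) hbT hm') hn'⟩
  · obtain ⟨U', hU', C, hC⟩ := hf.2 k hkr h x
    obtain ⟨ρ, hρ, B, hB0, hρ2, hbU, hbT, hm, hB⟩ :=
      exists_ball (hf.1 _ hkr.le) x (inter_mem hU hU')
    have hβ : α ≤ ((r - k).toNNReal : ℝ) := by
      have h1 : r - k ≠ ⊤ := ne_top_of_le_ne_top (ne_top_of_lt h) tsub_le_self
      have h2 : ENNReal.ofReal α ≤ r - k :=
        ENNReal.le_sub_of_add_le_left (by simp) hk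
      exact (ENNReal.ofReal_le_iff_le_toReal h1).1 h2
    have hC0 : (0 : ℝ) ≤ C := C.2
    have hbU1 := hbU.trans inter_subset_left
    have hbU2 := hbU.trans inter_subset_right
    refine ⟨ρ, hρ, B + C + 1, hbT, ⟨hm, contDiffOn_inCharts (hf.1 _ hkr.le) hbT hm,
      fun i hi v hv => (hB i hi v hv).trans (by linarith), fun v hv w hw =>
        (holder_le hα hρ2 hβ hbU2 hC hv hw).trans
          (mul_le_mul_of_nonneg_right (by linarith) (by positivity))⟩,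
      ?_, tendsto_zero hbU1 (hconv 0 (by simp))⟩
    filter_upwards [hmap, hhol k hkr h 1 one_pos, eventually_bd hbU1 hB fun i hi =>
      hconv i (le_trans (by exact_mod_cast hi) hkr.le)] with n hn hh hn'
    have hm' := hn.mono_left hbU1
    refine ⟨hm', contDiffOn_inCharts ((hF n).1 _ hkr.le) hbT hm',
      fun i hi v hv => (hn' i hi v hv).trans (by linarith), fun v hv w hw => ?_⟩
    have h1 := holder_le hα hρ2 hβ hbU2 hC hv hw
    have h2 := holder_le hα hρ2 hβ hbU1 hh hv hw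
    simp only [Pi.sub_apply, NNReal.coe_one] at h2
    have h3 : 0 ≤ B * ‖v - w‖ ^ α := by positivity
    have h4 := norm_add_le
      (iteratedFDeriv ℝ k (inCharts (F n) x (f x)) v - iteratedFDeriv ℝ k (inCharts f x (f x)) v
        - (iteratedFDeriv ℝ k (inCharts (F n) x (f x)) w
          - iteratedFDeriv ℝ k (inCharts f x (f x)) w))
      (iteratedFDeriv ℝ k (inCharts f x (f x)) v - iteratedFDeriv ℝ k (inCharts f x (f x)) w)
    rw [show ∀ a b c d : E2 [×k]→L[ℝ] E2, a - b - (c - d) + (b - d) = a - c from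
      fun a b c d => by abel] at h4
    linarith

end Pool.Agent.Lib.MP_901be3_an.Hd
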