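import Pool.Agent.Lib.MP_901be3_an.Hd.AtBasic

namespace Pool.Agent.Lib.MP_901be3_an.Hd

open MeasureTheory Filter Topology Metric Set
open scoped ENNReal

open Manifold Bundle

variable {M : Type*} [MetricSpace M] [ChartedSpace E2 M] [IsManifold (𝓡 2) (⊤ : ℕ∞) M]
  [CompactSpace M] [MeasurableSpace M] [RiemannianBundle (fun x : M => TangentSpace (𝓡 2) x)]
  [IsContinuousRiemannianBundle E2 (fun x : M => TangentSpace (𝓡 2) x)] {A : Atlas M}

namespace ANormAux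

/-- derivative of a vector valued map -/
noncomputable def dv {W : Type*} [NormedAddCommGroup W] [NormedSpace ℝ W] (φ : M → W) (y : M) :
    TangentSpace (𝓡 2) y →L[ℝ] W := mfderiv (𝓡 2) 𝓘(ℝ, W) φ y

set_option backward.isDefEq.respectTransparency false in
theorem chart_two (x : M) : ∃ C : ℝ, 0 < C ∧ ∀ᶠ y in 𝓝 x, ∀ v : TangentSpace (𝓡 2) y,
    ‖dv (extChartAt (𝓡 2) x) y v‖ ≤ C * ‖v‖ ∧ ‖v‖ ≤ C * ‖dv (extChartAt (𝓡 2) x) y v‖ := by
  obtain ⟨C, hC, h⟩ :=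
    eventually_norm_trivializationAt_lt E2 (fun x : M => TangentSpace (𝓡 2) x) x
  obtain ⟨C', hC', h'⟩ :=
    eventually_norm_symmL_trivializationAt_lt E2 (fun x : M => TangentSpace (𝓡 2) x) x
  refine ⟨C + C', by positivity, ?_⟩
  have hx : (chartAt E2 x).source ∈ 𝓝 x := chart_source_mem_nhds E2 x
  filter_upwards [h, h', hx] with y hy h'y hs v
  have e : dv (extChartAt (𝓡 2) x) y =
      (trivializationAt E2 (fun x : M => TangentSpace (𝓡 2) x) x).continuousLinearMapAt ℝ y :=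
    (TangentBundle.continuousLinearMapAt_trivializationAt hs).symm
  rw [e]
  constructor
  · refine (ContinuousLinearMap.le_of_opNorm_le _ hy.le v).trans ?_
    have := norm_nonneg v
    nlinarith
  · have hb : y ∈ (trivializationAt E2 (fun x : M => TangentSpace (𝓡 2) x) x).baseSet := by
      simpa using hs
    have h1 := Trivialization.symmL_continuousLinearMapAt (R := ℝ) _ hb v
    have h2 := ContinuousLinearMap.le_of_opNorm_le _ h'y.le
      ((trivializationAt E2 (fun x : M => TangentSpace (𝓡 2) x) x).continuousLinearMapAt ℝ y v)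
    rw [h1] at h2
    refine h2.trans ?_
    have := norm_nonneg
      ((trivializationAt E2 (fun x : M => TangentSpace (𝓡 2) x) x).continuousLinearMapAt ℝ y v)
    nlinarith

/-- chain rule with a map between vector spaces -/
theorem dv_comp {W W' : Type*} [NormedAddCommGroup W] [NormedSpace ℝ W] [NormedAddCommGroup W']
    [NormedSpace ℝ W'] {φ : M → W} {ψ : W → W'} {χ : M → W'} {y : M}
    (hφ : MDifferentiableAt (𝓡 2) 𝓘(ℝ, W) φ y) (hψ : DifferentiableAt ℝ ψ (φ y))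
    (h : χ =ᶠ[𝓝 y] ψ ∘ φ) (v : TangentSpace (𝓡 2) y) :
    dv χ y v = fderiv ℝ ψ (φ y) (dv φ y v) := by
  have h1 : dv χ y = dv (ψ ∘ φ) y := h.mfderiv_eq
  have h2 := mfderiv_comp (I := 𝓡 2) (I' := 𝓘(ℝ, W)) (I'' := 𝓘(ℝ, W')) y
    hψ.mdifferentiableAt hφ
  rw [mfderiv_eq_fderiv] at h2
  rw [h1]
  exact congr($h2 v)

theorem fderiv_bd {W W' : Type*} [NormedAddCommGroup W] [NormedSpace ℝ W] [NormedAddCommGroup W']
    [NormedSpace ℝ W'] {ψ : W → W'} {w : W} (h : ContDiffAt ℝ 1 ψ w) :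
    ∃ C : ℝ, 0 < C ∧ ∀ᶠ u in 𝓝 w, DifferentiableAt ℝ ψ u ∧ ‖fderiv ℝ ψ u‖ ≤ C := by
  have h1 : ContinuousAt (fderiv ℝ ψ) w := by
    have := h.fderiv_right (m := 0) (by simp)
    exact this.continuousAt
  refine ⟨‖fderiv ℝ ψ w‖ + 1, by positivity, ?_⟩
  have h2 : ∀ᶠ u in 𝓝 w, ‖fderiv ℝ ψ u‖ < ‖fderiv ℝ ψ w‖ + 1 :=
    h1.norm.eventually (gt_mem_nhds (by linarith))
  filter_upwards [h2, h.eventually (by simp)] with u hu hu'
  exact ⟨hu'.differentiableAt (by simp), hu.le⟩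

theorem e_mdiff (hA : Compat A) (i : Fin A.N) {y : M} (hy : y ∈ (A.e i).source) :
    MDifferentiableAt (𝓡 2) 𝓘(ℝ, V) (A.e i) y :=
  (((hA i).1 y hy).contMDiffAt ((A.e i).open_source.mem_nhds hy)).mdifferentiableAt (by simp)

theorem symm_mdiff (hA : Compat A) (i : Fin A.N) {w : V} (hw : w ∈ (A.e i).target) :
    MDifferentiableAt 𝓘(ℝ, V) (𝓡 2) (A.e i).symm w :=
  (((hA i).2 w hw).contMDiffAt ((A.e i).open_target.mem_nhds hw)).mdifferentiableAt (by simp)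

theorem loc_two (hA : Compat A) (i : Fin A.N) {x : M} (hx : x ∈ (A.e i).source) :
    ∃ L : ℝ, ∀ᶠ y in 𝓝 x, ∀ v : TangentSpace (𝓡 2) y,
      ‖dv (A.e i) y v‖ ≤ L * ‖v‖ ∧ ‖v‖ ≤ L * ‖dv (A.e i) y v‖ := by
  obtain ⟨C, hC, h⟩ := chart_two x
  set c := extChartAt (𝓡 2) x with hc
  have hex : ContMDiffAt (𝓡 2) 𝓘(ℝ, V) (⊤ : ℕ∞) (A.e i) x :=
    ((hA i).1 x hx).contMDiffAt ((A.e i).open_source.mem_nhds hx)
  have hes : ContMDiffAt 𝓘(ℝ, V) (𝓡 2) (⊤ : ℕ∞) (A.e i).symm (A.e i x) :=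
    ((hA i).2 _ ((A.e i).map_source hx)).contMDiffAt
      ((A.e i).open_target.mem_nhds ((A.e i).map_source hx))
  have h1 : ContDiffAt ℝ 1 (A.e i ∘ c.symm) (c x) := by
    have h0 : ContMDiffAt 𝓘(ℝ, E2) (𝓡 2) (⊤ : ℕ∞) c.symm (c x) := by
      have := contMDiffOn_extChartAt_symm (I := 𝓡 2) (n := (⊤ : ℕ∞)) x
      refine (this _ (mem_extChartAt_target x)).contMDiffAt ?_
      exact extChartAt_target_mem_nhds x
    have h2 : ContMDiffAt (𝓡 2) 𝓘(ℝ, V) (⊤ : ℕ∞) (A.e i) (c.symm (c x)) := by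
      rw [hc, extChartAt_to_inv]; exact hex
    have := (h2.comp _ h0).of_le (m := 1) (by simp)
    exact contMDiffAt_iff_contDiffAt.1 this
  have h2 : ContDiffAt ℝ 1 (c ∘ (A.e i).symm) (A.e i x) := by
    have h0 : ContMDiffAt (𝓡 2) 𝓘(ℝ, E2) (⊤ : ℕ∞) c ((A.e i).symm (A.e i x)) := by
      rw [(A.e i).left_inv hx]; exact contMDiffAt_extChartAt
    have := (h0.comp _ hes).of_le (m := 1) (by simp)
    exact contMDiffAt_iff_contDiffAt.1 this
  obtain ⟨C1, hC1, b1⟩ := fderiv_bd h1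
  obtain ⟨C2, hC2, b2⟩ := fderiv_bd h2
  have b1' := (continuousAt_extChartAt (I := 𝓡 2) x).eventually b1
  have b2' := ((A.e i).continuousAt hx).eventually b2
  refine ⟨C1 * C + C * C2, ?_⟩
  have hs1 : ∀ᶠ y in 𝓝 x, y ∈ (A.e i).source := (A.e i).open_source.mem_nhds hx
  have hs2 : ∀ᶠ y in 𝓝 x, y ∈ c.source := extChartAt_source_mem_nhds x
  filter_upwards [h, b1', b2', hs1.eventually_nhds, hs2.eventually_nhds] with y hy y1 y2 z1 z2 v
  have hcy : MDifferentiableAt (𝓡 2) 𝓘(ℝ, E2) c y :=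
    mdifferentiableAt_extChartAt (by simpa [hc] using z2.self_of_nhds)
  have e1 : dv (A.e i) y v = fderiv ℝ (A.e i ∘ c.symm) (c y) (dv c y v) := by
    refine dv_comp hcy y1.1 ?_ v
    filter_upwards [z2] with z hz
    simp only [Function.comp_apply]
    rw [c.left_inv hz]
  have e2 : dv c y v = fderiv ℝ (c ∘ (A.e i).symm) (A.e i y) (dv (A.e i) y v) := by
    refine dv_comp (e_mdiff hA i z1.self_of_nhds) y2.1 ?_ v
    filter_upwards [z1] with z hz
    simp only [Function.comp_apply]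
    rw [(A.e i).left_inv hz]
  have n1 := norm_nonneg v
  have n2 := norm_nonneg (dv (A.e i) y v)
  constructor
  · have g1 : ‖dv (A.e i) y v‖ ≤ C1 * ‖dv c y v‖ := by
      rw [e1]; exact ContinuousLinearMap.le_of_opNorm_le _ y1.2 _
    have g2 := mul_le_mul_of_nonneg_left (hy v).1 hC1.le
    have g3 : 0 ≤ C * C2 * ‖v‖ := by positivity
    nlinarith
  · have g1 : ‖dv c y v‖ ≤ C2 * ‖dv (A.e i) y v‖ := by
      rw [e2]; exact ContinuousLinearMap.le_of_opNorm_le _ y2.2 _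
    have g2 := mul_le_mul_of_nonneg_left g1 hC.le
    have g3 : 0 ≤ C1 * C * ‖dv (A.e i) y v‖ := by positivity
    have g4 := (hy v).2
    nlinarith

theorem unif {X : Type*} [TopologicalSpace X] {K : Set X} (hK : IsCompact K) (P : ℝ → X → Prop)
    (hm : ∀ a b x, a ≤ b → P a x → P b x) (h : ∀ x ∈ K, ∃ L, ∀ᶠ y in 𝓝 x, P L y) :
    ∃ L, ∀ y ∈ K, P L y := by
  refine hK.induction_on (p := fun s => ∃ L, ∀ y ∈ s, P L y) ⟨0, by simp⟩ ?_ ?_ ?_
  · rintro s t hst ⟨L, hL⟩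
    exact ⟨L, fun y hy => hL y (hst hy)⟩
  · rintro s t ⟨L, hL⟩ ⟨L', hL'⟩
    refine ⟨max L L', fun y hy => ?_⟩
    rcases hy with hy | hy
    · exact hm _ _ _ (le_max_left _ _) (hL y hy)
    · exact hm _ _ _ (le_max_right _ _) (hL' y hy)
  · intro x hx
    obtain ⟨L, hL⟩ := h x hx
    exact ⟨_, mem_nhdsWithin_of_mem_nhds hL, L, fun y hy => hy⟩

theorem two_sided (hA : Compat A) : ∃ L : ℝ, 1 ≤ L ∧ ∀ i : Fin A.N, ∀ y ∈ (A.e i).source,
    ‖A.e i y‖ ≤ 2 → ∀ v : TangentSpace (𝓡 2) y,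
      ‖dv (A.e i) y v‖ ≤ L * ‖v‖ ∧ ‖v‖ ≤ L * ‖dv (A.e i) y v‖ := by
  have hm : ∀ (i : Fin A.N) (a b : ℝ) (y : M), a ≤ b → (∀ v : TangentSpace (𝓡 2) y,
      ‖dv (A.e i) y v‖ ≤ a * ‖v‖ ∧ ‖v‖ ≤ a * ‖dv (A.e i) y v‖) → ∀ v : TangentSpace (𝓡 2) y,
      ‖dv (A.e i) y v‖ ≤ b * ‖v‖ ∧ ‖v‖ ≤ b * ‖dv (A.e i) y v‖ := by
    intro i a b y hab h v
    exact ⟨(h v).1.trans (mul_le_mul_of_nonneg_right hab (norm_nonneg _)),
      (h v).2.trans (mul_le_mul_of_nonneg_right hab (norm_nonneg _))⟩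
  have h1 : ∀ i : Fin A.N, ∃ L : ℝ, ∀ y ∈ (A.e i).symm '' closedBall 0 2,
      ∀ v : TangentSpace (𝓡 2) y,
      ‖dv (A.e i) y v‖ ≤ L * ‖v‖ ∧ ‖v‖ ≤ L * ‖dv (A.e i) y v‖ := by
    intro i
    have hsub : closedBall (0 : V) 2 ⊆ (A.e i).target := by
      rw [A.target_eq]; exact closedBall_subset_ball (by norm_num)
    refine unif ((isCompact_closedBall (0 : V) 2).image_of_continuousOn
      ((A.e i).continuousOn_symm.mono hsub)) _ (hm i) ?_
    rintro _ ⟨w, hw, rfl⟩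
    exact loc_two hA i ((A.e i).map_target (hsub hw))
  choose L hL using h1
  obtain ⟨B, hB⟩ := (Set.finite_range L).bddAbove
  refine ⟨max 1 B, le_max_left _ _, fun i y hy h2 => ?_⟩
  refine hm i (L i) _ y ((hB ⟨i, rfl⟩).trans (le_max_right _ _)) (hL i y ?_)
  exact ⟨A.e i y, by simpa using h2, (A.e i).left_inv hy⟩

/-- the derivative of the chart composed with the derivative of its inverse -/
theorem dv_symm (hA : Compat A) (i : Fin A.N) {w : V} (hw : w ∈ (A.e i).target) (u : V) :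
    dv (A.e i) ((A.e i).symm w) (mfderiv 𝓘(ℝ, V) (𝓡 2) (A.e i).symm w u) = u := by
  have h1 := mfderiv_comp (I := 𝓘(ℝ, V)) (I' := 𝓡 2) (I'' := 𝓘(ℝ, V)) w
    (e_mdiff hA i ((A.e i).map_target hw)) (symm_mdiff hA i hw)
  have h2 : (A.e i ∘ (A.e i).symm) =ᶠ[𝓝 w] id := by
    filter_upwards [(A.e i).open_target.mem_nhds hw] with z hz
    exact (A.e i).right_inv hz
  rw [h2.mfderiv_eq, mfderiv_id] at h1
  exact (congr($h1 u)).symm

end ANormAux

/-- comparison of the Riemannian norm with the norm in the preferred charts -/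
theorem Compat.norm_cmp (hA : Compat A) : ∃ L : ℝ, 1 ≤ L ∧
    ∃ τ : ∀ x : M, TangentSpace (𝓡 2) x →L[ℝ] V,
      (∀ x v, ‖τ x v‖ ≤ L * ‖v‖ ∧ ‖v‖ ≤ L * ‖τ x v‖) ∧ (∀ x, Function.Surjective (τ x)) ∧
      ∀ g : M → M, MDifferentiable (𝓡 2) (𝓡 2) g → ∀ x v,
        A.D g x (τ x v) = τ (g x) (mfderiv (𝓡 2) (𝓡 2) g x v) := by
  obtain ⟨L, hL1, hL⟩ := ANormAux.two_sided hA
  refine ⟨L, hL1, fun x => ANormAux.dv (A.e (A.idx x)) x, fun x v => ?_, fun x => ?_,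
    fun g hg x v => ?_⟩
  · exact hL _ x (A.idx_src x) (by linarith [A.idx_lt x]) v
  · have h : Function.Surjective (ANormAux.dv (A.e (A.idx x))
        ((A.e (A.idx x)).symm (A.e (A.idx x) x))) := fun u =>
      ⟨_, ANormAux.dv_symm hA _ ((A.e (A.idx x)).map_source (A.idx_src x)) u⟩
    rwa [(A.e (A.idx x)).left_inv (A.idx_src x)] at h
  · have hx := A.idx_src x
    have hi := ANormAux.e_mdiff hA _ hx
    have hj := ANormAux.e_mdiff hA _ (A.idx_src (g x))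
    have hs := ANormAux.symm_mdiff hA _ ((A.e (A.idx x)).map_source hx)
    have hjg : MDifferentiableAt (𝓡 2) 𝓘(ℝ, V) (A.e (A.idx (g x)) ∘ g) x := hj.comp x (hg x)
    have hr : DifferentiableAt ℝ (A.rep g (A.idx x) (A.idx (g x))) (A.e (A.idx x) x) := by
      have h0 : MDifferentiableAt (𝓡 2) 𝓘(ℝ, V) (A.e (A.idx (g x)) ∘ g)
          ((A.e (A.idx x)).symm (A.e (A.idx x) x)) := by
        rw [(A.e (A.idx x)).left_inv hx]; exact hjg
      exact mdifferentiableAt_iff_differentiableAt.1 (h0.comp _ hs)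
    have e1 : ANormAux.dv (A.e (A.idx (g x)) ∘ g) x v =
        fderiv ℝ (A.rep g (A.idx x) (A.idx (g x))) (A.e (A.idx x) x)
          (ANormAux.dv (A.e (A.idx x)) x v) := by
      refine ANormAux.dv_comp hi hr ?_ v
      filter_upwards [(A.e (A.idx x)).open_source.mem_nhds hx] with z hz
      simp only [Function.comp_apply, Atlas.rep]
      rw [(A.e (A.idx x)).left_inv hz]
    have e2 := mfderiv_comp (I := 𝓡 2) (I' := 𝓡 2) (I'' := 𝓘(ℝ, V)) x hj (hg x)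
    exact e1.symm.trans congr($e2 v)

set_option backward.isDefEq.respectTransparency false in
/-- the Riemannian distance is locally bounded by the metric of the atlas -/
theorem Compat.riem_le (hA : Compat A) : ∃ C ρ : ℝ, 0 < ρ ∧ ∀ x y : M, dist x y < ρ →
    riemannianEDist (𝓡 2) x y ≤ ENNReal.ofReal (C * dist x y) := by
  obtain ⟨L, hL1, hL⟩ := ANormAux.two_sided hA
  have hAL := A.one_le_L
  refine ⟨L * A.L, A.L⁻¹, by positivity, fun x y hxy => ?_⟩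
  set i := A.idx x with hi
  have hx : x ∈ (A.e i).source := A.idx_src x
  have hx1 : ‖A.e i x‖ < 1 := A.idx_lt x
  have hy : y ∈ (A.e i).source := A.leb i x hx (by linarith) y hxy
  have hd : ‖A.e i x - A.e i y‖ ≤ A.L * dist x y := A.lip_low i x hx y hy
  have hd1 : A.L * dist x y ≤ 1 := by
    have := mul_le_mul_of_nonneg_left hxy.le (by linarith : (0 : ℝ) ≤ A.L)
    rwa [mul_inv_cancel₀ (by linarith)] at this
  have hy2 : ‖A.e i y‖ ≤ 2 := by
    have : A.e i y = A.e i x - (A.e i x - A.e i y) := by abel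
    rw [this]
    linarith [norm_sub_le (A.e i x) (A.e i x - A.e i y)]
  have hsub : closedBall (0 : V) 2 ⊆ (A.e i).target := by
    rw [A.target_eq]; exact closedBall_subset_ball (by norm_num)
  let η := ContinuousAffineMap.lineMap (R := ℝ) (A.e i x) (A.e i y)
  set γ := (A.e i).symm ∘ η with hγ
  have hη : Icc 0 1 ⊆ ⇑η ⁻¹' (closedBall (0 : V) 2) := by
    simp only [← image_subset_iff, ContinuousAffineMap.coe_lineMap_eq,
     ← segment_eq_image_lineMap, η]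
    exact (convex_closedBall _ _).segment_subset (by simp; linarith) (by simpa using hy2)
  have hη' : Icc 0 1 ⊆ ⇑η ⁻¹' (A.e i).target := fun t ht => hsub (hη ht)
  have η_smooth : ContMDiff 𝓘(ℝ, ℝ) 𝓘(ℝ, V) 1 η := by
    rw [contMDiff_iff_contDiff]
    exact ContinuousAffineMap.contDiff _
  have h1 : riemannianEDist (𝓡 2) x y ≤ pathELength (𝓡 2) γ 0 1 := by
    apply riemannianEDist_le_pathELength _ _ _ zero_le_one
    · exact ((hA i).2.of_le (by simp)).comp η_smooth.contMDiffOn hη'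
    · simp [γ, η, ContinuousAffineMap.coe_lineMap_eq, hx]
    · simp [γ, η, ContinuousAffineMap.coe_lineMap_eq, hy]
  apply h1.trans
  rw [pathELength_eq_lintegral_mfderiv_Icc]
  have h2 : ∀ t ∈ Icc (0 : ℝ) 1, ‖mfderiv 𝓘(ℝ, ℝ) (𝓡 2) γ t 1‖ₑ ≤
      ENNReal.ofReal (L * A.L * dist x y) := by
    intro t ht
    have e1 := mfderiv_comp (I := 𝓘(ℝ, ℝ)) (I' := 𝓘(ℝ, V)) (I'' := 𝓡 2) t
      (ANormAux.symm_mdiff hA i (hη' ht)) (η_smooth.mdifferentiable (by simp) t)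
    have e2 : mfderiv 𝓘(ℝ, ℝ) 𝓘(ℝ, V) η t (1 : ℝ) = A.e i y - A.e i x := by
      rw [mfderiv_eq_fderiv]
      have : HasDerivAt η (A.e i y - A.e i x) t := by
        simpa [η, ContinuousAffineMap.coe_lineMap_eq] using
          AffineMap.hasDerivAt_lineMap (𝕜 := ℝ) (a := A.e i x) (b := A.e i y) (x := t)
      exact this.deriv
    have e3 : mfderiv 𝓘(ℝ, ℝ) (𝓡 2) γ t (1 : ℝ) =
        mfderiv 𝓘(ℝ, V) (𝓡 2) (A.e i).symm (η t) (A.e i y - A.e i x) := by
      rw [← e2]; exact congr($e1 (1 : ℝ))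
    have hz : ‖A.e i ((A.e i).symm (η t))‖ ≤ 2 := by
      rw [(A.e i).right_inv (hη' ht)]; simpa using hη ht
    have e4 := (hL i _ ((A.e i).map_target (hη' ht)) hz
      (mfderiv 𝓘(ℝ, V) (𝓡 2) (A.e i).symm (η t) (A.e i y - A.e i x))).2
    rw [ANormAux.dv_symm hA i (hη' ht), norm_sub_rev] at e4
    rw [← ofReal_norm]
    apply ENNReal.ofReal_le_ofReal
    refine le_trans (le_of_eq (congrArg norm e3)) (e4.trans ?_)
    rw [mul_assoc]
    exact mul_le_mul_of_nonneg_left hd (by linarith)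
  refine (setLIntegral_mono' measurableSet_Icc h2).trans ?_
  simp

end Pool.Agent.Lib.MP_901be3_an.Hd
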