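import Pool.Agent.Lib.MP_901be3_an.Hd.CrBasic

namespace Pool.Agent.Lib.MP_901be3_an.Hd

open MeasureTheory Filter Topology Metric Set
open scoped ENNReal

theorem CrCompAux.hol {α B₁ B₂ : ℝ} (hα : 0 < α) {E E' F : Type} [NormedAddCommGroup E]
    [NormedAddCommGroup E'] [NormedAddCommGroup F] {g : E' → F} {h : E → E'} {U : Set E'}
    {W : Set E} (hm : MapsTo h W U) (hg : Hol α B₁ g U)
    (hl : ∀ x ∈ W, ∀ y ∈ W, ‖h x - h y‖ ≤ B₂ * ‖x - y‖) :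
    Hol α (1 + |B₁| * (1 + |B₂| ^ α)) (g ∘ h) W := by
  have h0 : 0 ≤ |B₁| * |B₂| ^ α := by positivity
  refine ⟨fun x hx => (hg.1 _ (hm hx)).trans ?_, fun x hx y hy => ?_⟩
  · linarith [le_abs_self B₁]
  · have h1 : ‖h x - h y‖ ≤ |B₂| * ‖x - y‖ :=
      (hl x hx y hy).trans (mul_le_mul_of_nonneg_right (le_abs_self _) (norm_nonneg _))
    have h2 : ‖h x - h y‖ ^ α ≤ |B₂| ^ α * ‖x - y‖ ^ α := by
      rw [← Real.mul_rpow (abs_nonneg _) (norm_nonneg _)]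
      exact Real.rpow_le_rpow (norm_nonneg _) h1 hα.le
    have h3 : 0 ≤ ‖x - y‖ ^ α := by positivity
    calc ‖g (h x) - g (h y)‖ ≤ B₁ * ‖h x - h y‖ ^ α := hg.2 _ (hm hx) _ (hm hy)
      _ ≤ |B₁| * (|B₂| ^ α * ‖x - y‖ ^ α) :=
        mul_le_mul (le_abs_self _) h2 (by positivity) (abs_nonneg _)
      _ = |B₁| * |B₂| ^ α * ‖x - y‖ ^ α := by ring
      _ ≤ _ := mul_le_mul_of_nonneg_right (by linarith [abs_nonneg B₁]) h3

/-- composition -/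
theorem Cr_comp {α : ℝ} (hα : 0 < α) (hα1 : α ≤ 1) (n : ℕ) (B₁ B₂ : ℝ) :
    ∃ C : ℝ, 1 ≤ C ∧ ∀ {E E' F : Type} [NormedAddCommGroup E] [NormedSpace ℝ E]
      [NormedAddCommGroup E'] [NormedSpace ℝ E'] [NormedAddCommGroup F] [NormedSpace ℝ F]
      (g : E' → F) (h : E → E') (U : Set E') (W : Set E), IsOpen W → MapsTo h W U →
      Cr α n B₁ g U → Cr α n B₂ h W → (∀ x ∈ W, ∀ y ∈ W, ‖h x - h y‖ ≤ B₂ * ‖x - y‖) →
      Cr α n C (g ∘ h) W := by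
  have hC0 : 1 ≤ 1 + |B₁| * (1 + |B₂| ^ α) := le_add_of_nonneg_right (by positivity)
  induction n with
  | zero =>
    exact ⟨_, hC0, fun g h U W _ hm hg _ hl => CrCompAux.hol hα hm hg hl⟩
  | succ n ih =>
    obtain ⟨C, hC, H⟩ := ih
    refine ⟨max (1 + |B₁| * (1 + |B₂| ^ α)) (2 ^ (n + 1) * C * |B₂|), le_max_of_le_left hC0, ?_⟩
    intro E E' F _ _ _ _ _ _ g h U W hW hm hg hh hl
    refine ⟨(show Cr α 0 _ (g ∘ h) W from CrCompAux.hol hα hm hg.1 hl).mono_B (le_max_left _ _),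
      fun x hx => (hg.2.1 _ (hm hx)).comp x (hh.2.1 x hx), ?_⟩
    have h1 := H (fderiv ℝ g) h U W hW hm hg.2.2 hh.of_succ hl
    have h2 := h1.bilin (hh.2.2.mono_B (le_abs_self B₂)) hW (ContinuousLinearMap.compL ℝ E E' F)
    refine (h2.congr hW fun x hx => ?_).mono_B (le_max_of_le_right ?_)
    · rw [fderiv_comp x (hg.2.1 _ (hm hx)) (hh.2.1 x hx)]
      rfl
    · have h3 := ContinuousLinearMap.norm_compL_le ℝ E E' F
      exact mul_le_mul_of_nonneg_right (mul_le_mul_of_nonneg_right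
        (mul_le_of_le_one_right (by positivity) h3) (by linarith)) (abs_nonneg _)

end Pool.Agent.Lib.MP_901be3_an.Hd
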