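import Pool.Agent.Lib.MP_901be3_an.Hd.CrBasic

namespace Pool.Agent.Lib.MP_901be3_an.Hd

open MeasureTheory Filter Topology Metric Set
open scoped ENNReal

namespace CrSmoothAux

theorem le_two_rpow {α d : ℝ} (hα : 0 < α) (hα1 : α ≤ 1) (h0 : 0 ≤ d) (h2 : d ≤ 2) :
    d ≤ 2 * d ^ α := by
  rcases le_total d 1 with h | h
  · linarith [Real.self_le_rpow_of_le_one h0 h hα1, Real.rpow_nonneg h0 α]
  · linarith [Real.one_le_rpow h hα.le]

theorem norm_sub_le_two {E : Type} [NormedAddCommGroup E] {c x y : E} {ρ : ℝ} (hρ : ρ ≤ 1)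
    (hx : x ∈ ball c ρ) (hy : y ∈ ball c ρ) : ‖x - y‖ ≤ 2 := by
  rw [← dist_eq_norm]
  linarith [dist_triangle_right x y c, mem_ball.1 hx, mem_ball.1 hy]

theorem aux {α : ℝ} (hα : 0 < α) (hα1 : α ≤ 1) {E : Type} [NormedAddCommGroup E] [NormedSpace ℝ E]
    {c : E} {ρ B : ℝ} (hρ : ρ ≤ 1) (k : ℕ) : ∀ {F : Type} [NormedAddCommGroup F] [NormedSpace ℝ F]
    (g : E → F), ContDiffOn ℝ k g (ball c ρ) →
    (∀ i ≤ k, ∀ v ∈ ball c ρ, ‖iteratedFDeriv ℝ i g v‖ ≤ B) →
    (∀ v ∈ ball c ρ, ∀ w ∈ ball c ρ,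
      ‖iteratedFDeriv ℝ k g v - iteratedFDeriv ℝ k g w‖ ≤ B * ‖v - w‖ ^ α) →
    Cr α k (2 * B) g (ball c ρ) := by
  induction k with
  | zero =>
    intro F _ _ g _ h2 h3
    refine ⟨fun x hx => ?_, fun x hx y hy => ?_⟩
    · have := h2 0 le_rfl x hx
      rw [norm_iteratedFDeriv_zero] at this
      linarith [norm_nonneg (g x)]
    · have h4 := h3 x hx y hy
      have hB : 0 ≤ B := (norm_nonneg _).trans (h2 0 le_rfl x hx)
      rw [iteratedFDeriv_zero_eq_comp, Function.comp_apply, Function.comp_apply, ← map_sub,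
        LinearIsometryEquiv.norm_map] at h4
      nlinarith [Real.rpow_nonneg (norm_nonneg (x - y)) α]
  | succ k ih =>
    intro F _ _ g h1 h2 h3
    have hd : ∀ x ∈ ball c ρ, DifferentiableAt ℝ g x := fun x hx =>
      (h1.differentiableOn (by simp) x hx).differentiableAt (isOpen_ball.mem_nhds hx)
    refine ⟨⟨fun x hx => ?_, fun x hx y hy => ?_⟩, hd, ih (fderiv ℝ g)
      (h1.fderiv_of_isOpen isOpen_ball (by simp)) (fun i hi v hv => ?_) fun v hv w hw => ?_⟩
    · have := h2 0 (Nat.zero_le _) x hx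
      rw [norm_iteratedFDeriv_zero] at this
      linarith [norm_nonneg (g x)]
    · have hB : 0 ≤ B := (norm_nonneg _).trans (h2 0 (Nat.zero_le _) x hx)
      have h4 := (convex_ball c ρ).norm_image_sub_le_of_norm_fderiv_le hd (C := B)
        (fun z hz => by
          rw [← norm_iteratedFDeriv_one]
          exact h2 1 (by omega) z hz) hy hx
      have h5 := le_two_rpow hα hα1 (norm_nonneg _) (norm_sub_le_two hρ hx hy)
      nlinarith
    · rw [norm_iteratedFDeriv_fderiv]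
      exact h2 (i + 1) (by omega) v hv
    · have h4 := h3 v hv w hw
      rw [iteratedFDeriv_succ_eq_comp_right, iteratedFDeriv_succ_eq_comp_right,
        Function.comp_apply, Function.comp_apply, ← dist_eq_norm] at h4
      rw [← dist_eq_norm]
      exact ((continuousMultilinearCurryRightEquiv' ℝ k E F).symm.dist_map _ _).symm.trans_le h4

theorem hol {α : ℝ} (hα : 0 < α) (hα1 : α ≤ 1) {E F : Type} [NormedAddCommGroup E]
    [NormedSpace ℝ E] [NormedAddCommGroup F] [NormedSpace ℝ F] {g : E → F} {c : E}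
    (h : ContDiffAt ℝ 1 g c) : ∃ ρ > 0, ∃ B : ℝ, Cr α 0 B g (ball c ρ) ∧
      ∀ x ∈ ball c ρ, DifferentiableAt ℝ g x := by
  obtain ⟨K, t, ht, hK⟩ := h.exists_lipschitzOnWith
  obtain ⟨r, hr, hb⟩ := Metric.mem_nhds_iff.1 (inter_mem ht (h.eventually (by simp)))
  have hs : ball c (min r 1) ⊆ t := (ball_subset_ball (min_le_left _ _)).trans
    (hb.trans inter_subset_left)
  have hK0 : (0 : ℝ) ≤ K := K.2
  have hl : ∀ x ∈ ball c (min r 1), ∀ y ∈ ball c (min r 1), ‖g x - g y‖ ≤ K * ‖x - y‖ :=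
    fun x hx y hy => by
      have := hK.dist_le_mul x (hs hx) y (hs hy)
      rwa [dist_eq_norm, dist_eq_norm] at this
  have hc : c ∈ ball c (min r 1) := mem_ball_self (lt_min hr one_pos)
  refine ⟨min r 1, lt_min hr one_pos, ‖g c‖ + 2 * K, ⟨fun x hx => ?_, fun x hx y hy => ?_⟩,
    fun x hx => ContDiffAt.differentiableAt (n := 1)
      (hb (ball_subset_ball (min_le_left _ _) hx)).2 one_ne_zero⟩
  · have h1 := hl x hx c hc
    have h2 := norm_sub_le_two (min_le_right r 1) hx hc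
    have h3 := norm_le_norm_add_norm_sub' (g x) (g c)
    nlinarith
  · have h1 := hl x hx y hy
    have h2 := le_two_rpow hα hα1 (norm_nonneg _) (norm_sub_le_two (min_le_right r 1) hx hy)
    nlinarith [norm_nonneg (g c), Real.rpow_nonneg (norm_nonneg (x - y)) α]

end CrSmoothAux

theorem Cr_of_holderBd {α : ℝ} (hα : 0 < α) (hα1 : α ≤ 1) {k : ℕ} {B : ℝ} {g : E2 → E2}
    {c : E2} {ρ : ℝ} (hρ : ρ ≤ 1) (h : HolderBd k α B g (ball c ρ)) :
    Cr α k (2 * B) g (ball c ρ) :=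
  CrSmoothAux.aux hα hα1 hρ k g h.1 h.2.1 h.2.2

theorem Cr_of_contDiffAt {α : ℝ} (hα : 0 < α) (hα1 : α ≤ 1) (n : ℕ) {E F : Type}
    [NormedAddCommGroup E] [NormedSpace ℝ E] [NormedAddCommGroup F] [NormedSpace ℝ F]
    {g : E → F} {c : E} (h : ContDiffAt ℝ (⊤ : ℕ∞) g c) :
    ∃ ρ > 0, ∃ B : ℝ, Cr α n B g (ball c ρ) := by
  induction n generalizing F with
  | zero =>
    obtain ⟨ρ, hρ, B, h1, -⟩ := CrSmoothAux.hol hα hα1 (h.of_le (by simp))
    exact ⟨ρ, hρ, B, h1⟩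
  | succ n ih =>
    obtain ⟨ρ, hρ, B, h1, h2⟩ := CrSmoothAux.hol hα hα1 (h.of_le (by simp))
    obtain ⟨ρ', hρ', B', h3⟩ := ih (h.fderiv_right (m := (⊤ : ℕ∞)) (by simp))
    exact ⟨min ρ ρ', lt_min hρ hρ', max B B',
      ((h1.mono_B (le_max_left _ _)).mono_set (ball_subset_ball (min_le_left _ _))).hol,
      fun x hx => h2 x (ball_subset_ball (min_le_left _ _) hx),
      (h3.mono_B (le_max_right _ _)).mono_set (ball_subset_ball (min_le_right _ _))⟩

end Pool.Agent.Lib.MP_901be3_an.Hd
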