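import Pool.Agent.Lib.MP_901be3_an.Hd.AtBasic
import Pool.Agent.Lib.MP_901be3_an.Hd.CrComp
import Pool.Agent.Lib.MP_901be3_an.Hd.CrSmooth

namespace Pool.Agent.Lib.MP_901be3_an.Hd

open MeasureTheory Filter Topology Metric Set
open scoped ENNReal

open Manifold

variable {M : Type*} [MetricSpace M] [ChartedSpace E2 M] [IsManifold (𝓡 2) (⊤ : ℕ∞) M]
  [CompactSpace M] [MeasurableSpace M] {A : Atlas M}

namespace ARegAux

omit [IsManifold (𝓡 2) (⊤ : ℕ∞) M] [CompactSpace M] in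
theorem symm_at (hA : Compat A) {i : Fin A.N} {x : M} (hi : x ∈ (A.e i).source) :
    ContMDiffAt 𝓘(ℝ, V) (𝓡 2) (⊤ : ℕ∞) (A.e i).symm (A.e i x) :=
  (hA i).2.contMDiffAt ((A.e i).open_target.mem_nhds ((A.e i).map_source hi))

omit [IsManifold (𝓡 2) (⊤ : ℕ∞) M] [CompactSpace M] in
theorem chart_at (hA : Compat A) {i : Fin A.N} {x : M} (hi : x ∈ (A.e i).source) :
    ContMDiffAt (𝓡 2) 𝓘(ℝ, V) (⊤ : ℕ∞) (A.e i) x :=
  (hA i).1.contMDiffAt ((A.e i).open_source.mem_nhds hi)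

theorem holderBd_mono {k : ℕ} {α B : ℝ} {g : E2 → E2} {U U' : Set E2} (h : HolderBd k α B g U)
    (hU : U' ⊆ U) : HolderBd k α B g U' :=
  ⟨h.1.mono hU, fun i hi v hv => h.2.1 i hi v (hU hv), fun v hv w hw => h.2.2 v (hU hv) w (hU hw)⟩

theorem iter_id_succ (k : ℕ) (v w : E2) :
    iteratedFDeriv ℝ (k + 1) (id : E2 → E2) v = iteratedFDeriv ℝ (k + 1) id w ∧
      ‖iteratedFDeriv ℝ (k + 1) (id : E2 → E2) v‖ ≤ 1 := by
  have hd : fderiv ℝ (id : E2 → E2) = fun _ => ContinuousLinearMap.id ℝ E2 := by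
    funext y
    exact fderiv_id
  constructor
  · rw [iteratedFDeriv_succ_eq_comp_right, iteratedFDeriv_succ_eq_comp_right]
    simp only [Function.comp_apply, hd]
    congr 1
    rcases k with _ | k
    · simp [iteratedFDeriv_zero_eq_comp]
    · rw [iteratedFDeriv_const_of_ne (Nat.succ_ne_zero k)]
      rfl
  · rw [← norm_iteratedFDeriv_fderiv, hd]
    rcases k with _ | k
    · rw [norm_iteratedFDeriv_zero]
      exact ContinuousLinearMap.norm_id_le
    · rw [iteratedFDeriv_const_of_ne (Nat.succ_ne_zero k)]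
      simp

theorem holderBd_id {α : ℝ} (hα : 0 < α) (hα1 : α ≤ 1) (k : ℕ) (c : E2) {ρ : ℝ}
    (hρ : ρ ≤ 1 / 2) : HolderBd k α (‖c‖ + 1) id (ball c ρ) := by
  refine ⟨contDiffOn_id, fun i _ v hv => ?_, fun v hv w hw => ?_⟩
  · rcases i with _ | i
    · rw [norm_iteratedFDeriv_zero]
      have h1 := mem_ball_iff_norm.1 hv
      have h2 := norm_sub_norm_le v c
      simp only [id]
      linarith
    · linarith [(iter_id_succ i v v).2, norm_nonneg c]
  · rcases k with _ | k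
    · have h1 : ‖v - w‖ ≤ 1 := by
        have := dist_triangle_right v w c
        rw [← dist_eq_norm]
        linarith [mem_ball.1 hv, mem_ball.1 hw]
      have h2 : ‖v - w‖ ≤ ‖v - w‖ ^ α := Real.self_le_rpow_of_le_one (norm_nonneg _) h1 hα1
      have h3 : ‖iteratedFDeriv ℝ 0 (id : E2 → E2) v - iteratedFDeriv ℝ 0 id w‖ = ‖v - w‖ := by
        rw [iteratedFDeriv_zero_eq_comp]
        simp only [Function.comp_apply, id]
        rw [← map_sub, LinearIsometryEquiv.norm_map]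
      rw [h3]
      have h4 : 0 ≤ ‖v - w‖ ^ α := by positivity
      nlinarith [norm_nonneg c]
    · rw [(iter_id_succ k v w).1, sub_self, norm_zero]
      positivity

theorem holderBd_congr {k : ℕ} {α B : ℝ} {g g' : E2 → E2} {U : Set E2} (h : HolderBd k α B g U)
    (hU : IsOpen U) (he : EqOn g' g U) : HolderBd k α B g' U := by
  have h1 : ∀ i, ∀ v ∈ U, iteratedFDeriv ℝ i g' v = iteratedFDeriv ℝ i g v := fun i v hv =>
    ((he.eventuallyEq_of_mem (hU.mem_nhds hv)).iteratedFDeriv ℝ i).eq_of_nhds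
  refine ⟨h.1.congr he, fun i hi v hv => ?_, fun v hv w hw => ?_⟩
  · rw [h1 i v hv]
    exact h.2.1 i hi v hv
  · rw [h1 k v hv, h1 k w hw]
    exact h.2.2 v hv w hw

end ARegAux

theorem Compat.differentiableAt (hA : Compat A) {g : M → M}
    (hg : MDifferentiable (𝓡 2) (𝓡 2) g) {i j : Fin A.N} {x : M} (hi : x ∈ (A.e i).source)
    (hj : g x ∈ (A.e j).source) : DifferentiableAt ℝ (A.rep g i j) (A.e i x) := by
  have h1 := (ARegAux.symm_at hA hi).mdifferentiableAt (by simp)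
  have h2 : MDifferentiableAt (𝓡 2) 𝓘(ℝ, V) (A.e j) (g ((A.e i).symm (A.e i x))) := by
    rw [(A.e i).left_inv hi]
    exact (ARegAux.chart_at hA hj).mdifferentiableAt (by simp)
  have h3 : MDifferentiableAt 𝓘(ℝ, V) (𝓡 2) (g ∘ (A.e i).symm) (A.e i x) :=
    MDifferentiableAt.comp (A.e i x) (hg _) h1
  exact mdifferentiableAt_iff_differentiableAt.1
    (MDifferentiableAt.comp (f := g ∘ (A.e i).symm) (A.e i x) h2 h3)

/-- local version of the uniform bounds -/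
theorem Compat.local_reg (hA : Compat A) {α : ℝ} (hα : 0 < α) (hα1 : α ≤ 1) {n : ℕ}
    {F : ℕ → M → M} {f : M → M} (hf : Continuous f) (h : BddConv (n + 1) α F f)
    {i j : Fin A.N} {x : M} (hi : x ∈ (A.e i).source) (hj : f x ∈ (A.e j).source) :
    ∃ ρ > 0, ∃ B : ℝ,
      ((∀ w ∈ ball (A.e i x) ρ, f ((A.e i).symm w) ∈ (A.e j).source) ∧
        Cr α (n + 1) B (A.rep f i j) (ball (A.e i x) ρ)) ∧
      ∀ᶠ k in atTop, (∀ w ∈ ball (A.e i x) ρ, F k ((A.e i).symm w) ∈ (A.e j).source) ∧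
        Cr α (n + 1) B (A.rep (F k) i j) (ball (A.e i x) ρ) := by
  obtain ⟨ρ₀, hρ₀, B₀, -, hbf, hbF, hun⟩ := h x
  set φ := extChartAt (𝓡 2) x with hφ
  set ψ := extChartAt (𝓡 2) (f x) with hψ
  set a : V → E2 := φ ∘ (A.e i).symm with ha
  set b : E2 → V := A.e j ∘ ψ.symm with hb
  have hxs : (A.e i).symm (A.e i x) = x := (A.e i).left_inv hi
  have hψs : ψ.symm (ψ (f x)) = f x := extChartAt_to_inv (f x)
  have hφs : φ.symm (φ x) = x := extChartAt_to_inv x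
  have hca : ContDiffAt ℝ (⊤ : ℕ∞) a (A.e i x) := by
    refine contMDiffAt_iff_contDiffAt.1 (ContMDiffAt.comp (I' := 𝓡 2) _ ?_ (ARegAux.symm_at hA hi))
    rw [hxs]
    exact contMDiffAt_extChartAt
  have hcb : ContDiffAt ℝ (⊤ : ℕ∞) b (ψ (f x)) := by
    refine contMDiffAt_iff_contDiffAt.1 (ContMDiffAt.comp (I' := 𝓡 2) _ ?_ ?_)
    · rw [hψs]
      exact ARegAux.chart_at hA hj
    · exact (contMDiffOn_extChartAt_symm (f x)).contMDiffAt (extChartAt_target_mem_nhds (f x))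
  obtain ⟨ρa, hρa, Ba, hCa⟩ := Cr_of_contDiffAt hα hα1 (n + 1) hca
  obtain ⟨ρb, hρb, Bb, hCb⟩ := Cr_of_contDiffAt hα hα1 (n + 1) hcb
  have e1 : ∀ᶠ u in 𝓝 (ψ (f x)), ψ.symm u ∈ (A.e j).source ∧ u ∈ ball (ψ (f x)) ρb := by
    refine Eventually.and ?_ (ball_mem_nhds _ hρb)
    refine (continuousAt_extChartAt_symm (f x)).eventually_mem ?_
    rw [hψs]
    exact (A.e j).open_source.mem_nhds hj
  obtain ⟨δ, hδ, hδ'⟩ := Metric.eventually_nhds_iff_ball.1 e1
  have e2 : ∀ᶠ v in 𝓝 (φ x), inCharts f x (f x) v ∈ ball (ψ (f x)) (δ / 2) ∧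
      v ∈ ball (φ x) ρ₀ := by
    refine Eventually.and ?_ (ball_mem_nhds _ hρ₀)
    refine (hbf.2.1.continuousOn.continuousAt (ball_mem_nhds _ hρ₀)).eventually_mem ?_
    have : inCharts f x (f x) (φ x) = ψ (f x) := by
      show ψ (f (φ.symm (φ x))) = _
      rw [hφs]
    rw [this]
    exact ball_mem_nhds _ (half_pos hδ)
  obtain ⟨ρ₁, hρ₁, hρ₁'⟩ := Metric.eventually_nhds_iff_ball.1 e2
  set ρ₂ := min ρ₁ 1 with hρ₂
  have hρ₂0 : 0 < ρ₂ := lt_min hρ₁ one_pos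
  have hsub : ball (φ x) ρ₂ ⊆ ball (φ x) ρ₁ := ball_subset_ball (min_le_left _ _)
  have e3 : ∀ᶠ w in 𝓝 (A.e i x), a w ∈ ball (φ x) ρ₂ ∧ (A.e i).symm w ∈ φ.source ∧
      w ∈ ball (A.e i x) ρa := by
    refine Eventually.and ?_ (Eventually.and ?_ (ball_mem_nhds _ hρa))
    · refine hca.continuousAt.eventually_mem ?_
      have : a (A.e i x) = φ x := by
        show φ ((A.e i).symm (A.e i x)) = _
        rw [hxs]
      rw [this]
      exact ball_mem_nhds _ hρ₂0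
    · refine (ARegAux.symm_at hA hi).continuousAt.eventually_mem ?_
      rw [hxs]
      exact extChartAt_source_mem_nhds x
  obtain ⟨ρ, hρ, hρ'⟩ := Metric.eventually_nhds_iff_ball.1 e3
  obtain ⟨C₁, -, hC₁⟩ := Cr_comp hα hα1 (n + 1) (2 * B₀) Ba
  obtain ⟨C₂, -, hC₂⟩ := Cr_comp hα hα1 (n + 1) Bb C₁
  have hCa' : Cr α (n + 1) Ba a (ball (A.e i x) ρ) := hCa.mono_set fun w hw => (hρ' w hw).2.2
  have key : ∀ g : M → M, BdOn (n + 1) α B₀ g x (f x) (ball (φ x) ρ₀) →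
      (∀ v ∈ ball (φ x) ρ₂, inCharts g x (f x) v ∈ ball (ψ (f x)) δ) →
      (∀ w ∈ ball (A.e i x) ρ, g ((A.e i).symm w) ∈ (A.e j).source) ∧
        Cr α (n + 1) C₂ (A.rep g i j) (ball (A.e i x) ρ) := by
    intro g hg hm
    have hval : ∀ w ∈ ball (A.e i x) ρ,
        ψ.symm (inCharts g x (f x) (a w)) = g ((A.e i).symm w) := fun w hw => by
      have h1 : φ.symm (a w) = (A.e i).symm w := φ.left_inv (hρ' w hw).2.1
      have h2 : g (φ.symm (a w)) ∈ ψ.source := hg.1 (hρ₁' _ (hsub (hρ' w hw).1)).2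
      show ψ.symm (ψ (g (φ.symm (a w)))) = _
      rw [ψ.left_inv h2, h1]
    refine ⟨fun w hw => hval w hw ▸ (hδ' _ (hm _ (hρ' w hw).1)).1, ?_⟩
    have hG : Cr α (n + 1) (2 * B₀) (inCharts g x (f x)) (ball (φ x) ρ₂) :=
      Cr_of_holderBd hα hα1 (min_le_right _ _)
        (ARegAux.holderBd_mono hg.2 fun v hv => (hρ₁' v (hsub hv)).2)
    have h1 := hC₁ (inCharts g x (f x)) a _ _ isOpen_ball (fun w hw => (hρ' w hw).1) hG hCa'
      (hCa'.lip (convex_ball _ _))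
    have h2 := hC₂ b (inCharts g x (f x) ∘ a) _ _ isOpen_ball
      (fun w hw => (hδ' _ (hm _ (hρ' w hw).1)).2) hCb h1 (h1.lip (convex_ball _ _))
    refine h2.congr isOpen_ball fun w hw => ?_
    show A.e j (g ((A.e i).symm w)) = A.e j (ψ.symm (inCharts g x (f x) (a w)))
    rw [hval w hw]
  refine ⟨ρ, hρ, C₂, key f hbf fun v hv =>
    ball_subset_ball (half_le_self hδ.le) (hρ₁' v (hsub hv)).1, ?_⟩
  filter_upwards [hbF, Metric.tendstoUniformlyOn_iff.1 hun (δ / 2) (half_pos hδ)] with k h1 h2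
  refine key (F k) h1 fun v hv => ?_
  have h3 := h2 v (hρ₁' v (hsub hv)).2
  have h4 := mem_ball.1 (hρ₁' v (hsub hv)).1
  have h5 := dist_triangle_left (inCharts (F k) x (f x) v) (ψ (f x)) (inCharts f x (f x) v)
  rw [mem_ball]
  linarith

theorem unif_of_bddConv {k : ℕ} {α : ℝ} {F : ℕ → M → M} {f : M → M} (hf : Continuous f)
    (h : BddConv k α F f) : ∀ γ > 0, ∀ᶠ n in atTop, ∀ x, dist (F n x) (f x) ≤ γ := by
  intro γ hγ
  have key : ∀ᶠ n in atTop, ∀ x ∈ (univ : Set M), dist (F n x) (f x) ≤ γ := by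
    refine isCompact_univ.induction_on
      (p := fun s => ∀ᶠ n in atTop, ∀ x ∈ s, dist (F n x) (f x) ≤ γ) ?_ ?_ ?_ ?_
    · simp
    · intro s t hst ht
      exact ht.mono fun n hn x hx => hn x (hst hx)
    · intro s t hs ht
      filter_upwards [hs, ht] with n h1 h2 x hx using hx.elim (h1 x) (h2 x)
    · intro x _
      obtain ⟨ρ₀, hρ₀, B₀, -, -, hbF, hun⟩ := h x
      set φ := extChartAt (𝓡 2) x with hφ
      set ψ := extChartAt (𝓡 2) (f x) with hψ
      have hψs : ψ.symm (ψ (f x)) = f x := extChartAt_to_inv (f x)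
      have e1 : ∀ᶠ u in 𝓝 (ψ (f x)), ψ.symm u ∈ ball (f x) (γ / 2) := by
        refine (continuousAt_extChartAt_symm (f x)).eventually_mem ?_
        rw [hψs]
        exact ball_mem_nhds _ (half_pos hγ)
      obtain ⟨δ, hδ, hδ'⟩ := Metric.eventually_nhds_iff_ball.1 e1
      have e2 : ∀ᶠ y in 𝓝 x, y ∈ φ.source ∧ φ y ∈ ball (φ x) ρ₀ ∧ f y ∈ ball (f x) (γ / 2) ∧
          ψ (f y) ∈ ball (ψ (f x)) (δ / 2) :=
        Eventually.and (extChartAt_source_mem_nhds x) (Eventually.and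
          ((continuousAt_extChartAt x).eventually_mem (ball_mem_nhds _ hρ₀)) (Eventually.and
          (hf.continuousAt.eventually_mem (ball_mem_nhds _ (half_pos hγ)))
          (((continuousAt_extChartAt (f x)).comp hf.continuousAt).eventually_mem
            (ball_mem_nhds _ (half_pos hδ)))))
      refine ⟨_, mem_nhdsWithin_of_mem_nhds e2, ?_⟩
      filter_upwards [hbF, Metric.tendstoUniformlyOn_iff.1 hun (δ / 2) (half_pos hδ)]
        with n h1 h2 y hy
      obtain ⟨y1, y2, y3, y4⟩ := hy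
      have h3 : φ.symm (φ y) = y := φ.left_inv y1
      have h4 : F n y ∈ ψ.source := by
        have := h1.1 y2
        rwa [Function.comp_apply, h3] at this
      have h5 : dist (ψ (f y)) (ψ (F n y)) < δ / 2 := by
        have := h2 _ y2
        change dist (ψ (f (φ.symm (φ y)))) (ψ (F n (φ.symm (φ y)))) < δ / 2 at this
        rwa [h3] at this
      have h6 : ψ (F n y) ∈ ball (ψ (f x)) δ := by
        have := dist_triangle_left (ψ (F n y)) (ψ (f x)) (ψ (f y))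
        rw [mem_ball] at y4 ⊢
        linarith
      have h7 := hδ' _ h6
      rw [ψ.left_inv h4, mem_ball] at h7
      have := dist_triangle_right (F n y) (f y) (f x)
      rw [mem_ball] at y3
      linarith
  exact key.mono fun n hn x => hn x (mem_univ x)

theorem bddConv_id {α : ℝ} (hα : 0 < α) (hα1 : α ≤ 1) (k : ℕ) :
    BddConv k α (fun _ => (id : M → M)) id := by
  intro x
  obtain ⟨ρ₀, hρ₀, hsub⟩ := Metric.mem_nhds_iff.1 (extChartAt_target_mem_nhds (I := 𝓡 2) x)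
  have hs : ball (extChartAt (𝓡 2) x x) (min ρ₀ (1 / 2)) ⊆ (extChartAt (𝓡 2) x).target :=
    (ball_subset_ball (min_le_left _ _)).trans hsub
  have hb : BdOn k α (‖extChartAt (𝓡 2) x x‖ + 1) (id : M → M) x x
      (ball (extChartAt (𝓡 2) x x) (min ρ₀ (1 / 2))) :=
    ⟨fun v hv => (extChartAt (𝓡 2) x).map_target (hs hv),
      ARegAux.holderBd_congr (ARegAux.holderBd_id hα hα1 k _ (min_le_right _ _)) isOpen_ball
        fun v hv => (extChartAt (𝓡 2) x).right_inv (hs hv)⟩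
  refine ⟨_, lt_min hρ₀ (by norm_num), _, hs, hb, Eventually.of_forall fun _ => hb, ?_⟩
  exact Metric.tendstoUniformlyOn_iff.2 fun ε hε => Eventually.of_forall fun _ v _ => by
    simpa using hε

namespace ARegAux

/-- the local property in `Atlas.Reg` -/
def Q (A : Atlas M) (α : ℝ) (n : ℕ) (i j : Fin A.N) (t : ℝ) (g : M → M) (x : M) : Prop :=
  (∀ w ∈ ball (A.e i x) t⁻¹, g ((A.e i).symm w) ∈ (A.e j).source) ∧
    Cr α (n + 1) t (A.rep g i j) (ball (A.e i x) t⁻¹)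

omit [ChartedSpace E2 M] [IsManifold (𝓡 2) (⊤ : ℕ∞) M] [CompactSpace M] in
theorem isCompact_core (A : Atlas M) (i : Fin A.N) {r : ℝ} (hr : r < 3) :
    IsCompact {x | x ∈ (A.e i).source ∧ ‖A.e i x‖ ≤ r} := by
  have hsub : closedBall (0 : V) r ⊆ (A.e i).target := by
    rw [A.target_eq]
    exact closedBall_subset_ball hr
  have he : {x | x ∈ (A.e i).source ∧ ‖A.e i x‖ ≤ r} = (A.e i).symm '' closedBall 0 r := by
    ext x
    constructor
    · rintro ⟨h1, h2⟩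
      exact ⟨A.e i x, mem_closedBall_zero_iff.2 h2, (A.e i).left_inv h1⟩
    · rintro ⟨v, hv, rfl⟩
      refine ⟨(A.e i).map_target (hsub hv), ?_⟩
      rw [(A.e i).right_inv (hsub hv)]
      exact mem_closedBall_zero_iff.1 hv
  rw [he]
  exact (isCompact_closedBall 0 r).image_of_continuousOn ((A.e i).continuousOn_symm.mono hsub)

theorem reg_ev (hA : Compat A) {α : ℝ} (hα : 0 < α) (hα1 : α ≤ 1) {n : ℕ}
    {F : ℕ → M → M} {f : M → M} (hf : Continuous f) (h : BddConv (n + 1) α F f) :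
    ∀ᶠ t : ℝ in atTop, (∀ i j x, A.Gd i x → A.Gd j (f x) → Q A α n i j t f x) ∧
      ∀ᶠ k in atTop, ∀ i j x, A.Gd i x → A.Gd j (F k x) → Q A α n i j t (F k) x := by
  set K : Fin A.N → Fin A.N → Set M := fun i j => {x | x ∈ (A.e i).source ∧ ‖A.e i x‖ ≤ 2} ∩
    f ⁻¹' {x | x ∈ (A.e j).source ∧ ‖A.e j x‖ ≤ 5 / 2} with hK
  have hKc : ∀ i j, IsCompact (K i j) := fun i j =>
    (isCompact_core A i (by norm_num)).inter_right
      ((isCompact_core A j (by norm_num)).isClosed.preimage hf)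
  have key : ∀ i j, ∀ᶠ t : ℝ in atTop, (∀ x ∈ K i j, Q A α n i j t f x) ∧
      ∀ᶠ k in atTop, ∀ x ∈ K i j, Q A α n i j t (F k) x := by
    intro i j
    refine (hKc i j).induction_on (p := fun s => ∀ᶠ t : ℝ in atTop,
      (∀ x ∈ s, Q A α n i j t f x) ∧ ∀ᶠ k in atTop, ∀ x ∈ s, Q A α n i j t (F k) x) ?_ ?_ ?_ ?_
    · simp
    · intro s s' hss hs'
      exact hs'.mono fun t ht => ⟨fun x hx => ht.1 x (hss hx),
        ht.2.mono fun k hk x hx => hk x (hss hx)⟩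
    · intro s s' hs hs'
      filter_upwards [hs, hs'] with t h1 h2
      refine ⟨fun x hx => hx.elim (h1.1 x) (h2.1 x), ?_⟩
      filter_upwards [h1.2, h2.2] with k h3 h4 x hx using hx.elim (h3 x) (h4 x)
    · intro x₀ hx₀
      obtain ⟨ρ, hρ, B, h1, h2⟩ := hA.local_reg hα hα1 hf h hx₀.1.1 hx₀.2.1
      have e1 : ∀ᶠ x in 𝓝 x₀, A.e i x ∈ ball (A.e i x₀) (ρ / 2) :=
        ((A.e i).continuousAt hx₀.1.1).eventually_mem (ball_mem_nhds _ (half_pos hρ))
      refine ⟨_, mem_nhdsWithin_of_mem_nhds e1, ?_⟩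
      filter_upwards [eventually_ge_atTop B, eventually_ge_atTop (ρ / 2)⁻¹] with t hB ht
      have ht' : t⁻¹ ≤ ρ / 2 := inv_le_of_inv_le₀ (half_pos hρ) ht
      have hq : ∀ g : M → M, ((∀ w ∈ ball (A.e i x₀) ρ, g ((A.e i).symm w) ∈ (A.e j).source) ∧
          Cr α (n + 1) B (A.rep g i j) (ball (A.e i x₀) ρ)) →
          ∀ x ∈ {x | A.e i x ∈ ball (A.e i x₀) (ρ / 2)}, Q A α n i j t g x := by
        intro g hg x hx
        have hs : ball (A.e i x) t⁻¹ ⊆ ball (A.e i x₀) ρ :=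
          ball_subset_ball' (by linarith [mem_ball.1 hx])
        exact ⟨fun w hw => hg.1 w (hs hw), (hg.2.mono_set hs).mono_B hB⟩
      exact ⟨hq f h1, h2.mono fun k hk => hq (F k) hk⟩
  have hL : 0 < A.L := lt_of_lt_of_le one_pos A.one_le_L
  have hu := unif_of_bddConv hf h (A.L⁻¹ / 2) (by positivity)
  filter_upwards [eventually_all.2 fun i => eventually_all.2 fun j => key i j] with t ht
  refine ⟨fun i j x hi hj => (ht i j).1 x ⟨⟨hi.1, hi.2.le⟩, hj.1, by linarith [hj.2]⟩, ?_⟩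
  filter_upwards [eventually_all.2 fun i => eventually_all.2 fun j => (ht i j).2, hu]
    with k h1 h2 i j x hi hj
  have h3 : f x ∈ (A.e j).source :=
    A.leb j _ hj.1 hj.2 _ ((h2 x).trans_lt (half_lt_self (by positivity)))
  refine h1 i j x ⟨⟨hi.1, hi.2.le⟩, h3, ?_⟩
  have h4 := A.lip_low j _ hj.1 _ h3
  have h5 : A.L * dist (F k x) (f x) ≤ 1 / 2 := by
    calc A.L * dist (F k x) (f x) ≤ A.L * (A.L⁻¹ / 2) := mul_le_mul_of_nonneg_left (h2 x) hL.le
      _ = 1 / 2 := by field_simp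
  have h6 := norm_sub_norm_le (A.e j (f x)) (A.e j (F k x))
  rw [norm_sub_rev] at h6
  linarith [hj.2]

end ARegAux

theorem Compat.reg (hA : Compat A) {α : ℝ} (hα : 0 < α) (hα1 : α ≤ 1) {n : ℕ}
    {F : ℕ → M → M} {f : M → M} (hf : Continuous f) (hF : ∀ k, Continuous (F k))
    (h : BddConv (n + 1) α F f) :
    ∃ P : Par, P.α = α ∧ P.n = n ∧ A.Reg P id ∧ A.Reg P f ∧ ∀ᶠ k in atTop, A.Reg P (F k) := by
  obtain ⟨t, ⟨⟨h1, -⟩, h2, h3⟩, ht⟩ :=
    (((ARegAux.reg_ev hA hα hα1 continuous_id (bddConv_id hα hα1 (n + 1))).and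
      (ARegAux.reg_ev hA hα hα1 hf h)).and (eventually_ge_atTop 1)).exists
  refine ⟨⟨α, n, t⁻¹, t, hα, hα1, by positivity, inv_le_one_of_one_le₀ ht, ht⟩, rfl, rfl,
    ⟨continuous_id, h1⟩, ⟨hf, h2⟩, h3.mono fun k hk => ⟨hF k, hk⟩⟩

end Pool.Agent.Lib.MP_901be3_an.Hd
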