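import Pool.Agent.Lib.MP_901be3_an.Hd.EntBasic

namespace Pool.Agent.Lib.MP_901be3_an.Hd

open MeasureTheory Filter Topology Metric Set
open scoped ENNReal

variable {X : Type*} [MetricSpace X] [MeasurableSpace X] [BorelSpace X]

theorem measurePreserving_symm {μ : Measure X} (g : X ≃ₜ X) (h : MeasurePreserving g μ μ) :
    MeasurePreserving g.symm μ μ :=
  MeasurePreserving.symm g.toMeasurableEquiv h

theorem ergodic_symm {μ : Measure X} (g : X ≃ₜ X) (h : Ergodic g μ) : Ergodic g.symm μ :=
  Ergodic.symm (e := g.toMeasurableEquiv) h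

namespace EntMoreAux

lemma partEnt_symm {μ : Measure X} (g : X ≃ₜ X) (h : MeasurePreserving g μ μ) {ι : Type*}
    [Fintype ι] {P : X → ι} (hP : ∀ a, MeasurableSet (P ⁻¹' {a})) (n : ℕ) :
    partEnt μ (name g.symm P n) = partEnt μ (name g P n) := by
  classical
  have key : ∀ (x : X) (j : Fin n),
      name g.symm P n (g^[n - 1] x) j = name g P n x (Fin.rev j) := fun x j => by
    have e : n - 1 = (j : ℕ) + (Fin.rev j : ℕ) := by
      rw [Fin.val_rev]
      omega
    have hl : Function.LeftInverse (g.symm^[j]) (g^[j]) :=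
      Function.LeftInverse.iterate g.symm_apply_apply j
    simp only [name]
    rw [e, Function.iterate_add_apply, hl]
  unfold partEnt
  refine Fintype.sum_equiv (Equiv.arrowCongr Fin.revPerm (Equiv.refl ι)) _ _ fun w => ?_
  congr 1
  have e : name g P n ⁻¹' {Equiv.arrowCongr Fin.revPerm (Equiv.refl ι) w} =
      g^[n - 1] ⁻¹' (name g.symm P n ⁻¹' {w}) := by
    ext x
    simp only [mem_preimage, mem_singleton_iff, funext_iff, key]
    constructor
    · intro hx j
      simpa using hx (Fin.rev j)
    · intro hx j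
      simpa using hx (Fin.rev j)
  rw [e, Measure.real, Measure.real, (h.iterate (n - 1)).measure_preimage
    (measurableSet_name g.symm.continuous.measurable hP n w).nullMeasurableSet]

end EntMoreAux

theorem ksEnt_symm {μ : Measure X} [IsProbabilityMeasure μ] (g : X ≃ₜ X)
    (h : MeasurePreserving g μ μ) : ksEnt g.symm μ = ksEnt g μ := by
  unfold ksEnt
  refine iSup_congr fun K => iSup_congr fun P => iSup_congr fun hP => ?_
  unfold partRate
  simp only [EntMoreAux.partEnt_symm g h fun a => hP (measurableSet_singleton a)]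

/-- an ergodic measure with positive entropy has no atoms -/
theorem noAtoms_of_ksEnt_pos {μ : Measure X} [IsProbabilityMeasure μ] {T : X → X}
    (h : Ergodic T μ) (hpos : 0 < ksEnt T μ) (x : X) : μ {x} = 0 := by
  classical
  by_contra hx
  have hT := h.toMeasurePreserving
  have hfin : Set.Finite {y : X | μ {x} ≤ μ {y}} :=
    Measure.finite_const_le_meas_of_disjoint_iUnion μ (pos_iff_ne_zero.2 hx)
      (As := fun y : X => {y}) (fun y => measurableSet_singleton y)
      (fun a b hab => disjoint_singleton.2 hab) (measure_ne_top _ _)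
  have hO : (range fun n : ℕ => T^[n] x).Finite := hfin.subset (by
    rintro _ ⟨n, rfl⟩
    change μ {x} ≤ μ {T^[n] x}
    rw [← (hT.iterate n).measure_preimage (measurableSet_singleton (T^[n] x)).nullMeasurableSet]
    exact measure_mono (singleton_subset_iff.2 rfl))
  have hsub : (range fun n : ℕ => T^[n] x) ⊆ T ⁻¹' range fun n : ℕ => T^[n] x := by
    rintro _ ⟨n, rfl⟩
    exact ⟨n + 1, Function.iterate_succ_apply' T n x⟩
  have hc : μ.real (range fun n : ℕ => T^[n] x)ᶜ = 0 := by
    rcases h.ae_empty_or_univ_of_ae_le_preimage hO.measurableSet.nullMeasurableSet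
      hsub.eventuallyLE with h1 | h1
    · exact absurd (measure_mono_null (singleton_subset_iff.2 (mem_range_self (f := fun n : ℕ => T^[n] x) 0))
        (ae_eq_empty.1 h1)) hx
    · rw [Measure.real, ae_eq_univ.1 h1, ENNReal.toReal_zero]
  refine hpos.ne' ?_
  unfold ksEnt
  simp only [ENNReal.iSup_eq_zero, ENNReal.ofReal_eq_zero]
  intro K P hP
  have hP' : ∀ a, MeasurableSet (P ⁻¹' {a}) := fun a => hP (measurableSet_singleton a)
  refine le_of_tendsto_of_tendsto' (tendsto_partRate hT hP')
    (tendsto_const_div_atTop_nhds_zero_nat (Real.log 2 + Real.log hO.toFinset.card)) fun n => ?_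
  refine div_le_div_of_nonneg_right ?_ n.cast_nonneg
  have h1 := partEnt_le_of_set μ (measurableSet_name hT.measurable hP' n) hO.measurableSet
    (hO.toFinset.image (name T P n)) fun y hy => Finset.mem_image_of_mem _ (hO.mem_toFinset.2 hy)
  rw [hc, zero_mul, add_zero] at h1
  refine h1.trans (add_le_add le_rfl (Real.log_le_log ?_ ?_))
  · exact Nat.cast_pos.2 (Finset.card_pos.2
      ⟨_, Finset.mem_image_of_mem _ (hO.mem_toFinset.2 ⟨0, rfl⟩)⟩)
  · exact Nat.cast_le.2 Finset.card_image_le

end Pool.Agent.Lib.MP_901be3_an.Hd
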