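import Pool.Agent.Lib.MP_901be3_an.Hd.ANorm
import Pool.Agent.Lib.MP_901be3_an.Hd.EntMore

namespace Pool.Agent.Lib.MP_901be3_an.Hd

open MeasureTheory Filter Topology Metric Set
open scoped ENNReal

open Manifold Bundle

namespace ATransAux

theorem abs_log_sub_le {a b L : ℝ} (ha : 0 ≤ a) (hb : 0 ≤ b) (hL : 1 ≤ L) (h1 : a ≤ L * b)
    (h2 : b ≤ L * a) : |Real.log a - Real.log b| ≤ Real.log L := by
  have hL0 : 0 ≤ Real.log L := Real.log_nonneg hL
  rcases ha.eq_or_lt with ha0 | ha0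
  · have hb0 : b = 0 := by
      have : b ≤ 0 := by simpa [← ha0] using h2
      linarith
    simp [← ha0, hb0, hL0]
  · have hb0 : 0 < b := by
      by_contra hneg
      have : b = 0 := by linarith
      rw [this] at h1
      linarith
    have hLp : 0 < L := by linarith
    have e1 : Real.log a ≤ Real.log L + Real.log b := by
      rw [← Real.log_mul hLp.ne' hb0.ne']
      exact Real.log_le_log ha0 h1
    have e2 : Real.log b ≤ Real.log L + Real.log a := by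
      rw [← Real.log_mul hLp.ne' ha0.ne']
      exact Real.log_le_log hb0 h2
    rw [abs_le]
    constructor <;> linarith

theorem tendsto_of_close {u w : ℕ → ℝ} {l K : ℝ} (h : Tendsto (fun n : ℕ => u n / n) atTop (𝓝 l))
    (hc : ∀ n, |w n - u n| ≤ K) : Tendsto (fun n : ℕ => w n / n) atTop (𝓝 l) := by
  have h0 : Tendsto (fun n : ℕ => (w n - u n) / n) atTop (𝓝 0) := by
    have hK : Tendsto (fun n : ℕ => K / (n : ℝ)) atTop (𝓝 0) :=
      tendsto_const_div_atTop_nhds_zero_nat K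
    refine squeeze_zero_norm (fun n => ?_) hK
    rw [Real.norm_eq_abs, abs_div, Nat.abs_cast]
    exact div_le_div_of_nonneg_right (hc n) (Nat.cast_nonneg n)
  have := h.add h0
  rw [add_zero] at this
  refine this.congr fun n => ?_
  ring

theorem full_of_pos {X : Type*} [MeasurableSpace X] {μ : Measure X} [IsProbabilityMeasure μ]
    {g : X → X} (h : Ergodic g μ) {S : Set X} (hS : MeasurableSet S) (h0 : μ S ≠ 0) :
    μ {x | ∃ i : ℕ, g^[i] x ∈ S}ᶜ = 0 := by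
  have hm : Measurable g := h.toMeasurePreserving.measurable
  have hU : MeasurableSet {x | ∃ i : ℕ, g^[i] x ∈ S} := by
    have : {x | ∃ i : ℕ, g^[i] x ∈ S} = ⋃ i : ℕ, g^[i] ⁻¹' S := by
      ext x; simp
    rw [this]
    exact MeasurableSet.iUnion fun i => (hm.iterate i) hS
  have hle : g ⁻¹' {x | ∃ i : ℕ, g^[i] x ∈ S} ⊆ {x | ∃ i : ℕ, g^[i] x ∈ S} := by
    rintro x ⟨i, hi⟩
    exact ⟨i + 1, by simpa [Function.iterate_succ_apply] using hi⟩
  rcases h.ae_empty_or_univ_of_preimage_ae_le hU.nullMeasurableSet hle.eventuallyLE with h1 | h1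
  · exfalso
    apply h0
    have : μ {x | ∃ i : ℕ, g^[i] x ∈ S} = 0 := by simpa using h1
    have hsub : S ⊆ {x | ∃ i : ℕ, g^[i] x ∈ S} := fun x hx => ⟨0, hx⟩
    exact measure_mono_null hsub this
  · simpa using h1

theorem linIndep_of_det {T : V →L[ℝ] E2} (hT : Function.Injective T) {v w : V}
    (h : det v w ≠ 0) : LinearIndependent ℝ ![T v, T w] := by
  rw [LinearIndependent.pair_iff]
  intro s t hst
  have h1 : T (s • v + t • w) = T 0 := by simpa using hst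
  have h2 := hT h1
  have h3 : s * v.1 + t * w.1 = 0 := by simpa using congrArg Prod.fst h2
  have h4 : s * v.2 + t * w.2 = 0 := by simpa using congrArg Prod.snd h2
  unfold det at h
  constructor
  · apply mul_right_cancel₀ h
    linear_combination w.2 * h3 - w.1 * h4
  · apply mul_right_cancel₀ h
    linear_combination v.1 * h4 - v.2 * h3

end ATransAux

open ATransAux

variable {M : Type*} [MetricSpace M] [ChartedSpace E2 M] [IsManifold (𝓡 2) (⊤ : ℕ∞) M]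
  [CompactSpace M] [MeasurableSpace M] [BorelSpace M]
  [RiemannianBundle (fun x : M => TangentSpace (𝓡 2) x)]
  [IsContinuousRiemannianBundle E2 (fun x : M => TangentSpace (𝓡 2) x)] {A : Atlas M}

namespace ATransAux

omit [IsManifold (𝓡 2) (⊤ : ℕ∞) M] [CompactSpace M] [MeasurableSpace M] [BorelSpace M]
  [RiemannianBundle (fun x : M => TangentSpace (𝓡 2) x)]
  [IsContinuousRiemannianBundle E2 (fun x : M => TangentSpace (𝓡 2) x)] in
theorem mdiff_iter (f : Diffeomorph (𝓡 2) (𝓡 2) M M 1) (n : ℕ) :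
    MDifferentiable (𝓡 2) (𝓡 2) f^[n] := by
  have h1 : MDifferentiable (𝓡 2) (𝓡 2) f := f.mdifferentiable one_ne_zero
  induction n with
  | zero => exact mdifferentiable_id
  | succ n ih =>
    rw [Function.iterate_succ]
    exact ih.comp h1

omit [BorelSpace M] in
theorem expConv_of (hA : Compat A) {g : M → M} {b : ℝ → M} {y : M} (h : UConv g b y) :
    ExpConv g b y := by
  obtain ⟨C', ρ, hρ, hC'⟩ := hA.riem_le
  obtain ⟨C, θ, hθ0, hθ1, hev⟩ := h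
  have hlim : Tendsto (fun n : ℕ => C * θ ^ n) atTop (𝓝 0) := by
    simpa using (tendsto_pow_atTop_nhds_zero_of_lt_one hθ0.le hθ1).const_mul C
  obtain ⟨n₀, hn₀⟩ := eventually_atTop.1 (hlim.eventually (gt_mem_nhds hρ))
  refine ⟨|C'| * C, -Real.log θ, by linarith [Real.log_neg hθ0 hθ1], n₀, ?_⟩
  filter_upwards [hev] with s hs n hn
  refine (hC' _ _ ((hs n).trans_lt (hn₀ n hn))).trans (ENNReal.ofReal_le_ofReal ?_)
  have e : Real.exp (-(-Real.log θ) * n) = θ ^ n := by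
    rw [neg_neg, mul_comm, Real.exp_nat_mul, Real.exp_log hθ0]
  rw [e, mul_assoc]
  calc C' * dist (g^[n] (b s)) (g^[n] y) ≤ |C'| * dist (g^[n] (b s)) (g^[n] y) :=
        mul_le_mul_of_nonneg_right (le_abs_self _) dist_nonneg
    _ ≤ |C'| * (C * θ ^ n) := mul_le_mul_of_nonneg_left (hs n) (abs_nonneg _)

omit [BorelSpace M] [CompactSpace M] [RiemannianBundle (fun x : M => TangentSpace (𝓡 2) x)]
  [IsContinuousRiemannianBundle E2 (fun x : M => TangentSpace (𝓡 2) x)] in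
theorem chart_change (hA : Compat A) {i : Fin A.N} {z : M} (hz : z ∈ (A.e i).source) :
    ∃ T : V →L[ℝ] E2, Function.Injective T ∧
      HasFDerivAt (extChartAt (𝓡 2) z ∘ (A.e i).symm) T (A.e i z) := by
  have hzt : A.e i z ∈ (A.e i).target := (A.e i).map_source hz
  have hs : ContMDiffAt 𝓘(ℝ, V) (𝓡 2) (⊤ : ℕ∞) (A.e i).symm (A.e i z) :=
    (hA i).2.contMDiffAt ((A.e i).open_target.mem_nhds hzt)
  have he : ContMDiffAt (𝓡 2) 𝓘(ℝ, V) (⊤ : ℕ∞) (A.e i) z :=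
    (hA i).1.contMDiffAt ((A.e i).open_source.mem_nhds hz)
  have hzz : (A.e i).symm (A.e i z) = z := (A.e i).left_inv hz
  have hc : ContMDiffAt (𝓡 2) 𝓘(ℝ, E2) (⊤ : ℕ∞) (extChartAt (𝓡 2) z) z := contMDiffAt_extChartAt
  have hφ : ContMDiffAt 𝓘(ℝ, V) 𝓘(ℝ, E2) (⊤ : ℕ∞) (extChartAt (𝓡 2) z ∘ (A.e i).symm)
      (A.e i z) := ContMDiffAt.comp_of_eq hc hs hzz
  have hφd : DifferentiableAt ℝ (extChartAt (𝓡 2) z ∘ (A.e i).symm) (A.e i z) :=
    (contMDiffAt_iff_contDiffAt.1 hφ).differentiableAt (by simp)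
  have hcs : ContMDiffAt 𝓘(ℝ, E2) (𝓡 2) (⊤ : ℕ∞) (extChartAt (𝓡 2) z).symm
      (extChartAt (𝓡 2) z z) := by
    refine (contMDiffOn_extChartAt_symm z).contMDiffAt ?_
    exact extChartAt_target_mem_nhds z
  have hψ : ContMDiffAt 𝓘(ℝ, E2) 𝓘(ℝ, V) (⊤ : ℕ∞) (A.e i ∘ (extChartAt (𝓡 2) z).symm)
      (extChartAt (𝓡 2) z z) := ContMDiffAt.comp_of_eq he hcs (extChartAt_to_inv z)
  have hψd : DifferentiableAt ℝ (A.e i ∘ (extChartAt (𝓡 2) z).symm) (extChartAt (𝓡 2) z z) :=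
    (contMDiffAt_iff_contDiffAt.1 hψ).differentiableAt (by simp)
  refine ⟨fderiv ℝ (extChartAt (𝓡 2) z ∘ (A.e i).symm) (A.e i z), ?_, hφd.hasFDerivAt⟩
  have hpt : (extChartAt (𝓡 2) z ∘ (A.e i).symm) (A.e i z) = extChartAt (𝓡 2) z z := by
    simp only [Function.comp_apply, hzz]
  have hcomp : HasFDerivAt ((A.e i ∘ (extChartAt (𝓡 2) z).symm) ∘
      (extChartAt (𝓡 2) z ∘ (A.e i).symm))
      ((fderiv ℝ (A.e i ∘ (extChartAt (𝓡 2) z).symm) (extChartAt (𝓡 2) z z)).comp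
        (fderiv ℝ (extChartAt (𝓡 2) z ∘ (A.e i).symm) (A.e i z))) (A.e i z) := by
    refine HasFDerivAt.comp _ ?_ hφd.hasFDerivAt
    rw [hpt]
    exact hψd.hasFDerivAt
  have hid : ((A.e i ∘ (extChartAt (𝓡 2) z).symm) ∘ (extChartAt (𝓡 2) z ∘ (A.e i).symm))
      =ᶠ[𝓝 (A.e i z)] id := by
    have h1 : ∀ᶠ w in 𝓝 (A.e i z), w ∈ (A.e i).target := (A.e i).open_target.mem_nhds hzt
    have h2 : ∀ᶠ w in 𝓝 (A.e i z), (A.e i).symm w ∈ (extChartAt (𝓡 2) z).source := by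
      refine hs.continuousAt.preimage_mem_nhds ?_
      rw [hzz]
      exact extChartAt_source_mem_nhds z
    filter_upwards [h1, h2] with w hw1 hw2
    simp only [Function.comp_apply, id]
    rw [(extChartAt (𝓡 2) z).left_inv hw2, (A.e i).right_inv hw1]
  have huniq := (hcomp.congr_of_eventuallyEq hid.symm).unique (hasFDerivAt_id _)
  intro v w hvw
  have hv := congrArg (fun S : V →L[ℝ] V => S v) huniq
  have hw := congrArg (fun S : V →L[ℝ] V => S w) huniq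
  simp only [ContinuousLinearMap.comp_apply, ContinuousLinearMap.id_apply] at hv hw
  rw [← hv, ← hw, hvw]

omit [BorelSpace M] [CompactSpace M] [RiemannianBundle (fun x : M => TangentSpace (𝓡 2) x)]
  [IsContinuousRiemannianBundle E2 (fun x : M => TangentSpace (𝓡 2) x)]
  [IsManifold (𝓡 2) (⊤ : ℕ∞) M] in
theorem vel_change {i : Fin A.N} {z : M} {T : V →L[ℝ] E2}
    (hT : HasFDerivAt (extChartAt (𝓡 2) z ∘ (A.e i).symm) T (A.e i z)) {a : ℝ → M} {va : V}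
    (ha : A.VelAt i a va) (haz : a 0 = z) :
    HasDerivAt (extChartAt (𝓡 2) z ∘ a) (T va) 0 := by
  obtain ⟨hg, hc, hd⟩ := ha
  have h1 : HasDerivAt ((extChartAt (𝓡 2) z ∘ (A.e i).symm) ∘ (A.e i ∘ a)) (T va) 0 := by
    refine HasFDerivAt.comp_hasDerivAt _ ?_ hd
    simpa only [Function.comp_apply, haz] using hT
  refine h1.congr_of_eventuallyEq ?_
  have h2 : ∀ᶠ s in 𝓝 (0 : ℝ), a s ∈ (A.e i).source :=
    hc.preimage_mem_nhds ((A.e i).open_source.mem_nhds hg.1)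
  filter_upwards [h2] with s hs
  simp only [Function.comp_apply]
  rw [(A.e i).left_inv hs]

end ATransAux

omit [BorelSpace M] in
theorem Compat.hypErg (hA : Compat A) {f : Diffeomorph (𝓡 2) (𝓡 2) M M 1} {μ : Measure M}
    (h : A.Hyp f.toHomeomorph μ) : HypErg f μ := by
  obtain ⟨L, hL, τ, hτ, hsurj, hD⟩ := hA.norm_cmp
  obtain ⟨hp, he, lp, lm, hlp, hlm, hae⟩ := h
  have key : ∀ (x : M) (u : V) (l : ℝ), A.Rate f.toHomeomorph x u l →
      ∃ v : TangentSpace (𝓡 2) x, Tendsto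
        (fun n : ℕ => Real.log ‖mfderiv (𝓡 2) (𝓡 2) f^[n] x v‖ / n) atTop (𝓝 l) := by
    intro x u l hr
    obtain ⟨v, rfl⟩ := hsurj x u
    refine ⟨v, tendsto_of_close (K := Real.log L) hr.1 fun n => ?_⟩
    rw [Diffeomorph.coe_toHomeomorph, hD _ (mdiff_iter f n)]
    exact abs_log_sub_le (norm_nonneg _) (norm_nonneg _) hL (hτ _ _).2 (hτ _ _).1
  refine ⟨hp, he, lp, lm, hlp, hlm, ?_⟩
  filter_upwards [hae] with x hx
  obtain ⟨⟨u, hu⟩, s, hs⟩ := hx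
  exact ⟨key x u lp hu, key x s lm hs⟩

omit [BorelSpace M] in
theorem Compat.growth (hA : Compat A) {P : Par} {f : Diffeomorph (𝓡 2) (𝓡 2) M M 1}
    (hf : A.Good P f.toHomeomorph) {lam : ℝ} (h : lamPlus f < lam) :
    ∀ᶠ p : ℕ in atTop, ∀ x, ‖A.D f^[p] x‖ ≤ Real.exp (lam * p) := by
  obtain ⟨L, hL, τ, hτ, hsurj, hD⟩ := hA.norm_cmp
  have hL0 : 0 < L := by linarith
  have hB : 1 ≤ P.B := P.one_le_B
  have hup : ∀ (n : ℕ) (x : M), ‖mfderiv (𝓡 2) (𝓡 2) f^[n] x‖ ≤ L ^ 2 * P.B ^ n := by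
    intro n x
    refine ContinuousLinearMap.opNorm_le_bound _ (by positivity) fun v => ?_
    have h1 := (hτ _ (mfderiv (𝓡 2) (𝓡 2) f^[n] x v)).2
    rw [← hD _ (mdiff_iter f n)] at h1
    have h2 : ‖A.D f^[n] x‖ ≤ P.B ^ n := (hf.norm_D_iter n x).1
    have h3 : ‖A.D f^[n] x (τ x v)‖ ≤ P.B ^ n * (L * ‖v‖) :=
      (ContinuousLinearMap.le_opNorm _ _).trans
        (mul_le_mul h2 (hτ x v).1 (norm_nonneg _) (by positivity))
    calc _ ≤ L * ‖A.D f^[n] x (τ x v)‖ := h1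
      _ ≤ L * (P.B ^ n * (L * ‖v‖)) := mul_le_mul_of_nonneg_left h3 hL0.le
      _ = L ^ 2 * P.B ^ n * ‖v‖ := by ring
  have hdown : ∀ (n : ℕ) (x : M), ‖A.D f^[n] x‖ ≤ L ^ 2 * ‖mfderiv (𝓡 2) (𝓡 2) f^[n] x‖ := by
    intro n x
    refine ContinuousLinearMap.opNorm_le_bound _ (by positivity) fun u => ?_
    obtain ⟨v, rfl⟩ := hsurj x u
    rw [hD _ (mdiff_iter f n)]
    have h1 := (hτ _ (mfderiv (𝓡 2) (𝓡 2) f^[n] x v)).1
    have h3 : ‖mfderiv (𝓡 2) (𝓡 2) f^[n] x v‖ ≤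
        ‖mfderiv (𝓡 2) (𝓡 2) f^[n] x‖ * (L * ‖τ x v‖) :=
      (ContinuousLinearMap.le_opNorm _ _).trans
        (mul_le_mul_of_nonneg_left (hτ x v).2 (norm_nonneg _))
    calc _ ≤ L * ‖mfderiv (𝓡 2) (𝓡 2) f^[n] x v‖ := h1
      _ ≤ L * (‖mfderiv (𝓡 2) (𝓡 2) f^[n] x‖ * (L * ‖τ x v‖)) :=
        mul_le_mul_of_nonneg_left h3 hL0.le
      _ = L ^ 2 * ‖mfderiv (𝓡 2) (𝓡 2) f^[n] x‖ * ‖τ x v‖ := by ring
  have hLl : 0 ≤ Real.log L := Real.log_nonneg hL
  have hBl : 0 ≤ Real.log P.B := Real.log_nonneg hB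
  have hbdd : IsBoundedUnder (· ≤ ·) atTop
      (fun n : ℕ => Real.log (⨆ x : M, ‖mfderiv (𝓡 2) (𝓡 2) f^[n] x‖) / n) := by
    refine ⟨2 * Real.log L + Real.log P.B, ?_⟩
    rw [eventually_map]
    filter_upwards [eventually_ge_atTop 1] with n hn
    have hn' : (1 : ℝ) ≤ n := by exact_mod_cast hn
    have hs : (⨆ x : M, ‖mfderiv (𝓡 2) (𝓡 2) f^[n] x‖) ≤ L ^ 2 * P.B ^ n :=
      Real.iSup_le (hup n) (by positivity)
    have hs0 : 0 ≤ ⨆ x : M, ‖mfderiv (𝓡 2) (𝓡 2) f^[n] x‖ :=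
      Real.iSup_nonneg fun x => ContinuousLinearMap.opNorm_nonneg _
    have hlog : Real.log (⨆ x : M, ‖mfderiv (𝓡 2) (𝓡 2) f^[n] x‖) ≤
        2 * Real.log L + n * Real.log P.B := by
      rcases hs0.eq_or_lt with h0 | h0
      · rw [← h0, Real.log_zero]; positivity
      · have := Real.log_le_log h0 hs
        rw [Real.log_mul (by positivity) (by positivity), Real.log_pow, Real.log_pow] at this
        exact_mod_cast this
    rw [div_le_iff₀ (by linarith)]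
    nlinarith
  obtain ⟨lam', h1, h2⟩ := exists_between h
  have hev := eventually_lt_of_limsup_lt h1 hbdd
  have hev2 : ∀ᶠ n : ℕ in atTop, 2 * Real.log L ≤ (lam - lam') * n := by
    have : Tendsto (fun n : ℕ => (lam - lam') * (n : ℝ)) atTop atTop :=
      tendsto_natCast_atTop_atTop.const_mul_atTop (by linarith)
    exact this.eventually_ge_atTop _
  filter_upwards [hev, hev2, eventually_ge_atTop 1] with n hn hn2 hn1 x
  have hn' : (0 : ℝ) < n := by exact_mod_cast hn1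
  rw [div_lt_iff₀ hn'] at hn
  have hle : ‖mfderiv (𝓡 2) (𝓡 2) f^[n] x‖ ≤ ⨆ x : M, ‖mfderiv (𝓡 2) (𝓡 2) f^[n] x‖ :=
    le_ciSup (f := fun x : M => ‖mfderiv (𝓡 2) (𝓡 2) f^[n] x‖)
      ⟨L ^ 2 * P.B ^ n, by rintro _ ⟨y, rfl⟩; exact hup n y⟩ x
  have hexp : (⨆ x : M, ‖mfderiv (𝓡 2) (𝓡 2) f^[n] x‖) ≤ Real.exp (lam' * n) :=
    (Real.le_exp_log _).trans (Real.exp_le_exp.2 hn.le)
  have hL2 : L ^ 2 = Real.exp (2 * Real.log L) := by
    rw [show (2 : ℝ) * Real.log L = Real.log L + Real.log L by ring, Real.exp_add,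
      Real.exp_log hL0]
    ring
  calc ‖A.D f^[n] x‖ ≤ L ^ 2 * ‖mfderiv (𝓡 2) (𝓡 2) f^[n] x‖ := hdown n x
    _ ≤ L ^ 2 * Real.exp (lam' * n) := mul_le_mul_of_nonneg_left (hle.trans hexp) (by positivity)
    _ = Real.exp (2 * Real.log L + lam' * n) := by rw [hL2, Real.exp_add]
    _ ≤ Real.exp (lam * n) := Real.exp_le_exp.2 (by linarith)

omit [BorelSpace M] in
theorem Compat.transv (hA : Compat A) {f : Diffeomorph (𝓡 2) (𝓡 2) M M 1} {x y : M}
    (h : A.Tr f.toHomeomorph x y) : Transv f x y := by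
  obtain ⟨i, a, b, va, vb, hab, ha, hb, hdet, hua, hub⟩ := h
  obtain ⟨T, hT, hTd⟩ := chart_change hA ha.1.1
  exact ⟨a 0, a, b, T va, T vb, rfl, hab.symm, ha.2.1, hb.2.1, vel_change hTd ha rfl,
    vel_change hTd hb hab.symm, linIndep_of_det hT hdet, expConv_of hA hua, expConv_of hA hub⟩

theorem Compat.hrel (hA : Compat A) {f : Diffeomorph (𝓡 2) (𝓡 2) M M 1} {μ ν : Measure M}
    (h : A.Rel f.toHomeomorph μ ν) : HRel f μ ν := by
  obtain ⟨hμ, hν, ⟨S, T, hS, hT, hS0, hT0, hST⟩, S', T', hS', hT', hS0', hT0', hST'⟩ := h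
  have := hμ.1
  have := hν.1
  refine ⟨hA.hypErg hμ, hA.hypErg hν, {x | ∃ i : ℕ, f^[i] x ∈ S} ∩ {x | ∃ i : ℕ, f^[i] x ∈ T'},
    {x | ∃ i : ℕ, f^[i] x ∈ T} ∩ {x | ∃ i : ℕ, f^[i] x ∈ S'}, ?_, ?_, ?_⟩
  · rw [compl_inter]
    exact measure_union_null (full_of_pos hμ.2.1 hS hS0) (full_of_pos hμ.2.1 hT' hT0')
  · rw [compl_inter]
    exact measure_union_null (full_of_pos hν.2.1 hT hT0) (full_of_pos hν.2.1 hS' hS0')
  · rintro x ⟨⟨i, hi⟩, i', hi'⟩ y ⟨⟨j, hj⟩, j', hj'⟩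
    exact ⟨⟨i, j, hA.transv (hST _ hi _ hj)⟩, i', j', hA.transv (hST' _ hj' _ hi')⟩

end Pool.Agent.Lib.MP_901be3_an.Hd
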