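import Pool.Agent.Lib.MP_901be3_an.Hd.Defs

namespace Pool.Agent.Lib.MP_901be3_an.Hd

open MeasureTheory Filter Topology Metric Set
open scoped ENNReal

namespace Lin2Aux

lemma map_eq (T : V →L[ℝ] V) (v : V) : T v = v.1 • T (1, 0) + v.2 • T (0, 1) := by
  rw [← map_smul, ← map_smul, ← map_add]
  congr 1
  ext <;> simp

lemma det_neg (u s : V) : det s u = -det u s := by
  unfold det
  ring

lemma norm_swap (v : V) : ‖v.swap‖ = ‖v‖ := by
  rw [Prod.norm_def, Prod.norm_def, max_comm]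
  rfl

lemma Ci_apply (u s v : V) : Ci u s v =
    ((det u s)⁻¹ * (v.1 * s.2 - v.2 * s.1), (det u s)⁻¹ * (v.2 * u.1 - v.1 * u.2)) := by
  refine Prod.ext ?_ ?_ <;> simp [Ci, Cm] <;> ring_nf

lemma norm_adj_le (u s : V) : ‖Cm (s.2, -u.2) (-s.1, u.1)‖ ≤ 2 * max ‖u‖ ‖s‖ := by
  refine ContinuousLinearMap.opNorm_le_bound _ (by positivity) fun v => ?_
  have e : Cm (s.2, -u.2) (-s.1, u.1) v = (v.1 * s.2 - v.2 * s.1, v.2 * u.1 - v.1 * u.2) := by
    refine Prod.ext ?_ ?_ <;> simp [Cm] <;> ring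
  have key : ∀ a b c d : ℝ, ‖a‖ ≤ ‖v‖ → ‖b‖ ≤ max ‖u‖ ‖s‖ → ‖c‖ ≤ ‖v‖ → ‖d‖ ≤ max ‖u‖ ‖s‖ →
      ‖a * b - c * d‖ ≤ 2 * max ‖u‖ ‖s‖ * ‖v‖ := fun a b c d ha hb hc hd => by
    refine (norm_sub_le _ _).trans ?_
    rw [norm_mul, norm_mul]
    linarith [mul_le_mul ha hb (norm_nonneg _) (norm_nonneg _),
      mul_le_mul hc hd (norm_nonneg _) (norm_nonneg _)]
  rw [e, Prod.norm_def]
  exact max_le (key _ _ _ _ (norm_fst_le v) ((norm_snd_le s).trans (le_max_right _ _))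
      (norm_snd_le v) ((norm_fst_le s).trans (le_max_right _ _)))
    (key _ _ _ _ (norm_snd_le v) ((norm_fst_le u).trans (le_max_left _ _))
      (norm_fst_le v) ((norm_snd_le u).trans (le_max_left _ _)))

lemma norm_e1 (T : V →L[ℝ] V) : ‖T (1, 0)‖ ≤ ‖T‖ := by
  simpa using T.le_opNorm (1, 0)

lemma norm_e2 (T : V →L[ℝ] V) : ‖T (0, 1)‖ ≤ ‖T‖ := by
  simpa using T.le_opNorm (0, 1)

lemma pow_eigen {T : V →L[ℝ] V} {v : V} {μ : ℝ} (h : T v = μ • v) (k : ℕ) :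
    (T ^ k) v = μ ^ k • v := by
  induction k with
  | zero => simp
  | succ k ih => rw [pow_succ, mul_apply_eq_comp, h, map_smul, ih, smul_smul, pow_succ']

end Lin2Aux

theorem Cm_apply (u s v : V) : Cm u s v = v.1 • u + v.2 • s := by
  simp [Cm]

theorem diag_apply (a b : ℝ) (v : V) : diag a b v = (a * v.1, b * v.2) := by
  simp [diag]

theorem Ci_Cm {u s : V} (h : det u s ≠ 0) (v : V) : Ci u s (Cm u s v) = v := by
  rw [Lin2Aux.Ci_apply, Cm_apply]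
  unfold det at h ⊢
  refine Prod.ext ?_ ?_ <;>
    simp only [Prod.fst_add, Prod.snd_add, Prod.smul_fst, Prod.smul_snd, smul_eq_mul] <;>
    field_simp <;> ring

theorem Cm_Ci {u s : V} (h : det u s ≠ 0) (v : V) : Cm u s (Ci u s v) = v := by
  rw [Lin2Aux.Ci_apply, Cm_apply]
  unfold det at h ⊢
  refine Prod.ext ?_ ?_ <;>
    simp only [Prod.fst_add, Prod.snd_add, Prod.smul_fst, Prod.smul_snd, smul_eq_mul] <;>
    field_simp <;> ring

theorem Cm_swap (u s v : V) : Cm s u v.swap = Cm u s v := by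
  rw [Cm_apply, Cm_apply, add_comm]
  rfl

theorem Ci_swap (u s v : V) : Ci s u v = (Ci u s v).swap := by
  rw [Lin2Aux.Ci_apply, Lin2Aux.Ci_apply, Lin2Aux.det_neg u s, inv_neg]
  refine Prod.ext ?_ ?_ <;> simp only [Prod.fst_swap, Prod.snd_swap] <;> ring

theorem norm_Cm_swap (u s : V) : ‖Cm s u‖ = ‖Cm u s‖ := by
  have key : ∀ u s : V, ‖Cm s u‖ ≤ ‖Cm u s‖ := fun u s =>
    ContinuousLinearMap.opNorm_le_bound _ (norm_nonneg _) fun v => by
      rw [← Cm_swap, ← Lin2Aux.norm_swap v]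
      exact (Cm u s).le_opNorm _
  exact le_antisymm (key u s) (key s u)

theorem norm_Ci_swap (u s : V) : ‖Ci s u‖ = ‖Ci u s‖ := by
  have key : ∀ u s : V, ‖Ci s u‖ ≤ ‖Ci u s‖ := fun u s =>
    ContinuousLinearMap.opNorm_le_bound _ (norm_nonneg _) fun v => by
      rw [Ci_swap, Lin2Aux.norm_swap]
      exact (Ci u s).le_opNorm _
  exact le_antisymm (key u s) (key s u)

theorem det_swap (u s : V) : det s u = -det u s := Lin2Aux.det_neg u s

theorem norm_Cm_le (u s : V) : ‖Cm u s‖ ≤ ‖u‖ + ‖s‖ := by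
  refine ContinuousLinearMap.opNorm_le_bound _ (by positivity) fun v => ?_
  rw [Cm_apply]
  refine (norm_add_le _ _).trans ?_
  rw [norm_smul, norm_smul]
  nlinarith [mul_le_mul_of_nonneg_right (norm_fst_le v) (norm_nonneg u),
    mul_le_mul_of_nonneg_right (norm_snd_le v) (norm_nonneg s)]

theorem norm_Ci_le_max (u s : V) : ‖Ci u s‖ ≤ 2 * max ‖u‖ ‖s‖ / |det u s| := by
  rw [Ci, norm_smul, norm_inv, Real.norm_eq_abs, div_eq_inv_mul]
  exact mul_le_mul_of_nonneg_left (Lin2Aux.norm_adj_le u s) (by positivity)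

theorem norm_Ci_le (u s : V) : ‖Ci u s‖ ≤ 2 * (‖u‖ + ‖s‖) / |det u s| := by
  refine (norm_Ci_le_max u s).trans (div_le_div_of_nonneg_right ?_ (abs_nonneg _))
  linarith [max_le (le_add_of_nonneg_right (norm_nonneg s) : ‖u‖ ≤ ‖u‖ + ‖s‖)
    (le_add_of_nonneg_left (norm_nonneg u) : ‖s‖ ≤ ‖u‖ + ‖s‖)]

theorem continuous_Cm : Continuous fun p : V × V => Cm p.1 p.2 := by
  unfold Cm
  exact ((ContinuousLinearMap.smulRightL ℝ V V (ContinuousLinearMap.fst ℝ ℝ ℝ)).continuous.comp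
    continuous_fst).add ((ContinuousLinearMap.smulRightL ℝ V V
      (ContinuousLinearMap.snd ℝ ℝ ℝ)).continuous.comp continuous_snd)

theorem continuousAt_Ci {u s : V} (h : det u s ≠ 0) :
    ContinuousAt (fun p : V × V => Ci p.1 p.2) (u, s) := by
  have h1 : Continuous fun p : V × V => det p.1 p.2 := by unfold det; fun_prop
  have h2 : Continuous fun p : V × V => (((p.2.2, -p.1.2), (-p.2.1, p.1.1)) : V × V) := by
    fun_prop
  exact (h1.continuousAt.inv₀ h).smul (continuous_Cm.comp h2).continuousAt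

theorem continuous_det : Continuous fun p : V × V => det p.1 p.2 := by
  unfold det
  fun_prop

theorem continuous_detL : Continuous detL := by
  unfold detL det
  fun_prop

theorem abs_det_le (v w : V) : |det v w| ≤ 2 * ‖v‖ * ‖w‖ := by
  refine (abs_sub _ _).trans ?_
  rw [abs_mul, abs_mul]
  have h1 := mul_le_mul (norm_fst_le v) (norm_snd_le w) (norm_nonneg _) (norm_nonneg _)
  have h2 := mul_le_mul (norm_snd_le v) (norm_fst_le w) (norm_nonneg _) (norm_nonneg _)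
  simp only [Real.norm_eq_abs] at h1 h2
  linarith

theorem det_map (T : V →L[ℝ] V) (v w : V) : det (T v) (T w) = detL T * det v w := by
  rw [Lin2Aux.map_eq T v, Lin2Aux.map_eq T w]
  simp only [detL, det, Prod.fst_add, Prod.snd_add, Prod.smul_fst, Prod.smul_snd, smul_eq_mul]
  ring

theorem detL_comp (S T : V →L[ℝ] V) : detL (S.comp T) = detL S * detL T :=
  det_map S _ _

theorem detL_id : detL (ContinuousLinearMap.id ℝ V) = 1 := by
  simp [detL, det]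

theorem detL_Cm (u s : V) : detL (Cm u s) = det u s := by
  simp [detL, Cm_apply]

theorem detL_ne_zero {T : V →L[ℝ] V} (h : ∀ v, T v = 0 → v = 0) : detL T ≠ 0 := by
  intro h0
  have e : ∀ v : V, (T v).1 = v.1 * (T (1, 0)).1 + v.2 * (T (0, 1)).1 ∧
      (T v).2 = v.1 * (T (1, 0)).2 + v.2 * (T (0, 1)).2 := fun v => by
    rw [Lin2Aux.map_eq T v]
    exact ⟨rfl, rfl⟩
  unfold detL det at h0
  have h1 := h ((T (0, 1)).2, -(T (1, 0)).2) (Prod.ext (by rw [(e _).1]; simp only [Prod.fst_zero]; linarith)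
    (by rw [(e _).2]; simp only [Prod.snd_zero]; ring))
  have h2 := h ((T (0, 1)).1, -(T (1, 0)).1) (Prod.ext (by rw [(e _).1]; simp only [Prod.fst_zero]; ring)
    (by rw [(e _).2]; simp only [Prod.snd_zero]; linarith))
  have h3 : T (0, 1) = 0 := Prod.ext (Prod.ext_iff.1 h2).1 (Prod.ext_iff.1 h1).1
  have h4 := h _ h3
  simp at h4

theorem abs_detL_le (T : V →L[ℝ] V) : |detL T| ≤ 2 * ‖T‖ ^ 2 := by
  refine (abs_det_le _ _).trans ?_
  have h1 := Lin2Aux.norm_e1 T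
  have h2 := Lin2Aux.norm_e2 T
  nlinarith [mul_le_mul h1 h2 (norm_nonneg _) (norm_nonneg _)]

theorem exists_smul_of_det {v w : V} (hv : v ≠ 0) (h : det v w = 0) : ∃ t : ℝ, w = t • v := by
  unfold det at h
  by_cases h1 : v.1 = 0
  · have h2 : v.2 ≠ 0 := fun h2 => hv (Prod.ext h1 h2)
    refine ⟨w.2 / v.2, Prod.ext ?_ ?_⟩
    · simp only [Prod.smul_fst, smul_eq_mul]
      field_simp
      linarith
    · simp only [Prod.smul_snd, smul_eq_mul]
      field_simp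
  · refine ⟨w.1 / v.1, Prod.ext ?_ ?_⟩
    · simp only [Prod.smul_fst, smul_eq_mul]
      field_simp
    · simp only [Prod.smul_snd, smul_eq_mul]
      field_simp
      linarith

/-- a one-sided inverse is two-sided -/
theorem comp_eq_id_symm {S T : V →L[ℝ] V} (h : S.comp T = ContinuousLinearMap.id ℝ V) :
    T.comp S = ContinuousLinearMap.id ℝ V := by
  have h1 : detL S * detL T = 1 := by rw [← detL_comp, h, detL_id]
  have h2 : det (T (1, 0)) (T (0, 1)) ≠ 0 := right_ne_zero_of_mul_eq_one h1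
  refine ContinuousLinearMap.ext fun v => ?_
  have h3 : v = T (Ci (T (1, 0)) (T (0, 1)) v) := by
    rw [Lin2Aux.map_eq T, ← Cm_apply, Cm_Ci h2]
  have h4 := DFunLike.congr_fun h (Ci (T (1, 0)) (T (0, 1)) v)
  rw [ContinuousLinearMap.comp_apply, ← h3, ContinuousLinearMap.id_apply] at h4
  rw [ContinuousLinearMap.comp_apply, h4, ← h3, ContinuousLinearMap.id_apply]

theorem norm_inv_le {S T : V →L[ℝ] V} (h : S.comp T = ContinuousLinearMap.id ℝ V) :
    ‖S‖ * |detL T| ≤ 2 * ‖T‖ ∧ ‖T‖ ≤ 2 * (‖S‖ * |detL T|) := by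
  have key : ∀ {S T : V →L[ℝ] V}, S.comp T = ContinuousLinearMap.id ℝ V →
      ‖S‖ * |detL T| ≤ 2 * ‖T‖ := fun {S T} h => by
    have h1 : detL S * detL T = 1 := by rw [← detL_comp, h, detL_id]
    have h2 : det (T (1, 0)) (T (0, 1)) ≠ 0 := right_ne_zero_of_mul_eq_one h1
    have h3 : S = Ci (T (1, 0)) (T (0, 1)) := ContinuousLinearMap.ext fun v => by
      have h4 := DFunLike.congr_fun h (Ci (T (1, 0)) (T (0, 1)) v)
      rwa [ContinuousLinearMap.comp_apply, Lin2Aux.map_eq T, ← Cm_apply, Cm_Ci h2,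
        ContinuousLinearMap.id_apply] at h4
    have h5 := norm_Ci_le_max (T (1, 0)) (T (0, 1))
    rw [← h3, le_div_iff₀ (abs_pos.2 h2)] at h5
    have h6 := max_le (Lin2Aux.norm_e1 T) (Lin2Aux.norm_e2 T)
    unfold detL
    linarith
  refine ⟨key h, ?_⟩
  have h1 : |detL S| * |detL T| = 1 := by rw [← abs_mul, ← detL_comp, h, detL_id, abs_one]
  have h2 := mul_le_mul_of_nonneg_right (key (comp_eq_id_symm h)) (abs_nonneg (detL T))
  rw [mul_assoc, h1, mul_one, mul_assoc] at h2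
  exact h2

namespace Lin2Aux

lemma norm_map_le (M : V →L[ℝ] V) {w w' : V} (hd : det w w' ≠ 0) (v : V) :
    ‖M v‖ ≤ (‖M w‖ + ‖M w'‖) * (‖Ci w w'‖ * ‖v‖) := by
  have h1 := (Ci w w').le_opNorm v
  conv_lhs => rw [← Cm_Ci hd v, Cm_apply, map_add, map_smul, map_smul]
  refine (norm_add_le _ _).trans ?_
  rw [norm_smul, norm_smul]
  nlinarith [mul_le_mul_of_nonneg_right ((norm_fst_le _).trans h1) (norm_nonneg (M w)),
    mul_le_mul_of_nonneg_right ((norm_snd_le _).trans h1) (norm_nonneg (M w'))]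

lemma pow_inv {S T : V →L[ℝ] V} (h : T.comp S = ContinuousLinearMap.id ℝ V) (n : ℕ) (v : V) :
    (T ^ n) ((S ^ n) v) = v := by
  induction n with
  | zero => simp
  | succ n ih =>
    rw [pow_succ, pow_succ', mul_apply_eq_comp, mul_apply_eq_comp,
      ← ContinuousLinearMap.comp_apply T S, h, ContinuousLinearMap.id_apply, ih]

lemma le_zero_of_geom {a K θ : ℝ} (hθ0 : 0 < θ) (hθ : θ < 1) (h : ∀ n : ℕ, a ≤ K * θ ^ n) :
    a ≤ 0 := by
  have := (tendsto_pow_atTop_nhds_zero_of_lt_one hθ0.le hθ).const_mul K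
  rw [mul_zero] at this
  exact ge_of_tendsto' this h

lemma eigen {S T : V →L[ℝ] V} (h : S.comp T = ContinuousLinearMap.id ℝ V)
    {w w' : V} (hw : w ≠ 0) (hw' : w' ≠ 0) {C θ : ℝ} (hθ0 : 0 < θ) (hθ : θ < 1)
    (h1 : ∀ n : ℕ, ‖(T ^ n) w‖ ≤ C * θ ^ n) (h2 : ∀ n : ℕ, ‖(S ^ n) w'‖ ≤ C * θ ^ n) :
    ∃ μ : ℝ, |μ| < 1 ∧ T w = μ • w := by
  have hC : 0 ≤ C := by simpa using (norm_nonneg _).trans (h1 0)
  have hd : det w (T w) = 0 := by
    by_contra hd
    refine hw' (norm_le_zero_iff.1 (le_zero_of_geom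
      (K := 2 * C * (‖Ci w (T w)‖ * C)) hθ0 hθ fun n => ?_))
    have h3 := norm_map_le (T ^ n) hd ((S ^ n) w')
    rw [pow_inv (comp_eq_id_symm h)] at h3
    have h4 := h1 (n + 1)
    rw [pow_succ, mul_apply_eq_comp] at h4
    have h5 : C * θ ^ (n + 1) ≤ C * θ ^ n :=
      mul_le_mul_of_nonneg_left (pow_le_pow_of_le_one hθ0.le hθ.le n.le_succ) hC
    have h6 : ‖(S ^ n) w'‖ ≤ C :=
      (h2 n).trans (mul_le_of_le_one_right hC (pow_le_one₀ hθ0.le hθ.le))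
    calc _ ≤ _ := h3
      _ ≤ (C * θ ^ n + C * θ ^ n) * (‖Ci w (T w)‖ * C) := by
        gcongr
        exacts [h1 n, h4.trans h5]
      _ = _ := by ring
  obtain ⟨μ, hμ⟩ := exists_smul_of_det hw hd
  refine ⟨μ, lt_of_not_ge fun hge => hw (norm_le_zero_iff.1 (le_zero_of_geom hθ0 hθ
    fun n => (le_trans ?_ (h1 n)))), hμ⟩
  rw [pow_eigen hμ, norm_smul, norm_pow, Real.norm_eq_abs]
  exact le_mul_of_one_le_left (norm_nonneg _) (one_le_pow₀ hge)

end Lin2Aux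

/-- a forward contracted vector and a backward contracted vector are eigenvectors -/
theorem eigen_of_contr {S T : V →L[ℝ] V} (h : S.comp T = ContinuousLinearMap.id ℝ V)
    {w w' : V} (hw : w ≠ 0) (hw' : w' ≠ 0) {C θ : ℝ} (hθ0 : 0 < θ) (hθ : θ < 1)
    (h1 : ∀ n : ℕ, ‖(T ^ n) w‖ ≤ C * θ ^ n) (h2 : ∀ n : ℕ, ‖(S ^ n) w'‖ ≤ C * θ ^ n) :
    ∃ μ Λ K : ℝ, |μ| < 1 ∧ 1 < |Λ| ∧ T w = μ • w ∧ T w' = Λ • w' ∧
      ∀ n : ℕ, ‖T ^ n‖ ≤ K * |Λ| ^ n := by
  have h' := comp_eq_id_symm h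
  obtain ⟨μ, a1, a2⟩ := Lin2Aux.eigen h hw hw' hθ0 hθ h1 h2
  obtain ⟨ν, b1, b2⟩ := Lin2Aux.eigen h' hw' hw hθ0 hθ h2 h1
  have e := DFunLike.congr_fun h' w'
  rw [ContinuousLinearMap.comp_apply, b2, map_smul, ContinuousLinearMap.id_apply] at e
  have hν : ν ≠ 0 := fun h0 => hw' (by rw [← e, h0, zero_smul])
  have b3 : T w' = ν⁻¹ • w' := by
    conv_rhs => rw [← e]
    rw [smul_smul, inv_mul_cancel₀ hν, one_smul]
  have b4 : 1 < |ν⁻¹| := by
    rw [abs_inv]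
    exact (one_lt_inv₀ (abs_pos.2 hν)).2 b1
  have hd : det w w' ≠ 0 := fun h0 => by
    obtain ⟨t, rfl⟩ := exists_smul_of_det hw h0
    rw [map_smul, a2, smul_comm] at b3
    have := smul_left_injective ℝ hw' b3
    rw [← this] at b4
    linarith
  refine ⟨μ, ν⁻¹, (‖w‖ + ‖w'‖) * ‖Ci w w'‖, a1, b4, a2, b3, fun n => ?_⟩
  refine ContinuousLinearMap.opNorm_le_bound _ (by positivity) fun v => ?_
  refine (Lin2Aux.norm_map_le _ hd v).trans ?_
  rw [Lin2Aux.pow_eigen a2, Lin2Aux.pow_eigen b3, norm_smul, norm_smul, norm_pow, norm_pow,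
    Real.norm_eq_abs, Real.norm_eq_abs]
  have h3 : |μ| ^ n ≤ |ν⁻¹| ^ n := pow_le_pow_left₀ (abs_nonneg _) (by linarith) n
  calc _ ≤ (|ν⁻¹| ^ n * ‖w‖ + |ν⁻¹| ^ n * ‖w'‖) * (‖Ci w w'‖ * ‖v‖) := by gcongr
    _ = _ := by ring

end Pool.Agent.Lib.MP_901be3_an.Hd
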