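import Pool.Agent.Lib.MP_901be3_an.Hd.CrBasic
import Pool.Agent.Lib.MP_901be3_an.Hd.Lin2

namespace Pool.Agent.Lib.MP_901be3_an.Hd

open MeasureTheory Filter Topology Metric Set
open scoped ENNReal

variable {X : Type*} [MetricSpace X] [MeasurableSpace X] {A : Atlas X} {P : Par}

namespace Atlas

theorem gd_idx (A : Atlas X) (x : X) : A.Gd (A.idx x) x := by
  exact ⟨A.idx_src x, (A.idx_lt x).trans (by norm_num)⟩

theorem isOpen_gd (A : Atlas X) (i : Fin A.N) : IsOpen {x | A.Gd i x} := by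
  have h := (A.e i).isOpen_inter_preimage (isOpen_ball (x := (0 : V)) (ε := 2))
  convert h using 1
  ext x
  simp [Gd]

theorem symm_mem (A : Atlas X) (i : Fin A.N) {v : V} (hv : ‖v‖ < 3) :
    (A.e i).symm v ∈ (A.e i).source ∧ A.e i ((A.e i).symm v) = v := by
  have h : v ∈ (A.e i).target := by
    rw [A.target_eq]
    exact mem_ball_zero_iff.2 hv
  exact ⟨(A.e i).map_target h, (A.e i).right_inv h⟩

theorem Reg.dif {g : X → X} (h : A.Reg P g) : A.Dif g := by
  exact ⟨h.1, fun i j x hi hj => (h.2 i j x hi hj).2.2.1 _ (mem_ball_self P.ρ_pos)⟩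

theorem Reg.norm_DD_le {g : X → X} (h : A.Reg P g) : A.DBd g P.B := by
  exact fun i j x hi hj => (h.2 i j x hi hj).2.2.2.hol.1 _ (mem_ball_self P.ρ_pos)

/-- Lipschitz bound in the charts -/
theorem Reg.rep_lip {g : X → X} (h : A.Reg P g) {i j : Fin A.N} {x : X} (hi : A.Gd i x)
    (hj : A.Gd j (g x)) : ∀ v ∈ ball (A.e i x) P.ρ, ∀ w ∈ ball (A.e i x) P.ρ,
      ‖A.rep g i j v - A.rep g i j w‖ ≤ P.B * ‖v - w‖ := by
  exact (h.2 i j x hi hj).2.lip (convex_ball _ _)

theorem Reg.mono {P' : Par} {g : X → X} (h : A.Reg P g) (hα : P'.α = P.α) (hn : P'.n = P.n)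
    (hρ : P'.ρ ≤ P.ρ) (hB : P.B ≤ P'.B) : A.Reg P' g := by
  refine ⟨h.1, fun i j x hi hj => ⟨fun w hw => (h.2 i j x hi hj).1 w (ball_subset_ball hρ hw), ?_⟩⟩
  rw [hα, hn]
  exact ((h.2 i j x hi hj).2.mono_B hB).mono_set (ball_subset_ball hρ)

namespace AtBasicAux

theorem rep_center (g : X → X) {i : Fin A.N} (j : Fin A.N) {x : X} (hi : A.Gd i x) :
    A.rep g i j (A.e i x) = A.e j (g x) := by
  simp only [rep, (A.e i).left_inv hi.1]

theorem rep_comp (g : X → X) {h : X → X} (hh : Continuous h) {i k : Fin A.N} (j : Fin A.N)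
    {x : X} (hi : A.Gd i x) (hk : A.Gd k (h x)) :
    A.rep (g ∘ h) i j =ᶠ[𝓝 (A.e i x)] A.rep g k j ∘ A.rep h i k := by
  have h1 : ContinuousAt (fun v => h ((A.e i).symm v)) (A.e i x) :=
    hh.continuousAt.comp ((A.e i).continuousAt_symm ((A.e i).map_source hi.1))
  have h2 : ∀ᶠ v in 𝓝 (A.e i x), h ((A.e i).symm v) ∈ (A.e k).source := by
    refine h1.eventually_mem ((A.e k).open_source.mem_nhds ?_)
    rw [(A.e i).left_inv hi.1]
    exact hk.1
  filter_upwards [h2] with v hv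
  simp only [rep, Function.comp, (A.e k).left_inv hv]

omit [MetricSpace X] in
theorem meas_cases {Y ι : Type*} [MeasurableSpace Y] [MeasurableSpace ι] [Countable ι]
    [MeasurableSingletonClass ι] {c : X → ι} (hc : Measurable c) {F : ι → X → Y}
    (hF : ∀ i, Measurable (F i)) : Measurable fun x => F (c x) x := by
  have h1 : Measurable fun p : X × ι => F p.2 p.1 :=
    measurable_from_prod_countable_left fun i => hF i
  exact h1.comp (measurable_id.prodMk hc)

theorem meas_center [BorelSpace X] (A : Atlas X) : Measurable fun x => A.e (A.idx x) x := by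
  classical
  have h1 : ∀ i, Measurable ((A.e i).source.piecewise (A.e i) fun _ => (0 : V)) := fun i =>
    (A.e i).continuousOn.measurable_piecewise continuousOn_const
      (A.e i).open_source.measurableSet
  have h2 := meas_cases A.idx_meas h1
  convert h2 using 2 with x
  rw [piecewise_eq_of_mem _ _ _ (A.idx_src x)]

end AtBasicAux

open AtBasicAux

theorem Dif.comp {g h : X → X} (hg : A.Dif g) (hh : A.Dif h) : A.Dif (g ∘ h) := by
  refine ⟨hg.1.comp hh.1, fun i j x hi hj => ?_⟩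
  have hk := A.gd_idx (h x)
  refine DifferentiableAt.congr_of_eventuallyEq ?_ (rep_comp g hh.1 j hi hk)
  refine DifferentiableAt.comp _ ?_ (hh.2 i _ x hi hk)
  rw [rep_center h _ hi]
  exact hg.2 _ j (h x) hk hj

theorem Dif.iter {g : X → X} (hg : A.Dif g) (hid : A.Dif id) (n : ℕ) : A.Dif g^[n] := by
  induction n with
  | zero => exact hid
  | succ n ih =>
    rw [Function.iterate_succ']
    exact hg.comp ih

theorem DD_comp {g h : X → X} (hg : A.Dif g) (hh : A.Dif h) {i k j : Fin A.N} {x : X}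
    (hi : A.Gd i x) (hk : A.Gd k (h x)) (hj : A.Gd j (g (h x))) :
    A.DD (g ∘ h) i j x = (A.DD g k j (h x)).comp (A.DD h i k x) := by
  have h1 : DifferentiableAt ℝ (A.rep g k j) (A.rep h i k (A.e i x)) := by
    rw [rep_center h _ hi]
    exact hg.2 _ j (h x) hk hj
  rw [DD, (rep_comp g hh.1 j hi hk).fderiv_eq, fderiv_comp _ h1 (hh.2 i k x hi hk),
    rep_center h _ hi]
  rfl

theorem DD_id_self {i : Fin A.N} {x : X} (hi : A.Gd i x) :
    A.DD id i i x = ContinuousLinearMap.id ℝ V := by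
  have h1 : A.rep id i i =ᶠ[𝓝 (A.e i x)] id := by
    filter_upwards [(A.e i).open_target.mem_nhds ((A.e i).map_source hi.1)] with v hv
    exact (A.e i).right_inv hv
  rw [DD, h1.fderiv_eq, fderiv_id]

theorem D_comp {g h : X → X} (hg : A.Dif g) (hh : A.Dif h) (x : X) :
    A.D (g ∘ h) x = (A.D g (h x)).comp (A.D h x) := by
  exact DD_comp hg hh (A.gd_idx x) (A.gd_idx (h x)) (A.gd_idx (g (h x)))

theorem D_id (x : X) : A.D id x = ContinuousLinearMap.id ℝ V := by
  exact DD_id_self (A.gd_idx x)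

theorem D_iter_add {g : X → X} (hg : A.Dif g) (hid : A.Dif id) (m n : ℕ) (x : X) :
    A.D g^[m + n] x = (A.D g^[m] (g^[n] x)).comp (A.D g^[n] x) := by
  rw [Function.iterate_add]
  exact D_comp (hg.iter hid m) (hg.iter hid n) x

theorem D_iter_eq_coc {g : X → X} (hg : A.Dif g) (hid : A.Dif id) (n : ℕ) (x : X) :
    A.D g^[n] x = coc g (A.D g) n x := by
  induction n with
  | zero => exact D_id x
  | succ n ih =>
    rw [Function.iterate_succ', D_comp hg (hg.iter hid n), ih]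
    rfl

theorem Good.symm {g : X ≃ₜ X} (h : A.Good P g) : A.Good P g.symm := by
  exact ⟨h.2.1, h.1, h.2.2⟩

theorem Good.D_symm_iter {g : X ≃ₜ X} (h : A.Good P g) (n : ℕ) (x : X) :
    (A.D g.symm^[n] (g^[n] x)).comp (A.D g^[n] x) = ContinuousLinearMap.id ℝ V := by
  have e : g.symm^[n] ∘ g^[n] = id :=
    funext (Function.LeftInverse.iterate g.symm_apply_apply n)
  rw [← D_comp (h.2.1.dif.iter h.2.2.dif n) (h.1.dif.iter h.2.2.dif n), e, D_id]

theorem Good.norm_DD_iter {g : X ≃ₜ X} (h : A.Good P g) (n : ℕ) :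
    A.DBd g^[n] (P.B ^ (n + 1)) := by
  induction n with
  | zero =>
    rw [zero_add, pow_one]
    exact h.2.2.norm_DD_le
  | succ n ih =>
    rw [Function.iterate_succ']
    intro i j x hi hj
    have hk := A.gd_idx (g^[n] x)
    rw [DD_comp h.1.dif (h.1.dif.iter h.2.2.dif n) hi hk hj, pow_succ']
    exact (ContinuousLinearMap.opNorm_comp_le _ _).trans
      (mul_le_mul (h.1.norm_DD_le _ _ _ hk hj) (ih _ _ _ hi hk) (norm_nonneg _)
        (zero_le_one.trans P.one_le_B))

theorem Good.le_norm_DD_iter {g : X ≃ₜ X} (h : A.Good P g) (n : ℕ) {i j : Fin A.N} {x : X}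
    (hi : A.Gd i x) (hj : A.Gd j (g^[n] x)) (v : V) :
    ‖v‖ ≤ P.B ^ (n + 1) * ‖A.DD g^[n] i j x v‖ := by
  have e0 : g.symm^[n] (g^[n] x) = x := Function.LeftInverse.iterate g.symm_apply_apply n x
  have e : g.symm^[n] ∘ g^[n] = id :=
    funext (Function.LeftInverse.iterate g.symm_apply_apply n)
  have hi' : A.Gd i (g.symm^[n] (g^[n] x)) := by rwa [e0]
  have h1 := DD_comp (h.2.1.dif.iter h.2.2.dif n) (h.1.dif.iter h.2.2.dif n) hi hj hi'
  rw [e, DD_id_self hi] at h1
  have h2 : v = A.DD g.symm^[n] j i (g^[n] x) (A.DD g^[n] i j x v) :=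
    congrArg (fun T : V →L[ℝ] V => T v) h1
  conv_lhs => rw [h2]
  exact (ContinuousLinearMap.le_opNorm _ _).trans
    (mul_le_mul_of_nonneg_right (h.symm.norm_DD_iter n _ _ _ hj hi') (norm_nonneg _))

theorem Good.norm_D_iter {g : X ≃ₜ X} (h : A.Good P g) (n : ℕ) (x : X) :
    ‖A.D g^[n] x‖ ≤ P.B ^ n ∧ ∀ v, ‖v‖ ≤ P.B ^ n * ‖A.D g^[n] x v‖ := by
  have key : ∀ {g : X ≃ₜ X}, A.Good P g → ∀ (n : ℕ) (x : X), ‖A.D g^[n] x‖ ≤ P.B ^ n := by
    intro g h n x
    induction n with
    | zero =>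
      rw [Function.iterate_zero, D_id, pow_zero]
      exact ContinuousLinearMap.norm_id_le
    | succ n ih =>
      rw [Function.iterate_succ', D_comp h.1.dif (h.1.dif.iter h.2.2.dif n), pow_succ']
      exact (ContinuousLinearMap.opNorm_comp_le _ _).trans
        (mul_le_mul (h.1.norm_DD_le _ _ _ (A.gd_idx _) (A.gd_idx _)) ih (norm_nonneg _)
          (zero_le_one.trans P.one_le_B))
  refine ⟨key h n x, fun v => ?_⟩
  have h2 : A.D g.symm^[n] (g^[n] x) (A.D g^[n] x v) = v :=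
    congrArg (fun T : V →L[ℝ] V => T v) (h.D_symm_iter n x)
  conv_lhs => rw [← h2]
  exact (ContinuousLinearMap.le_opNorm _ _).trans
    (mul_le_mul_of_nonneg_right (key h.symm n _) (norm_nonneg _))

theorem VelAt.push {g : X → X} (hg : A.Dif g) {i j : Fin A.N} {b : ℝ → X} {v : V}
    (h : A.VelAt i b v) (hj : A.Gd j (g (b 0))) :
    A.VelAt j (g ∘ b) (A.DD g i j (b 0) v) := by
  refine ⟨hj, hg.1.continuousAt.comp h.2.1, ?_⟩
  have h1 : A.e j ∘ g ∘ b =ᶠ[𝓝 0] A.rep g i j ∘ (A.e i ∘ b) := by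
    filter_upwards [h.2.1.eventually_mem ((A.e i).open_source.mem_nhds h.1.1)] with t ht
    simp only [rep, Function.comp, (A.e i).left_inv ht]
  exact HasDerivAt.congr_of_eventuallyEq
    ((hg.2 i j (b 0) h.1 hj).hasFDerivAt.comp_hasDerivAt (0 : ℝ) h.2.2) h1

theorem VelAt.unique {i : Fin A.N} {b : ℝ → X} {v w : V} (h : A.VelAt i b v)
    (h' : A.VelAt i b w) : v = w := by
  exact h.2.2.unique h'.2.2

/-- velocity of a curve which is differentiable in a chart on the parameter interval -/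
theorem velAt_of_curve {i : Fin A.N} {γ : ℝ → X}
    (h : ∀ τ ∈ II, A.Gd i (γ τ) ∧ DifferentiableAt ℝ (A.e i ∘ γ) τ) {τ : ℝ} (hτ : τ ∈ II) :
    ContinuousAt γ τ ∧ A.VelAt i (fun t => γ (τ + t)) (deriv (A.e i ∘ γ) τ) := by
  have h1 : ContinuousAt γ τ := by
    have h2 : γ =ᶠ[𝓝 τ] (A.e i).symm ∘ (A.e i ∘ γ) := by
      filter_upwards [isOpen_Ioo.mem_nhds hτ] with t ht
      exact ((A.e i).left_inv (h t ht).1.1).symm
    exact ContinuousAt.congr (ContinuousAt.comp
      ((A.e i).continuousAt_symm ((A.e i).map_source (h τ hτ).1.1)) (h τ hτ).2.continuousAt)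
      h2.symm
  refine ⟨h1, ?_, ?_, ?_⟩
  · simpa using (h τ hτ).1
  · exact ContinuousAt.comp (by simpa using h1) (continuous_const.add continuous_id).continuousAt
  · have h3 : HasDerivAt (A.e i ∘ γ) (deriv (A.e i ∘ γ) τ) (τ + 0) := by
      rw [add_zero]
      exact (h τ hτ).2.hasDerivAt
    exact h3.comp_const_add τ 0

theorem measurable_D [BorelSpace X] {g : X → X} (hg : Continuous g) : Measurable (A.D g) := by
  have h1 : Measurable fun x => (A.idx x, A.idx (g x)) :=
    A.idx_meas.prodMk (A.idx_meas.comp hg.measurable)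
  exact meas_cases h1 (F := fun p x => fderiv ℝ (A.rep g p.1 p.2) (A.e (A.idx x) x))
    fun p => (measurable_fderiv ℝ _).comp (meas_center A)

theorem measurable_center [BorelSpace X] (A : Atlas X) :
    Measurable fun x => A.e (A.idx x) x := by
  exact meas_center A

end Atlas

end Pool.Agent.Lib.MP_901be3_an.Hd
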