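import Pool.Agent.Lib.MP_901be3_an.Hd.CrComp
import Pool.Agent.Lib.MP_901be3_an.Hd.Lin2

namespace Pool.Agent.Lib.MP_901be3_an.Hd

open MeasureTheory Filter Topology Metric Set
open scoped ENNReal

namespace CrInvAux

theorem hol_inv {α B : ℝ} {T S : V → V →L[ℝ] V} {U : Set V} (hT : Hol α B T U)
    (h : ∀ x ∈ U, (T x).comp (S x) = ContinuousLinearMap.id ℝ V ∧ ‖S x‖ ≤ B) :
    Hol α (max B (B * B * B)) S U := by
  refine ⟨fun x hx => (h x hx).2.trans (le_max_left _ _), fun x hx y hy => ?_⟩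
  have hB : 0 ≤ B := (norm_nonneg _).trans (h x hx).2
  have h1 : S x * T x = 1 := comp_eq_id_symm (h x hx).1
  have h2 : T y * S y = 1 := (h y hy).1
  have h3 : S x - S y = S x * (T y - T x) * S y := by
    rw [mul_sub, sub_mul, h1, one_mul, mul_assoc, h2, mul_one]
  have h4 := hT.2 y hy x hx
  rw [norm_sub_rev y x] at h4
  have h5 : 0 ≤ ‖x - y‖ ^ α := Real.rpow_nonneg (norm_nonneg _) _
  calc ‖S x - S y‖ ≤ ‖S x‖ * ‖T y - T x‖ * ‖S y‖ := by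
        rw [h3]
        exact norm_mul₃_le
    _ ≤ B * (B * ‖x - y‖ ^ α) * B := by
        gcongr
        · exact (h x hx).2
        · exact (h y hy).2
    _ = B * B * B * ‖x - y‖ ^ α := by ring
    _ ≤ _ := mul_le_mul_of_nonneg_right (le_max_right _ _) h5

theorem deriv_inv {T S : V → V →L[ℝ] V} {U : Set V} (hU : IsOpen U)
    (h : ∀ x ∈ U, (T x).comp (S x) = ContinuousLinearMap.id ℝ V) {x : V} (hx : x ∈ U)
    (hT : DifferentiableAt ℝ T x) :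
    HasFDerivAt S ((-ContinuousLinearMap.compL ℝ V (V →L[ℝ] V) (V →L[ℝ] V))
      (ContinuousLinearMap.mulLeftRight ℝ (V →L[ℝ] V) (S x) (S x)) (fderiv ℝ T x)) x := by
  have h1 : ∀ y (hy : y ∈ U), ∃ u : (V →L[ℝ] V)ˣ, (u : V →L[ℝ] V) = T y ∧
      ((u⁻¹ : (V →L[ℝ] V)ˣ) : V →L[ℝ] V) = S y := fun y hy =>
    ⟨⟨T y, S y, h y hy, comp_eq_id_symm (h y hy)⟩, rfl, rfl⟩
  have h2 : S =ᶠ[𝓝 x] Ring.inverse ∘ T := by
    filter_upwards [hU.mem_nhds hx] with y hy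
    obtain ⟨u, hu1, hu2⟩ := h1 y hy
    rw [Function.comp_apply, ← hu1, Ring.inverse_unit, hu2]
  obtain ⟨u, hu1, hu2⟩ := h1 x hx
  have h3 := hasFDerivAt_ringInverse (𝕜 := ℝ) u
  rw [hu1, hu2] at h3
  exact ((h3.comp x hT.hasFDerivAt).congr_of_eventuallyEq h2).congr_fderiv
    (ContinuousLinearMap.ext fun v => rfl)

theorem bilin (α : ℝ) (n : ℕ) {F G H : Type} [NormedAddCommGroup F] [NormedSpace ℝ F]
    [NormedAddCommGroup G] [NormedSpace ℝ G] [NormedAddCommGroup H] [NormedSpace ℝ H]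
    (B B' : ℝ) (T : F →L[ℝ] G →L[ℝ] H) : ∃ C : ℝ, ∀ (g : V → F) (g' : V → G) (U : Set V),
      Cr α n B g U → Cr α n B' g' U → IsOpen U → Cr α n C (fun x => T (g x) (g' x)) U :=
  ⟨_, fun _ _ _ h h' hU => h.bilin h' hU T⟩

theorem le_two_rpow {α t : ℝ} (hα : 0 < α) (hα1 : α ≤ 1) (h0 : 0 ≤ t) (h2 : t ≤ 2) :
    t ≤ 2 * t ^ α := by
  rcases le_total t 1 with h | h
  · have h1 := Real.rpow_le_rpow_of_exponent_ge' h0 h hα.le hα1
    rw [Real.rpow_one] at h1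
    linarith
  · linarith [Real.one_le_rpow h hα.le]

end CrInvAux

/-- pointwise inverse of a matrix-valued function -/
theorem Cr_inv {α : ℝ} (hα : 0 < α) (hα1 : α ≤ 1) (n : ℕ) (B : ℝ) :
    ∃ C : ℝ, 1 ≤ C ∧ ∀ (T S : V → V →L[ℝ] V) (U : Set V), IsOpen U → Cr α n B T U →
      (∀ x ∈ U, (T x).comp (S x) = ContinuousLinearMap.id ℝ V ∧ ‖S x‖ ≤ B) →
      Cr α n C S U := by
  induction n with
  | zero =>
    exact ⟨max 1 (max B (B * B * B)), le_max_left _ _, fun T S U _ hT h =>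
      Cr.mono_B (n := 0) (CrInvAux.hol_inv hT h) (le_max_right _ _)⟩
  | succ n ih =>
    obtain ⟨C, hC, ih⟩ := ih
    obtain ⟨C₁, hC₁⟩ := CrInvAux.bilin α n (F := V →L[ℝ] V) (G := V →L[ℝ] V)
      (H := (V →L[ℝ] V) →L[ℝ] V →L[ℝ] V) C C (ContinuousLinearMap.mulLeftRight ℝ (V →L[ℝ] V))
    obtain ⟨C₂, hC₂⟩ := CrInvAux.bilin α n (F := (V →L[ℝ] V) →L[ℝ] V →L[ℝ] V)
      (G := V →L[ℝ] V →L[ℝ] V) (H := V →L[ℝ] V →L[ℝ] V) C₁ B
      (-ContinuousLinearMap.compL ℝ V (V →L[ℝ] V) (V →L[ℝ] V))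
    refine ⟨max C C₂, hC.trans (le_max_left _ _), fun T S U hU hT h => ?_⟩
    have h1 := ih T S U hU hT.of_succ h
    have h2 := fun x hx => CrInvAux.deriv_inv hU (fun y hy => (h y hy).1) hx (hT.2.1 x hx)
    refine ⟨(h1.mono_B (le_max_left _ _)).hol, fun x hx => (h2 x hx).differentiableAt, ?_⟩
    exact ((hC₂ _ _ U (hC₁ S S U h1 h1 hU) hT.2.2 hU).congr hU
      fun x hx => (h2 x hx).fderiv).mono_B (le_max_right _ _)

namespace CrInvAux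

theorem step {α : ℝ} (hα : 0 < α) (hα1 : α ≤ 1) (n : ℕ) (B C₀ : ℝ) :
    ∃ C : ℝ, 1 ≤ C ∧ ∀ (g h : V → V) (U : Set V) (c : V) (ρ : ℝ),
      Cr α (n + 1) B g U → MapsTo h (ball c ρ) U →
      (∀ w ∈ ball c ρ, g (h w) = w ∧ DifferentiableAt ℝ h w ∧ ‖fderiv ℝ h w‖ ≤ B ∧ ‖h w‖ ≤ B) →
      Cr α n C₀ h (ball c ρ) → Cr α (n + 1) C h (ball c ρ) := by
  obtain ⟨C₁, -, h1⟩ := Cr_comp hα hα1 n B (max C₀ B)
  obtain ⟨C₂, hC₂, h2⟩ := Cr_inv hα hα1 n (max C₁ B)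
  refine ⟨max C₂ C₀, hC₂.trans (le_max_left _ _), fun g h U c ρ hg hm hh h0 => ⟨
    (h0.mono_B (le_max_right _ _)).hol, fun w hw => (hh w hw).2.1, ?_⟩⟩
  have h3 := h1 (fderiv ℝ g) h U (ball c ρ) isOpen_ball hm hg.2.2 (h0.mono_B (le_max_left _ _))
    fun x hx y hy => (convex_ball c ρ).norm_image_sub_le_of_norm_fderiv_le
      (fun w hw => (hh w hw).2.1) (fun w hw => (hh w hw).2.2.1.trans (le_max_right _ _)) hy hx
  refine (h2 _ (fderiv ℝ h) _ isOpen_ball (h3.mono_B (le_max_left _ _)) fun w hw =>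
    ⟨?_, (hh w hw).2.2.1.trans (le_max_right _ _)⟩).mono_B (le_max_left _ _)
  have h4 : g ∘ h =ᶠ[𝓝 w] id := by
    filter_upwards [isOpen_ball.mem_nhds hw] with y hy using (hh y hy).1
  rw [Function.comp_apply, ← fderiv_comp w (hg.2.1 _ (hm hw)) (hh w hw).2.1, h4.fderiv_eq,
    fderiv_id]

end CrInvAux

/-- regularity of a differentiable right inverse with bounded derivative -/
theorem Cr_rightInv {α : ℝ} (hα : 0 < α) (hα1 : α ≤ 1) (n : ℕ) (B : ℝ) :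
    ∃ C : ℝ, 1 ≤ C ∧ ∀ (g h : V → V) (U : Set V) (c : V) (ρ : ℝ), ρ ≤ 1 →
      Cr α (n + 1) B g U → MapsTo h (ball c ρ) U →
      (∀ w ∈ ball c ρ, g (h w) = w ∧ DifferentiableAt ℝ h w ∧ ‖fderiv ℝ h w‖ ≤ B ∧ ‖h w‖ ≤ B) →
      Cr α (n + 1) C h (ball c ρ) := by
  induction n with
  | zero =>
    obtain ⟨C, hC, h1⟩ := CrInvAux.step hα hα1 0 B (max B (B * 2))
    refine ⟨C, hC, fun g h U c ρ hρ hg hm hh => h1 g h U c ρ hg hm hh
      ⟨fun w hw => (hh w hw).2.2.2.trans (le_max_left _ _), fun x hx y hy => ?_⟩⟩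
    have hB : 0 ≤ B := (norm_nonneg _).trans (hh x hx).2.2.2
    have h2 := (convex_ball c ρ).norm_image_sub_le_of_norm_fderiv_le
      (fun w hw => (hh w hw).2.1) (fun w hw => (hh w hw).2.2.1) hy hx
    have h3 : ‖x - y‖ ≤ 2 := by
      rw [← dist_eq_norm]
      linarith [dist_triangle_right x y c, mem_ball.mp hx, mem_ball.mp hy]
    calc ‖h x - h y‖ ≤ B * (2 * ‖x - y‖ ^ α) := h2.trans (mul_le_mul_of_nonneg_left
          (CrInvAux.le_two_rpow hα hα1 (norm_nonneg _) h3) hB)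
      _ = B * 2 * ‖x - y‖ ^ α := by ring
      _ ≤ _ := mul_le_mul_of_nonneg_right (le_max_right _ _) (Real.rpow_nonneg (norm_nonneg _) _)
  | succ n ih =>
    obtain ⟨C₀, -, ih⟩ := ih
    obtain ⟨C, hC, h1⟩ := CrInvAux.step hα hα1 (n + 1) B C₀
    exact ⟨C, hC, fun g h U c ρ hρ hg hm hh => h1 g h U c ρ hg hm hh
      (ih g h U c ρ hρ hg.of_succ hm hh)⟩

end Pool.Agent.Lib.MP_901be3_an.Hd
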