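import Pool.Agent.Lib.MP_901be3_an.Hd.AtLip
import Pool.Agent.Lib.MP_901be3_an.Hd.CrInv

namespace Pool.Agent.Lib.MP_901be3_an.Hd

open MeasureTheory Filter Topology Metric Set
open scoped ENNReal

variable {X : Type*} [MetricSpace X] [MeasurableSpace X] [CompactSpace X]

namespace AtInvAux

theorem chain {g₁ g₂ : V → V} {w : V} (h : ∀ᶠ u in 𝓝 w, g₂ (g₁ u) = u)
    (h₁ : DifferentiableAt ℝ g₁ w) (h₂ : DifferentiableAt ℝ g₂ (g₁ w)) (v : V) :
    fderiv ℝ g₂ (g₁ w) (fderiv ℝ g₁ w v) = v := by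
  have h3 : fderiv ℝ (g₂ ∘ g₁) w = (fderiv ℝ g₂ (g₁ w)).comp (fderiv ℝ g₁ w) :=
    fderiv_comp w h₂ h₁
  have h4 : fderiv ℝ (g₂ ∘ g₁) w = fderiv ℝ (id : V → V) w :=
    Filter.EventuallyEq.fderiv_eq h
  rw [h4, fderiv_id] at h3
  have h5 := congrArg (fun T : V →L[ℝ] V => T v) h3
  simpa using h5.symm

theorem small {α B c : ℝ} (hα : 0 < α) (hB : 1 ≤ B) (hc : 0 < c) :
    ∃ r > 0, ∀ t, 0 ≤ t → t ≤ r → B * t ^ α ≤ c := by
  have hB0 : 0 < B := by linarith
  refine ⟨(c / B) ^ α⁻¹, by positivity, fun t ht htr => ?_⟩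
  have h1 : t ^ α ≤ ((c / B) ^ α⁻¹) ^ α := Real.rpow_le_rpow ht htr hα.le
  rw [Real.rpow_inv_rpow (by positivity) hα.ne'] at h1
  calc B * t ^ α ≤ B * (c / B) := mul_le_mul_of_nonneg_left h1 hB0.le
    _ = c := by field_simp

theorem low_of_close {S T : V →L[ℝ] V} {c : ℝ} (h : ∀ v, c * ‖v‖ ≤ ‖S v‖)
    (hST : ‖S - T‖ ≤ c / 2) (v : V) : c / 2 * ‖v‖ ≤ ‖T v‖ := by
  have h1 : ‖(S - T) v‖ ≤ c / 2 * ‖v‖ :=
    ((S - T).le_opNorm v).trans (mul_le_mul_of_nonneg_right hST (norm_nonneg _))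
  have h2 : ‖S v‖ ≤ ‖T v‖ + ‖(S - T) v‖ := by
    have : S v = T v + (S - T) v := by simp
    rw [this]
    exact norm_add_le _ _
  have h3 := h v
  linarith

omit [CompactSpace X] in
/-- the lower bound extends to a small ball -/
theorem low_ball {A : Atlas X} {P : Par} {c r : ℝ} (hr : r ≤ P.ρ)
    (hrc : ∀ t, 0 ≤ t → t ≤ r → P.B * t ^ P.α ≤ c / 2) {g : X → X} (hg : A.Reg P g)
    {i j : Fin A.N} {x : X} (hi : A.Gd i x) (hj : A.Gd j (g x))
    (h : ∀ v, c * ‖v‖ ≤ ‖A.DD g i j x v‖) {u : V} (hu : u ∈ ball (A.e i x) r) (v : V) :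
    c / 2 * ‖v‖ ≤ ‖fderiv ℝ (A.rep g i j) u v‖ := by
  refine low_of_close h ?_ v
  have h1 := ((hg.2 i j x hi hj).2.2.2.hol).2 (A.e i x) (mem_ball_self P.ρ_pos) u
    (ball_subset_ball hr hu)
  refine h1.trans (hrc _ (norm_nonneg _) ?_)
  rw [← dist_eq_norm, dist_comm]
  exact (mem_ball.1 hu).le

/-- uniform lower bound for the derivative of `f` in well chosen charts -/
theorem low_f (A : Atlas X) (P : Par) (f : X ≃ₜ X) (hf : A.Reg P f)
    (hf' : ∀ i j x, x ∈ (A.e i).source → f.symm x ∈ (A.e j).source →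
      DifferentiableAt ℝ (A.rep f.symm i j) (A.e i x)) :
    ∃ c > 0, ∀ x, ∃ i j, A.Gd i x ∧ f x ∈ (A.e j).source ∧ ‖A.e j (f x)‖ < 1 ∧
      ∀ v, c * ‖v‖ ≤ ‖A.DD f i j x v‖ := by
  have key : ∀ᶠ c in 𝓝 (0 : ℝ), ∀ x ∈ (univ : Set X), ∃ i j, A.Gd i x ∧
      f x ∈ (A.e j).source ∧ ‖A.e j (f x)‖ < 1 ∧ ∀ v, c * ‖v‖ ≤ ‖A.DD f i j x v‖ := by
    refine isCompact_univ.eventually_forall_of_forall_eventually fun x₀ _ => ?_
    set i := A.idx x₀ with hi_def
    set j := A.idx (f x₀) with hj_def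
    have hi : A.Gd i x₀ := A.gd_idx x₀
    have hj : A.Gd j (f x₀) := A.gd_idx (f x₀)
    have hreg := hf.2 i j x₀ hi hj
    have hrep : A.rep f i j (A.e i x₀) = A.e j (f x₀) := by
      simp only [Atlas.rep, (A.e i).left_inv hi.1]
    set S := fderiv ℝ (A.rep f.symm j i) (A.e j (f x₀)) with hS
    have hch : ∀ v, S (A.DD f i j x₀ v) = v := by
      intro v
      have h1 := chain (g₁ := A.rep f i j) (g₂ := A.rep f.symm j i) (w := A.e i x₀) ?_
        (hreg.2.2.1 _ (mem_ball_self P.ρ_pos)) ?_ v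
      · rw [hrep] at h1
        exact h1
      · filter_upwards [ball_mem_nhds (A.e i x₀) P.ρ_pos] with u hu
        have h2 : ‖u‖ < 3 := by
          have h3 : ‖u - A.e i x₀‖ < P.ρ := by rwa [← dist_eq_norm]
          have h4 := norm_le_norm_add_norm_sub' u (A.e i x₀)
          have := hi.2
          have := P.ρ_le
          linarith
        simp only [Atlas.rep, (A.e j).left_inv (hreg.1 u hu), Homeomorph.symm_apply_apply,
          (A.symm_mem i h2).2]
      · rw [hrep]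
        exact hf' j i (f x₀) hj.1 (by simpa using hi.1)
    set c : ℝ := (‖S‖ + 1)⁻¹ with hc
    have hc0 : 0 < c := by positivity
    have hlow : ∀ v, c * ‖v‖ ≤ ‖A.DD f i j x₀ v‖ := by
      intro v
      rw [hc, inv_mul_le_iff₀ (by positivity)]
      have h1 := S.le_opNorm (A.DD f i j x₀ v)
      rw [hch] at h1
      nlinarith [norm_nonneg (A.DD f i j x₀ v)]
    obtain ⟨r, hr0, hr⟩ := small P.α_pos P.one_le_B (half_pos hc0)
    have e1 : ∀ᶠ x in 𝓝 x₀, A.Gd i x := (A.isOpen_gd i).mem_nhds hi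
    have e2 : ∀ᶠ x in 𝓝 x₀, f x ∈ (A.e j).source :=
      f.continuous.continuousAt.eventually ((A.e j).open_source.mem_nhds hj.1)
    have e3 : ∀ᶠ x in 𝓝 x₀, ‖A.e j (f x)‖ < 1 := by
      have h1 : ContinuousAt (fun x => ‖A.e j (f x)‖) x₀ :=
        (((A.e j).continuousAt hj.1).comp f.continuous.continuousAt).norm
      exact h1.eventually (gt_mem_nhds (A.idx_lt (f x₀)))
    have e4 : ∀ᶠ x in 𝓝 x₀, A.e i x ∈ ball (A.e i x₀) (min r P.ρ) :=
      ((A.e i).continuousAt hi.1).eventually (ball_mem_nhds _ (lt_min hr0 P.ρ_pos))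
    have e5 : ∀ᶠ t in 𝓝 (0 : ℝ), t < c / 2 := gt_mem_nhds (half_pos hc0)
    rw [nhds_prod_eq]
    filter_upwards [e5.prod_mk (e1.and (e2.and (e3.and e4)))] with z hz
    obtain ⟨h1, h2, h3, h4, h5⟩ := hz
    refine ⟨i, j, h2, h3, h4, fun v => ?_⟩
    have h6 := low_ball (min_le_right r P.ρ) (fun t ht htr => hr t ht (htr.trans (min_le_left _ _)))
      hf hi hj hlow h5 v
    exact (mul_le_mul_of_nonneg_right h1.le (norm_nonneg _)).trans h6
  have h1 : ∀ᶠ c in 𝓝[>] (0 : ℝ), 0 < c := self_mem_nhdsWithin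
  obtain ⟨c, hc, hc0⟩ := ((key.filter_mono nhdsWithin_le_nhds).and h1).exists
  exact ⟨c, hc0, fun x => hc x (mem_univ x)⟩

/-- uniform lower bound for maps near `f`, in all good charts -/
theorem low_near (A : Atlas X) (P : Par) (f : X ≃ₜ X) (hid : A.Reg P id) (hf : A.Reg P f)
    (hf' : ∀ i j x, x ∈ (A.e i).source → f.symm x ∈ (A.e j).source →
      DifferentiableAt ℝ (A.rep f.symm i j) (A.e i x)) :
    ∃ c > 0, ∃ γ > 0, ∀ g : X → X, A.Reg P g → (∀ x, dist (g x) (f x) ≤ γ) →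
      ∀ i j x, A.Gd i x → A.Gd j (g x) → ∀ v, c * ‖v‖ ≤ ‖A.DD g i j x v‖ := by
  obtain ⟨c, hc0, hc⟩ := low_f A P f hf hf'
  obtain ⟨γ, hγ0, hγ⟩ := A.DD_close P (half_pos hc0)
  have hL : 0 < A.L := zero_lt_one.trans_le A.one_le_L
  have hB : 0 < P.B := zero_lt_one.trans_le P.one_le_B
  refine ⟨c / 2 / P.B ^ 2, by positivity, min γ (A.L⁻¹ / 2), by positivity,
    fun g hg hgf i' j' x hi' hj' v => ?_⟩
  obtain ⟨i, j, hi, hj, hj1, hlow⟩ := hc x
  have hd : dist (f x) (g x) ≤ A.L⁻¹ / 2 := by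
    rw [dist_comm]
    exact (hgf x).trans (min_le_right _ _)
  have hLi : 0 < A.L⁻¹ := by positivity
  have hsrc : g x ∈ (A.e j).source := A.leb j (f x) hj (by linarith) (g x) (by linarith)
  have hjg : A.Gd j (g x) := by
    refine ⟨hsrc, ?_⟩
    have h1 := A.lip_low j (f x) hj (g x) hsrc
    have h2 : A.L * dist (f x) (g x) ≤ A.L * (A.L⁻¹ / 2) := mul_le_mul_of_nonneg_left hd hL.le
    have h3 : A.L * (A.L⁻¹ / 2) = 1 / 2 := by field_simp
    have h4 := norm_le_norm_add_norm_sub (A.e j (f x)) (A.e j (g x))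
    linarith
  have hjf : A.Gd j (f x) := ⟨hj, by linarith⟩
  have h1 : ∀ w, c / 2 * ‖w‖ ≤ ‖A.DD g i j x w‖ := low_of_close hlow
    (hγ f g hf hg (fun y => by rw [dist_comm]; exact (hgf y).trans (min_le_left _ _)) i j x hi hjf
      hjg)
  set w := A.DD id i' i x v with hw
  have h2 : A.DD id i i' x w = v := by
    have h3 := Atlas.DD_comp (g := id) (h := id) hid.dif hid.dif (i := i') (k := i) (j := i')
      hi' hi hi'
    have h4 : A.DD (id ∘ id) i' i' x = ContinuousLinearMap.id ℝ V := Atlas.DD_id_self hi'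
    rw [h4] at h3
    have h5 := congrArg (fun T : V →L[ℝ] V => T v) h3
    simpa using h5.symm
  have h3 : A.DD g i j x w = A.DD id j' j (g x) (A.DD g i' j' x v) := by
    have h4 := Atlas.DD_comp (g := g) (h := id) hg.dif hid.dif (i := i') (k := i) (j := j)
      hi' hi hjg
    have h5 := Atlas.DD_comp (g := id) (h := g) hid.dif hg.dif (i := i') (k := j') (j := j)
      hi' hj' hjg
    have h6 : A.DD (g ∘ id) i' j x = A.DD (id ∘ g) i' j x := rfl
    rw [h4, h5] at h6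
    exact congrArg (fun T : V →L[ℝ] V => T v) h6
  have h4 : ‖v‖ ≤ P.B * ‖w‖ := by
    rw [← h2]
    exact ((A.DD id i i' x).le_opNorm w).trans
      (mul_le_mul_of_nonneg_right (hid.norm_DD_le i i' x hi hi') (norm_nonneg _))
  have h5 : ‖A.DD g i j x w‖ ≤ P.B * ‖A.DD g i' j' x v‖ := by
    rw [h3]
    exact ((A.DD id j' j (g x)).le_opNorm _).trans
      (mul_le_mul_of_nonneg_right (hid.norm_DD_le j' j (g x) hj' hjg) (norm_nonneg _))
  have h6 := (h1 w).trans h5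
  rw [div_mul_eq_mul_div, div_le_iff₀ (by positivity)]
  calc c / 2 * ‖v‖ ≤ c / 2 * (P.B * ‖w‖) := mul_le_mul_of_nonneg_left h4 (by positivity)
    _ = P.B * (c / 2 * ‖w‖) := by ring
    _ ≤ P.B * (P.B * ‖A.DD g i' j' x v‖) := mul_le_mul_of_nonneg_left h6 hB.le
    _ = _ := by ring

omit [MeasurableSpace X] in
/-- the inverses are close -/
theorem inv_close (f : X ≃ₜ X) {γ : ℝ} (hγ : 0 < γ) : ∃ δ > 0, ∀ g : X ≃ₜ X,
    (∀ x, dist (g x) (f x) ≤ δ) → ∀ y, dist (g.symm y) (f.symm y) ≤ γ := by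
  obtain ⟨δ, hδ, h⟩ := Metric.uniformContinuous_iff.1
    (CompactSpace.uniformContinuous_of_continuous f.symm.continuous) γ hγ
  refine ⟨δ / 2, half_pos hδ, fun g hg y => ?_⟩
  have h1 : dist (f (g.symm y)) (g (g.symm y)) < δ := by
    rw [dist_comm]
    linarith [hg (g.symm y)]
  have h2 := h h1
  rw [Homeomorph.symm_apply_apply, Homeomorph.apply_symm_apply] at h2
  exact h2.le

/-- uniform regularity of the inverses of maps near `f` -/
theorem reg_symm (A : Atlas X) (P : Par) (f : X ≃ₜ X) (hid : A.Reg P id) (hf : A.Reg P f)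
    (hf' : ∀ i j x, x ∈ (A.e i).source → f.symm x ∈ (A.e j).source →
      DifferentiableAt ℝ (A.rep f.symm i j) (A.e i x)) :
    ∃ P' : Par, P'.α = P.α ∧ P'.n = P.n ∧ P'.ρ ≤ P.ρ ∧ P.B ≤ P'.B ∧ ∃ γ > 0, ∀ g : X ≃ₜ X,
      A.Reg P g → (∀ x, dist (g x) (f x) ≤ γ) →
      (∀ i j x, x ∈ (A.e i).source → g.symm x ∈ (A.e j).source →
        DifferentiableAt ℝ (A.rep g.symm i j) (A.e i x)) → A.Reg P' g.symm := by
  obtain ⟨c, hc0, γ, hγ0, hlow⟩ := low_near A P f hid hf hf'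
  obtain ⟨r, hr0, hr⟩ := small P.α_pos P.one_le_B (half_pos hc0)
  have hL : 0 < A.L := zero_lt_one.trans_le A.one_le_L
  set ρ₁ := min r P.ρ with hρ₁
  have hρ₁0 : 0 < ρ₁ := lt_min hr0 P.ρ_pos
  have hρ₁1 : ρ₁ ≤ 1 := (min_le_right _ _).trans P.ρ_le
  set η := ρ₁ / A.L with hη
  have hη0 : 0 < η := by positivity
  obtain ⟨δ, hδ0, hδ⟩ := inv_close f (show 0 < η / 3 by positivity)
  obtain ⟨δ', hδ'0, hδ'⟩ := Metric.uniformContinuous_iff.1
    (CompactSpace.uniformContinuous_of_continuous f.symm.continuous) (η / 3) (by positivity)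
  set B₃ := max P.B (max (2 / c) 3) with hB₃
  obtain ⟨C, hC1, hC⟩ := Cr_rightInv P.α_pos P.α_le P.n B₃
  set ρ' := min P.ρ (δ' / A.L) with hρ'
  have hρ'0 : 0 < ρ' := lt_min P.ρ_pos (by positivity)
  have hρ'1 : ρ' ≤ 1 := (min_le_left _ _).trans P.ρ_le
  refine ⟨⟨P.α, P.n, ρ', max P.B C, P.α_pos, P.α_le, hρ'0, hρ'1, hC1.trans (le_max_right _ _)⟩,
    rfl, rfl, min_le_left _ _, le_max_left _ _, min γ δ, lt_min hγ0 hδ0,
    fun g hg hgf hg' => ⟨g.symm.continuous, fun i j y hi hj => ?_⟩⟩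
  have hinv := hδ g fun x => (hgf x).trans (min_le_right _ _)
  have hi' : A.Gd i (g (g.symm y)) := by rwa [Homeomorph.apply_symm_apply]
  have hlw := hlow g hg (fun x => (hgf x).trans (min_le_left _ _)) j i (g.symm y) hj hi'
  have hreg := hg.2 j i (g.symm y) hj hi'
  have hw3 : ∀ w ∈ ball (A.e i y) ρ', ‖w‖ < 3 := by
    intro w hw
    have h3 : ‖w - A.e i y‖ < ρ' := by rwa [← dist_eq_norm]
    have h4 := norm_le_norm_add_norm_sub' w (A.e i y)
    have := hi.2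
    linarith
  have hcl : ∀ w ∈ ball (A.e i y) ρ', dist (g.symm y) (g.symm ((A.e i).symm w)) < η := by
    intro w hw
    obtain ⟨h1, h2⟩ := A.symm_mem i (hw3 w hw)
    have h3 := A.lip_up i y hi.1 _ h1
    rw [h2] at h3
    have h4 : ‖A.e i y - w‖ < δ' / A.L := by
      rw [← dist_eq_norm, dist_comm]
      exact (mem_ball.1 hw).trans_le (min_le_right _ _)
    have h5 : dist y ((A.e i).symm w) < δ' := by
      refine h3.trans_lt ?_
      rwa [lt_div_iff₀ hL, mul_comm] at h4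
    have h6 := hδ' h5
    have h7 := hinv y
    have h8 := hinv ((A.e i).symm w)
    have h9 := dist_triangle4 (g.symm y) (f.symm y) (f.symm ((A.e i).symm w))
      (g.symm ((A.e i).symm w))
    rw [dist_comm] at h8
    linarith
  have hηL : η ≤ A.L⁻¹ := by
    rw [hη, div_eq_mul_inv]
    exact mul_le_of_le_one_left (by positivity) hρ₁1
  have hsrc : ∀ w ∈ ball (A.e i y) ρ', g.symm ((A.e i).symm w) ∈ (A.e j).source := fun w hw =>
    A.leb j (g.symm y) hj.1 hj.2 _ ((hcl w hw).trans_le hηL)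
  have hmap : MapsTo (A.rep g.symm i j) (ball (A.e i y) ρ') (ball (A.e j (g.symm y)) ρ₁) := by
    intro w hw
    have h1 := A.lip_low j (g.symm y) hj.1 _ (hsrc w hw)
    have h2 := hcl w hw
    rw [hη, lt_div_iff₀ hL, mul_comm] at h2
    rw [mem_ball, dist_comm, dist_eq_norm]
    exact h1.trans_lt h2
  have hri : ∀ w ∈ ball (A.e i y) ρ', A.rep g j i (A.rep g.symm i j w) = w := by
    intro w hw
    simp only [Atlas.rep, (A.e j).left_inv (hsrc w hw), Homeomorph.apply_symm_apply,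
      (A.symm_mem i (hw3 w hw)).2]
  refine ⟨hsrc, Cr.mono_B ?_ (le_max_right _ _)⟩
  refine hC (A.rep g j i) (A.rep g.symm i j) (ball (A.e j (g.symm y)) ρ₁) (A.e i y) ρ' hρ'1
    ((hreg.2.mono_set (ball_subset_ball (min_le_right _ _))).mono_B (le_max_left _ _)) hmap
    fun w hw => ?_
  obtain ⟨h1, h2⟩ := A.symm_mem i (hw3 w hw)
  have hd : DifferentiableAt ℝ (A.rep g.symm i j) w := by
    have h3 := hg' i j _ h1 (hsrc w hw)
    rwa [h2] at h3
  refine ⟨hri w hw, hd, ?_, ?_⟩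
  · refine (ContinuousLinearMap.opNorm_le_bound _ (show 0 ≤ 2 / c by positivity) fun v => ?_).trans
      ((le_max_left _ _).trans (le_max_right _ _))
    have h3 := chain (g₁ := A.rep g.symm i j) (g₂ := A.rep g j i) (w := w)
      (by filter_upwards [isOpen_ball.mem_nhds hw] with u hu using hri u hu) hd
      (hreg.2.2.1 _ (ball_subset_ball (min_le_right _ _) (hmap hw))) v
    have h4 := low_ball (min_le_right r P.ρ) (fun t ht htr => hr t ht (htr.trans (min_le_left _ _)))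
      hg hj hi' hlw (hmap hw) (fderiv ℝ (A.rep g.symm i j) w v)
    rw [h3] at h4
    rw [div_mul_eq_mul_div, le_div_iff₀ hc0]
    linarith
  · have h3 := (A.e j).map_source (hsrc w hw)
    rw [A.target_eq, mem_ball_zero_iff] at h3
    exact h3.le.trans ((le_max_right _ _).trans (le_max_right _ _))

end AtInvAux

namespace Atlas

/-- uniform regularity and convergence of the inverses -/
theorem good_of_reg (A : Atlas X) (P : Par) (f : X ≃ₜ X) (F : ℕ → X ≃ₜ X) (hid : A.Reg P id)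
    (hf : A.Reg P f) (hF : ∀ᶠ k in atTop, A.Reg P (F k))
    (hf' : ∀ i j x, x ∈ (A.e i).source → f.symm x ∈ (A.e j).source →
      DifferentiableAt ℝ (A.rep f.symm i j) (A.e i x))
    (hF' : ∀ k i j x, x ∈ (A.e i).source → (F k).symm x ∈ (A.e j).source →
      DifferentiableAt ℝ (A.rep (F k).symm i j) (A.e i x))
    (hconv : ∀ γ > 0, ∀ᶠ k in atTop, ∀ x, dist (F k x) (f x) ≤ γ) :
    ∃ P' : Par, P'.α = P.α ∧ P'.n = P.n ∧ A.Good P' f ∧ (∀ᶠ k in atTop, A.Good P' (F k)) ∧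
      ∀ γ > 0, ∀ᶠ k in atTop, Near γ (F k) f := by
  obtain ⟨P', h1, h2, h3, h4, γ, hγ, h5⟩ := AtInvAux.reg_symm A P f hid hf hf'
  refine ⟨P', h1, h2, ⟨hf.mono h1 h2 h3 h4, h5 f hf (fun x => by simpa using hγ.le) hf',
    hid.mono h1 h2 h3 h4⟩, ?_, fun γ' hγ' => ?_⟩
  · filter_upwards [hF, hconv γ hγ] with k hk hk'
    exact ⟨hk.mono h1 h2 h3 h4, h5 (F k) hk hk' (hF' k), hid.mono h1 h2 h3 h4⟩
  · obtain ⟨δ, hδ, h6⟩ := AtInvAux.inv_close f hγ'
    filter_upwards [hconv γ' hγ', hconv δ hδ] with k hk hk' x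
    exact ⟨hk x, h6 (F k) hk' x⟩

end Atlas

end Pool.Agent.Lib.MP_901be3_an.Hd
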