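import Pool.Agent.Lib.MP_901be3_an.Hd.AtBasic
import Pool.Agent.Lib.MP_901be3_an.Hd.CrComp

namespace Pool.Agent.Lib.MP_901be3_an.Hd

open MeasureTheory Filter Topology Metric Set
open scoped ENNReal

variable {X : Type*} [MetricSpace X] [MeasurableSpace X]

namespace Atlas

theorem reg_comp (A : Atlas X) (P : Par) : ∃ P' : Par, P'.α = P.α ∧ P'.n = P.n ∧ P'.ρ ≤ P.ρ ∧
    P.B ≤ P'.B ∧ ∀ g h : X → X, A.Reg P g → A.Reg P h → A.Reg P' (g ∘ h) := by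
  obtain ⟨C, hC1, hC⟩ := Cr_comp P.α_pos P.α_le (P.n + 1) P.B P.B
  have hB : 0 < P.B := zero_lt_one.trans_le P.one_le_B
  have hρ : P.ρ / P.B ≤ P.ρ := div_le_self P.ρ_pos.le P.one_le_B
  refine ⟨⟨P.α, P.n, P.ρ / P.B, max C P.B, P.α_pos, P.α_le, div_pos P.ρ_pos hB,
    hρ.trans P.ρ_le, hC1.trans (le_max_left _ _)⟩, rfl, rfl, hρ, le_max_right _ _,
    fun g h hg hh => ⟨hg.1.comp hh.1, fun i j x hi hj => ?_⟩⟩
  have hk := A.gd_idx (h x)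
  obtain ⟨h1, h2⟩ := hh.2 i _ x hi hk
  obtain ⟨g1, g2⟩ := hg.2 _ j (h x) hk hj
  have hsub : ball (A.e i x) (P.ρ / P.B) ⊆ ball (A.e i x) P.ρ := ball_subset_ball hρ
  have hlip := hh.rep_lip hi hk
  have h0 : A.rep h i (A.idx (h x)) (A.e i x) = A.e (A.idx (h x)) (h x) := by
    rw [rep, (A.e i).left_inv hi.1]
  have hmaps : MapsTo (A.rep h i (A.idx (h x))) (ball (A.e i x) (P.ρ / P.B))
      (ball (A.e (A.idx (h x)) (h x)) P.ρ) := by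
    intro w hw
    have h3 := hlip w (hsub hw) _ (mem_ball_self P.ρ_pos)
    rw [h0] at h3
    rw [mem_ball_iff_norm] at hw ⊢
    rw [lt_div_iff₀' hB] at hw
    exact h3.trans_lt hw
  have hinv : ∀ w ∈ ball (A.e i x) (P.ρ / P.B),
      (A.e (A.idx (h x))).symm (A.rep h i (A.idx (h x)) w) = h ((A.e i).symm w) := fun w hw =>
    (A.e _).left_inv (h1 w (hsub hw))
  refine ⟨fun w hw => ?_, ?_⟩
  · have h3 := g1 _ (hmaps hw)
    rwa [hinv w hw] at h3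
  · refine ((hC _ _ _ _ isOpen_ball hmaps g2 (h2.mono_set hsub) fun v hv w hw =>
      hlip v (hsub hv) w (hsub hw)).congr isOpen_ball fun w hw => ?_).mono_B (le_max_left _ _)
    change A.e j (g (h ((A.e i).symm w))) =
      A.e j (g ((A.e (A.idx (h x))).symm (A.rep h i (A.idx (h x)) w)))
    rw [hinv w hw]

theorem good_iter (A : Atlas X) (P : Par) (p : ℕ) : ∃ P' : Par, P'.α = P.α ∧ P'.n = P.n ∧
    ∀ g : X ≃ₜ X, A.Good P g → A.Good P' g ∧ A.Reg P' g^[p] := by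
  induction p with
  | zero => exact ⟨P, rfl, rfl, fun g hg => ⟨hg, hg.2.2⟩⟩
  | succ p ih =>
    obtain ⟨P₁, a1, a2, h1⟩ := ih
    obtain ⟨P₂, b1, b2, b3, b4, h2⟩ := A.reg_comp P₁
    refine ⟨P₂, b1.trans a1, b2.trans a2, fun g hg => ?_⟩
    obtain ⟨⟨c1, c2, c3⟩, c4⟩ := h1 g hg
    exact ⟨⟨c1.mono b1 b2 b3 b4, c2.mono b1 b2 b3 b4, c3.mono b1 b2 b3 b4⟩, h2 _ _ c4 c1⟩

end Atlas

end Pool.Agent.Lib.MP_901be3_an.Hd
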