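import Pool.Agent.Lib.MP_901be3_an.Hd.AtBasic

namespace Pool.Agent.Lib.MP_901be3_an.Hd

open MeasureTheory Filter Topology Metric Set
open scoped ENNReal

variable {X : Type*} [MetricSpace X] [MeasurableSpace X] [CompactSpace X]

namespace Atlas

/-- uniform global Lipschitz constant -/
theorem exists_lip (A : Atlas X) (P : Par) : ∃ Λ : ℝ, 1 ≤ Λ ∧ ∀ g : X → X, A.Reg P g →
    ∀ x y, dist (g x) (g y) ≤ Λ * dist x y := by
  obtain ⟨Dm, hD⟩ := Metric.isBounded_iff.1 (isCompact_univ (X := X)).isBounded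
  have hL := A.one_le_L
  have hB := P.one_le_B
  have hρ := P.ρ_pos
  have hL0 : 0 < A.L := by linarith
  have h1 : 1 ≤ A.L * (P.B * A.L) :=
    one_le_mul_of_one_le_of_one_le hL (one_le_mul_of_one_le_of_one_le hB hL)
  have h2 : 0 ≤ |Dm| * (A.L / P.ρ) := by positivity
  refine ⟨A.L * (P.B * A.L) + |Dm| * (A.L / P.ρ), by linarith, fun g hg x y => ?_⟩
  have hd := dist_nonneg (x := x) (y := y)
  by_cases h : A.L * dist x y < P.ρ
  · have gi := A.gd_idx x
    have gj := A.gd_idx (g x)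
    have hy : y ∈ (A.e (A.idx x)).source := by
      refine A.leb _ x gi.1 gi.2 y ?_
      rw [inv_eq_one_div, lt_div_iff₀' hL0]
      exact h.trans_le P.ρ_le
    have h3 := A.lip_low _ x gi.1 y hy
    have h4 : A.e (A.idx x) y ∈ ball (A.e (A.idx x) x) P.ρ := by
      rw [mem_ball, dist_comm, dist_eq_norm]
      exact h3.trans_lt h
    have h5 := (hg.2 _ _ x gi gj).1 _ h4
    have h6 := hg.rep_lip gi gj _ (mem_ball_self hρ) _ h4
    simp only [rep, (A.e _).left_inv hy, (A.e _).left_inv gi.1] at h5 h6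
    have h7 := A.lip_up _ _ gj.1 _ h5
    have h8 := mul_le_mul_of_nonneg_left (h6.trans
      (mul_le_mul_of_nonneg_left h3 (by linarith))) hL0.le
    have h9 := mul_nonneg h2 hd
    nlinarith
  · have h3 : 1 ≤ A.L / P.ρ * dist x y := by
      rw [div_mul_eq_mul_div, le_div_iff₀ hρ, one_mul]
      exact not_lt.1 h
    have h4 := (hD (mem_univ (g x)) (mem_univ (g y))).trans (le_abs_self Dm)
    have h5 := mul_le_mul_of_nonneg_left h3 (abs_nonneg Dm)
    have h6 := mul_nonneg (zero_le_one.trans h1) hd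
    nlinarith

/-- uniform closeness implies closeness of the derivatives -/
theorem DD_close (A : Atlas X) (P : Par) {γ : ℝ} (hγ : 0 < γ) : ∃ γ' > 0, ∀ g g' : X → X,
    A.Reg P g → A.Reg P g' → (∀ x, dist (g x) (g' x) ≤ γ') → ∀ i j x, A.Gd i x → A.Gd j (g x) →
      A.Gd j (g' x) → ‖A.DD g i j x - A.DD g' i j x‖ ≤ γ := by
  have hL := A.one_le_L
  have hB := P.one_le_B
  have hρ := P.ρ_pos
  have hα := P.α_pos
  have hL0 : 0 < A.L := by linarith
  have hB0 : 0 < P.B := by linarith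
  obtain ⟨h, h0, h1, h2⟩ : ∃ h : ℝ, 0 < h ∧ h < P.ρ ∧ P.B * h ^ P.α ≤ γ / 4 := by
    have e1 : 0 < (γ / (4 * P.B)) ^ P.α⁻¹ := Real.rpow_pos_of_pos (by positivity) _
    refine ⟨min (P.ρ / 2) ((γ / (4 * P.B)) ^ P.α⁻¹), lt_min (by positivity) e1,
      (min_le_left _ _).trans_lt (by linarith), ?_⟩
    have e2 := Real.rpow_le_rpow (lt_min (half_pos hρ) e1).le (min_le_right _ _) hα.le
    rw [Real.rpow_inv_rpow (by positivity) hα.ne'] at e2
    refine (mul_le_mul_of_nonneg_left e2 hB0.le).trans (le_of_eq ?_)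
    field_simp
  refine ⟨γ * h / (4 * A.L), by positivity, fun g g' hg hg' hd i j x hi hj hj' => ?_⟩
  have key : ∀ f : X → X, A.Reg P f → A.Gd j (f x) → ∀ v : V, ‖v‖ = 1 →
      ‖A.rep f i j (A.e i x + h • v) - A.rep f i j (A.e i x) - h • A.DD f i j x v‖ ≤
        γ / 4 * h := by
    intro f hf hk v hv
    have hc := (hf.2 i j x hi hk).2
    have hs : closedBall (A.e i x) h ⊆ ball (A.e i x) P.ρ := closedBall_subset_ball h1
    have hn : ‖h • v‖ = h := by rw [norm_smul, hv, mul_one, Real.norm_of_nonneg h0.le]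
    have := Convex.norm_image_sub_le_of_norm_fderiv_le' (𝕜 := ℝ) (f := A.rep f i j)
      (φ := A.DD f i j x) (C := γ / 4) (s := closedBall (A.e i x) h)
      (fun w hw => hc.2.1 w (hs hw))
      (fun w hw => by
        refine (hc.2.2.hol.2 w (hs hw) _ (mem_ball_self hρ)).trans (le_trans ?_ h2)
        refine mul_le_mul_of_nonneg_left (Real.rpow_le_rpow (norm_nonneg _) ?_ hα.le) hB0.le
        rwa [← dist_eq_norm])
      (convex_closedBall _ _) (mem_closedBall_self h0.le) (y := A.e i x + h • v)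
      (by rw [mem_closedBall, dist_eq_norm, add_sub_cancel_left, hn])
    rwa [add_sub_cancel_left, map_smul, hn] at this
  have hu : ∀ w ∈ ball (A.e i x) P.ρ, ‖A.rep g i j w - A.rep g' i j w‖ ≤ γ / 4 * h := by
    intro w hw
    refine (A.lip_low j _ ((hg.2 i j x hi hj).1 w hw) _ ((hg'.2 i j x hi hj').1 w hw)).trans ?_
    refine (mul_le_mul_of_nonneg_left (hd _) hL0.le).trans (le_of_eq ?_)
    field_simp
  refine ContinuousLinearMap.opNorm_le_of_unit_norm hγ.le fun v hv => ?_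
  have k1 := key g hg hj v hv
  have k2 := key g' hg' hj' v hv
  have k3 := hu _ (mem_ball_self hρ)
  have k4 := hu (A.e i x + h • v) (by
    rw [mem_ball, dist_eq_norm, add_sub_cancel_left, norm_smul, hv, mul_one,
      Real.norm_of_nonneg h0.le]
    exact h1)
  have k5 : h • (A.DD g i j x - A.DD g' i j x) v =
      (A.rep g' i j (A.e i x + h • v) - A.rep g' i j (A.e i x) - h • A.DD g' i j x v) -
      (A.rep g i j (A.e i x + h • v) - A.rep g i j (A.e i x) - h • A.DD g i j x v) +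
      ((A.rep g i j (A.e i x + h • v) - A.rep g' i j (A.e i x + h • v)) -
        (A.rep g i j (A.e i x) - A.rep g' i j (A.e i x))) := by
    rw [sub_apply, smul_sub]
    abel
  have k6 : h * ‖(A.DD g i j x - A.DD g' i j x) v‖ ≤ h * γ := by
    rw [← Real.norm_of_nonneg h0.le, ← norm_smul, k5, Real.norm_of_nonneg h0.le]
    refine (norm_add_le_of_le (norm_sub_le_of_le k2 k1) (norm_sub_le_of_le k4 k3)).trans ?_
    linarith
  exact le_of_mul_le_mul_left k6 h0

/-- iterates of close maps are close -/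
theorem iter_close (A : Atlas X) (P : Par) (p : ℕ) {γ : ℝ} (hγ : 0 < γ) : ∃ γ' > 0,
    ∀ g f : X → X, A.Reg P f → (∀ x, dist (g x) (f x) ≤ γ') →
      ∀ l ≤ p, ∀ x, dist (g^[l] x) (f^[l] x) ≤ γ := by
  obtain ⟨Λ, h1, hΛ⟩ := A.exists_lip P
  have h2 : 1 ≤ 2 * Λ := by linarith
  have h3 : 0 < (2 * Λ) ^ p := by positivity
  refine ⟨γ / (2 * Λ) ^ p, by positivity, fun g f hf hd l hl x => ?_⟩
  have key : ∀ m : ℕ, dist (g^[m] x) (f^[m] x) ≤ γ / (2 * Λ) ^ p * (2 * Λ) ^ m := by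
    intro m
    induction m with
    | zero =>
      simp only [Function.iterate_zero, id, dist_self]
      positivity
    | succ m ih =>
      rw [Function.iterate_succ_apply', Function.iterate_succ_apply', pow_succ]
      have e1 := dist_triangle (g (g^[m] x)) (f (g^[m] x)) (f (f^[m] x))
      have e2 := hd (g^[m] x)
      have e3 := (hΛ f hf _ _).trans (mul_le_mul_of_nonneg_left ih (by linarith))
      have e4 : 1 ≤ Λ * (2 * Λ) ^ m := one_le_mul_of_one_le_of_one_le h1 (one_le_pow₀ h2)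
      have e5 := mul_le_mul_of_nonneg_left e4 (div_pos hγ h3).le
      nlinarith
  refine (key l).trans ?_
  refine (mul_le_mul_of_nonneg_left (pow_le_pow_right₀ h2 hl) (div_pos hγ h3).le).trans ?_
  rw [div_mul_cancel₀ _ h3.ne']

/-- derivative bound for nearby maps -/
theorem dbd_of_close (A : Atlas X) (P P' : Par) {a : ℝ} {G : X → X} (hid : A.Reg P id)
    (hG : A.Reg P' G) (ha : ∀ x, ‖A.D G x‖ ≤ a) : ∃ γ > 0, ∀ G' : X → X, A.Reg P' G' →
      (∀ x, dist (G' x) (G x) ≤ γ) → A.DBd G' (P.B ^ 2 * (a + 1)) := by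
  obtain ⟨γ, hγ, H⟩ := A.DD_close P' one_pos
  have hL0 : 0 < A.L := by linarith [A.one_le_L]
  have hB0 : 0 ≤ P.B := by linarith [P.one_le_B]
  have hL1 : 0 < A.L⁻¹ := inv_pos.2 hL0
  refine ⟨min γ (A.L⁻¹ / 2), lt_min hγ (half_pos hL1), fun G' hG' hd i j x hi hj => ?_⟩
  have gk := A.gd_idx x
  have gl := A.gd_idx (G x)
  have d1 : dist (G x) (G' x) < A.L⁻¹ := by
    rw [dist_comm]
    exact ((hd x).trans (min_le_right _ _)).trans_lt (half_lt_self hL1)
  have gl' : A.Gd (A.idx (G x)) (G' x) := by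
    have s1 := A.leb _ _ gl.1 gl.2 _ d1
    refine ⟨s1, ?_⟩
    have s2 := (A.lip_low _ _ gl.1 _ s1).trans (mul_le_mul_of_nonneg_left d1.le hL0.le)
    rw [mul_inv_cancel₀ hL0.ne', norm_sub_rev] at s2
    have s3 := norm_sub_norm_le (A.e (A.idx (G x)) (G' x)) (A.e (A.idx (G x)) (G x))
    linarith [A.idx_lt (G x)]
  have e1 : A.DD G' i j x =
      (A.DD id (A.idx (G x)) j (G' x)).comp (A.DD G' i (A.idx (G x)) x) :=
    DD_comp (g := id) (h := G') hid.dif hG'.dif hi gl' hj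
  have e2 : A.DD G' i (A.idx (G x)) x =
      (A.DD G' (A.idx x) (A.idx (G x)) x).comp (A.DD id i (A.idx x) x) :=
    DD_comp (g := G') (h := id) hG'.dif hid.dif hi gk gl'
  have n1 := hid.norm_DD_le _ _ _ gl' hj
  have n2 := hid.norm_DD_le _ _ _ hi gk
  have n3 : ‖A.DD G' (A.idx x) (A.idx (G x)) x‖ ≤ a + 1 := by
    have s1 := H G' G hG' hG (fun y => (hd y).trans (min_le_left _ _)) _ _ x gk gl' gl
    have s2 := norm_sub_norm_le (A.DD G' (A.idx x) (A.idx (G x)) x)
      (A.DD G (A.idx x) (A.idx (G x)) x)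
    have s3 : ‖A.DD G (A.idx x) (A.idx (G x)) x‖ ≤ a := ha x
    linarith
  have n4 := (ContinuousLinearMap.opNorm_comp_le _ _).trans
    (mul_le_mul n3 n2 (norm_nonneg _) ((norm_nonneg _).trans n3))
  rw [e1, e2]
  refine (ContinuousLinearMap.opNorm_comp_le _ _).trans
    ((mul_le_mul n1 n4 (norm_nonneg _) hB0).trans (le_of_eq ?_))
  ring

end Atlas

end Pool.Agent.Lib.MP_901be3_an.Hd
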