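import Pool.Agent.Lib.MP_901be3_an.Hd.Defs

namespace Pool.Agent.Lib.MP_901be3_an.Hd

open MeasureTheory Filter Topology Metric Set
open scoped ENNReal

variable {F : Type} [NormedAddCommGroup F] [NormedSpace ℝ F] {α : ℝ} {n : ℕ}

namespace CcBasicAux

omit [NormedSpace ℝ F] in
theorem hol_mono {B B' : ℝ} {u : ℝ → F} {I : Set ℝ} (h : Hol α B u I) (hB : B ≤ B') :
    Hol α B' u I :=
  ⟨fun x hx => (h.1 x hx).trans hB, fun x hx y hy => (h.2 x hx y hy).trans
    (mul_le_mul_of_nonneg_right hB (Real.rpow_nonneg (norm_nonneg _) _))⟩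

omit [NormedSpace ℝ F] in
theorem hol_congr {B : ℝ} {u u' : ℝ → F} {I : Set ℝ} (h : Hol α B u I) (he : EqOn u' u I) :
    Hol α B u' I :=
  ⟨fun x hx => by rw [he hx]; exact h.1 x hx, fun x hx y hy => by
    rw [he hx, he hy]; exact h.2 x hx y hy⟩

omit [NormedAddCommGroup F] [NormedSpace ℝ F] in
theorem evEq {u u' : ℝ → F} {I : Set ℝ} (hI : IsOpen I) (he : EqOn u' u I) {x : ℝ} (hx : x ∈ I) :
    u' =ᶠ[𝓝 x] u := by
  filter_upwards [hI.mem_nhds hx] with y hy using he hy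

theorem zero_mem : (0 : ℝ) ∈ II := ⟨by norm_num, by norm_num⟩

omit [NormedSpace ℝ F] in
theorem hol_nonneg {B : ℝ} {u : ℝ → F} {I : Set ℝ} (h : Hol α B u I) {x : ℝ} (hx : x ∈ I) :
    0 ≤ B := (norm_nonneg _).trans (h.1 x hx)

theorem mem_II {s μ τ : ℝ} (hμ : μ ≠ 0) (hs : |s| + |μ| ≤ 1) (hτ : τ ∈ II) : s + μ * τ ∈ II := by
  have h1 : |τ| < 1 := abs_lt.2 ⟨hτ.1, hτ.2⟩
  have h2 : |μ * τ| < |μ| := by
    rw [abs_mul]
    exact mul_lt_of_lt_one_right (abs_pos.2 hμ) h1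
  have h3 : |s + μ * τ| < 1 := (abs_add_le _ _).trans_lt (by linarith)
  exact ⟨(abs_lt.1 h3).1, (abs_lt.1 h3).2⟩

theorem norm_diff (s μ x y : ℝ) (α : ℝ) :
    ‖s + μ * x - (s + μ * y)‖ ^ α = |μ| ^ α * ‖x - y‖ ^ α := by
  have : s + μ * x - (s + μ * y) = μ * (x - y) := by ring
  rw [this, norm_mul, Real.mul_rpow (norm_nonneg _) (norm_nonneg _), Real.norm_eq_abs]

theorem drp {c : ℝ → F} {s μ τ : ℝ} (h : DifferentiableAt ℝ c (s + μ * τ)) :
    HasDerivAt (rp c s μ) (μ • deriv c (s + μ * τ)) τ := by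
  have a1 : HasDerivAt (fun t : ℝ => s + μ * t) μ τ := by
    simpa using ((hasDerivAt_id τ).const_mul μ).const_add s
  exact h.hasDerivAt.scomp τ a1

theorem topH_congr {H : ℝ} {u u' : ℝ → F} {I : Set ℝ} (h : TopH α n H u I) (hI : IsOpen I)
    (he : EqOn u' u I) : TopH α n H u' I := by
  induction n generalizing u u' with
  | zero =>
    intro x hx y hy
    rw [he hx, he hy]; exact h x hx y hy
  | succ n ih =>
    exact ⟨fun x hx => (h.1 x hx).congr_of_eventuallyEq (evEq hI he hx),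
      ih h.2 fun x hx => (evEq hI he hx).deriv_eq⟩

theorem topH_scale {H : ℝ} {u : ℝ → F} (h : TopH α n H u II) {s μ : ℝ}
    (hμ : 0 < μ) (hs : |s| + μ ≤ 1) {c : ℝ} (hc : 0 ≤ c) :
    TopH α n (c * H * μ ^ ((n : ℝ) + α)) (fun τ => c • u (s + μ * τ)) II := by
  have hs' : |s| + |μ| ≤ 1 := by rwa [abs_of_pos hμ]
  induction n generalizing u c with
  | zero =>
    intro x hx y hy
    have h1 := h _ (mem_II hμ.ne' hs' hx) _ (mem_II hμ.ne' hs' hy)
    have h2 := norm_diff s μ x y α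
    rw [Real.norm_eq_abs, Real.norm_eq_abs, abs_of_pos hμ] at h2
    rw [h2] at h1
    show ‖c • u (s + μ * x) - c • u (s + μ * y)‖ ≤ _
    rw [← smul_sub, norm_smul, Real.norm_eq_abs, abs_of_nonneg hc, Nat.cast_zero, zero_add]
    calc c * ‖u (s + μ * x) - u (s + μ * y)‖ ≤ c * (H * (μ ^ α * |x - y| ^ α)) :=
          mul_le_mul_of_nonneg_left h1 hc
      _ = _ := by ring
  | succ n ih =>
    have hd : ∀ x ∈ II, HasDerivAt (fun τ => c • u (s + μ * τ))
        ((c * μ) • deriv u (s + μ * x)) x := fun x hx => by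
      have := (drp (h.1 _ (mem_II hμ.ne' hs' hx))).const_smul c
      rw [smul_smul] at this
      exact this
    refine ⟨fun x hx => (hd x hx).differentiableAt, ?_⟩
    have h1 := ih h.2 (c := c * μ) (by positivity)
    have h2 : c * μ * H * μ ^ ((n : ℝ) + α) = c * H * μ ^ (((n + 1 : ℕ) : ℝ) + α) := by
      have : ((n + 1 : ℕ) : ℝ) + α = 1 + ((n : ℝ) + α) := by push_cast; ring
      rw [this, Real.rpow_add hμ 1, Real.rpow_one]; ring
    rw [h2] at h1
    exact topH_congr h1 isOpen_Ioo fun x hx => (hd x hx).deriv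

theorem hol_bilin {G H : Type} [NormedAddCommGroup G] [NormedSpace ℝ G] [NormedAddCommGroup H]
    [NormedSpace ℝ H] {B B' : ℝ} {u : ℝ → F} {u' : ℝ → G} {I : Set ℝ} (h : Hol α B u I)
    (h' : Hol α B' u' I) (T : F →L[ℝ] G →L[ℝ] H) (k : ℕ) :
    Hol α (2 ^ (k + 1) * ‖T‖ * B * B') (fun s => T (u s) (u' s)) I := by
  have hT : 0 ≤ ‖T‖ := T.opNorm_nonneg
  have hk : (2 : ℝ) ≤ 2 ^ (k + 1) := by
    rw [pow_succ]
    have : (1 : ℝ) ≤ 2 ^ k := one_le_pow₀ (by norm_num)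
    linarith
  constructor
  · intro x hx
    have hB := hol_nonneg h hx
    have hB' := hol_nonneg h' hx
    have h1 : ‖T (u x) (u' x)‖ ≤ ‖T‖ * B * B' :=
      (T.le_opNorm₂ _ _).trans (mul_le_mul (mul_le_mul_of_nonneg_left (h.1 x hx) hT)
        (h'.1 x hx) (norm_nonneg _) (by positivity))
    have h2 : 0 ≤ ‖T‖ * B * B' := by positivity
    calc ‖T (u x) (u' x)‖ ≤ 2 * (‖T‖ * B * B') := by linarith
      _ ≤ 2 ^ (k + 1) * (‖T‖ * B * B') := mul_le_mul_of_nonneg_right hk h2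
      _ = _ := by ring
  · intro x hx y hy
    have hB := hol_nonneg h hx
    have hB' := hol_nonneg h' hx
    have hr : 0 ≤ ‖x - y‖ ^ α := Real.rpow_nonneg (norm_nonneg _) _
    have e : T (u x) (u' x) - T (u y) (u' y) = T (u x - u y) (u' x) + T (u y) (u' x - u' y) := by
      simp only [map_sub, sub_apply]; abel
    have h1 : ‖T (u x - u y) (u' x)‖ ≤ ‖T‖ * (B * ‖x - y‖ ^ α) * B' :=
      (T.le_opNorm₂ _ _).trans (mul_le_mul
        (mul_le_mul_of_nonneg_left (h.2 x hx y hy) hT)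
        (h'.1 x hx) (norm_nonneg _) (by positivity))
    have h2 : ‖T (u y) (u' x - u' y)‖ ≤ ‖T‖ * B * (B' * ‖x - y‖ ^ α) :=
      (T.le_opNorm₂ _ _).trans (mul_le_mul
        (mul_le_mul_of_nonneg_left (h.1 y hy) hT)
        (h'.2 x hx y hy) (norm_nonneg _) (by positivity))
    have h3 : 0 ≤ ‖T‖ * B * B' * ‖x - y‖ ^ α := by positivity
    show ‖T (u x) (u' x) - T (u y) (u' y)‖ ≤ _
    rw [e]
    calc ‖T (u x - u y) (u' x) + T (u y) (u' x - u' y)‖
        ≤ 2 * (‖T‖ * B * B' * ‖x - y‖ ^ α) := by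
          have := norm_add_le (T (u x - u y) (u' x)) (T (u y) (u' x - u' y))
          linarith
      _ ≤ 2 ^ (k + 1) * (‖T‖ * B * B' * ‖x - y‖ ^ α) := mul_le_mul_of_nonneg_right hk h3
      _ = _ := by ring

theorem hol_clm {G : Type} [NormedAddCommGroup G] [NormedSpace ℝ G] {B : ℝ} {u : ℝ → F}
    {I : Set ℝ} (h : Hol α B u I) (T : F →L[ℝ] G) : Hol α (‖T‖ * B) (fun s => T (u s)) I :=
  ⟨fun x hx => (T.le_opNorm _).trans (mul_le_mul_of_nonneg_left (h.1 x hx) (norm_nonneg _)),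
    fun x hx y hy => by
      show ‖T (u x) - T (u y)‖ ≤ _
      rw [← map_sub, mul_assoc]
      exact (T.le_opNorm _).trans (mul_le_mul_of_nonneg_left (h.2 x hx y hy) (norm_nonneg _))⟩

theorem hol_smul {B : ℝ} {u : ℝ → F} {I : Set ℝ} (h : Hol α B u I) (c : ℝ) :
    Hol α (|c| * B) (fun s => c • u s) I :=
  ⟨fun x hx => by
      show ‖c • u x‖ ≤ _
      rw [norm_smul, Real.norm_eq_abs]
      exact mul_le_mul_of_nonneg_left (h.1 x hx) (abs_nonneg _),
    fun x hx y hy => by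
      show ‖c • u x - c • u y‖ ≤ _
      rw [← smul_sub, norm_smul, Real.norm_eq_abs, mul_assoc]
      exact mul_le_mul_of_nonneg_left (h.2 x hx y hy) (abs_nonneg _)⟩

omit [NormedSpace ℝ F] in
theorem hol_add {B B' : ℝ} {u u' : ℝ → F} {I : Set ℝ} (h : Hol α B u I) (h' : Hol α B' u' I) :
    Hol α (B + B') (fun s => u s + u' s) I :=
  ⟨fun x hx => (norm_add_le _ _).trans (add_le_add (h.1 x hx) (h'.1 x hx)),
    fun x hx y hy => by
      show ‖u x + u' x - (u y + u' y)‖ ≤ _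
      rw [add_sub_add_comm, add_mul]
      exact (norm_add_le _ _).trans (add_le_add (h.2 x hx y hy) (h'.2 x hx y hy))⟩

omit [NormedSpace ℝ F] in
theorem hol_const {B : ℝ} (c : F) (hc : ‖c‖ ≤ B) (I : Set ℝ) : Hol α B (fun _ : ℝ => c) I :=
  ⟨fun _ _ => hc, fun x _ y _ => by
    rw [sub_self, norm_zero]
    exact mul_nonneg ((norm_nonneg _).trans hc) (Real.rpow_nonneg (norm_nonneg _) _)⟩

omit [NormedSpace ℝ F] in
theorem hol_repar (hα : 0 < α) {B : ℝ} {u : ℝ → F} (h : Hol α B u II) {s μ : ℝ} (hμ : μ ≠ 0)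
    (hs : |s| + |μ| ≤ 1) : Hol α B (rp u s μ) II := by
  refine ⟨fun x hx => h.1 _ (mem_II hμ hs hx), fun x hx y hy => ?_⟩
  have h1 := h.2 _ (mem_II hμ hs hx) _ (mem_II hμ hs hy)
  rw [norm_diff] at h1
  have h2 : |μ| ^ α ≤ 1 :=
    Real.rpow_le_one (abs_nonneg _) (by linarith [abs_nonneg s]) hα.le
  exact h1.trans (mul_le_mul_of_nonneg_left
    (mul_le_of_le_one_left (Real.rpow_nonneg (norm_nonneg _) _) h2) (hol_nonneg h zero_mem))

omit [NormedSpace ℝ F] in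
theorem hol_repar_zero (hα : 0 < α) {B : ℝ} {u : ℝ → F} (h : Hol α B u II) (h0 : u 0 = 0)
    {μ : ℝ} (hμ0 : μ ≠ 0) (hμ : |μ| ≤ 1) : Hol α (|μ| ^ α * B) (rp u 0 μ) II := by
  have hs : |(0 : ℝ)| + |μ| ≤ 1 := by simpa using hμ
  have hB := hol_nonneg h zero_mem
  have key : ∀ x ∈ II, ∀ y ∈ II, ‖rp u 0 μ x - rp u 0 μ y‖ ≤ |μ| ^ α * B * ‖x - y‖ ^ α := by
    intro x hx y hy
    have h1 := h.2 _ (mem_II hμ0 hs hx) _ (mem_II hμ0 hs hy)
    rw [norm_diff] at h1
    exact h1.trans (le_of_eq (by ring))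
  refine ⟨fun x hx => ?_, key⟩
  have h1 := key x hx 0 zero_mem
  have h2 : rp u 0 μ 0 = 0 := by simp [rp, h0]
  rw [h2, sub_zero, sub_zero] at h1
  have h3 : ‖x‖ ^ α ≤ 1 :=
    Real.rpow_le_one (norm_nonneg _) (abs_lt.2 ⟨hx.1, hx.2⟩).le hα.le
  exact h1.trans (mul_le_of_le_one_right
    (mul_nonneg (Real.rpow_nonneg (abs_nonneg _) _) hB) h3)

end CcBasicAux

open CcBasicAux

theorem Cc.hol {B : ℝ} {u : ℝ → F} {I : Set ℝ} (h : Cc α n B u I) : Hol α B u I := by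
  cases n with
  | zero => exact h
  | succ n => exact h.1

theorem Cc.mono_B {B B' : ℝ} {u : ℝ → F} {I : Set ℝ} (h : Cc α n B u I) (hB : B ≤ B') :
    Cc α n B' u I := by
  induction n generalizing u with
  | zero => exact hol_mono h hB
  | succ n ih => exact ⟨hol_mono h.1 hB, h.2.1, ih h.2.2⟩

theorem Cc.congr {B : ℝ} {u u' : ℝ → F} {I : Set ℝ} (h : Cc α n B u I) (hI : IsOpen I)
    (he : EqOn u' u I) : Cc α n B u' I := by
  induction n generalizing u u' with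
  | zero => exact hol_congr h he
  | succ n ih =>
    exact ⟨hol_congr h.1 he, fun x hx => (h.2.1 x hx).congr_of_eventuallyEq (evEq hI he hx),
      ih h.2.2 fun x hx => (evEq hI he hx).deriv_eq⟩

theorem Cc.of_succ {B : ℝ} {u : ℝ → F} {I : Set ℝ} (h : Cc α (n + 1) B u I) :
    Cc α n B u I := by
  induction n generalizing u with
  | zero => exact h.1
  | succ n ih => exact ⟨h.1, h.2.1, ih h.2.2⟩

theorem Cc.add {B B' : ℝ} {u u' : ℝ → F} {I : Set ℝ} (h : Cc α n B u I) (h' : Cc α n B' u' I)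
    (hI : IsOpen I) : Cc α n (B + B') (fun s => u s + u' s) I := by
  induction n generalizing u u' with
  | zero => exact hol_add h h'
  | succ n ih =>
    refine ⟨hol_add h.1 h'.1, fun x hx => (h.2.1 x hx).add (h'.2.1 x hx), ?_⟩
    exact (ih h.2.2 h'.2.2).congr hI fun x hx =>
      ((h.2.1 x hx).hasDerivAt.add (h'.2.1 x hx).hasDerivAt).deriv

theorem Cc.clm {G : Type} [NormedAddCommGroup G] [NormedSpace ℝ G] {B : ℝ} {u : ℝ → F}
    {I : Set ℝ} (h : Cc α n B u I) (hI : IsOpen I) (T : F →L[ℝ] G) :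
    Cc α n (‖T‖ * B) (fun s => T (u s)) I := by
  induction n generalizing u with
  | zero => exact hol_clm h T
  | succ n ih =>
    have hd : ∀ x ∈ I, HasDerivAt (fun s => T (u s)) (T (deriv u x)) x := fun x hx =>
      T.hasFDerivAt.comp_hasDerivAt x (h.2.1 x hx).hasDerivAt
    exact ⟨hol_clm h.1 T, fun x hx => (hd x hx).differentiableAt,
      (ih h.2.2).congr hI fun x hx => (hd x hx).deriv⟩

theorem Cc.smul {B : ℝ} {u : ℝ → F} {I : Set ℝ} (h : Cc α n B u I) (hI : IsOpen I) (c : ℝ) :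
    Cc α n (|c| * B) (fun s => c • u s) I := by
  induction n generalizing u with
  | zero => exact hol_smul h c
  | succ n ih =>
    have hd : ∀ x ∈ I, HasDerivAt (fun s => c • u s) (c • deriv u x) x := fun x hx =>
      (h.2.1 x hx).hasDerivAt.const_smul c
    exact ⟨hol_smul h.1 c, fun x hx => (hd x hx).differentiableAt,
      (ih h.2.2).congr hI fun x hx => (hd x hx).deriv⟩

theorem Cc.const {B : ℝ} (c : F) (hc : ‖c‖ ≤ B) (I : Set ℝ) : Cc α n B (fun _ => c) I := by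
  induction n generalizing c with
  | zero => exact hol_const c hc I
  | succ n ih =>
    refine ⟨hol_const c hc I, fun x _ => differentiableAt_const c, ?_⟩
    rw [deriv_const']
    exact ih 0 (by rw [norm_zero]; exact (norm_nonneg _).trans hc)

theorem Cc.bilin {G H : Type} [NormedAddCommGroup G] [NormedSpace ℝ G] [NormedAddCommGroup H]
    [NormedSpace ℝ H] {B B' : ℝ} {u : ℝ → F} {u' : ℝ → G} {I : Set ℝ} (h : Cc α n B u I)
    (h' : Cc α n B' u' I) (hI : IsOpen I) (T : F →L[ℝ] G →L[ℝ] H) :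
    Cc α n (2 ^ (n + 1) * ‖T‖ * B * B') (fun s => T (u s) (u' s)) I := by
  induction n generalizing u u' with
  | zero => exact hol_bilin h h' T 0
  | succ n ih =>
    have hd : ∀ x ∈ I, HasDerivAt (fun s => T (u s) (u' s))
        (T (deriv u x) (u' x) + T (u x) (deriv u' x)) x := fun x hx =>
      (T.hasFDerivAt.comp_hasDerivAt x (h.2.1 x hx).hasDerivAt).clm_apply
        (h'.2.1 x hx).hasDerivAt
    refine ⟨hol_bilin h.1 h'.1 T (n + 1), fun x hx => (hd x hx).differentiableAt, ?_⟩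
    have h1 := (ih h.2.2 h'.of_succ).add (ih h.of_succ h'.2.2) hI
    have e : 2 ^ (n + 1) * ‖T‖ * B * B' + 2 ^ (n + 1) * ‖T‖ * B * B' =
        2 ^ (n + 1 + 1) * ‖T‖ * B * B' := by ring
    rw [e] at h1
    exact h1.congr hI fun x hx => (hd x hx).deriv

theorem Cc.repar (hα : 0 < α) {B : ℝ} {u : ℝ → F} (h : Cc α n B u II) {s μ : ℝ} (hμ : μ ≠ 0)
    (hs : |s| + |μ| ≤ 1) : Cc α n B (rp u s μ) II := by
  induction n generalizing u with
  | zero => exact hol_repar hα h hμ hs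
  | succ n ih =>
    have hd : ∀ x ∈ II, HasDerivAt (rp u s μ) (μ • deriv u (s + μ * x)) x := fun x hx =>
      drp (h.2.1 _ (mem_II hμ hs hx))
    refine ⟨hol_repar hα h.1 hμ hs, fun x hx => (hd x hx).differentiableAt, ?_⟩
    have h1 := ((ih h.2.2).smul isOpen_Ioo μ).mono_B (B' := B)
      (mul_le_of_le_one_left (hol_nonneg h.1 zero_mem) (by linarith [abs_nonneg s]))
    exact h1.congr isOpen_Ioo fun x hx => (hd x hx).deriv

/-- gain for curves vanishing at the origin -/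
theorem Cc.repar_zero (hα : 0 < α) (hα1 : α ≤ 1) {B : ℝ} {u : ℝ → F} (h : Cc α n B u II)
    (h0 : u 0 = 0) {μ : ℝ} (hμ0 : μ ≠ 0) (hμ : |μ| ≤ 1) :
    Cc α n (|μ| ^ α * B) (rp u 0 μ) II := by
  have hs : |(0 : ℝ)| + |μ| ≤ 1 := by simpa using hμ
  cases n with
  | zero => exact hol_repar_zero hα h h0 hμ0 hμ
  | succ n =>
    have hd : ∀ x ∈ II, HasDerivAt (rp u 0 μ) (μ • deriv u (0 + μ * x)) x := fun x hx =>
      drp (h.2.1 _ (mem_II hμ0 hs hx))
    refine ⟨hol_repar_zero hα h.1 h0 hμ0 hμ, fun x hx => (hd x hx).differentiableAt, ?_⟩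
    have h2 : |μ| ≤ |μ| ^ α := by
      have := Real.rpow_le_rpow_of_exponent_ge (abs_pos.2 hμ0) hμ hα1
      rwa [Real.rpow_one] at this
    have h1 := ((h.2.2.repar hα hμ0 hs).smul isOpen_Ioo μ).mono_B (B' := |μ| ^ α * B)
      (mul_le_mul_of_nonneg_right h2 (hol_nonneg h.1 zero_mem))
    exact h1.congr isOpen_Ioo fun x hx => (hd x hx).deriv

theorem Cc.topH {B : ℝ} {u : ℝ → F} {I : Set ℝ} (h : Cc α n B u I) : TopH α n B u I := by
  induction n generalizing u with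
  | zero => exact fun x hx y hy => h.2 x hx y hy
  | succ n ih => exact ⟨h.2.1, ih h.2.2⟩

theorem TopH.mono {H H' : ℝ} {u : ℝ → F} {I : Set ℝ} (h : TopH α n H u I) (hH : H ≤ H') :
    TopH α n H' u I := by
  induction n generalizing u with
  | zero =>
    exact fun x hx y hy => (h x hx y hy).trans
      (mul_le_mul_of_nonneg_right hH (Real.rpow_nonneg (abs_nonneg _) _))
  | succ n ih => exact ⟨h.1, ih h.2⟩

theorem TopH.scale (hα : 0 < α) {H : ℝ} {u : ℝ → F} (h : TopH α n H u II) {s μ : ℝ}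
    (hμ : 0 < μ) (hs : |s| + μ ≤ 1) :
    TopH α n (H * μ ^ ((n : ℝ) + 1 + α)) (fun τ => μ • u (s + μ * τ)) II := by
  have h1 := topH_scale h hμ hs hμ.le
  have e : μ * H * μ ^ ((n : ℝ) + α) = H * μ ^ ((n : ℝ) + 1 + α) := by
    have : (n : ℝ) + 1 + α = 1 + ((n : ℝ) + α) := by ring
    rw [this, Real.rpow_add hμ 1, Real.rpow_one]; ring
  rwa [e] at h1

/-- derivative of a reparametrized curve -/
theorem deriv_rp {c : ℝ → F} {s μ τ : ℝ} (h : DifferentiableAt ℝ c (s + μ * τ)) :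
    DifferentiableAt ℝ (rp c s μ) τ ∧ deriv (rp c s μ) τ = μ • deriv c (s + μ * τ) := ⟨(drp h).differentiableAt, (drp h).deriv⟩

/-- mean value inequality on the parameter interval -/
theorem norm_sub_le_of_deriv {c : ℝ → F} {d : F} {B : ℝ}
    {a b : ℝ} (hc : ∀ τ ∈ Ioo a b, DifferentiableAt ℝ c τ ∧ ‖deriv c τ - d‖ ≤ B) :
    ∀ s ∈ Ioo a b, ∀ t ∈ Ioo a b, ‖c s - c t - (s - t) • d‖ ≤ B * |s - t| := by
  intro s hs t ht
  have h1 := Convex.norm_image_sub_le_of_norm_hasDerivWithin_le (f := fun τ => c τ - τ • d)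
    (f' := fun τ => deriv c τ - d) (s := Ioo a b) (C := B) (x := t) (y := s)
    (fun τ hτ => by
      have := (hc τ hτ).1.hasDerivAt.sub ((hasDerivAt_id τ).smul_const d)
      rw [one_smul] at this
      exact this.hasDerivWithinAt)
    (fun τ hτ => (hc τ hτ).2) (convex_Ioo a b) ht hs
  have e : c s - s • d - (c t - t • d) = c s - c t - (s - t) • d := by
    rw [sub_smul]; abel
  rw [← e]
  exact h1

end Pool.Agent.Lib.MP_901be3_an.Hd
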