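import Pool.Agent.Lib.MP_901be3_an.Hd.Defs

namespace Pool.Agent.Lib.MP_901be3_an.Hd

open MeasureTheory Filter Topology Metric Set
open scoped ENNReal

variable {E : Type} [NormedAddCommGroup E] [NormedSpace ℝ E] {α : ℝ}

namespace CrBasicAux

section

variable {F : Type} [NormedAddCommGroup F] {B B' : ℝ} {g g' : E → F} {U U' : Set E}

omit [NormedSpace ℝ E]

theorem hol_mono (h : Hol α B g U) (hB : B ≤ B') : Hol α B' g U :=
  ⟨fun x hx => (h.1 x hx).trans hB, fun x hx y hy => (h.2 x hx y hy).trans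
    (mul_le_mul_of_nonneg_right hB (Real.rpow_nonneg (norm_nonneg _) _))⟩

theorem hol_set (h : Hol α B g U) (hU : U' ⊆ U) : Hol α B g U' :=
  ⟨fun x hx => h.1 x (hU hx), fun x hx y hy => h.2 x (hU hx) y (hU hy)⟩

theorem hol_congr (h : Hol α B g U) (he : EqOn g' g U) : Hol α B g' U :=
  ⟨fun x hx => by rw [he hx]; exact h.1 x hx,
    fun x hx y hy => by rw [he hx, he hy]; exact h.2 x hx y hy⟩

theorem hol_add (h : Hol α B g U) (h' : Hol α B' g' U) :
    Hol α (B + B') (fun x => g x + g' x) U := by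
  refine ⟨fun x hx => (norm_add_le _ _).trans (add_le_add (h.1 x hx) (h'.1 x hx)),
    fun x hx y hy => ?_⟩
  rw [add_sub_add_comm, add_mul]
  exact (norm_add_le _ _).trans (add_le_add (h.2 x hx y hy) (h'.2 x hx y hy))

theorem hol_nonneg (h : Hol α B g U) {x : E} (hx : x ∈ U) : 0 ≤ B :=
  (norm_nonneg _).trans (h.1 x hx)

theorem hol_clm [NormedSpace ℝ F] {G : Type} [NormedAddCommGroup G] [NormedSpace ℝ G]
    (h : Hol α B g U) (T : F →L[ℝ] G) : Hol α (‖T‖ * B) (fun x => T (g x)) U := by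
  refine ⟨fun x hx => (T.le_opNorm _).trans
    (mul_le_mul_of_nonneg_left (h.1 x hx) (norm_nonneg _)), fun x hx y hy => ?_⟩
  rw [← map_sub, mul_assoc]
  exact (T.le_opNorm _).trans (mul_le_mul_of_nonneg_left (h.2 x hx y hy) (norm_nonneg _))

theorem hol_const (c : F) (hc : ‖c‖ ≤ B) (U : Set E) : Hol α B (fun _ : E => c) U := by
  refine ⟨fun _ _ => hc, fun x _ y _ => ?_⟩
  rw [sub_self, norm_zero]
  exact mul_nonneg ((norm_nonneg _).trans hc) (Real.rpow_nonneg (norm_nonneg _) _)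

theorem hol_bilin [NormedSpace ℝ F] {G H : Type} [NormedAddCommGroup G] [NormedSpace ℝ G]
    [NormedAddCommGroup H] [NormedSpace ℝ H] {k : E → G} (h : Hol α B g U) (h' : Hol α B' k U)
    (T : F →L[ℝ] G →L[ℝ] H) : Hol α (2 * ‖T‖ * B * B') (fun x => T (g x) (k x)) U := by
  have hT := norm_nonneg T
  refine ⟨fun x hx => ?_, fun x hx y hy => ?_⟩
  · have hB := hol_nonneg h hx
    have hB' := hol_nonneg h' hx
    have h1 : ‖T (g x) (k x)‖ ≤ ‖T‖ * B * B' := (T.le_opNorm₂ _ _).trans (by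
      gcongr
      exacts [h.1 x hx, h'.1 x hx])
    have h2 : 0 ≤ ‖T‖ * B * B' := by positivity
    linarith
  · have hB := hol_nonneg h hx
    have hB' := hol_nonneg h' hx
    have hr : 0 ≤ ‖x - y‖ ^ α := Real.rpow_nonneg (norm_nonneg _) _
    have e : T (g x) (k x) - T (g y) (k y) = T (g x - g y) (k x) + T (g y) (k x - k y) := by
      rw [map_sub, map_sub, sub_apply]
      abel
    have h1 : ‖T (g x - g y) (k x)‖ ≤ ‖T‖ * (B * ‖x - y‖ ^ α) * B' :=
      (T.le_opNorm₂ _ _).trans (by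
        gcongr
        exacts [h.2 x hx y hy, h'.1 x hx])
    have h2 : ‖T (g y) (k x - k y)‖ ≤ ‖T‖ * B * (B' * ‖x - y‖ ^ α) :=
      (T.le_opNorm₂ _ _).trans (by
        gcongr
        exacts [h.1 y hy, h'.2 x hx y hy])
    rw [e]
    refine (norm_add_le _ _).trans ((add_le_add h1 h2).trans (le_of_eq ?_))
    ring

end

theorem cr_empty {n : ℕ} {F : Type} [NormedAddCommGroup F] [NormedSpace ℝ F] (B : ℝ) (g : E → F) :
    Cr α n B g ∅ := by
  induction n generalizing F with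
  | zero => exact ⟨fun _ h => h.elim, fun _ h => h.elim⟩
  | succ n ih => exact ⟨⟨fun _ h => h.elim, fun _ h => h.elim⟩, fun _ h => h.elim, ih _⟩

end CrBasicAux

open CrBasicAux

theorem Cr.hol {n : ℕ} {F : Type} [NormedAddCommGroup F] [NormedSpace ℝ F] {B : ℝ} {g : E → F}
    {U : Set E} (h : Cr α n B g U) : Hol α B g U := by
  cases n with
  | zero => exact h
  | succ n => exact h.1

theorem Cr.mono_B {n : ℕ} {F : Type} [NormedAddCommGroup F] [NormedSpace ℝ F] {B B' : ℝ}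
    {g : E → F} {U : Set E} (h : Cr α n B g U) (hB : B ≤ B') : Cr α n B' g U := by
  induction n generalizing F with
  | zero => exact hol_mono h hB
  | succ n ih => exact ⟨hol_mono h.1 hB, h.2.1, ih h.2.2⟩

theorem Cr.mono_set {n : ℕ} {F : Type} [NormedAddCommGroup F] [NormedSpace ℝ F] {B : ℝ}
    {g : E → F} {U U' : Set E} (h : Cr α n B g U) (hU : U' ⊆ U) : Cr α n B g U' := by
  induction n generalizing F with
  | zero => exact hol_set h hU
  | succ n ih => exact ⟨hol_set h.1 hU, fun x hx => h.2.1 x (hU hx), ih h.2.2⟩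

theorem Cr.congr {n : ℕ} {F : Type} [NormedAddCommGroup F] [NormedSpace ℝ F] {B : ℝ}
    {g g' : E → F} {U : Set E} (h : Cr α n B g U) (hU : IsOpen U) (he : EqOn g' g U) :
    Cr α n B g' U := by
  induction n generalizing F with
  | zero => exact hol_congr h he
  | succ n ih =>
    have h1 : ∀ x ∈ U, g' =ᶠ[𝓝 x] g := fun x hx => he.eventuallyEq_of_mem (hU.mem_nhds hx)
    exact ⟨hol_congr h.1 he, fun x hx => (h.2.1 x hx).congr_of_eventuallyEq (h1 x hx),
      ih h.2.2 fun x hx => (h1 x hx).fderiv_eq⟩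

theorem Cr.of_succ {n : ℕ} {F : Type} [NormedAddCommGroup F] [NormedSpace ℝ F] {B : ℝ}
    {g : E → F} {U : Set E} (h : Cr α (n + 1) B g U) : Cr α n B g U := by
  induction n generalizing F with
  | zero => exact h.1
  | succ n ih => exact ⟨h.1, h.2.1, ih h.2.2⟩

theorem Cr.add {n : ℕ} {F : Type} [NormedAddCommGroup F] [NormedSpace ℝ F] {B B' : ℝ}
    {g g' : E → F} {U : Set E} (h : Cr α n B g U) (h' : Cr α n B' g' U) (hU : IsOpen U) :
    Cr α n (B + B') (fun x => g x + g' x) U := by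
  induction n generalizing F with
  | zero => exact hol_add h h'
  | succ n ih =>
    exact ⟨hol_add h.1 h'.1, fun x hx => (h.2.1 x hx).add (h'.2.1 x hx),
      (ih h.2.2 h'.2.2).congr hU fun x hx => fderiv_fun_add (h.2.1 x hx) (h'.2.1 x hx)⟩

theorem Cr.clm {n : ℕ} {F G : Type} [NormedAddCommGroup F] [NormedSpace ℝ F]
    [NormedAddCommGroup G] [NormedSpace ℝ G] {B : ℝ} {g : E → F} {U : Set E}
    (h : Cr α n B g U) (hU : IsOpen U) (T : F →L[ℝ] G) :
    Cr α n (‖T‖ * B) (fun x => T (g x)) U := by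
  induction n generalizing F G with
  | zero => exact hol_clm h T
  | succ n ih =>
    rcases U.eq_empty_or_nonempty with rfl | ⟨x₀, hx₀⟩
    · exact cr_empty _ _
    have hB := hol_nonneg h.1 hx₀
    have h1 : ‖ContinuousLinearMap.compL ℝ E F G T‖ ≤ ‖T‖ :=
      ContinuousLinearMap.opNorm_le_bound _ (norm_nonneg _) fun S => T.opNorm_comp_le S
    refine ⟨hol_clm h.1 T, fun x hx => T.differentiableAt.comp x (h.2.1 x hx),
      ((ih h.2.2 (ContinuousLinearMap.compL ℝ E F G T)).mono_B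
        (mul_le_mul_of_nonneg_right h1 hB)).congr hU fun x hx => ?_⟩
    exact (T.hasFDerivAt.comp x (h.2.1 x hx).hasFDerivAt).fderiv

theorem Cr.const {n : ℕ} {F : Type} [NormedAddCommGroup F] [NormedSpace ℝ F] {B : ℝ} (c : F)
    (hc : ‖c‖ ≤ B) (U : Set E) : Cr α n B (fun _ : E => c) U := by
  induction n generalizing F with
  | zero => exact hol_const c hc U
  | succ n ih =>
    refine ⟨hol_const c hc U, fun x _ => differentiableAt_const c, ?_⟩
    have e : fderiv ℝ (fun _ : E => c) = fun _ => 0 := funext fun x => fderiv_const_apply c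
    rw [e]
    exact ih 0 (by rw [norm_zero]; exact (norm_nonneg _).trans hc)

theorem Cr.bilin {n : ℕ} {F G H : Type} [NormedAddCommGroup F] [NormedSpace ℝ F]
    [NormedAddCommGroup G] [NormedSpace ℝ G] [NormedAddCommGroup H] [NormedSpace ℝ H]
    {B B' : ℝ} {g : E → F} {g' : E → G} {U : Set E} (h : Cr α n B g U) (h' : Cr α n B' g' U)
    (hU : IsOpen U) (T : F →L[ℝ] G →L[ℝ] H) :
    Cr α n (2 ^ (n + 1) * ‖T‖ * B * B') (fun x => T (g x) (g' x)) U := by
  induction n generalizing F G H with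
  | zero =>
    rw [zero_add, pow_one]
    exact hol_bilin h h' T
  | succ n ih =>
    rcases U.eq_empty_or_nonempty with rfl | ⟨x₀, hx₀⟩
    · exact cr_empty _ _
    have hB := hol_nonneg h.1 hx₀
    have hB' := hol_nonneg h'.1 hx₀
    have hT := norm_nonneg T
    have h2 : (2 : ℝ) ≤ 2 ^ (n + 1 + 1) := le_self_pow₀ one_le_two (Nat.succ_ne_zero _)
    have hd := fun x hx => T.hasFDerivAt_of_bilinear (h.2.1 x hx).hasFDerivAt
      (h'.2.1 x hx).hasFDerivAt
    refine ⟨hol_mono (hol_bilin h.1 h'.1 T) (by gcongr), fun x hx => (hd x hx).differentiableAt,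
      (((ih h.of_succ h'.2.2 (T.precompR E)).add (ih h.2.2 h'.of_succ (T.precompL E)) hU).mono_B
        ?_).congr hU fun x hx => (hd x hx).fderiv⟩
    have a1 := T.norm_precompR_le E
    have a2 := T.norm_precompL_le E
    calc _ ≤ 2 ^ (n + 1) * ‖T‖ * B * B' + 2 ^ (n + 1) * ‖T‖ * B * B' := by gcongr
      _ = _ := by ring

theorem Cr.lip {n : ℕ} {F : Type} [NormedAddCommGroup F] [NormedSpace ℝ F] {B : ℝ}
    {g : E → F} {U : Set E} (h : Cr α (n + 1) B g U) (hU : Convex ℝ U) :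
    ∀ x ∈ U, ∀ y ∈ U, ‖g x - g y‖ ≤ B * ‖x - y‖ :=
  fun _ hx _ hy => hU.norm_image_sub_le_of_norm_fderiv_le h.2.1 h.2.2.hol.1 hy hx

end Pool.Agent.Lib.MP_901be3_an.Hd
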