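import Pool.Agent.Lib.MP_901be3_an.Hd.CcBasic
import Pool.Agent.Lib.MP_901be3_an.Hd.CrBasic

namespace Pool.Agent.Lib.MP_901be3_an.Hd

open MeasureTheory Filter Topology Metric Set
open scoped ENNReal

namespace CcCompAux

theorem zero_mem : (0 : ℝ) ∈ II := by simp

theorem hol {α : ℝ} (hα : 0 < α) {F : Type} [NormedAddCommGroup F] {B ε : ℝ} (hB : 0 ≤ B)
    (hε : 0 < ε) {H : V → F} {U : Set V} {c : ℝ → V} (hH : Hol α B H U) (hc : MapsTo c II U)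
    (hd : ∀ τ ∈ II, DifferentiableAt ℝ c τ) (hb : ∀ τ ∈ II, ‖deriv c τ‖ ≤ ε) :
    Hol α (B * ε ^ α) (fun τ => H (c τ) - H (c 0)) II := by
  have key : ∀ s ∈ II, ∀ t ∈ II, ‖H (c s) - H (c t)‖ ≤ B * ε ^ α * ‖s - t‖ ^ α := by
    intro s hs t ht
    have h1 := norm_sub_le_of_deriv (c := c) (d := 0) (B := ε)
      (fun τ hτ => ⟨hd τ hτ, by simpa using hb τ hτ⟩) s hs t ht
    rw [smul_zero, sub_zero] at h1
    refine (hH.2 _ (hc hs) _ (hc ht)).trans ?_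
    rw [mul_assoc, ← Real.mul_rpow hε.le (norm_nonneg _)]
    exact mul_le_mul_of_nonneg_left (Real.rpow_le_rpow (norm_nonneg _) h1 hα.le) hB
  refine ⟨fun s hs => (key s hs 0 zero_mem).trans ?_, fun s hs t ht => ?_⟩
  · refine mul_le_of_le_one_right (by positivity) (Real.rpow_le_one (norm_nonneg _) ?_ hα.le)
    rw [sub_zero, Real.norm_eq_abs]
    exact abs_le.2 ⟨hs.1.le, hs.2.le⟩
  · simpa only [sub_sub_sub_cancel_right] using key s hs t ht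

theorem app {α : ℝ} {n : ℕ} {F : Type} [NormedAddCommGroup F] [NormedSpace ℝ F] {B B' : ℝ}
    (hB : 0 ≤ B) (hB' : 0 ≤ B') {u : ℝ → V →L[ℝ] F} {v : ℝ → V} (h : Cc α n B u II)
    (h' : Cc α n B' v II) : Cc α n (2 ^ (n + 1) * B * B') (fun s => u s (v s)) II := by
  refine (h.bilin h' isOpen_Ioo (ContinuousLinearMap.id ℝ (V →L[ℝ] F))).mono_B ?_
  have h1 : ‖ContinuousLinearMap.id ℝ (V →L[ℝ] F)‖ ≤ 1 := ContinuousLinearMap.norm_id_le
  calc _ ≤ 2 ^ (n + 1) * 1 * B * B' := by gcongr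
    _ = _ := by rw [mul_one]

theorem main {α : ℝ} (hα : 0 < α) (hα1 : α ≤ 1) {B : ℝ} (hB : 0 ≤ B) (n : ℕ) :
    ∃ C : ℝ, 0 ≤ C ∧ ∀ (F : Type) [NormedAddCommGroup F] [NormedSpace ℝ F] (ε : ℝ), 0 < ε →
      ε ≤ 1 → ∀ (H : V → F) (U : Set V) (c : ℝ → V), Cr α n B H U → MapsTo c II U →
      (∀ τ ∈ II, DifferentiableAt ℝ c τ) → Cc α n ε (deriv c) II →
      Cc α n (C * ε ^ α) (fun τ => H (c τ) - H (c 0)) II := by
  induction n with
  | zero => exact ⟨B, hB, fun F _ _ ε hε _ H U c hH hc hd hb => hol hα hB hε hH hc hd hb.1⟩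
  | succ n ih =>
    obtain ⟨C, hC, ih⟩ := ih
    refine ⟨B + 2 ^ (n + 1) * (C + B), by positivity, fun F _ _ ε hε hε1 H U c hH hc hd hb => ?_⟩
    have e0 : 0 < ε ^ α := Real.rpow_pos_of_pos hε α
    have e1 : ε ^ α ≤ 1 := Real.rpow_le_one hε.le hε1 hα.le
    have e2 : ε ≤ ε ^ α := Real.self_le_rpow_of_le_one hε.le hε1 hα1
    have h1 : Cc α 0 (B * ε ^ α) (fun τ => H (c τ) - H (c 0)) II :=
      hol hα hB hε hH.1 hc hd hb.1.1
    have h2 : ∀ τ ∈ II, HasDerivAt (fun τ => H (c τ) - H (c 0))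
        (fderiv ℝ H (c τ) (deriv c τ)) τ := fun τ hτ =>
      ((hH.2.1 _ (hc hτ)).hasFDerivAt.comp_hasDerivAt τ (hd τ hτ).hasDerivAt).sub_const _
    have h3 := (ih _ ε hε hε1 _ U c hH.2.2 hc hd hb.of_succ).add
      (Cc.const (fderiv ℝ H (c 0)) (hH.2.2.hol.1 _ (hc zero_mem)) II) isOpen_Ioo
    have h4 := app (by positivity) hε.le h3 hb.of_succ
    refine ⟨h1.mono_B ?_, fun τ hτ => (h2 τ hτ).differentiableAt,
      (h4.congr isOpen_Ioo fun τ hτ => ?_).mono_B ?_⟩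
    · exact mul_le_mul_of_nonneg_right (le_add_of_nonneg_right (by positivity)) e0.le
    · rw [(h2 τ hτ).deriv, sub_add_cancel]
    · calc 2 ^ (n + 1) * (C * ε ^ α + B) * ε ≤ 2 ^ (n + 1) * (C * 1 + B) * ε ^ α := by gcongr
        _ ≤ _ := by
          rw [mul_one]
          exact mul_le_mul_of_nonneg_right (le_add_of_nonneg_left hB) e0.le

end CcCompAux

/-- the image of a small curve is the image under the linear part up to a smaller error -/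
theorem Cc_comp {α : ℝ} (hα : 0 < α) (hα1 : α ≤ 1) (n : ℕ) (B ζ : ℝ) (hζ : 0 < ζ) :
    ∃ ε₀ > 0, ∀ ε : ℝ, 0 < ε → ε ≤ ε₀ → ∀ (G : V → V) (U : Set V) (c : ℝ → V),
      Cr α (n + 1) B G U → MapsTo c II U → (∀ τ ∈ II, DifferentiableAt ℝ c τ) →
      Cc α n ε (deriv c) II →
      (∀ τ ∈ II, DifferentiableAt ℝ (G ∘ c) τ) ∧
        Cc α n (ζ * ε) (fun τ => deriv (G ∘ c) τ - fderiv ℝ G (c 0) (deriv c τ)) II := by
  obtain ⟨C, hC, h⟩ := CcCompAux.main hα hα1 (le_max_right B 0) n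
  have hK : 0 < ζ / (2 ^ (n + 1) * (C + 1)) := by positivity
  refine ⟨min 1 ((ζ / (2 ^ (n + 1) * (C + 1))) ^ α⁻¹), lt_min one_pos (by positivity),
    fun ε hε hε0 G U c hG hc hd hb => ?_⟩
  have e1 : ε ^ α ≤ ζ / (2 ^ (n + 1) * (C + 1)) := by
    have h1 := Real.rpow_le_rpow hε.le (hε0.trans (min_le_right _ _)) hα.le
    rwa [Real.rpow_inv_rpow hK.le hα.ne'] at h1
  have h2 : ∀ τ ∈ II, HasDerivAt (G ∘ c) (fderiv ℝ G (c τ) (deriv c τ)) τ := fun τ hτ =>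
    (hG.2.1 _ (hc hτ)).hasFDerivAt.comp_hasDerivAt τ (hd τ hτ).hasDerivAt
  have h3 := h _ ε hε (hε0.trans (min_le_left _ _)) _ U c (hG.2.2.mono_B (le_max_left B 0)) hc hd hb
  have h4 := CcCompAux.app (by positivity) hε.le h3 hb
  refine ⟨fun τ hτ => (h2 τ hτ).differentiableAt,
    (h4.congr isOpen_Ioo fun τ hτ => ?_).mono_B (mul_le_mul_of_nonneg_right ?_ hε.le)⟩
  · simp only [(h2 τ hτ).deriv, sub_apply]
  · rw [le_div_iff₀ (by positivity)] at e1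
    refine le_trans ?_ e1
    calc 2 ^ (n + 1) * (C * ε ^ α) ≤ 2 ^ (n + 1) * ((C + 1) * ε ^ α) := by
          gcongr
          linarith
      _ = _ := by ring

end Pool.Agent.Lib.MP_901be3_an.Hd
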