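import Pool.Agent.Lib.MP_901be3_an.Hd.CcBasic

namespace Pool.Agent.Lib.MP_901be3_an.Hd

open MeasureTheory Filter Topology Metric Set
open scoped ENNReal

namespace CcLimAux

lemma hol_lim {α B : ℝ} {ι : Type*} (𝒰 : Ultrafilter ι) {u : ι → ℝ → V} {v : ℝ → V}
    (h : ∀ k, Hol α B (u k) II) (hv : ∀ s ∈ II, Tendsto (fun k => u k s) 𝒰 (𝓝 (v s))) :
    Hol α B v II :=
  ⟨fun s hs => le_of_tendsto' (hv s hs).norm fun k => (h k).1 s hs,
    fun s hs t ht => le_of_tendsto' ((hv s hs).sub (hv t ht)).norm fun k => (h k).2 s hs t ht⟩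

lemma taylor {α B : ℝ} (hα : 0 < α) {c : ℝ → V} (hd : ∀ s ∈ II, DifferentiableAt ℝ c s)
    (h : Hol α B (deriv c) II) {s t : ℝ} (hs : s ∈ II) (ht : t ∈ II) :
    ‖c t - c s - (t - s) • deriv c s‖ ≤ B * |t - s| ^ α * ‖t - s‖ := by
  have hB : 0 ≤ B := (norm_nonneg _).trans (h.1 s hs)
  have hsub : uIcc s t ⊆ II := ordConnected_Ioo.uIcc_subset hs ht
  have h1 := (convex_uIcc s t).norm_image_sub_le_of_norm_hasDerivWithin_le
    (f := fun τ => c τ - τ • deriv c s) (f' := fun τ => deriv c τ - deriv c s)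
    (C := B * |t - s| ^ α)
    (fun τ hτ => by
      have := (hd τ (hsub hτ)).hasDerivAt.sub ((hasDerivAt_id τ).smul_const (deriv c s))
      rw [one_smul] at this
      exact this.hasDerivWithinAt)
    (fun τ hτ => by
      refine (h.2 τ (hsub hτ) s hs).trans (mul_le_mul_of_nonneg_left ?_ hB)
      exact Real.rpow_le_rpow (norm_nonneg _) (abs_sub_left_of_mem_uIcc hτ) hα.le)
    left_mem_uIcc right_mem_uIcc
  have e : c t - c s - (t - s) • deriv c s = c t - t • deriv c s - (c s - s • deriv c s) := by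
    rw [sub_smul]
    abel
  rw [e]
  exact h1

lemma deriv_lim {α B : ℝ} (hα : 0 < α) {ι : Type*} (𝒰 : Ultrafilter ι)
    {c : ι → ℝ → V} {v : ℝ → V} (hd : ∀ k, ∀ s ∈ II, DifferentiableAt ℝ (c k) s)
    (h : ∀ k, Hol α B (deriv (c k)) II)
    (hv : ∀ s ∈ II, Tendsto (fun k => c k s) 𝒰 (𝓝 (v s))) (s : ℝ) (hs : s ∈ II) :
    DifferentiableAt ℝ v s ∧ Tendsto (fun k => deriv (c k) s) 𝒰 (𝓝 (deriv v s)) := by
  obtain ⟨d, -, hdl⟩ := (isCompact_closedBall (0 : V) B).ultrafilter_le_nhds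
    (𝒰.map fun k => deriv (c k) s) (by
      rw [le_principal_iff, Ultrafilter.coe_map, mem_map]
      exact Eventually.of_forall fun k => mem_closedBall_zero_iff.2 ((h k).1 s hs))
  have hdl' : Tendsto (fun k => deriv (c k) s) 𝒰 (𝓝 d) := hdl
  have hT : ∀ t ∈ II, ‖v t - v s - (t - s) • d‖ ≤ B * |t - s| ^ α * ‖t - s‖ := fun t ht =>
    le_of_tendsto' (((hv t ht).sub (hv s hs)).sub (hdl'.const_smul (t - s))).norm
      fun k => taylor hα (hd k) (h k) hs ht
  have hD : HasDerivAt v d s := by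
    rw [hasDerivAt_iff_isLittleO, Asymptotics.isLittleO_iff]
    intro ε hε
    have hc : ContinuousAt (fun t : ℝ => B * |t - s| ^ α) s :=
      continuousAt_const.mul (ContinuousAt.rpow_const (by fun_prop) (Or.inr hα.le))
    have h0 : B * |s - s| ^ α < ε := by
      rw [sub_self, abs_zero, Real.zero_rpow hα.ne', mul_zero]
      exact hε
    filter_upwards [isOpen_Ioo.mem_nhds hs, hc.eventually (gt_mem_nhds h0)] with t ht h1
    exact (hT t ht).trans (mul_le_mul_of_nonneg_right h1.le (norm_nonneg _))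
  exact ⟨hD.differentiableAt, hD.deriv ▸ hdl'⟩

end CcLimAux

open CcLimAux

/-- pointwise limits along an ultrafilter -/
theorem Cc_limit {α : ℝ} (hα : 0 < α) {n : ℕ} {B : ℝ} {ι : Type*} (𝒰 : Ultrafilter ι)
    {u : ι → ℝ → V} {v : ℝ → V} (h : ∀ k, Cc α n B (u k) II)
    (hv : ∀ s ∈ II, Tendsto (fun k => u k s) 𝒰 (𝓝 (v s))) : Cc α n B v II := by
  induction n generalizing u v with
  | zero => exact hol_lim 𝒰 h hv
  | succ n ih =>
    have hl := deriv_lim hα 𝒰 (fun k => (h k).2.1) (fun k => (h k).2.2.hol) hv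
    exact ⟨hol_lim 𝒰 (fun k => (h k).1) hv, fun s hs => (hl s hs).1,
      ih (fun k => (h k).2.2) fun s hs => (hl s hs).2⟩

/-- limits of curves whose derivatives are bounded in `C^{n,α}` -/
theorem Cc_limit_deriv {α : ℝ} (hα : 0 < α) {n : ℕ} {B : ℝ} {ι : Type*} (𝒰 : Ultrafilter ι)
    {c : ι → ℝ → V} {v : ℝ → V} (hd : ∀ k, ∀ s ∈ II, DifferentiableAt ℝ (c k) s)
    (h : ∀ k, Cc α n B (deriv (c k)) II)
    (hv : ∀ s ∈ II, Tendsto (fun k => c k s) 𝒰 (𝓝 (v s))) :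
    (∀ s ∈ II, DifferentiableAt ℝ v s ∧
      Tendsto (fun k => deriv (c k) s) 𝒰 (𝓝 (deriv v s))) ∧ Cc α n B (deriv v) II := by
  have hl := deriv_lim hα 𝒰 hd (fun k => (h k).hol) hv
  exact ⟨hl, Cc_limit hα 𝒰 h fun s hs => (hl s hs).2⟩

end Pool.Agent.Lib.MP_901be3_an.Hd
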