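import Pool.Agent.Lib.MP_901be3_an.Hd.Lin2

namespace Pool.Agent.Lib.MP_901be3_an.Hd

open MeasureTheory Filter Topology Metric Set
open scoped ENNReal

namespace HGraphAux

lemma fst_le (v : V) : |v.1| ≤ ‖v‖ := norm_fst_le v

lemma snd_le (v : V) : |v.2| ≤ ‖v‖ := norm_snd_le v

lemma norm_le {v : V} {r : ℝ} (h1 : |v.1| ≤ r) (h2 : |v.2| ≤ r) : ‖v‖ ≤ r := max_le h1 h2

/-- `y` is almost the image of `x` under a hyperbolic diagonal map -/
def Stp (κ γ : ℝ) (x y : V) : Prop :=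
  (1 + κ) * |x.1| - κ / 100 * ‖x‖ - γ ≤ |y.1| ∧ |y.2| ≤ (1 - κ / 2) * |x.2| + κ / 100 * ‖x‖ + γ

variable {κ : ℝ} {F : V → V}

lemma lip {a b : ℝ}
    (h : ∀ v : V, ‖v‖ ≤ 1 → DifferentiableAt ℝ F v ∧ ‖fderiv ℝ F v - diag a b‖ ≤ κ / 100) {v w : V}
    (hv : ‖v‖ ≤ 1) (hw : ‖w‖ ≤ 1) : |(F v).1 - (F w).1 - a * (v.1 - w.1)| ≤ κ / 100 * ‖v - w‖ ∧
      |(F v).2 - (F w).2 - b * (v.2 - w.2)| ≤ κ / 100 * ‖v - w‖ := by
  have k := (convex_closedBall (0 : V) 1).norm_image_sub_le_of_norm_hasFDerivWithin_le'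
    (f := F) (f' := fderiv ℝ F) (φ := diag a b)
    (fun x hx => (h x (mem_closedBall_zero_iff.1 hx)).1.hasFDerivAt.hasFDerivWithinAt)
    (fun x hx => (h x (mem_closedBall_zero_iff.1 hx)).2) (mem_closedBall_zero_iff.2 hw)
    (mem_closedBall_zero_iff.2 hv)
  rw [diag_apply] at k
  exact ⟨(fst_le _).trans' (le_of_eq rfl) |>.trans k, (snd_le _).trans' (le_of_eq rfl) |>.trans k⟩

lemma inv_le (hκ : 0 < κ) (hκ1 : κ ≤ 1) : (1 + κ)⁻¹ ≤ 1 - κ / 2 := by
  rw [inv_le_iff_one_le_mul₀ (by linarith)]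
  nlinarith

lemma stp_of (hκ : 0 < κ) (hκ1 : κ ≤ 1) {a b γ : ℝ} (ha : 1 + κ ≤ |a|) (hb : |b| ≤ (1 + κ)⁻¹)
    {x y : V} (h1 : |y.1 - a * x.1| ≤ κ / 100 * ‖x‖ + γ) (h2 : |y.2 - b * x.2| ≤ κ / 100 * ‖x‖ + γ) :
    Stp κ γ x y := by
  have k1 := abs_sub_abs_le_abs_sub (a * x.1) y.1
  have k2 := abs_sub_abs_le_abs_sub y.2 (b * x.2)
  rw [abs_sub_comm, abs_mul] at k1
  rw [abs_mul] at k2
  have k3 := mul_le_mul_of_nonneg_right ha (abs_nonneg x.1)
  have k4 := mul_le_mul_of_nonneg_right (hb.trans (inv_le hκ hκ1)) (abs_nonneg x.2)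
  exact ⟨by linarith, by linarith⟩

lemma stp_sub (hκ : 0 < κ) (hκ1 : κ ≤ 1) (h : HMap κ F) {v w p : V} {γ : ℝ} (hv : ‖v‖ ≤ 1)
    (hw : ‖w‖ ≤ 1) (hp : ‖F w - p‖ ≤ γ) : Stp κ γ (v - w) (F v - p) := by
  obtain ⟨a, b, ha, hb, -, h⟩ := h
  obtain ⟨k1, k2⟩ := lip h hv hw
  have l1 : |(F w).1 - p.1| ≤ γ := (fst_le (F w - p)).trans hp
  have l2 : |(F w).2 - p.2| ≤ γ := (snd_le (F w - p)).trans hp
  refine stp_of hκ hκ1 ha hb ?_ ?_
  · refine le_trans (le_of_eq ?_) ((abs_add_le _ _).trans (add_le_add k1 l1))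
    simp only [Prod.fst_sub]; ring_nf
  · refine le_trans (le_of_eq ?_) ((abs_add_le _ _).trans (add_le_add k2 l2))
    simp only [Prod.snd_sub]; ring_nf

lemma stp_pt (hκ : 0 < κ) (hκ1 : κ ≤ 1) (h : HMap κ F) {v : V} (hv : ‖v‖ ≤ 1) :
    Stp κ (κ / 100) v (F v) := by
  have h0 : ‖F 0 - 0‖ ≤ κ / 100 := by
    obtain ⟨a, b, -, -, h0, -⟩ := h
    rwa [sub_zero]
  simpa using stp_sub hκ hκ1 h hv (by simp) h0

lemma off_grow (hκ : 0 < κ) {x : ℕ → V} (h : ∀ j, Stp κ 0 (x j) (x (j + 1)))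
    (h0 : |(x 0).2| < 20 * |(x 0).1|) (n : ℕ) :
    |(x n).2| < 20 * |(x n).1| ∧ (1 + κ / 2) ^ n * |(x 0).1| ≤ |(x n).1| := by
  induction n with
  | zero => simpa using h0
  | succ n ih =>
    obtain ⟨i1, i2⟩ := ih
    obtain ⟨k1, k2⟩ := h n
    have a1 := abs_nonneg (x n).1
    have a2 := abs_nonneg (x n).2
    have k3 : ‖x n‖ ≤ 20 * |(x n).1| := norm_le (by linarith) i1.le
    have k4 := mul_le_mul_of_nonneg_left k3 hκ.le
    have k5 := mul_nonneg hκ.le a1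
    have k6 := mul_nonneg hκ.le a2
    have k7 := mul_le_mul_of_nonneg_left i2 (by linarith : 0 ≤ 1 + κ / 2)
    exact ⟨by linarith, by rw [pow_succ]; linarith⟩

lemma not_bdd {q d M : ℝ} (hq : 1 < q) (hd : 0 < d) (h : ∀ n : ℕ, q ^ n * d ≤ M) : False := by
  obtain ⟨n, hn⟩ := pow_unbounded_of_one_lt (M / d) hq
  rw [div_lt_iff₀ hd] at hn
  linarith [h n]

lemma cone_of_bdd (hκ : 0 < κ) {x : ℕ → V} (h : ∀ j, Stp κ 0 (x j) (x (j + 1))) {M : ℝ}
    (hM : ∀ j, ‖x j‖ ≤ M) (n : ℕ) : 20 * |(x n).1| ≤ |(x n).2| := by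
  by_contra hc
  have h0 := not_le.1 hc
  exact not_bdd (q := 1 + κ / 2) (d := |(x n).1|) (by linarith)
    (by linarith [abs_nonneg (x n).2]) fun m =>
      (off_grow hκ (x := fun j => x (n + j)) (fun j => h (n + j)) h0 m).2.trans
        ((fst_le _).trans (hM _))

/-- projection to the interval `[-1, 1]` -/
noncomputable def cl (x : ℝ) : ℝ := max (min x 1) (-1)

lemma abs_cl (x : ℝ) : |cl x| ≤ 1 :=
  abs_le.2 ⟨le_max_right _ _, max_le (min_le_right _ _) (by norm_num)⟩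

lemma cl_eq {x : ℝ} (h : |x| ≤ 1) : cl x = x := by
  unfold cl; rw [min_eq_left (abs_le.1 h).2, max_eq_left (abs_le.1 h).1]

lemma cl_out {σ x : ℝ} (hσ : σ = 1 ∨ σ = -1) (h : 1 < σ * x) : σ * cl x = 1 := by
  unfold cl
  rcases hσ with rfl | rfl
  · rw [min_eq_right (by linarith), max_eq_left (by norm_num)]; norm_num
  · rw [min_eq_left (by linarith), max_eq_right (by linarith)]; norm_num

lemma out (hκ : 0 < κ) (h : HMap κ F) : ∃ τ : ℝ, (τ = 1 ∨ τ = -1) ∧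
    ∀ σ : ℝ, σ = 1 ∨ σ = -1 → ∀ v : V, ‖v‖ ≤ 1 → σ * v.1 = 1 → 1 < σ * τ * (F v).1 := by
  obtain ⟨a, b, ha, -, h0, h⟩ := h
  have key : ∀ v : V, ‖v‖ ≤ 1 → |(F v).1 - a * v.1| ≤ κ / 50 := fun v hv => by
    have k1 := abs_le.1 (lip h hv (w := 0) (by simp)).1
    have k2 := abs_le.1 ((fst_le _).trans h0)
    have k3 := mul_le_mul_of_nonneg_left hv hκ.le
    simp only [sub_zero, Prod.fst_zero] at k1
    exact abs_le.2 ⟨by linarith [k1.1], by linarith [k1.2]⟩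
  rcases abs_cases a with k | k
  · refine ⟨1, Or.inl rfl, fun σ hσ v hv e => ?_⟩
    have l := abs_le.1 (key v hv)
    rcases hσ with rfl | rfl
    · rw [show v.1 = 1 by linarith] at l; linarith [l.1, k.1]
    · rw [show v.1 = -1 by linarith] at l; linarith [l.2, k.1]
  · refine ⟨-1, Or.inr rfl, fun σ hσ v hv e => ?_⟩
    have l := abs_le.1 (key v hv)
    rcases hσ with rfl | rfl
    · rw [show v.1 = 1 by linarith] at l; linarith [l.2, k.1]
    · rw [show v.1 = -1 by linarith] at l; linarith [l.1, k.1]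

end HGraphAux

open HGraphAux

theorem HMap.snd_lt {κ : ℝ} (hκ : 0 < κ) (hκ1 : κ ≤ 1) {F : V → V} (h : HMap κ F) {v : V}
    (hv : ‖v‖ ≤ 1) : |(F v).2| < 1 := by
  have h1 := (stp_pt hκ hκ1 h hv).2
  have h2 := mul_le_mul_of_nonneg_left ((snd_le v).trans hv) (by linarith : 0 ≤ 1 - κ / 2)
  have h3 := mul_le_mul_of_nonneg_left hv hκ.le
  linarith

theorem Stay.fst_le {κ : ℝ} (hκ : 0 < κ) (hκ1 : κ ≤ 1) {F : ℕ → V → V} (h : ∀ n, HMap κ (F n))
    {v : V} (hv : Stay F v) : |v.1| ≤ 1 / 20 := by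
  by_contra hc
  have h0 := not_le.1 hc
  have key : ∀ n : ℕ, (1 + κ) ^ n * (|v.1| - 1 / 50) ≤ |(orb F n v).1| - 1 / 50 := fun n => by
    induction n with
    | zero => simp [orb]
    | succ n ih =>
      have h1 : _ ≤ |(orb F (n + 1) v).1| := (stp_pt hκ hκ1 (h n) (hv n)).1
      have h2 := mul_le_mul_of_nonneg_left (hv n) hκ.le
      have h3 := mul_le_mul_of_nonneg_left ih (by linarith : 0 ≤ 1 + κ)
      rw [pow_succ]
      linarith
  exact not_bdd (q := 1 + κ) (M := 1) (by linarith) (by linarith : 0 < |v.1| - 1 / 50) fun n => by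
    linarith [key n, (HGraphAux.fst_le _).trans (hv n)]

/-- cone property and contraction of two orbits staying in the box -/
theorem Stay.contr {κ : ℝ} (hκ : 0 < κ) (hκ1 : κ ≤ 1) {F : ℕ → V → V} (h : ∀ n, HMap κ (F n))
    {v w : V} (hv : Stay F v) (hw : Stay F w) :
    |v.1 - w.1| ≤ |v.2 - w.2| / 20 ∧
      ∀ n, ‖orb F n v - orb F n w‖ ≤ (1 - κ / 3) ^ n * ‖v - w‖ := by
  have hs : ∀ j, Stp κ 0 (orb F j v - orb F j w) (orb F (j + 1) v - orb F (j + 1) w) := fun j =>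
    stp_sub hκ hκ1 (h j) (hv j) (hw j) (by simp [orb])
  have hc := cone_of_bdd hκ (x := fun j => orb F j v - orb F j w) hs (M := 2) fun j =>
    (norm_sub_le _ _).trans (by linarith [hv j, hw j])
  refine ⟨?_, fun n => ?_⟩
  · have : 20 * |v.1 - w.1| ≤ |v.2 - w.2| := hc 0
    linarith
  · induction n with
    | zero => simp [orb]
    | succ n ih =>
      have h1 := (hs n).2
      have h2 := hc (n + 1)
      have h3 := mul_le_mul_of_nonneg_left (snd_le (orb F n v - orb F n w))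
        (by linarith : 0 ≤ 1 - κ / 2)
      have h4 := mul_nonneg hκ.le (norm_nonneg (orb F n v - orb F n w))
      have h5 := mul_le_mul_of_nonneg_left ih (by linarith : 0 ≤ 1 - κ / 3)
      have h6 := abs_nonneg (orb F (n + 1) v - orb F (n + 1) w).1
      rw [pow_succ]
      exact norm_le (by linarith) (by linarith)

theorem exists_stay {κ : ℝ} (hκ : 0 < κ) (hκ1 : κ ≤ 1) {F : ℕ → V → V} (h : ∀ n, HMap κ (F n))
    {b : ℝ} (hb : |b| ≤ 1) : ∃ a : ℝ, Stay F (a, b) := by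
  have box : ∀ v : V, ‖((cl v.1, cl v.2) : V)‖ ≤ 1 := fun v => norm_le (abs_cl _) (abs_cl _)
  set G : ℕ → V → V := fun n v => F n (cl v.1, cl v.2) with hG
  have cG : ∀ n, Continuous (G n) := fun n => continuous_iff_continuousAt.2 fun v => by
    obtain ⟨_, _, -, -, -, k⟩ := h n
    exact ContinuousAt.comp (f := fun v : V => ((cl v.1, cl v.2) : V)) (k _ (box v)).1.continuousAt
      (by unfold cl; fun_prop)
  have cO : ∀ n, Continuous fun a : ℝ => orb G n (a, b) := fun n => by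
    induction n with
    | zero => exact continuous_id.prodMk continuous_const
    | succ n ih => exact (cG n).comp ih
  choose τ hτ hτ' using fun n => out hκ (h n)
  have sg : ∀ ε : ℝ, ε = 1 ∨ ε = -1 → ∀ n, ε * ∏ j ∈ Finset.range n, τ j = 1 ∨
      ε * ∏ j ∈ Finset.range n, τ j = -1 := fun ε hε n => by
    induction n with
    | zero => simpa using hε
    | succ n ih =>
      rw [Finset.prod_range_succ, ← mul_assoc]
      rcases ih with e | e <;> rcases hτ n with e' | e' <;> rw [e, e'] <;> norm_num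
  have pers : ∀ ε : ℝ, ε = 1 ∨ ε = -1 → ∀ (v : V) n m, n ≤ m →
      1 < ε * (∏ j ∈ Finset.range n, τ j) * (orb G n v).1 →
      1 < ε * (∏ j ∈ Finset.range m, τ j) * (orb G m v).1 := fun ε hε v n m hm k => by
    induction m, hm using Nat.le_induction with
    | base => exact k
    | succ m _ ih =>
      rw [Finset.prod_range_succ, ← mul_assoc]
      exact hτ' m _ (sg ε hε m) _ (box _) (cl_out (sg ε hε m) ih)
  set U : ℝ → Set ℝ := fun ε =>
    ⋃ n, {a | 1 < ε * (∏ j ∈ Finset.range n, τ j) * (orb G n (a, b)).1} with hU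
  have oU : ∀ ε, IsOpen (U ε) := fun ε => isOpen_iUnion fun n =>
    isOpen_lt continuous_const (continuous_const.mul (cO n).fst)
  have hne : ¬(univ ⊆ U 1 ∪ U (-1)) := fun hc => by
    obtain ⟨a, -, h1, h2⟩ := isPreconnected_univ (U 1) (U (-1)) (oU _) (oU _) hc
      ⟨2, trivial, mem_iUnion.2 ⟨0, by simp [orb]⟩⟩ ⟨-2, trivial, mem_iUnion.2 ⟨0, by simp [orb]⟩⟩
    obtain ⟨n, hn⟩ := mem_iUnion.1 h1
    obtain ⟨m, hm⟩ := mem_iUnion.1 h2
    linarith [pers 1 (Or.inl rfl) _ n _ (le_max_left n m) hn,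
      pers (-1) (Or.inr rfl) _ m _ (le_max_right n m) hm]
  obtain ⟨a, -, ha⟩ := not_subset.1 hne
  simp only [hU, mem_union, mem_iUnion, mem_ofPred_eq, not_or, not_exists, not_lt] at ha
  have b1 : ∀ n, ‖orb G n (a, b)‖ ≤ 1 := fun n => by
    refine norm_le ?_ ?_
    · have k1 := ha.1 n
      have k2 := ha.2 n
      rcases sg 1 (Or.inl rfl) n with e | e <;> rw [one_mul] at e <;> rw [e] at k1 k2 <;>
        exact abs_le.2 ⟨by linarith, by linarith⟩
    · cases n with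
      | zero => exact hb
      | succ n => exact ((h n).snd_lt hκ hκ1 (box _)).le
  have e : ∀ n, orb F n (a, b) = orb G n (a, b) := fun n => by
    induction n with
    | zero => rfl
    | succ n ih =>
      change F n (orb F n (a, b)) = F n (cl (orb G n (a, b)).1, cl (orb G n (a, b)).2)
      rw [ih, cl_eq ((HGraphAux.fst_le _).trans (b1 n)), cl_eq ((snd_le _).trans (b1 n))]
  exact ⟨a, fun n => (e n).symm ▸ b1 n⟩

end Pool.Agent.Lib.MP_901be3_an.Hd
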