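import Pool.Agent.Lib.MP_901be3_an.Hd.AtBasic
import Pool.Agent.Lib.MP_901be3_an.Hd.HGraph

namespace Pool.Agent.Lib.MP_901be3_an.Hd

open MeasureTheory Filter Topology Metric Set
open scoped ENNReal

variable {X : Type*} [MetricSpace X] [MeasurableSpace X] {A : Atlas X} {α c₀ κ : ℝ}

namespace Atlas

theorem ChBasicAux.norm_lt {Φ : A.Chart} (h : Φ.Small α c₀) (hc : c₀ ≤ 1 / 4) {v : V}
    (hv : ‖v‖ ≤ 2) : ‖Φ.c + Cm Φ.u Φ.s v‖ < 2 := by
  have h1 := (Cm Φ.u Φ.s).le_of_opNorm_le (h.2.2.1.le.trans hc) v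
  linarith [norm_add_le Φ.c (Cm Φ.u Φ.s v), h.1]

theorem ChBasicAux.mod_eq {E : A.Chart → A.Chart → Prop} {w : ℕ → A.Chart} {N : ℕ}
    (h : Loop E w N) {j : ℕ} (hj : j ≤ N) : w (j % N) = w j := by
  rcases hj.lt_or_eq with h1 | rfl
  · rw [Nat.mod_eq_of_lt h1]
  · rw [Nat.mod_self, h.2.1]

theorem Chart.sw_sw (Φ : A.Chart) : Φ.sw.sw = Φ := rfl

theorem Chart.sw_pt (Φ : A.Chart) (v : V) : Φ.sw.pt v = Φ.pt v.swap := by
  show (A.e Φ.i).symm (Φ.c + Cm Φ.s Φ.u v) = (A.e Φ.i).symm (Φ.c + Cm Φ.u Φ.s v.swap)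
  rw [Cm_swap]

theorem Chart.sw_co (Φ : A.Chart) (x : X) : Φ.sw.co x = (Φ.co x).swap := Ci_swap _ _ _

theorem Chart.sw_box (Φ : A.Chart) (x : X) : Φ.sw.Box x ↔ Φ.Box x := by
  unfold Chart.Box
  rw [Chart.sw_co, Prod.norm_def, Prod.norm_def, max_comm]
  rfl

theorem Chart.Small.sw {Φ : A.Chart} (h : Φ.Small α c₀) : Φ.sw.Small α c₀ := by
  obtain ⟨h1, h2, h3, h4⟩ := h
  refine ⟨h1, ?_, ?_, ?_⟩
  · show det Φ.s Φ.u ≠ 0
    rw [det_swap]
    exact neg_ne_zero.2 h2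
  · show ‖Cm Φ.s Φ.u‖ < c₀
    rwa [norm_Cm_swap]
  · show ‖Ci Φ.s Φ.u‖ * ‖Cm Φ.s Φ.u‖ ^ (1 + α) < c₀
    rwa [norm_Cm_swap, norm_Ci_swap]

theorem Chart.Small.pt_spec {Φ : A.Chart} (h : Φ.Small α c₀) (hc : c₀ ≤ 1 / 4) {v : V}
    (hv : ‖v‖ ≤ 2) : A.Gd Φ.i (Φ.pt v) ∧ A.e Φ.i (Φ.pt v) = Φ.c + Cm Φ.u Φ.s v ∧
      Φ.co (Φ.pt v) = v := by
  have h1 := ChBasicAux.norm_lt h hc hv
  obtain ⟨h2, h3⟩ := A.symm_mem Φ.i (v := Φ.c + Cm Φ.u Φ.s v) (by linarith)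
  refine ⟨⟨h2, ?_⟩, h3, ?_⟩
  · unfold Chart.pt
    rwa [h3]
  · unfold Chart.co Chart.pt
    rw [h3, add_sub_cancel_left, Ci_Cm h.2.1]

theorem Chart.Small.pt_co {Φ : A.Chart} (h : Φ.Small α c₀) {x : X}
    (hx : x ∈ (A.e Φ.i).source) : Φ.pt (Φ.co x) = x := by
  unfold Chart.co Chart.pt
  rw [Cm_Ci h.2.1, add_sub_cancel, (A.e Φ.i).left_inv hx]

theorem Chart.Small.box_pt {Φ : A.Chart} (h : Φ.Small α c₀) (hc : c₀ ≤ 1 / 4) {v : V}
    (hv : ‖v‖ ≤ 1) : Φ.Box (Φ.pt v) := by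
  obtain ⟨h1, -, h2⟩ := h.pt_spec hc (v := v) (by linarith)
  exact ⟨h1.1, by rwa [h2]⟩

theorem Chart.Small.dist_pt {Φ : A.Chart} (h : Φ.Small α c₀) (hc : c₀ ≤ 1 / 4) {v w : V}
    (hv : ‖v‖ ≤ 2) (hw : ‖w‖ ≤ 2) : dist (Φ.pt v) (Φ.pt w) ≤ A.L * c₀ * ‖v - w‖ := by
  obtain ⟨h1, h2, -⟩ := h.pt_spec hc hv
  obtain ⟨h3, h4, -⟩ := h.pt_spec hc hw
  refine (A.lip_up Φ.i _ h1.1 _ h3.1).trans ?_
  rw [h2, h4, add_sub_add_left_eq_sub, ← map_sub, mul_assoc]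
  exact mul_le_mul_of_nonneg_left ((Cm Φ.u Φ.s).le_of_opNorm_le h.2.2.1.le _)
    (zero_le_one.trans A.one_le_L)

theorem Chart.Small.dist_box {Φ : A.Chart} (h : Φ.Small α c₀) (hc : c₀ ≤ 1 / 4) {x y : X}
    (hx : Φ.Box x) (hy : Φ.Box y) : dist x y ≤ 2 * A.L * c₀ := by
  have h1 := h.dist_pt hc (v := Φ.co x) (w := Φ.co y) (by linarith [hx.2]) (by linarith [hy.2])
  rw [h.pt_co hx.1, h.pt_co hy.1] at h1
  have h2 : ‖Φ.co x - Φ.co y‖ ≤ 2 := (norm_sub_le _ _).trans (by linarith [hx.2, hy.2])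
  have h3 : 0 ≤ A.L * c₀ :=
    mul_nonneg (zero_le_one.trans A.one_le_L) ((norm_nonneg _).trans h.2.2.1.le)
  nlinarith

theorem Chart.Small.continuousOn_pt {Φ : A.Chart} (h : Φ.Small α c₀) (hc : c₀ ≤ 1 / 4) :
    ContinuousOn Φ.pt (closedBall 0 2) := by
  refine (A.e Φ.i).continuousOn_symm.comp
    (continuous_const.add (Cm Φ.u Φ.s).continuous).continuousOn fun v hv => ?_
  rw [A.target_eq, mem_ball_zero_iff]
  linarith [ChBasicAux.norm_lt h hc (mem_closedBall_zero_iff.1 hv)]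

theorem Chart.continuousOn_co (Φ : A.Chart) : ContinuousOn Φ.co (A.e Φ.i).source :=
  (Ci Φ.u Φ.s).continuous.comp_continuousOn ((A.e Φ.i).continuousOn.sub continuousOn_const)

theorem Chart.Small.isCompact_box {Φ : A.Chart} (h : Φ.Small α c₀) (hc : c₀ ≤ 1 / 4) :
    IsCompact {x | Φ.Box x} := by
  have e : {x | Φ.Box x} = Φ.pt '' closedBall 0 1 := by
    ext x
    constructor
    · intro hx
      exact ⟨Φ.co x, mem_closedBall_zero_iff.2 hx.2, h.pt_co hx.1⟩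
    · rintro ⟨v, hv, rfl⟩
      exact h.box_pt hc (mem_closedBall_zero_iff.1 hv)
  rw [e]
  exact (isCompact_closedBall 0 1).image_of_continuousOn
    ((h.continuousOn_pt hc).mono (closedBall_subset_closedBall one_le_two))

theorem Chart.isOpen_co (Φ : A.Chart) {U : Set V} (hU : IsOpen U) :
    IsOpen {x | x ∈ (A.e Φ.i).source ∧ Φ.co x ∈ U} :=
  Φ.continuousOn_co.isOpen_inter_preimage (A.e Φ.i).open_source hU

/-- velocity of a curve given in the coordinates of a chart -/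
theorem Chart.Small.velAt {Φ : A.Chart} (h : Φ.Small α c₀) (hc : c₀ ≤ 1 / 4) {c : ℝ → V}
    {w : V} (h0 : ‖c 0‖ ≤ 1) (hw : HasDerivAt c w 0) :
    A.VelAt Φ.i (fun t => Φ.pt (c t)) (Cm Φ.u Φ.s w) := by
  have hn : closedBall (0 : V) 2 ∈ 𝓝 (c 0) :=
    mem_of_superset (isOpen_ball.mem_nhds (mem_ball_zero_iff.2 (by linarith))) ball_subset_closedBall
  refine ⟨(h.pt_spec hc (by linarith)).1,
    ((h.continuousOn_pt hc).continuousAt hn).comp hw.continuousAt, ?_⟩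
  refine (((Cm Φ.u Φ.s).hasFDerivAt.comp_hasDerivAt 0 hw).const_add Φ.c).congr_of_eventuallyEq ?_
  filter_upwards [hw.continuousAt hn] with t ht
  exact (h.pt_spec hc (mem_closedBall_zero_iff.1 ht)).2.1

theorem Edge.symm {g : X ≃ₜ X} {Φ Φ' : A.Chart} (h : Edge α κ c₀ g Φ Φ') :
    Edge α κ c₀ g.symm Φ'.sw Φ.sw :=
  ⟨h.2.1.sw, h.1.sw, h.2.2.2, h.2.2.1⟩

theorem BPath.sw {g : X ≃ₜ X} {W : ℕ → A.Chart} (h : BPath α κ c₀ g W) :
    FPath α κ c₀ g.symm fun n => (W n).sw := fun n => (h n).symm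

theorem fol_sw (g : X → X) (W : ℕ → A.Chart) : Fol g (fun n => (W n).sw) = Fol g W := by
  ext x
  exact forall_congr' fun n => Chart.sw_box _ _

theorem Fol.shift {g : X → X} {W : ℕ → A.Chart} {x : X} (h : x ∈ Fol g W) (l : ℕ) :
    g^[l] x ∈ Fol g fun n => W (l + n) := fun n => by
  rw [← Function.iterate_add_apply, add_comm n l]
  exact h (l + n)

theorem REdge.edge {P : Par} {f : X ≃ₜ X} (hf : A.Good P f) {Φ Φ' : A.Chart}
    (h : REdge P κ c₀ f Φ Φ') : Edge P.α κ c₀ f Φ Φ' := by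
  obtain ⟨γ, hγ, h⟩ := h
  exact h f hf fun x => by simp [hγ.le]

/-- the image of a point of the box is not on the horizontal sides of the next box -/
theorem Edge.snd_lt (hκ : 0 < κ) (hκ1 : κ ≤ 1) (hc : c₀ ≤ 1 / 4) {g : X ≃ₜ X} {Φ Φ' : A.Chart}
    (h : Edge α κ c₀ g Φ Φ') {x : X} (hx : Φ.Box x) : |(Φ'.co (g x)).2| < 1 := by
  have h1 := h.2.2.1.2.snd_lt hκ hκ1 hx.2
  rwa [h.1.pt_co hx.1] at h1

theorem Loop.fwd_edge {E : A.Chart → A.Chart → Prop} {w : ℕ → A.Chart} {N : ℕ}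
    (h : Loop E w N) (n : ℕ) : E (fwd w N n) (fwd w N (n + 1)) := by
  have h1 := Nat.mod_lt n h.1
  have h2 := h.2.2 _ h1
  rw [← ChBasicAux.mod_eq h (j := n % N + 1) h1, Nat.mod_add_mod] at h2
  exact h2

theorem Loop.bwd_edge {E : A.Chart → A.Chart → Prop} {w : ℕ → A.Chart} {N : ℕ}
    (h : Loop E w N) (n : ℕ) : E (bwd w N (n + 1)) (bwd w N n) := by
  have h1 := Nat.mod_lt n h.1
  have h2 := h.2.2 (N - n % N - 1) (by omega)
  have h3 : N - n % N - 1 + 1 = N - n % N := by omega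
  have h4 : (N - (n + 1) % N) % N = N - n % N - 1 := by
    rw [← Nat.mod_add_mod]
    rcases Nat.lt_or_ge (n % N + 1) N with h5 | h5
    · rw [Nat.mod_eq_of_lt h5, Nat.mod_eq_of_lt (by omega)]
      omega
    · have h6 : n % N + 1 = N := by omega
      rw [h6, Nat.mod_self, Nat.sub_zero, Nat.mod_self]
      omega
  rw [h3, ← ChBasicAux.mod_eq h (Nat.sub_le N (n % N)), ← h4] at h2
  exact h2

theorem Loop.fpath {g : X ≃ₜ X} {w : ℕ → A.Chart} {N : ℕ} (h : Loop (Edge α κ c₀ g) w N) :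
    FPath α κ c₀ g (fwd w N) := h.fwd_edge

theorem Loop.bpath {g : X ≃ₜ X} {w : ℕ → A.Chart} {N : ℕ} (h : Loop (Edge α κ c₀ g) w N) :
    BPath α κ c₀ g (bwd w N) := h.bwd_edge

theorem fwd_zero (w : ℕ → A.Chart) (N : ℕ) : fwd w N 0 = w 0 := by simp [fwd]

theorem bwd_zero (w : ℕ → A.Chart) (N : ℕ) : bwd w N 0 = w 0 := by simp [bwd]

theorem fwd_add (w : ℕ → A.Chart) (N k n : ℕ) : fwd w N (k * N + n) = fwd w N n := by simp [fwd]

theorem bwd_add (w : ℕ → A.Chart) (N k n : ℕ) : bwd w N (k * N + n) = bwd w N n := by simp [bwd]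

theorem PerPt.fol {g : X ≃ₜ X} {w : ℕ → A.Chart} {N : ℕ} (hN : 0 < N) {p : X}
    (h : PerPt g w N p) : p ∈ Fol g (fwd w N) ∧ p ∈ Fol g.symm (bwd w N) := by
  have hp : Function.IsPeriodicPt g N p := h.1
  refine ⟨fun n => ?_, fun n => ?_⟩
  · rw [← hp.iterate_mod_apply n]
    exact h.2 _ (Nat.mod_lt _ hN)
  · have h1 : g^[n] (g^[(N - n % N) % N] p) = p := by
      rw [hp.iterate_mod_apply, ← Function.iterate_add_apply]
      have h2 := Nat.mod_lt n hN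
      have h3 := Nat.div_add_mod n N
      have h4 : n + (N - n % N) = N * (n / N + 1) := by
        rw [mul_add, mul_one]
        omega
      rw [h4]
      exact hp.mul_const _
    have h2 : g.symm^[n] p = g^[(N - n % N) % N] p := by
      conv_lhs => rw [← h1]
      exact Function.LeftInverse.iterate g.symm_apply_apply n _
    rw [h2]
    exact h.2 _ (Nat.mod_lt _ hN)

/-- a robust loop is a loop for all nearby maps -/
theorem Loop.robust {P : Par} {f : X ≃ₜ X} {w : ℕ → A.Chart} {N : ℕ}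
    (h : Loop (REdge P κ c₀ f) w N) : ∃ γ > 0, ∀ g : X ≃ₜ X, A.Good P g → Near γ g f →
      Loop (Edge P.α κ c₀ g) w N := by
  have key : ∀ M ≤ N, ∃ γ > 0, ∀ g : X ≃ₜ X, A.Good P g → Near γ g f →
      ∀ j < M, Edge P.α κ c₀ g (w j) (w (j + 1)) := by
    intro M
    induction M with
    | zero => exact fun _ => ⟨1, one_pos, fun g _ _ j hj => absurd hj (Nat.not_lt_zero j)⟩
    | succ M ih =>
      intro hM
      obtain ⟨γ, hγ, h1⟩ := ih (by omega)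
      obtain ⟨γ', hγ', h2⟩ := h.2.2 M hM
      refine ⟨min γ γ', lt_min hγ hγ', fun g hg hn j hj => ?_⟩
      rcases Nat.lt_succ_iff_lt_or_eq.1 hj with h3 | rfl
      · exact h1 g hg (fun x => ⟨(hn x).1.trans (min_le_left _ _),
          (hn x).2.trans (min_le_left _ _)⟩) j h3
      · exact h2 g hg fun x => ⟨(hn x).1.trans (min_le_right _ _),
          (hn x).2.trans (min_le_right _ _)⟩
  obtain ⟨γ, hγ, h1⟩ := key N le_rfl
  exact ⟨γ, hγ, fun g hg hn => ⟨h.1, h.2.1, h1 g hg hn⟩⟩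

end Atlas

end Pool.Agent.Lib.MP_901be3_an.Hd
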