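import Pool.Agent.Lib.MP_901be3_an.Hd.EntBasic

namespace Pool.Agent.Lib.MP_901be3_an.Hd

open MeasureTheory Filter Topology Metric Set
open scoped ENNReal

variable {X : Type*} [MeasurableSpace X] {ι : Type*} [Fintype ι]

theorem measurable_partEnt {κ : X → Measure X}
    (hκ : ∀ s, MeasurableSet s → Measurable fun x => κ x s) {P : X → ι}
    (hP : ∀ a, MeasurableSet (P ⁻¹' {a})) : Measurable fun x => partEnt (κ x) P :=
  Finset.measurable_sum _ fun a _ =>
    Real.continuous_negMulLog.measurable.comp (hκ _ (hP a)).ennreal_toReal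

theorem measurable_partRate {f : X → X} (hf : Measurable f) {κ : X → Measure X}
    (hκ : ∀ s, MeasurableSet s → Measurable fun x => κ x s) {P : X → ι}
    (hP : ∀ a, MeasurableSet (P ⁻¹' {a})) : Measurable fun x => partRate f (κ x) P :=
  Measurable.limsup fun n => (measurable_partEnt hκ (measurableSet_name hf hP n)).div_const _

namespace CodeAux

theorem int_fib {β : Type*} [Fintype β] (ξ : Measure X) [IsFiniteMeasure ξ] {g : X → β}
    (hg : ∀ b, MeasurableSet (g ⁻¹' {b})) (F : β → ℝ) :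
    Integrable (fun x => F (g x)) ξ ∧ ∫ x, F (g x) ∂ξ = ∑ b, ξ.real (g ⁻¹' {b}) * F b := by
  classical
  have h : (fun x => F (g x)) = fun x => ∑ b, (g ⁻¹' {b}).indicator (fun _ => F b) x := by
    funext x
    rw [Finset.sum_eq_single (g x)]
    · simp
    · intro b _ hb
      exact indicator_of_notMem (fun h => hb (Eq.symm h)) _
    · simp
  rw [h]
  refine ⟨integrable_finsetSum _ fun b _ => (integrable_const _).indicator (hg b), ?_⟩
  rw [integral_finsetSum _ fun b _ => (integrable_const _).indicator (hg b)]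
  refine Finset.sum_congr rfl fun b _ => ?_
  rw [integral_indicator_const _ (hg b), smul_eq_mul]

theorem sum_fib {β : Type*} [Fintype β] (μ : Measure X) [IsProbabilityMeasure μ] {g : X → β}
    (hg : ∀ b, MeasurableSet (g ⁻¹' {b})) : ∑ b, μ.real (g ⁻¹' {b}) = 1 := by
  have h := (int_fib μ hg fun _ => (1 : ℝ)).2
  simpa using h.symm

theorem grid {W : Type*} [Fintype W] (p : W → ℝ) (h0 : ∀ u, 0 ≤ p u) (h1 : ∑ u, p u = 1)
    (K : ℕ) (hK : 0 < K) :
    ∑ u, p u * -Real.log (((⌊p u * K⌋₊ : ℝ) + 1) / ∑ v, ((⌊p v * K⌋₊ : ℝ) + 1)) ≤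
      ∑ u, Real.negMulLog (p u) + Fintype.card W / K := by
  have hK0 : (0 : ℝ) < K := by exact_mod_cast hK
  set N : ℝ := (Fintype.card W : ℝ) with hN
  have hN0 : 0 ≤ N := Nat.cast_nonneg _
  set S := ∑ v, ((⌊p v * K⌋₊ : ℝ) + 1) with hS
  have hSle : S ≤ K + N := by
    have : S ≤ ∑ v, (p v * K + 1) :=
      Finset.sum_le_sum fun v _ => add_le_add (Nat.floor_le (mul_nonneg (h0 v) hK0.le)) le_rfl
    rw [Finset.sum_add_distrib, ← Finset.sum_mul, h1] at this
    simpa [hN] using this
  have key : ∀ u, p u * -Real.log (((⌊p u * K⌋₊ : ℝ) + 1) / S) ≤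
      Real.negMulLog (p u) + p u * (N / K) := by
    intro u
    rcases (h0 u).eq_or_lt with h | h
    · simp [← h]
    have hSpos : 0 < S :=
      Finset.sum_pos' (fun v _ => by positivity) ⟨u, Finset.mem_univ _, by positivity⟩
    have a1 : p u / ((K + N) / K) ≤ ((⌊p u * K⌋₊ : ℝ) + 1) / S := by
      rw [div_div_eq_mul_div]
      exact div_le_div₀ (by positivity) (Nat.lt_floor_add_one _).le hSpos hSle
    have a2 := Real.log_le_log (by positivity) a1
    rw [Real.log_div h.ne' (by positivity)] at a2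
    have a3 := Real.log_le_sub_one_of_pos (show 0 < (K + N) / K by positivity)
    have a4 : (K + N) / K - 1 = N / K := by field_simp; ring
    rw [a4] at a3
    have a5 : -Real.log (((⌊p u * K⌋₊ : ℝ) + 1) / S) ≤ -Real.log (p u) + N / K := by linarith
    have a6 := mul_le_mul_of_nonneg_left a5 h.le
    unfold Real.negMulLog
    linarith
  refine (Finset.sum_le_sum fun u _ => key u).trans_eq ?_
  rw [Finset.sum_add_distrib, ← Finset.sum_mul, h1, one_mul]

/-- the `j`-th block of a word -/
def blk {ι : Type*} {J L : ℕ} (w : Fin (J * L) → ι) (j : Fin J) : Fin L → ι :=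
  fun i => w (finProdFinEquiv (j, i))

/-- words as sequences of blocks -/
def blkEquiv (ι : Type*) (J L : ℕ) : (Fin (J * L) → ι) ≃ (Fin J → Fin L → ι) where
  toFun := blk
  invFun := fun v k => v (finProdFinEquiv.symm k).1 (finProdFinEquiv.symm k).2
  left_inv := fun w => by
    funext k
    simp only [blk, Prod.mk.eta, Equiv.apply_symm_apply]
  right_inv := fun v => by
    funext j i
    simp only [blk, Equiv.symm_apply_apply]

theorem sum_blk {J L : ℕ} (r : (Fin L → ι) → ℝ) (hr : ∑ u, r u = 1) :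
    ∑ w : Fin (J * L) → ι, ∏ j, r (blk w j) = 1 := by
  classical
  have h := Fintype.sum_equiv (blkEquiv ι J L) (fun w => ∏ j, r (blk w j))
    (fun v => ∏ j, r (v j)) fun w => rfl
  rw [h, ← Fintype.piFinset_univ, ← Finset.prod_univ_sum]
  simp [hr]

omit [MeasurableSpace X] [Fintype ι] in
theorem blk_name (f : X → X) (P : X → ι) (J L : ℕ) (x : X) (j : Fin J) :
    blk (name f P (J * L) x) j = name f P L (f^[L * j] x) := by
  funext i
  simp only [blk, name, finProdFinEquiv_apply_val, Function.iterate_add_apply]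

theorem exists_len {f : X → X} {ξ : Measure X} [IsFiniteMeasure ξ] (hf : Measurable f)
    {κ : X → Measure X} (h1 : ∀ x, IsProbabilityMeasure (κ x))
    (h2 : ∀ᵐ x ∂ξ, MeasurePreserving f (κ x) (κ x))
    (hκ : ∀ s, MeasurableSet s → Measurable fun x => κ x s)
    {P : X → ι} (hP : ∀ a, MeasurableSet (P ⁻¹' {a})) {γ : ℝ} (hγ : 0 < γ) :
    ∃ L : ℕ, 0 < L ∧
      ∫ x, partEnt (κ x) (name f P L) ∂ξ ≤ L * (∫ x, partRate f (κ x) P ∂ξ + γ) := by
  have hdct := tendsto_integral_of_dominated_convergence (μ := ξ)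
    (F := fun (n : ℕ) x => partEnt (κ x) (name f P n) / n) (f := fun x => partRate f (κ x) P)
    (fun _ => Real.log (Fintype.card ι))
    (fun n => ((measurable_partEnt hκ (measurableSet_name hf hP n)).div_const
      (n : ℝ)).aestronglyMeasurable)
    (integrable_const _) (fun n => by
      filter_upwards [h2] with x hx
      have := h1 x
      rw [Real.norm_of_nonneg (div_nonneg (partEnt_nonneg _ _) (Nat.cast_nonneg n))]
      refine div_le_of_le_mul₀ (Nat.cast_nonneg n) (Real.log_natCast_nonneg _) ?_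
      rw [mul_comm]
      exact (partEnt_name_le hx hP n).trans
        (mul_le_mul_of_nonneg_left (partEnt_le_log _ hP) (Nat.cast_nonneg n)))
    (by
      filter_upwards [h2] with x hx
      have := h1 x
      exact tendsto_partRate hx hP)
  obtain ⟨L, hL, hL0⟩ := ((hdct.eventually (ge_mem_nhds (lt_add_of_pos_right _ hγ))).and
    (eventually_gt_atTop 0)).exists
  refine ⟨L, hL0, ?_⟩
  have hL1 : (0 : ℝ) < L := by exact_mod_cast hL0
  rw [integral_div, div_le_iff₀ hL1] at hL
  linarith

theorem int_inv {f : X → X} {ξ : Measure X} [IsFiniteMeasure ξ] {κ : X → Measure X}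
    (h1 : ∀ x, IsProbabilityMeasure (κ x))
    (hκ : ∀ s, MeasurableSet s → Measurable fun x => κ x s)
    (h4 : ∀ B, MeasurableSet[MeasurableSpace.invariants f] B → ∀ s, MeasurableSet s →
      ξ (B ∩ s) = ∫⁻ x in B, κ x s ∂ξ)
    {α W : Type*} [Fintype α] [Fintype W] {a : X → α}
    (ha : ∀ b, MeasurableSet[MeasurableSpace.invariants f] (a ⁻¹' {b})) {Q : X → W}
    (hQ : ∀ u, MeasurableSet (Q ⁻¹' {u})) (c : α → W → ℝ) :
    Integrable (fun x => c (a x) (Q x)) ξ ∧
      Integrable (fun x => ∑ u, (κ x).real (Q ⁻¹' {u}) * c (a x) u) ξ ∧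
      ∫ x, c (a x) (Q x) ∂ξ = ∫ x, ∑ u, (κ x).real (Q ⁻¹' {u}) * c (a x) u ∂ξ := by
  classical
  have hfib : ∀ b : α × W, (fun x => (a x, Q x)) ⁻¹' {b} = a ⁻¹' {b.1} ∩ Q ⁻¹' {b.2} := by
    intro b
    ext x
    simp [Prod.ext_iff]
  obtain ⟨i1, i2⟩ := int_fib ξ (g := fun x => (a x, Q x))
    (fun b => by rw [hfib]; exact (ha b.1).1.inter (hQ b.2)) (fun b => c b.1 b.2)
  have hint : ∀ u, Integrable (fun x => (κ x).real (Q ⁻¹' {u})) ξ := fun u =>
    Integrable.of_bound (hκ _ (hQ u)).ennreal_toReal.aestronglyMeasurable 1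
      (Eventually.of_forall fun x => by
        have := h1 x
        rw [Real.norm_of_nonneg measureReal_nonneg]; exact measureReal_le_one)
  have h : (fun x => ∑ u, (κ x).real (Q ⁻¹' {u}) * c (a x) u) = fun x =>
      ∑ b : α × W, (a ⁻¹' {b.1}).indicator (fun x => (κ x).real (Q ⁻¹' {b.2}) * c b.1 b.2) x := by
    funext x
    rw [Fintype.sum_prod_type, Finset.sum_eq_single (a x)]
    · simp
    · intro b _ hb
      exact Finset.sum_eq_zero fun u _ =>
        indicator_of_notMem (show x ∉ a ⁻¹' {b} from fun h => hb (Eq.symm h)) _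
    · simp
  have hi : ∀ b : α × W, Integrable ((a ⁻¹' {b.1}).indicator
      (fun x => (κ x).real (Q ⁻¹' {b.2}) * c b.1 b.2)) ξ := fun b =>
    ((hint b.2).mul_const _).indicator (ha b.1).1
  refine ⟨i1, ?_, ?_⟩
  · rw [h]
    exact integrable_finsetSum _ fun b _ => hi b
  · rw [i2, h, integral_finsetSum _ fun b _ => hi b]
    refine Finset.sum_congr rfl fun b _ => ?_
    rw [integral_indicator (ha b.1).1, integral_mul_const, hfib]
    congr 1
    simp only [Measure.real]
    rw [integral_toReal (hκ _ (hQ b.2)).aemeasurable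
      (Eventually.of_forall fun y => by have := h1 y; exact measure_lt_top _ _),
      h4 _ (ha b.1) _ (hQ b.2)]

end CodeAux

/-- a block code whose mean length is the mean entropy of the ergodic components -/
theorem code {f : X → X} {ξ : Measure X} [IsFiniteMeasure ξ] (hξ : MeasurePreserving f ξ ξ)
    {κ : X → Measure X} (h1 : ∀ x, IsProbabilityMeasure (κ x))
    (h2 : ∀ᵐ x ∂ξ, MeasurePreserving f (κ x) (κ x))
    (h3 : ∀ s, MeasurableSet s → Measurable[MeasurableSpace.invariants f] fun x => κ x s)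
    (h4 : ∀ B, MeasurableSet[MeasurableSpace.invariants f] B → ∀ s, MeasurableSet s →
      ξ (B ∩ s) = ∫⁻ x in B, κ x s ∂ξ)
    [Nonempty ι] {P : X → ι} (hP : ∀ a, MeasurableSet (P ⁻¹' {a})) {γ : ℝ} (hγ : 0 < γ) :
    ∃ Lb : ℕ, 0 < Lb ∧ ∃ q : (Fin Lb → ι) → ℝ, (∀ w, 0 < q w) ∧ ∑ w, q w ≤ 1 ∧
      ∑ w, ξ.real (name f P Lb ⁻¹' {w}) * -Real.log (q w) ≤
        Lb * (∫ x, partRate f (κ x) P ∂ξ + γ) := by
  classical
  have hκ : ∀ s, MeasurableSet s → Measurable fun x => κ x s := fun s hs =>
    (h3 s hs).mono (MeasurableSpace.invariants_le f) le_rfl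
  obtain ⟨L, hL, hLi⟩ := CodeAux.exists_len hξ.measurable h1 h2 hκ hP
    (show 0 < γ / 3 by positivity)
  have hL1 : (1 : ℝ) ≤ L := by exact_mod_cast hL
  have hQ := measurableSet_name hξ.measurable hP L
  set M := ξ.real univ with hM
  have hM0 : 0 ≤ M := measureReal_nonneg
  set N : ℝ := (Fintype.card (Fin L → ι) : ℝ) with hN
  have hN0 : 0 ≤ N := Nat.cast_nonneg _
  obtain ⟨K, hK⟩ := exists_nat_gt (M * N / (γ / 3))
  have hK0 : (0 : ℝ) < K := lt_of_le_of_lt (by positivity) hK
  have hK1 : 0 < K := by exact_mod_cast hK0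
  let a : X → (Fin L → ι) → Fin (K + 1) := fun x u =>
    ⟨⌊(κ x).real (name f P L ⁻¹' {u}) * K⌋₊, Nat.lt_succ_of_le (by
      have := h1 x
      refine Nat.floor_le_of_le ?_
      exact mul_le_of_le_one_left hK0.le measureReal_le_one)⟩
  have ham : ∀ u, Measurable[MeasurableSpace.invariants f]
      fun x => ⌊(κ x).real (name f P L ⁻¹' {u}) * K⌋₊ := fun u =>
    (Nat.measurable_floor.comp (ENNReal.measurable_toReal.mul_const (K : ℝ))).comp (h3 _ (hQ u))
  have ha : ∀ b, MeasurableSet[MeasurableSpace.invariants f] (a ⁻¹' {b}) := by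
    intro b
    have h5 : a ⁻¹' {b} =
        ⋂ u, (fun x => ⌊(κ x).real (name f P L ⁻¹' {u}) * K⌋₊) ⁻¹' {(b u).val} := by
      ext x
      simp [a, funext_iff, Fin.ext_iff]
    rw [h5]
    exact MeasurableSet.iInter fun u => ham u (measurableSet_singleton _)
  have hinv : ∀ x, a (f x) = a x := by
    intro x
    have h5 : x ∈ f ⁻¹' (a ⁻¹' {a x}) := by
      rw [(ha (a x)).2]
      rfl
    exact h5
  have hinv' : ∀ n x, a (f^[n] x) = a x := by
    intro n
    induction n with
    | zero => intro x; rfl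
    | succ n ih => intro x; rw [Function.iterate_succ_apply, ih, hinv]
  let r : ((Fin L → ι) → Fin (K + 1)) → (Fin L → ι) → ℝ := fun b u =>
    (((b u : ℕ) : ℝ) + 1) / ∑ v, (((b v : ℕ) : ℝ) + 1)
  have hden : ∀ b : (Fin L → ι) → Fin (K + 1), 0 < ∑ v, (((b v : ℕ) : ℝ) + 1) := fun b =>
    Finset.sum_pos (fun v _ => by positivity) Finset.univ_nonempty
  have hr0 : ∀ b u, 0 < r b u := fun b u => div_pos (by positivity) (hden b)
  have hr1 : ∀ b, ∑ u, r b u = 1 := fun b => by
    simp only [r]
    rw [← Finset.sum_div, div_self (hden b).ne']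
  obtain ⟨i1, i2, i3⟩ := CodeAux.int_inv h1 hκ h4 ha hQ fun b u => -Real.log (r b u)
  have hpe : Integrable (fun x => partEnt (κ x) (name f P L)) ξ :=
    Integrable.of_bound (measurable_partEnt hκ hQ).aestronglyMeasurable
      (Real.log (Fintype.card (Fin L → ι))) (Eventually.of_forall fun x => by
        have := h1 x
        rw [Real.norm_of_nonneg (partEnt_nonneg _ _)]; exact partEnt_le_log _ hQ)
  have i4 : ∫ x, -Real.log (r (a x) (name f P L x)) ∂ξ ≤
      L * (∫ x, partRate f (κ x) P ∂ξ + γ / 3) + γ / 3 := by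
    have b1 := integral_mono i2 (hpe.add (integrable_const (N / K))) fun x => by
      have := h1 x
      exact CodeAux.grid (fun u => (κ x).real (name f P L ⁻¹' {u})) (fun u => measureReal_nonneg)
        (CodeAux.sum_fib _ hQ) K hK1
    simp only [Pi.add_apply] at b1
    rw [integral_add hpe (integrable_const _), integral_const, smul_eq_mul, ← hM] at b1
    have b2 : M * (N / K) ≤ γ / 3 := by
      rw [div_lt_iff₀ (by positivity)] at hK
      rw [← mul_div_assoc, div_le_iff₀ hK0]
      linarith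
    rw [i3]
    linarith
  set R : ℝ := (Fintype.card ((Fin L → ι) → Fin (K + 1)) : ℝ) with hR
  have hR0 : 0 < R := by rw [hR]; exact_mod_cast Fintype.card_pos
  obtain ⟨J, hJ⟩ := exists_nat_gt (|M * Real.log R| / (γ / 3))
  have hJ0 : (0 : ℝ) < J := lt_of_le_of_lt (by positivity) hJ
  have hJ1 : 0 < J := by exact_mod_cast hJ0
  let q : (Fin (J * L) → ι) → ℝ := fun w => (∑ b, ∏ j, r b (CodeAux.blk w j)) / R
  have hq0 : ∀ w, 0 < q w := fun w =>
    div_pos (Finset.sum_pos (fun b _ => Finset.prod_pos fun j _ => hr0 _ _) Finset.univ_nonempty)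
      hR0
  refine ⟨J * L, Nat.mul_pos hJ1 hL, q, hq0, ?_, ?_⟩
  · simp only [q]
    rw [← Finset.sum_div, Finset.sum_comm, Finset.sum_congr rfl fun b _ => CodeAux.sum_blk _ (hr1 b)]
    simp only [Finset.sum_const, Finset.card_univ, nsmul_eq_mul, mul_one]
    exact (div_self hR0.ne').le
  obtain ⟨j1, j2⟩ := CodeAux.int_fib ξ (measurableSet_name hξ.measurable hP (J * L))
    fun w => -Real.log (q w)
  rw [← j2]
  have hsh : ∀ j : Fin J,
      Integrable (fun x => -Real.log (r (a (f^[L * j] x)) (name f P L (f^[L * j] x)))) ξ :=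
    fun j => (hξ.iterate (L * j)).integrable_comp_of_integrable i1
  have hsh' : ∀ j : Fin J,
      ∫ x, -Real.log (r (a (f^[L * j] x)) (name f P L (f^[L * j] x))) ∂ξ =
        ∫ x, -Real.log (r (a x) (name f P L x)) ∂ξ := by
    intro j
    have hm := hξ.iterate (L * j)
    have h5 := integral_map (μ := ξ) hm.measurable.aemeasurable
      (f := fun x => -Real.log (r (a x) (name f P L x)))
      (by rw [hm.map_eq]; exact i1.aestronglyMeasurable)
    rw [hm.map_eq] at h5
    exact h5.symm
  have b1 := integral_mono j1 ((integrable_const (Real.log R)).add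
    (integrable_finsetSum Finset.univ fun j _ => hsh j)) fun x => by
      have c1 : (∏ j, r (a x) (CodeAux.blk (name f P (J * L) x) j)) / R ≤
          q (name f P (J * L) x) :=
        div_le_div_of_nonneg_right (Finset.single_le_sum
          (f := fun b => ∏ j, r b (CodeAux.blk (name f P (J * L) x) j))
          (fun b _ => (Finset.prod_pos fun j _ => hr0 _ _).le) (Finset.mem_univ (a x))) hR0.le
      have c0 : 0 < ∏ j, r (a x) (CodeAux.blk (name f P (J * L) x) j) :=
        Finset.prod_pos fun j _ => hr0 _ _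
      have c2 := Real.log_le_log (div_pos c0 hR0) c1
      rw [Real.log_div c0.ne' hR0.ne', Real.log_prod fun j _ => (hr0 _ _).ne'] at c2
      simp only [CodeAux.blk_name] at c2
      simp only [Pi.add_apply, hinv', Finset.sum_neg_distrib]
      linarith
  simp only [Pi.add_apply] at b1
  rw [integral_add (integrable_const _) (integrable_finsetSum Finset.univ fun j _ => hsh j),
    integral_finsetSum Finset.univ fun j _ => hsh j, integral_const, smul_eq_mul, ← hM,
    Finset.sum_congr rfl fun j _ => hsh' j] at b1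
  simp only [Finset.sum_const, Finset.card_univ, Fintype.card_fin, nsmul_eq_mul] at b1
  have b2 : M * Real.log R ≤ J * (γ / 3) := by
    rw [div_lt_iff₀ (by positivity)] at hJ
    exact (le_abs_self _).trans hJ.le
  have b3 := mul_le_mul_of_nonneg_left i4 hJ0.le
  have b4 : J * (γ / 3) ≤ J * (L * (γ / 3)) :=
    mul_le_mul_of_nonneg_left (le_mul_of_one_le_left (by positivity) hL1) hJ0.le
  push_cast
  nlinarith

end Pool.Agent.Lib.MP_901be3_an.Hd
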