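import Pool.Agent.Lib.MP_901be3_an.Hd.Defs

namespace Pool.Agent.Lib.MP_901be3_an.Hd

open MeasureTheory Filter Topology Metric Set
open scoped ENNReal

theorem PartAux.notMem_frontier {X : Type*} [TopologicalSpace X] {s : Set X} {x : X} :
    x ∉ frontier s ↔ ∀ᶠ y in 𝓝 x, (y ∈ s ↔ x ∈ s) := by
  rw [← mem_compl_iff, compl_frontier_eq_union_interior, mem_union, mem_interior_iff_mem_nhds,
    mem_interior_iff_mem_nhds]
  constructor
  · rintro (h | h)
    · filter_upwards [h] with y hy using iff_of_true hy (mem_of_mem_nhds h)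
    · filter_upwards [h] with y hy using iff_of_false hy (mem_of_mem_nhds h)
  · intro h
    by_cases hx : x ∈ s
    · exact Or.inl (h.mono fun y hy => hy.2 hx)
    · exact Or.inr (h.mono fun y hy hy' => hx (hy.1 hy'))

/-- finite partitions of small diameter with null boundaries -/
theorem exists_part {X : Type*} [MetricSpace X] [CompactSpace X] [MeasurableSpace X]
    [BorelSpace X] (ξ : Measure X) [IsFiniteMeasure ξ] {r : ℝ} (hr : 0 < r) :
    ∃ (K : ℕ) (P : X → Fin K), (∀ a, MeasurableSet (P ⁻¹' {a})) ∧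
      (∀ a, ξ (frontier (P ⁻¹' {a})) = 0) ∧ ∀ x y, P x = P y → dist x y ≤ r := by
  classical
  have h1 : ∀ x : X, ∃ ρ ∈ Ioo 0 (r / 2), ξ (frontier (ball x ρ)) = 0 := fun x => by
    simpa only [thickening_singleton] using exists_null_frontier_thickening ξ {x} (half_pos hr)
  choose ρ hρ h0 using h1
  obtain ⟨t, ht⟩ := isCompact_univ.elim_finite_subcover (fun x => ball x (ρ x))
    (fun _ => isOpen_ball) fun x _ => mem_iUnion.2 ⟨x, mem_ball_self (hρ x).1⟩
  let π : X → t → Prop := fun x b => x ∈ ball b.1 (ρ b.1)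
  have mπ : Measurable π := measurable_pi_lambda _ fun b => measurableSet_ball.mem
  let e := Fintype.equivFin (t → Prop)
  refine ⟨_, fun x => e (π x), fun a => ?_, fun a => ?_, fun x y hxy => ?_⟩
  · exact ((measurable_of_finite e).comp mπ) (measurableSet_singleton a)
  · refine measure_mono_null (t := ⋃ b : t, frontier (ball b.1 (ρ b.1))) (fun x hx => ?_)
      (measure_iUnion_null fun b => h0 b.1)
    by_contra hc
    simp only [mem_iUnion, not_exists, PartAux.notMem_frontier] at hc
    refine PartAux.notMem_frontier.2 ?_ hx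
    filter_upwards [eventually_all.2 hc] with y hy
    have h2 : π y = π x := funext fun b => propext (hy b)
    simp only [mem_preimage, h2]
  · have h2 : π x = π y := e.injective hxy
    obtain ⟨b, hb, hx⟩ := mem_iUnion₂.1 (ht (mem_univ x))
    have hy : y ∈ ball b (ρ b) := (congrFun h2 ⟨b, hb⟩).mp hx
    rw [mem_ball] at hx hy
    linarith [dist_triangle_right x y b, (hρ b).2]

end Pool.Agent.Lib.MP_901be3_an.Hd
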