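import Pool.Agent.Lib.MP_901be3_an.Hd.Code
import Pool.Agent.Lib.MP_901be3_an.Hd.Part
import Pool.Agent.Lib.MP_901be3_an.Hd.ErgDec

namespace Pool.Agent.Lib.MP_901be3_an.Hd

open MeasureTheory Filter Topology Metric Set
open scoped ENNReal

namespace CodeBoundAux

/-- merging the atoms of `P'` with index in `T` into one new atom of `P` -/
def mrg {X : Type*} {K K' : ℕ} (P : X → Fin K) (P' : X → Fin K') (T : Finset (Fin K')) (x : X) :
    Fin (K + 1) :=
  if P' x ∈ T then Fin.last K else (P x).castSucc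

theorem mrg_last {X : Type*} {K K' : ℕ} (P : X → Fin K) (P' : X → Fin K') (T : Finset (Fin K')) :
    mrg P P' T ⁻¹' {Fin.last K} = ⋃ a ∈ T, P' ⁻¹' {a} := by
  ext x
  by_cases h : P' x ∈ T <;> simp [mrg, h]

theorem mrg_cast {X : Type*} {K K' : ℕ} (P : X → Fin K) (P' : X → Fin K') (T : Finset (Fin K'))
    (b : Fin K) : mrg P P' T ⁻¹' {b.castSucc} = P ⁻¹' {b} ∩ (⋃ a ∈ T, P' ⁻¹' {a})ᶜ := by
  ext x
  by_cases h : P' x ∈ T
  · simp [mrg, h, (Fin.castSucc_ne_last b).symm]
  · simp [mrg, h]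

theorem mrg_meas {X : Type*} [MeasurableSpace X] {K K' : ℕ} {P : X → Fin K} {P' : X → Fin K'}
    (hP : ∀ a, MeasurableSet (P ⁻¹' {a})) (hP' : ∀ a, MeasurableSet (P' ⁻¹' {a}))
    (T : Finset (Fin K')) (a : Fin (K + 1)) : MeasurableSet (mrg P P' T ⁻¹' {a}) := by
  have h := T.measurableSet_biUnion fun a _ => hP' a
  induction a using Fin.lastCases with
  | last => rw [mrg_last]; exact h
  | cast b => rw [mrg_cast]; exact (hP b).inter h.compl

theorem null_biUnion {X ι : Type*} [TopologicalSpace X] [MeasurableSpace X] {ξ : Measure X}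
    {A : ι → Set X} (hA : ∀ a, ξ (frontier (A a)) = 0) (T : Finset ι) :
    ξ (frontier (⋃ a ∈ T, A a)) = 0 := by
  classical
  induction T using Finset.induction_on with
  | empty => simp
  | insert a T _ ih =>
    rw [Finset.set_biUnion_insert]
    exact measure_mono_null (frontier_union_subset _ _) (measure_union_null
      (measure_mono_null inter_subset_left (hA a)) (measure_mono_null inter_subset_right ih))

theorem mrg_null {X : Type*} [TopologicalSpace X] [MeasurableSpace X] {ξ : Measure X} {K K' : ℕ}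
    {P : X → Fin K} {P' : X → Fin K'} (hP : ∀ a, ξ (frontier (P ⁻¹' {a})) = 0)
    (hP' : ∀ a, ξ (frontier (P' ⁻¹' {a})) = 0) (T : Finset (Fin K')) (a : Fin (K + 1)) :
    ξ (frontier (mrg P P' T ⁻¹' {a})) = 0 := by
  have h := null_biUnion hP' T
  induction a using Fin.lastCases with
  | last => rw [mrg_last]; exact h
  | cast b =>
    rw [mrg_cast]
    refine measure_mono_null (frontier_inter_subset _ _) (measure_union_null
      (measure_mono_null inter_subset_left (hP b)) (measure_mono_null inter_subset_right ?_))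
    rwa [frontier_compl]

/-- the entropy of partitions that are eventually trivial at almost every point tends to zero -/
theorem ent_tendsto {X ι : Type*} [MeasurableSpace X] [Fintype ι] (ν : Measure X)
    [IsProbabilityMeasure ν] {Q : ℕ → X → ι} (hQ : ∀ n a, MeasurableSet (Q n ⁻¹' {a})) (c : ι)
    (h : ∀ᵐ y ∂ν, ∀ᶠ n in atTop, Q n y = c) : Tendsto (fun n => partEnt ν (Q n)) atTop (𝓝 0) := by
  have h0 : (0 : ℝ) = ∑ a : ι, Real.negMulLog (ν.real ((fun _ : X => c) ⁻¹' {a})) := by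
    refine (Finset.sum_eq_zero fun a _ => ?_).symm
    by_cases ha : c = a
    · rw [preimage_const_of_mem (mem_singleton_iff.2 ha)]
      simp
    · rw [preimage_const_of_notMem (fun h => ha (mem_singleton_iff.1 h))]
      simp
  rw [h0]
  refine tendsto_finsetSum _ fun a _ => (Real.continuous_negMulLog.tendsto _).comp ?_
  refine (ENNReal.tendsto_toReal (measure_ne_top _ _)).comp ?_
  refine tendsto_measure_of_ae_tendsto_indicator_of_isFiniteMeasure atTop
    (MeasurableSet.const (c ∈ ({a} : Set ι))) (fun n => hQ n a) ?_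
  filter_upwards [h] with y hy
  filter_upwards [hy] with n hn
  simp [hn]

theorem exists_lt {X : Type*} [MeasurableSpace X] (ξ : Measure X) [IsFiniteMeasure ξ] {ψ : X → ℝ}
    (hψ : Integrable ψ ξ) {t : ℝ} (h : ∀ x, ψ x < t) :
    ∃ t' < t, ∫ x, ψ x ∂ξ ≤ t' * ξ.real univ := by
  rcases eq_or_ne ξ 0 with rfl | h0
  · exact ⟨t - 1, by linarith, by simp⟩
  have hpos : 0 < ξ.real univ := by
    have : NeZero ξ := ⟨h0⟩
    exact measureReal_univ_pos
  have h1 : 0 < ∫ x, (t - ψ x) ∂ξ := by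
    rw [integral_pos_iff_support_of_nonneg (fun x => (sub_pos.2 (h x)).le)
      ((integrable_const t).sub hψ)]
    have : Function.support (fun x => t - ψ x) = univ :=
      eq_univ_of_forall fun x => (sub_pos.2 (h x)).ne'
    rw [this]
    exact Measure.measure_univ_pos.2 h0
  rw [integral_sub (integrable_const t) hψ, integral_const, smul_eq_mul] at h1
  refine ⟨(∫ x, ψ x ∂ξ) / ξ.real univ, ?_, (div_mul_cancel₀ _ hpos.ne').ge⟩
  rw [div_lt_iff₀ hpos]
  linarith

end CodeBoundAux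

open CodeBoundAux in
/-- merging the atoms inside `U η` brings the mean code length below `t` -/
theorem codeBound {X : Type*} [MetricSpace X] [CompactSpace X] [MeasurableSpace X]
    [BorelSpace X] {f : X → X} {ξ : Measure X} [IsFiniteMeasure ξ]
    (hξ : MeasurePreserving f ξ ξ) {t : ℝ} (ht : 0 < t) (U : ℝ → Set X)
    (hUo : ∀ η, IsOpen (U η))
    (hU : ∀ η > 0, ∀ ν : Measure X, IsProbabilityMeasure ν → Ergodic f ν →
      ENNReal.ofReal t ≤ ksEnt f ν → ν (U η)ᶜ = 0) :
    ∃ t' < t, ∀ η > 0, ∀ γ > 0, ∃ (K : ℕ) (Q : X → Fin (K + 1)) (K' : Set X) (Lb : ℕ)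
      (q : (Fin Lb → Fin (K + 1)) → ℝ), (∀ a, MeasurableSet (Q ⁻¹' {a})) ∧
      (∀ a, ξ (frontier (Q ⁻¹' {a})) = 0) ∧ IsCompact K' ∧ K' ⊆ U η ∧
      (∀ x y, Q x = Q y → dist x y ≤ η ∨ x ∈ K') ∧ 0 < Lb ∧ (∀ w, 0 < q w) ∧ ∑ w, q w ≤ 1 ∧
      ∑ w, ξ.real (name f Q Lb ⁻¹' {w}) * -Real.log (q w) ≤ Lb * (t' * ξ.real univ + γ) := by
  classical
  obtain ⟨κ, k1, k2, k3, k4⟩ := ergdec hξ
  have k2' : ∀ᵐ x ∂ξ, MeasurePreserving f (κ x) (κ x) := k2.mono fun x hx => hx.toMeasurePreserving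
  have k5 : ∀ s, MeasurableSet s → Measurable fun x => κ x s := fun s hs =>
    (k3 s hs).mono (MeasurableSpace.invariants_le f) le_rfl
  choose K P p1 p2 p3 using fun m : ℕ =>
    exists_part ξ (r := 1 / ((m : ℝ) + 1)) Nat.one_div_pos_of_nat
  let I := (_ : ℕ) × (m' : ℕ) × Finset (Fin (K m'))
  let Q : (i : I) → X → Fin (K i.1 + 1) := fun i => mrg (P i.1) (P i.2.1) i.2.2
  have q1 : ∀ i a, MeasurableSet (Q i ⁻¹' {a}) := fun i => mrg_meas (p1 _) (p1 _) _
  let r : I → X → ℝ := fun i x => partRate f (κ x) (Q i)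
  have r1 : ∀ i, Measurable (r i) := fun i => measurable_partRate hξ.measurable k5 (q1 i)
  have r2 : ∀ i, ∀ᵐ x ∂ξ, 0 ≤ r i x ∧ r i x ≤ partEnt (κ x) (Q i) ∧
      |r i x| ≤ Real.log (Fintype.card (Fin (K i.1 + 1))) := by
    intro i
    filter_upwards [k2'] with x hx
    have := k1 x
    have a1 := partRate_nonneg hx (q1 i)
    have a2 := partRate_le_partEnt hx (q1 i)
    exact ⟨a1, a2, by rw [abs_of_nonneg a1]; exact a2.trans (partEnt_le_log _ (q1 i))⟩
  let H : X → ℝ≥0∞ := fun x => ⨆ i, ENNReal.ofReal (r i x)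
  have H1 : Measurable H := Measurable.iSup fun i => (r1 i).ennreal_ofReal
  have hG : MeasurableSet {x | H x < ENNReal.ofReal t} := measurableSet_lt H1 measurable_const
  let ψ : X → ℝ := {x | H x < ENNReal.ofReal t}.indicator fun x => (H x).toReal
  have ψ1 : Measurable ψ := H1.ennreal_toReal.indicator hG
  have ψ2 : ∀ x, 0 ≤ ψ x ∧ ψ x < t := by
    intro x
    by_cases hx : x ∈ {x | H x < ENNReal.ofReal t}
    · simp only [ψ, indicator_of_mem hx]
      exact ⟨ENNReal.toReal_nonneg, ENNReal.toReal_lt_of_lt_ofReal hx⟩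
    · simp only [ψ, indicator_of_notMem hx]
      exact ⟨le_rfl, ht⟩
  have ψ3 : Integrable ψ ξ := Integrable.of_bound ψ1.aestronglyMeasurable t
    (Eventually.of_forall fun x => by
      rw [Real.norm_eq_abs, abs_of_nonneg (ψ2 x).1]; exact (ψ2 x).2.le)
  obtain ⟨t', ht', hint⟩ := exists_lt ξ ψ3 fun x => (ψ2 x).2
  refine ⟨t', ht', fun η hη γ hγ => ?_⟩
  obtain ⟨m, hm⟩ := exists_nat_one_div_lt hη
  let T : (m' : ℕ) → Finset (Fin (K m')) := fun m' =>
    Finset.univ.filter fun a => closure (P m' ⁻¹' {a}) ⊆ U η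
  let F : ℕ → X → ℝ := fun m' => {x | H x < ENNReal.ofReal t}ᶜ.indicator (r ⟨m, m', T m'⟩)
  have F1 : ∀ m', Measurable (F m') := fun m' => (r1 _).indicator hG.compl
  have F2 : ∀ m', ∀ᵐ x ∂ξ, ‖F m' x‖ ≤ Real.log (Fintype.card (Fin (K m + 1))) := by
    intro m'
    filter_upwards [r2 ⟨m, m', T m'⟩] with x hx
    exact (norm_indicator_le_norm_self _ _).trans hx.2.2
  have F3 : ∀ᵐ x ∂ξ, Tendsto (fun m' => F m' x) atTop (𝓝 0) := by
    filter_upwards [k2, ae_all_iff.2 fun m' => r2 ⟨m, m', T m'⟩] with x hx h2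
    by_cases hxG : x ∈ {x | H x < ENNReal.ofReal t}ᶜ
    · simp only [F, indicator_of_mem hxG]
      have := k1 x
      have h3 : ENNReal.ofReal t ≤ ksEnt f (κ x) :=
        (not_lt.1 (show ¬ H x < ENNReal.ofReal t from hxG)).trans
          (iSup_le fun i => partRate_le_ksEnt _ _ (q1 i))
      have h4 : ∀ᵐ y ∂κ x, y ∈ U η := hU η hη _ this hx h3
      refine squeeze_zero (g := fun m' => partEnt (κ x) (mrg (P m) (P m') (T m')))
        (fun m' => (h2 m').1) (fun m' => (h2 m').2.1)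
        (ent_tendsto (κ x) (Q := fun m' => mrg (P m) (P m') (T m'))
          (fun m' => mrg_meas (p1 _) (p1 _) _) (Fin.last (K m)) ?_)
      filter_upwards [h4] with y hy
      obtain ⟨ε, hε, hb⟩ := Metric.isOpen_iff.1 (hUo η) y hy
      filter_upwards [(tendsto_one_div_add_atTop_nhds_zero_nat (𝕜 := ℝ)).eventually
        (gt_mem_nhds hε)] with m' hm'
      refine if_pos (Finset.mem_filter.2 ⟨Finset.mem_univ _, ?_⟩)
      refine (closure_minimal (fun z hz => ?_) (isClosed_closedBall (x := y)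
        (ε := 1 / ((m' : ℝ) + 1)))).trans ((closedBall_subset_ball hm').trans hb)
      exact p3 m' z y hz
    · simp only [F, indicator_of_notMem hxG]
      exact tendsto_const_nhds
  have F4 := tendsto_integral_of_dominated_convergence _ (fun m' => (F1 m').aestronglyMeasurable)
    (integrable_const _) F2 F3
  rw [integral_zero] at F4
  obtain ⟨m', hm'⟩ := (F4.eventually (gt_mem_nhds (half_pos hγ))).exists
  have key : ∫ x, r ⟨m, m', T m'⟩ x ∂ξ ≤ t' * ξ.real univ + γ / 2 := by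
    have i1 : Integrable (F m') ξ := Integrable.of_bound (F1 m').aestronglyMeasurable _ (F2 m')
    have i2 : Integrable (r ⟨m, m', T m'⟩) ξ := Integrable.of_bound (r1 _).aestronglyMeasurable _
      ((r2 ⟨m, m', T m'⟩).mono fun x hx => hx.2.2)
    have h1 : ∫ x, r ⟨m, m', T m'⟩ x ∂ξ ≤ ∫ x, (ψ x + F m' x) ∂ξ := by
      refine integral_mono i2 (ψ3.add i1) fun x => ?_
      by_cases hx : x ∈ {x | H x < ENNReal.ofReal t}
      · simp only [ψ, F, indicator_of_mem hx, indicator_of_notMem (notMem_compl_iff.2 hx), add_zero]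
        exact (ENNReal.ofReal_le_iff_le_toReal (ne_top_of_lt hx)).1
          (le_iSup (fun i => ENNReal.ofReal (r i x)) _)
      · simp only [ψ, F, indicator_of_notMem hx, indicator_of_mem (mem_compl hx), zero_add, le_rfl]
    rw [integral_add ψ3 i1] at h1
    linarith
  obtain ⟨Lb, hLb, q, c1, c2, c3⟩ := code hξ k1 k2' k3 k4 (q1 ⟨m, m', T m'⟩) (half_pos hγ)
  refine ⟨K m, Q ⟨m, m', T m'⟩, ⋃ a ∈ T m', closure (P m' ⁻¹' {a}), Lb, q, q1 ⟨m, m', T m'⟩,
    mrg_null (p2 _) (p2 _) _, (T m').isCompact_biUnion fun a _ => isClosed_closure.isCompact,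
    iUnion₂_subset fun a ha => (Finset.mem_filter.1 ha).2, fun x y hxy => ?_, hLb, c1, c2,
    c3.trans (mul_le_mul_of_nonneg_left (by linarith) (Nat.cast_nonneg _))⟩
  by_cases hx : P m' x ∈ T m'
  · exact Or.inr (mem_biUnion hx (subset_closure rfl))
  · refine Or.inl ((p3 m x y ?_).trans hm.le)
    have h1 : y ∈ mrg (P m) (P m') (T m') ⁻¹' {(P m x).castSucc} := by
      refine mem_preimage.2 (mem_singleton_iff.2 ?_)
      refine hxy.symm.trans ?_
      exact if_neg hx
    rw [mrg_cast] at h1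
    exact h1.1.symm

end Pool.Agent.Lib.MP_901be3_an.Hd
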