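import Pool.Agent.Lib.MP_901be3_an.Hd.Defs

namespace Pool.Agent.Lib.MP_901be3_an.Hd

open MeasureTheory Filter Topology Metric Set
open scoped ENNReal

namespace CovAux

theorem mem_cov {M : ℕ} {E : Set ℕ} {m j : ℕ} :
    j ∈ cov M E m ↔ ∃ a b, a ≤ j ∧ j < b ∧ b ≤ m ∧ b ≤ a + M ∧ a ∈ E ∧ b ∈ E := by
  unfold cov
  simp only [Finset.mem_filter, Finset.mem_range, and_iff_right_iff_imp]
  rintro ⟨a, b, _, h2, h3, _⟩
  omega

theorem mem_rst {M : ℕ} {E : Set ℕ} {m j : ℕ} :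
    j ∈ rst M E m ↔ j < m ∧ j ∉ cov M E m ∧ j + 1 ∈ E := by
  unfold rst
  simp only [Finset.mem_filter, Finset.mem_range]

theorem mem_exits {T : Finset ℕ} {j : ℕ} : j ∈ exits T ↔ j ∈ T ∧ j + 1 ∉ T := Finset.mem_filter

theorem mem_tms {p m : ℕ} (hp : 0 < p) {C : Finset ℕ} (hC : C ⊆ Finset.range m) {j : ℕ} :
    j ∈ tms p m C ↔ j / p ∈ C := by
  unfold tms
  simp only [Finset.mem_filter, Finset.mem_range, and_iff_right_iff_imp]
  exact fun h => (Nat.div_lt_iff_lt_mul hp).1 (Finset.mem_range.1 (hC h))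

theorem sparse_card {M m : ℕ} (hM : 0 < M) {T : Finset ℕ} (hT : ∀ j ∈ T, j < m)
    (h : ∀ j ∈ T, ∀ j' ∈ T, j < j' → j + M ≤ j') : T.card ≤ m / M + 1 := by
  rw [← Finset.card_range (m / M + 1)]
  refine Finset.card_le_card_of_injOn (fun j => j / M) (fun j hj => ?_) (fun j hj j' hj' e => ?_)
  · exact Finset.mem_coe.2 (Finset.mem_range.2
      (Nat.lt_succ_of_le (Nat.div_le_div_right (hT j hj).le)))
  · have key : ∀ i ∈ T, ∀ i' ∈ T, i < i' → i / M < i' / M := fun i hi i' hi' hlt => by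
      have h1 := Nat.div_le_div_right (c := M) (h i hi i' hi' hlt)
      rw [Nat.add_div_right _ hM] at h1
      exact h1
    rcases lt_trichotomy j j' with h1 | h1 | h1
    · exact absurd e (key j hj j' hj' h1).ne
    · exact h1
    · exact absurd e (key j' hj' j hj h1).ne'

/-- the places where membership changes -/
def chg (m : ℕ) (C : Finset ℕ) : Finset ℕ :=
  (Finset.range m).filter fun j => ¬ (j ∈ C ↔ j + 1 ∈ C)

theorem chg_inj {m : ℕ} {C C' : Finset ℕ} (hC : C ⊆ Finset.range m) (hC' : C' ⊆ Finset.range m)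
    (h : chg m C = chg m C') : C = C' := by
  have key : ∀ k j, m ≤ j + k → (j ∈ C ↔ j ∈ C') := by
    intro k
    induction k with
    | zero =>
      intro j hj
      exact ⟨fun h1 => absurd (Finset.mem_range.1 (hC h1)) (by omega),
        fun h1 => absurd (Finset.mem_range.1 (hC' h1)) (by omega)⟩
    | succ k ih =>
      intro j hj
      rcases le_or_gt m (j + k) with h1 | h1
      · exact ih j h1
      · have h2 := ih (j + 1) (by omega)
        have h3 := Finset.ext_iff.1 h j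
        simp only [chg, Finset.mem_filter, Finset.mem_range, show j < m by omega, true_and] at h3
        tauto
  exact Finset.ext fun j => key m j (by omega)

theorem chg_card (m : ℕ) (C : Finset ℕ) : (chg m C).card ≤ 2 * (exits C).card := by
  have h1 : (C.image (· + 1)).card = C.card :=
    Finset.card_image_of_injective _ (add_left_injective 1)
  have h2 : (C.image (· + 1) \ C).card ≤ (exits C).card := by
    refine le_trans (Finset.card_le_card (t := (exits C).image (· + 1)) fun j hj => ?_)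
      Finset.card_image_le
    obtain ⟨h3, h4⟩ := Finset.mem_sdiff.1 hj
    obtain ⟨i, hi, rfl⟩ := Finset.mem_image.1 h3
    exact Finset.mem_image.2 ⟨i, mem_exits.2 ⟨hi, h4⟩, rfl⟩
  rw [Finset.card_sdiff_comm h1] at h2
  have h3 : chg m C ⊆ exits C ∪ (C \ C.image (· + 1)).image (· - 1) := by
    intro j hj
    have h4 := (Finset.mem_filter.1 hj).2
    by_cases h5 : j ∈ C
    · exact Finset.mem_union_left _ (mem_exits.2 ⟨h5, by tauto⟩)
    · refine Finset.mem_union_right _ (Finset.mem_image.2 ⟨j + 1, Finset.mem_sdiff.2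
        ⟨by tauto, fun h6 => ?_⟩, rfl⟩)
      obtain ⟨i, hi, e⟩ := Finset.mem_image.1 h6
      exact h5 (Nat.add_right_cancel e ▸ hi)
  have h4 := (Finset.card_le_card h3).trans (Finset.card_union_le _ _)
  have h5 := Finset.card_image_le (s := C \ C.image (· + 1)) (f := (· - 1))
  omega

end CovAux

open CovAux

theorem cov_subset (M : ℕ) (E : Set ℕ) (m : ℕ) : cov M E m ⊆ Finset.range m := by
  classical
  intro j hj
  unfold cov at hj
  exact (Finset.mem_filter.1 hj).1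

theorem cov_zero (E : Set ℕ) (m : ℕ) : cov 0 E m = ∅ := by
  refine Finset.eq_empty_of_forall_notMem fun j hj => ?_
  obtain ⟨a, b, h1, h2, _, h4, _⟩ := mem_cov.1 hj
  omega

theorem cov_mono {M M' : ℕ} (h : M ≤ M') (E : Set ℕ) (m : ℕ) : cov M E m ⊆ cov M' E m := by
  intro j hj
  obtain ⟨a, b, h1, h2, h3, h4, h5⟩ := mem_cov.1 hj
  exact mem_cov.2 ⟨a, b, h1, h2, h3, by omega, h5⟩

theorem cov_prev {M : ℕ} {E : Set ℕ} {m j : ℕ} (hj : j ∈ cov M E m) (h1 : j + 1 ∈ E) :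
    ∃ a ∈ cov M E m, a ∈ E ∧ a ≤ j ∧ j + 1 ≤ a + M := by
  obtain ⟨a, b, a1, a2, a3, a4, a5, a6⟩ := mem_cov.1 hj
  exact ⟨a, mem_cov.2 ⟨a, b, le_rfl, by omega, a3, a4, a5, a6⟩, a5, a1, by omega⟩

theorem cov_exit {M : ℕ} {E : Set ℕ} {m j : ℕ} (hj : j ∈ cov M E m)
    (h1 : j + 1 ∉ cov M E m) : j + 1 ∈ E := by
  obtain ⟨a, b, a1, a2, a3, a4, a5, a6⟩ := mem_cov.1 hj
  by_cases h : j + 1 = b
  · exact h ▸ a6
  · exact absurd (mem_cov.2 ⟨a, b, by omega, by omega, a3, a4, a5, a6⟩) h1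

theorem exits_cov_card (M : ℕ) (E : Set ℕ) (m : ℕ) : (exits (cov M E m)).card ≤ m / M + 1 := by
  rcases Nat.eq_zero_or_pos M with rfl | hM
  · simp [cov_zero, exits]
  refine sparse_card hM (fun j hj => Finset.mem_range.1 (cov_subset M E m (mem_exits.1 hj).1))
    fun j hj j' hj' hlt => ?_
  obtain ⟨a1, a2⟩ := mem_exits.1 hj
  obtain ⟨b1, b2⟩ := mem_exits.1 hj'
  have b3 := Finset.mem_range.1 (cov_subset M E m b1)
  by_contra hcon
  exact a2 (mem_cov.2 ⟨j + 1, j' + 1, le_rfl, by omega, by omega, by omega, cov_exit a1 a2,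
    cov_exit b1 b2⟩)

theorem rst_card {M : ℕ} (hM : 0 < M) (E : Set ℕ) (m : ℕ) : (rst M E m).card ≤ m / M + 1 := by
  refine sparse_card hM (fun j hj => (mem_rst.1 hj).1) fun j hj j' hj' hlt => ?_
  obtain ⟨_, _, a3⟩ := mem_rst.1 hj
  obtain ⟨b1, b2, b3⟩ := mem_rst.1 hj'
  by_contra hcon
  exact b2 (mem_cov.2 ⟨j + 1, j' + 1, by omega, by omega, by omega, by omega, a3, b3⟩)

theorem tms_subset (p m : ℕ) (C : Finset ℕ) : tms p m C ⊆ Finset.range (m * p) := Finset.filter_subset _ _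

theorem tms_mono (p m : ℕ) {C C' : Finset ℕ} (h : C ⊆ C') : tms p m C ⊆ tms p m C' := fun _ hj =>
  Finset.mem_filter.2 ⟨(Finset.mem_filter.1 hj).1, h (Finset.mem_filter.1 hj).2⟩

theorem tms_card {p m : ℕ} {C : Finset ℕ} (hC : C ⊆ Finset.range m) :
    (tms p m C).card = p * C.card := by
  rcases Nat.eq_zero_or_pos p with rfl | hp
  · simp [tms]
  rw [← Finset.card_range p, ← Finset.card_product, Finset.card_range]
  refine Finset.card_nbij' (fun j => (j % p, j / p)) (fun x => x.1 + p * x.2) (fun j hj => ?_)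
    (fun x hx => ?_) (fun j _ => Nat.mod_add_div j p) (fun x hx => ?_)
  · exact Finset.mem_coe.2 (Finset.mem_product.2
      ⟨Finset.mem_range.2 (Nat.mod_lt j hp), (mem_tms hp hC).1 hj⟩)
  · obtain ⟨h1, h2⟩ := Finset.mem_product.1 (Finset.mem_coe.1 hx)
    refine Finset.mem_coe.2 ((mem_tms hp hC).2 ?_)
    rw [Nat.add_mul_div_left _ _ hp, Nat.div_eq_of_lt (Finset.mem_range.1 h1), zero_add]
    exact h2
  · obtain ⟨h1, _⟩ := Finset.mem_product.1 (Finset.mem_coe.1 hx)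
    have h3 := Finset.mem_range.1 h1
    simp only [Nat.add_mul_mod_self_left, Nat.mod_eq_of_lt h3, Nat.add_mul_div_left _ _ hp,
      Nat.div_eq_of_lt h3, zero_add]

theorem mul_mem_tms {p m : ℕ} (hp : 0 < p) {C : Finset ℕ} (hC : C ⊆ Finset.range m) {a : ℕ}
    (ha : a ∈ C) : p * a ∈ tms p m C := by
  rw [mem_tms hp hC, Nat.mul_div_cancel_left _ hp]
  exact ha

theorem exits_tms_card {p m : ℕ} (hp : 0 < p) {C : Finset ℕ} (hC : C ⊆ Finset.range m) :
    (exits (tms p m C)).card = (exits C).card := by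
  have e1 : ∀ a, (p - 1 + p * a) / p = a := fun a => by
    rw [Nat.add_mul_div_left _ _ hp, Nat.div_eq_of_lt (by omega), zero_add]
  have e2 : ∀ a, (p - 1 + p * a + 1) / p = a + 1 := fun a => by
    rw [show p - 1 + p * a + 1 = p * (a + 1) by rw [mul_add]; omega, Nat.mul_div_cancel_left _ hp]
  have e3 : ∀ j ∈ exits (tms p m C), p - 1 + p * (j / p) = j := by
    intro j hj
    obtain ⟨h1, h2⟩ := mem_exits.1 hj
    rw [mem_tms hp hC] at h1 h2
    have h3 := Nat.mod_add_div j p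
    have h4 := Nat.mod_lt j hp
    by_contra hcon
    apply h2
    rw [show j + 1 = j % p + 1 + p * (j / p) by omega, Nat.add_mul_div_left _ _ hp,
      Nat.div_eq_of_lt (by omega), zero_add]
    exact h1
  refine Finset.card_nbij' (fun j => j / p) (fun a => p - 1 + p * a) (fun j hj => ?_)
    (fun a ha => ?_) e3 (fun a _ => e1 a)
  · obtain ⟨h1, h2⟩ := mem_exits.1 hj
    rw [mem_tms hp hC] at h1 h2
    rw [← e3 j hj, e2] at h2
    exact mem_exits.2 ⟨h1, h2⟩
  · obtain ⟨h1, h2⟩ := mem_exits.1 ha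
    refine mem_exits.2 ⟨(mem_tms hp hC).2 ?_, fun h => h2 ?_⟩
    · rw [e1]
      exact h1
    · rw [mem_tms hp hC, e2] at h
      exact h

/-- number of small subsets -/
theorem card_small_subsets (m K : ℕ) {θ : ℝ} (hθ : 0 < θ) (hθ1 : θ ≤ 1) :
    (((Finset.range m).powerset.filter fun R => R.card ≤ K).card : ℝ) ≤
      θ⁻¹ ^ K * (1 + θ) ^ m := by
  have h1 : (1 + θ) ^ m = ∑ R ∈ (Finset.range m).powerset, θ ^ R.card := by
    have h := Finset.prod_one_add (f := fun _ : ℕ => θ) (Finset.range m)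
    simpa using h
  rw [inv_pow, ← div_eq_inv_mul, le_div_iff₀ (pow_pos hθ K), h1, ← nsmul_eq_mul]
  refine le_trans (Finset.card_nsmul_le_sum _ (fun R => θ ^ R.card) _ fun R hR => ?_)
    (Finset.sum_le_sum_of_subset_of_nonneg (Finset.filter_subset _ _) fun R _ _ => by positivity)
  exact pow_le_pow_of_le_one hθ.le hθ1 (Finset.mem_filter.1 hR).2

open Classical in
/-- the number of possible combinatorial data is subexponential -/
theorem data_card {γ : ℝ} (hγ : 0 < γ) : ∃ M₁ : ℕ, 0 < M₁ ∧ ∃ C : ℝ, ∀ M₀ M m : ℕ, M₁ ≤ M₀ →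
    M₀ ≤ M → ∀ (S : Finset ℝ) (E : ℝ → Set ℕ),
      ((S.image fun x => (cov M₀ (E x) m, rst M₀ (E x) m, cov M (E x) m)).card : ℝ) ≤
        Real.exp (γ * m + C) := by
  obtain ⟨θ, hθ, hθ1, hθγ⟩ : ∃ θ : ℝ, 0 < θ ∧ θ ≤ 1 ∧ θ ≤ γ / 6 :=
    ⟨min 1 (γ / 6), by positivity, min_le_left _ _, min_le_right _ _⟩
  have hl : 0 ≤ Real.log θ⁻¹ := Real.log_nonneg ((one_le_inv₀ hθ).2 hθ1)
  obtain ⟨N, hN⟩ := exists_nat_ge (12 * Real.log θ⁻¹ / γ)
  refine ⟨N + 1, Nat.succ_pos N, 6 * Real.log θ⁻¹, fun M₀ M m h0 hM S E => ?_⟩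
  set K := 2 * (m / (N + 1) + 1) with hK
  set W := (Finset.range m).powerset.filter fun R => R.card ≤ K with hW
  have hd0 : m / M₀ ≤ m / (N + 1) := Nat.div_le_div_left h0 (Nat.succ_pos N)
  have hd : m / M ≤ m / (N + 1) := Nat.div_le_div_left (h0.trans hM) (Nat.succ_pos N)
  have h1 : (S.image fun x => (cov M₀ (E x) m, rst M₀ (E x) m, cov M (E x) m)).card ≤
      (W ×ˢ W ×ˢ W).card := by
    refine Finset.card_le_card_of_injOn (fun t => (chg m t.1, t.2.1, chg m t.2.2))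
      (fun t ht => ?_) (fun t ht t' ht' e => ?_)
    · obtain ⟨x, _, rfl⟩ := Finset.mem_image.1 (Finset.mem_coe.1 ht)
      have a1 := chg_card m (cov M₀ (E x) m)
      have a2 := exits_cov_card M₀ (E x) m
      have a3 := chg_card m (cov M (E x) m)
      have a4 := exits_cov_card M (E x) m
      have a5 := rst_card (M := M₀) (by omega) (E x) m
      simp only [Finset.mem_coe, Finset.mem_product, hW, Finset.mem_filter, Finset.mem_powerset]
      exact ⟨⟨Finset.filter_subset _ _, by omega⟩,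
        ⟨fun j hj => Finset.mem_range.2 (mem_rst.1 hj).1, by omega⟩,
        Finset.filter_subset _ _, by omega⟩
    · obtain ⟨x, _, rfl⟩ := Finset.mem_image.1 (Finset.mem_coe.1 ht)
      obtain ⟨y, _, rfl⟩ := Finset.mem_image.1 (Finset.mem_coe.1 ht')
      simp only [Prod.mk.injEq] at e ⊢
      exact ⟨chg_inj (cov_subset _ _ _) (cov_subset _ _ _) e.1, e.2.1,
        chg_inj (cov_subset _ _ _) (cov_subset _ _ _) e.2.2⟩
  have h2 : (W.card : ℝ) ≤ Real.exp (K * Real.log θ⁻¹ + m * θ) := by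
    refine (card_small_subsets m K hθ hθ1).trans ?_
    rw [Real.exp_add, Real.exp_nat_mul, Real.exp_nat_mul, Real.exp_log (inv_pos.2 hθ)]
    gcongr
    linarith [Real.add_one_le_exp θ]
  have h3 : (K : ℝ) * Real.log θ⁻¹ ≤ γ / 6 * m + 2 * Real.log θ⁻¹ := by
    have a1 : ((m / (N + 1) : ℕ) : ℝ) ≤ (m : ℝ) / ((N + 1 : ℕ) : ℝ) := Nat.cast_div_le
    have a2 : (0 : ℝ) < ((N + 1 : ℕ) : ℝ) := Nat.cast_pos.2 (Nat.succ_pos N)
    have a3 : Real.log θ⁻¹ / ((N + 1 : ℕ) : ℝ) ≤ γ / 12 := by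
      rw [div_le_iff₀ hγ] at hN
      rw [div_le_iff₀ a2]
      push_cast
      nlinarith
    have a4 := mul_le_mul_of_nonneg_right a1 hl
    have a5 := mul_le_mul_of_nonneg_left a3 (Nat.cast_nonneg (α := ℝ) m)
    rw [div_mul_eq_mul_div, mul_div_assoc] at a4
    rw [hK, Nat.cast_mul, Nat.cast_add, Nat.cast_one, Nat.cast_ofNat]
    linarith
  have h4 := mul_le_mul_of_nonneg_left hθγ (Nat.cast_nonneg (α := ℝ) m)
  have h5 : (W.card : ℝ) ≤ Real.exp ((γ * m + 6 * Real.log θ⁻¹) / 3) :=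
    h2.trans (Real.exp_le_exp.2 (by linarith))
  refine (Nat.cast_le.2 h1).trans ?_
  rw [Finset.card_product, Finset.card_product, show γ * m + 6 * Real.log θ⁻¹ =
    (γ * m + 6 * Real.log θ⁻¹) / 3 + ((γ * m + 6 * Real.log θ⁻¹) / 3 +
      (γ * m + 6 * Real.log θ⁻¹) / 3) by ring, Real.exp_add, Real.exp_add]
  push_cast
  gcongr

end Pool.Agent.Lib.MP_901be3_an.Hd
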