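import Pool.Agent.Lib.MP_901be3_an.Hd.SDefs

/-!
Definitions used in the proof (not in the statement).
-/

namespace Pool.Agent.Lib.MP_901be3_an.Hd

open MeasureTheory Filter Topology Metric Set
open scoped ENNReal

/-! ### Plane, determinants, Hölder classes -/

/-- The plane with the sup norm. -/
abbrev V : Type := ℝ × ℝ

/-- determinant of two vectors -/
def det (v w : V) : ℝ := v.1 * w.2 - v.2 * w.1

/-- determinant of a linear map of the plane -/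
def detL (T : V →L[ℝ] V) : ℝ := det (T (1, 0)) (T (0, 1))

/-- diagonal map -/
noncomputable def diag (a b : ℝ) : V →L[ℝ] V :=
  (a • ContinuousLinearMap.fst ℝ ℝ ℝ).prod (b • ContinuousLinearMap.snd ℝ ℝ ℝ)

/-- the linear map `(a, b) ↦ a u + b s` -/
noncomputable def Cm (u s : V) : V →L[ℝ] V :=
  (ContinuousLinearMap.fst ℝ ℝ ℝ).smulRight u + (ContinuousLinearMap.snd ℝ ℝ ℝ).smulRight s

/-- the inverse of `Cm u s` when `det u s ≠ 0` -/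
noncomputable def Ci (u s : V) : V →L[ℝ] V :=
  (det u s)⁻¹ • Cm (s.2, -u.2) (-s.1, u.1)

/-- bounded by `B` and `α`-Hölder with constant `B` on `U` -/
def Hol {E F : Type} [NormedAddCommGroup E] [NormedAddCommGroup F] (α B : ℝ) (g : E → F)
    (U : Set E) : Prop :=
  (∀ x ∈ U, ‖g x‖ ≤ B) ∧ ∀ x ∈ U, ∀ y ∈ U, ‖g x - g y‖ ≤ B * ‖x - y‖ ^ α

/-- `C^{n,α}` norm at most `B` on `U`, for maps (Fréchet derivatives) -/
def Cr {E : Type} [NormedAddCommGroup E] [NormedSpace ℝ E] (α : ℝ) :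
    ℕ → {F : Type} → [NormedAddCommGroup F] → [NormedSpace ℝ F] → ℝ → (E → F) → Set E → Prop
  | 0, _, _, _, B, g, U => Hol α B g U
  | n + 1, _, _, _, B, g, U =>
      Hol α B g U ∧ (∀ x ∈ U, DifferentiableAt ℝ g x) ∧ Cr α n B (fderiv ℝ g) U

/-- `C^{n,α}` norm at most `B` on `I`, for curves -/
def Cc {F : Type} [NormedAddCommGroup F] [NormedSpace ℝ F] (α : ℝ) :
    ℕ → ℝ → (ℝ → F) → Set ℝ → Prop
  | 0, B, u, I => Hol α B u I
  | n + 1, B, u, I => Hol α B u I ∧ (∀ s ∈ I, DifferentiableAt ℝ u s) ∧ Cc α n B (deriv u) I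

/-- `n` times differentiable on `I` with `n`-th derivative `α`-Hölder with constant `H` -/
def TopH {F : Type} [NormedAddCommGroup F] [NormedSpace ℝ F] (α : ℝ) :
    ℕ → ℝ → (ℝ → F) → Set ℝ → Prop
  | 0, H, u, I => ∀ s ∈ I, ∀ t ∈ I, ‖u s - u t‖ ≤ H * |s - t| ^ α
  | n + 1, H, u, I => (∀ s ∈ I, DifferentiableAt ℝ u s) ∧ TopH α n H (deriv u) I

/-- the parameter interval of curves -/
abbrev II : Set ℝ := Ioo (-1) 1

/-- affine reparametrization of a curve on `(s - ρ, s + ρ)` -/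
def rp {Y : Type*} (σ : ℝ → Y) (s ρ : ℝ) : ℝ → Y := fun τ => σ (s + ρ * τ)

/-! ### Hyperbolic sequences of maps of the box -/

/-- almost diagonal hyperbolic map of the unit box -/
def HMap (κ : ℝ) (F : V → V) : Prop :=
  ∃ a b : ℝ, 1 + κ ≤ |a| ∧ |b| ≤ (1 + κ)⁻¹ ∧ ‖F 0‖ ≤ κ / 100 ∧
    ∀ v : V, ‖v‖ ≤ 1 → DifferentiableAt ℝ F v ∧ ‖fderiv ℝ F v - diag a b‖ ≤ κ / 100

/-- orbit along a sequence of maps -/
def orb {Y : Type*} (F : ℕ → Y → Y) : ℕ → Y → Y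
  | 0, v => v
  | n + 1, v => F n (orb F n v)

/-- the orbit stays in the unit box -/
def Stay (F : ℕ → V → V) (v : V) : Prop := ∀ n, ‖orb F n v‖ ≤ 1

/-- linear cocycle over `T` generated by `A` -/
noncomputable def coc {X : Type*} (T : X → X) (A : X → V →L[ℝ] V) : ℕ → X → V →L[ℝ] V
  | 0, _ => ContinuousLinearMap.id ℝ V
  | n + 1, x => (A (T^[n] x)).comp (coc T A n x)

/-! ### Covered steps and empirical measures -/

open Classical in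
/-- steps `j < m` lying between two elements of `E` at distance at most `M` -/
noncomputable def cov (M : ℕ) (E : Set ℕ) (m : ℕ) : Finset ℕ :=
  (Finset.range m).filter fun j => ∃ a b, a ≤ j ∧ j < b ∧ b ≤ m ∧ b ≤ a + M ∧ a ∈ E ∧ b ∈ E

open Classical in
/-- uncovered steps leading to an element of `E` -/
noncomputable def rst (M : ℕ) (E : Set ℕ) (m : ℕ) : Finset ℕ :=
  (Finset.range m).filter fun j => j ∉ cov M E m ∧ j + 1 ∈ E

/-- the times `j < m p` whose step `j / p` lies in `C` -/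
def tms (p m : ℕ) (C : Finset ℕ) : Finset ℕ :=
  (Finset.range (m * p)).filter fun j => j / p ∈ C

/-- last elements of the runs of `T` -/
def exits (T : Finset ℕ) : Finset ℕ := T.filter fun j => j + 1 ∉ T

/-- empirical measure of the orbits of the points `σ s`, `s ∈ S`, at the times `T s` -/
noncomputable def emp {X : Type*} [MeasurableSpace X] (g : X → X) (σ : ℝ → X) (S : Finset ℝ)
    (T : ℝ → Finset ℕ) (n : ℕ) : Measure X :=
  ((S.card * n : ℕ) : ℝ≥0∞)⁻¹ • ∑ s ∈ S, ∑ j ∈ T s, Measure.dirac (g^[j] (σ s))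

/-! ### Atlas -/

/-- A finite bi-Lipschitz atlas of a metric space by discs. -/
structure Atlas (X : Type*) [MetricSpace X] [MeasurableSpace X] where
  N : ℕ
  e : Fin N → OpenPartialHomeomorph X V
  L : ℝ
  idx : X → Fin N
  one_le_L : 1 ≤ L
  target_eq : ∀ i, (e i).target = ball 0 3
  idx_src : ∀ x, x ∈ (e (idx x)).source
  idx_lt : ∀ x, ‖e (idx x) x‖ < 1
  idx_meas : Measurable idx
  lip_up : ∀ i, ∀ x ∈ (e i).source, ∀ y ∈ (e i).source, dist x y ≤ L * ‖e i x - e i y‖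
  lip_low : ∀ i, ∀ x ∈ (e i).source, ∀ y ∈ (e i).source, ‖e i x - e i y‖ ≤ L * dist x y
  leb : ∀ i, ∀ x ∈ (e i).source, ‖e i x‖ < 2 → ∀ y, dist x y < L⁻¹ → y ∈ (e i).source

/-- Regularity parameters: exponent `r = n + 1 + α`, radius `ρ`, bound `B`. -/
structure Par where
  α : ℝ
  n : ℕ
  ρ : ℝ
  B : ℝ
  α_pos : 0 < α
  α_le : α ≤ 1
  ρ_pos : 0 < ρ
  ρ_le : ρ ≤ 1
  one_le_B : 1 ≤ B

/-- the regularity exponent -/
def Par.r (P : Par) : ℝ := P.n + 1 + P.α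

variable {X : Type*} [MetricSpace X] [MeasurableSpace X]

namespace Atlas

variable (A : Atlas X)

/-- good domain of the chart `i` -/
def Gd (i : Fin A.N) (x : X) : Prop := x ∈ (A.e i).source ∧ ‖A.e i x‖ < 2

/-- `g` in the charts `i`, `j` -/
def rep (g : X → X) (i j : Fin A.N) : V → V := fun v => A.e j (g ((A.e i).symm v))

/-- derivative of `g` at `x` in the charts `i`, `j` -/
noncomputable def DD (g : X → X) (i j : Fin A.N) (x : X) : V →L[ℝ] V :=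
  fderiv ℝ (A.rep g i j) (A.e i x)

/-- derivative of `g` at `x` in the preferred charts -/
noncomputable def D (g : X → X) (x : X) : V →L[ℝ] V := A.DD g (A.idx x) (A.idx (g x)) x

/-- continuous, and differentiable in good domains -/
def Dif (g : X → X) : Prop :=
  Continuous g ∧ ∀ i j x, A.Gd i x → A.Gd j (g x) → DifferentiableAt ℝ (A.rep g i j) (A.e i x)

/-- uniform `C^{n+1,α}` bounds in charts -/
def Reg (P : Par) (g : X → X) : Prop :=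
  Continuous g ∧ ∀ i j x, A.Gd i x → A.Gd j (g x) →
    (∀ w ∈ ball (A.e i x) P.ρ, g ((A.e i).symm w) ∈ (A.e j).source) ∧
      Cr P.α (P.n + 1) P.B (A.rep g i j) (ball (A.e i x) P.ρ)

/-- a homeomorphism, its inverse and the transition maps are regular -/
def Good (P : Par) (g : X ≃ₜ X) : Prop := A.Reg P g ∧ A.Reg P g.symm ∧ A.Reg P id

/-- velocity of the curve `b` at time `0` in the chart `i` -/
def VelAt (i : Fin A.N) (b : ℝ → X) (v : V) : Prop :=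
  A.Gd i (b 0) ∧ ContinuousAt b 0 ∧ HasDerivAt (A.e i ∘ b) v 0

end Atlas

/-- uniform closeness of two homeomorphisms and of their inverses -/
def Near (γ : ℝ) (g f : X ≃ₜ X) : Prop :=
  ∀ x, dist (g x) (f x) ≤ γ ∧ dist (g.symm x) (f.symm x) ≤ γ

/-- uniform exponential convergence of the points `b s`, `s` near `0`, to the orbit of `y` -/
def UConv (g : X → X) (b : ℝ → X) (y : X) : Prop :=
  ∃ C θ : ℝ, 0 < θ ∧ θ < 1 ∧ ∀ᶠ s in 𝓝 (0 : ℝ), ∀ n, dist (g^[n] (b s)) (g^[n] y) ≤ C * θ ^ n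

/-- `z` is asymptotic to a point of the orbit of `q` -/
def Asym (g : X → X) (z q : X) : Prop :=
  ∃ j : ℕ, Tendsto (fun n => dist (g^[n] z) (g^[n] (g^[j] q))) atTop (𝓝 0)

namespace Atlas

variable (A : Atlas X)

/-- transverse intersection of the unstable manifold of `x` and the stable manifold of `y` -/
def Tr (g : X ≃ₜ X) (x y : X) : Prop :=
  ∃ (i : Fin A.N) (a b : ℝ → X) (va vb : V), a 0 = b 0 ∧ A.VelAt i a va ∧ A.VelAt i b vb ∧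
    det va vb ≠ 0 ∧ UConv g.symm a x ∧ UConv g b y

/-- two-sided exponential growth rate `l` of the vector `v` at `x` -/
def Rate (g : X ≃ₜ X) (x : X) (v : V) (l : ℝ) : Prop :=
  Tendsto (fun n : ℕ => Real.log ‖A.D g^[n] x v‖ / n) atTop (𝓝 l) ∧
    Tendsto (fun n : ℕ => Real.log ‖A.D g.symm^[n] x v‖ / n) atTop (𝓝 (-l))

/-- hyperbolic ergodic probability measure -/
def Hyp (g : X ≃ₜ X) (μ : Measure X) : Prop :=
  IsProbabilityMeasure μ ∧ Ergodic g μ ∧ ∃ lp lm : ℝ, 0 < lp ∧ lm < 0 ∧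
    ∀ᵐ x ∂μ, (∃ u, A.Rate g x u lp) ∧ ∃ s, A.Rate g x s lm

/-- one half of the homoclinic relation -/
def Le (g : X ≃ₜ X) (μ ν : Measure X) : Prop :=
  ∃ S T : Set X, MeasurableSet S ∧ MeasurableSet T ∧ μ S ≠ 0 ∧ ν T ≠ 0 ∧
    ∀ x ∈ S, ∀ y ∈ T, A.Tr g x y

/-- homoclinic relation -/
def Rel (g : X ≃ₜ X) (μ ν : Measure X) : Prop :=
  A.Hyp g μ ∧ A.Hyp g ν ∧ A.Le g μ ν ∧ A.Le g ν μ

/-- same homoclinic class -/
def Same (g : X ≃ₜ X) (μ ν : Measure X) : Prop := Relation.EqvGen (A.Rel g) μ ν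

/-- measurable invariant hyperbolic splitting -/
def Split (g : X ≃ₜ X) (μ : Measure X) : Prop :=
  ∃ lp lm : ℝ, 0 < lp ∧ lm < 0 ∧ ∃ u s : X → V, Measurable u ∧ Measurable s ∧
    ∀ᵐ x ∂μ, ‖u x‖ = 1 ∧ ‖s x‖ = 1 ∧ (∃ a : ℝ, A.D g x (u x) = a • u (g x)) ∧
      (∃ b : ℝ, A.D g x (s x) = b • s (g x)) ∧ A.Rate g x (u x) lp ∧ A.Rate g x (s x) lm

/-! ### Small curves, geometric times -/

/-- small curve in the chart `i` -/
def SGin (P : Par) (ε : ℝ) (i : Fin A.N) (γ : ℝ → X) : Prop :=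
  (∀ τ ∈ II, A.Gd i (γ τ) ∧ DifferentiableAt ℝ (A.e i ∘ γ) τ) ∧
    Cc P.α P.n ε (deriv (A.e i ∘ γ)) II

/-- small curve -/
def SG (P : Par) (ε : ℝ) (γ : ℝ → X) : Prop := ∃ i, A.SGin P ε i γ

/-- the piece `(s - ρ, s + ρ)` of `σ` is small up to time `j` -/
def SGup (P : Par) (ε : ℝ) (G : X → X) (σ : ℝ → X) (s ρ : ℝ) (j : ℕ) : Prop :=
  0 < ρ ∧ |s| + ρ ≤ 1 ∧ ∀ l ≤ j, A.SG P ε (G^[l] ∘ rp σ s ρ)

/-- `m` is a geometric time of the parameter `s`, with witness `ρ` -/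
def GeoW (P : Par) (ε δ : ℝ) (G : X → X) (σ : ℝ → X) (s : ℝ) (m : ℕ) (ρ : ℝ) : Prop :=
  A.SGup P ε G σ s ρ m ∧
    ∃ i, A.SGin P ε i (G^[m] ∘ rp σ s ρ) ∧ δ ≤ ‖deriv (A.e i ∘ G^[m] ∘ rp σ s ρ) 0‖

/-- the set of geometric times of the parameter `s` -/
def Geo (P : Par) (ε δ : ℝ) (G : X → X) (σ : ℝ → X) (s : ℝ) : Set ℕ :=
  {m | ∃ ρ, A.GeoW P ε δ G σ s m ρ}

/-- bound on the derivative in all good charts -/
def DBd (G : X → X) (a : ℝ) : Prop := ∀ i j x, A.Gd i x → A.Gd j (G x) → ‖A.DD G i j x‖ ≤ a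

/-- The counting property of the constants `ε, δ, Y, K, M₀, η` for the map `G`. -/
def Count (P : Par) (ε δ Y K : ℝ) (M₀ : ℕ) (η : ℝ) (G : X → X) : Prop :=
  ∀ (σ : ℝ → X) (m : ℕ) (S : Finset ℝ) (C R : Finset ℕ) (ε' : ℝ), A.SG P ε σ → 0 < ε' →
    (∀ x ∈ S, |x| ≤ 1 / 3 ∧ cov M₀ (A.Geo P ε δ G σ x) m = C ∧
      rst M₀ (A.Geo P ε δ G σ x) m ⊆ R) →
    (∀ x ∈ S, ∀ y ∈ S, ∀ a ∈ C, a ∈ A.Geo P ε δ G σ x → dist (G^[a] (σ x)) (G^[a] (σ y)) ≤ η) →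
    (∀ x ∈ S, ∀ y ∈ S, x ≠ y → ∃ j ≤ m, ε' ≤ dist (G^[j] (σ x)) (G^[j] (σ y))) →
    (S.card : ℝ) ≤ K ^ (R.card + 1) * Y ^ (m - C.card) * (K / ε' + 1)

/-- smooth local unstable curve of the point `q` -/
def UCurve (P : Par) (ε : ℝ) (g : X ≃ₜ X) (q : X) (σ : ℝ → X) : Prop :=
  (∃ i, A.SGin P ε i σ ∧ ∀ s ∈ II, deriv (A.e i ∘ σ) s ≠ 0) ∧
    ∃ C θ : ℝ, 0 < θ ∧ θ < 1 ∧ ∀ s ∈ II, ∀ n, dist (g.symm^[n] (σ s)) (g.symm^[n] q) ≤ C * θ ^ n

/-- `z` lies on a stable arc of the orbit of `p` whose tangent is uniformly contracted -/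
def SPoint (g : X ≃ₜ X) (p : X) (C θ : ℝ) (z : X) : Prop :=
  ∃ (b : ℝ → X) (v : V), b 0 = z ∧ A.VelAt (A.idx z) b v ∧ v ≠ 0 ∧
    (∃ j : ℕ, UConv g b (g^[j] p)) ∧ ∀ n, ‖A.D g^[n] z v‖ ≤ C * θ ^ n * ‖v‖

/-- Horseshoe data: periodic point `p`, unstable curve `σ`, parameters `H` of homoclinic points,
separation constant `ε'`, growth rate `s`. -/
def Horse (P : Par) (ε : ℝ) (g : X ≃ₜ X) (s : ℝ) (p : X) (N : ℕ) (σ : ℝ → X) (H : Set ℝ)
    (ε' : ℝ) : Prop :=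
  0 < N ∧ g^[N] p = p ∧ A.Hyp g (perMeas g p N) ∧ 0 < ε' ∧ A.UCurve P ε g p σ ∧
    (∀ x ∈ H, |x| ≤ 1 / 3) ∧
    (∃ C : ℝ, ∀ n : ℕ, ∃ S : Finset ℝ, (↑S : Set ℝ) ⊆ H ∧ Real.exp (s * n - C) ≤ S.card ∧
      ∀ x ∈ S, ∀ y ∈ S, x ≠ y → ∃ j < n, ε' ≤ dist (g^[j] (σ x)) (g^[j] (σ y))) ∧
    ∀ x ∈ H, ∀ y ∈ H, ∀ (j : ℕ) (O₁ O₂ : Set X), IsOpen O₁ → IsOpen O₂ → g^[j] (σ x) ∈ O₁ →
      g^[j] (σ y) ∈ O₂ → ∃ C θ C' : ℝ, 0 < θ ∧ θ < 1 ∧ ∀ n : ℕ, ∃ (K : ℕ) (Z : Fin K → Set X),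
        Real.exp (s * n - C') ≤ K ∧
        (∀ a, IsPreconnected (Z a) ∧ (Z a ∩ O₁).Nonempty ∧ (Z a ∩ O₂).Nonempty ∧
          ∀ z ∈ Z a, A.SPoint g p C θ z) ∧
        ∀ a b, a ≠ b → ∀ z ∈ Z a, ∀ w ∈ Z b, ∃ j < n, ε' ≤ dist (g^[j] z) (g^[j] w)

/-- every long almost straight curve starting in `O` meets the unstable manifold of the orbit of
`q` or crosses its stable manifold transversally -/
def Cross (α ε δ : ℝ) (g : X ≃ₜ X) (q : X) (O : Set X) : Prop :=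
  ∀ (i : Fin A.N) (γ : ℝ → X), (∀ τ ∈ II, A.Gd i (γ τ) ∧ DifferentiableAt ℝ (A.e i ∘ γ) τ) →
    Hol α ε (deriv (A.e i ∘ γ)) II → δ ≤ ‖deriv (A.e i ∘ γ) 0‖ → γ 0 ∈ O →
    ∃ τ ∈ II, Asym g.symm (γ τ) q ∨
      ∃ (i' : Fin A.N) (b : ℝ → X) (va vb : V) (j : ℕ), b 0 = γ τ ∧
        A.VelAt i' (fun t => γ (τ + t)) va ∧ A.VelAt i' b vb ∧ det va vb ≠ 0 ∧
        UConv g b (g^[j] q)

/-- `O` lies inside a small quadrilateral bounded by invariant manifolds of the orbit of `q` -/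
def Trap (P : Par) (ε δ η : ℝ) (g : X ≃ₜ X) (q : X) (O : Set X) : Prop :=
  A.Cross P.α ε δ g q O ∧ ∃ (K : Set X) (σ : ℝ → X) (a b : ℕ), IsClosed K ∧ O ⊆ interior K ∧
    (∀ x ∈ K, ∀ y ∈ K, dist x y ≤ η) ∧ A.UCurve P ε g q σ ∧
    ∀ z ∈ frontier K, (∃ s, |s| ≤ 1 / 3 ∧ (z = g^[a] (σ s) ∨ z = g^[b] (σ s))) ∨ Asym g z q

/-- A persistent trap of `f` attached to a periodic orbit in a class of entropy at least `t`. -/
def Datum (P : Par) (ε δ η t : ℝ) (f : X ≃ₜ X) (F : ℕ → X ≃ₜ X) (q : X) (N : ℕ) (c : ℕ → X)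
    (O : Set X) : Prop :=
  IsOpen O ∧ IsCont f (fun n => F n) q N c ∧
    (∃ ν, ENNReal.ofReal t ≤ ksEnt f ν ∧ A.Rel f ν (perMeas f q N)) ∧
    ∀ᶠ n in atTop, (F n)^[N] (c n) = c n ∧ A.Hyp (F n) (perMeas (F n) (c n) N) ∧
      A.Trap P ε δ η (F n) (c n) O

/-- The conclusion of the abstract theorem. -/
def Concl (f : X ≃ₜ X) (F : ℕ → X ≃ₜ X) (t : ℝ) : Prop :=
  ∃ (K : ℕ) (q : Fin K → X) (N : Fin K → ℕ) (c : Fin K → ℕ → X) (s : ℝ), s < t ∧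
    (∀ i, IsCont f (fun n => F n) (q i) (N i) (c i) ∧
      ∃ ν, ENNReal.ofReal t ≤ ksEnt f ν ∧ A.Rel f ν (perMeas f (q i) (N i))) ∧
    ∀ᶠ n in atTop, ∀ μ : Measure X, IsProbabilityMeasure μ → Ergodic (F n) μ →
      ENNReal.ofReal s < ksEnt (F n) μ → ∃ i, A.Same (F n) μ (perMeas (F n) (c i n) (N i))

/-! ### Pesin charts -/

/-- affine chart inside the atlas chart `i`: centre `c`, basis `u`, `s` -/
abbrev Chart : Type := Fin A.N × V × V × V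

variable {A}

/-- atlas index of a chart -/
def Chart.i (Φ : A.Chart) : Fin A.N := Φ.1
/-- centre of a chart -/
def Chart.c (Φ : A.Chart) : V := Φ.2.1
/-- first basis vector -/
def Chart.u (Φ : A.Chart) : V := Φ.2.2.1
/-- second basis vector -/
def Chart.s (Φ : A.Chart) : V := Φ.2.2.2
/-- exchange of the two basis vectors -/
def Chart.sw (Φ : A.Chart) : A.Chart := (Φ.i, Φ.c, Φ.s, Φ.u)
/-- point with given coordinates -/
noncomputable def Chart.pt (Φ : A.Chart) (v : V) : X := (A.e Φ.i).symm (Φ.c + Cm Φ.u Φ.s v)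
/-- coordinates of a point -/
noncomputable def Chart.co (Φ : A.Chart) (x : X) : V := Ci Φ.u Φ.s (A.e Φ.i x - Φ.c)
/-- the point lies in the unit box of the chart -/
def Chart.Box (Φ : A.Chart) (x : X) : Prop := x ∈ (A.e Φ.i).source ∧ ‖Φ.co x‖ ≤ 1
/-- small chart with controlled distortion -/
def Chart.Small (α c₀ : ℝ) (Φ : A.Chart) : Prop :=
  ‖Φ.c‖ < 1 ∧ det Φ.u Φ.s ≠ 0 ∧ ‖Cm Φ.u Φ.s‖ < c₀ ∧ ‖Ci Φ.u Φ.s‖ * ‖Cm Φ.u Φ.s‖ ^ (1 + α) < c₀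

/-- `g` read in the charts `Φ`, `Φ'` is an almost diagonal hyperbolic map -/
def FEdge (κ : ℝ) (g : X → X) (Φ Φ' : A.Chart) : Prop :=
  (∀ v : V, ‖v‖ ≤ 1 → A.Gd Φ'.i (g (Φ.pt v))) ∧ HMap κ (fun v => Φ'.co (g (Φ.pt v)))

/-- edge for `g` and for its inverse -/
def Edge (α κ c₀ : ℝ) (g : X ≃ₜ X) (Φ Φ' : A.Chart) : Prop :=
  Φ.Small α c₀ ∧ Φ'.Small α c₀ ∧ FEdge κ g Φ Φ' ∧ FEdge κ g.symm Φ'.sw Φ.sw

/-- robust edge -/
def REdge (P : Par) (κ c₀ : ℝ) (f : X ≃ₜ X) (Φ Φ' : A.Chart) : Prop :=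
  ∃ γ > 0, ∀ g : X ≃ₜ X, A.Good P g → Near γ g f → Edge P.α κ c₀ g Φ Φ'

/-- forward path of charts -/
def FPath (α κ c₀ : ℝ) (g : X ≃ₜ X) (W : ℕ → A.Chart) : Prop :=
  ∀ n, Edge α κ c₀ g (W n) (W (n + 1))

/-- backward path of charts -/
def BPath (α κ c₀ : ℝ) (g : X ≃ₜ X) (W : ℕ → A.Chart) : Prop :=
  ∀ n, Edge α κ c₀ g (W (n + 1)) (W n)

/-- points whose orbit under `g` follows the boxes of `W` -/
def Fol (g : X → X) (W : ℕ → A.Chart) : Set X := {x | ∀ n, (W n).Box (g^[n] x)}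

/-- the stable graph of a forward path: first coordinate as a function of the second -/
noncomputable def sg (g : X → X) (W : ℕ → A.Chart) (b : ℝ) : ℝ :=
  Classical.epsilon fun a => |a| ≤ 1 ∧ (W 0).pt (a, b) ∈ Fol g W

/-- the unstable graph of a backward path: second coordinate as a function of the first -/
noncomputable def ug (g : X ≃ₜ X) (W : ℕ → A.Chart) (a : ℝ) : ℝ :=
  sg g.symm (fun n => (W n).sw) a

/-- loop of length `N` for the relation `E` -/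
def Loop (E : A.Chart → A.Chart → Prop) (w : ℕ → A.Chart) (N : ℕ) : Prop :=
  0 < N ∧ w N = w 0 ∧ ∀ j < N, E (w j) (w (j + 1))

/-- periodic forward path of a loop -/
def fwd (w : ℕ → A.Chart) (N : ℕ) : ℕ → A.Chart := fun n => w (n % N)

/-- periodic backward path of a loop -/
def bwd (w : ℕ → A.Chart) (N : ℕ) : ℕ → A.Chart := fun n => w ((N - n % N) % N)

/-- periodic point following the loop `w` -/
def PerPt (g : X → X) (w : ℕ → A.Chart) (N : ℕ) (p : X) : Prop :=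
  g^[N] p = p ∧ ∀ l < N, (w l).Box (g^[l] p)

variable (A)

/-- Pesin charts along almost every orbit, and countably many blocks with a common chart. -/
structure PSys (P : Par) (κ c₀ : ℝ) (f : X ≃ₜ X) (μ : Measure X) where
  Ψ : X → A.Chart
  G : Set X
  Γ : ℕ → Set X
  Φ : ℕ → A.Chart
  G_full : μ Gᶜ = 0
  G_fwd : ∀ x ∈ G, f x ∈ G
  G_bwd : ∀ x ∈ G, f.symm x ∈ G
  edge : ∀ x ∈ G, REdge P κ c₀ f (Ψ x) (Ψ (f x))
  box : ∀ x ∈ G, (Ψ x).Box x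
  Γ_meas : ∀ j, MeasurableSet (Γ j)
  Γ_sub : ∀ j, Γ j ⊆ G
  cover : G ⊆ ⋃ j, Γ j
  Γ_in : ∀ j, ∀ x ∈ Γ j, REdge P κ c₀ f (Ψ (f.symm x)) (Φ j)
  Γ_out : ∀ j, ∀ x ∈ Γ j, REdge P κ c₀ f (Φ j) (Ψ (f x))
  Γ_box : ∀ j, ∀ x ∈ Γ j, (Φ j).Box x

/-- Four robust paths with tails the loop `w`, whose graphs surround the point `x`. -/
def Quad (P : Par) (κ c₀ : ℝ) (f : X ≃ₜ X) (w : ℕ → A.Chart) (N : ℕ) (x : X) : Prop :=
  ∃ (WT WB WL WR : ℕ → A.Chart) (lT lB lL lR : ℕ),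
    WT 0 = w 0 ∧ WB 0 = w 0 ∧ WL 0 = w 0 ∧ WR 0 = w 0 ∧
    (∀ n, REdge P κ c₀ f (WT (n + 1)) (WT n)) ∧ (∀ n, REdge P κ c₀ f (WB (n + 1)) (WB n)) ∧
    (∀ n, REdge P κ c₀ f (WL n) (WL (n + 1))) ∧ (∀ n, REdge P κ c₀ f (WR n) (WR (n + 1))) ∧
    (∀ n, WT (lT + n) = bwd w N n) ∧ (∀ n, WB (lB + n) = bwd w N n) ∧
    (∀ n, WL (lL + n) = fwd w N n) ∧ (∀ n, WR (lR + n) = fwd w N n) ∧
    (w 0).Box x ∧ ‖(w 0).co x‖ ≤ 1 / 20 ∧
    ug f WB ((w 0).co x).1 < ((w 0).co x).2 ∧ ((w 0).co x).2 < ug f WT ((w 0).co x).1 ∧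
    sg f WL ((w 0).co x).2 < ((w 0).co x).1 ∧ ((w 0).co x).1 < sg f WR ((w 0).co x).2

end Atlas

/-! ### Link with the manifold structure -/

section Bdd

open Manifold

/-- `g` is `C^k` on `U`, its derivatives of order `≤ k` are bounded by `B`, and its `k`-th
derivative is `α`-Hölder with constant `B`. -/
def HolderBd (k : ℕ) (α B : ℝ) (g : E2 → E2) (U : Set E2) : Prop :=
  ContDiffOn ℝ k g U ∧ (∀ i ≤ k, ∀ v ∈ U, ‖iteratedFDeriv ℝ i g v‖ ≤ B) ∧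
    ∀ v ∈ U, ∀ w ∈ U, ‖iteratedFDeriv ℝ k g v - iteratedFDeriv ℝ k g w‖ ≤ B * ‖v - w‖ ^ α

variable {M : Type*} [TopologicalSpace M] [ChartedSpace E2 M]

/-- On the coordinate ball `U` at `x`, `g` maps into the chart domain at `y` and is
`C^{k,α}`-bounded by `B` in these charts. -/
def BdOn (k : ℕ) (α B : ℝ) (g : M → M) (x y : M) (U : Set E2) : Prop :=
  MapsTo (g ∘ (extChartAt (𝓡 2) x).symm) U (extChartAt (𝓡 2) y).source ∧
    HolderBd k α B (inCharts g x y) U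

/-- Near every point, in charts, `f` and the `F n` (`n` large) are uniformly `C^{k,α}`-bounded and
`F n → f` uniformly. -/
def BddConv (k : ℕ) (α : ℝ) (F : ℕ → M → M) (f : M → M) : Prop :=
  ∀ x : M, ∃ ρ > 0, ∃ B : ℝ, ball (extChartAt (𝓡 2) x x) ρ ⊆ (extChartAt (𝓡 2) x).target ∧
    BdOn k α B f x (f x) (ball (extChartAt (𝓡 2) x x) ρ) ∧
    (∀ᶠ n in atTop, BdOn k α B (F n) x (f x) (ball (extChartAt (𝓡 2) x x) ρ)) ∧
    TendstoUniformlyOn (fun n => inCharts (F n) x (f x)) (inCharts f x (f x)) atTop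
      (ball (extChartAt (𝓡 2) x x) ρ)

end Bdd

open Manifold in
/-- the charts of the atlas are smooth diffeomorphisms onto their targets -/
def Compat {M : Type*} [MetricSpace M] [MeasurableSpace M] [ChartedSpace E2 M] (A : Atlas M) :
    Prop :=
  ∀ i, ContMDiffOn (𝓡 2) 𝓘(ℝ, V) (⊤ : ℕ∞) (A.e i) (A.e i).source ∧
    ContMDiffOn 𝓘(ℝ, V) (𝓡 2) (⊤ : ℕ∞) (A.e i).symm (A.e i).target

end Pool.Agent.Lib.MP_901be3_an.Hd
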