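import Pool.Agent.Lib.MP_901be3_an.Hd.Defs

namespace Pool.Agent.Lib.MP_901be3_an.Hd

open MeasureTheory Filter Topology Metric Set
open scoped ENNReal

variable {X : Type*} [MetricSpace X] [MeasurableSpace X] [BorelSpace X]

namespace EmpAux

theorem integral_emp (g : X → X) (σ : ℝ → X) (S : Finset ℝ) (T : ℝ → Finset ℕ) (n : ℕ)
    (φ : X → ℝ) : ∫ x, φ x ∂emp g σ S T n =
      (∑ x ∈ S, ∑ j ∈ T x, φ (g^[j] (σ x))) / (S.card * n) := by
  have hd : ∀ z : X, Integrable φ (Measure.dirac z) := fun z => integrable_dirac enorm_lt_top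
  rw [emp, integral_smul_measure, integral_finsetSum_measure fun s _ =>
    integrable_finsetSum_measure.2 fun j _ => hd _,
    Finset.sum_congr rfl fun s _ => integral_finsetSum_measure fun j _ => hd _]
  simp only [integral_dirac, ENNReal.toReal_inv, ENNReal.toReal_natCast, Nat.cast_mul,
    ENNReal.toReal_mul, smul_eq_mul]
  rw [div_eq_inv_mul]

theorem abs_shift (T : Finset ℕ) (u : ℕ → ℝ) (hu : ∀ i, |u i| ≤ 1) :
    |∑ j ∈ T, u (j + 1) - ∑ j ∈ T, u j| ≤ 2 * (exits T).card := by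
  have h1 : ∑ τ ∈ T, u (τ + 1) = ∑ τ ∈ T.image (· + 1), u τ :=
    (Finset.sum_image fun i _ j _ e => Nat.succ_injective e).symm
  have h2 : T.image (· + 1) \ T = (exits T).image (· + 1) := by
    ext τ
    simp only [exits, Finset.mem_sdiff, Finset.mem_filter, Finset.mem_image]
    constructor
    · rintro ⟨⟨i, hi, rfl⟩, h⟩
      exact ⟨i, ⟨hi, h⟩, rfl⟩
    · rintro ⟨i, ⟨hi, h⟩, rfl⟩
      exact ⟨⟨i, hi, rfl⟩, h⟩
  have h3 : (T.image (· + 1) \ T).card = (exits T).card := by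
    rw [h2]
    exact Finset.card_image_of_injective _ Nat.succ_injective
  have h3' : (T \ T.image (· + 1)).card = (exits T).card := by
    rw [← h3]
    exact (Finset.card_sdiff_comm (Finset.card_image_of_injective _ Nat.succ_injective)).symm
  have h4 : ∀ S : Finset ℕ, |∑ τ ∈ S, u τ| ≤ S.card := fun S =>
    (Finset.abs_sum_le_sum_abs _ _).trans (by
      simpa using Finset.sum_le_card_nsmul S (fun τ => |u τ|) 1 fun τ _ => hu τ)
  rw [h1, ← Finset.sum_sdiff_sub_sum_sdiff]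
  have h5 := h4 (T.image (· + 1) \ T)
  have h6 := h4 (T \ T.image (· + 1))
  rw [h3] at h5
  rw [h3'] at h6
  linarith [abs_sub (∑ τ ∈ T.image (· + 1) \ T, u τ) (∑ τ ∈ T \ T.image (· + 1), u τ)]

end EmpAux

theorem emp_univ_le (g : X → X) (σ : ℝ → X) (S : Finset ℝ) (T : ℝ → Finset ℕ) (n : ℕ)
    (hT : ∀ x ∈ S, T x ⊆ Finset.range n) : emp g σ S T n univ ≤ 1 := by
  have h1 : (∑ s ∈ S, ∑ j ∈ T s, Measure.dirac (g^[j] (σ s))) univ ≤
      ((S.card * n : ℕ) : ℝ≥0∞) := by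
    simp only [Measure.finsetSum_apply, measure_univ, Finset.sum_const, nsmul_eq_mul, mul_one]
    rw [← Nat.cast_sum, Nat.cast_le]
    simpa using Finset.sum_le_card_nsmul S (fun s => (T s).card) n fun s hs => by
      simpa using Finset.card_le_card (hT s hs)
  rw [emp, Measure.smul_apply, smul_eq_mul]
  exact (mul_le_mul_right h1 _).trans (ENNReal.inv_mul_le_one _)

theorem emp_mono (g : X → X) (σ : ℝ → X) (S : Finset ℝ) {T T' : ℝ → Finset ℕ} (n : ℕ)
    (hT : ∀ x ∈ S, T x ⊆ T' x) : emp g σ S T n ≤ emp g σ S T' n := by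
  refine Measure.le_iff'.2 fun s => ?_
  simp only [emp, Measure.smul_apply, smul_eq_mul, Measure.finsetSum_apply]
  exact mul_le_mul_right (Finset.sum_le_sum fun x hx =>
    Finset.sum_le_sum_of_subset (hT x hx)) _

theorem emp_real_univ (g : X → X) (σ : ℝ → X) {S : Finset ℝ} (hS : S.Nonempty)
    (T : ℝ → Finset ℕ) {n : ℕ} (hn : 0 < n) :
    (emp g σ S T n).real univ = (∑ x ∈ S, ((T x).card : ℝ)) / (S.card * n) := by
  simpa using EmpAux.integral_emp g σ S T n fun _ => 1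

theorem emp_sum {ι : Type*} [Fintype ι] (g : X → X) (σ : ℝ → X) {S : Finset ℝ}
    (hS : S.Nonempty) (T : ℝ → Finset ℕ) {n : ℕ} (hn : 0 < n) {Q : X → ι}
    (hQ : ∀ a, MeasurableSet (Q ⁻¹' {a})) (φ : ι → ℝ) :
    ∑ a, (emp g σ S T n).real (Q ⁻¹' {a}) * φ a =
      (∑ x ∈ S, ∑ j ∈ T x, φ (Q (g^[j] (σ x)))) / (S.card * n) := by
  classical
  simp only [← integral_indicator_one (hQ _), EmpAux.integral_emp, div_mul_eq_mul_div]
  rw [← Finset.sum_div]
  congr 1
  simp only [Finset.sum_mul]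
  rw [Finset.sum_comm]
  refine Finset.sum_congr rfl fun x _ => ?_
  rw [Finset.sum_comm]
  refine Finset.sum_congr rfl fun j _ => ?_
  rw [Finset.sum_eq_single (Q (g^[j] (σ x)))]
  · rw [indicator_of_mem (by simp), Pi.one_apply, one_mul]
  · intro a _ ha
    have h1 : g^[j] (σ x) ∉ Q ⁻¹' {a} := fun h => ha (mem_singleton_iff.1 h).symm
    rw [indicator_of_notMem h1, zero_mul]
  · exact fun h => absurd (Finset.mem_univ _) h

theorem emp_almost_inv {g : X → X} (hg : Continuous g) (σ : ℝ → X) {S : Finset ℝ}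
    (hS : S.Nonempty) (T : ℝ → Finset ℕ) {n b : ℕ} (hn : 0 < n)
    (hb : ∀ x ∈ S, (exits (T x)).card ≤ b) {φ : X → ℝ} (hφ : Continuous φ)
    (hφ1 : ∀ x, |φ x| ≤ 1) :
    |∫ x, φ (g x) ∂emp g σ S T n - ∫ x, φ x ∂emp g σ S T n| ≤ 2 * b / n := by
  have hc : (0 : ℝ) < S.card := by exact_mod_cast hS.card_pos
  have hn' : (0 : ℝ) < n := by exact_mod_cast hn
  rw [EmpAux.integral_emp, EmpAux.integral_emp, ← sub_div, abs_div,
    abs_of_pos (mul_pos hc hn'), ← Finset.sum_sub_distrib, div_le_div_iff₀ (mul_pos hc hn') hn',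
    ← mul_assoc]
  refine mul_le_mul_of_nonneg_right ((Finset.abs_sum_le_sum_abs _ _).trans ?_) hn'.le
  refine (Finset.sum_le_card_nsmul S _ (2 * (b : ℝ)) fun x hx => ?_).trans
    (le_of_eq (by rw [nsmul_eq_mul, mul_comm]))
  have h1 := EmpAux.abs_shift (T x) (fun j => φ (g^[j] (σ x))) fun j => hφ1 _
  simp only [Function.iterate_succ_apply'] at h1
  have h2 : ((exits (T x)).card : ℝ) ≤ b := by exact_mod_cast hb x hx
  linarith

end Pool.Agent.Lib.MP_901be3_an.Hd
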