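import Pool.Agent.Lib.MP_901be3_an.Hd.Defs

namespace Pool.Agent.Lib.MP_901be3_an.Hd

open MeasureTheory Filter Topology Metric Set
open scoped ENNReal

namespace EntBasicAux

/-- the fibres are measurable -/
def MP {X ι : Type*} [MeasurableSpace X] (P : X → ι) : Prop := ∀ i, MeasurableSet (P ⁻¹' {i})

theorem entbasic_gibbs {p q : ℝ} (hp : 0 ≤ p) (hq : 0 ≤ q) (h : p ≠ 0 → q ≠ 0) :
    Real.negMulLog p ≤ -(p * Real.log q) + (q - p) := by
  rcases hp.eq_or_lt with rfl | hp'
  · simpa using hq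
  have hq' : 0 < q := hq.lt_of_ne' (h hp'.ne')
  have h1 := Real.log_le_sub_one_of_pos (div_pos hq' hp')
  rw [Real.log_div hq'.ne' hp'.ne'] at h1
  have h2 := mul_le_mul_of_nonneg_left h1 hp
  rw [mul_sub p (q / p), mul_div_cancel₀ _ hp'.ne'] at h2
  simp only [Real.negMulLog]
  linarith

theorem entbasic_le {p c : ℝ} (hp : 0 ≤ p) (h : p ≤ c) : -(p * Real.log c) ≤ Real.negMulLog p := by
  rcases hp.eq_or_lt with rfl | hp'
  · simp
  have := mul_le_mul_of_nonneg_left (Real.log_le_log hp' h) hp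
  simp only [Real.negMulLog]
  linarith

theorem entbasic_fibre {κ : Type*} (S : Finset κ) (r : κ → ℝ) (hr : ∀ k, 0 ≤ r k) {N : ℝ}
    (hN : 0 < N) (hS : (S.card : ℝ) ≤ N) :
    ∑ k ∈ S, Real.negMulLog (r k) ≤
      Real.negMulLog (∑ k ∈ S, r k) + (∑ k ∈ S, r k) * Real.log N := by
  have h0 : 0 ≤ ∑ k ∈ S, r k := Finset.sum_nonneg fun k _ => hr k
  rcases h0.eq_or_lt with e | hp
  · rw [← e, Finset.sum_eq_zero fun k hk => by
      rw [(Finset.sum_eq_zero_iff_of_nonneg fun k _ => hr k).1 e.symm k hk, Real.negMulLog_zero]]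
    simp
  refine (Finset.sum_le_sum fun k _ => entbasic_gibbs (hr k) (div_pos hp hN).le
    fun _ => (div_pos hp hN).ne').trans ?_
  rw [Finset.sum_add_distrib, Finset.sum_neg_distrib, ← Finset.sum_mul, Finset.sum_sub_distrib,
    Finset.sum_const, nsmul_eq_mul, Real.log_div hp.ne' hN.ne']
  have h1 : S.card * ((∑ k ∈ S, r k) / N) ≤ ∑ k ∈ S, r k := by
    rw [← mul_div_assoc, div_le_iff₀ hN, mul_comm]
    exact mul_le_mul_of_nonneg_left hS h0
  simp only [Real.negMulLog]
  linarith

variable {X Y ι κ : Type*} [MeasurableSpace X] [MeasurableSpace Y] {μ : Measure X}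
  {P : X → ι} {Q : X → κ}

theorem MP.of_measurable {m : ℕ} {P : X → Fin m} (h : Measurable P) : MP P := by
  exact fun i => h (measurableSet_singleton i)

theorem MP.measurable {m : ℕ} {P : X → Fin m} (h : MP P) : Measurable P := by
  exact measurable_to_countable' h

theorem MP.comp [Finite ι] (h : MP P) (φ : ι → κ) : MP (φ ∘ P) := by
  intro k
  have e : (φ ∘ P) ⁻¹' {k} = ⋃ i ∈ φ ⁻¹' {k}, P ⁻¹' {i} := by
    ext x
    simp
  rw [e]
  exact MeasurableSet.biUnion (toFinite _).countable fun i _ => h i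

theorem MP.prod (h : MP P) (h' : MP Q) : MP (fun x => (P x, Q x)) := by
  rintro ⟨i, k⟩
  have e : (fun x => (P x, Q x)) ⁻¹' {(i, k)} = P ⁻¹' {i} ∩ Q ⁻¹' {k} := by
    ext x
    simp
  rw [e]
  exact (h i).inter (h' k)

theorem MP.pi {J : Type*} [Finite J] {Ps : J → X → ι} (h : ∀ j, MP (Ps j)) :
    MP (fun x j => Ps j x) := by
  intro a
  have e : (fun x j => Ps j x) ⁻¹' {a} = ⋂ j, Ps j ⁻¹' {a j} := by
    ext x
    simp [funext_iff]
  rw [e]
  exact MeasurableSet.iInter fun j => h j (a j)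

theorem MP.precomp (h : MP P) {T : Y → X} (hT : Measurable T) : MP (P ∘ T) := by
  exact fun i => hT (h i)

theorem MP.names (h : MP P) {T : X → X} (hT : Measurable T) (n : ℕ) : MP (name T P n) := by
  exact MP.pi fun i : Fin n => h.precomp (hT.iterate i)

variable [Fintype ι] [Fintype κ] [IsProbabilityMeasure μ]

omit [Fintype κ] in
theorem entbasic_comp [DecidableEq κ] (h : MP P) (φ : ι → κ) (k : κ) :
    μ.real ((φ ∘ P) ⁻¹' {k}) = ∑ i with φ i = k, μ.real (P ⁻¹' {i}) := by
  rw [sum_measureReal_preimage_singleton _ fun i _ => h i]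
  congr 1
  ext x
  simp

theorem entbasic_push (h : MP P) (φ : ι → κ) (F : κ → ℝ) :
    ∑ i, μ.real (P ⁻¹' {i}) * F (φ i) = ∑ k, μ.real ((φ ∘ P) ⁻¹' {k}) * F k := by
  classical
  rw [← Finset.sum_fiberwise Finset.univ φ]
  refine Finset.sum_congr rfl fun k _ => ?_
  rw [entbasic_comp h, Finset.sum_mul]
  exact Finset.sum_congr rfl fun i hi => by rw [(Finset.mem_filter.1 hi).2]

omit [Fintype ι] in
theorem entbasic_marg (h' : MP Q) (i : ι) :
    ∑ k, μ.real ((fun x => (P x, Q x)) ⁻¹' {(i, k)}) = μ.real (P ⁻¹' {i}) := by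
  have h1 := sum_measureReal_preimage_singleton (μ := μ.restrict (P ⁻¹' {i})) Finset.univ
    (f := Q) fun k _ => h' k
  rw [Finset.coe_univ, preimage_univ, measureReal_restrict_apply_univ] at h1
  rw [← h1]
  refine Finset.sum_congr rfl fun k _ => ?_
  rw [measureReal_restrict_apply (h' k)]
  congr 1
  ext x
  simp [and_comm]

theorem sum_real_fibre (h : MP P) : ∑ i, μ.real (P ⁻¹' {i}) = 1 := by
  rw [sum_measureReal_preimage_singleton _ fun i _ => h i]
  simp

theorem pH_nonneg (P : X → ι) : 0 ≤ partEnt μ P := by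
  exact Finset.sum_nonneg fun i _ => Real.negMulLog_nonneg measureReal_nonneg measureReal_le_one

omit [IsProbabilityMeasure μ] in
theorem pH_map {ν : Measure Y} {T : X → Y} (hT : MeasurePreserving T μ ν) {P : Y → ι}
    (h : MP P) : partEnt μ (P ∘ T) = partEnt ν P := by
  refine Finset.sum_congr rfl fun i _ => ?_
  rw [preimage_comp, hT.measureReal_preimage (h i).nullMeasurableSet]

/-- merging atoms decreases the entropy (`negMulLog (a + b) ≤ negMulLog a + negMulLog b`) -/
theorem pH_comp_le (h : MP P) (φ : ι → κ) : partEnt μ (φ ∘ P) ≤ partEnt μ P := by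
  have h1 := entbasic_push (μ := μ) h φ fun k => -Real.log (μ.real ((φ ∘ P) ⁻¹' {k}))
  have h2 : partEnt μ (φ ∘ P) = _ := (Finset.sum_congr rfl fun k _ => by
    rw [Real.negMulLog, neg_mul_comm]).trans h1.symm
  rw [h2]
  refine Finset.sum_le_sum fun i _ => ?_
  rw [mul_neg]
  exact entbasic_le measureReal_nonneg (measureReal_mono fun x hx => congrArg φ hx)

theorem pH_le_of_det (h : MP P) (hd : ∀ x y, P x = P y → Q x = Q y) :
    partEnt μ Q ≤ partEnt μ P := by
  have : Nonempty κ := (nonempty_of_isProbabilityMeasure μ).map Q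
  obtain ⟨φ, rfl⟩ := (Function.factorsThrough_iff (f := P) Q).1 fun x y e => hd x y e
  exact pH_comp_le h φ

/-- Jensen on each fibre of `P` -/
theorem pH_prod_le_cond (h : MP P) (h' : MP Q) (N : ι → ℝ) (hN : ∀ i, 1 ≤ N i)
    (hS : ∀ i, ∃ S : Finset κ, (S.card : ℝ) ≤ N i ∧ ∀ x, P x = i → Q x ∈ S) :
    partEnt μ (fun x => (P x, Q x)) ≤ partEnt μ P + ∑ i, μ.real (P ⁻¹' {i}) * Real.log (N i) := by
  rw [partEnt, partEnt, Fintype.sum_prod_type, ← Finset.sum_add_distrib]
  refine Finset.sum_le_sum fun i _ => ?_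
  obtain ⟨S, h1, h2⟩ := hS i
  have h0 : ∀ k ∈ Finset.univ, k ∉ S → μ.real ((fun x => (P x, Q x)) ⁻¹' {(i, k)}) = 0 := by
    intro k _ hk
    have e : (fun x => (P x, Q x)) ⁻¹' {(i, k)} = ∅ :=
      eq_empty_of_forall_notMem fun x hx =>
        hk ((Prod.mk.inj hx).2 ▸ h2 x (Prod.mk.inj hx).1)
    rw [e, measureReal_empty]
  rw [← entbasic_marg h' i, ← Finset.sum_subset S.subset_univ h0,
    ← Finset.sum_subset S.subset_univ fun k hk hk' => by rw [h0 k hk hk', Real.negMulLog_zero]]
  exact entbasic_fibre S _ (fun _ => measureReal_nonneg) (one_pos.trans_le (hN i)) h1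

theorem pH_le_log_card (h : MP P) : partEnt μ P ≤ Real.log (Fintype.card ι) := by
  have : Nonempty ι := (nonempty_of_isProbabilityMeasure μ).map P
  have h1 := entbasic_fibre Finset.univ (fun i => μ.real (P ⁻¹' {i})) (fun _ => measureReal_nonneg)
    (N := Fintype.card ι) (by exact_mod_cast Fintype.card_pos) le_rfl
  rwa [sum_real_fibre h, Real.negMulLog_one, zero_add, one_mul] at h1

/-- subadditivity (Gibbs inequality `log t ≤ t - 1`) -/
theorem pH_prod_le (h : MP P) (h' : MP Q) :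
    partEnt μ (fun x => (P x, Q x)) ≤ partEnt μ P + partEnt μ Q := by
  have h1 := entbasic_push (μ := μ) (h.prod h') Prod.fst fun i => -Real.log (μ.real (P ⁻¹' {i}))
  have h2 := entbasic_push (μ := μ) (h.prod h') Prod.snd fun k => -Real.log (μ.real (Q ⁻¹' {k}))
  have h3 : partEnt μ P = _ := (Finset.sum_congr rfl fun k _ => by
    rw [Real.negMulLog, neg_mul_comm]; rfl).trans h1.symm
  have h4 : partEnt μ Q = _ := (Finset.sum_congr rfl fun k _ => by
    rw [Real.negMulLog, neg_mul_comm]; rfl).trans h2.symm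
  have h5 : ∑ z : ι × κ, (μ.real (P ⁻¹' {z.1}) * μ.real (Q ⁻¹' {z.2}) -
      μ.real ((fun x => (P x, Q x)) ⁻¹' {z})) = 0 := by
    rw [Finset.sum_sub_distrib, sum_real_fibre (h.prod h'), Fintype.sum_prod_type]
    simp only [← Finset.mul_sum, sum_real_fibre h, sum_real_fibre h', mul_one, sub_self]
  rw [h3, h4, ← add_zero (_ + _), ← h5, ← Finset.sum_add_distrib, ← Finset.sum_add_distrib]
  refine Finset.sum_le_sum fun z _ => ?_
  have a1 : μ.real ((fun x => (P x, Q x)) ⁻¹' {z}) ≤ μ.real (P ⁻¹' {z.1}) :=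
    measureReal_mono fun x hx => congrArg Prod.fst hx
  have a2 : μ.real ((fun x => (P x, Q x)) ⁻¹' {z}) ≤ μ.real (Q ⁻¹' {z.2}) :=
    measureReal_mono fun x hx => congrArg Prod.snd hx
  rcases (measureReal_nonneg (μ := μ) (s := (fun x => (P x, Q x)) ⁻¹' {z})).eq_or_lt with e | e
  · rw [← e]
    simpa using mul_nonneg measureReal_nonneg measureReal_nonneg
  · have b1 := e.trans_le a1
    have b2 := e.trans_le a2
    refine (entbasic_gibbs e.le (mul_pos b1 b2).le fun _ => (mul_pos b1 b2).ne').trans_eq ?_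
    rw [Real.log_mul b1.ne' b2.ne']
    ring

theorem pH_pi_le {J : Type*} [Fintype J] [DecidableEq J] {Ps : J → X → ι} (h : ∀ j, MP (Ps j)) :
    partEnt μ (fun x j => Ps j x) ≤ ∑ j, partEnt μ (Ps j) := by
  have h3 : ∀ j, partEnt μ (Ps j) = ∑ a : J → ι, μ.real ((fun x j => Ps j x) ⁻¹' {a}) *
      -Real.log (μ.real (Ps j ⁻¹' {a j})) := fun j => (Finset.sum_congr rfl fun k _ => by
    rw [Real.negMulLog, neg_mul_comm]; rfl).trans (entbasic_push (μ := μ) (MP.pi h) (fun a => a j)
      fun i => -Real.log (μ.real (Ps j ⁻¹' {i}))).symm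
  have h5 : ∑ a : J → ι, (∏ j, μ.real (Ps j ⁻¹' {a j}) -
      μ.real ((fun x j => Ps j x) ⁻¹' {a})) = 0 := by
    rw [Finset.sum_sub_distrib, sum_real_fibre (MP.pi h), ← Fintype.piFinset_univ,
      ← Finset.prod_univ_sum _ fun j i => μ.real (Ps j ⁻¹' {i}),
      Finset.prod_eq_one fun j _ => sum_real_fibre (h j), sub_self]
  rw [Finset.sum_congr rfl fun j _ => h3 j, Finset.sum_comm, ← add_zero (Finset.sum _ _), ← h5,
    ← Finset.sum_add_distrib]
  refine Finset.sum_le_sum fun a _ => ?_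
  have a1 : ∀ j, μ.real ((fun x j => Ps j x) ⁻¹' {a}) ≤ μ.real (Ps j ⁻¹' {a j}) :=
    fun j => measureReal_mono fun x hx => congrFun hx j
  rcases (measureReal_nonneg (μ := μ) (s := (fun x j => Ps j x) ⁻¹' {a})).eq_or_lt with e | e
  · rw [← e]
    simpa using Finset.prod_nonneg fun j _ => measureReal_nonneg
  · have b1 : 0 < ∏ j, μ.real (Ps j ⁻¹' {a j}) := Finset.prod_pos fun j _ => e.trans_le (a1 j)
    refine (entbasic_gibbs e.le b1.le fun _ => b1.ne').trans_eq ?_
    rw [Real.log_prod fun j _ => (e.trans_le (a1 j)).ne', ← Finset.mul_sum, Finset.sum_neg_distrib,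
      mul_neg]

theorem pH_add {T : X → X} (hT : MeasurePreserving T μ μ) (h : MP P) :
    Subadditive fun n => partEnt μ (name T P n) := by
  intro m n
  have h1 := h.names hT.measurable m
  have h2 := (h.names hT.measurable n).precomp (hT.measurable.iterate m)
  refine (pH_le_of_det (h1.prod h2) fun x y hxy => ?_).trans ((pH_prod_le h1 h2).trans ?_)
  · obtain ⟨e1, e2⟩ := Prod.mk.inj hxy
    funext j
    by_cases hj : (j : ℕ) < m
    · exact congrFun e1 ⟨j, hj⟩
    · have h3 := congrFun e2 ⟨j - m, by omega⟩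
      simp only [name, Function.comp_apply, ← Function.iterate_add_apply] at h3
      rw [show (j : ℕ) - m + m = j by omega] at h3
      exact h3
  · rw [pH_map (hT.iterate m) (h.names hT.measurable n)]

theorem pH_bdd (T : X → X) : BddBelow (range fun n : ℕ => partEnt μ (name T P n) / n) := by
  refine ⟨0, ?_⟩
  rintro _ ⟨n, rfl⟩
  exact div_nonneg (pH_nonneg _) (Nat.cast_nonneg _)

theorem rate_eq {T : X → X} (hT : MeasurePreserving T μ μ) (h : MP P) :
    partRate T μ P = (pH_add hT h).lim :=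
  ((pH_add hT h).tendsto_lim (pH_bdd T)).limsup_eq

end EntBasicAux

open EntBasicAux

variable {X : Type*} [MeasurableSpace X] {ι : Type*} [Fintype ι]

theorem measurableSet_name {T : X → X} (hT : Measurable T) {P : X → ι}
    (hP : ∀ a, MeasurableSet (P ⁻¹' {a})) (n : ℕ) (w : Fin n → ι) :
    MeasurableSet (name T P n ⁻¹' {w}) := MP.names hP hT n w

theorem partEnt_nonneg (μ : Measure X) [IsProbabilityMeasure μ] (P : X → ι) :
    0 ≤ partEnt μ P := pH_nonneg P

theorem partEnt_le_log (μ : Measure X) [IsProbabilityMeasure μ] {P : X → ι}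
    (hP : ∀ a, MeasurableSet (P ⁻¹' {a})) : partEnt μ P ≤ Real.log (Fintype.card ι) := pH_le_log_card hP

/-- entropy bound through a set `B` meeting at most `K` atoms -/
theorem partEnt_le_of_set (μ : Measure X) [IsProbabilityMeasure μ] {P : X → ι}
    (hP : ∀ a, MeasurableSet (P ⁻¹' {a})) {B : Set X} (hB : MeasurableSet B) (W : Finset ι)
    (hW : ∀ x ∈ B, P x ∈ W) :
    partEnt μ P ≤ Real.log 2 + Real.log W.card + μ.real Bᶜ * Real.log (Fintype.card ι) := by
  classical
  have : Nonempty ι := (nonempty_of_isProbabilityMeasure μ).map P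
  set Q : X → Bool := fun x => decide (x ∈ B) with hQ
  have e1 : Q ⁻¹' {true} = B := by
    ext x
    simp [hQ]
  have e2 : Q ⁻¹' {false} = Bᶜ := by
    ext x
    simp [hQ]
  have hQm : MP Q := by
    intro i
    cases i
    · rw [e2]
      exact hB.compl
    · rw [e1]
      exact hB
  have hc : (1 : ℝ) ≤ Fintype.card ι := by exact_mod_cast Fintype.card_pos
  have h1 := pH_prod_le_cond (μ := μ) hQm hP
    (fun i => if i then max (W.card : ℝ) 1 else Fintype.card ι)
    (fun i => by cases i <;> simp [hc]) (fun i => by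
      cases i
      · exact ⟨Finset.univ, by simp, fun x _ => Finset.mem_univ _⟩
      · exact ⟨W, by simp, fun x hx => hW x (by simpa [hQ] using hx)⟩)
  have h2 : partEnt μ P ≤ partEnt μ fun x => (Q x, P x) :=
    pH_le_of_det (hQm.prod hP) fun x y hxy => (Prod.mk.inj hxy).2
  have h3 := pH_le_log_card (μ := μ) hQm
  rw [Fintype.sum_bool, e1, e2] at h1
  simp only [if_true, Bool.false_eq_true, if_false] at h1
  rw [Fintype.card_bool, Nat.cast_ofNat] at h3
  have h4 : Real.log (max (W.card : ℝ) 1) = Real.log W.card := by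
    rcases Nat.eq_zero_or_pos W.card with h | h
    · simp [h]
    · rw [max_eq_left (by exact_mod_cast h)]
  have h5 : μ.real B * Real.log (max (W.card : ℝ) 1) ≤ Real.log (max (W.card : ℝ) 1) :=
    mul_le_of_le_one_left (Real.log_nonneg (le_max_right _ _)) measureReal_le_one
  linarith

theorem tendsto_partRate {μ : Measure X} [IsProbabilityMeasure μ] {T : X → X}
    (hT : MeasurePreserving T μ μ) {P : X → ι} (hP : ∀ a, MeasurableSet (P ⁻¹' {a})) :
    Tendsto (fun n : ℕ => partEnt μ (name T P n) / n) atTop (𝓝 (partRate T μ P)) := by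
  rw [rate_eq hT hP]
  exact (pH_add hT hP).tendsto_lim (pH_bdd T)

theorem partRate_mul_le {μ : Measure X} [IsProbabilityMeasure μ] {T : X → X}
    (hT : MeasurePreserving T μ μ) {P : X → ι} (hP : ∀ a, MeasurableSet (P ⁻¹' {a})) (n : ℕ) :
    partRate T μ P * n ≤ partEnt μ (name T P n) := by
  rcases Nat.eq_zero_or_pos n with rfl | hn
  · simpa using pH_nonneg (μ := μ) (name T P 0)
  · rw [rate_eq hT hP, ← le_div_iff₀ (by exact_mod_cast hn)]
    exact (pH_add hT hP).lim_le_div (pH_bdd T) hn.ne'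

theorem partEnt_name_le {μ : Measure X} [IsProbabilityMeasure μ] {T : X → X}
    (hT : MeasurePreserving T μ μ) {P : X → ι} (hP : ∀ a, MeasurableSet (P ⁻¹' {a})) (n : ℕ) :
    partEnt μ (name T P n) ≤ n * partEnt μ P := by
  have h1 := pH_pi_le (μ := μ) (Ps := fun j : Fin n => P ∘ T^[j])
    fun j => MP.precomp hP (hT.measurable.iterate j)
  rw [Finset.sum_congr rfl fun (j : Fin n) _ => pH_map (hT.iterate j) hP,
    Finset.sum_const, Finset.card_univ, Fintype.card_fin, nsmul_eq_mul] at h1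
  exact h1

theorem partRate_nonneg {μ : Measure X} [IsProbabilityMeasure μ] {T : X → X}
    (hT : MeasurePreserving T μ μ) {P : X → ι} (hP : ∀ a, MeasurableSet (P ⁻¹' {a})) :
    0 ≤ partRate T μ P := ge_of_tendsto' (tendsto_partRate hT hP) fun n =>
  div_nonneg (pH_nonneg _) (Nat.cast_nonneg _)

theorem partRate_le_partEnt {μ : Measure X} [IsProbabilityMeasure μ] {T : X → X}
    (hT : MeasurePreserving T μ μ) {P : X → ι} (hP : ∀ a, MeasurableSet (P ⁻¹' {a})) :
    partRate T μ P ≤ partEnt μ P := by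
  have h1 := (partRate_mul_le hT hP 1).trans (partEnt_name_le hT hP 1)
  simpa using h1

theorem partRate_le_ksEnt (μ : Measure X) (T : X → X) {P : X → ι}
    (hP : ∀ a, MeasurableSet (P ⁻¹' {a})) : ENNReal.ofReal (partRate T μ P) ≤ ksEnt T μ := by
  set e := Fintype.equivFin ι with he
  have h1 : partRate T μ (e ∘ P) = partRate T μ P := by
    unfold partRate
    congr 1
    funext n
    congr 1
    unfold partEnt
    refine (Fintype.sum_equiv (Equiv.piCongrRight fun _ : Fin n => e) _ _ fun w => ?_).symm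
    congr 2
    ext x
    simp [name, funext_iff]
  have h2 : Measurable (e ∘ P) := MP.measurable (MP.comp hP e)
  rw [← h1]
  exact le_iSup₂_of_le (f := fun (K : ℕ) (P : X → Fin K) => ⨆ (_ : Measurable P),
    ENNReal.ofReal (partRate T μ P)) (Fintype.card ι) (e ∘ P) (le_iSup_of_le h2 le_rfl)

end Pool.Agent.Lib.MP_901be3_an.Hd
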