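import Pool.Agent.Lib.MP_901be3_an.Hd.EntBasic
import Pool.Agent.Lib.MP_901be3_an.Hd.Cov

namespace Pool.Agent.Lib.MP_901be3_an.Hd

open MeasureTheory Filter Topology Metric Set
open scoped ENNReal

namespace KatokAux

theorem sep {X : Type*} [MetricSpace X] [CompactSpace X] {m : ℕ} (K : Fin m → Set X)
    (hK : ∀ a, IsClosed (K a)) (hd : ∀ a b, a ≠ b → Disjoint (K a) (K b)) :
    ∃ ε : ℝ, 0 < ε ∧ ∀ a b, ∀ x ∈ K a, ∀ y ∈ K b, dist x y ≤ ε → a = b := by
  have h1 : ∀ a b, ∀ᶠ ε : ℝ in 𝓝[>] 0, ∀ x ∈ K a, ∀ y ∈ K b, dist x y ≤ ε → a = b := by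
    intro a b
    by_cases hab : a = b
    · exact Eventually.of_forall fun _ _ _ _ _ _ => hab
    · obtain ⟨r, hr, h⟩ := Metric.exists_pos_forall_lt_edist (hK a).isCompact (hK b) (hd a b hab)
      have hr' : (0 : ℝ) < r := hr
      filter_upwards [Ioo_mem_nhdsGT hr'] with ε hε x hx y hy hxy
      have h2 := h x hx y hy
      rw [edist_nndist, ENNReal.coe_lt_coe] at h2
      have h3 : (r : ℝ) < dist x y := h2
      linarith [hε.2]
  have h2 : ∀ᶠ ε : ℝ in 𝓝[>] 0, 0 < ε ∧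
      ∀ a b, ∀ x ∈ K a, ∀ y ∈ K b, dist x y ≤ ε → a = b :=
    (eventually_mem_nhdsWithin (s := Ioi (0 : ℝ))).and
      (eventually_all.mpr fun a => eventually_all.mpr fun b => h1 a b)
  exact h2.exists

/-- a large set on which the partition is locally constant -/
theorem cores {X : Type*} [MetricSpace X] [CompactSpace X] [MeasurableSpace X] [BorelSpace X]
    (μ : Measure X) [IsProbabilityMeasure μ] {m : ℕ} {P : X → Fin m}
    (h : ∀ a, MeasurableSet (P ⁻¹' {a})) {δ : ℝ} (hδ : 0 < δ) :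
    ∃ (U : Set X) (ε : ℝ), MeasurableSet U ∧ 0 < ε ∧ μ.real Uᶜ ≤ δ ∧
      ∀ x ∈ U, ∀ y ∈ U, dist x y ≤ ε → P x = P y := by
  have hδ' : 0 < δ / (m + 1) := by positivity
  choose K hK1 hK2 hK3 using fun a => (h a).exists_isClosed_sdiff_lt (measure_ne_top μ _)
    (ENNReal.ofReal_pos.mpr hδ').ne'
  obtain ⟨ε, hε, hsep⟩ := sep K hK2 fun a b hab => disjoint_left.mpr fun x hx hx' =>
    hab ((hK1 a hx).symm.trans (hK1 b hx'))
  refine ⟨⋃ a, K a, ε, MeasurableSet.iUnion fun a => (hK2 a).measurableSet, hε, ?_,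
    fun x hx y hy hd => ?_⟩
  · have h1 : (⋃ a, K a)ᶜ ⊆ ⋃ a, P ⁻¹' {a} \ K a := fun x hx =>
      mem_iUnion.mpr ⟨P x, rfl, fun hx' => hx (mem_iUnion.mpr ⟨_, hx'⟩)⟩
    calc μ.real (⋃ a, K a)ᶜ ≤ μ.real (⋃ a, P ⁻¹' {a} \ K a) := measureReal_mono h1
      _ ≤ ∑ a, μ.real (P ⁻¹' {a} \ K a) := measureReal_iUnion_fintype_le _
      _ ≤ ∑ _a : Fin m, δ / (m + 1) := Finset.sum_le_sum fun a _ =>
          ENNReal.toReal_le_of_le_ofReal hδ'.le (hK3 a).le
      _ = m * (δ / (m + 1)) := by simp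
      _ ≤ (m + 1) * (δ / (m + 1)) := by gcongr; linarith
      _ = δ := by field_simp
  · obtain ⟨a, ha⟩ := mem_iUnion.mp hx
    obtain ⟨b, hb⟩ := mem_iUnion.mp hy
    rw [hK1 a ha, hK1 b hb, hsep a b x ha y hb hd]

/-- the size of a Hamming ball -/
theorem ham {ι : Type*} [Fintype ι] [DecidableEq ι] {n : ℕ} (w : Fin n → ι) {c : ℝ} (hc : 0 ≤ c)
    (m : ℝ) : ((Finset.univ.filter fun v : Fin n → ι =>
      ∑ j, (if v j = w j then (0 : ℝ) else 1) ≤ m).card : ℝ) ≤
      Real.exp (c * m + n * (Fintype.card ι * Real.exp (-c))) := by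
  have h1 : ∀ j, ∑ a : ι, Real.exp (-c * if a = w j then (0 : ℝ) else 1) ≤
      Real.exp (Fintype.card ι * Real.exp (-c)) := by
    intro j
    calc _ ≤ ∑ a : ι, ((if a = w j then (1 : ℝ) else 0) + Real.exp (-c)) := by
          refine Finset.sum_le_sum fun a _ => ?_
          split_ifs
          · rw [mul_zero, Real.exp_zero]
            exact le_add_of_nonneg_right (Real.exp_pos _).le
          · rw [mul_one, zero_add]
      _ = Fintype.card ι * Real.exp (-c) + 1 := by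
          rw [Finset.sum_add_distrib, Finset.sum_ite_eq' Finset.univ (w j), if_pos
            (Finset.mem_univ _), Finset.sum_const, Finset.card_univ, nsmul_eq_mul, add_comm]
      _ ≤ _ := Real.add_one_le_exp _
  have h2 : ∑ v : Fin n → ι, Real.exp (-c * ∑ j, if v j = w j then (0 : ℝ) else 1) ≤
      Real.exp (n * (Fintype.card ι * Real.exp (-c))) := by
    calc _ = ∑ v ∈ Fintype.piFinset fun _ : Fin n => (Finset.univ : Finset ι),
          ∏ j, Real.exp (-c * if v j = w j then (0 : ℝ) else 1) := by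
          rw [Fintype.piFinset_univ]
          refine Finset.sum_congr rfl fun v _ => ?_
          rw [Finset.mul_sum, Real.exp_sum]
      _ = ∏ j : Fin n, ∑ a : ι, Real.exp (-c * if a = w j then (0 : ℝ) else 1) :=
          (Finset.prod_univ_sum (fun _ : Fin n => (Finset.univ : Finset ι))
            fun j a => Real.exp (-c * if a = w j then (0 : ℝ) else 1)).symm
      _ ≤ ∏ _j : Fin n, Real.exp (Fintype.card ι * Real.exp (-c)) :=
          Finset.prod_le_prod (fun j _ => Finset.sum_nonneg fun a _ => (Real.exp_pos _).le)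
            fun j _ => h1 j
      _ = _ := by
          rw [Finset.prod_const, Finset.card_univ, Fintype.card_fin, ← Real.exp_nat_mul]
  have h3 := Finset.card_nsmul_le_sum (Finset.univ.filter fun v : Fin n → ι =>
    ∑ j, (if v j = w j then (0 : ℝ) else 1) ≤ m)
    (fun v => Real.exp (-c * ∑ j, if v j = w j then (0 : ℝ) else 1)) (Real.exp (-c * m))
    fun v hv => Real.exp_le_exp.mpr
      (mul_le_mul_of_nonpos_left (Finset.mem_filter.mp hv).2 (neg_nonpos.mpr hc))
  have h4 := (h3.trans (Finset.sum_le_sum_of_subset_of_nonneg (Finset.subset_univ _)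
    fun v _ _ => (Real.exp_pos _).le)).trans h2
  rw [nsmul_eq_mul, ← le_div_iff₀ (Real.exp_pos _), ← Real.exp_sub] at h4
  refine h4.trans_eq (congrArg _ ?_)
  ring

/-- a maximal separated subset -/
theorem maxsep {X : Type*} (Y : Set X) (R : X → X → Prop) (hR : ∀ x y, R x y → R y x) (N : ℝ)
    (h : ∀ S : Finset X, (↑S : Set X) ⊆ Y → (∀ x ∈ S, ∀ y ∈ S, x ≠ y → R x y) → S.card < N) :
    ∃ S : Finset X, (↑S : Set X) ⊆ Y ∧ S.card < N ∧ ∀ y ∈ Y, ∃ x ∈ S, x = y ∨ ¬ R x y := by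
  classical
  by_contra hno
  have h1 : ∀ k : ℕ, ∃ S : Finset X, (↑S : Set X) ⊆ Y ∧ (∀ x ∈ S, ∀ y ∈ S, x ≠ y → R x y) ∧
      S.card = k := by
    intro k
    induction k with
    | zero => exact ⟨∅, by simp, by simp, rfl⟩
    | succ k ih =>
      obtain ⟨S, hS1, hS2, hS3⟩ := ih
      have h2 : ∃ y ∈ Y, ∀ x ∈ S, x ≠ y ∧ R x y := by
        by_contra h2
        refine hno ⟨S, hS1, h S hS1 hS2, fun y hy => ?_⟩
        by_contra h3
        exact h2 ⟨y, hy, fun x hx => ⟨fun e => h3 ⟨x, hx, Or.inl e⟩,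
          not_not.mp fun e => h3 ⟨x, hx, Or.inr e⟩⟩⟩
      obtain ⟨y, hy, h3⟩ := h2
      refine ⟨insert y S, ?_, fun a ha b hb hab => ?_, ?_⟩
      · rw [Finset.coe_insert]
        exact insert_subset hy hS1
      · rcases Finset.mem_insert.mp ha with rfl | ha' <;>
          rcases Finset.mem_insert.mp hb with rfl | hb'
        · exact absurd rfl hab
        · exact hR _ _ (h3 b hb').2
        · exact (h3 a ha').2
        · exact hS2 a ha' b hb' hab
      · rw [Finset.card_insert_of_notMem fun hyS => (h3 y hyS).1 rfl, hS3]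
  obtain ⟨k, hk⟩ := exists_nat_ge N
  obtain ⟨S, hS1, hS2, hS3⟩ := h1 k
  have h2 := h S hS1 hS2
  rw [hS3] at h2
  exact h2.not_ge hk

/-- few points visit a small set often -/
theorem markov {X : Type*} [MeasurableSpace X] {T : X → X} {μ : Measure X}
    [IsProbabilityMeasure μ] (hT : MeasurePreserving T μ μ) {W : Set X} (hW : MeasurableSet W)
    {γ : ℝ} (hγ : 0 < γ) (hμ : μ.real W ≤ γ * γ) {n : ℕ} (hn : 0 < n) :
    MeasurableSet {x | γ * n ≤ ∑ j : Fin n, (T^[j] ⁻¹' W).indicator (1 : X → ℝ) x} ∧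
      μ.real {x | γ * n ≤ ∑ j : Fin n, (T^[j] ⁻¹' W).indicator (1 : X → ℝ) x} ≤ γ := by
  have hm : ∀ j : Fin n, MeasurableSet (T^[j] ⁻¹' W) := fun j => hT.measurable.iterate j hW
  have hi : ∀ j : Fin n, Integrable ((T^[j] ⁻¹' W).indicator (1 : X → ℝ)) μ := fun j =>
    (integrable_const (1 : ℝ)).indicator (hm j)
  refine ⟨measurableSet_le measurable_const
    (Finset.measurable_sum _ fun j _ => measurable_one.indicator (hm j)), ?_⟩
  have h1 := mul_meas_ge_le_integral_of_nonneg (μ := μ)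
    (f := fun x => ∑ j : Fin n, (T^[j] ⁻¹' W).indicator (1 : X → ℝ) x)
    (ae_of_all μ fun x => Finset.sum_nonneg fun j _ => indicator_nonneg (fun _ _ => zero_le_one) x)
    (integrable_finsetSum _ fun j _ => hi j) (γ * n)
  rw [integral_finsetSum _ fun j _ => hi j] at h1
  have h2 : ∑ j : Fin n, ∫ x, (T^[j] ⁻¹' W).indicator (1 : X → ℝ) x ∂μ = n * μ.real W := by
    rw [Finset.sum_congr rfl fun j _ => (integral_indicator_one (hm j)).trans
      ((hT.iterate j).measureReal_preimage hW.nullMeasurableSet), Finset.sum_const,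
      Finset.card_univ, Fintype.card_fin, nsmul_eq_mul]
  have hn' : (0 : ℝ) < n := by exact_mod_cast hn
  refine le_of_mul_le_mul_left (h1.trans (h2.trans_le ?_)) (mul_pos hγ hn')
  calc (n : ℝ) * μ.real W ≤ n * (γ * γ) := mul_le_mul_of_nonneg_left hμ hn'.le
    _ = _ := by ring

end KatokAux

/-- sets of measure close to one contain many separated points -/
theorem katok {X : Type*} [MetricSpace X] [CompactSpace X] [MeasurableSpace X] [BorelSpace X]
    {T : X → X} {μ : Measure X} [IsProbabilityMeasure μ] (hT : MeasurePreserving T μ μ)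
    {s : ℝ} (hs : 0 ≤ s) (h : ENNReal.ofReal s < ksEnt T μ) :
    ∃ ε > 0, ∃ δ > 0, ∀ᶠ n : ℕ in atTop, ∀ B : Set X, MeasurableSet B → 1 - δ ≤ μ.real B →
      ∃ S : Finset X, (↑S : Set X) ⊆ B ∧ Real.exp (s * n) ≤ S.card ∧
        ∀ x ∈ S, ∀ y ∈ S, x ≠ y → ∃ j < n, ε ≤ dist (T^[j] x) (T^[j] y) := by
  classical
  obtain ⟨K, hK⟩ := lt_iSup_iff.mp h
  obtain ⟨P, hK⟩ := lt_iSup_iff.mp hK
  obtain ⟨hPm, hK⟩ := lt_iSup_iff.mp hK
  have hP : ∀ a, MeasurableSet (P ⁻¹' {a}) := fun a => hPm (measurableSet_singleton a)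
  obtain ⟨g, hg, hgs⟩ : ∃ g : ℝ, 0 < g ∧ s + 4 * g = partRate T μ P :=
    ⟨(partRate T μ P - s) / 4, by linarith [(ENNReal.ofReal_lt_ofReal_iff_of_nonneg hs).mp hK],
      by ring⟩
  have hK1 : (1 : ℝ) ≤ K := by
    have : Nonempty (Fin K) := (nonempty_of_isProbabilityMeasure μ).map P
    exact_mod_cast Fin.pos_iff_nonempty.mpr this
  have hlK : 0 ≤ Real.log K := Real.log_nonneg hK1
  obtain ⟨c, hc0, hc⟩ : ∃ c : ℝ, 0 ≤ c ∧ K * Real.exp (-c) ≤ g := by
    refine ⟨K / g, by positivity, ?_⟩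
    have h1 := Real.add_one_le_exp (K / g)
    rw [Real.exp_neg, ← div_eq_mul_inv, div_le_iff₀ (Real.exp_pos _), mul_comm,
      ← div_le_iff₀ hg]
    linarith
  obtain ⟨γ, hγ, hγc, hγK⟩ : ∃ γ : ℝ, 0 < γ ∧ c * (2 * γ) ≤ g ∧ 2 * γ * Real.log K ≤ g := by
    have h1 : 0 < c + Real.log K + 1 := by positivity
    have h2 : (c + Real.log K + 1) * (2 * (g / (2 * (c + Real.log K + 1)))) = g := by field_simp
    have h3 : 0 < g / (2 * (c + Real.log K + 1)) := by positivity
    exact ⟨_, h3, by nlinarith, by nlinarith⟩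
  obtain ⟨U, ε, hU, hε, hUγ, hUP⟩ := KatokAux.cores μ hP (mul_pos hγ hγ)
  refine ⟨ε, hε, γ, hγ, ?_⟩
  filter_upwards [(tendsto_natCast_atTop_atTop (R := ℝ)).eventually_gt_atTop (Real.log 2 / g),
    eventually_gt_atTop 0] with n hn hn0 B hB hμB
  obtain ⟨hB1, hB2⟩ := KatokAux.markov hT hU.compl hγ hUγ hn0
  generalize hB0 : {x | γ * n ≤ ∑ j : Fin n, (T^[j] ⁻¹' Uᶜ).indicator (1 : X → ℝ) x} = B1
    at hB1 hB2
  have hB3 : ∀ x, x ∉ B1 → ∑ j : Fin n, (T^[j] ⁻¹' Uᶜ).indicator (1 : X → ℝ) x ≤ γ * n :=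
    fun x hx => le_of_not_ge (hB0 ▸ hx :)
  by_contra hno
  obtain ⟨S, hS1, hS2, hS3⟩ := KatokAux.maxsep (B \ B1)
    (fun x y => ∃ j < n, ε ≤ dist (T^[j] x) (T^[j] y))
    (fun x y ⟨j, hj, hd⟩ => ⟨j, hj, hd.trans_eq (dist_comm _ _)⟩) (Real.exp (s * n))
    fun S h1 h2 => lt_of_not_ge fun h3 => hno ⟨S, h1.trans sdiff_subset, h3, h2⟩
  have h1 := partEnt_le_of_set μ (measurableSet_name hT.measurable hP n) (hB.diff hB1)
    (S.biUnion fun x => Finset.univ.filter fun v : Fin n → Fin K =>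
      ∑ j, (if v j = name T P n x j then (0 : ℝ) else 1) ≤ 2 * γ * n) (by
      intro y hy
      obtain ⟨x, hx, hxy⟩ := hS3 y hy
      have hd : ∀ j < n, dist (T^[j] x) (T^[j] y) ≤ ε := by
        intro j hj
        rcases hxy with rfl | hxy
        · rw [dist_self]
          exact hε.le
        · exact le_of_not_ge fun h2 => hxy ⟨j, hj, h2⟩
      refine Finset.mem_biUnion.mpr ⟨x, hx, Finset.mem_filter.mpr ⟨Finset.mem_univ _, ?_⟩⟩
      have h2 := add_le_add (hB3 x (hS1 hx).2) (hB3 y hy.2)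
      rw [← Finset.sum_add_distrib] at h2
      refine (Finset.sum_le_sum fun j _ => ?_).trans (h2.trans_eq (by ring))
      have h3 : ∀ z, 0 ≤ (T^[j] ⁻¹' Uᶜ).indicator (1 : X → ℝ) z :=
        fun z => indicator_nonneg (fun _ _ => zero_le_one) z
      split_ifs with e
      · exact add_nonneg (h3 x) (h3 y)
      · by_cases hx' : T^[j] x ∈ U
        · have hy' : y ∈ T^[j] ⁻¹' Uᶜ := fun hy' => e (hUP _ hx' _ hy' (hd j j.2)).symm
          rw [indicator_of_mem hy']
          exact le_add_of_nonneg_left (h3 x)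
        · rw [indicator_of_mem (show x ∈ T^[j] ⁻¹' Uᶜ from hx')]
          exact le_add_of_nonneg_right (h3 y))
  have hn' : (0 : ℝ) ≤ n := Nat.cast_nonneg n
  have h2 : ((S.biUnion fun x => Finset.univ.filter fun v : Fin n → Fin K =>
      ∑ j, (if v j = name T P n x j then (0 : ℝ) else 1) ≤ 2 * γ * n).card : ℝ) ≤
      Real.exp (s * n + 2 * g * n) := by
    calc _ ≤ ((∑ x ∈ S, (Finset.univ.filter fun v : Fin n → Fin K =>
          ∑ j, (if v j = name T P n x j then (0 : ℝ) else 1) ≤ 2 * γ * n).card : ℕ) : ℝ) := by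
          exact_mod_cast Finset.card_biUnion_le
      _ ≤ ∑ _x ∈ S, Real.exp (2 * g * n) := by
          rw [Nat.cast_sum]
          refine Finset.sum_le_sum fun x _ => (KatokAux.ham _ hc0 _).trans
            (Real.exp_le_exp.mpr ?_)
          rw [Fintype.card_fin]
          nlinarith [mul_le_mul_of_nonneg_left hγc hn', mul_le_mul_of_nonneg_left hc hn']
      _ ≤ _ := by
          rw [Finset.sum_const, nsmul_eq_mul, Real.exp_add]
          exact mul_le_mul_of_nonneg_right hS2.le (Real.exp_pos _).le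
  generalize (S.biUnion fun x => Finset.univ.filter fun v : Fin n → Fin K =>
      ∑ j, (if v j = name T P n x j then (0 : ℝ) else 1) ≤ 2 * γ * n).card = N at h1 h2
  have h3 : Real.log N ≤ s * n + 2 * g * n := by
    rcases Nat.eq_zero_or_pos N with rfl | hN
    · rw [Nat.cast_zero, Real.log_zero]
      positivity
    · exact (Real.log_le_iff_le_exp (by exact_mod_cast hN)).mpr h2
  have h4 : μ.real (B \ B1)ᶜ ≤ 2 * γ := by
    have h5 : (B \ B1)ᶜ ⊆ Bᶜ ∪ B1 := fun x hx => by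
      by_contra h6
      exact hx ⟨not_not.mp fun h7 => h6 (Or.inl h7), fun h7 => h6 (Or.inr h7)⟩
    have h6 := (measureReal_mono h5).trans (measureReal_union_le (μ := μ) _ _)
    rw [probReal_compl_eq_one_sub hB] at h6
    linarith
  have h5 := partRate_mul_le hT hP n
  rw [Fintype.card_fun, Fintype.card_fin, Fintype.card_fin, Nat.cast_pow, Real.log_pow] at h1
  rw [div_lt_iff₀ hg] at hn
  rw [← hgs] at h5
  have h6 := mul_le_mul_of_nonneg_right h4 (mul_nonneg hn' hlK)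
  have h7 := mul_le_mul_of_nonneg_left hγK hn'
  nlinarith

end Pool.Agent.Lib.MP_901be3_an.Hd
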