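import Pool.Agent.Lib.MP_901be3_an.Hd.Temper
import Pool.Agent.Lib.MP_901be3_an.Hd.AtBasic

namespace Pool.Agent.Lib.MP_901be3_an.Hd

open MeasureTheory Filter Topology Metric Set
open scoped ENNReal

variable {X : Type*} [MetricSpace X] [MeasurableSpace X] [BorelSpace X]

namespace LyapAux

theorem sup_fn {Y : Type*} [MeasurableSpace Y] {μ : Measure Y} {T : Y → Y}
    (hT : Measure.QuasiMeasurePreserving T μ μ) {φ : ℕ → Y → ℝ} (hφ : ∀ n, Measurable (φ n))
    {χ l B : ℝ} (hχ : 0 ≤ χ) (hl : l < -χ) (hB : 1 ≤ B)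
    (h : ∀ᵐ x ∂μ, φ 0 x = 1 ∧ Tendsto (fun n : ℕ => Real.log (φ n x) / n) atTop (𝓝 l)) :
    ∃ S : Y → ℝ, Measurable S ∧ (∀ᵐ x ∂μ, 1 ≤ S x) ∧ ∀ᵐ x ∂μ, ∀ β : ℝ, 0 < β → β ≤ B →
      (∀ n, φ (n + 1) x = β * φ n (T x)) →
      Real.exp χ * β * S (T x) ≤ S x ∧ S x ≤ Real.exp χ * B * S (T x) := by
  have hb : ∀ᵐ x ∂μ, BddAbove (range fun n : ℕ => Real.exp (χ * n) * φ n x) := by
    filter_upwards [h] with x ⟨_, hx⟩
    refine IsBoundedUnder.bddAbove_range ⟨1, ?_⟩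
    rw [eventually_map]
    filter_upwards [hx.eventually (gt_mem_nhds hl), eventually_gt_atTop 0] with n h1 hn
    have hn' : (0 : ℝ) < n := by exact_mod_cast hn
    rw [div_lt_iff₀ hn'] at h1
    calc Real.exp (χ * n) * φ n x ≤ Real.exp (χ * n) * Real.exp (Real.log (φ n x)) :=
          mul_le_mul_of_nonneg_left (Real.le_exp_log _) (Real.exp_pos _).le
      _ ≤ 1 := by
          rw [← Real.exp_add, Real.exp_le_one_iff]
          linarith
  have h1 : ∀ᵐ x ∂μ, 1 ≤ ⨆ n : ℕ, Real.exp (χ * n) * φ n x := by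
    filter_upwards [h, hb] with x ⟨h0, _⟩ hx
    simpa [h0] using le_ciSup hx 0
  refine ⟨fun x => ⨆ n : ℕ, Real.exp (χ * n) * φ n x,
    Measurable.iSup fun n => (hφ n).const_mul _, h1, ?_⟩
  filter_upwards [h, hb, hT.ae hb, hT.ae h1] with x ⟨h0, _⟩ b1 b2 b3 β hβ hβB hs
  have hE : 1 ≤ Real.exp χ := Real.one_le_exp hχ
  have hp : 0 < Real.exp χ * β := by positivity
  have e : ∀ n : ℕ, Real.exp (χ * (n + 1 : ℕ)) * φ (n + 1) x
      = Real.exp χ * β * (Real.exp (χ * n) * φ n (T x)) := fun n => by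
    rw [hs, Nat.cast_succ, mul_add, mul_one, Real.exp_add]
    ring
  constructor
  · rw [← le_div_iff₀' hp]
    refine ciSup_le fun n => ?_
    rw [le_div_iff₀' hp, ← e]
    exact le_ciSup b1 (n + 1)
  · refine ciSup_le fun n => ?_
    cases n with
    | zero =>
      simp only [Nat.cast_zero, mul_zero, Real.exp_zero, h0, mul_one]
      exact one_le_mul_of_one_le_of_one_le (one_le_mul_of_one_le_of_one_le hE hB) b3
    | succ n =>
      rw [e]
      refine (mul_le_mul_of_nonneg_left (le_ciSup b2 n) hp.le).trans ?_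
      gcongr

theorem atl (A : Atlas X) {P : Par} {g : X ≃ₜ X} (hg : A.Good P g) {μ : Measure X}
    (hμ : MeasurePreserving g μ μ) {s : X → V} (ms : Measurable s) {χ l : ℝ} (hχ : 0 ≤ χ)
    (hl : l < -χ) (h : ∀ᵐ x ∂μ, ‖s x‖ = 1 ∧
      Tendsto (fun n : ℕ => Real.log ‖A.D g^[n] x (s x)‖ / n) atTop (𝓝 l)) :
    ∃ S : X → ℝ, Measurable S ∧ (∀ᵐ x ∂μ, 1 ≤ S x) ∧ ∀ᵐ x ∂μ, ∀ b : ℝ, b ≠ 0 → |b| ≤ P.B →
      A.D g x (s x) = b • s (g x) →
      Real.exp χ * |b| * S (g x) ≤ S x ∧ S x ≤ Real.exp χ * P.B * S (g x) := by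
  have mφ : ∀ n, Measurable fun x => ‖A.D g^[n] x (s x)‖ := fun n => by
    have hM := Atlas.measurable_D (A := A) (g.continuous.iterate n)
    have e : (fun x => A.D g^[n] x (s x))
        = fun x => (s x).1 • A.D g^[n] x (1, 0) + (s x).2 • A.D g^[n] x (0, 1) :=
      funext fun x => by
        rw [← map_smul, ← map_smul, ← map_add]
        congr 1
        ext <;> simp
    refine Measurable.norm ?_
    rw [e]
    exact (ms.fst.smul (hM.apply_continuousLinearMap _)).add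
      (ms.snd.smul (hM.apply_continuousLinearMap _))
  obtain ⟨S, mS, h1, h2⟩ := sup_fn hμ.quasiMeasurePreserving mφ hχ hl P.one_le_B (by
    filter_upwards [h] with x ⟨h1, h2⟩
    exact ⟨by simpa [Atlas.D_id] using h1, h2⟩)
  refine ⟨S, mS, h1, h2.mono fun x hx b hb hB e => hx _ (abs_pos.2 hb) hB fun n => ?_⟩
  rw [Atlas.D_iter_add hg.1.dif hg.2.2.dif n 1 x, Function.iterate_one,
    ContinuousLinearMap.comp_apply, e, map_smul, norm_smul, Real.norm_eq_abs]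

theorem key {α q q' W c E ci cm : ℝ} (hα : 0 < α) (hq : 0 < q) (hE : 0 ≤ E) (hq' : q' ≤ E * q)
    (h0 : 0 ≤ cm) (h1 : cm ≤ 2 * q') (hW : 0 ≤ W) (h2 : ci ≤ W / q) (h : q ^ α * W ≤ c) :
    ci * cm ^ (1 + α) ≤ (2 * E) ^ (1 + α) * c := by
  have h3 : cm ^ (1 + α) ≤ (2 * E) ^ (1 + α) * (q * q ^ α) := by
    rw [← Real.rpow_one_add' hq.le (by positivity), ← Real.mul_rpow (by positivity) hq.le]
    exact Real.rpow_le_rpow h0 (by linarith) (by positivity)
  calc ci * cm ^ (1 + α) ≤ W / q * ((2 * E) ^ (1 + α) * (q * q ^ α)) :=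
        mul_le_mul h2 h3 (by positivity) (by positivity)
    _ = (2 * E) ^ (1 + α) * (q ^ α * W) := by field_simp
    _ ≤ _ := by gcongr

theorem log_bd {x y K : ℝ} (hx : 0 < x) (hy : 0 < y) (h1 : x ≤ K * y) (h2 : y ≤ K * x) :
    |Real.log x - Real.log y| ≤ Real.log K := by
  have hK : 0 < K := (mul_pos_iff_of_pos_right hy).1 (hx.trans_le h1)
  have h3 := Real.log_le_log hx h1
  have h4 := Real.log_le_log hy h2
  rw [Real.log_mul hK.ne' hy.ne'] at h3
  rw [Real.log_mul hK.ne' hx.ne'] at h4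
  exact abs_le.2 ⟨by linarith, by linarith⟩

theorem frame {u s : V} {q U S : ℝ} (hu : ‖u‖ = 1) (hs : ‖s‖ = 1) (hd : det u s ≠ 0) (hq : 0 < q)
    (hU : 1 ≤ U) (hS : 1 ≤ S) :
    det ((q / U) • u) ((q / S) • s) ≠ 0 ∧ ‖Cm ((q / U) • u) ((q / S) • s)‖ ≤ 2 * q ∧
      ‖Ci ((q / U) • u) ((q / S) • s)‖ ≤ 2 * U * S / |det u s| / q := by
  have U0 : 0 < U := by linarith
  have S0 : 0 < S := by linarith
  have e : det ((q / U) • u) ((q / S) • s) = q / U * (q / S) * det u s := by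
    simp only [det, Prod.smul_fst, Prod.smul_snd, smul_eq_mul]
    ring
  have n1 : ‖(q / U) • u‖ = q / U := by
    rw [norm_smul, hu, mul_one, Real.norm_of_nonneg (by positivity)]
  have n2 : ‖(q / S) • s‖ = q / S := by
    rw [norm_smul, hs, mul_one, Real.norm_of_nonneg (by positivity)]
  refine ⟨by rw [e]; positivity, (norm_Cm_le _ _).trans ?_, (norm_Ci_le_max _ _).trans ?_⟩
  · rw [n1, n2]
    linarith [div_le_self hq.le hU, div_le_self hq.le hS]
  · have d0 := abs_pos.2 hd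
    rw [n1, n2, e, abs_mul, abs_of_pos (by positivity : 0 < q / U * (q / S))]
    have e1 : max (q / U) (q / S) ≤ q := max_le (div_le_self hq.le hU) (div_le_self hq.le hS)
    have e2 : 2 * U * S / |det u s| / q = 2 * q / (q / U * (q / S) * |det u s|) := by
      field_simp
    rw [e2]
    gcongr

omit [BorelSpace X] in
theorem mult (A : Atlas X) {P : Par} {g : X ≃ₜ X} (hg : A.Good P g) {x : X} {u u' : V} {a : ℝ}
    (hu : ‖u‖ = 1) (hu' : ‖u'‖ = 1) (e : A.D g x u = a • u') : 1 ≤ P.B * |a| ∧ |a| ≤ P.B := by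
  obtain ⟨h1, h2⟩ := hg.norm_D_iter 1 x
  rw [Function.iterate_one, pow_one] at h1 h2
  have h3 := h2 u
  have h4 := (A.D g x).le_of_opNorm_le h1 u
  rw [e, norm_smul, hu, hu', mul_one, Real.norm_eq_abs] at h3 h4
  exact ⟨h3, by simpa using h4⟩

omit [BorelSpace X] in
theorem det_bd (A : Atlas X) {P : Par} {g : X ≃ₜ X} (hg : A.Good P g) (x : X) :
    |detL (A.D g x)| ≤ 2 * P.B ^ 2 ∧ 1 ≤ 2 * P.B ^ 2 * |detL (A.D g x)| := by
  have h1 : ∀ {f : X ≃ₜ X}, A.Good P f → ∀ y, |detL (A.D f y)| ≤ 2 * P.B ^ 2 := fun hf y => by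
    have h2 := (hf.norm_D_iter 1 y).1
    rw [Function.iterate_one, pow_one] at h2
    refine (abs_detL_le _).trans ?_
    gcongr
  refine ⟨h1 hg x, ?_⟩
  have h3 := congrArg (fun T => |detL T|) (hg.D_symm_iter 1 x)
  simp only [Function.iterate_one, detL_comp, detL_id, abs_mul, abs_one] at h3
  rw [← h3]
  exact mul_le_mul_of_nonneg_right (h1 hg.symm _) (abs_nonneg _)

end LyapAux

namespace Atlas

/-- Lyapunov frames -/
theorem lyap (A : Atlas X) {P : Par} {g : X ≃ₜ X} (hg : A.Good P g) {μ : Measure X}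
    [IsProbabilityMeasure μ] (hμ : Ergodic g μ) (h : A.Split g μ) :
    ∃ κ : ℝ, 0 < κ ∧ κ ≤ 1 ∧ ∀ c₀ > 0, ∃ u s : X → V, Measurable u ∧ Measurable s ∧
      ∀ᵐ x ∂μ, det (u x) (s x) ≠ 0 ∧
        (∃ a b : ℝ, 1 + κ ≤ |a| ∧ b ≠ 0 ∧ |b| ≤ (1 + κ)⁻¹ ∧ A.D g x (u x) = a • u (g x) ∧
          A.D g x (s x) = b • s (g x)) ∧
        ‖Cm (u x) (s x)‖ < c₀ ∧
        ‖Ci (u x) (s x)‖ * ‖Cm (u x) (s x)‖ ^ (1 + P.α) < c₀ ∧
        ‖Ci (u (g x)) (s (g x))‖ * ‖Cm (u x) (s x)‖ ^ (1 + P.α) < c₀ ∧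
        ‖Ci (u x) (s x)‖ * ‖Cm (u (g x)) (s (g x))‖ ^ (1 + P.α) < c₀ := by
  obtain ⟨lp, lm, hlp, hlm, u, s, mu, ms, H⟩ := h
  obtain ⟨χ, hχ, k1, k2⟩ : ∃ χ : ℝ, 0 < χ ∧ -lp < -χ ∧ lm < -χ :=
    ⟨min lp (-lm) / 2, half_pos (lt_min hlp (by linarith)), by linarith [min_le_left lp (-lm)],
      by linarith [min_le_right lp (-lm)]⟩
  have hq := hμ.toMeasurePreserving.quasiMeasurePreserving
  have hB := P.one_le_B
  have hα := P.α_pos
  obtain ⟨S, mS, S1, S2⟩ := LyapAux.atl A hg hμ.toMeasurePreserving ms hχ.le k2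
    (H.mono fun x hx => ⟨hx.2.1, hx.2.2.2.2.2.1⟩)
  obtain ⟨U, mU, U1, U2⟩ := LyapAux.atl A hg.symm
    (measurePreserving_symm g hμ.toMeasurePreserving) mu hχ.le k1
    (H.mono fun x hx => ⟨hx.1, hx.2.2.2.2.1.2⟩)
  have hE : 1 ≤ Real.exp χ := Real.one_le_exp hχ.le
  have hdet : ∀ᵐ x ∂μ, det (u x) (s x) ≠ 0 := by
    filter_upwards [H] with x ⟨n1, n2, _, _, r1, r2⟩ h0
    obtain ⟨t, ht⟩ := exists_smul_of_det (norm_pos_iff.1 (by rw [n1]; norm_num)) h0
    have h1 : ‖t‖ = 1 := by rwa [ht, norm_smul, n1, mul_one] at n2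
    have h2 := r2.1
    simp only [ht, map_smul, norm_smul, h1, one_mul] at h2
    linarith [tendsto_nhds_unique r1.1 h2]
  have G : ∀ᵐ x ∂μ, ∃ a b : ℝ, A.D g x (u x) = a • u (g x) ∧ A.D g x (s x) = b • s (g x) ∧
      (1 ≤ P.B * |a| ∧ |a| ≤ P.B) ∧ (1 ≤ P.B * |b| ∧ |b| ≤ P.B) ∧
      (Real.exp χ * U x ≤ |a| * U (g x) ∧ U (g x) ≤ Real.exp χ * P.B * U x) ∧
      Real.exp χ * |b| * S (g x) ≤ S x ∧ S x ≤ Real.exp χ * P.B * S (g x) := by
    filter_upwards [H, hq.ae H, S2, hq.ae U2] with x ⟨n1, n2, ⟨a, ha⟩, ⟨b, hb⟩, _⟩ ⟨n3, n4, _⟩ s2 u2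
    have m1 := LyapAux.mult A hg n1 n3 ha
    have m2 := LyapAux.mult A hg n2 n4 hb
    have a0 : a ≠ 0 := fun h0 => by
      have := m1.1
      rw [h0, abs_zero, mul_zero] at this
      linarith
    have b0 : b ≠ 0 := fun h0 => by
      have := m2.1
      rw [h0, abs_zero, mul_zero] at this
      linarith
    have h1 : A.D g.symm (g x) (u (g x)) = a⁻¹ • u (g.symm (g x)) := by
      have h2 := congrArg (fun T : V →L[ℝ] V => T (u x)) (hg.D_symm_iter 1 x)
      simp only [Function.iterate_one, ContinuousLinearMap.comp_apply, ha, map_smul,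
        ContinuousLinearMap.id_apply] at h2
      rw [g.symm_apply_apply, ← h2, inv_smul_smul₀ a0]
    have h3 := u2 a⁻¹ (inv_ne_zero a0) (by
      rw [abs_inv, inv_le_iff_one_le_mul₀ (abs_pos.2 a0)]
      exact m1.1) h1
    rw [g.symm_apply_apply, abs_inv] at h3
    refine ⟨a, b, ha, hb, m1, m2, ⟨?_, h3.2⟩, s2 b b0 m2.2 hb⟩
    rw [← inv_mul_le_iff₀ (abs_pos.2 a0)]
    linarith [h3.1]
  have hκ : 1 < Real.exp (χ / 2) := Real.one_lt_exp_iff.2 (half_pos hχ)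
  refine ⟨min 1 (Real.exp (χ / 2) - 1), lt_min one_pos (by linarith), min_le_left _ _,
    fun c₀ hc₀ => ?_⟩
  have hκ' : 1 + min 1 (Real.exp (χ / 2) - 1) ≤ Real.exp (χ / 2) := by
    linarith [min_le_right 1 (Real.exp (χ / 2) - 1)]
  have hκ0 : 0 < 1 + min 1 (Real.exp (χ / 2) - 1) :=
    add_pos one_pos (lt_min one_pos (by linarith))
  generalize min 1 (Real.exp (χ / 2) - 1) = κ at hκ' hκ0
  have hEE : Real.exp χ = Real.exp (χ / 2) * Real.exp (χ / 2) := by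
    rw [← Real.exp_add, add_halves]
  obtain ⟨c, hc, c1, c2⟩ : ∃ c : ℝ, 0 < c ∧ (2 * Real.exp (χ / 2)) ^ (1 + P.α) * c < c₀ ∧
      c ≤ (c₀ / 4) ^ P.α := by
    have h1 : 0 < (2 * Real.exp (χ / 2)) ^ (1 + P.α) := by positivity
    refine ⟨min (c₀ / 2 / (2 * Real.exp (χ / 2)) ^ (1 + P.α)) ((c₀ / 4) ^ P.α),
      lt_min (by positivity) (by positivity), ?_, min_le_right _ _⟩
    refine (mul_le_mul_of_nonneg_left (min_le_left _ _) h1.le).trans_lt ?_
    rw [mul_div_cancel₀ _ h1.ne']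
    linarith
  have md : Measurable fun x => |det (u x) (s x)| :=
    (continuous_det.measurable.comp (mu.prodMk ms)).abs
  obtain ⟨q, mq, hQ⟩ := temper_kernel g hμ
    (W := fun x => (2 * U x * S x / |det (u x) (s x)| / c) ^ P.α⁻¹)
    (((((mU.const_mul 2).mul mS).div md).div_const c).pow_const _)
    (B := P.α⁻¹ * (Real.log (Real.exp χ * P.B) + Real.log (Real.exp χ * P.B) +
      Real.log (2 * P.B ^ 4))) (by
    filter_upwards [G, hdet, hq.ae hdet, S1, hq.ae S1, U1, hq.ae U1] with x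
      ⟨a, b, ha, hb, ⟨a1, a2⟩, ⟨b1, b2⟩, ⟨u1, u2⟩, s1, s2⟩ d1 d2 s3 s4 u3 u4
    have d1' := abs_pos.2 d1
    have d2' := abs_pos.2 d2
    have s3' : 0 < S x := by linarith
    have s4' : 0 < S (g x) := by linarith
    have u3' : 0 < U x := by linarith
    have u4' : 0 < U (g x) := by linarith
    refine ⟨by positivity, ?_⟩
    have l1 := LyapAux.log_bd u4' u3' u2 (by
      calc U x ≤ Real.exp χ * U x := le_mul_of_one_le_left u3'.le hE
        _ ≤ P.B * U (g x) := u1.trans (by gcongr)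
        _ ≤ _ := by rw [mul_assoc]; exact le_mul_of_one_le_left (by positivity) hE)
    have l2 := LyapAux.log_bd s3' s4' s2 (by
      calc S (g x) ≤ Real.exp χ * (P.B * |b|) * S (g x) :=
            le_mul_of_one_le_left s4'.le (one_le_mul_of_one_le_of_one_le hE b1)
        _ = P.B * (Real.exp χ * |b| * S (g x)) := by ring
        _ ≤ P.B * S x := by gcongr
        _ ≤ _ := by rw [mul_assoc]; exact le_mul_of_one_le_left (by positivity) hE)
    have e : |a| * |b| * |det (u (g x)) (s (g x))| = |detL (A.D g x)| * |det (u x) (s x)| := by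
      rw [← abs_mul, ← abs_mul, ← abs_mul, ← det_map, ha, hb]
      congr 1
      simp only [det, Prod.smul_fst, Prod.smul_snd, smul_eq_mul]
      ring
    obtain ⟨e1, e2⟩ := LyapAux.det_bd A hg x
    have l3 := LyapAux.log_bd (K := 2 * P.B ^ 4) d2' d1' (by
      calc _ ≤ P.B * |a| * (P.B * |b|) * |det (u (g x)) (s (g x))| :=
            le_mul_of_one_le_left d2'.le (one_le_mul_of_one_le_of_one_le a1 b1)
        _ = P.B ^ 2 * (|a| * |b| * |det (u (g x)) (s (g x))|) := by ring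
        _ ≤ P.B ^ 2 * (2 * P.B ^ 2 * |det (u x) (s x)|) := by rw [e]; gcongr
        _ = _ := by ring) (by
      calc _ ≤ 2 * P.B ^ 2 * |detL (A.D g x)| * |det (u x) (s x)| :=
            le_mul_of_one_le_left d1'.le e2
        _ = 2 * P.B ^ 2 * (|a| * |b| * |det (u (g x)) (s (g x))|) := by rw [e]; ring
        _ ≤ 2 * P.B ^ 2 * (P.B * P.B * |det (u (g x)) (s (g x))|) := by gcongr
        _ = _ := by ring)
    rw [Real.log_rpow (by positivity), Real.log_rpow (by positivity), ← mul_sub, abs_mul,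
      abs_of_pos (inv_pos.2 hα)]
    refine mul_le_mul_of_nonneg_left ?_ (inv_pos.2 hα).le
    rw [Real.log_div (by positivity) hc.ne', Real.log_div (by positivity) hc.ne',
      Real.log_div (by positivity) d2'.ne', Real.log_div (by positivity) d1'.ne',
      Real.log_mul (by positivity) s4'.ne', Real.log_mul (by positivity) s3'.ne',
      Real.log_mul two_ne_zero u4'.ne', Real.log_mul two_ne_zero u3'.ne']
    rw [abs_le] at l1 l2 l3 ⊢
    constructor <;> linarith [l1.1, l1.2, l2.1, l2.2, l3.1, l3.2]) (half_pos hχ)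
  have F : ∀ᵐ x ∂μ, 0 < q x ∧ q x ≤ c₀ / 4 ∧ 0 ≤ 2 * U x * S x / |det (u x) (s x)| ∧
      q x ^ P.α * (2 * U x * S x / |det (u x) (s x)|) ≤ c ∧
      det ((q x / U x) • u x) ((q x / S x) • s x) ≠ 0 ∧
      ‖Cm ((q x / U x) • u x) ((q x / S x) • s x)‖ ≤ 2 * q x ∧
      ‖Ci ((q x / U x) • u x) ((q x / S x) • s x)‖ ≤ 2 * U x * S x / |det (u x) (s x)| / q x := by
    filter_upwards [H, hdet, S1, U1, hQ] with x ⟨n1, n2, _⟩ d1 s1 u1 ⟨q0, q1, _⟩
    have d1' := abs_pos.2 d1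
    have w1 : 1 ≤ 2 * U x * S x / |det (u x) (s x)| := by
      have h1 := abs_det_le (u x) (s x)
      rw [n1, n2] at h1
      rw [one_le_div d1']
      nlinarith [one_le_mul_of_one_le_of_one_le u1 s1]
    have w0 : 0 ≤ 2 * U x * S x / |det (u x) (s x)| := by linarith
    have h2 : q x ^ P.α * (2 * U x * S x / |det (u x) (s x)|) ≤ c := by
      have h3 := Real.rpow_le_one (by positivity) q1 hα.le
      rw [Real.mul_rpow q0.le (by positivity), Real.rpow_inv_rpow (by positivity) hα.ne',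
        ← mul_div_assoc, div_le_one hc] at h3
      exact h3
    refine ⟨q0, ?_, w0, h2, LyapAux.frame n1 n2 d1 q0 u1 s1⟩
    rw [← Real.rpow_le_rpow_iff q0.le (by positivity) hα]
    exact ((le_mul_of_one_le_right (by positivity) w1).trans h2).trans c2
  refine ⟨fun x => (q x / U x) • u x, fun x => (q x / S x) • s x, (mq.div mU).smul mu,
    (mq.div mS).smul ms, ?_⟩
  filter_upwards [G, F, hq.ae F, hQ, S1, hq.ae S1, U1, hq.ae U1] with x
    ⟨a, b, ha, hb, _, ⟨b1, _⟩, ⟨u1, _⟩, s1, _⟩ ⟨f0, f1, f2, f3, f4, f5, f6⟩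
    ⟨g0, _, g2, g3, _, g5, g6⟩ ⟨_, _, q1, q2⟩ s3 s4 u3 u4
  have s3' : 0 < S x := by linarith
  have s4' : 0 < S (g x) := by linarith
  have u3' : 0 < U x := by linarith
  have u4' : 0 < U (g x) := by linarith
  have E0 := Real.exp_pos (χ / 2)
  have b0 : b ≠ 0 := fun h0 => by
    rw [h0, abs_zero, mul_zero] at b1
    linarith
  refine ⟨f4, ⟨a * (q x / U x * (U (g x) / q (g x))), b * (q x / S x * (S (g x) / q (g x))),
    hκ'.trans ?_, by positivity, le_trans ?_ (inv_anti₀ hκ0 hκ'), ?_, ?_⟩, by linarith,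
    (LyapAux.key hα f0 E0.le (le_mul_of_one_le_left f0.le hκ.le) (norm_nonneg _) f5 f2 f6
      f3).trans_lt c1,
    (LyapAux.key hα g0 E0.le q2 (norm_nonneg _) f5 g2 g6 g3).trans_lt c1,
    (LyapAux.key hα f0 E0.le q1 (norm_nonneg _) g5 f2 f6 f3).trans_lt c1⟩
  · rw [abs_mul, abs_of_pos (by positivity : 0 < q x / U x * (U (g x) / q (g x))),
      div_mul_div_comm, ← mul_div_assoc, le_div_iff₀ (by positivity)]
    calc Real.exp (χ / 2) * (U x * q (g x)) ≤ Real.exp (χ / 2) * (U x * (Real.exp (χ / 2) * q x)) := by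
          gcongr
      _ = Real.exp χ * U x * q x := by rw [hEE]; ring
      _ ≤ |a| * U (g x) * q x := by gcongr
      _ = _ := by ring
  · rw [abs_mul, abs_of_pos (by positivity : 0 < q x / S x * (S (g x) / q (g x))),
      div_mul_div_comm, ← mul_div_assoc, div_le_iff₀ (by positivity), le_inv_mul_iff₀ E0]
    calc Real.exp (χ / 2) * (|b| * (q x * S (g x)))
        ≤ Real.exp (χ / 2) * (|b| * (Real.exp (χ / 2) * q (g x) * S (g x))) := by gcongr
      _ = Real.exp χ * |b| * S (g x) * q (g x) := by rw [hEE]; ring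
      _ ≤ _ := by gcongr
  · rw [map_smul, ha, smul_smul, smul_smul]
    congr 1
    field_simp
  · rw [map_smul, hb, smul_smul, smul_smul]
    congr 1
    field_simp

end Atlas

end Pool.Agent.Lib.MP_901be3_an.Hd
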