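import Pool.Agent.Lib.MP_901be3_an.Hd.Lin2

namespace Pool.Agent.Lib.MP_901be3_an.Hd

open MeasureTheory Filter Topology Metric Set
open scoped ENNReal

namespace OselAux

/-- growth at most `c` -/
def Rate (u : ℕ → ℝ) (c : ℝ) : Prop :=
  ∀ γ : ℝ, 0 < γ → ∃ C : ℝ, 0 < C ∧ ∀ n : ℕ, u n ≤ C * Real.exp ((c + γ) * n)

theorem Rate.mono {u v : ℕ → ℝ} {c : ℝ} (h : Rate v c) (huv : ∀ n, u n ≤ v n) : Rate u c := by
  intro γ hγ
  obtain ⟨C, hC, h⟩ := h γ hγ
  exact ⟨C, hC, fun n => (huv n).trans (h n)⟩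

theorem Rate.add {u v : ℕ → ℝ} {c : ℝ} (h : Rate u c) (h' : Rate v c) :
    Rate (fun n => u n + v n) c := by
  intro γ hγ
  obtain ⟨C, hC, h⟩ := h γ hγ
  obtain ⟨C', hC', h'⟩ := h' γ hγ
  refine ⟨C + C', by positivity, fun n => ?_⟩
  rw [add_mul]
  exact add_le_add (h n) (h' n)

theorem Rate.cmul {u : ℕ → ℝ} {c : ℝ} (h : Rate u c) {K : ℝ} (hK : 0 ≤ K) :
    Rate (fun n => K * u n) c := by
  intro γ hγ
  obtain ⟨C, hC, h⟩ := h γ hγ
  refine ⟨(K + 1) * C, by positivity, fun n => ?_⟩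
  have h1 := mul_le_mul_of_nonneg_left (h n) hK
  have h2 : 0 ≤ C * Real.exp ((c + γ) * n) := by positivity
  change K * u n ≤ _
  nlinarith

theorem Rate.mul {u v : ℕ → ℝ} {c d e : ℝ} (h : Rate u c) (h' : Rate v d) (hv : ∀ n, 0 ≤ v n)
    (he : c + d = e) : Rate (fun n => u n * v n) e := by
  intro γ hγ
  obtain ⟨C, hC, h⟩ := h (γ / 2) (by positivity)
  obtain ⟨C', hC', h'⟩ := h' (γ / 2) (by positivity)
  refine ⟨C * C', by positivity, fun n => ?_⟩
  have h1 := mul_le_mul (h n) (h' n) (hv n) (by positivity)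
  refine h1.trans (le_of_eq ?_)
  rw [mul_mul_mul_comm, ← Real.exp_add, ← he]
  congr 2
  ring

theorem Rate.shift {u : ℕ → ℝ} {c : ℝ} (h : Rate u c) : Rate (fun n => u (n + 1)) c := by
  intro γ hγ
  obtain ⟨C, hC, h⟩ := h γ hγ
  refine ⟨C * Real.exp (c + γ), by positivity, fun n => (h (n + 1)).trans (le_of_eq ?_)⟩
  rw [mul_assoc, ← Real.exp_add]
  congr 2
  push_cast
  ring

theorem rate_of_tendsto {u : ℕ → ℝ} {c : ℝ} (hu : ∀ n, 0 < u n)
    (h : Tendsto (fun n : ℕ => Real.log (u n) / n) atTop (𝓝 c)) : Rate u c := by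
  intro γ hγ
  obtain ⟨N, hN⟩ := eventually_atTop.1 (h.eventually_lt_const (show c < c + γ by linarith))
  have hs : 0 ≤ ∑ j ∈ Finset.range (N + 1), u j * Real.exp (-((c + γ) * j)) :=
    Finset.sum_nonneg fun j _ => (mul_pos (hu j) (Real.exp_pos _)).le
  refine ⟨1 + ∑ j ∈ Finset.range (N + 1), u j * Real.exp (-((c + γ) * j)), by linarith,
    fun n => ?_⟩
  have he := Real.exp_pos ((c + γ) * n)
  by_cases hn : n < N + 1
  · have h1 : u n * Real.exp (-((c + γ) * n)) ≤
        ∑ j ∈ Finset.range (N + 1), u j * Real.exp (-((c + γ) * j)) :=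
      Finset.single_le_sum (f := fun j : ℕ => u j * Real.exp (-((c + γ) * j)))
        (fun j _ => (mul_pos (hu j) (Real.exp_pos _)).le) (Finset.mem_range.2 hn)
    have h2 : u n = u n * Real.exp (-((c + γ) * n)) * Real.exp ((c + γ) * n) := by
      rw [mul_assoc, ← Real.exp_add, neg_add_cancel, Real.exp_zero, mul_one]
    rw [h2]
    exact mul_le_mul_of_nonneg_right (by linarith) he.le
  · have h1 := hN n (by omega)
    have h2 : (0 : ℝ) < n := by exact_mod_cast (show 0 < n by omega)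
    rw [div_lt_iff₀ h2, Real.log_lt_iff_lt_exp (hu n)] at h1
    nlinarith

theorem rate_inv_of_tendsto {u : ℕ → ℝ} {c : ℝ} (hu : ∀ n, 0 < u n)
    (h : Tendsto (fun n : ℕ => Real.log (u n) / n) atTop (𝓝 c)) :
    Rate (fun n => (u n)⁻¹) (-c) := by
  refine rate_of_tendsto (fun n => inv_pos.2 (hu n)) ?_
  refine h.neg.congr fun n => ?_
  rw [Real.log_inv, neg_div]

theorem Rate.ev {u : ℕ → ℝ} {c : ℝ} (h : Rate u c) (hu : ∀ n, 0 < u n) {d : ℝ} (hd : c < d) :
    ∀ᶠ n : ℕ in atTop, Real.log (u n) / n < d := by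
  obtain ⟨C, hC, h⟩ := h ((d - c) / 2) (by linarith)
  have h1 := (tendsto_const_div_atTop_nhds_zero_nat (Real.log C)).eventually_lt_const
    (show (0 : ℝ) < (d - c) / 2 by linarith)
  filter_upwards [h1, eventually_gt_atTop 0] with n hn hn0
  have h2 : (0 : ℝ) < n := by exact_mod_cast hn0
  have h3 := Real.log_le_log (hu n) (h n)
  rw [Real.log_mul hC.ne' (Real.exp_pos _).ne', Real.log_exp] at h3
  rw [div_lt_iff₀ h2] at hn ⊢
  nlinarith

theorem tendsto_of_rate {u : ℕ → ℝ} {c : ℝ} (hu : ∀ n, 0 < u n) (h1 : Rate u c)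
    (h2 : Rate (fun n => (u n)⁻¹) (-c)) :
    Tendsto (fun n : ℕ => Real.log (u n) / n) atTop (𝓝 c) := by
  refine tendsto_order.2 ⟨fun d hd => ?_, fun d hd => h1.ev hu hd⟩
  filter_upwards [h2.ev (fun n => inv_pos.2 (hu n)) (neg_lt_neg hd)] with n hn
  rw [Real.log_inv, neg_div] at hn
  linarith

theorem Rate.zero {u : ℕ → ℝ} {c : ℝ} (h : Rate u c) (hc : c < 0) (hu : ∀ n, 0 ≤ u n) :
    Tendsto u atTop (𝓝 0) := by
  obtain ⟨C, hC, h⟩ := h (-c / 2) (by linarith)
  have h1 : Real.exp (c + -c / 2) < 1 := Real.exp_lt_one_iff.2 (by linarith)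
  have h2 := (tendsto_pow_atTop_nhds_zero_of_lt_one (Real.exp_pos _).le h1).const_mul C
  rw [mul_zero] at h2
  refine squeeze_zero hu (fun n => (h n).trans (le_of_eq ?_)) h2
  rw [mul_comm _ (n : ℝ), Real.exp_nat_mul]

theorem Rate.tail {u w : ℕ → ℝ} {c : ℝ} (h : Rate u c) (hc : c < 0)
    (hw : ∀ (n : ℕ) (K : ℝ), (∀ m, ∑ j ∈ Finset.range m, u (n + j) ≤ K) → w n ≤ K) :
    Rate w c := by
  intro γ hγ
  obtain ⟨C, hC, h⟩ := h (min γ (-c / 2)) (lt_min hγ (by linarith))
  have h0 : c + min γ (-c / 2) < 0 := by linarith [min_le_right γ (-c / 2)]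
  have h1 : Real.exp (c + min γ (-c / 2)) < 1 := Real.exp_lt_one_iff.2 h0
  have h2 := Real.exp_pos (c + min γ (-c / 2))
  have h3 : ∀ n : ℕ, Real.exp ((c + min γ (-c / 2)) * n) = Real.exp (c + min γ (-c / 2)) ^ n := by
    intro n
    rw [mul_comm _ (n : ℝ), Real.exp_nat_mul]
  simp only [h3] at h
  have h4 : ∀ n : ℕ, Real.exp (c + min γ (-c / 2)) ^ n ≤ Real.exp ((c + γ) * n) := by
    intro n
    rw [← h3]
    exact Real.exp_le_exp.2 (mul_le_mul_of_nonneg_right (by linarith [min_le_left γ (-c / 2)])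
      (Nat.cast_nonneg n))
  generalize Real.exp (c + min γ (-c / 2)) = ρ at *
  have h5 : 0 < (1 - ρ)⁻¹ := inv_pos.2 (by linarith)
  refine ⟨C * (1 - ρ)⁻¹, by positivity, fun n => ?_⟩
  refine (hw n (C * (1 - ρ)⁻¹ * ρ ^ n) fun m => ?_).trans
    (mul_le_mul_of_nonneg_left (h4 n) (by positivity))
  refine (Finset.sum_le_sum fun j _ => h (n + j)).trans ?_
  have h6 : ∑ j ∈ Finset.range m, ρ ^ j ≤ (1 - ρ)⁻¹ := by
    rw [← tsum_geometric_of_lt_one h2.le h1]
    exact (summable_geometric_of_lt_one h2.le h1).sum_le_tsum _ fun j _ => by positivity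
  have h7 : ∑ j ∈ Finset.range m, C * ρ ^ (n + j) = C * ρ ^ n * ∑ j ∈ Finset.range m, ρ ^ j := by
    rw [Finset.mul_sum]
    exact Finset.sum_congr rfl fun j _ => by ring
  rw [h7]
  have h8 := mul_le_mul_of_nonneg_left h6 (show 0 ≤ C * ρ ^ n by positivity)
  linarith

theorem pluecker (u v w : V) : det v w • u = det u w • v + det v u • w := by
  ext <;> simp [det] <;> ring

theorem basis_bound (P : V →L[ℝ] V) (u v w : V) :
    |det v w| * ‖P u‖ ≤ |det u w| * ‖P v‖ + |det v u| * ‖P w‖ := by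
  have h := congrArg P (pluecker u v w)
  rw [map_add, map_smul, map_smul, map_smul] at h
  have h1 := norm_add_le (det u w • P v) (det v u • P w)
  rw [← h, norm_smul, norm_smul, norm_smul] at h1
  exact h1

theorem det_tri {u v w : V} (hu : ‖u‖ = 1) (hv : ‖v‖ = 1) (hw : ‖w‖ = 1) :
    |det v w| ≤ |det v u| + |det u w| := by
  have h := basis_bound (ContinuousLinearMap.id ℝ V) u v w
  simp only [ContinuousLinearMap.id_apply, hu, hv, hw, mul_one] at h
  linarith

theorem norm_le (P : V →L[ℝ] V) (v w : V) :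
    |det v w| * ‖P‖ ≤ 2 * (‖w‖ * ‖P v‖ + ‖v‖ * ‖P w‖) := by
  have h : ‖det v w • P‖ ≤ 2 * (‖w‖ * ‖P v‖ + ‖v‖ * ‖P w‖) := by
    refine ContinuousLinearMap.opNorm_le_bound _ (by positivity) fun u => ?_
    rw [smul_apply, norm_smul]
    refine (basis_bound P u v w).trans ?_
    have h1 := mul_le_mul_of_nonneg_right (abs_det_le u w) (norm_nonneg (P v))
    have h2 := mul_le_mul_of_nonneg_right (abs_det_le v u) (norm_nonneg (P w))
    linarith
  rwa [norm_smul] at h

theorem apply_eq (P : V →L[ℝ] V) (v : V) : P v = v.1 • P (1, 0) + v.2 • P (0, 1) := by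
  rw [← map_smul, ← map_smul, ← map_add]
  congr 1
  ext <;> simp

theorem small_aux (P : V →L[ℝ] V) (hd : detL P ≠ 0) {c : V} (h1 : ‖P c‖ = |detL P|)
    (h2 : ‖P‖ ≤ 4 * ‖c‖) : ∃ v : V, ‖v‖ = 1 ∧ ‖P v‖ * ‖P‖ ≤ 4 * |detL P| := by
  have hc : c ≠ 0 := by
    rintro rfl
    rw [map_zero, norm_zero] at h1
    exact hd (abs_eq_zero.1 h1.symm)
  have hc' : 0 < ‖c‖ := norm_pos_iff.2 hc
  refine ⟨‖c‖⁻¹ • c, norm_smul_inv_norm hc, ?_⟩
  rw [map_smul, norm_smul, h1, norm_inv, norm_norm]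
  refine (mul_le_mul_of_nonneg_left h2 (by positivity)).trans (le_of_eq ?_)
  field_simp

theorem small (P : V →L[ℝ] V) (hd : detL P ≠ 0) :
    ∃ v : V, ‖v‖ = 1 ∧ ‖P v‖ * ‖P‖ ≤ 4 * |detL P| := by
  have e1 : P ((P (0, 1)).2, -(P (1, 0)).2) = (detL P, 0) := by
    rw [apply_eq]
    ext <;> simp [detL, det] <;> ring
  have e2 : P (-(P (0, 1)).1, (P (1, 0)).1) = (0, detL P) := by
    rw [apply_eq]
    ext <;> simp [detL, det] <;> ring
  have e3 : det ((P (0, 1)).2, -(P (1, 0)).2) (-(P (0, 1)).1, (P (1, 0)).1) = detL P := by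
    simp [detL, det]
    ring
  generalize ((P (0, 1)).2, -(P (1, 0)).2) = c at *
  generalize (-(P (0, 1)).1, (P (1, 0)).1) = c' at *
  have n1 : ‖P c‖ = |detL P| := by simp [e1]
  have n2 : ‖P c'‖ = |detL P| := by simp [e2]
  have h := norm_le P c c'
  rw [e3, n1, n2] at h
  have h0 : 0 < |detL P| := abs_pos.2 hd
  have h1 : ‖P‖ ≤ 2 * (‖c'‖ + ‖c‖) := le_of_mul_le_mul_left (by linarith) h0
  rcases le_total ‖c‖ ‖c'‖ with h2 | h2
  · exact small_aux P hd n2 (by linarith)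
  · exact small_aux P hd n1 (by linarith)

theorem exists_dual (v : V) : ∃ w : V, ‖w‖ = 1 ∧ |det v w| = ‖v‖ := by
  rcases le_total |v.1| |v.2| with h | h
  · refine ⟨(1, 0), by simp, ?_⟩
    simp [det, Prod.norm_def, h]
  · refine ⟨(0, 1), by simp, ?_⟩
    simp [det, Prod.norm_def, h]

theorem norm_pos {P : V →L[ℝ] V} (hd : detL P ≠ 0) : 0 < ‖P‖ := by
  refine norm_pos_iff.2 ?_
  rintro rfl
  exact hd (by simp [detL, det])

theorem lower (P : V →L[ℝ] V) (v : V) : |detL P| * ‖v‖ ≤ 2 * ‖P v‖ * ‖P‖ := by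
  obtain ⟨w, hw, h⟩ := exists_dual v
  rw [← h, ← abs_mul, ← det_map]
  refine (abs_det_le _ _).trans (mul_le_mul_of_nonneg_left ?_ (by positivity))
  simpa [hw] using P.le_opNorm w

theorem slow {P : ℕ → V →L[ℝ] V} {B l k : ℝ} (hB0 : 0 ≤ B) (hd : ∀ n, detL (P n) ≠ 0)
    (hB : ∀ n v, ‖P n v‖ ≤ B * ‖P (n + 1) v‖) (r1 : Rate (fun n => ‖P n‖) l)
    (r2 : Rate (fun n => ‖P n‖⁻¹) (-l)) (r3 : Rate (fun n => |detL (P n)|) k) (hlk : k - l < l) :
    ∃ s : V, ‖s‖ = 1 ∧ Rate (fun n => ‖P n s‖) (k - l) := by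
  choose v hv hv' using fun n => small (P n) (hd n)
  have hp : ∀ n, 0 < ‖P n‖ := fun n => norm_pos (hd n)
  have a1 : Rate (fun n => ‖P n (v n)‖) (k - l) := by
    refine ((r3.cmul (K := 4) (by norm_num)).mul r2 (fun n => (inv_pos.2 (hp n)).le)
      (by ring)).mono fun n => ?_
    rw [← div_eq_mul_inv, le_div_iff₀ (hp n)]
    exact hv' n
  have a2 : Rate (fun n => |det (v n) (v (n + 1))|) (k - l - l) := by
    refine ((((a1.add (a1.shift.cmul hB0)).cmul (K := 2) (by norm_num))).mul r2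
      (fun n => (inv_pos.2 (hp n)).le) (by ring)).mono fun n => ?_
    rw [← div_eq_mul_inv, le_div_iff₀ (hp n)]
    have h := norm_le (P n) (v n) (v (n + 1))
    rw [hv, hv, one_mul, one_mul] at h
    have h' := hB n (v (n + 1))
    linarith
  obtain ⟨s, hs, φ, hφ, hlim⟩ := (isCompact_sphere (0 : V) 1).tendsto_subseq
    (x := v) fun n => by simpa using hv n
  have hs1 : ‖s‖ = 1 := by simpa using hs
  have a3 : Rate (fun n => |det (v n) s|) (k - l - l) := by
    refine a2.tail (by linarith) fun n K hK => ?_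
    have b1 : ∀ m, |det (v n) (v (n + m))| ≤
        ∑ j ∈ Finset.range m, |det (v (n + j)) (v (n + j + 1))| := by
      intro m
      induction m with
      | zero => simp [det, mul_comm]
      | succ m ih =>
        rw [Finset.sum_range_succ]
        have := det_tri (hv (n + m)) (hv n) (hv (n + m + 1))
        rw [← add_assoc]
        linarith
    have b2 : Tendsto (fun m => |det (v n) (v (φ m))|) atTop (𝓝 |det (v n) s|) :=
      ((continuous_det.tendsto (v n, s)).comp (tendsto_const_nhds.prodMk_nhds hlim)).abs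
    refine le_of_tendsto b2 ?_
    filter_upwards [hφ.tendsto_atTop.eventually (eventually_ge_atTop n)] with m hm
    obtain ⟨j, hj⟩ := Nat.exists_eq_add_of_le hm
    rw [hj]
    exact (b1 j).trans (hK j)
  refine ⟨s, hs1, ((a1.cmul (K := 2) (by norm_num)).add
    (a3.mul r1 (fun n => norm_nonneg _) (by ring))).mono fun n => ?_⟩
  obtain ⟨w, hw, h⟩ := exists_dual (v n)
  have b1 := basis_bound (P n) s (v n) w
  have b2 := abs_det_le s w
  have b3 := (P n).le_opNorm w
  rw [h, hv, one_mul] at b1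
  rw [hs1, hw, mul_one, mul_one] at b2
  rw [hw, mul_one] at b3
  have b4 := mul_le_mul_of_nonneg_right b2 (norm_nonneg (P n (v n)))
  have b5 := mul_le_mul_of_nonneg_left b3 (abs_nonneg (det (v n) s))
  linarith

/-- inner product -/
def ip (v w : V) : ℝ := v.1 * w.1 + v.2 * w.2

/-- trace of the Gram matrix -/
def tr (a b : V) : ℝ := ip a a + ip b b

/-- first column of the normalized adjugate of the Gram matrix -/
noncomputable def g1 (a b : V) : V := (ip b b / tr a b, -ip a b / tr a b)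

/-- second column of the normalized adjugate of the Gram matrix -/
noncomputable def g2 (a b : V) : V := (-ip a b / tr a b, ip a a / tr a b)

theorem abs_ip_le (v w : V) : |ip v w| ≤ 2 * ‖v‖ * ‖w‖ := by
  have h := abs_det_le v (-w.2, w.1)
  have h1 : ‖((-w.2, w.1) : V)‖ = ‖w‖ := by simp [Prod.norm_def, max_comm]
  have h2 : det v (-w.2, w.1) = ip v w := by
    simp [det, ip]
  rwa [h1, h2] at h

theorem sq_le_ip (v : V) : ‖v‖ ^ 2 ≤ ip v v := by
  have h1 := sq_abs v.1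
  have h2 := sq_abs v.2
  rw [Prod.norm_def, Real.norm_eq_abs, Real.norm_eq_abs, ip]
  rcases le_total |v.1| |v.2| with h | h
  · rw [max_eq_right h]
    nlinarith
  · rw [max_eq_left h]
    nlinarith

theorem norm_le_cols (P : V →L[ℝ] V) : ‖P‖ ≤ ‖P (1, 0)‖ + ‖P (0, 1)‖ := by
  have h : P = Cm (P (1, 0)) (P (0, 1)) := by
    refine ContinuousLinearMap.ext fun v => ?_
    rw [Cm_apply, apply_eq]
  conv_lhs => rw [h]
  exact norm_Cm_le _ _

theorem gram {P : ℕ → V →L[ℝ] V} (hd : ∀ n, detL (P n) ≠ 0) {s : V} (hs : s ≠ 0)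
    (h : Tendsto (fun n => ‖P n s‖ * ‖P n‖⁻¹) atTop (𝓝 0)) :
    Tendsto (fun n => g1 (P n (1, 0)) (P n (0, 1))) atTop (𝓝 ((s.1 / ip s s) • s)) ∧
    Tendsto (fun n => g2 (P n (1, 0)) (P n (0, 1))) atTop (𝓝 ((s.2 / ip s s) • s)) := by
  have hp : ∀ n, 0 < ‖P n‖ := fun n => norm_pos (hd n)
  have hN : 0 < ip s s := (pow_pos (norm_pos_iff.2 hs) 2).trans_le (sq_le_ip s)
  have ht : ∀ n, 0 < tr (P n (1, 0)) (P n (0, 1)) := by
    intro n
    have h1 := sq_le_ip (P n (1, 0))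
    have h2 := sq_le_ip (P n (0, 1))
    have h3 := (hp n).trans_le (norm_le_cols (P n))
    have h4 := norm_nonneg (P n (1, 0))
    have h5 := norm_nonneg (P n (0, 1))
    rw [tr]
    nlinarith [sq_nonneg (‖P n (1, 0)‖ - ‖P n (0, 1)‖)]
  have key : ∀ c : ℕ → V, (∀ n, c n = P n (1, 0) ∨ c n = P n (0, 1)) →
      Tendsto (fun n => ip (c n) (P n s) / tr (P n (1, 0)) (P n (0, 1))) atTop (𝓝 0) := by
    intro c hc
    have h' := h.const_mul 4
    rw [mul_zero] at h'
    refine squeeze_zero_norm (fun n => ?_) h'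
    rw [Real.norm_eq_abs, abs_div, abs_of_pos (ht n), ← div_eq_mul_inv, ← mul_div_assoc,
      div_le_div_iff₀ (ht n) (hp n)]
    have h1 := sq_le_ip (P n (1, 0))
    have h2 := sq_le_ip (P n (0, 1))
    have h3 := norm_le_cols (P n)
    have h4 := norm_nonneg (P n (1, 0))
    have h5 := norm_nonneg (P n (0, 1))
    have h6 : ‖c n‖ * ‖P n‖ ≤ 2 * tr (P n (1, 0)) (P n (0, 1)) := by
      refine (mul_le_mul_of_nonneg_left h3 (norm_nonneg _)).trans ?_
      rw [tr]
      rcases hc n with e | e <;> rw [e] <;>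
        nlinarith [sq_nonneg (‖P n (1, 0)‖ - ‖P n (0, 1)‖)]
    have h7 := mul_le_mul_of_nonneg_right (abs_ip_le (c n) (P n s)) (hp n).le
    have h8 := mul_le_mul_of_nonneg_left h6 (norm_nonneg (P n s))
    nlinarith
  have e1 := key _ fun n => Or.inl rfl
  have e2 := key _ fun n => Or.inr rfl
  have alg : ∀ a b : V, 0 < tr a b →
      g1 a b = (s.1 / ip s s) • s + (ip a (s.1 • a + s.2 • b) / tr a b) • (ip s s)⁻¹ • (-s.1, -s.2) +
        (ip b (s.1 • a + s.2 • b) / tr a b) • (ip s s)⁻¹ • (s.2, -s.1) ∧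
      g2 a b = (s.2 / ip s s) • s + (ip a (s.1 • a + s.2 • b) / tr a b) • (ip s s)⁻¹ • (-s.2, s.1) +
        (ip b (s.1 • a + s.2 • b) / tr a b) • (ip s s)⁻¹ • (-s.1, -s.2) := by
    intro a b hab
    have h1 := hab.ne'
    have h2 := hN.ne'
    refine ⟨Prod.ext ?_ ?_, Prod.ext ?_ ?_⟩ <;>
      simp only [g1, g2, Prod.fst_add, Prod.snd_add, Prod.smul_fst, Prod.smul_snd, smul_eq_mul] <;>
      field_simp <;> simp only [tr, ip, Prod.fst_add, Prod.snd_add, Prod.smul_fst, Prod.smul_snd,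
        smul_eq_mul] <;> ring
  constructor
  · have := ((tendsto_const_nhds (x := (s.1 / ip s s) • s)).add
      (e1.smul_const ((ip s s)⁻¹ • ((-s.1, -s.2) : V)))).add
      (e2.smul_const ((ip s s)⁻¹ • ((s.2, -s.1) : V)))
    rw [zero_smul, zero_smul, add_zero, add_zero] at this
    refine this.congr fun n => ?_
    rw [(alg _ _ (ht n)).1, ← apply_eq]
  · have := ((tendsto_const_nhds (x := (s.2 / ip s s) • s)).add
      (e1.smul_const ((ip s s)⁻¹ • ((-s.2, s.1) : V)))).add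
      (e2.smul_const ((ip s s)⁻¹ • ((-s.1, -s.2) : V)))
    rw [zero_smul, zero_smul, add_zero, add_zero] at this
    refine this.congr fun n => ?_
    rw [(alg _ _ (ht n)).2, ← apply_eq]

open Classical in
/-- the normalized direction -/
noncomputable def dir (p q : V) : V := if p = 0 then ‖q‖⁻¹ • q else ‖p‖⁻¹ • p

theorem dir_spec {s : V} (hs : s ≠ 0) :
    ‖dir ((s.1 / ip s s) • s) ((s.2 / ip s s) • s)‖ = 1 ∧
      ∃ t : ℝ, dir ((s.1 / ip s s) • s) ((s.2 / ip s s) • s) = t • s := by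
  have hN : 0 < ip s s := (pow_pos (norm_pos_iff.2 hs) 2).trans_le (sq_le_ip s)
  unfold dir
  split_ifs with h
  · refine ⟨norm_smul_inv_norm fun h' => hs ?_, _, smul_smul _ _ _⟩
    have h1 := (smul_eq_zero.1 h).resolve_right hs
    have h2 := (smul_eq_zero.1 h').resolve_right hs
    rw [div_eq_zero_iff] at h1 h2
    exact Prod.ext (h1.resolve_right hN.ne') (h2.resolve_right hN.ne')
  · exact ⟨norm_smul_inv_norm h, _, smul_smul _ _ _⟩

theorem coc_succ {X : Type*} (T : X → X) (A : X → V →L[ℝ] V) (n : ℕ) (x : X) (v : V) :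
    coc T A (n + 1) x v = coc T A n (T x) (A x v) := by
  induction n with
  | zero => rfl
  | succ n ih =>
    change A (T^[n + 1] x) (coc T A (n + 1) x v) = A (T^[n] (T x)) (coc T A n (T x) (A x v))
    rw [ih]
    rfl

theorem meas_coc {X : Type*} [MeasurableSpace X] {T : X → X} (hT : Measurable T)
    {A : X → V →L[ℝ] V} (hA : Measurable A) (v : V) (n : ℕ) :
    Measurable fun x => coc T A n x v := by
  induction n with
  | zero => exact measurable_const
  | succ n ih =>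
    have h : ∀ w : V, Measurable fun x => A (T^[n] x) w := fun w =>
      (ContinuousLinearMap.measurable_apply w).comp (hA.comp (hT.iterate n))
    have h1 : (fun x => coc T A (n + 1) x v) = fun x => (coc T A n x v).1 • A (T^[n] x) (1, 0) +
        (coc T A n x v).2 • A (T^[n] x) (0, 1) := funext fun x =>
          apply_eq (A (T^[n] x)) (coc T A n x v)
    rw [h1]
    exact (ih.fst.smul (h _)).add (ih.snd.smul (h _))

end OselAux

open OselAux in
/-- the slow Oseledets direction of a planar cocycle -/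
theorem osel {X : Type*} [MeasurableSpace X] {μ : Measure X} {T : X → X}
    (hT : MeasurePreserving T μ μ) {A : X → V →L[ℝ] V} (hA : Measurable A) {B : ℝ}
    (hB : ∀ x, ‖A x‖ ≤ B) (hB' : ∀ x v, ‖v‖ ≤ B * ‖A x v‖) {l k : ℝ}
    (h1 : ∀ᵐ x ∂μ, Tendsto (fun n : ℕ => Real.log ‖coc T A n x‖ / n) atTop (𝓝 l))
    (h2 : ∀ᵐ x ∂μ, Tendsto (fun n : ℕ => Real.log |detL (coc T A n x)| / n) atTop (𝓝 k))
    (hlk : k - l < l) :
    ∃ s : X → V, Measurable s ∧ ∀ᵐ x ∂μ, ‖s x‖ = 1 ∧ (∃ b : ℝ, A x (s x) = b • s (T x)) ∧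
      Tendsto (fun n : ℕ => Real.log ‖coc T A n x (s x)‖ / n) atTop (𝓝 (k - l)) := by
  classical
  have hB2 : ∀ x v, ‖v‖ ≤ |B| * ‖A x v‖ := fun x v =>
    (hB' x v).trans (mul_le_mul_of_nonneg_right (le_abs_self B) (norm_nonneg _))
  have hd : ∀ x n, detL (coc T A n x) ≠ 0 := by
    intro x n
    refine detL_ne_zero ?_
    induction n with
    | zero => exact fun v h => h
    | succ n ih =>
      intro v h
      refine ih v (norm_le_zero_iff.1 ?_)
      have h3 := hB2 (T^[n] x) (coc T A n x v)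
      have h4 : A (T^[n] x) (coc T A n x v) = 0 := h
      rwa [h4, norm_zero, mul_zero] at h3
  have mip : ∀ {f g : X → V}, Measurable f → Measurable g → Measurable fun x => ip (f x) (g x) :=
    fun hf hg => (hf.fst.mul hg.fst).add (hf.snd.mul hg.snd)
  have ma := meas_coc hT.measurable hA (1, 0)
  have mb := meas_coc hT.measurable hA (0, 1)
  have mt : ∀ n, Measurable fun x => tr (coc T A n x (1, 0)) (coc T A n x (0, 1)) := fun n =>
    (mip (ma n) (ma n)).add (mip (mb n) (mb n))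
  have m1 : Measurable fun x =>
      limUnder atTop fun n => g1 (coc T A n x (1, 0)) (coc T A n x (0, 1)) :=
    (StronglyMeasurable.limUnder (l := atTop)
      (f := fun n x => g1 (coc T A n x (1, 0)) (coc T A n x (0, 1))) fun n =>
      (((mip (mb n) (mb n)).div (mt n)).prodMk
        ((mip (ma n) (mb n)).neg.div (mt n))).stronglyMeasurable).measurable
  have m2 : Measurable fun x =>
      limUnder atTop fun n => g2 (coc T A n x (1, 0)) (coc T A n x (0, 1)) :=
    (StronglyMeasurable.limUnder (l := atTop)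
      (f := fun n x => g2 (coc T A n x (1, 0)) (coc T A n x (0, 1))) fun n =>
      (((mip (ma n) (mb n)).neg.div (mt n)).prodMk
        ((mip (ma n) (ma n)).div (mt n))).stronglyMeasurable).measurable
  obtain ⟨s, hsm, hs⟩ : ∃ s : X → V, Measurable s ∧ ∀ᵐ x ∂μ, ‖s x‖ = 1 ∧
      Rate (fun n => ‖coc T A n x (s x)‖) (k - l) ∧ Rate (fun n => ‖coc T A n x‖⁻¹) (-l) := by
    refine ⟨fun x => dir (limUnder atTop fun n => g1 (coc T A n x (1, 0)) (coc T A n x (0, 1)))
      (limUnder atTop fun n => g2 (coc T A n x (1, 0)) (coc T A n x (0, 1))), ?_, ?_⟩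
    · exact Measurable.ite (m1 (measurableSet_singleton 0)) (m2.norm.inv.smul m2)
        (m1.norm.inv.smul m1)
    · filter_upwards [h1, h2] with x e1 e2
      have hp : ∀ n, 0 < ‖coc T A n x‖ := fun n => norm_pos (hd x n)
      have r2 := rate_inv_of_tendsto hp e1
      obtain ⟨v, hv, rv⟩ := slow (P := fun n => coc T A n x) (abs_nonneg B) (hd x)
        (fun n v => hB2 (T^[n] x) (coc T A n x v)) (rate_of_tendsto hp e1) r2
        (rate_of_tendsto (fun n => abs_pos.2 (hd x n)) e2) hlk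
      have hv0 : v ≠ 0 := norm_ne_zero_iff.1 (by rw [hv]; exact one_ne_zero)
      obtain ⟨t1, t2⟩ := gram (P := fun n => coc T A n x) (hd x) hv0
        ((rv.mul r2 (fun n => (inv_pos.2 (hp n)).le) rfl).zero (by linarith) fun n => by
          have := hp n
          positivity)
      rw [t1.limUnder_eq, t2.limUnder_eq]
      obtain ⟨d1, t, d2⟩ := dir_spec hv0
      refine ⟨d1, (rv.cmul (abs_nonneg t)).mono fun n => ?_, r2⟩
      rw [d2, map_smul, norm_smul, Real.norm_eq_abs]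
  refine ⟨s, hsm, ?_⟩
  filter_upwards [h1, h2, hs, hT.quasiMeasurePreserving.ae hs] with x e1 e2 ⟨n1, r1, _⟩
    ⟨n2, r2, r3⟩
  have hp : ∀ x n, 0 < ‖coc T A n x‖ := fun x n => norm_pos (hd x n)
  refine ⟨n1, ?_, ?_⟩
  · refine exists_smul_of_det (norm_ne_zero_iff.1 (by rw [n2]; exact one_ne_zero)) ?_
    have r4 : Rate (fun n => ‖coc T A n (T x) (A x (s x))‖) (k - l) :=
      r1.shift.mono fun n => by rw [coc_succ]
    have r5 := (((r2.cmul (norm_nonneg (A x (s x)))).add (r4.cmul (norm_nonneg (s (T x))))).cmul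
      (K := 2) (by norm_num)).mul r3 (fun n => (inv_pos.2 (hp _ n)).le) rfl
    have r6 : Rate (fun _ => |det (s (T x)) (A x (s x))|) (k - l + -l) := by
      refine r5.mono fun n => ?_
      rw [← div_eq_mul_inv, le_div_iff₀ (hp _ n)]
      exact norm_le _ _ _
    exact abs_eq_zero.1 (tendsto_nhds_unique tendsto_const_nhds
      (r6.zero (by linarith) fun _ => abs_nonneg _))
  · have hl : ∀ n, |detL (coc T A n x)| ≤ 2 * ‖coc T A n x (s x)‖ * ‖coc T A n x‖ := fun n => by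
      simpa [n1] using lower (coc T A n x) (s x)
    have hq : ∀ n, 0 < ‖coc T A n x (s x)‖ := by
      intro n
      refine (norm_nonneg _).lt_of_ne fun h => ?_
      have h3 := hl n
      rw [← h, mul_zero, zero_mul] at h3
      exact absurd h3 (not_le.2 (abs_pos.2 (hd x n)))
    refine tendsto_of_rate hq r1 ?_
    refine (((rate_of_tendsto (hp x) e1).cmul (K := 2) (by norm_num)).mul
      (rate_inv_of_tendsto (fun n => abs_pos.2 (hd x n)) e2)
      (fun n => (inv_pos.2 (abs_pos.2 (hd x n))).le) (by ring)).mono fun n => ?_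
    rw [← div_eq_mul_inv, le_div_iff₀ (abs_pos.2 (hd x n)), inv_mul_le_iff₀ (hq n)]
    linarith [hl n]

end Pool.Agent.Lib.MP_901be3_an.Hd
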