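import Pool.Agent.Lib.MP_901be3_an.Hd.Ruelle
import Pool.Agent.Lib.MP_901be3_an.Hd.Kingman
import Pool.Agent.Lib.MP_901be3_an.Hd.Osel
import Pool.Agent.Lib.MP_901be3_an.Hd.EntMore

namespace Pool.Agent.Lib.MP_901be3_an.Hd

open MeasureTheory Filter Topology Metric Set
open scoped ENNReal

variable {X : Type*} [MetricSpace X] [CompactSpace X] [MeasurableSpace X] [BorelSpace X]

namespace SplitAux

section gen

variable {Y : Type*} [MeasurableSpace Y] {μ : Measure Y}

theorem int_comp {T : Y → Y} (hT : MeasurePreserving T μ μ) {f : Y → ℝ} (hf : Measurable f) :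
    ∫ x, f (T x) ∂μ = ∫ x, f x ∂μ := by
  rw [← integral_map hT.measurable.aemeasurable hf.aestronglyMeasurable, hT.map_eq]

theorem integ [IsProbabilityMeasure μ] {f : Y → ℝ} (hf : Measurable f) {B : ℝ}
    (hB : ∀ x, |f x| ≤ B) : Integrable f μ :=
  Integrable.of_bound hf.aestronglyMeasurable B (Eventually.of_forall hB)

theorem abs_log_le {a C : ℝ} (h1 : a ≤ C) (h2 : 1 ≤ C * a) (ha : 0 ≤ a) :
    0 < a ∧ |Real.log a| ≤ Real.log C := by
  have h0 : 0 < a := by
    rcases ha.eq_or_lt with h | h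
    · rw [← h, mul_zero] at h2
      exact absurd h2 (by norm_num)
    · exact h
  have hC : 0 < C := h0.trans_le h1
  refine ⟨h0, abs_le.2 ⟨?_, Real.log_le_log h0 h1⟩⟩
  have h3 := Real.log_nonneg h2
  rw [Real.log_mul hC.ne' h0.ne'] at h3
  linarith

theorem meas_apply {F : Y → V →L[ℝ] V} (hF : Measurable F) {s : Y → V} (hs : Measurable s) :
    Measurable fun x => F x (s x) :=
  ContinuousLinearMap.measurable_apply₂.comp (hF.prodMk hs)

theorem lim_eq {a b : ℕ → ℝ} {l l' k C : ℝ} (ha : Tendsto (fun n : ℕ => a n / n) atTop (𝓝 l))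
    (hb : Tendsto (fun n : ℕ => b n / n) atTop (𝓝 l'))
    (h : ∀ n : ℕ, |b n + n * k - a n| ≤ C) : l' = l - k := by
  have h1 : Tendsto (fun n : ℕ => (b n + n * k - a n) / n) atTop (𝓝 0) := by
    refine squeeze_zero_norm (fun n => ?_) (tendsto_const_div_atTop_nhds_zero_nat C)
    rw [Real.norm_eq_abs, abs_div, Nat.abs_cast]
    exact div_le_div_of_nonneg_right (h n) (Nat.cast_nonneg n)
  have h2 : Tendsto (fun n : ℕ => (b n + n * k - a n) / n) atTop (𝓝 (l' + k - l)) := by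
    refine ((hb.add_const k).sub ha).congr' ?_
    filter_upwards [eventually_gt_atTop 0] with n hn
    have : (n : ℝ) ≠ 0 := Nat.cast_ne_zero.2 hn.ne'
    field_simp
  have := tendsto_nhds_unique h1 h2
  linarith

end gen

omit [CompactSpace X]

variable {A : Atlas X} {P : Par} {g : X ≃ₜ X} {μ : Measure X}

theorem meas_iter (A : Atlas X) (g : X ≃ₜ X) (n : ℕ) : Measurable (A.D g^[n]) :=
  Atlas.measurable_D (g.continuous.iterate n)

omit [BorelSpace X] in
theorem norm_bd (hg : A.Good P g) (n : ℕ) (x : X) :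
    0 < ‖A.D g^[n] x‖ ∧ |Real.log ‖A.D g^[n] x‖| ≤ Real.log P.B * n := by
  obtain ⟨h1, h2⟩ := hg.norm_D_iter n x
  have h3 := h2 (1, 0)
  have h4 : ‖((1, 0) : V)‖ = 1 := by simp
  have h5 := (A.D g^[n] x).le_opNorm (1, 0)
  have hB : 0 ≤ P.B ^ n := pow_nonneg (zero_le_one.trans P.one_le_B) n
  rw [h4] at h3 h5
  rw [mul_one] at h5
  have h6 := abs_log_le h1 (h3.trans (mul_le_mul_of_nonneg_left h5 hB)) (norm_nonneg _)
  rwa [Real.log_pow, mul_comm] at h6

theorem top [IsProbabilityMeasure μ] (hg : A.Good P g) (hμ : Ergodic g μ) :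
    ∃ l : ℝ, Tendsto (fun n : ℕ => (∫ x, Real.log ‖A.D g^[n] x‖ ∂μ) / n) atTop (𝓝 l) ∧
      ∀ᵐ x ∂μ, Tendsto (fun n : ℕ => Real.log ‖A.D g^[n] x‖ / n) atTop (𝓝 l) := by
  refine kingman hμ (φ := fun n x => Real.log ‖A.D g^[n] x‖)
    (fun n => (meas_iter A g n).norm.log) (fun n x => (norm_bd hg n x).2) fun m n x => ?_
  have h0 := (norm_bd hg (m + n) x).1
  have h1 := (norm_bd hg m x).1
  have h2 := (norm_bd hg n (g^[m] x)).1
  rw [← Real.log_mul h1.ne' h2.ne']
  refine Real.log_le_log h0 ?_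
  rw [add_comm, Atlas.D_iter_add hg.1.dif hg.2.2.dif, mul_comm]
  exact ContinuousLinearMap.opNorm_comp_le _ _

omit [BorelSpace X] in
theorem D_succ (hg : A.Good P g) (n : ℕ) (x : X) :
    A.D g^[n + 1] x = (A.D g (g^[n] x)).comp (A.D g^[n] x) := by
  rw [Function.iterate_succ', Atlas.D_comp hg.1.dif (hg.1.dif.iter hg.2.2.dif n)]

omit [BorelSpace X] in
theorem D_inv (hg : A.Good P g) (x : X) :
    (A.D g.symm (g x)).comp (A.D g x) = ContinuousLinearMap.id ℝ V := hg.D_symm_iter 1 x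

omit [BorelSpace X] in
theorem D_one (hg : A.Good P g) (x : X) :
    ‖A.D g x‖ ≤ P.B ∧ ∀ v, ‖v‖ ≤ P.B * ‖A.D g x v‖ := by
  have h := hg.norm_D_iter 1 x
  rwa [pow_one] at h

omit [BorelSpace X] in
theorem det_mul (hg : A.Good P g) (x : X) :
    |detL (A.D g.symm (g x))| * |detL (A.D g x)| = 1 := by
  rw [← abs_mul, ← detL_comp, D_inv hg, detL_id, abs_one]

omit [BorelSpace X] in
theorem det_le (hg : A.Good P g) (x : X) : |detL (A.D g x)| ≤ 2 * P.B ^ 2 :=
  (abs_detL_le _).trans (mul_le_mul_of_nonneg_left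
    (pow_le_pow_left₀ (norm_nonneg _) (D_one hg x).1 2) zero_le_two)

omit [BorelSpace X] in
theorem det_bd (hg : A.Good P g) (x : X) :
    0 < |detL (A.D g x)| ∧ |Real.log (|detL (A.D g x)|)| ≤ Real.log (2 * P.B ^ 2) := by
  refine abs_log_le (det_le hg x) ?_ (abs_nonneg _)
  rw [← det_mul hg x]
  exact mul_le_mul_of_nonneg_right (det_le hg.symm _) (abs_nonneg _)

theorem meas_det (A : Atlas X) (g : X ≃ₜ X) :
    Measurable fun x => Real.log |detL (A.D g x)| :=
  (continuous_abs.measurable.comp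
    (continuous_detL.measurable.comp (Atlas.measurable_D g.continuous))).log

omit [BorelSpace X] in
theorem det_sum (hg : A.Good P g) (n : ℕ) (x : X) : 0 < |detL (A.D g^[n] x)| ∧
    Real.log |detL (A.D g^[n] x)| =
      ∑ j ∈ Finset.range n, Real.log |detL (A.D g (g^[j] x))| := by
  induction n with
  | zero =>
    rw [Function.iterate_zero, Atlas.D_id, detL_id]
    simp
  | succ n ih =>
    have h1 := (det_bd hg (g^[n] x)).1
    rw [D_succ hg, detL_comp, abs_mul, Finset.sum_range_succ, Real.log_mul h1.ne' ih.1.ne', ih.2,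
      add_comm]
    exact ⟨mul_pos h1 ih.1, rfl⟩

theorem det_lim [IsProbabilityMeasure μ] (hg : A.Good P g) (hμ : Ergodic g μ) :
    ∀ᵐ x ∂μ, Tendsto (fun n : ℕ => Real.log |detL (coc g (A.D g) n x)| / n) atTop
      (𝓝 (∫ y, Real.log |detL (A.D g y)| ∂μ)) := by
  filter_upwards [birkhoff_erg hμ (meas_det A g) fun x => (det_bd hg x).2] with x hx
  refine hx.congr fun n => ?_
  rw [← Atlas.D_iter_eq_coc hg.1.dif hg.2.2.dif, (det_sum hg n x).2]

theorem det_symm (hg : A.Good P g) (hμ : MeasurePreserving g μ μ) :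
    ∫ y, Real.log |detL (A.D g.symm y)| ∂μ = -∫ y, Real.log |detL (A.D g y)| ∂μ := by
  rw [← int_comp hμ (meas_det A g.symm), ← integral_neg]
  refine integral_congr_ae (Eventually.of_forall fun x => ?_)
  have h1 := congrArg Real.log (det_mul hg x)
  rw [Real.log_mul (det_bd hg.symm _).1.ne' (det_bd hg x).1.ne', Real.log_one] at h1
  exact eq_neg_of_add_eq_zero_left h1

theorem int_close [IsProbabilityMeasure μ] (hg : A.Good P g) (hμ : MeasurePreserving g μ μ)
    (n : ℕ) : |∫ x, Real.log ‖A.D g.symm^[n] x‖ ∂μ + n * ∫ y, Real.log |detL (A.D g y)| ∂μ -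
      ∫ x, Real.log ‖A.D g^[n] x‖ ∂μ| ≤ Real.log 2 := by
  have m1 := (meas_iter A g.symm n).norm.log
  have m2 := (meas_iter A g n).norm.log
  have i1 : Integrable (fun x => Real.log ‖A.D g.symm^[n] (g^[n] x)‖) μ :=
    integ (m1.comp (hμ.iterate n).measurable) fun x => (norm_bd hg.symm n _).2
  have i2 : Integrable (fun x => Real.log ‖A.D g^[n] x‖) μ := integ m2 fun x => (norm_bd hg n _).2
  have i3 : ∀ j, Integrable (fun x => Real.log |detL (A.D g (g^[j] x))|) μ := fun j =>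
    integ ((meas_det A g).comp (hμ.iterate j).measurable) fun x => (det_bd hg _).2
  have i4 : Integrable (fun x => ∑ j ∈ Finset.range n, Real.log |detL (A.D g (g^[j] x))|) μ :=
    integrable_finsetSum _ fun j _ => i3 j
  have e1 : ∫ x, ∑ j ∈ Finset.range n, Real.log |detL (A.D g (g^[j] x))| ∂μ =
      n * ∫ y, Real.log |detL (A.D g y)| ∂μ := by
    rw [integral_finsetSum _ fun j _ => i3 j,
      Finset.sum_congr rfl fun j _ => int_comp (hμ.iterate j) (meas_det A g)]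
    simp
  have i5 : Integrable (fun x => Real.log ‖A.D g.symm^[n] (g^[n] x)‖ +
      ∑ j ∈ Finset.range n, Real.log |detL (A.D g (g^[j] x))|) μ := i1.add i4
  rw [← e1, ← int_comp (hμ.iterate n) m1, ← integral_add i1 i4, ← integral_sub i5 i2]
  have h1 := norm_integral_le_of_norm_le_const (μ := μ) (C := Real.log 2)
    (f := fun x => Real.log ‖A.D g.symm^[n] (g^[n] x)‖ +
      ∑ j ∈ Finset.range n, Real.log |detL (A.D g (g^[j] x))| - Real.log ‖A.D g^[n] x‖)
    (Eventually.of_forall fun x => by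
      obtain ⟨a1, a2⟩ := norm_inv_le (hg.D_symm_iter n x)
      have p1 := (norm_bd hg.symm n (g^[n] x)).1
      have p2 := (norm_bd hg n x).1
      have p3 := (det_sum hg n x).1
      have b1 := Real.log_le_log (mul_pos p1 p3) a1
      have b2 := Real.log_le_log p2 a2
      rw [Real.log_mul p1.ne' p3.ne', Real.log_mul two_ne_zero p2.ne'] at b1
      rw [Real.log_mul two_ne_zero (mul_pos p1 p3).ne', Real.log_mul p1.ne' p3.ne'] at b2
      rw [← (det_sum hg n x).2, Real.norm_eq_abs, abs_le]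
      constructor <;> linarith)
  rwa [probReal_univ, mul_one] at h1

/-- unit vector field which is invariant at `x` -/
def Inv (A : Atlas X) (g : X → X) (s : X → V) (x : X) : Prop :=
  ‖s x‖ = 1 ∧ ∃ b : ℝ, A.D g x (s x) = b • s (g x)

open Classical in
/-- the expansion along the field -/
noncomputable def ex (A : Atlas X) (g : X → X) (s : X → V) (x : X) : ℝ :=
  if ‖s x‖ = 1 then Real.log ‖A.D g x (s x)‖ else 0

theorem meas_ex (A : Atlas X) (g : X ≃ₜ X) {s : X → V} (hs : Measurable s) :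
    Measurable (ex A g s) :=
  Measurable.ite (measurableSet_eq_fun hs.norm measurable_const)
    (meas_apply (Atlas.measurable_D g.continuous) hs).norm.log measurable_const

omit [BorelSpace X] in
theorem vec_bd (hg : A.Good P g) (x : X) {v : V} (hv : ‖v‖ = 1) :
    0 < ‖A.D g x v‖ ∧ |Real.log ‖A.D g x v‖| ≤ Real.log P.B := by
  obtain ⟨h1, h2⟩ := D_one hg x
  have h3 := (A.D g x).le_opNorm v
  have h4 := h2 v
  rw [hv] at h3 h4
  rw [mul_one] at h3
  exact abs_log_le (h3.trans h1) h4 (norm_nonneg _)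

omit [BorelSpace X] in
theorem ex_bd (hg : A.Good P g) (s : X → V) (x : X) : |ex A g s x| ≤ Real.log P.B := by
  unfold ex
  split_ifs with h
  · exact (vec_bd hg x h).2
  · rw [abs_zero]
    exact Real.log_nonneg P.one_le_B

omit [BorelSpace X] in
theorem ex_sum (hg : A.Good P g) {s : X → V} {x : X} (h : ∀ n, Inv A g s (g^[n] x)) (n : ℕ) :
    ∃ c : ℝ, c ≠ 0 ∧ A.D g^[n] x (s x) = c • s (g^[n] x) ∧
      Real.log |c| = ∑ j ∈ Finset.range n, ex A g s (g^[j] x) := by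
  induction n with
  | zero =>
    refine ⟨1, one_ne_zero, ?_, by simp⟩
    rw [Function.iterate_zero, Atlas.D_id]
    simp
  | succ n ih =>
    obtain ⟨c, hc, h1, h2⟩ := ih
    obtain ⟨h3, b, hb⟩ := h n
    have h4 := (h (n + 1)).1
    rw [Function.iterate_succ_apply'] at h4
    have h5 : ‖A.D g (g^[n] x) (s (g^[n] x))‖ = |b| := by
      rw [hb, norm_smul, h4, mul_one, Real.norm_eq_abs]
    have h6 : b ≠ 0 := abs_pos.1 (h5 ▸ (vec_bd hg _ h3).1)
    refine ⟨c * b, mul_ne_zero hc h6, ?_, ?_⟩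
    · rw [D_succ hg, ContinuousLinearMap.comp_apply, h1, map_smul, hb, smul_smul,
        Function.iterate_succ_apply']
    · rw [Finset.sum_range_succ, ← h2, abs_mul, Real.log_mul (abs_pos.2 hc).ne' (abs_pos.2 h6).ne',
        ex, if_pos h3, h5]

theorem one_side [IsProbabilityMeasure μ] (hg : A.Good P g) (hμ : Ergodic g μ) {s : X → V}
    (hs : Measurable s) (h : ∀ᵐ x ∂μ, Inv A g s x) :
    ∀ᵐ x ∂μ, Tendsto (fun n : ℕ => Real.log ‖A.D g^[n] x (s x)‖ / n) atTop
      (𝓝 (∫ y, ex A g s y ∂μ)) := by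
  have h1 : ∀ᵐ x ∂μ, ∀ n, Inv A g s (g^[n] x) := ae_all_iff.2 fun n =>
    (hμ.toMeasurePreserving.iterate n).quasiMeasurePreserving.ae h
  filter_upwards [h1, birkhoff_erg hμ (meas_ex A g hs) (ex_bd hg s)] with x hx hx'
  refine hx'.congr fun n => ?_
  obtain ⟨c, -, h2, h3⟩ := ex_sum hg hx n
  rw [h2, norm_smul, (hx n).1, mul_one, Real.norm_eq_abs, h3]

omit [BorelSpace X] in
theorem inv_symm (hg : A.Good P g) {s : X → V} {x : X} (h : Inv A g s x) (h' : ‖s (g x)‖ = 1) :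
    Inv A g.symm s (g x) ∧ ex A g.symm s (g x) = -ex A g s x := by
  obtain ⟨h1, b, hb⟩ := h
  have h5 : ‖A.D g x (s x)‖ = |b| := by
    rw [hb, norm_smul, h', mul_one, Real.norm_eq_abs]
  have h6 : b ≠ 0 := abs_pos.1 (h5 ▸ (vec_bd hg _ h1).1)
  have h2 : A.D g.symm (g x) (A.D g x (s x)) = s x := by
    rw [← ContinuousLinearMap.comp_apply, D_inv hg]
    rfl
  have h3 : A.D g.symm (g x) (s (g x)) = b⁻¹ • s x := by
    rw [hb, map_smul] at h2
    rw [← h2, smul_smul, inv_mul_cancel₀ h6, one_smul]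
  refine ⟨⟨h', b⁻¹, by rw [h3, g.symm_apply_apply]⟩, ?_⟩
  rw [ex, ex, if_pos h', if_pos h1, h3, h5, norm_smul, h1, mul_one, Real.norm_eq_abs, abs_inv,
    Real.log_inv]

theorem two_side [IsProbabilityMeasure μ] (hg : A.Good P g) (hμ : Ergodic g μ) {s : X → V}
    (hs : Measurable s) (h : ∀ᵐ x ∂μ, Inv A g s x) :
    ∃ m : ℝ, ∀ᵐ x ∂μ, A.Rate g x (s x) m ∧ Inv A g.symm s x := by
  have hμ' := ergodic_symm g hμ
  have h1 : ∀ᵐ x ∂μ, Inv A g.symm s (g x) ∧ ex A g.symm s (g x) = -ex A g s x := by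
    filter_upwards [h, hμ.toMeasurePreserving.quasiMeasurePreserving.ae h] with x hx hx'
    exact inv_symm hg hx hx'.1
  have h2 : ∀ᵐ x ∂μ, Inv A g.symm s x := by
    filter_upwards [hμ'.toMeasurePreserving.quasiMeasurePreserving.ae h1] with x hx
    have h3 := hx.1
    rwa [g.apply_symm_apply] at h3
  have h3 : ∫ y, ex A g.symm s y ∂μ = -∫ y, ex A g s y ∂μ := by
    rw [← int_comp hμ.toMeasurePreserving (meas_ex A g.symm hs), ← integral_neg]
    exact integral_congr_ae (h1.mono fun x hx => hx.2)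
  refine ⟨∫ y, ex A g s y ∂μ, ?_⟩
  filter_upwards [h2, one_side hg hμ hs h, one_side hg.symm hμ' hs h2] with x a1 a2 a3
  rw [h3] at a3
  exact ⟨⟨a2, a3⟩, a1⟩

theorem slow [IsProbabilityMeasure μ] (hg : A.Good P g) (hμ : Ergodic g μ) {l : ℝ}
    (hl : ∀ᵐ x ∂μ, Tendsto (fun n : ℕ => Real.log ‖A.D g^[n] x‖ / n) atTop (𝓝 l))
    (hk : ∫ y, Real.log |detL (A.D g y)| ∂μ - l < l) :
    ∃ s : X → V, Measurable s ∧ ∀ᵐ x ∂μ, Inv A g s x ∧ Inv A g.symm s x ∧
      A.Rate g x (s x) (∫ y, Real.log |detL (A.D g y)| ∂μ - l) := by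
  have e := Atlas.D_iter_eq_coc hg.1.dif hg.2.2.dif
  obtain ⟨s, hs, h1⟩ := osel hμ.toMeasurePreserving (Atlas.measurable_D (A := A) g.continuous)
    (fun x => (D_one hg x).1) (fun x => (D_one hg x).2)
    (hl.mono fun x hx => hx.congr fun n => by rw [e]) (det_lim hg hμ) hk
  obtain ⟨m, h2⟩ := two_side hg hμ hs (h1.mono fun x hx => ⟨hx.1, hx.2.1⟩)
  refine ⟨s, hs, ?_⟩
  filter_upwards [h1, h2] with x a1 a2
  refine ⟨⟨a1.1, a1.2.1⟩, a2.2, ?_⟩
  rw [← tendsto_nhds_unique a2.1.1 (a1.2.2.congr fun n => by rw [e])]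
  exact a2.1

end SplitAux

namespace Atlas

theorem split (A : Atlas X) {P : Par} {g : X ≃ₜ X} (hg : A.Good P g) {μ : Measure X}
    [IsProbabilityMeasure μ] (hμ : Ergodic g μ) (h : 0 < ksEnt g μ) : A.Split g μ := by
  have hm := hμ.toMeasurePreserving
  have hμ' := ergodic_symm g hμ
  obtain ⟨l, a1, a2⟩ := SplitAux.top hg hμ
  obtain ⟨l', b1, b2⟩ := SplitAux.top hg.symm hμ'
  have hl := ruelle A hg hm h a2
  have hl' := ruelle A hg.symm hμ'.toMeasurePreserving (by rwa [ksEnt_symm g hm]) b2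
  have e1 := SplitAux.lim_eq a1 b1 (SplitAux.int_close hg hm)
  have e2 := SplitAux.det_symm hg hm
  obtain ⟨s, hs, h1⟩ := SplitAux.slow hg hμ a2 (by linarith)
  obtain ⟨u, hu, h2⟩ := SplitAux.slow hg.symm hμ' b2 (by linarith)
  have e3 : ∫ y, Real.log |detL (A.D g.symm y)| ∂μ - l' = -l := by linarith
  have e4 : ∫ y, Real.log |detL (A.D g y)| ∂μ - l = -l' := by linarith
  rw [e3] at h2
  rw [e4] at h1
  refine ⟨l, -l', hl, neg_neg_of_pos hl', u, s, hu, hs, ?_⟩
  filter_upwards [h1, h2] with x c1 c2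
  refine ⟨c2.1.1, c1.1.1, c2.2.1.2, c1.1.2, ⟨?_, c2.2.2.1⟩, c1.2.2⟩
  have h3 := c2.2.2.2
  rwa [neg_neg] at h3

theorem hyp_of_pos (A : Atlas X) {P : Par} {g : X ≃ₜ X} (hg : A.Good P g) {μ : Measure X}
    [IsProbabilityMeasure μ] (hμ : Ergodic g μ) (h : 0 < ksEnt g μ) : A.Hyp g μ := by
  obtain ⟨lp, lm, h1, h2, u, s, -, -, h3⟩ := A.split hg hμ h
  exact ⟨inferInstance, hμ, lp, lm, h1, h2,
    h3.mono fun x hx => ⟨⟨_, hx.2.2.2.2.1⟩, _, hx.2.2.2.2.2⟩⟩

end Atlas

end Pool.Agent.Lib.MP_901be3_an.Hd
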