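import Pool.Agent.Lib.MP_901be3_an.Hd.REdge
import Pool.Agent.Lib.MP_901be3_an.Hd.Lyap
import Pool.Agent.Lib.MP_901be3_an.Hd.Split

namespace Pool.Agent.Lib.MP_901be3_an.Hd

open MeasureTheory Filter Topology Metric Set
open scoped ENNReal

variable {X : Type*} [MetricSpace X] [CompactSpace X] [MeasurableSpace X] [BorelSpace X]

namespace PSysExAux

omit [CompactSpace X] in
/-- a measurable invariant set of full measure inside a set of full measure -/
theorem hull {f : X ≃ₜ X} {μ : Measure X} (hμ : MeasurePreserving f μ μ) {p : X → Prop}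
    (hp : ∀ᵐ x ∂μ, p x) : ∃ G : Set X, MeasurableSet G ∧ μ Gᶜ = 0 ∧ (∀ x ∈ G, f x ∈ G) ∧
      (∀ x ∈ G, f.symm x ∈ G) ∧ ∀ x ∈ G, p x := by
  set Z := toMeasurable μ {x | ¬ p x} with hZ
  have hZm : MeasurableSet Z := measurableSet_toMeasurable _ _
  have hZ0 : μ Z = 0 := by
    rw [hZ, measure_toMeasurable]
    exact hp
  have hμ' : MeasurePreserving f.symm μ μ :=
    MeasurePreserving.symm f.toMeasurableEquiv hμ
  refine ⟨(⋂ n : ℕ, f^[n] ⁻¹' Zᶜ) ∩ ⋂ n : ℕ, f.symm^[n] ⁻¹' Zᶜ, ?_, ?_, ?_, ?_, ?_⟩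
  · exact (MeasurableSet.iInter fun n => (hμ.iterate n).measurable hZm.compl).inter
      (MeasurableSet.iInter fun n => (hμ'.iterate n).measurable hZm.compl)
  · rw [compl_inter, compl_iInter, compl_iInter]
    refine measure_union_null (measure_iUnion_null fun n => ?_) (measure_iUnion_null fun n => ?_)
    · rw [← preimage_compl, compl_compl, (hμ.iterate n).measure_preimage hZm.nullMeasurableSet, hZ0]
    · rw [← preimage_compl, compl_compl, (hμ'.iterate n).measure_preimage hZm.nullMeasurableSet,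
        hZ0]
  · rintro x ⟨h1, h2⟩
    simp only [mem_iInter, mem_preimage] at h1 h2
    refine ⟨mem_iInter.2 fun n => h1 (n + 1), mem_iInter.2 fun n => ?_⟩
    cases n with
    | zero => exact h1 1
    | succ n =>
      rw [mem_preimage, Function.iterate_succ_apply, Homeomorph.symm_apply_apply]
      exact h2 n
  · rintro x ⟨h1, h2⟩
    simp only [mem_iInter, mem_preimage] at h1 h2
    refine ⟨mem_iInter.2 fun n => ?_, mem_iInter.2 fun n => h2 (n + 1)⟩
    cases n with
    | zero => exact h2 1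
    | succ n =>
      rw [mem_preimage, Function.iterate_succ_apply, Homeomorph.apply_symm_apply]
      exact h1 n
  · rintro x ⟨h1, -⟩
    by_contra h
    exact mem_iInter.1 h1 0 (subset_toMeasurable μ _ h)

end PSysExAux

namespace Atlas

/-- existence of Pesin charts and blocks -/
theorem psys (A : Atlas X) {P : Par} {f : X ≃ₜ X} (hf : A.Good P f) {μ : Measure X}
    [IsProbabilityMeasure μ] (hμ : Ergodic f μ) (h : 0 < ksEnt f μ) :
    ∃ κ : ℝ, 0 < κ ∧ κ ≤ 1 ∧ ∀ c > 0, ∃ c₀ : ℝ, 0 < c₀ ∧ c₀ ≤ c ∧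
      Nonempty (A.PSys P κ c₀ f μ) := by
  obtain ⟨κ, hκ, hκ1, hl⟩ := A.lyap hf hμ (A.split hf hμ h)
  obtain ⟨c₁, hc₁, hr⟩ := A.redge P hκ hκ1
  refine ⟨κ, hκ, hκ1, fun c hc => ⟨min c c₁, lt_min hc hc₁, min_le_left _ _, ?_⟩⟩
  obtain ⟨u, s, hu, hs, hae⟩ := hl (min c c₁) (lt_min hc hc₁)
  obtain ⟨G, hGm, hG0, hGf, hGb, hGp⟩ := PSysExAux.hull hμ.toMeasurePreserving hae
  set Ψ : X → A.Chart := fun x => (A.idx x, A.e (A.idx x) x, u x, s x) with hΨ
  have hΨm : Measurable Ψ := A.idx_meas.prodMk (A.measurable_center.prodMk (hu.prodMk hs))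
  have hev : ∀ x ∈ G, ∀ᶠ Φ : A.Chart × A.Chart in 𝓝 (Ψ x, Ψ (f x)),
      REdge P κ (min c c₁) f Φ.1 Φ.2 := by
    intro x hx
    obtain ⟨h1, ⟨a, b, h2, h3, h4, h5, h6⟩, h7, h8, h9, h10⟩ := hGp x hx
    obtain ⟨k1, -, k7, k8, -, -⟩ := hGp (f x) (hGf x hx)
    exact hr _ (min_le_right _ _) f hf x (u x) (s x) (u (f x)) (s (f x)) a b h1 k1 h2 h3 h4 h5 h6
      h7 k7 h8 k8 h9 h10
  have hbox : ∀ z, ∀ᶠ x in 𝓝 z, (Ψ z).Box x := by
    intro z
    have h1 : {x | x ∈ (A.e (Ψ z).i).source ∧ (Ψ z).co x ∈ ball (0 : V) 1} ∈ 𝓝 z := by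
      refine ((Ψ z).isOpen_co isOpen_ball).mem_nhds ⟨A.idx_src z, ?_⟩
      have h2 : (Ψ z).co z = 0 := by
        simp only [Chart.co, Chart.i, Chart.c, hΨ, sub_self, map_zero]
      rw [h2]
      exact mem_ball_self one_pos
    filter_upwards [h1] with x hx
    exact ⟨hx.1, (mem_ball_zero_iff.1 hx.2).le⟩
  set Θ : X → X × A.Chart × A.Chart := fun x => (x, Ψ (f.symm x), Ψ (f x)) with hΘ
  have hΘm : Measurable Θ := measurable_id.prodMk
    ((hΨm.comp f.symm.continuous.measurable).prodMk (hΨm.comp f.continuous.measurable))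
  set Nb : X → Set (X × A.Chart × A.Chart) := fun z => {q | (Ψ z).Box q.1 ∧
    REdge P κ (min c c₁) f q.2.1 (Ψ z) ∧ REdge P κ (min c c₁) f (Ψ z) q.2.2} with hNb
  have hmem : ∀ z ∈ G, Θ z ∈ interior (Nb z) := by
    intro z hz
    rw [mem_interior_iff_mem_nhds]
    have e1 : ∀ᶠ q : X × A.Chart × A.Chart in 𝓝 (Θ z), (Ψ z).Box q.1 :=
      (continuous_fst.continuousAt (x := Θ z)).eventually (hbox z)
    have e2 : ∀ᶠ q : X × A.Chart × A.Chart in 𝓝 (Θ z), REdge P κ (min c c₁) f q.2.1 (Ψ z) := by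
      have h1 := hev _ (hGb z hz)
      rw [Homeomorph.apply_symm_apply] at h1
      have h2 : Continuous fun q : X × A.Chart × A.Chart => (q.2.1, Ψ z) := by fun_prop
      exact (h2.continuousAt (x := Θ z)).eventually h1
    have e3 : ∀ᶠ q : X × A.Chart × A.Chart in 𝓝 (Θ z), REdge P κ (min c c₁) f (Ψ z) q.2.2 := by
      have h2 : Continuous fun q : X × A.Chart × A.Chart => (Ψ z, q.2.2) := by fun_prop
      exact (h2.continuousAt (x := Θ z)).eventually (hev z hz)
    filter_upwards [e1, e2, e3] with q h1 h2 h3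
    exact ⟨h1, h2, h3⟩
  haveI : OpensMeasurableSpace (Fin A.N) := ⟨fun _ _ => trivial⟩
  haveI : OpensMeasurableSpace A.Chart := Prod.opensMeasurableSpace
  haveI : OpensMeasurableSpace (A.Chart × A.Chart) := Prod.opensMeasurableSpace
  haveI : OpensMeasurableSpace (X × A.Chart × A.Chart) := Prod.opensMeasurableSpace
  obtain ⟨T, hT, hTU⟩ := TopologicalSpace.isOpen_iUnion_countable (fun z => interior (Nb z))
    fun _ => isOpen_interior
  obtain ⟨z₀⟩ := nonempty_of_isProbabilityMeasure μ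
  obtain ⟨z, hz⟩ := (hT.insert z₀).exists_eq_range (insert_nonempty _ _)
  refine ⟨{ Ψ := Ψ
            G := G
            Γ := fun j => G ∩ Θ ⁻¹' interior (Nb (z j))
            Φ := fun j => Ψ (z j)
            G_full := hG0
            G_fwd := hGf
            G_bwd := hGb
            edge := fun x hx => (hev x hx).self_of_nhds
            box := fun x _ => (hbox x).self_of_nhds
            Γ_meas := fun j => hGm.inter (hΘm isOpen_interior.measurableSet)
            Γ_sub := fun j => inter_subset_left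
            cover := fun x hx => ?_
            Γ_in := fun j x hx => (interior_subset hx.2).2.1
            Γ_out := fun j x hx => (interior_subset hx.2).2.2
            Γ_box := fun j x hx => (interior_subset hx.2).1 }⟩
  have h1 : Θ x ∈ ⋃ y ∈ T, interior (Nb y) := by
    rw [hTU]
    exact mem_iUnion.2 ⟨x, hmem x hx⟩
  obtain ⟨y, hy, h2⟩ := mem_iUnion₂.1 h1
  have h3 : y ∈ range z := hz ▸ mem_insert_of_mem _ hy
  obtain ⟨j, rfl⟩ := h3
  exact mem_iUnion.2 ⟨j, hx, h2⟩

end Atlas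

end Pool.Agent.Lib.MP_901be3_an.Hd
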