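import Pool.Agent.Lib.MP_901be3_an.Hd.PSysBasic
import Pool.Agent.Lib.MP_901be3_an.Hd.PSysEx
import Pool.Agent.Lib.MP_901be3_an.Hd.Katok
import Pool.Agent.Lib.MP_901be3_an.Hd.Birk

namespace Pool.Agent.Lib.MP_901be3_an.Hd

open MeasureTheory Filter Topology Metric Set
open scoped ENNReal

variable {X : Type*} [MetricSpace X] [CompactSpace X] [MeasurableSpace X] [BorelSpace X]

namespace Atlas

/-- many separated loops of the same length -/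
theorem kloops (A : Atlas X) {P : Par} {g : X ≃ₜ X} (hg : A.Good P g) {μ : Measure X}
    [IsProbabilityMeasure μ] (hμ : Ergodic g μ) {s : ℝ} (hs : 0 ≤ s)
    (h : ENNReal.ofReal s < ksEnt g μ) :
    ∃ κ c₀ : ℝ, 0 < κ ∧ κ ≤ 1 ∧ c₀ ≤ 1 / 4 ∧ ∃ (S : A.PSys P κ c₀ g μ) (j N K : ℕ)
      (w : Fin (K + 1) → ℕ → A.Chart) (ε' : ℝ), 0 < ε' ∧ μ (S.Γ j) ≠ 0 ∧
      (∀ a, Loop (Edge P.α κ c₀ g) (w a) N ∧ w a 0 = S.Φ j) ∧ Real.exp (s * N) ≤ K + 1 ∧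
      ∀ a b, a ≠ b → ∃ l < N, ∀ y y', (w a l).Box y → (w b l).Box y' → ε' ≤ dist y y' := by
  classical
  obtain ⟨s₁, hs₁, h1, h2⟩ := ENNReal.lt_iff_exists_real_btwn.1 h
  have hss : s < s₁ := (ENNReal.ofReal_lt_ofReal_iff_of_nonneg hs).1 h1
  obtain ⟨ε, hε, δ, hδ, hkat⟩ := katok hμ.toMeasurePreserving hs₁ h2
  obtain ⟨κ, hκ, hκ1, hps⟩ := A.psys hg hμ (lt_of_le_of_lt zero_le h)
  have hL : 0 < A.L := lt_of_lt_of_le one_pos A.one_le_L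
  obtain ⟨c₀, -, hc₀, ⟨S⟩⟩ := hps (min (1 / 4) (ε / (8 * A.L))) (by positivity)
  have hc : c₀ ≤ 1 / 4 := hc₀.trans (min_le_left _ _)
  have hc' : 2 * A.L * c₀ ≤ ε / 4 := by
    have := hc₀.trans (min_le_right _ _)
    rw [le_div_iff₀ (by positivity)] at this
    linarith
  set γ : ℝ := (s₁ - s) / (2 * (s + 1)) with hγ_def
  have hγ : 0 < γ := by rw [hγ_def]; exact div_pos (by linarith) (by linarith)
  set s₂ : ℝ := (s + s₁) / 2 with hs₂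
  have hsγ : s * (1 + γ) ≤ s₂ := by
    have : γ * (2 * (s + 1)) = s₁ - s := by rw [hγ_def]; field_simp
    nlinarith
  let B : ℕ → Set X := fun J => ⋃ j, ⋃ _ : j < J ∧ μ (S.Γ j) ≠ 0, S.Γ j ∩
    ⋂ n : ℕ, ⋂ _ : J ≤ n, ⋃ l : ℕ, ⋃ _ : n ≤ l ∧ (l : ℝ) ≤ (1 + γ) * n, g^[l] ⁻¹' S.Γ j
  have hBmem : ∀ J x, x ∈ B J ↔ ∃ j, (j < J ∧ μ (S.Γ j) ≠ 0) ∧ x ∈ S.Γ j ∧
      ∀ n : ℕ, J ≤ n → ∃ l : ℕ, (n ≤ l ∧ (l : ℝ) ≤ (1 + γ) * n) ∧ g^[l] x ∈ S.Γ j := by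
    intro J x
    simp only [B, mem_iUnion, mem_inter_iff, mem_iInter, mem_preimage, exists_prop]
  have hBm : ∀ J, MeasurableSet (B J) := fun J =>
    MeasurableSet.iUnion fun j => MeasurableSet.iUnion fun _ => (S.Γ_meas j).inter
      (MeasurableSet.iInter fun n => MeasurableSet.iInter fun _ => MeasurableSet.iUnion fun l =>
        MeasurableSet.iUnion fun _ => (g.continuous.measurable.iterate l) (S.Γ_meas j))
  have hmono : Monotone B := by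
    intro J J' hJ x hx
    obtain ⟨j, ⟨h1, h2⟩, h3, h4⟩ := (hBmem J x).1 hx
    exact (hBmem J' x).2 ⟨j, ⟨h1.trans_le hJ, h2⟩, h3, fun n hn => h4 n (hJ.trans hn)⟩
  have hfull : ∀ᵐ x ∂μ, x ∈ ⋃ J, B J := by
    have a1 : ∀ᵐ x ∂μ, x ∈ S.G := S.G_full
    have a2 : ∀ᵐ x ∂μ, ∀ j, μ (S.Γ j) = 0 → x ∉ S.Γ j := by
      refine ae_all_iff.2 fun j => ?_
      by_cases hj : μ (S.Γ j) = 0
      · exact (measure_eq_zero_iff_ae_notMem.1 hj).mono fun x hx _ => hx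
      · exact Eventually.of_forall fun x h => (hj h).elim
    have a3 : ∀ᵐ x ∂μ, ∀ j, μ (S.Γ j) ≠ 0 → ∀ᶠ n : ℕ in atTop,
        ∃ l : ℕ, n ≤ l ∧ (l : ℝ) ≤ (1 + γ) * n ∧ g^[l] x ∈ S.Γ j := by
      refine ae_all_iff.2 fun j => ?_
      by_cases hj : μ (S.Γ j) = 0
      · exact Eventually.of_forall fun x h => (h hj).elim
      · exact (returns hμ (S.Γ_meas j) hj hγ).mono fun x hx _ => hx
    filter_upwards [a1, a2, a3] with x h1 h2 h3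
    obtain ⟨j, hj⟩ := mem_iUnion.1 (S.cover h1)
    have hj0 : μ (S.Γ j) ≠ 0 := fun h => h2 j h hj
    obtain ⟨n₀, hn₀⟩ := eventually_atTop.1 (h3 j hj0)
    refine mem_iUnion.2 ⟨max (j + 1) n₀, (hBmem _ x).2 ⟨j, ⟨by omega, hj0⟩, hj, fun n hn => ?_⟩⟩
    obtain ⟨l, b1, b2, b3⟩ := hn₀ n (le_trans (le_max_right _ _) hn)
    exact ⟨l, ⟨b1, b2⟩, b3⟩
  have hlim : Tendsto (fun J => μ.real (B J)) atTop (𝓝 1) := by
    have h0 := tendsto_measure_iUnion_atTop (μ := μ) hmono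
    have h1 : μ (⋃ J, B J) = 1 := by
      rw [← prob_compl_eq_zero_iff (MeasurableSet.iUnion hBm)]
      exact hfull
    rw [h1] at h0
    exact (ENNReal.tendsto_toReal ENNReal.one_ne_top).comp h0
  obtain ⟨J, hJ⟩ := (hlim.eventually (le_mem_nhds (by linarith : 1 - δ < 1))).exists
  have hgrow : ∀ᶠ n : ℕ in atTop, (J : ℝ) * (γ * n + 1) ≤ Real.exp ((s₁ - s₂) * n) := by
    have hd : 0 < s₁ - s₂ := by rw [hs₂]; linarith
    have h0 : Tendsto (fun n : ℕ => (s₁ - s₂) * (n : ℝ)) atTop atTop :=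
      tendsto_natCast_atTop_atTop.const_mul_atTop hd
    have h1 := (Real.tendsto_exp_div_pow_atTop 1).comp h0
    filter_upwards [h1.eventually_ge_atTop (J * (γ + 1) / (s₁ - s₂)),
      eventually_ge_atTop 1] with n hn hn1
    have hn1' : (1 : ℝ) ≤ n := by exact_mod_cast hn1
    simp only [Function.comp, pow_one] at hn
    rw [le_div_iff₀ (by positivity), div_mul_eq_mul_div, mul_comm (s₁ - s₂), ← mul_assoc,
      mul_div_assoc, div_self hd.ne', mul_one, mul_comm (n : ℝ) (s₁ - s₂)] at hn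
    have hJ0 : (0 : ℝ) ≤ J := Nat.cast_nonneg _
    nlinarith
  obtain ⟨n, ⟨⟨hn1, hn2⟩, hn3⟩, hn4⟩ := (((hkat.and hgrow).and (eventually_ge_atTop J)).and
    (eventually_ge_atTop 2)).exists
  obtain ⟨S₀, hS1, hS2, hS3⟩ := hn1 (B J) (hBm J) hJ
  have hch : ∀ x : X, ∃ t : ℕ × ℕ, x ∈ S₀ → (t.1 < J ∧ μ (S.Γ t.1) ≠ 0) ∧ x ∈ S.Γ t.1 ∧
      (n ≤ t.2 ∧ (t.2 : ℝ) ≤ (1 + γ) * n) ∧ g^[t.2] x ∈ S.Γ t.1 := by
    intro x
    by_cases hx : x ∈ S₀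
    · obtain ⟨j, h1, h2, h3⟩ := (hBmem J x).1 (hS1 hx)
      obtain ⟨l, h4, h5⟩ := h3 n hn3
      exact ⟨(j, l), fun _ => ⟨h1, h2, h4, h5⟩⟩
    · exact ⟨(0, 0), fun h => (hx h).elim⟩
  choose τ hτ using hch
  let T : Finset (ℕ × ℕ) := Finset.range J ×ˢ Finset.Icc n ⌊(1 + γ) * n⌋₊
  have hn0 : (0 : ℝ) ≤ n := Nat.cast_nonneg _
  have hmaps : ∀ x ∈ S₀, τ x ∈ T := fun x hx =>
    Finset.mem_product.2 ⟨Finset.mem_range.2 (hτ x hx).1.1,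
      Finset.mem_Icc.2 ⟨(hτ x hx).2.2.1.1, Nat.le_floor (hτ x hx).2.2.1.2⟩⟩
  have hS₀ : S₀.Nonempty :=
    Finset.card_pos.1 (by exact_mod_cast (Real.exp_pos _).trans_le hS2)
  have hT : T.Nonempty := ⟨_, hmaps _ hS₀.choose_spec⟩
  have hTc : (T.card : ℝ) ≤ J * (γ * n + 1) := by
    have hfl : n ≤ ⌊(1 + γ) * n⌋₊ := Nat.le_floor (by nlinarith)
    have hfl' : (⌊(1 + γ) * n⌋₊ : ℝ) ≤ (1 + γ) * n := Nat.floor_le (by positivity)
    rw [Finset.card_product, Finset.card_range, Nat.card_Icc, Nat.cast_mul,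
      Nat.cast_sub (by omega)]
    push_cast
    refine mul_le_mul_of_nonneg_left (by linarith) (Nat.cast_nonneg _)
  obtain ⟨⟨j, N⟩, -, hfib⟩ := Finset.exists_le_sum_fiber_of_maps_to_of_nsmul_le_sum
    (w := fun _ => (1 : ℝ)) (b := Real.exp (s₂ * n)) hmaps hT (by
      rw [nsmul_eq_mul, Finset.sum_const, nsmul_eq_mul, mul_one]
      refine le_trans ?_ hS2
      calc _ ≤ Real.exp ((s₁ - s₂) * n) * Real.exp (s₂ * n) :=
            mul_le_mul_of_nonneg_right (hTc.trans hn2) (Real.exp_pos _).le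
        _ = _ := by rw [← Real.exp_add]; congr 1; ring)
  rw [Finset.sum_const, nsmul_eq_mul, mul_one] at hfib
  set S₁ := S₀.filter fun x => τ x = (j, N) with hS₁
  have hpos : 0 < S₁.card := by exact_mod_cast (Real.exp_pos _).trans_le hfib
  obtain ⟨K, hK⟩ : ∃ K, S₁.card = K + 1 := ⟨S₁.card - 1, by omega⟩
  let e : Fin (K + 1) ≃ S₁ := (S₁.equivFinOfCardEq hK).symm
  have he : ∀ a, (e a : X) ∈ S₀ ∧ (j < J ∧ μ (S.Γ j) ≠ 0) ∧ (e a : X) ∈ S.Γ j ∧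
      (n ≤ N ∧ (N : ℝ) ≤ (1 + γ) * n) ∧ g^[N] (e a) ∈ S.Γ j := by
    intro a
    obtain ⟨h1, h2⟩ := Finset.mem_filter.1 (e a).2
    have h3 := hτ _ h1
    rw [h2] at h3
    exact ⟨h1, h3⟩
  have hlp : ∀ a, Loop (REdge P κ c₀ g) (S.lp j (e a) N) N ∧ S.lp j (e a) N 0 = S.Φ j ∧
      ∀ l < N, (S.lp j (e a) N l).Box (g^[l] (e a)) := fun a =>
    S.lp_spec (he a).2.2.1 (hn4.trans (he a).2.2.2.1.1) (he a).2.2.2.2
  have hloop : ∀ a, Loop (Edge P.α κ c₀ g) (S.lp j (e a) N) N := fun a =>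
    ⟨(hlp a).1.1, (hlp a).1.2.1, fun l hl => ((hlp a).1.2.2 l hl).edge hg⟩
  refine ⟨κ, c₀, hκ, hκ1, hc, S, j, N, K, fun a => S.lp j (e a) N, ε / 2, by linarith,
    (he 0).2.1.2, fun a => ⟨hloop a, (hlp a).2.1⟩, ?_, fun a b hab => ?_⟩
  · have h1 : s * N ≤ s₂ * n := by
      have := mul_le_mul_of_nonneg_left (he 0).2.2.2.1.2 hs
      nlinarith
    have h2 : (S₁.card : ℝ) = K + 1 := by exact_mod_cast hK
    exact (Real.exp_le_exp.2 h1).trans (h2 ▸ hfib)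
  · obtain ⟨l, hl, hd⟩ := hS3 _ (he a).1 _ (he b).1
      (fun h => hab (e.injective (Subtype.ext h)))
    have hlN : l < N := hl.trans_le (he a).2.2.2.1.1
    refine ⟨l, hlN, fun y y' hy hy' => ?_⟩
    have d1 := ((hloop a).2.2 l hlN).1.dist_box hc ((hlp a).2.2 l hlN) hy
    have d2 := ((hloop b).2.2 l hlN).1.dist_box hc hy' ((hlp b).2.2 l hlN)
    have d3 := dist_triangle4 (g^[l] (e a)) y y' (g^[l] (e b))
    linarith

end Atlas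

end Pool.Agent.Lib.MP_901be3_an.Hd
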