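import Pool.Agent.Lib.MP_901be3_an.Hd.CcComp
import Pool.Agent.Lib.MP_901be3_an.Hd.CcLim

namespace Pool.Agent.Lib.MP_901be3_an.Hd

open MeasureTheory Filter Topology Metric Set
open scoped ENNReal

namespace HCurveAux

/-- the invariant of the iteration -/
def Inv (α : ℝ) (n : ℕ) (p e : V) (δ : ℝ) (c : ℝ → V) : Prop :=
  c 0 = p ∧ (∀ τ ∈ II, DifferentiableAt ℝ c τ) ∧ deriv c 0 = δ • e ∧
    Cc α n (δ / 2) (fun τ => deriv c τ - δ • e) II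

variable {α : ℝ} {n : ℕ} {p e : V} {δ : ℝ} {c : ℝ → V}

theorem Inv.cc (h : Inv α n p e δ c) (he : ‖e‖ = 1) (hδ : 0 < δ) : Cc α n (2 * δ) (deriv c) II :=
  ((h.2.2.2.add (Cc.const (B := δ) (δ • e) (by simp [norm_smul, he, abs_of_pos hδ]) II)
    isOpen_Ioo).congr isOpen_Ioo fun τ _ => by simp).mono_B (by linarith)

theorem Inv.mem (h : Inv α n p e δ c) (he : ‖e‖ = 1) (hδ : 0 < δ) {τ : ℝ} (hτ : τ ∈ II) :
    ‖c τ - p‖ ≤ 2 * δ := by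
  have := norm_sub_le_of_deriv (c := c) (d := 0) (B := 2 * δ) (a := -1) (b := 1)
    (fun t ht => ⟨h.2.1 t ht, by simpa using (h.cc he hδ).hol.1 t ht⟩) τ hτ 0 (by simp)
  rw [h.1, smul_zero, sub_zero, sub_zero] at this
  exact this.trans (mul_le_of_le_one_right (by linarith) (abs_lt.2 hτ).le)

theorem mul_mem {μ τ : ℝ} (hμ : |μ| ≤ 1) (hτ : τ ∈ II) : μ * τ ∈ II := by
  refine abs_lt.1 ?_
  rw [abs_mul]
  exact (mul_le_of_le_one_left (abs_nonneg _) hμ).trans_lt (abs_lt.2 hτ)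

end HCurveAux

open HCurveAux in
/-- smooth local unstable curve of a fixed point -/
theorem hcurve {α : ℝ} (hα : 0 < α) (hα1 : α ≤ 1) {n : ℕ} {B ρ : ℝ} (hρ : 0 < ρ) {G : V → V}
    {p e : V} {Λ : ℝ} (hG : Cr α (n + 1) B G (ball p ρ)) (hp : G p = p) (he : ‖e‖ = 1)
    (hΛ : 1 ≤ |Λ|) (heig : fderiv ℝ G p e = Λ • e)
    (hK : ‖fderiv ℝ G p‖ * |Λ|⁻¹ * |Λ|⁻¹ ^ α ≤ 1 / 2) {ε : ℝ} (hε : 0 < ε) :
    ∃ ε₁ : ℝ, 0 < ε₁ ∧ ε₁ ≤ ε ∧ ∃ c : ℝ → V, c 0 = p ∧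
      (∀ τ ∈ II, DifferentiableAt ℝ c τ ∧ ‖deriv c τ - ε₁ • e‖ ≤ ε₁ / 2) ∧
      Cc α n (2 * ε₁) (deriv c) II ∧
      ∀ τ ∈ II, ∃ y : ℕ → V, y 0 = c τ ∧ ∀ j, G (y (j + 1)) = y j ∧ ‖y j - p‖ ≤ 2 * ε₁ := by
  obtain ⟨ε₀, hε₀, hC⟩ := Cc_comp hα hα1 n B (1 / 8) (by norm_num)
  set δ := min ε (min (ε₀ / 2) (ρ / 4)) with hδ
  have δ0 : 0 < δ := by positivity
  have δ1 : 2 * δ ≤ ε₀ := by
    linarith [min_le_right ε (min (ε₀ / 2) (ρ / 4)), min_le_left (ε₀ / 2) (ρ / 4)]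
  have δ2 : 2 * δ < ρ := by
    linarith [min_le_right ε (min (ε₀ / 2) (ρ / 4)), min_le_right (ε₀ / 2) (ρ / 4)]
  have Λ0 : Λ ≠ 0 := fun h => by norm_num [h] at hΛ
  have μ0 : Λ⁻¹ ≠ 0 := inv_ne_zero Λ0
  have μ1 : |Λ⁻¹| ≤ 1 := by
    rw [abs_inv]
    exact inv_le_one_of_one_le₀ hΛ
  have hD : fderiv ℝ G p (Λ⁻¹ • δ • e) = δ • e := by
    rw [map_smul, map_smul, heig, smul_comm δ, smul_smul, inv_mul_cancel₀ Λ0, one_smul]
  have step : ∀ c, Inv α n p e δ c → Inv α n p e δ (G ∘ rp c 0 Λ⁻¹) := fun c h => by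
    have d0 : rp c 0 Λ⁻¹ 0 = p := by simpa [rp] using h.1
    have hm : ∀ τ ∈ II, 0 + Λ⁻¹ * τ ∈ II := fun τ hτ => (zero_add (Λ⁻¹ * τ)).symm ▸ mul_mem μ1 hτ
    have d1 := fun τ hτ => deriv_rp (h.2.1 _ (hm τ hτ))
    have d2 : Cc α n (2 * δ) (deriv (rp c 0 Λ⁻¹)) II :=
      ((((h.cc he δ0).repar hα μ0 (s := 0) (by simpa using μ1)).smul isOpen_Ioo Λ⁻¹).congr
        isOpen_Ioo fun τ hτ => (d1 τ hτ).2).mono_B (mul_le_of_le_one_left (by linarith) μ1)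
    obtain ⟨k1, k2⟩ := hC (2 * δ) (by linarith) δ1 G _ (rp c 0 Λ⁻¹) hG
      (fun τ hτ => mem_ball_iff_norm.2 ((h.mem he δ0 (hm τ hτ)).trans_lt δ2))
      (fun τ hτ => (d1 τ hτ).1) d2
    refine ⟨by rw [Function.comp_apply, d0, hp], k1, ?_, ?_⟩
    · have hz : (0 : ℝ) ∈ II := by simp
      have := (d0 ▸ (hG.2.1 p (mem_ball_self hρ)).hasFDerivAt).comp_hasDerivAt 0
        (d1 0 hz).1.hasDerivAt
      rw [this.deriv, d0, (d1 0 hz).2, mul_zero, add_zero, h.2.2.1, hD]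
    · have k3 := (h.2.2.2.repar_zero hα hα1 (by simp [h.2.2.1]) μ0 μ1).clm isOpen_Ioo
        (Λ⁻¹ • fderiv ℝ G p)
      refine ((k2.add k3 isOpen_Ioo).congr isOpen_Ioo fun τ hτ => ?_).mono_B ?_
      · beta_reduce
        rw [d0, (d1 τ hτ).2]
        conv_lhs => rw [← hD]
        simp only [rp, map_smul, map_sub, smul_apply, smul_comm δ Λ⁻¹]
        abel
      · rw [norm_smul, Real.norm_eq_abs, abs_inv]
        nlinarith
  let c : ℕ → ℝ → V := fun k => Nat.rec (fun τ => p + τ • δ • e) (fun _ c => G ∘ rp c 0 Λ⁻¹) k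
  have hc : ∀ k, Inv α n p e δ (c k) := fun k => by
    induction k with
    | zero =>
      have h0 : ∀ τ : ℝ, HasDerivAt (c 0) (δ • e) τ := fun τ => by
        have := ((hasDerivAt_id τ).smul_const (δ • e)).const_add p
        rwa [one_smul] at this
      refine ⟨by simp [c], fun τ _ => (h0 τ).differentiableAt, (h0 0).deriv, ?_⟩
      simp only [(h0 _).deriv, sub_self]
      exact Cc.const 0 (by simpa using (half_pos δ0).le) II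
    | succ k ih => exact step _ ih
  have hpow : ∀ j : ℕ, ∀ τ ∈ II, Λ⁻¹ ^ j * τ ∈ II := fun j τ hτ =>
    mul_mem (by rw [abs_pow]; exact pow_le_one₀ (abs_nonneg _) μ1) hτ
  let 𝒰 : Ultrafilter ℕ := Ultrafilter.of atTop
  have hY : ∀ j : ℕ, ∀ τ ∈ II, ∃ y ∈ closedBall p (2 * δ),
      Tendsto (fun k => c (k - j) (Λ⁻¹ ^ j * τ)) 𝒰 (𝓝 y) := fun j τ hτ =>
    (isCompact_closedBall p (2 * δ)).ultrafilter_le_nhds' (𝒰.map fun k => c (k - j) (Λ⁻¹ ^ j * τ))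
      (Filter.mem_map.2 (Eventually.of_forall fun k =>
        mem_closedBall_iff_norm.2 ((hc _).mem he δ0 (hpow j τ hτ))))
  choose! Y hY1 hY2 using hY
  have hY0 : ∀ τ ∈ II, Tendsto (fun k => c k τ) 𝒰 (𝓝 (Y 0 τ)) := fun τ hτ => by
    simpa using hY2 0 τ hτ
  obtain ⟨l1, l2⟩ := Cc_limit_deriv hα 𝒰 (fun k => (hc k).2.1) (fun k => (hc k).cc he δ0) hY0
  refine ⟨δ, δ0, min_le_left _ _, Y 0, ?_, fun τ hτ => ⟨(l1 τ hτ).1, ?_⟩, l2, fun τ hτ =>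
    ⟨fun j => Y j τ, rfl, fun j => ⟨?_, mem_closedBall_iff_norm.1 (hY1 j τ hτ)⟩⟩⟩
  · have := hY0 0 (by simp)
    simp only [(hc _).1] at this
    exact tendsto_nhds_unique this tendsto_const_nhds
  · exact le_of_tendsto' ((l1 τ hτ).2.sub_const _).norm fun k => (hc k).2.2.2.hol.1 τ hτ
  · have h1 := (hG.2.1 _ (closedBall_subset_ball δ2 (hY1 (j + 1) τ hτ))).continuousAt.tendsto.comp
      (hY2 (j + 1) τ hτ)
    refine tendsto_nhds_unique (h1.congr' ?_) (hY2 j τ hτ)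
    filter_upwards [Ultrafilter.of_le atTop (eventually_gt_atTop j)] with k hk
    rw [show k - j = k - (j + 1) + 1 by omega]
    simp only [c, Function.comp_apply, rp, zero_add, pow_succ', mul_assoc]

end Pool.Agent.Lib.MP_901be3_an.Hd
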