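import Pool.Agent.Lib.MP_901be3_an.Hd.QEig
import Pool.Agent.Lib.MP_901be3_an.Hd.HCurve
import Pool.Agent.Lib.MP_901be3_an.Hd.AtIter

namespace Pool.Agent.Lib.MP_901be3_an.Hd

open MeasureTheory Filter Topology Metric Set
open scoped ENNReal

variable {X : Type*} [MetricSpace X] [MeasurableSpace X] [BorelSpace X] {A : Atlas X} {P : Par}
  {c₀ κ : ℝ}

namespace QCurveAux

theorem mod_eq {l n N M : ℕ} (hN : 0 < N) (h : l + n = M * N) :
    (N - n % N) % N = l % N := by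
  have h1 : (l % N + n % N) % N = 0 := by
    rw [← Nat.add_mod, h, Nat.mul_mod_left]
  have ha := Nat.mod_lt l hN
  have hb := Nat.mod_lt n hN
  rcases Nat.lt_or_ge (l % N + n % N) N with h2 | h2
  · rw [Nat.mod_eq_of_lt h2] at h1
    have h3 : n % N = 0 := by omega
    have h4 : l % N = 0 := by omega
    rw [h3, h4, Nat.sub_zero, Nat.mod_self]
  · rw [Nat.mod_eq_sub_mod h2, Nat.mod_eq_of_lt (by omega)] at h1
    have h3 : N - n % N = l % N := by omega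
    rw [h3, Nat.mod_mod]

theorem exists_k {K Λ α : ℝ} (hα : 0 < α) (hΛ : 1 < |Λ|) :
    ∃ k : ℕ, 0 < k ∧ K * |Λ ^ k|⁻¹ ^ α ≤ 1 / 2 := by
  have h0 : 0 < |Λ| := by linarith
  have h1 : |Λ|⁻¹ ^ α < 1 :=
    Real.rpow_lt_one (by positivity) (inv_lt_one_of_one_lt₀ hΛ) hα
  have h2 : 0 ≤ |Λ|⁻¹ ^ α := by positivity
  have h3 : Tendsto (fun k : ℕ => K * (|Λ|⁻¹ ^ α) ^ k) atTop (𝓝 (K * 0)) :=
    (tendsto_pow_atTop_nhds_zero_of_lt_one h2 h1).const_mul K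
  rw [mul_zero] at h3
  have h4 := (h3.eventually (ge_mem_nhds (show (0 : ℝ) < 1 / 2 by norm_num))).and
    (eventually_gt_atTop 0)
  obtain ⟨k, hk1, hk2⟩ := h4.exists
  refine ⟨k, hk2, ?_⟩
  have h5 : |Λ ^ k|⁻¹ ^ α = (|Λ|⁻¹ ^ α) ^ k := by
    rw [abs_pow, ← inv_pow, ← Real.rpow_natCast, ← Real.rpow_natCast,
      ← Real.rpow_mul (by positivity), ← Real.rpow_mul (by positivity), mul_comm]
  rw [h5]
  exact hk1

theorem inj_of_deriv {c : ℝ → V} {e : V} (he : ‖e‖ = 1) {ε₁ : ℝ} (hε : 0 < ε₁)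
    (hc : ∀ τ ∈ II, DifferentiableAt ℝ c τ ∧ ‖deriv c τ - ε₁ • e‖ ≤ ε₁ / 2) :
    InjOn c II := by
  intro s hs t ht hst
  have h1 := norm_sub_le_of_deriv hc s hs t ht
  rw [hst, sub_self, zero_sub, norm_neg, norm_smul, norm_smul, he, Real.norm_eq_abs,
    Real.norm_eq_abs, abs_of_pos hε] at h1
  have h2 : |s - t| ≤ 0 := by nlinarith [abs_nonneg (s - t)]
  have h3 : s - t = 0 := abs_eq_zero.1 (le_antisymm h2 (abs_nonneg _))
  linarith

theorem fill {φ : ℝ → ℝ} (hc : ContinuousOn φ II) (hi : InjOn φ II) :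
    ∃ U : Set ℝ, IsOpen U ∧ φ 0 ∈ U ∧ ∀ a ∈ U, ∃ s, |s| ≤ 1 / 3 ∧ φ s = a := by
  have hsub : Icc (-(1 / 3) : ℝ) (1 / 3) ⊆ II := fun x hx =>
    ⟨by linarith [hx.1], by linarith [hx.2]⟩
  have hab : (-(1 / 3) : ℝ) ≤ 1 / 3 := by norm_num
  have hc' := hc.mono hsub
  have ha : (-(1 / 3) : ℝ) ∈ Icc (-(1 / 3) : ℝ) (1 / 3) := ⟨le_rfl, hab⟩
  have hb : (1 / 3 : ℝ) ∈ Icc (-(1 / 3) : ℝ) (1 / 3) := ⟨hab, le_rfl⟩
  have h0 : (0 : ℝ) ∈ Icc (-(1 / 3) : ℝ) (1 / 3) := ⟨by norm_num, by norm_num⟩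
  rcases hc'.strictMonoOn_of_injOn_Icc' hab (hi.mono hsub) with h | h
  · refine ⟨Ioo (φ (-(1 / 3))) (φ (1 / 3)), isOpen_Ioo,
      ⟨h ha h0 (by norm_num), h h0 hb (by norm_num)⟩, fun a hx => ?_⟩
    obtain ⟨s, hs, rfl⟩ := intermediate_value_Ioo hab hc' hx
    exact ⟨s, abs_le.2 ⟨hs.1.le, hs.2.le⟩, rfl⟩
  · refine ⟨Ioo (φ (1 / 3)) (φ (-(1 / 3))), isOpen_Ioo,
      ⟨h h0 hb (by norm_num), h ha h0 (by norm_num)⟩, fun a hx => ?_⟩
    obtain ⟨s, hs, rfl⟩ := intermediate_value_Ioo' hab hc' hx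
    exact ⟨s, abs_le.2 ⟨hs.1.le, hs.2.le⟩, rfl⟩

omit [BorelSpace X] in
theorem eq_of_fst (hκ : 0 < κ) (hκ1 : κ ≤ 1) (hc : c₀ ≤ 1 / 4) {g : X ≃ₜ X}
    {w : ℕ → A.Chart} {N : ℕ} (h : Atlas.Loop (Atlas.Edge P.α κ c₀ g) w N) {x y : X}
    (hx : x ∈ Atlas.Fol g.symm (Atlas.bwd w N)) (hy : y ∈ Atlas.Fol g.symm (Atlas.bwd w N))
    (hxy : ((w 0).co x).1 = ((w 0).co y).1) : x = y := by
  have h1 := h.bpath.co_eq hκ hκ1 hc hx
  have h2 := h.bpath.co_eq hκ hκ1 hc hy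
  rw [Atlas.bwd_zero] at h1 h2
  have h3 : (w 0).co x = (w 0).co y := Prod.ext hxy (by rw [h1, h2, hxy])
  have hs : (w 0).Small P.α c₀ := (h.2.2 0 h.1).1
  have hx0 := hx 0
  have hy0 := hy 0
  rw [Atlas.bwd_zero] at hx0 hy0
  rw [← hs.pt_co (x := x) hx0.1, ← hs.pt_co (x := y) hy0.1, h3]

omit [BorelSpace X] in
theorem near_box (hκ : 0 < κ) (hκ1 : κ ≤ 1) (hc : c₀ ≤ 1 / 4) {g : X ≃ₜ X}
    {w : ℕ → A.Chart} {N : ℕ} (h : Atlas.Loop (Atlas.Edge P.α κ c₀ g) w N) {p : X}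
    (hp : Atlas.PerPt g w N p) (M : ℕ) :
    ∀ᶠ z in 𝓝 p, ∀ l ∈ Iic M, (w (l % N)).Box (g^[l] z) := by
  rw [eventually_all_finite (finite_Iic M)]
  intro l _
  have hl := Nat.mod_lt l h.1
  have hper : Function.IsPeriodicPt g N p := hp.1
  have h1 : g^[l % N] p = g^[l] p := hper.iterate_mod_apply l
  have h2 := h.perPt_co hκ hκ1 hc hp hl
  have h3 := (hp.2 _ hl).1
  rw [h1] at h2 h3
  have ho := (w (l % N)).isOpen_co (isOpen_ball (x := (0 : V)) (ε := 1))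
  have hm : g^[l] p ∈ {x | x ∈ (A.e (w (l % N)).i).source ∧ (w (l % N)).co x ∈ ball (0 : V) 1} :=
    ⟨h3, mem_ball_zero_iff.2 (by linarith)⟩
  have h4 := (g.continuous.iterate l).continuousAt.eventually (ho.mem_nhds hm)
  filter_upwards [h4] with z hz
  exact ⟨hz.1, (mem_ball_zero_iff.1 hz.2).le⟩

end QCurveAux

namespace Atlas

/-- smooth parametrization of the local unstable manifold of the periodic point of a loop -/
theorem Loop.ucurve (hκ : 0 < κ) (hκ1 : κ ≤ 1) (hc : c₀ ≤ 1 / 4) {g : X ≃ₜ X} (hg : A.Good P g)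
    {w : ℕ → A.Chart} {N : ℕ} (h : Loop (Edge P.α κ c₀ g) w N) {p : X} (hp : PerPt g w N p)
    {ε : ℝ} (hε : 0 < ε) : ∃ σ : ℝ → X, A.UCurve P ε g p σ ∧ ∃ ζ > 0,
      ∀ z ∈ Fol g.symm (bwd w N), dist z p < ζ → ∃ s, |s| ≤ 1 / 3 ∧ σ s = z := by
  obtain ⟨_, v', _, Λ, K, -, hv', -, hΛ, -, -, hk⟩ := h.eigen hκ hκ1 hc hg hp
  obtain ⟨k, hk0, hK⟩ := QCurveAux.exists_k (K := K) P.α_pos hΛ
  obtain ⟨heig, hnorm⟩ := hk k
  have hN := h.1
  have hM0 : 0 < k * N := Nat.mul_pos hk0 hN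
  have hper : Function.IsPeriodicPt g N p := hp.1
  have hpM : g^[k * N] p = p := hper.const_mul k
  obtain ⟨P', hα', hn', hP'⟩ := A.good_iter P (k * N)
  have hreg := (hP' g hg).2
  have hgd : A.Gd (A.idx p) p := A.gd_idx p
  have hgd' : A.Gd (A.idx p) (g^[k * N] p) := by rw [hpM]; exact hgd
  obtain ⟨hsrc, hCr⟩ := hreg.2 _ _ p hgd hgd'
  rw [hα', hn'] at hCr
  set i := A.idx p with hi
  set p0 := A.e i p with hp0
  have hp0n : ‖p0‖ < 1 := A.idx_lt p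
  have hsymm : (A.e i).symm p0 = p := (A.e i).left_inv hgd.1
  have hD : fderiv ℝ (A.rep g^[k * N] i i) p0 = A.D g^[k * N] p := by
    unfold Atlas.D
    rw [hpM]
    rfl
  have hGp : A.rep g^[k * N] i i p0 = p0 := by
    show A.e i (g^[k * N] ((A.e i).symm p0)) = p0
    rw [hsymm, hpM]
  have hv'n : 0 < ‖v'‖ := norm_pos_iff.2 hv'
  have he : ‖‖v'‖⁻¹ • v'‖ = 1 := by
    rw [norm_smul, norm_inv, norm_norm, inv_mul_cancel₀ hv'n.ne']
  have hΛk : 1 ≤ |Λ ^ k| := by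
    rw [abs_pow]
    exact one_le_pow₀ hΛ.le
  have heig' : fderiv ℝ (A.rep g^[k * N] i i) p0 (‖v'‖⁻¹ • v') = Λ ^ k • ‖v'‖⁻¹ • v' := by
    rw [hD, map_smul, heig, smul_comm]
  have hK' : ‖fderiv ℝ (A.rep g^[k * N] i i) p0‖ * |Λ ^ k|⁻¹ * |Λ ^ k|⁻¹ ^ P.α ≤ 1 / 2 := by
    rw [hD]
    have h0 : 0 < |Λ ^ k| := by linarith
    have h1 : ‖A.D g^[k * N] p‖ * |Λ ^ k|⁻¹ ≤ K := by
      rw [← div_eq_mul_inv, div_le_iff₀ h0, abs_pow]
      exact hnorm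
    exact (mul_le_mul_of_nonneg_right h1 (by positivity)).trans hK
  have hp0t : p0 ∈ (A.e i).target := (A.e i).map_source hgd.1
  have hcont : ContinuousAt (A.e i).symm p0 := (A.e i).continuousAt_symm hp0t
  have hev : ∀ᶠ v in 𝓝 p0, (∀ l ∈ Iic (k * N), (w (l % N)).Box (g^[l] ((A.e i).symm v))) ∧
      v ∈ ball p0 P'.ρ ∧ ‖v‖ < 2 := by
    have h1 := QCurveAux.near_box hκ hκ1 hc h hp (k * N)
    rw [← hsymm] at h1
    refine (hcont.eventually h1).and (Eventually.and (ball_mem_nhds p0 P'.ρ_pos) ?_)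
    exact continuous_norm.continuousAt.eventually (gt_mem_nhds (by linarith))
  obtain ⟨r, hr, hrv⟩ := Metric.eventually_nhds_iff.1 hev
  obtain ⟨ε₁, hε₁, hε₁', c, hc0, hcd, hcc, hcy⟩ := hcurve P.α_pos P.α_le P'.ρ_pos hCr hGp he hΛk
    heig' hK' (lt_min (half_pos hε) (show 0 < r / 4 by positivity))
  have hε2 : 2 * ε₁ ≤ ε := by linarith [min_le_left (ε / 2) (r / 4)]
  have hε3 : 2 * ε₁ < r := by linarith [min_le_right (ε / 2) (r / 4)]
  have hclose : ∀ v : V, ‖v - p0‖ ≤ 2 * ε₁ → dist v p0 < r := fun v hv => by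
    rw [dist_eq_norm]
    linarith
  have hcn : ∀ τ ∈ II, ‖c τ‖ < 2 := fun τ hτ => by
    obtain ⟨y, hy0, hy⟩ := hcy τ hτ
    rw [← hy0]
    exact (hrv (hclose _ (hy 0).2)).2.2
  have hec : ∀ τ ∈ II, (A.e i).symm (c τ) ∈ (A.e i).source ∧ A.e i ((A.e i).symm (c τ)) = c τ :=
    fun τ hτ => A.symm_mem i (by linarith [hcn τ hτ])
  have heq : EqOn (A.e i ∘ ((A.e i).symm ∘ c)) c II := fun τ hτ => (hec τ hτ).2
  have heq' : ∀ τ ∈ II, (A.e i ∘ ((A.e i).symm ∘ c)) =ᶠ[𝓝 τ] c := fun τ hτ =>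
    heq.eventuallyEq_of_mem (isOpen_Ioo.mem_nhds hτ)
  have hfol : ∀ τ ∈ II, ((A.e i).symm ∘ c) τ ∈ Fol g.symm (bwd w N) := by
    intro τ hτ
    obtain ⟨y, hy0, hy⟩ := hcy τ hτ
    have hstep : ∀ j, g^[k * N] ((A.e i).symm (y (j + 1))) = (A.e i).symm (y j) := by
      intro j
      have h1 := hsrc _ (hrv (hclose _ (hy (j + 1)).2)).2.1
      rw [← (hy j).1]
      exact ((A.e i).left_inv h1).symm
    have hiter : ∀ j, g^[j * (k * N)] ((A.e i).symm (y j)) = (A.e i).symm (y 0) := by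
      intro j
      induction j with
      | zero => simp
      | succ j ih => rw [Nat.succ_mul, Function.iterate_add_apply, hstep, ih]
    intro n
    have h1 := Nat.div_add_mod n (k * N)
    have h2 := Nat.mod_lt n hM0
    obtain ⟨l, hl, hln⟩ : ∃ l, l ≤ k * N ∧ n + l = (n / (k * N) + 1) * (k * N) :=
      ⟨k * N - n % (k * N), Nat.sub_le _ _, by rw [Nat.succ_mul, mul_comm (n / (k * N))]; omega⟩
    have h3 := hiter (n / (k * N) + 1)
    rw [← hln, Function.iterate_add_apply, hy0] at h3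
    have h4 : g.symm^[n] (((A.e i).symm ∘ c) τ) = g^[l] ((A.e i).symm (y (n / (k * N) + 1))) := by
      rw [Function.comp_apply, ← h3]
      exact (Function.LeftInverse.iterate g.symm_apply_apply n) _
    have h5 : bwd w N n = w (l % N) := by
      unfold bwd
      rw [QCurveAux.mod_eq hN (l := l) (M := (n / (k * N) + 1) * k) (by rw [mul_assoc]; omega)]
    rw [h4, h5]
    exact (hrv (hclose _ (hy _).2)).1 l hl
  have hpfol := (hp.fol hN).2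
  refine ⟨(A.e i).symm ∘ c, ⟨⟨i, ⟨fun τ hτ => ⟨⟨(hec τ hτ).1, ?_⟩, ?_⟩, ?_⟩, fun s hs => ?_⟩,
    2 * A.L, 1 - κ / 3, by linarith, by linarith, fun s hs n => ?_⟩, ?_⟩
  · rw [Function.comp_apply, (hec τ hτ).2]
    exact hcn τ hτ
  · exact (hcd τ hτ).1.congr_of_eventuallyEq (heq' τ hτ)
  · exact (hcc.mono_B hε2).congr isOpen_Ioo fun τ hτ => (heq' τ hτ).deriv_eq
  · rw [(heq' s hs).deriv_eq]
    intro h0
    have h1 := (hcd s hs).2
    rw [h0, zero_sub, norm_neg, norm_smul, he, Real.norm_eq_abs, abs_of_pos hε₁] at h1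
    linarith
  · exact h.bpath.contr hκ hκ1 hc (hfol s hs) hpfol n
  · have hσc : ContinuousOn ((A.e i).symm ∘ c) II := by
      refine (A.e i).continuousOn_symm.comp
        (fun τ hτ => (hcd τ hτ).1.continuousAt.continuousWithinAt) fun τ hτ => ?_
      rw [A.target_eq]
      exact mem_ball_zero_iff.2 (by linarith [hcn τ hτ])
    have hsrc0 : ∀ x ∈ Fol g.symm (bwd w N), x ∈ (A.e (w 0).i).source := fun x hx => by
      have h1 := hx 0
      rw [bwd_zero] at h1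
      exact h1.1
    have hφc : ContinuousOn (fun s => ((w 0).co (((A.e i).symm ∘ c) s)).1) II :=
      continuous_fst.comp_continuousOn
        ((w 0).continuousOn_co.comp hσc fun τ hτ => hsrc0 _ (hfol τ hτ))
    have hφi : InjOn (fun s => ((w 0).co (((A.e i).symm ∘ c) s)).1) II := by
      intro s hs t ht hst
      have h1 := QCurveAux.eq_of_fst hκ hκ1 hc h (hfol s hs) (hfol t ht) hst
      refine QCurveAux.inj_of_deriv he hε₁ hcd hs ht ?_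
      rw [← heq hs, ← heq ht]
      exact congrArg (A.e i) h1
    obtain ⟨U, hU, hU0, hUs⟩ := QCurveAux.fill hφc hφi
    have hσ0 : ((A.e i).symm ∘ c) 0 = p := by rw [Function.comp_apply, hc0, hsymm]
    rw [hσ0] at hU0
    have hcp : ContinuousAt (fun z => ((w 0).co z).1) p :=
      continuous_fst.continuousAt.comp
        ((w 0).continuousOn_co.continuousAt ((A.e (w 0).i).open_source.mem_nhds (hsrc0 p hpfol)))
    obtain ⟨ζ, hζ, hζ'⟩ := Metric.eventually_nhds_iff.1 (hcp.eventually (hU.mem_nhds hU0))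
    refine ⟨ζ, hζ, fun z hz hzp => ?_⟩
    obtain ⟨s, hs, hsz⟩ := hUs _ (hζ' hzp)
    have hsI : s ∈ II := ⟨by linarith [(abs_le.1 hs).1], by linarith [(abs_le.1 hs).2]⟩
    exact ⟨s, hs, QCurveAux.eq_of_fst hκ hκ1 hc h (hfol s hsI) hz hsz⟩

end Atlas

end Pool.Agent.Lib.MP_901be3_an.Hd
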