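import Pool.Agent.Lib.MP_901be3_an.Hd.KArcs
import Pool.Agent.Lib.MP_901be3_an.Hd.KLoops
import Pool.Agent.Lib.MP_901be3_an.Hd.QCurve

namespace Pool.Agent.Lib.MP_901be3_an.Hd

open MeasureTheory Filter Topology Metric Set
open scoped ENNReal

variable {X : Type*} [MetricSpace X] [CompactSpace X] [MeasurableSpace X] [BorelSpace X]

namespace Atlas

namespace KHorseAux

theorem count {s : ℝ} (hs : 0 ≤ s) {N K : ℕ} (hN : 0 < N) (hK : Real.exp (s * N) ≤ K + 1)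
    (l n : ℕ) : Real.exp (s * n - s * ((l + 1) * N)) ≤ (((K + 1) ^ (n / N - l) : ℕ) : ℝ) := by
  have h1 : n ≤ (n / N - l + (l + 1)) * N := by
    have h2 : n < (n / N + 1) * N := by
      have := Nat.lt_mul_div_succ n hN
      rwa [Nat.mul_comm] at this
    have h3 : n / N + 1 ≤ n / N - l + (l + 1) := by omega
    exact h2.le.trans (Nat.mul_le_mul_right N h3)
  have h2 : (n : ℝ) ≤ (((n / N - l : ℕ) : ℝ) + (l + 1)) * N := by exact_mod_cast h1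
  have h3 : s * n - s * ((l + 1) * N) ≤ ((n / N - l : ℕ) : ℝ) * (s * N) := by
    have := mul_le_mul_of_nonneg_left h2 hs
    linarith
  calc Real.exp (s * n - s * ((l + 1) * N)) ≤ Real.exp (((n / N - l : ℕ) : ℝ) * (s * N)) :=
        Real.exp_le_exp.2 h3
    _ = Real.exp (s * N) ^ (n / N - l) := Real.exp_nat_mul _ _
    _ ≤ ((K : ℝ) + 1) ^ (n / N - l) := pow_le_pow_left₀ (Real.exp_pos _).le hK _
    _ = (((K + 1) ^ (n / N - l) : ℕ) : ℝ) := by push_cast; rfl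

theorem time_lt {N n l b i : ℕ} (hb : b < n / N - l) (hi : i < N) : (l + b) * N + i < n := by
  have h1 : l + b + 1 ≤ n / N := by omega
  have h2 : (l + b + 1) * N ≤ n := (Nat.mul_le_mul_right N h1).trans (Nat.div_mul_le_self n N)
  have h3 : (l + b + 1) * N = (l + b) * N + N := by ring
  omega

omit [CompactSpace X] [MeasurableSpace X] [BorelSpace X] in
theorem iter_symm (g : X ≃ₜ X) (l : ℕ) (z : X) : g^[l] (g.symm^[l] z) = z :=
  (Function.RightInverse.iterate (f := g) (g := g.symm) (fun x => g.apply_symm_apply x) l) z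

omit [CompactSpace X] [MeasurableSpace X] [BorelSpace X] in
theorem symm_iter (g : X ≃ₜ X) (l : ℕ) (z : X) : g.symm^[l] (g^[l] z) = z :=
  (Function.LeftInverse.iterate (f := g) (g := g.symm) (fun x => g.symm_apply_apply x) l) z

omit [CompactSpace X] [BorelSpace X] in
theorem sep {A : Atlas X} {P : Par} {κ c₀ : ℝ} {g : X ≃ₜ X} {N K m : ℕ}
    {w : Fin (K + 1) → ℕ → A.Chart} {Φ : A.Chart} {ε' : ℝ}
    (hw : ∀ a, Loop (Edge P.α κ c₀ g) (w a) N ∧ w a 0 = Φ)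
    (hsep : ∀ a b, a ≠ b → ∃ l < N, ∀ y y', (w a l).Box y → (w b l).Box y' → ε' ≤ dist y y')
    (l : ℕ) {ω ω' : Fin m → Fin (K + 1)} (hne : ω ≠ ω') {z z' : X}
    (hz : z ∈ Fol g (conc w N l ω)) (hz' : z' ∈ Fol g (conc w N l ω')) :
    ∃ b < m, ∃ i < N, ε' ≤ dist (g^[(l + b) * N + i] z) (g^[(l + b) * N + i] z') := by
  obtain ⟨b, hb⟩ := Function.ne_iff.1 hne
  obtain ⟨i, hi, h⟩ := hsep _ _ hb
  refine ⟨b, b.2, i, hi, h _ _ ?_ ?_⟩
  · have := hz ((l + b) * N + i)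
    rwa [(conc_spec hw l ω).2.2.2 b i hi] at this
  · have := hz' ((l + b) * N + i)
    rwa [(conc_spec hw l ω').2.2.2 b i hi] at this

omit [CompactSpace X] [BorelSpace X] in
theorem fol_fwd_shift {A : Atlas X} {g : X → X} {w : ℕ → A.Chart} {N : ℕ} {z : X}
    (hz : z ∈ Fol g (fwd w N)) (k : ℕ) : g^[k * N] z ∈ Fol g (fwd w N) := by
  have h := Fol.shift hz (k * N)
  simpa only [fwd_add] using h

omit [CompactSpace X] [BorelSpace X] in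
theorem fol_bwd_shift {A : Atlas X} {g : X → X} {w : ℕ → A.Chart} {N : ℕ} {z : X}
    (hz : z ∈ Fol g (bwd w N)) (k : ℕ) : g^[k * N] z ∈ Fol g (bwd w N) := by
  have h := Fol.shift hz (k * N)
  simpa only [bwd_add] using h

omit [CompactSpace X] [BorelSpace X] in
/-- the separated homoclinic parameters -/
theorem part_a {A : Atlas X} {P : Par} {κ c₀ : ℝ} (hκ : 0 < κ) (hκ1 : κ ≤ 1)
    (hc : c₀ ≤ 1 / 4) {g : X ≃ₜ X} {s : ℝ} (hs : 0 ≤ s) {N K : ℕ}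
    {w : Fin (K + 1) → ℕ → A.Chart} {Φ : A.Chart} {ε' : ℝ} (hε' : 0 < ε')
    (hw : ∀ a, Loop (Edge P.α κ c₀ g) (w a) N ∧ w a 0 = Φ) (hK : Real.exp (s * N) ≤ K + 1)
    (hsep : ∀ a b, a ≠ b → ∃ l < N, ∀ y y', (w a l).Box y → (w b l).Box y' → ε' ≤ dist y y')
    {p : X} (hp : PerPt g (w 0) N p) {σ : ℝ → X} {ζ : ℝ} (hζ : 0 < ζ)
    (hσ : ∀ z ∈ Fol g.symm (bwd (w 0) N), dist z p < ζ → ∃ s, |s| ≤ 1 / 3 ∧ σ s = z) :
    ∃ C : ℝ, ∀ n : ℕ, ∃ S : Finset ℝ,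
      (↑S : Set ℝ) ⊆ {t | |t| ≤ 1 / 3 ∧ ∃ J : ℕ, g^[J * N] (σ t) ∈ Fol g (fwd (w 0) N)} ∧
      Real.exp (s * n - C) ≤ S.card ∧
      ∀ x ∈ S, ∀ y ∈ S, x ≠ y → ∃ j < n, ε' ≤ dist (g^[j] (σ x)) (g^[j] (σ y)) := by
  classical
  have hN : 0 < N := (hw 0).1.1
  have hL : 0 < A.L := lt_of_lt_of_le one_pos A.one_le_L
  have hθ0 : 0 ≤ 1 - κ / 3 := by linarith
  have hθ1 : 1 - κ / 3 < 1 := by linarith
  obtain ⟨l, hl⟩ := exists_pow_lt_of_lt_one (x := ζ / (2 * A.L)) (by positivity) hθ1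
  have hl' : 2 * A.L * (1 - κ / 3) ^ (l * N) < ζ := by
    have h1 : (1 - κ / 3) ^ (l * N) ≤ (1 - κ / 3) ^ l :=
      pow_le_pow_of_le_one hθ0 hθ1.le (Nat.le_mul_of_pos_right l hN)
    have h2 : (1 - κ / 3) ^ l * (2 * A.L) < ζ := (lt_div_iff₀ (by positivity)).1 hl
    have h3 := mul_le_mul_of_nonneg_left h1 (show 0 ≤ 2 * A.L by positivity)
    linarith
  have hB : BPath P.α κ c₀ g (bwd (w 0) N) := (hw 0).1.bpath
  have hpB : p ∈ Fol g.symm (bwd (w 0) N) := (hp.fol hN).2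
  have hpp : g.symm^[l * N] p = p := by
    rw [Nat.mul_comm, Function.iterate_mul]
    exact Function.iterate_fixed ((symm_iter_fixed g p N).2 hp.1) l
  have key : ∀ (m : ℕ) (ω : Fin m → Fin (K + 1)), ∃ t : ℝ, |t| ≤ 1 / 3 ∧
      g^[l * N] (σ t) ∈ Fol g (conc w N 0 ω) := by
    intro m ω
    have hcs := conc_spec hw 0 ω
    have h0 : bwd (w 0) N 0 = conc w N 0 ω 0 := by
      rw [hcs.2.1 0 (Nat.zero_le _), bwd_zero, fwd_zero]
    obtain ⟨z, hz1, hz2⟩ := inter_exists hκ hκ1 hc hB hcs.1 h0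
    have hd := BPath.contr hκ hκ1 hc hB hz1 hpB (l * N)
    rw [hpp] at hd
    obtain ⟨t, ht, hte⟩ := hσ _ (fol_bwd_shift hz1 l) (hd.trans_lt hl')
    refine ⟨t, ht, ?_⟩
    rw [hte, iter_symm]
    exact hz2
  choose t ht1 ht2 using key
  refine ⟨s * ((l + 1) * N), fun n => ?_⟩
  have hsp : ∀ ω ω' : Fin (n / N - l) → Fin (K + 1), ω ≠ ω' →
      ∃ j < n, ε' ≤ dist (g^[j] (σ (t _ ω))) (g^[j] (σ (t _ ω'))) := by
    intro ω ω' hne
    obtain ⟨b, hb, i, hi, h⟩ := sep hw hsep 0 hne (ht2 _ ω) (ht2 _ ω')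
    refine ⟨(l + b) * N + i, time_lt hb hi, ?_⟩
    rw [← Function.iterate_add_apply, ← Function.iterate_add_apply] at h
    have e : (0 + b) * N + i + l * N = (l + b) * N + i := by ring
    rwa [e] at h
  have hinj : Function.Injective (t (n / N - l)) := by
    intro ω ω' h
    by_contra hne
    obtain ⟨j, -, hj⟩ := hsp ω ω' hne
    rw [h, dist_self] at hj
    exact absurd hj (not_le.2 hε')
  refine ⟨Finset.univ.image (t (n / N - l)), ?_, ?_, ?_⟩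
  · intro x hx
    obtain ⟨ω, -, rfl⟩ := Finset.mem_image.1 (Finset.mem_coe.1 hx)
    refine ⟨ht1 _ ω, n / N - l + l, ?_⟩
    have h := Fol.shift (ht2 _ ω) ((0 + (n / N - l)) * N)
    simp only [(conc_spec hw 0 ω).2.2.1] at h
    rw [← Function.iterate_add_apply] at h
    have e : (0 + (n / N - l)) * N + l * N = (n / N - l + l) * N := by ring
    rwa [e] at h
  · rw [Finset.card_image_of_injective _ hinj, Finset.card_univ, Fintype.card_fun,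
      Fintype.card_fin, Fintype.card_fin]
    exact count hs hN hK l n
  · intro x hx y hy hxy
    obtain ⟨ω, -, rfl⟩ := Finset.mem_image.1 hx
    obtain ⟨ω', -, rfl⟩ := Finset.mem_image.1 hy
    exact hsp ω ω' fun h => hxy (by rw [h])

omit [CompactSpace X] [BorelSpace X] in
/-- a point of the local stable manifold, pushed once more around the loop, and the graphs close
to the stable graph -/
theorem near_open {A : Atlas X} {α κ c₀ : ℝ} (hκ : 0 < κ) (hκ1 : κ ≤ 1)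
    (hc : c₀ ≤ 1 / 4) {g : X ≃ₜ X} {N : ℕ} {w : ℕ → A.Chart} (hw : Loop (Edge α κ c₀ g) w N)
    {z : X} {J₀ J j : ℕ} (hz : g^[J₀ * N] z ∈ Fol g (fwd w N)) (hJ : J₀ < J) (hj : j ≤ J * N)
    {O : Set X} (hO : IsOpen O) (hzO : g^[j] z ∈ O) :
    ∃ b : ℝ, |b| < 1 ∧ ∃ ζ > 0, ∀ a : ℝ, |a - sg g (fwd w N) b| ≤ ζ →
      g.symm^[J * N - j] ((w 0).pt (a, b)) ∈ O := by
  have hN : 0 < N := hw.1
  have hF : FPath α κ c₀ g (fwd w N) := hw.fpath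
  obtain ⟨k, rfl⟩ : ∃ k, J = J₀ + k + 1 := ⟨J - J₀ - 1, by omega⟩
  obtain ⟨M, hM⟩ : ∃ M, N = M + 1 := ⟨N - 1, by omega⟩
  have hu : g^[(J₀ + k + 1) * N] z ∈ Fol g (fwd w N) := by
    have h := fol_fwd_shift hz (k + 1)
    rw [← Function.iterate_add_apply] at h
    have e : (k + 1) * N + J₀ * N = (J₀ + k + 1) * N := by ring
    rwa [e] at h
  have hsm : (w 0).Small α c₀ := by
    have h := (hF 0).1
    rwa [fwd_zero] at h
  have hb : |((w 0).co (g^[(J₀ + k + 1) * N] z)).2| < 1 := by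
    have h1 := Edge.snd_lt hκ hκ1 hc (hF (k * N + M)) (hz (k * N + M))
    have e1 : k * N + M + 1 = (k + 1) * N + 0 := by rw [hM]; ring
    rw [e1, fwd_add, fwd_zero, ← Function.iterate_add_apply,
      ← Function.iterate_succ_apply' g] at h1
    have e2 : (k * N + M + J₀ * N).succ = (J₀ + k + 1) * N := by
      rw [Nat.succ_eq_add_one, hM]; ring
    rwa [e2] at h1
  obtain ⟨u, hu_def⟩ : ∃ u, u = g^[(J₀ + k + 1) * N] z := ⟨_, rfl⟩
  rw [← hu_def] at hu hb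
  have hco := FPath.co_eq hκ hκ1 hc hF hu
  rw [fwd_zero] at hco
  have hsrc : u ∈ (A.e (w 0).i).source := by
    have h := (hu 0).1
    rwa [fwd_zero] at h
  refine ⟨((w 0).co u).2, hb, ?_⟩
  obtain ⟨b, hb_def⟩ : ∃ b, b = ((w 0).co u).2 := ⟨_, rfl⟩
  rw [← hb_def] at hb hco ⊢
  have hpt : (w 0).pt (sg g (fwd w N) b, b) = u := by
    rw [← hco, hb_def]
    exact hsm.pt_co hsrc
  have ha0 : |sg g (fwd w N) b| ≤ 1 / 20 := (FPath.sg_spec hκ hκ1 hc hF hb.le).1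
  have hcont : ContinuousAt (fun a : ℝ => g.symm^[(J₀ + k + 1) * N - j] ((w 0).pt (a, b)))
      (sg g (fwd w N) b) := by
    have h1 : ContinuousAt (w 0).pt (sg g (fwd w N) b, b) := by
      refine (hsm.continuousOn_pt hc).continuousAt (closedBall_mem_nhds_of_mem ?_)
      rw [mem_ball_zero_iff, Prod.norm_def]
      simp only [Real.norm_eq_abs]
      exact max_lt (by linarith) (by linarith)
    have h2 : ContinuousAt (fun a : ℝ => (a, b)) (sg g (fwd w N) b) := by fun_prop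
    have h3 := ContinuousAt.comp (f := fun a : ℝ => (a, b)) h1 h2
    exact (g.symm.continuous.iterate _).continuousAt.comp h3
  have hval : g.symm^[(J₀ + k + 1) * N - j] ((w 0).pt (sg g (fwd w N) b, b)) ∈ O := by
    rw [hpt, hu_def]
    have e : (J₀ + k + 1) * N = ((J₀ + k + 1) * N - j) + j := by omega
    rw [show g^[(J₀ + k + 1) * N] z = g^[(J₀ + k + 1) * N - j] (g^[j] z) by
      rw [← Function.iterate_add_apply, ← e], symm_iter]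
    exact hzO
  obtain ⟨ζ, hζ, hζ'⟩ := Metric.nhds_basis_closedBall.mem_iff.1
    (hcont.preimage_mem_nhds (hO.mem_nhds hval))
  refine ⟨ζ, hζ, fun a ha => hζ' ?_⟩
  rw [mem_closedBall, Real.dist_eq]
  exact ha

/-- the separated stable arcs -/
theorem part_b {A : Atlas X} {P : Par} {κ c₀ : ℝ} (hκ : 0 < κ) (hκ1 : κ ≤ 1)
    (hc : c₀ ≤ 1 / 4) {g : X ≃ₜ X} (hg : A.Good P g) {s : ℝ} (hs : 0 ≤ s) {N K : ℕ}
    {w : Fin (K + 1) → ℕ → A.Chart} {Φ : A.Chart} {ε' : ℝ}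
    (hw : ∀ a, Loop (Edge P.α κ c₀ g) (w a) N ∧ w a 0 = Φ) (hK : Real.exp (s * N) ≤ K + 1)
    (hsep : ∀ a b, a ≠ b → ∃ l < N, ∀ y y', (w a l).Box y → (w b l).Box y' → ε' ≤ dist y y')
    {p : X} (hp : PerPt g (w 0) N p) {x y : X} {J₁ J₂ : ℕ}
    (hx : g^[J₁ * N] x ∈ Fol g (fwd (w 0) N)) (hy : g^[J₂ * N] y ∈ Fol g (fwd (w 0) N)) (j : ℕ)
    {O₁ O₂ : Set X} (h1 : IsOpen O₁) (h2 : IsOpen O₂) (hx1 : g^[j] x ∈ O₁) (hy2 : g^[j] y ∈ O₂) :
    ∃ C θ C' : ℝ, 0 < θ ∧ θ < 1 ∧ ∀ n : ℕ, ∃ (K : ℕ) (Z : Fin K → Set X),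
        Real.exp (s * n - C') ≤ K ∧
        (∀ a, IsPreconnected (Z a) ∧ (Z a ∩ O₁).Nonempty ∧ (Z a ∩ O₂).Nonempty ∧
          ∀ z ∈ Z a, A.SPoint g p C θ z) ∧
        ∀ a b, a ≠ b → ∀ z ∈ Z a, ∀ w ∈ Z b, ∃ j < n, ε' ≤ dist (g^[j] z) (g^[j] w) := by
  have hN : 0 < N := (hw 0).1.1
  have hF : FPath P.α κ c₀ g (fwd (w 0) N) := (hw 0).1.fpath
  have hsm : (w 0 0).Small P.α c₀ := by
    have h := (hF 0).1
    rwa [fwd_zero] at h
  have hj : j ≤ (J₁ + J₂ + j + 1) * N :=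
    (show j ≤ J₁ + J₂ + j + 1 by omega).trans (Nat.le_mul_of_pos_right _ hN)
  obtain ⟨b₁, hb₁, ζ₁, hζ₁, hO₁⟩ := near_open hκ hκ1 hc (hw 0).1 hx
    (show J₁ < J₁ + J₂ + j + 1 by omega) hj h1 hx1
  obtain ⟨b₂, hb₂, ζ₂, hζ₂, hO₂⟩ := near_open hκ hκ1 hc (hw 0).1 hy
    (show J₂ < J₁ + J₂ + j + 1 by omega) hj h2 hy2
  obtain ⟨l, hl⟩ : ∃ l, l = (J₁ + J₂ + j + 1) * N - j := ⟨_, rfl⟩
  rw [← hl] at hO₁ hO₂
  obtain ⟨l', hl'⟩ := graph_close (α := P.α) A hκ hκ1 hc (lt_min hζ₁ hζ₂)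
  obtain ⟨C, hC⟩ := spoint_graph hκ hκ1 hc hg (hw 0).1 hp l
  refine ⟨C, 1 - κ / 3, s * ((((l + l' : ℕ) : ℝ) + 1) * N), by linarith, by linarith, fun n => ?_⟩
  have h0 : ∀ ω : Fin (n / N - (l + l')) → Fin (K + 1), conc w N l' ω 0 = w 0 0 := by
    intro ω
    rw [(conc_spec hw l' ω).2.1 0 (Nat.zero_le _), fwd_zero]
  have hclose : ∀ ω : Fin (n / N - (l + l')) → Fin (K + 1), ∀ b, |b| ≤ 1 →
      |sg g (conc w N l' ω) b - sg g (fwd (w 0) N) b| ≤ min ζ₁ ζ₂ := by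
    intro ω
    refine (hl' g _ _ fun i hi => ?_).1 (conc_spec hw l' ω).1 hF
    exact (conc_spec hw l' ω).2.1 i (hi.trans (Nat.le_mul_of_pos_right _ hN))
  refine ⟨(K + 1) ^ (n / N - (l + l')), fun a => (fun b : ℝ => g.symm^[l] ((w 0 0).pt
    (sg g (conc w N l' (finFunctionFinEquiv.symm a)) b, b))) '' Ioo (-1) 1,
    count hs hN hK (l + l') n, fun a => ⟨?_, ?_, ?_, ?_⟩, ?_⟩
  · refine isPreconnected_Ioo.image _ ?_
    have hP := (conc_spec hw l' (finFunctionFinEquiv.symm a)).1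
    have c1 : ContinuousOn (fun b : ℝ => (sg g (conc w N l' (finFunctionFinEquiv.symm a)) b, b))
        (Ioo (-1) 1) :=
      ((FPath.sg_cont hκ hκ1 hc hP).mono Ioo_subset_Icc_self).prodMk continuousOn_id
    have c2 := (hsm.continuousOn_pt hc).comp c1 (fun b hb => by
      have hb' : |b| ≤ 1 := abs_le.2 ⟨hb.1.le, hb.2.le⟩
      have h3 := (FPath.sg_spec hκ hκ1 hc hP hb').1
      rw [mem_closedBall_zero_iff, Prod.norm_def]
      simp only [Real.norm_eq_abs]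
      exact max_le (by linarith) (by linarith))
    exact (g.symm.continuous.iterate l).comp_continuousOn c2
  · exact ⟨_, ⟨b₁, abs_lt.1 hb₁, rfl⟩, hO₁ _ ((hclose _ b₁ hb₁.le).trans (min_le_left _ _))⟩
  · exact ⟨_, ⟨b₂, abs_lt.1 hb₂, rfl⟩, hO₂ _ ((hclose _ b₂ hb₂.le).trans (min_le_right _ _))⟩
  · rintro _ ⟨b, hb, rfl⟩
    have hcs := conc_spec hw l' (finFunctionFinEquiv.symm a)
    have h := hC _ _ hcs.1 (h0 _) hcs.2.2.1 b (abs_lt.2 hb)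
    rwa [h0] at h
  · rintro a a' hne _ ⟨b, hb, rfl⟩ _ ⟨b', hb', rfl⟩
    have hne' : finFunctionFinEquiv.symm a ≠ finFunctionFinEquiv.symm a' :=
      fun h => hne (finFunctionFinEquiv.symm.injective h)
    have hz := (FPath.sg_spec hκ hκ1 hc (conc_spec hw l' (finFunctionFinEquiv.symm a)).1
      (abs_le.2 ⟨hb.1.le, hb.2.le⟩)).2
    have hz' := (FPath.sg_spec hκ hκ1 hc (conc_spec hw l' (finFunctionFinEquiv.symm a')).1
      (abs_le.2 ⟨hb'.1.le, hb'.2.le⟩)).2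
    rw [h0] at hz hz'
    obtain ⟨c, hcm, i, hi, h⟩ := sep hw hsep l' hne' hz hz'
    refine ⟨(l' + c) * N + i + l, ?_, ?_⟩
    · have h3 := time_lt hcm hi
      have h4 : l ≤ l * N := Nat.le_mul_of_pos_right _ hN
      have h5 : (l + l' + c) * N = l * N + (l' + c) * N := by ring
      omega
    · simp only [Function.iterate_add_apply _ _ l, iter_symm]
      exact h

end KHorseAux

theorem horse_of_loops {A : Atlas X} {P : Par} {κ c₀ : ℝ} (hκ : 0 < κ) (hκ1 : κ ≤ 1)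
    (hc : c₀ ≤ 1 / 4) {g : X ≃ₜ X} (hg : A.Good P g) {s : ℝ} (hs : 0 ≤ s) {N K : ℕ}
    {w : Fin (K + 1) → ℕ → A.Chart} {Φ : A.Chart} {ε' : ℝ} (hε' : 0 < ε')
    (hw : ∀ a, Loop (Edge P.α κ c₀ g) (w a) N ∧ w a 0 = Φ) (hK : Real.exp (s * N) ≤ K + 1)
    (hsep : ∀ a b, a ≠ b → ∃ l < N, ∀ y y', (w a l).Box y → (w b l).Box y' → ε' ≤ dist y y')
    {p : X} (hp : PerPt g (w 0) N p) {ε : ℝ} (hε : 0 < ε) :
    ∃ (σ : ℝ → X) (H : Set ℝ), A.Horse P ε g s p N σ H ε' := by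
  obtain ⟨σ, hσ, ζ, hζ, hfill⟩ := Loop.ucurve hκ hκ1 hc hg (hw 0).1 hp hε
  refine ⟨σ, {t | |t| ≤ 1 / 3 ∧ ∃ J : ℕ, g^[J * N] (σ t) ∈ Fol g (fwd (w 0) N)}, (hw 0).1.1,
    hp.1, Loop.hyp hκ hκ1 hc hg (hw 0).1 hp, hε', hσ, fun x hx => hx.1,
    KHorseAux.part_a hκ hκ1 hc hs hε' hw hK hsep hp hζ hfill, ?_⟩
  rintro x ⟨-, J₁, hx⟩ y ⟨-, J₂, hy⟩ j O₁ O₂ h1 h2 hx1 hy2
  exact KHorseAux.part_b hκ hκ1 hc hg hs hw hK hsep hp hx hy j h1 h2 hx1 hy2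

/-- Katok horseshoe -/
theorem exists_horse (A : Atlas X) {P : Par} {g : X ≃ₜ X} (hg : A.Good P g) {μ : Measure X}
    [IsProbabilityMeasure μ] (hμ : Ergodic g μ) {s : ℝ} (hs : 0 ≤ s)
    (h : ENNReal.ofReal s < ksEnt g μ) {ε : ℝ} (hε : 0 < ε) :
    ∃ (p : X) (N : ℕ) (σ : ℝ → X) (H : Set ℝ) (ε' : ℝ), A.Horse P ε g s p N σ H ε' ∧
      A.Rel g μ (perMeas g p N) := by
  obtain ⟨κ, c₀, hκ, hκ1, hc, S, j, N, K, w, ε', hε', hj, hw, hK, hsep⟩ := kloops A hg hμ hs h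
  obtain ⟨p, hp⟩ := Loop.exists_perPt hκ hκ1 hc (hw 0).1
  obtain ⟨σ, H, hH⟩ := horse_of_loops hκ hκ1 hc hg hs hε' hw hK hsep hp hε
  exact ⟨p, N, σ, H, ε', hH, PSys.rel hκ hκ1 hc hg S
    (hyp_of_pos A hg hμ (lt_of_le_of_lt bot_le h)) hj (hw 0).1 (hw 0).2 hp hH.2.2.1⟩

end Atlas

end Pool.Agent.Lib.MP_901be3_an.Hd
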