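import Pool.Agent.Lib.MP_901be3_an.Hd.Defs

namespace Pool.Agent.Lib.MP_901be3_an.Hd

open MeasureTheory Filter Topology Metric Set
open scoped ENNReal

namespace PerMeasAux

theorem sum_shift {X β : Type*} [AddCommMonoid β] (f : X → β) {T : X → X} {q : X} {N : ℕ}
    (hq : T^[N] q = q) :
    ∑ i ∈ Finset.range N, f (T^[i] (T q)) = ∑ i ∈ Finset.range N, f (T^[i] q) := by
  cases N with
  | zero => rfl
  | succ n =>
    rw [Finset.sum_range_succ, Finset.sum_range_succ' (fun i => f (T^[i] q)),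
      ← Function.iterate_succ_apply T n q, hq]
    rfl

theorem fix_iter {X : Type*} {T : X → X} {q : X} {N : ℕ} (hq : T^[N] q = q) (i : ℕ) :
    T^[N] (T^[i] q) = T^[i] q := by
  rw [← Function.iterate_add_apply, add_comm, Function.iterate_add_apply, hq]

theorem fix_mul {X : Type*} {T : X → X} {q : X} {N : ℕ} (hq : T^[N] q = q) (k : ℕ) :
    T^[N * k] q = q := by
  rw [Function.iterate_mul]
  exact Function.iterate_fixed hq k

theorem sum_mul {X β : Type*} [AddCommMonoid β] (f : X → β) {T : X → X} {q : X} {N : ℕ}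
    (hq : T^[N] q = q) (k : ℕ) :
    ∑ i ∈ Finset.range (N * k), f (T^[i] q) = k • ∑ i ∈ Finset.range N, f (T^[i] q) := by
  induction k with
  | zero => simp
  | succ k ih =>
    rw [Nat.mul_succ, Finset.sum_range_add, ih, succ_nsmul]
    congr 1
    refine Finset.sum_congr rfl fun i _ => ?_
    rw [add_comm, Function.iterate_add_apply, fix_mul hq]

theorem shift {X : Type*} [MeasurableSpace X] {T : X → X} {q : X} {N : ℕ} (hq : T^[N] q = q)
    (i : ℕ) : perMeas T (T^[i] q) N = perMeas T q N := by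
  induction i with
  | zero => rfl
  | succ i ih =>
    rw [← ih, Function.iterate_succ_apply', perMeas, perMeas,
      sum_shift Measure.dirac (fix_iter hq i)]

theorem mul {X : Type*} [MeasurableSpace X] {T : X → X} {q : X} {N k : ℕ} (hq : T^[N] q = q)
    (hk : 0 < k) : perMeas T q (N * k) = perMeas T q N := by
  have h0 : (k : ℝ≥0∞) ≠ 0 := Nat.cast_ne_zero.2 hk.ne'
  have h1 : (k : ℝ≥0∞) ≠ ⊤ := ENNReal.natCast_ne_top k
  rw [perMeas, perMeas, sum_mul Measure.dirac hq, ← Nat.cast_smul_eq_nsmul ℝ≥0∞, smul_smul,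
    Nat.cast_mul, ENNReal.mul_inv (Or.inr h1) (Or.inr h0), mul_assoc,
    ENNReal.inv_mul_cancel h0 h1, mul_one]

theorem apply {X : Type*} [MeasurableSpace X] [MeasurableSingletonClass X] (T : X → X) (q : X)
    (N : ℕ) (s : Set X) :
    perMeas T q N s = (N : ℝ≥0∞)⁻¹ * ∑ i ∈ Finset.range N, s.indicator 1 (T^[i] q) := by
  rw [perMeas, Measure.smul_apply, Measure.finsetSum_apply, smul_eq_mul]
  simp only [Measure.dirac_apply]

theorem symm_iter {X : Type*} [TopologicalSpace X] (g : X ≃ₜ X) (n : ℕ) (z : X) :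
    g.symm^[n] (g^[n] z) = z :=
  (Function.LeftInverse.iterate g.symm_apply_apply n) z

theorem iter_symm {X : Type*} [TopologicalSpace X] (g : X ≃ₜ X) (n : ℕ) (z : X) :
    g^[n] (g.symm^[n] z) = z :=
  (Function.LeftInverse.iterate g.apply_symm_apply n) z

end PerMeasAux

variable {X : Type*} [MetricSpace X] [MeasurableSpace X] [BorelSpace X]

theorem perMeas_prob (T : X → X) (q : X) {N : ℕ} (hN : 0 < N) :
    IsProbabilityMeasure (perMeas T q N) := by
  constructor
  rw [PerMeasAux.apply]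
  simp only [indicator_univ, Pi.one_apply, Finset.sum_const, Finset.card_range, nsmul_eq_mul,
    mul_one]
  exact ENNReal.inv_mul_cancel (Nat.cast_ne_zero.2 hN.ne') (ENNReal.natCast_ne_top N)

theorem perMeas_ergodic {T : X → X} (hT : Measurable T) {q : X} {N : ℕ} (hN : 0 < N)
    (hq : T^[N] q = q) : Ergodic T (perMeas T q N) := by
  refine ⟨⟨hT, ?_⟩, ⟨fun s _ hs => ?_⟩⟩
  · ext s hs
    rw [Measure.map_apply hT hs, PerMeasAux.apply, PerMeasAux.apply,
      ← PerMeasAux.sum_shift (s.indicator 1) hq]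
    congr 1
    refine Finset.sum_congr rfl fun i _ => ?_
    rw [← Function.iterate_succ_apply T i q, Function.iterate_succ_apply']
    rfl
  · have key : ∀ i, T^[i] q ∈ s ↔ q ∈ s := fun i => by
      induction i with
      | zero => rfl
      | succ i ih => rw [Function.iterate_succ_apply', ← mem_preimage, hs, ih]
    have hae : ∀ p : X → Prop, (∀ i, p (T^[i] q)) → ∀ᵐ x ∂perMeas T q N, p x := fun p h => by
      rw [ae_iff, PerMeasAux.apply, Finset.sum_eq_zero, mul_zero]
      intro i _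
      exact indicator_of_notMem (s := {a | ¬ p a}) (fun h' => h' (h i)) _
    rw [eventuallyConst_set]
    by_cases h : q ∈ s
    · exact Or.inl (hae _ fun i => (key i).2 h)
    · exact Or.inr (hae _ fun i h' => h ((key i).1 h'))

theorem perMeas_ae {T : X → X} {q : X} {N : ℕ} {p : X → Prop} (h : ∀ i < N, p (T^[i] q)) :
    ∀ᵐ x ∂perMeas T q N, p x := by
  rw [ae_iff, PerMeasAux.apply, Finset.sum_eq_zero, mul_zero]
  intro i hi
  exact indicator_of_notMem (s := {a | ¬ p a}) (fun h' => h' (h i (Finset.mem_range.1 hi))) _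

theorem perMeas_singleton_ne {T : X → X} {q : X} {N : ℕ} (hN : 0 < N) (hq : T^[N] q = q)
    (i : ℕ) : perMeas T q N {T^[i] q} ≠ 0 := by
  rw [← PerMeasAux.shift hq i, PerMeasAux.apply]
  refine mul_ne_zero (ENNReal.inv_ne_zero.2 (ENNReal.natCast_ne_top N)) fun h => ?_
  have h1 := Finset.sum_eq_zero_iff.1 h 0 (Finset.mem_range.2 hN)
  simp at h1

theorem perMeas_eq {T : X → X} {p q : X} {N N' : ℕ} (hN : 0 < N) (hN' : 0 < N')
    (hp : T^[N] p = p) (hq : T^[N'] q = q) {i j : ℕ} (h : T^[i] p = T^[j] q) :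
    perMeas T p N = perMeas T q N' := by
  rw [← PerMeasAux.shift hp i, ← PerMeasAux.shift hq j,
    ← PerMeasAux.mul (PerMeasAux.fix_iter hp i) hN', ← PerMeasAux.mul (PerMeasAux.fix_iter hq j) hN,
    h, mul_comm]

theorem perMeas_symm (g : X ≃ₜ X) {q : X} {N : ℕ} (hq : g^[N] q = q) :
    perMeas g.symm q N = perMeas g q N := by
  rw [perMeas, perMeas, ← PerMeasAux.sum_shift Measure.dirac hq,
    ← Finset.sum_range_reflect (fun i => Measure.dirac (g^[i] (g q))) N]
  congr 1
  refine Finset.sum_congr rfl fun i hi => ?_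
  have hi' := Finset.mem_range.1 hi
  have h1 : g^[i] (g^[N - 1 - i] (g q)) = q := by
    rw [← Function.iterate_succ_apply g (N - 1 - i) q, ← Function.iterate_add_apply]
    have h2 : i + (N - 1 - i).succ = N := by omega
    rw [h2, hq]
  rw [← PerMeasAux.symm_iter g i (g^[N - 1 - i] (g q)), h1]

omit [MeasurableSpace X] [BorelSpace X] in
theorem symm_iter_fixed (g : X ≃ₜ X) (z : X) (N : ℕ) : g.symm^[N] z = z ↔ g^[N] z = z := by
  constructor
  · intro h
    have h1 := PerMeasAux.iter_symm g N z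
    rwa [h] at h1
  · intro h
    have h1 := PerMeasAux.symm_iter g N z
    rwa [h] at h1

omit [MeasurableSpace X] [BorelSpace X] in
theorem UConv_of_shift [CompactSpace X] {g : X → X} {b : ℝ → X} {y : X} (l : ℕ) {C θ : ℝ}
    (hθ0 : 0 < θ) (hθ : θ < 1)
    (h : ∀ᶠ s in 𝓝 (0 : ℝ), ∀ n, dist (g^[n + l] (b s)) (g^[n + l] y) ≤ C * θ ^ n) :
    UConv g b y := by
  obtain ⟨D, hD⟩ := isBounded_iff.1 (isCompact_univ (X := X)).isBounded
  have hD0 : 0 ≤ D := dist_nonneg.trans (hD (mem_univ y) (mem_univ y))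
  have hl : 0 < θ ^ l := pow_pos hθ0 l
  refine ⟨(|C| + D) / θ ^ l, θ, hθ0, hθ, h.mono fun s hs n => ?_⟩
  rw [div_mul_eq_mul_div, le_div_iff₀ hl]
  have hn : 0 < θ ^ n := pow_pos hθ0 n
  rcases le_total l n with hln | hln
  · obtain ⟨m, rfl⟩ : ∃ m, n = m + l := ⟨n - l, by omega⟩
    have h1 := mul_le_mul_of_nonneg_right (hs m) hl.le
    have h2 := mul_le_mul_of_nonneg_right (show C ≤ |C| + D by linarith [le_abs_self C]) hn.le
    rw [pow_add] at h2 ⊢
    linarith
  · have h1 : θ ^ l ≤ θ ^ n := pow_le_pow_of_le_one hθ0.le hθ.le hln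
    exact mul_le_mul ((hD (mem_univ _) (mem_univ _)).trans (by linarith [abs_nonneg C])) h1 hl.le
      (by positivity)

omit [MeasurableSpace X] [BorelSpace X] in
theorem UConv.asym {g : X → X} {b : ℝ → X} {p : X} {j : ℕ} (h : UConv g b (g^[j] p)) :
    Asym g (b 0) p := by
  obtain ⟨C, θ, h0, h1, h⟩ := h
  refine ⟨j, squeeze_zero (fun _ => dist_nonneg) h.self_of_nhds ?_⟩
  simpa using (tendsto_pow_atTop_nhds_zero_of_lt_one h0.le h1).const_mul C

omit [MeasurableSpace X] [BorelSpace X] in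
theorem orbit_eq_of_asym {T : X → X} {p q z : X} {N N' : ℕ} (hN : 0 < N) (hN' : 0 < N')
    (hp : T^[N] p = p) (hq : T^[N'] q = q) (h1 : Asym T z p) (h2 : Asym T z q) :
    ∃ i j : ℕ, T^[i] p = T^[j] q := by
  obtain ⟨i, hi⟩ := h1
  obtain ⟨j, hj⟩ := h2
  refine ⟨i, j, ?_⟩
  have h3 : Tendsto (fun n => dist (T^[n] (T^[i] p)) (T^[n] (T^[j] q))) atTop (𝓝 0) := by
    refine squeeze_zero (fun _ => dist_nonneg) (fun n => dist_triangle_left _ _ (T^[n] z)) ?_
    simpa using hi.add hj
  have h4 : Tendsto (fun k : ℕ => N * N' * k) atTop atTop :=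
    tendsto_atTop_mono (fun k => Nat.le_mul_of_pos_left k (Nat.mul_pos hN hN')) tendsto_id
  have h5 := h3.comp h4
  have h6 : (fun n => dist (T^[n] (T^[i] p)) (T^[n] (T^[j] q))) ∘ (fun k : ℕ => N * N' * k) =
      fun _ => dist (T^[i] p) (T^[j] q) := by
    funext k
    have e1 : T^[N * N' * k] (T^[i] p) = T^[i] p := by
      rw [mul_assoc]
      exact PerMeasAux.fix_mul (PerMeasAux.fix_iter hp i) _
    have e2 : T^[N * N' * k] (T^[j] q) = T^[j] q := by
      rw [mul_comm N, mul_assoc]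
      exact PerMeasAux.fix_mul (PerMeasAux.fix_iter hq j) _
    simp only [Function.comp_apply, e1, e2]
  rw [h6] at h5
  exact dist_eq_zero.1 (tendsto_nhds_unique tendsto_const_nhds h5)

end Pool.Agent.Lib.MP_901be3_an.Hd
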