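import Pool.Agent.Lib.MP_901be3_an.Hd.MSard
import Pool.Agent.Lib.MP_901be3_an.Hd.PerMeas
import Pool.Agent.Lib.MP_901be3_an.Hd.EntMore

namespace Pool.Agent.Lib.MP_901be3_an.Hd

open MeasureTheory Filter Topology Metric Set
open scoped ENNReal

variable {X : Type*} [MetricSpace X] [CompactSpace X] [MeasurableSpace X] [BorelSpace X]

namespace MConfAux

omit [CompactSpace X] [MeasurableSpace X] [BorelSpace X] in
theorem symm_iter_iter (g : X ≃ₜ X) (a : ℕ) (z : X) : g.symm^[a] (g^[a] z) = z :=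
  Function.LeftInverse.iterate g.symm_apply_apply a z

omit [BorelSpace X] in
theorem uconv_curve {A : Atlas X} {P : Par} {ε : ℝ} {g : X ≃ₜ X} {p : X} {σ : ℝ → X}
    (hσ : A.UCurve P ε g p σ) (a : ℕ) {c : ℝ → ℝ} (hc : ContinuousAt c 0) (h0 : c 0 ∈ II) :
    UConv g.symm (fun t => g^[a] (σ (c t))) (g^[a] p) := by
  obtain ⟨C, θ, h1, h2, h3⟩ := hσ.2
  refine UConv_of_shift (C := C) a h1 h2 ?_
  filter_upwards [hc.eventually (isOpen_Ioo.mem_nhds h0)] with t ht n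
  rw [Function.iterate_add_apply, Function.iterate_add_apply, symm_iter_iter, symm_iter_iter]
  exact h3 _ ht n

omit [CompactSpace X] [MeasurableSpace X] [BorelSpace X] in
theorem iter_eq_symm_iter {g : X ≃ₜ X} {p : X} {N : ℕ} (hN : 0 < N) (hp : g^[N] p = p) (m : ℕ) :
    ∃ j, g^[m] p = g.symm^[j] p := by
  refine ⟨(N - 1) * m, ?_⟩
  have h1 : g^[(N - 1) * m] (g^[m] p) = p := by
    rw [← Function.iterate_add_apply, ← add_one_mul, show N - 1 + 1 = N by omega,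
      Function.iterate_mul]
    exact Function.iterate_fixed hp m
  conv_rhs => rw [← h1, symm_iter_iter]

theorem par_of_det {w v : V} (hv : v ≠ 0) (h : det w v = 0) : ∃ c : ℝ, w = c • v := by
  rw [det] at h
  by_cases h1 : v.1 = 0
  · have h2 : v.2 ≠ 0 := fun h2 => hv (Prod.ext h1 h2)
    refine ⟨w.2 / v.2, Prod.ext ?_ ?_⟩
    · rw [h1, mul_zero, sub_zero] at h
      simp [h1, (mul_eq_zero.1 h).resolve_right h2]
    · simp [h2]
  · refine ⟨w.1 / v.1, Prod.ext ?_ ?_⟩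
    · simp [h1]
    · simp only [Prod.smul_snd, smul_eq_mul]
      field_simp
      linear_combination -h

omit [BorelSpace X] in
theorem card_le {A : Atlas X} {P : Par} {g : X ≃ₜ X} (hg : A.Good P g) {p₀ : ℕ} (hp₀ : 0 < p₀)
    {ε δ Y K η₀ ε' : ℝ} (hδ : 0 < δ) (hY : 1 ≤ Y) (hK : 1 ≤ K)
    (hC : A.Count P ε δ Y K 0 η₀ g^[p₀]) {p q : X} {σ : ℝ → X} (hσ : A.UCurve P ε g q σ)
    (hT : ∀ i j : ℕ, ¬A.Tr g (g^[j] q) (g^[i] p)) (a : ℕ) {C θ : ℝ} (h0 : 0 < θ) (h1 : θ < 1)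
    (hε : 0 < ε') : ∃ C' : ℝ, ∀ (n k : ℕ) (z : Fin k → X) (T : Finset (Fin k)),
      (∀ c ∈ T, A.SPoint g p C θ (z c) ∧ ∃ s, |s| ≤ 1 / 3 ∧ z c = g^[a] (σ s)) →
      (∀ c c', c ≠ c' → ∃ j < n, ε' ≤ dist (g^[j] (z c)) (g^[j] (z c'))) →
      (T.card : ℝ) ≤ C' * Y ^ (n / p₀) := by
  classical
  obtain ⟨i, hi, -⟩ := hσ.1
  obtain ⟨C', hC'⟩ := Atlas.msard hg hp₀ hδ hY hK hC ⟨i, hi⟩ a (C := C) h0 h1 hε
  refine ⟨C', fun n k z T hz hsep => ?_⟩
  choose! s hs hzs using fun c hc => (hz c hc).2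
  have inj : Set.InjOn s T := fun c hc c' hc' h => by
    by_contra hne
    obtain ⟨j, -, hj⟩ := hsep c c' hne
    rw [hzs c hc, hzs c' hc', h, dist_self] at hj
    exact hj.not_gt hε
  rw [← Finset.card_image_of_injOn inj]
  refine hC' n _ (fun x hx => ?_) fun x hx y hy hne => ?_
  · obtain ⟨c, hc, rfl⟩ := Finset.mem_image.1 hx
    refine ⟨hs c hc, fun w hw l => ?_⟩
    obtain ⟨b, v, b0, hb, hv, ⟨j, hj⟩, hd⟩ := (hz c hc).1
    rw [hzs c hc] at b0 hb hd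
    have hdet : det w v = 0 := by
      by_contra hne
      refine hT j a ⟨_, _, b, w, v, by simp [b0], hw, hb, hne, ?_, hj⟩
      refine uconv_curve hσ a (c := fun t => s c + t) (by fun_prop) ?_
      have := abs_le.1 (hs c hc)
      constructor <;> linarith [this.1, this.2]
    obtain ⟨r, rfl⟩ := par_of_det hv hdet
    rw [map_smul, norm_smul, norm_smul, mul_left_comm]
    exact mul_le_mul_of_nonneg_left (hd l) (norm_nonneg r)
  · obtain ⟨c, hc, rfl⟩ := Finset.mem_image.1 hx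
    obtain ⟨c', hc', rfl⟩ := Finset.mem_image.1 hy
    obtain ⟨j, hj, h⟩ := hsep c c' fun h => hne (h ▸ rfl)
    refine ⟨j, hj, ?_⟩
    rwa [Function.iterate_add_apply, Function.iterate_add_apply, ← hzs c hc, ← hzs c' hc']

end MConfAux

open MConfAux

namespace Atlas

/-- two hyperbolic periodic orbits with transverse intersections in both directions -/
theorem rel_of_tr {A : Atlas X} {g : X ≃ₜ X} {p q : X} {N N' : ℕ} (hN : 0 < N) (hN' : 0 < N')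
    (hp : g^[N] p = p) (hq : g^[N'] q = q) (hp' : A.Hyp g (perMeas g p N))
    (hq' : A.Hyp g (perMeas g q N')) {i j i' j' : ℕ} (h1 : A.Tr g (g^[i] p) (g^[j] q))
    (h2 : A.Tr g (g^[j'] q) (g^[i'] p)) : A.Rel g (perMeas g p N) (perMeas g q N') :=
  ⟨hp', hq', ⟨{g^[i] p}, {g^[j] q}, measurableSet_singleton _, measurableSet_singleton _,
    perMeas_singleton_ne hN hp i, perMeas_singleton_ne hN' hq j, fun _ hx _ hy => hx ▸ hy ▸ h1⟩,
    ⟨{g^[j'] q}, {g^[i'] p}, measurableSet_singleton _, measurableSet_singleton _,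
    perMeas_singleton_ne hN' hq j', perMeas_singleton_ne hN hp i', fun _ hx _ hy => hx ▸ hy ▸ h2⟩⟩

/-- a geometric time in the trap gives a transverse intersection -/
theorem tr_of_geo {A : Atlas X} {P : Par} {g : X ≃ₜ X} {p₀ : ℕ} {ε δ : ℝ} {p q : X} {N N' : ℕ}
    (hN : 0 < N) (hN' : 0 < N') (hp : g^[N] p = p) (hq : g^[N'] q = q) {σ : ℝ → X}
    (hσ : A.UCurve P ε g p σ) {O : Set X} (hO : A.Cross P.α ε δ g q O)
    (hne : perMeas g p N ≠ perMeas g q N') {x : ℝ} {a : ℕ} (ha : a ∈ A.Geo P ε δ g^[p₀] σ x)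
    (hx : (g^[p₀])^[a] (σ x) ∈ O) : ∃ i j : ℕ, A.Tr g (g^[i] p) (g^[j] q) := by
  obtain ⟨ρ, ⟨hρ, hxρ, -⟩, i, hi, hd⟩ := ha
  obtain ⟨τ, hτ, h⟩ := hO i _ hi.1 hi.2.hol hd (by simpa [rp] using hx)
  have hu : UConv g.symm (fun t => ((g^[p₀])^[a] ∘ rp σ x ρ) (τ + t)) (g^[p₀ * a] p) := by
    have := uconv_curve hσ (p₀ * a) (c := fun t => x + ρ * (τ + t)) (by fun_prop) (by
      have h1 := abs_le.1 (show |x| ≤ 1 - ρ by linarith)
      have h2 := mul_lt_mul_of_pos_left hτ.1 hρ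
      have h3 := mul_lt_mul_of_pos_left hτ.2 hρ
      constructor <;> linarith [h1.1, h1.2])
    rwa [Function.iterate_mul] at this ⊢
  rcases h with h | ⟨i', b, va, vb, j, b0, h1, h2, h3, h4⟩
  · obtain ⟨j, hj⟩ := iter_eq_symm_iter hN hp (p₀ * a)
    rw [hj] at hu
    have h1 := hu.asym
    simp only [add_zero] at h1
    have hp' := (symm_iter_fixed g p N).2 hp
    have hq' := (symm_iter_fixed g q N').2 hq
    obtain ⟨k, l, hkl⟩ := orbit_eq_of_asym hN hN' hp' hq' h1 h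
    have h2 := perMeas_eq hN hN' hp' hq' hkl
    rw [perMeas_symm g hp, perMeas_symm g hq] at h2
    exact (hne h2).elim
  · exact ⟨p₀ * a, j, i', _, b, va, vb, by simp [b0], h1, h2, h3, hu, h4⟩

/-- confinement of the horseshoe in the trap -/
theorem mconf {A : Atlas X} {P : Par} {g : X ≃ₜ X} (hg : A.Good P g) {p₀ : ℕ} (hp₀ : 0 < p₀)
    {ε δ Y K η₀ η s ε' : ℝ} (hδ : 0 < δ) (hY : 1 ≤ Y) (hK : 1 ≤ K)
    (hC : A.Count P ε δ Y K 0 η₀ g^[p₀]) (hs : Y < Real.exp (s * p₀)) {p q : X} {N N' : ℕ}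
    {σ : ℝ → X} {H : Set ℝ} (hH : A.Horse P ε g s p N σ H ε') (hN' : 0 < N')
    (hq : g^[N'] q = q) (hq' : A.Hyp g (perMeas g q N')) {O : Set X}
    (hO : A.Trap P ε δ η g q O) (hne : ¬ A.Same g (perMeas g p N) (perMeas g q N')) :
    ∀ x ∈ H, ∀ y ∈ H, ∀ a ∈ A.Geo P ε δ g^[p₀] σ x, (g^[p₀])^[a] (σ x) ∈ O →
      dist ((g^[p₀])^[a] (σ x)) ((g^[p₀])^[a] (σ y)) ≤ η := by
  classical
  intro x hx y hy a ha hxO
  obtain ⟨hN, hp, hp', hε', hσ, -, -, hZ⟩ := hH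
  obtain ⟨hX, Q, σ', a₁, a₂, hQ, hOQ, hd, hσ', hf⟩ := hO
  by_cases hyQ : (g^[p₀])^[a] (σ y) ∈ Q
  · exact hd _ (interior_subset (hOQ hxO)) _ hyQ
  exfalso
  have hne' : perMeas g p N ≠ perMeas g q N' := fun h => hne (h ▸ Relation.EqvGen.refl _)
  obtain ⟨i, j, h1⟩ := tr_of_geo hN hN' hp hq hσ hX hne' ha hxO
  have hT : ∀ i j : ℕ, ¬A.Tr g (g^[j] q) (g^[i] p) := fun i' j' h2 =>
    hne (Relation.EqvGen.rel _ _ (rel_of_tr hN hN' hp hq hp' hq' h1 h2))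
  rw [← Function.iterate_mul] at hxO hyQ
  obtain ⟨C, θ, C', h0, h1, hZ⟩ := hZ x hx y hy (p₀ * a) _ _ isOpen_interior hQ.isOpen_compl
    (hOQ hxO) hyQ
  obtain ⟨C₁, hC₁⟩ := card_le hg hp₀ hδ hY hK hC hσ' hT a₁ (C := C) h0 h1 hε'
  obtain ⟨C₂, hC₂⟩ := card_le hg hp₀ hδ hY hK hC hσ' hT a₂ (C := C) h0 h1 hε'
  have hY0 : 0 < Y := zero_lt_one.trans_le hY
  have key : ∀ m : ℕ, (Real.exp (s * p₀) / Y) ^ m ≤ (C₁ + C₂) * Real.exp C' := fun m => by
    obtain ⟨k, Z, hk, hZ1, hZ2⟩ := hZ (m * p₀)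
    have hz : ∀ c, ∃ z ∈ Z c, z ∈ frontier Q := fun c => by
      by_contra hcon
      push Not at hcon
      obtain ⟨z, -, hz1, hz2⟩ := (hZ1 c).1 _ _ isOpen_interior hQ.isOpen_compl
        (fun z hz => by
          by_cases hzQ : z ∈ Q
          · left
            by_contra h
            exact hcon z hz ⟨subset_closure hzQ, h⟩
          · exact Or.inr hzQ) (hZ1 c).2.1 (hZ1 c).2.2.1
      exact hz2 (interior_subset hz1)
    choose z hz hzf using hz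
    have hsp : ∀ c, A.SPoint g p C θ (z c) := fun c => (hZ1 c).2.2.2 _ (hz c)
    have hsep := fun c c' h => hZ2 c c' h _ (hz c) _ (hz c')
    have b₁ := hC₁ (m * p₀) k z (Finset.univ.filter fun c => ∃ s, |s| ≤ 1 / 3 ∧
      z c = g^[a₁] (σ' s)) (fun c hc => ⟨hsp c, (Finset.mem_filter.1 hc).2⟩) hsep
    have b₂ := hC₂ (m * p₀) k z (Finset.univ.filter fun c => ¬∃ s, |s| ≤ 1 / 3 ∧
      z c = g^[a₁] (σ' s)) (fun c hc => ⟨hsp c, by
        rcases hf _ (hzf c) with ⟨t, ht, h | h⟩ | h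
        · exact ((Finset.mem_filter.1 hc).2 ⟨t, ht, h⟩).elim
        · exact ⟨t, ht, h⟩
        · obtain ⟨b, v, b0, -, -, ⟨l, hl⟩, -⟩ := hsp c
          obtain ⟨l₁, l₂, hl'⟩ := orbit_eq_of_asym hN hN' hp hq (b0 ▸ hl.asym) h
          exact (hne' (perMeas_eq hN hN' hp hq hl')).elim⟩) hsep
    have b₃ := Finset.card_filter_add_card_filter_not (s := (Finset.univ : Finset (Fin k)))
      fun c => ∃ s, |s| ≤ 1 / 3 ∧ z c = g^[a₁] (σ' s)
    rw [Finset.card_univ, Fintype.card_fin] at b₃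
    rw [Nat.mul_div_cancel _ hp₀] at b₁ b₂
    rw [← b₃, Real.exp_sub, div_le_iff₀ (Real.exp_pos _)] at hk
    push_cast at hk
    rw [div_pow, div_le_iff₀ (pow_pos hY0 m), ← Real.exp_nat_mul, mul_left_comm]
    refine hk.trans ?_
    rw [mul_right_comm]
    exact mul_le_mul_of_nonneg_right (by linarith) (Real.exp_pos _).le
  obtain ⟨m, hm⟩ := ((tendsto_pow_atTop_atTop_of_one_lt ((one_lt_div hY0).2 hs)).eventually_gt_atTop
    ((C₁ + C₂) * Real.exp C')).exists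
  exact hm.not_ge (key m)

end Atlas

end Pool.Agent.Lib.MP_901be3_an.Hd
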