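import Pool.Agent.Lib.MP_901be3_an.Hd.QInter
import Pool.Agent.Lib.MP_901be3_an.Hd.AtLip

namespace Pool.Agent.Lib.MP_901be3_an.Hd

open MeasureTheory Filter Topology Metric Set
open scoped ENNReal

variable {X : Type*} [MetricSpace X] [MeasurableSpace X] [CompactSpace X]

namespace Atlas

namespace TContAux

omit [MeasurableSpace X] [CompactSpace X] in
theorem tendsto_iter {f : X ≃ₜ X} {F : ℕ → X ≃ₜ X}
    (hconv : ∀ γ > 0, ∀ᶠ n in atTop, Near γ (F n) f) (x : X) (l : ℕ) :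
    Tendsto (fun p : X × ℕ => (F p.2)^[l] p.1) (𝓝 x ×ˢ atTop) (𝓝 (f^[l] x)) := by
  induction l with
  | zero => exact tendsto_fst
  | succ l ih =>
    simp only [Function.iterate_succ_apply']
    refine Filter.Tendsto.congr_dist ((f.continuous.tendsto _).comp ih) ?_
    rw [Metric.tendsto_nhds]
    intro ε hε
    filter_upwards [tendsto_snd.eventually (hconv (ε / 2) (half_pos hε))] with p hp
    rw [dist_zero_right, Real.norm_of_nonneg dist_nonneg, dist_comm]
    exact (hp _).1.trans_lt (half_lt_self hε)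

end TContAux

/-- continuation of the periodic point of a robust loop -/
theorem tcont {A : Atlas X} {P : Par} {κ c₀ : ℝ} (hκ : 0 < κ) (hκ1 : κ ≤ 1) (hc : c₀ ≤ 1 / 4)
    {f : X ≃ₜ X} (hf : A.Good P f) {F : ℕ → X ≃ₜ X} (hF : ∀ᶠ n in atTop, A.Good P (F n))
    (hconv : ∀ γ > 0, ∀ᶠ n in atTop, Near γ (F n) f) {w : ℕ → A.Chart} {N : ℕ}
    (hw : Loop (REdge P κ c₀ f) w N) {q : X} (hq : PerPt f w N q) :
    ∃ c : ℕ → X, IsCont f (fun n => F n) q N c ∧ ∀ᶠ n in atTop, PerPt (F n) w N (c n) := by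
  have : Nonempty X := ⟨q⟩
  let c : ℕ → X := fun n => Classical.epsilon (PerPt (F n) w N)
  obtain ⟨γ, hγ, hrob⟩ := hw.robust
  have hE : ∀ᶠ n in atTop, Loop (Edge P.α κ c₀ (F n)) w N := by
    filter_upwards [hF, hconv γ hγ] with n h1 h2 using hrob _ h1 h2
  have hP : ∀ᶠ n in atTop, PerPt (F n) w N (c n) := by
    filter_upwards [hE] with n h using Classical.epsilon_spec (h.exists_perPt hκ hκ1 hc)
  have hfE : Loop (Edge P.α κ c₀ f) w N := ⟨hw.1, hw.2.1, fun j hj => (hw.2.2 j hj).edge hf⟩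
  refine ⟨c, ⟨hw.1, hq.1, ?_, ?_⟩, hP⟩
  · refine tendsto_nhds_of_unique_mapClusterPt fun x hx => ?_
    obtain ⟨U, hU, hx⟩ := mapClusterPt_iff_ultrafilter.1 hx
    have h1 : ∀ l, Tendsto (fun n => (F n)^[l] (c n)) U (𝓝 (f^[l] x)) := fun l =>
      (TContAux.tendsto_iter hconv x l).comp (hx.prodMk hU)
    refine hfE.perPt_unique hκ hκ1 hc ⟨?_, fun l hl => ?_⟩ hq
    · refine tendsto_nhds_unique (h1 N) (hx.congr' ?_)
      filter_upwards [hU hP] with n hn using hn.1.symm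
    · refine ((hfE.2.2 l hl).1.isCompact_box hc).isClosed.mem_of_tendsto (h1 l) ?_
      filter_upwards [hU hP] with n hn using hn.2 l hl
  · have h1 : ∀ᶠ p : X × ℕ in 𝓝 q ×ˢ atTop, ∀ l ∈ Finset.range N,
        (w l).Box ((F p.2)^[l] p.1) := by
      rw [Filter.eventually_all_finset]
      intro l hl
      have hl' := Finset.mem_range.1 hl
      have h2 : f^[l] q ∈ {x | x ∈ (A.e (w l).i).source ∧ (w l).co x ∈ ball (0 : V) 1} :=
        ⟨(hq.2 l hl').1, mem_ball_zero_iff.2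
          ((hfE.perPt_co hκ hκ1 hc hq hl').trans_lt (by norm_num))⟩
      filter_upwards [(TContAux.tendsto_iter hconv q l).eventually_mem
        (((w l).isOpen_co isOpen_ball).mem_nhds h2)] with p hp
      exact ⟨hp.1, (mem_ball_zero_iff.1 hp.2).le⟩
    obtain ⟨pa, ha, pb, hb, hab⟩ := Filter.eventually_prod_iff.1 h1
    refine ⟨{z | pa z}, ha, ?_⟩
    filter_upwards [hb, hE, hP] with n h2 h3 h4 z hz
    refine ⟨fun h => h3.perPt_unique hκ hκ1 hc
      ⟨h, fun l hl => hab hz h2 l (Finset.mem_range.2 hl)⟩ h4, fun h => ?_⟩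
    rw [h]
    exact h4.1

end Atlas

end Pool.Agent.Lib.MP_901be3_an.Hd
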