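import Pool.Agent.Lib.MP_901be3_an.Hd.QInter
import Pool.Agent.Lib.MP_901be3_an.Hd.PerMeas
import Pool.Agent.Lib.MP_901be3_an.Hd.CcBasic

namespace Pool.Agent.Lib.MP_901be3_an.Hd

open MeasureTheory Filter Topology Metric Set
open scoped ENNReal

variable {X : Type*} [MetricSpace X] [MeasurableSpace X]

namespace Atlas

theorem tcross (A : Atlas X) (P : Par) {ε δ : ℝ} (hε : 0 < ε) (hδ : 0 < δ) : ∃ c₁ > 0,
    ∀ κ c₀ : ℝ, 0 < κ → κ ≤ 1 → c₀ ≤ c₁ → c₀ ≤ 1 / 4 → ∀ g : X ≃ₜ X, A.Good P g →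
      ∀ (w : ℕ → A.Chart) (N : ℕ) (p : X), Loop (Edge P.α κ c₀ g) w N → PerPt g w N p →
        A.Cross P.α ε δ g p {x | (w 0).Box x ∧ ‖(w 0).co x‖ ≤ 1 / 4} := by
  have hB0 : 0 < P.B := lt_of_lt_of_le one_pos P.one_le_B
  have hα := P.α_pos
  have hρ := P.ρ_pos
  set K : ℝ := P.B * ε * (1 + ε ^ P.α) * (P.B / δ) ^ (1 + P.α) with hK
  have hK0 : 0 < K := by positivity
  refine ⟨min (1 / (100 * K)) (min (δ / P.B) (P.ρ * δ / (ε * P.B))), by positivity, ?_⟩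
  intro κ c₀ hκ hκ1 hc1 hc g hg w N p hL hp i γ hγ hH hδ0 hO
  obtain ⟨hbox, hco⟩ := hO
  have hcK : c₀ ≤ 1 / (100 * K) := hc1.trans (min_le_left _ _)
  have hcB : c₀ ≤ δ / P.B := hc1.trans ((min_le_right _ _).trans (min_le_left _ _))
  have hcρ : c₀ ≤ P.ρ * δ / (ε * P.B) := hc1.trans ((min_le_right _ _).trans (min_le_right _ _))
  have hS : (w 0).Small P.α c₀ := (hL.2.2 0 hL.1).1
  have hdet : det (w 0).u (w 0).s ≠ 0 := hS.2.1
  set C := Cm (w 0).u (w 0).s with hC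
  set I := Ci (w 0).u (w 0).s with hI
  have hCc : ‖C‖ < c₀ := hS.2.2.1
  have hIC : ‖I‖ * ‖C‖ ^ (1 + P.α) < c₀ := hS.2.2.2
  have h0II : (0 : ℝ) ∈ II := ⟨by norm_num, by norm_num⟩
  have hgd : ∀ x, (w 0).Box x → A.Gd (w 0).i x := fun x hx => by
    have := (hS.pt_spec hc (v := (w 0).co x) (hx.2.trans (by norm_num))).1
    rwa [hS.pt_co hx.1] at this
  have hG0 : A.Gd (w 0).i (γ 0) := hgd _ hbox
  have hGi : A.Gd i (γ 0) := (hγ 0 h0II).1
  obtain ⟨hsrc, hCr⟩ := hg.2.2.2 i (w 0).i (γ 0) hGi hG0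
  set R := A.rep id i (w 0).i with hR
  set y : ℝ → V := A.e i ∘ γ with hy
  have hmv : ∀ τ ∈ II, ‖y τ - y 0‖ ≤ ε * |τ| := fun τ hτ => by
    have := norm_sub_le_of_deriv (c := y) (d := 0) (B := ε) (a := -1) (b := 1)
      (fun t ht => ⟨(hγ t ht).2, by rw [sub_zero]; exact hH.1 t ht⟩) τ hτ 0 h0II
    simpa using this
  set d : V := I (fderiv ℝ R (y 0) (deriv y 0)) with hd
  have hlow : δ ≤ P.B * (‖C‖ * ‖d‖) := by
    have h1 := hg.le_norm_DD_iter 0 (i := i) (j := (w 0).i) hGi hG0 (deriv y 0)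
    have h2 : A.DD (g^[0]) i (w 0).i (γ 0) (deriv y 0) = C d := by
      rw [hd, hC, hI, Cm_Ci hdet]; rfl
    rw [h2, zero_add, pow_one] at h1
    exact hδ0.trans (h1.trans (mul_le_mul_of_nonneg_left (C.le_opNorm d) hB0.le))
  have hC0 : 0 < ‖C‖ := by
    rcases (norm_nonneg C).lt_or_eq with h | h
    · exact h
    · rw [← h] at hlow; simp at hlow; linarith
  set T : ℝ := P.B * ‖C‖ / δ with hT
  have hT0 : 0 < T := by positivity
  have hTd : 1 ≤ T * ‖d‖ := by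
    rw [hT, div_mul_eq_mul_div, le_div_iff₀ hδ]; linarith
  have hT1 : T ≤ 1 := by
    rw [hT, div_le_one hδ]
    have := (le_div_iff₀ hB0).1 (hCc.le.trans hcB)
    linarith
  have hTρ : ε * T ≤ P.ρ := by
    have := (le_div_iff₀ (by positivity)).1 (hCc.le.trans hcρ)
    rw [hT, ← mul_div_assoc, div_le_iff₀ hδ]
    linarith
  have hII : ∀ τ, |τ| < T → τ ∈ II := fun τ hτ => by
    have := abs_lt.1 (hτ.trans_le hT1)
    exact ⟨this.1, this.2⟩
  have hball : ∀ τ, |τ| < T → y τ ∈ ball (A.e i (γ 0)) P.ρ := fun τ hτ => by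
    rw [mem_ball, dist_eq_norm]
    exact (hmv τ (hII τ hτ)).trans_lt ((mul_lt_mul_of_pos_left hτ hε).trans_le hTρ)
  have hy0 : y 0 ∈ ball (A.e i (γ 0)) P.ρ := mem_ball_self hρ
  have hsymm : ∀ τ ∈ II, (A.e i).symm (y τ) = γ τ := fun τ hτ =>
    (A.e i).left_inv (hγ τ hτ).1.1
  have hsrc' : ∀ τ, |τ| < T → γ τ ∈ (A.e (w 0).i).source := fun τ hτ => by
    have := hsrc _ (hball τ hτ)
    rwa [id, hsymm τ (hII τ hτ)] at this
  have hder : ∀ τ, |τ| < T → HasDerivAt (fun t => (w 0).co (γ t))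
      (I (fderiv ℝ R (y τ) (deriv y τ))) τ := fun τ hτ => by
    have h1 : HasDerivAt (fun t => I (R (y t) - (w 0).c)) (I (fderiv ℝ R (y τ) (deriv y τ))) τ := by
      have h2 : HasDerivAt (R ∘ y) (fderiv ℝ R (y τ) (deriv y τ)) τ :=
        (hCr.2.1 _ (hball τ hτ)).hasFDerivAt.comp_hasDerivAt τ (hγ τ (hII τ hτ)).2.hasDerivAt
      exact I.hasFDerivAt.comp_hasDerivAt τ (h2.sub_const (w 0).c)
    refine h1.congr_of_eventuallyEq ?_
    filter_upwards [isOpen_Ioo.mem_nhds (hII τ hτ)] with t ht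
    show I (A.e (w 0).i (γ t) - (w 0).c) = I (A.e (w 0).i (id ((A.e i).symm (y t))) - (w 0).c)
    rw [id, hsymm t ht]
  have hvar : ∀ τ, |τ| < T → ‖I (fderiv ℝ R (y τ) (deriv y τ)) - d‖ ≤ ‖d‖ / 100 := by
    intro τ hτ
    have hHol := hCr.2.2.hol
    have hτα : |τ| ^ P.α ≤ T ^ P.α := Real.rpow_le_rpow (abs_nonneg _) hτ.le hα.le
    have e1 : ‖fderiv ℝ R (y τ) - fderiv ℝ R (y 0)‖ ≤ P.B * (ε ^ P.α * T ^ P.α) := by
      refine (hHol.2 _ (hball τ hτ) _ hy0).trans (mul_le_mul_of_nonneg_left ?_ hB0.le)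
      rw [← Real.mul_rpow hε.le hT0.le]
      exact Real.rpow_le_rpow (norm_nonneg _)
        ((hmv τ (hII τ hτ)).trans (mul_le_mul_of_nonneg_left hτ.le hε.le)) hα.le
    have e2 : ‖fderiv ℝ R (y 0)‖ ≤ P.B := hHol.1 _ hy0
    have e3 : ‖deriv y τ‖ ≤ ε := hH.1 τ (hII τ hτ)
    have e4 : ‖deriv y τ - deriv y 0‖ ≤ ε * T ^ P.α := by
      have := hH.2 τ (hII τ hτ) 0 h0II
      rw [sub_zero, Real.norm_eq_abs] at this
      exact this.trans (mul_le_mul_of_nonneg_left hτα hε.le)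
    have e5 : ‖fderiv ℝ R (y τ) (deriv y τ) - fderiv ℝ R (y 0) (deriv y 0)‖ ≤
        P.B * ε * (1 + ε ^ P.α) * T ^ P.α := by
      have h1 : fderiv ℝ R (y τ) (deriv y τ) - fderiv ℝ R (y 0) (deriv y 0) =
          (fderiv ℝ R (y τ) - fderiv ℝ R (y 0)) (deriv y τ) +
            fderiv ℝ R (y 0) (deriv y τ - deriv y 0) := by
        simp only [sub_apply, map_sub]; abel
      rw [h1]
      have a1 := ((fderiv ℝ R (y τ) - fderiv ℝ R (y 0)).le_opNorm (deriv y τ)).trans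
        (mul_le_mul e1 e3 (norm_nonneg _) (by positivity))
      have a2 := ((fderiv ℝ R (y 0)).le_opNorm (deriv y τ - deriv y 0)).trans
        (mul_le_mul e2 e4 (norm_nonneg _) hB0.le)
      refine (norm_add_le _ _).trans ((add_le_add a1 a2).trans (le_of_eq ?_))
      ring
    have e6 : ‖I (fderiv ℝ R (y τ) (deriv y τ)) - d‖ ≤
        ‖I‖ * (P.B * ε * (1 + ε ^ P.α) * T ^ P.α) := by
      rw [hd, ← map_sub]
      exact (I.le_opNorm _).trans (mul_le_mul_of_nonneg_left e5 (norm_nonneg _))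
    have e7 : T ^ P.α * T = (P.B / δ) ^ (1 + P.α) * ‖C‖ ^ (1 + P.α) := by
      rw [← Real.mul_rpow (by positivity) hC0.le, Real.rpow_add (by positivity), Real.rpow_one]
      have : P.B / δ * ‖C‖ = T := by rw [hT]; ring
      rw [this, mul_comm]
    have e8 : ‖I‖ * (P.B * ε * (1 + ε ^ P.α) * T ^ P.α) * T ≤ 1 / 100 := by
      have h1 : ‖I‖ * (P.B * ε * (1 + ε ^ P.α) * T ^ P.α) * T =
          K * (‖I‖ * ‖C‖ ^ (1 + P.α)) := by
        rw [hK]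
        calc _ = ‖I‖ * (P.B * ε * (1 + ε ^ P.α)) * (T ^ P.α * T) := by ring
          _ = _ := by rw [e7]; ring
      rw [h1]
      calc K * (‖I‖ * ‖C‖ ^ (1 + P.α)) ≤ K * (1 / (100 * K)) :=
            mul_le_mul_of_nonneg_left (hIC.le.trans hcK) hK0.le
        _ = 1 / 100 := by field_simp
    refine e6.trans ?_
    have h0 : 0 ≤ ‖I‖ * (P.B * ε * (1 + ε ^ P.α) * T ^ P.α) := by positivity
    calc ‖I‖ * (P.B * ε * (1 + ε ^ P.α) * T ^ P.α)
        ≤ ‖I‖ * (P.B * ε * (1 + ε ^ P.α) * T ^ P.α) * (T * ‖d‖) := le_mul_of_one_le_right h0 hTd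
      _ = ‖I‖ * (P.B * ε * (1 + ε ^ P.α) * T ^ P.α) * T * ‖d‖ := by ring
      _ ≤ 1 / 100 * ‖d‖ := mul_le_mul_of_nonneg_right e8 (norm_nonneg _)
      _ = ‖d‖ / 100 := by ring
  have hF := hL.fpath
  have hBw := hL.bpath
  obtain ⟨hpf, hpb⟩ := hp.fol hL.1
  obtain ⟨τ, hτ, hτ1, hcase⟩ := hcross (c := fun t => (w 0).co (γ t))
    (c' := fun t => I (fderiv ℝ R (y t) (deriv y t))) (φ := sg g (fwd w N))
    (ψ := ug g (bwd w N)) hT0 hTd (fun t ht => ⟨hder t ht, hvar t ht⟩) hco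
    (hF.sg_cont hκ hκ1 hc) (fun b hb => (hF.sg_spec hκ hκ1 hc hb).1)
    (hBw.ug_cont hκ hκ1 hc) (fun a ha => (hBw.ug_spec hκ hκ1 hc ha).1)
  have hθ0 : 0 < 1 - κ / 3 := by linarith
  have hθ1 : 1 - κ / 3 < 1 := by linarith
  have hpt : (w 0).pt ((w 0).co (γ τ)) = γ τ := hS.pt_co (hsrc' τ hτ)
  have ha1 : |((w 0).co (γ τ)).1| < 1 := (norm_fst_le ((w 0).co (γ τ))).trans_lt hτ1
  have hb1 : |((w 0).co (γ τ)).2| < 1 := (norm_snd_le ((w 0).co (γ τ))).trans_lt hτ1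
  refine ⟨τ, hII τ hτ, ?_⟩
  rcases hcase with h1 | ⟨h1, h2⟩
  · left
    have h3 := (hBw.ug_spec hκ hκ1 hc ha1.le).2
    rw [bwd_zero, ← h1, Prod.mk.eta, hpt] at h3
    refine ⟨0, squeeze_zero (fun n => dist_nonneg) (fun n => hBw.contr hκ hκ1 hc h3 hpb n) ?_⟩
    simpa using (tendsto_pow_atTop_nhds_zero_of_lt_one hθ0.le hθ1).const_mul (2 * A.L)
  · right
    set β := ((w 0).co (γ τ)).2 with hβ
    obtain ⟨σ, hσ, hσd, -⟩ := hF.sg_deriv hκ hκ1 hc hb1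
    have hcur : HasDerivAt (fun t : ℝ => ((sg g (fwd w N) (β + t), β + t) : V)) (σ, 1) 0 := by
      have a1 : HasDerivAt (fun t : ℝ => β + t) 1 0 := (hasDerivAt_id (0 : ℝ)).const_add β
      have a2 : HasDerivAt (fun t : ℝ => sg g (fwd w N) (β + t)) σ 0 := by
        have a3 : HasDerivAt (sg g (fwd w N)) σ (β + 0) := by rw [add_zero]; exact hσd
        have a4 := a3.comp (0 : ℝ) a1
        rw [mul_one] at a4
        exact a4
      exact a2.prodMk a1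
    have hc0 : ((sg g (fwd w N) (β + 0), β + 0) : V) = (w 0).co (γ τ) := by
      rw [add_zero, ← h1]
    have hv1 := (velAt_of_curve hγ (hII τ hτ)).2
    have hGτ : A.Gd (w 0).i (γ τ) := hgd _ ⟨hsrc' τ hτ, hτ1.le⟩
    have hv2 := VelAt.push hg.2.2.dif (j := (w 0).i) hv1 (by simpa using hGτ)
    refine ⟨(w 0).i, fun t => (w 0).pt (sg g (fwd w N) (β + t), β + t), _, C (σ, 1), 0, ?_, hv2,
      hS.velAt hc (c := fun t : ℝ => ((sg g (fwd w N) (β + t), β + t) : V))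
        (by rw [hc0]; exact hτ1.le) hcur, ?_, ?_⟩
    · show (w 0).pt (sg g (fwd w N) (β + 0), β + 0) = γ τ
      rw [hc0, hpt]
    · have a1 : A.DD id i (w 0).i (γ (τ + 0)) (deriv y τ) =
          C (I (fderiv ℝ R (y τ) (deriv y τ))) := by
        rw [hC, hI, Cm_Ci hdet, add_zero]; rfl
      rw [a1, det_map, hC, detL_Cm]
      exact mul_ne_zero hdet (h2 σ hσ)
    · refine ⟨2 * A.L, 1 - κ / 3, hθ0, hθ1, ?_⟩
      have a1 : ∀ᶠ t in 𝓝 (0 : ℝ), |β + t| < 1 := by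
        have : Continuous fun t : ℝ => |β + t| := by fun_prop
        exact this.continuousAt.eventually_lt continuousAt_const (by simpa using hb1)
      filter_upwards [a1] with t ht n
      have a2 := (hF.sg_spec hκ hκ1 hc ht.le).2
      rw [fwd_zero] at a2
      exact hF.contr hκ hκ1 hc a2 hpf n

theorem Cross.mono {A : Atlas X} {α ε δ : ℝ} {g : X ≃ₜ X} {q : X} {O O' : Set X}
    (h : A.Cross α ε δ g q O) (hO : O' ⊆ O) : A.Cross α ε δ g q O' :=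
  fun i γ h1 h2 h3 h4 => h i γ h1 h2 h3 (hO h4)

end Atlas

end Pool.Agent.Lib.MP_901be3_an.Hd
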