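import Pool.Agent.Lib.MP_901be3_an.Hd.QClose
import Pool.Agent.Lib.MP_901be3_an.Hd.QCurve

namespace Pool.Agent.Lib.MP_901be3_an.Hd

open MeasureTheory Filter Topology Metric Set
open scoped ENNReal

namespace TTrapAux

open Atlas

variable {X : Type*} [MetricSpace X] [MeasurableSpace X] {A : Atlas X} {P : Par} {κ c₀ : ℝ}

omit [MeasurableSpace X] in
theorem near_mono {g f : X ≃ₜ X} {γ γ' : ℝ} (h : Near γ g f) (hγ : γ ≤ γ') : Near γ' g f :=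
  fun x => ⟨(h x).1.trans hγ, (h x).2.trans hγ⟩

theorem fin_edges {f : X ≃ₜ X} {a b : ℕ → A.Chart} (h : ∀ n, REdge P κ c₀ f (a n) (b n)) (l : ℕ) :
    ∃ γ > 0, ∀ g : X ≃ₜ X, A.Good P g → Near γ g f → ∀ n < l, Edge P.α κ c₀ g (a n) (b n) := by
  induction l with
  | zero => exact ⟨1, one_pos, fun _ _ _ n hn => absurd hn (Nat.not_lt_zero n)⟩
  | succ l ih =>
    obtain ⟨γ, hγ, H⟩ := ih
    obtain ⟨γ', hγ', H'⟩ := h l
    refine ⟨min γ γ', lt_min hγ hγ', fun g hg hn n hl => ?_⟩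
    rcases Nat.lt_succ_iff_lt_or_eq.1 hl with h1 | h1
    · exact H g hg (near_mono hn (min_le_left _ _)) n h1
    · subst h1
      exact H' g hg (near_mono hn (min_le_right _ _))

theorem fpath_robust {f : X ≃ₜ X} {w : ℕ → A.Chart} {N : ℕ} (hw : Loop (REdge P κ c₀ f) w N)
    {W : ℕ → A.Chart} {l : ℕ} (h : ∀ n, REdge P κ c₀ f (W n) (W (n + 1)))
    (ht : ∀ n, W (l + n) = fwd w N n) :
    ∃ γ > 0, ∀ g : X ≃ₜ X, A.Good P g → Near γ g f → FPath P.α κ c₀ g W := by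
  obtain ⟨γ, hγ, H⟩ := fin_edges (a := W) (b := fun n => W (n + 1)) h l
  obtain ⟨γ', hγ', H'⟩ := hw.robust
  refine ⟨min γ γ', lt_min hγ hγ', fun g hg hn n => ?_⟩
  rcases lt_or_ge n l with h1 | h1
  · exact H g hg (near_mono hn (min_le_left _ _)) n h1
  · obtain ⟨k, rfl⟩ := Nat.exists_eq_add_of_le h1
    have := (H' g hg (near_mono hn (min_le_right _ _))).fpath k
    rw [ht k, Nat.add_assoc, ht (k + 1)]
    exact this

theorem bpath_robust {f : X ≃ₜ X} {w : ℕ → A.Chart} {N : ℕ} (hw : Loop (REdge P κ c₀ f) w N)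
    {W : ℕ → A.Chart} {l : ℕ} (h : ∀ n, REdge P κ c₀ f (W (n + 1)) (W n))
    (ht : ∀ n, W (l + n) = bwd w N n) :
    ∃ γ > 0, ∀ g : X ≃ₜ X, A.Good P g → Near γ g f → BPath P.α κ c₀ g W := by
  obtain ⟨γ, hγ, H⟩ := fin_edges (a := fun n => W (n + 1)) (b := W) h l
  obtain ⟨γ', hγ', H'⟩ := hw.robust
  refine ⟨min γ γ', lt_min hγ hγ', fun g hg hn n => ?_⟩
  rcases lt_or_ge n l with h1 | h1
  · exact H g hg (near_mono hn (min_le_left _ _)) n h1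
  · obtain ⟨k, rfl⟩ := Nat.exists_eq_add_of_le h1
    have := (H' g hg (near_mono hn (min_le_right _ _))).bpath k
    rw [ht k, Nat.add_assoc, ht (k + 1)]
    exact this

omit [MeasurableSpace X] in
theorem iter_symm (g : X ≃ₜ X) (n : ℕ) (z : X) : g^[n] (g.symm^[n] z) = z :=
  Function.RightInverse.iterate (f := g) (g := g.symm) g.apply_symm_apply n z

omit [MeasurableSpace X] in
theorem symm_iter (g : X ≃ₜ X) (n : ℕ) (z : X) : g.symm^[n] (g^[n] z) = z :=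
  Function.LeftInverse.iterate (f := g) (g := g.symm) g.symm_apply_apply n z

omit [MetricSpace X] [MeasurableSpace X] in
theorem iter_mul_fixed {g : X → X} {p : X} {N : ℕ} (h : g^[N] p = p) (j : ℕ) :
    g^[j * N] p = p := by
  rw [Nat.mul_comm, Function.iterate_mul]
  exact Function.iterate_fixed h j

/-- points of a horizontal side are iterates of points of the unstable curve -/
theorem top_case (hκ : 0 < κ) (hκ1 : κ ≤ 1) (hc : c₀ ≤ 1 / 4) {g : X ≃ₜ X} {w : ℕ → A.Chart}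
    {N : ℕ} (hw : Loop (Edge P.α κ c₀ g) w N) {p : X} (hp : PerPt g w N p) {σ : ℝ → X} {ζ : ℝ}
    (hζ : 0 < ζ) (hσ : ∀ z ∈ Fol g.symm (bwd w N), dist z p < ζ → ∃ s, |s| ≤ 1 / 3 ∧ σ s = z)
    {W : ℕ → A.Chart} {l : ℕ} (ht : ∀ n, W (l + n) = bwd w N n) :
    ∃ a : ℕ, ∀ z ∈ Fol g.symm W, ∃ s, |s| ≤ 1 / 3 ∧ z = g^[a] (σ s) := by
  have hL := A.one_le_L
  have hθ0 : 0 ≤ 1 - κ / 3 := by linarith
  have hθ1 : 1 - κ / 3 < 1 := by linarith
  obtain ⟨j, hj⟩ := exists_pow_lt_of_lt_one (show 0 < ζ / (2 * A.L) by positivity) hθ1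
  refine ⟨l + j * N, fun z hz => ?_⟩
  have h0 : g.symm^[l] z ∈ Fol g.symm (bwd w N) := by
    have := Fol.shift hz l
    rwa [show (fun n => W (l + n)) = bwd w N from funext ht] at this
  have h1 : g.symm^[j * N] (g.symm^[l] z) ∈ Fol g.symm (bwd w N) := by
    have := Fol.shift h0 (j * N)
    rwa [show (fun n => bwd w N (j * N + n)) = bwd w N from funext (bwd_add w N j)] at this
  have hpf : g.symm^[j * N] p = p := by
    have := symm_iter g (j * N) p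
    rwa [iter_mul_fixed hp.1 j] at this
  have h2 := hw.bpath.contr hκ hκ1 hc h0 (hp.fol hw.1).2 (j * N)
  rw [hpf] at h2
  have h3 : (1 - κ / 3) ^ (j * N) ≤ (1 - κ / 3) ^ j :=
    pow_le_pow_of_le_one hθ0 hθ1.le (Nat.le_mul_of_pos_right j hw.1)
  have h4 : 2 * A.L * (1 - κ / 3) ^ (j * N) < ζ := by
    have := lt_of_le_of_lt h3 hj
    rw [lt_div_iff₀ (by positivity)] at this
    linarith
  obtain ⟨s, hs, hsz⟩ := hσ _ h1 (lt_of_le_of_lt h2 h4)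
  refine ⟨s, hs, ?_⟩
  rw [hsz, Function.iterate_add_apply, iter_symm, iter_symm]

/-- points of a vertical side are asymptotic to the periodic orbit -/
theorem side_case (hκ : 0 < κ) (hκ1 : κ ≤ 1) (hc : c₀ ≤ 1 / 4) {g : X ≃ₜ X} {w : ℕ → A.Chart}
    {N : ℕ} (hw : Loop (Edge P.α κ c₀ g) w N) {p : X} (hp : PerPt g w N p)
    {W : ℕ → A.Chart} {l : ℕ} (ht : ∀ n, W (l + n) = fwd w N n) {z : X} (hz : z ∈ Fol g W) :
    Asym g z p := by
  have hθ0 : 0 ≤ 1 - κ / 3 := by linarith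
  have hθ1 : 1 - κ / 3 < 1 := by linarith
  have h0 : g^[l] z ∈ Fol g (fwd w N) := by
    have := Fol.shift hz l
    rwa [show (fun n => W (l + n)) = fwd w N from funext ht] at this
  obtain ⟨M, hM⟩ : ∃ M, N = M + 1 := ⟨N - 1, by have := hw.1; omega⟩
  refine ⟨l * M, ?_⟩
  rw [← tendsto_add_atTop_iff_nat l]
  have hfix : g^[l] (g^[l * M] p) = p := by
    rw [← Function.iterate_add_apply, show l + l * M = l * N by rw [hM]; ring]
    exact iter_mul_fixed hp.1 l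
  have hlim : Tendsto (fun n : ℕ => 2 * A.L * (1 - κ / 3) ^ n) atTop (𝓝 0) := by
    have := (tendsto_pow_atTop_nhds_zero_of_lt_one hθ0 hθ1).const_mul (2 * A.L)
    rwa [mul_zero] at this
  refine squeeze_zero (fun _ => dist_nonneg) (fun n => ?_) hlim
  rw [Function.iterate_add_apply, Function.iterate_add_apply, hfix]
  exact hw.fpath.contr hκ hκ1 hc h0 (hp.fol hw.1).1 n

theorem cont_ext {L : ℝ → ℝ} (h : ContinuousOn L (Icc (-1) 1)) :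
    ∃ L' : ℝ → ℝ, Continuous L' ∧ ∀ b, |b| ≤ 1 → L' b = L b := by
  refine ⟨fun b => L (max (-1) (min 1 b)), ?_, fun b hb => ?_⟩
  · refine h.comp_continuous (by fun_prop) fun b => ⟨le_max_left _ _, ?_⟩
    exact max_le (by norm_num) (min_le_left _ _)
  · obtain ⟨h1, h2⟩ := abs_le.1 hb
    simp only [min_eq_right h2, max_eq_right h1]

theorem abs_fst_le {v : V} {r : ℝ} (h : ‖v‖ ≤ r) : |v.1| ≤ r := (norm_fst_le v).trans h

theorem abs_snd_le {v : V} {r : ℝ} (h : ‖v‖ ≤ r) : |v.2| ≤ r := (norm_snd_le v).trans h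

/-- the region between four small graphs -/
theorem region {α : ℝ} {Φ : A.Chart} (hΦ : Φ.Small α c₀) (hc : c₀ ≤ 1 / 4) {L R B T : ℝ → ℝ}
    (cL : ContinuousOn L (Icc (-1) 1)) (cR : ContinuousOn R (Icc (-1) 1))
    (cB : ContinuousOn B (Icc (-1) 1)) (cT : ContinuousOn T (Icc (-1) 1))
    (bL : ∀ b, |b| ≤ 1 → |L b| ≤ 1 / 20) (bR : ∀ b, |b| ≤ 1 → |R b| ≤ 1 / 20)
    (bB : ∀ b, |b| ≤ 1 → |B b| ≤ 1 / 20) (bT : ∀ b, |b| ≤ 1 → |T b| ≤ 1 / 20) :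
    ∃ K : Set X, IsClosed K ∧ (∀ z ∈ K, Φ.Box z) ∧
      (∀ z ∈ (A.e Φ.i).source, ‖Φ.co z‖ < 1 → L (Φ.co z).2 < (Φ.co z).1 →
        (Φ.co z).1 < R (Φ.co z).2 → B (Φ.co z).1 < (Φ.co z).2 → (Φ.co z).2 < T (Φ.co z).1 →
        z ∈ interior K) ∧
      ∀ z ∈ frontier K, ∃ t, |t| ≤ 1 ∧ (z = Φ.pt (L t, t) ∨ z = Φ.pt (R t, t) ∨
        z = Φ.pt (t, B t) ∨ z = Φ.pt (t, T t)) := by
  obtain ⟨L', cL', eL⟩ := cont_ext cL
  obtain ⟨R', cR', eR⟩ := cont_ext cR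
  obtain ⟨B', cB', eB⟩ := cont_ext cB
  obtain ⟨T', cT', eT⟩ := cont_ext cT
  set Kv : Set V := {v | ‖v‖ ≤ 1 ∧ L' v.2 ≤ v.1 ∧ v.1 ≤ R' v.2 ∧ B' v.1 ≤ v.2 ∧ v.2 ≤ T' v.1}
    with hKv
  set Uv : Set V := {v | ‖v‖ < 1 ∧ L' v.2 < v.1 ∧ v.1 < R' v.2 ∧ B' v.1 < v.2 ∧ v.2 < T' v.1}
    with hUv
  have hKc : IsClosed Kv := by
    refine (isClosed_le continuous_norm continuous_const).inter (IsClosed.inter ?_
      (IsClosed.inter ?_ (IsClosed.inter ?_ ?_)))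
    · exact isClosed_le (cL'.comp continuous_snd) continuous_fst
    · exact isClosed_le continuous_fst (cR'.comp continuous_snd)
    · exact isClosed_le (cB'.comp continuous_fst) continuous_snd
    · exact isClosed_le continuous_snd (cT'.comp continuous_fst)
  have hUo : IsOpen Uv := by
    refine (isOpen_lt continuous_norm continuous_const).inter (IsOpen.inter ?_
      (IsOpen.inter ?_ (IsOpen.inter ?_ ?_)))
    · exact isOpen_lt (cL'.comp continuous_snd) continuous_fst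
    · exact isOpen_lt continuous_fst (cR'.comp continuous_snd)
    · exact isOpen_lt (cB'.comp continuous_fst) continuous_snd
    · exact isOpen_lt continuous_snd (cT'.comp continuous_fst)
  have hKsub : Kv ⊆ closedBall 0 2 := fun v hv => by
    rw [mem_closedBall_zero_iff]
    exact hv.1.trans (by norm_num)
  have hKcpt : IsCompact Kv := (isCompact_closedBall (0 : V) 2).of_isClosed_subset hKc hKsub
  have hK : IsClosed (Φ.pt '' Kv) :=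
    (hKcpt.image_of_continuousOn ((hΦ.continuousOn_pt hc).mono hKsub)).isClosed
  have hint : ∀ z ∈ (A.e Φ.i).source, Φ.co z ∈ Uv → z ∈ interior (Φ.pt '' Kv) := by
    intro z hz hU
    refine interior_maximal (t := {x | x ∈ (A.e Φ.i).source ∧ Φ.co x ∈ Uv}) ?_
      (Φ.isOpen_co hUo) ⟨hz, hU⟩
    rintro y ⟨hy, h1, h2, h3, h4, h5⟩
    exact ⟨Φ.co y, ⟨h1.le, h2.le, h3.le, h4.le, h5.le⟩, hΦ.pt_co hy⟩
  refine ⟨Φ.pt '' Kv, hK, ?_, ?_, ?_⟩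
  · rintro z ⟨v, hv, rfl⟩
    exact hΦ.box_pt hc hv.1
  · intro z hz h1 h2 h3 h4 h5
    have a1 := abs_fst_le h1.le
    have a2 := abs_snd_le h1.le
    refine hint z hz ⟨h1, ?_, ?_, ?_, ?_⟩
    · rwa [eL _ a2]
    · rwa [eR _ a2]
    · rwa [eB _ a1]
    · rwa [eT _ a1]
  · intro z hz
    obtain ⟨v, ⟨h1, h2, h3, h4, h5⟩, rfl⟩ := hK.frontier_subset hz
    have a1 := abs_fst_le h1
    have a2 := abs_snd_le h1
    rcases h2.lt_or_eq with h2' | h2'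
    swap
    · exact ⟨v.2, a2, Or.inl (by rw [← eL _ a2, h2'])⟩
    rcases h3.lt_or_eq with h3' | h3'
    swap
    · exact ⟨v.2, a2, Or.inr (Or.inl (by rw [← eR _ a2, ← h3']))⟩
    rcases h4.lt_or_eq with h4' | h4'
    swap
    · exact ⟨v.1, a1, Or.inr (Or.inr (Or.inl (by rw [← eB _ a1, h4'])))⟩
    rcases h5.lt_or_eq with h5' | h5'
    swap
    · exact ⟨v.1, a1, Or.inr (Or.inr (Or.inr (by rw [← eT _ a1, ← h5'])))⟩
    exfalso
    obtain ⟨hg, -, hco⟩ := hΦ.pt_spec hc (v := v) (h1.trans (by norm_num))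
    refine hz.2 (hint _ hg.1 ?_)
    rw [hco]
    refine ⟨?_, h2', h3', h4', h5'⟩
    have b1 := abs_le.1 (bL _ a2)
    have b2 := abs_le.1 (bR _ a2)
    have b3 := abs_le.1 (bB _ a1)
    have b4 := abs_le.1 (bT _ a1)
    rw [eL _ a2] at h2
    rw [eR _ a2] at h3
    rw [eB _ a1] at h4
    rw [eT _ a1] at h5
    rw [Prod.norm_def, max_lt_iff, Real.norm_eq_abs, Real.norm_eq_abs, abs_lt, abs_lt]
    refine ⟨⟨?_, ?_⟩, ?_, ?_⟩ <;> linarith [b1.1, b2.2, b3.1, b4.2]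

/-- a strict lower gap persists -/
theorem gap_low {F G : ℝ → ℝ} {m t t' y y' : ℝ} (hm : 0 < m) (h1 : |G t' - F t'| ≤ m / 4)
    (h2 : |F t' - F t| ≤ |t' - t| / 20) (h3 : m ≤ y - F t) (h4 : |t' - t| ≤ m / 4)
    (h5 : |y' - y| ≤ m / 4) : G t' < y' := by
  have a1 := abs_le.1 h1
  have a2 := abs_le.1 (h2.trans (show |t' - t| / 20 ≤ m / 80 by linarith))
  have a3 := abs_le.1 h5
  linarith [a1.2, a2.2, a3.1]

/-- a strict upper gap persists -/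
theorem gap_up {F G : ℝ → ℝ} {m t t' y y' : ℝ} (hm : 0 < m) (h1 : |G t' - F t'| ≤ m / 4)
    (h2 : |F t' - F t| ≤ |t' - t| / 20) (h3 : m ≤ F t - y) (h4 : |t' - t| ≤ m / 4)
    (h5 : |y' - y| ≤ m / 4) : y' < G t' := by
  have a1 := abs_le.1 h1
  have a2 := abs_le.1 (h2.trans (show |t' - t| / 20 ≤ m / 80 by linarith))
  have a3 := abs_le.1 h5
  linarith [a1.1, a2.1, a3.2]

end TTrapAux

variable {X : Type*} [MetricSpace X] [MeasurableSpace X] [BorelSpace X]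

namespace Atlas

open TTrapAux in
/-- the quadrilateral persists -/
theorem ttrap {A : Atlas X} {P : Par} {κ c₀ : ℝ} (hκ : 0 < κ) (hκ1 : κ ≤ 1) (hc : c₀ ≤ 1 / 4)
    {f : X ≃ₜ X} (hf : A.Good P f) {w : ℕ → A.Chart} {N : ℕ} (hw : Loop (REdge P κ c₀ f) w N)
    {x : X} (hq : A.Quad P κ c₀ f w N x) {ε : ℝ} (hε : 0 < ε) :
    ∃ O : Set X, IsOpen O ∧ x ∈ O ∧ O ⊆ {x | (w 0).Box x ∧ ‖(w 0).co x‖ ≤ 1 / 4} ∧
      ∃ γ > 0, ∀ g : X ≃ₜ X, A.Good P g → Near γ g f → ∀ p, PerPt g w N p →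
        ∃ (K : Set X) (σ : ℝ → X) (a b : ℕ), IsClosed K ∧ O ⊆ interior K ∧
          (∀ y ∈ K, ∀ z ∈ K, dist y z ≤ 2 * A.L * c₀) ∧ A.UCurve P ε g p σ ∧
          ∀ z ∈ frontier K,
            (∃ s, |s| ≤ 1 / 3 ∧ (z = g^[a] (σ s) ∨ z = g^[b] (σ s))) ∨ Asym g z p := by
  obtain ⟨WT, WB, WL, WR, lT, lB, lL, lR, T0, B0, L0, R0, eT, eB, eL, eR, tT, tB, tL, tR, hxb,
    hxn, gB, gT, gL, gR⟩ := hq
  have fT : BPath P.α κ c₀ f WT := fun n => (eT n).edge hf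
  have fB : BPath P.α κ c₀ f WB := fun n => (eB n).edge hf
  have fL : FPath P.α κ c₀ f WL := fun n => (eL n).edge hf
  have fR : FPath P.α κ c₀ f WR := fun n => (eR n).edge hf
  have hΦ : (w 0).Small P.α c₀ := by
    rw [← L0]
    exact (fL 0).1
  set v := (w 0).co x with hv
  obtain ⟨m, hm, mB, mT, mL, mR⟩ : ∃ m > 0, m ≤ v.2 - ug f WB v.1 ∧ m ≤ ug f WT v.1 - v.2 ∧
      m ≤ v.1 - sg f WL v.2 ∧ m ≤ sg f WR v.2 - v.1 := by
    refine ⟨min (min (v.2 - ug f WB v.1) (ug f WT v.1 - v.2))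
      (min (v.1 - sg f WL v.2) (sg f WR v.2 - v.1)), ?_, ?_, ?_, ?_, ?_⟩
    · exact lt_min (lt_min (sub_pos.2 gB) (sub_pos.2 gT)) (lt_min (sub_pos.2 gL) (sub_pos.2 gR))
    · exact (min_le_left _ _).trans (min_le_left _ _)
    · exact (min_le_left _ _).trans (min_le_right _ _)
    · exact (min_le_right _ _).trans (min_le_left _ _)
    · exact (min_le_right _ _).trans (min_le_right _ _)
  have hm4 : 0 < m / 4 := by positivity
  obtain ⟨γ0, hγ0, H0⟩ := hw.robust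
  obtain ⟨γ1, hγ1, H1⟩ := bpath_robust hw eT tT
  obtain ⟨γ2, hγ2, H2⟩ := bpath_robust hw eB tB
  obtain ⟨γ3, hγ3, H3⟩ := fpath_robust hw eL tL
  obtain ⟨γ4, hγ4, H4⟩ := fpath_robust hw eR tR
  obtain ⟨γ5, hγ5, H5⟩ := graph_close' (α := P.α) hκ hκ1 hc hm4 WT
  obtain ⟨γ6, hγ6, H6⟩ := graph_close' (α := P.α) hκ hκ1 hc hm4 WB
  obtain ⟨γ7, hγ7, H7⟩ := graph_close' (α := P.α) hκ hκ1 hc hm4 WL
  obtain ⟨γ8, hγ8, H8⟩ := graph_close' (α := P.α) hκ hκ1 hc hm4 WR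
  obtain ⟨γ, hγ, l0, l1, l2, l3, l4, l5, l6, l7, l8⟩ : ∃ γ > 0, γ ≤ γ0 ∧ γ ≤ γ1 ∧ γ ≤ γ2 ∧
      γ ≤ γ3 ∧ γ ≤ γ4 ∧ γ ≤ γ5 ∧ γ ≤ γ6 ∧ γ ≤ γ7 ∧ γ ≤ γ8 := by
    refine ⟨min γ0 (min γ1 (min γ2 (min γ3 (min γ4 (min γ5 (min γ6 (min γ7 γ8))))))), ?_, ?_⟩
    · simp only [gt_iff_lt, lt_min_iff]
      exact ⟨hγ0, hγ1, hγ2, hγ3, hγ4, hγ5, hγ6, hγ7, hγ8⟩
    · simp only [min_le_iff, le_refl, true_or, or_true, and_self]
  have hO : ∀ y, (w 0).co y ∈ ball v (min (m / 4) (1 / 10)) →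
      ‖(w 0).co y - v‖ ≤ m / 4 ∧ ‖(w 0).co y‖ ≤ 1 / 4 := by
    intro y hy
    rw [mem_ball, dist_eq_norm, lt_min_iff] at hy
    refine ⟨hy.1.le, ?_⟩
    have := norm_add_le ((w 0).co y - v) v
    rw [sub_add_cancel] at this
    linarith [hy.2]
  refine ⟨{y | y ∈ (A.e (w 0).i).source ∧ (w 0).co y ∈ ball v (min (m / 4) (1 / 10))},
    (w 0).isOpen_co isOpen_ball, ⟨hxb.1, mem_ball_self (lt_min hm4 (by norm_num))⟩, ?_,
    γ, hγ, fun g hg hn p hp => ?_⟩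
  · rintro y ⟨hy1, hy2⟩
    exact ⟨⟨hy1, (hO y hy2).2.trans (by norm_num)⟩, (hO y hy2).2⟩
  have gw := H0 g hg (near_mono hn l0)
  have pT := H1 g hg (near_mono hn l1)
  have pB := H2 g hg (near_mono hn l2)
  have pL := H3 g hg (near_mono hn l3)
  have pR := H4 g hg (near_mono hn l4)
  have cT := (H5 g f (near_mono hn l5)).2 pT fT
  have cB := (H6 g f (near_mono hn l6)).2 pB fB
  have cL := (H7 g f (near_mono hn l7)).1 pL fL
  have cR := (H8 g f (near_mono hn l8)).1 pR fR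
  obtain ⟨σ, hσ, ζ, hζ, hσζ⟩ := gw.ucurve hκ hκ1 hc hg hp hε
  obtain ⟨a, ha⟩ := top_case hκ hκ1 hc gw hp hζ hσζ tT
  obtain ⟨b, hb⟩ := top_case hκ hκ1 hc gw hp hζ hσζ tB
  obtain ⟨K, hK, hbox, hint, hfr⟩ := region hΦ hc (pL.sg_cont hκ hκ1 hc) (pR.sg_cont hκ hκ1 hc)
    (pB.ug_cont hκ hκ1 hc) (pT.ug_cont hκ hκ1 hc) (fun t ht => (pL.sg_spec hκ hκ1 hc ht).1)
    (fun t ht => (pR.sg_spec hκ hκ1 hc ht).1) (fun t ht => (pB.ug_spec hκ hκ1 hc ht).1)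
    (fun t ht => (pT.ug_spec hκ hκ1 hc ht).1)
  refine ⟨K, σ, a, b, hK, ?_, fun y hy z hz => hΦ.dist_box hc (hbox y hy) (hbox z hz), hσ, ?_⟩
  · rintro y ⟨hy1, hy2⟩
    obtain ⟨d1, d2⟩ := hO y hy2
    have u1 : |((w 0).co y).1| ≤ 1 := abs_fst_le (d2.trans (by norm_num))
    have u2 : |((w 0).co y).2| ≤ 1 := abs_snd_le (d2.trans (by norm_num))
    have v1 : |v.1| ≤ 1 := abs_fst_le (hxn.trans (by norm_num))
    have v2 : |v.2| ≤ 1 := abs_snd_le (hxn.trans (by norm_num))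
    have e1 : |((w 0).co y).1 - v.1| ≤ m / 4 := abs_fst_le d1
    have e2 : |((w 0).co y).2 - v.2| ≤ m / 4 := abs_snd_le d1
    refine hint y hy1 (lt_of_le_of_lt d2 (by norm_num)) ?_ ?_ ?_ ?_
    · exact gap_low hm (cL _ u2) (fL.sg_lip hκ hκ1 hc u2 v2) mL e2 e1
    · exact gap_up hm (cR _ u2) (fR.sg_lip hκ hκ1 hc u2 v2) mR e2 e1
    · exact gap_low hm (cB _ u1) (fB.ug_lip hκ hκ1 hc u1 v1) mB e1 e2
    · exact gap_up hm (cT _ u1) (fT.ug_lip hκ hκ1 hc u1 v1) mT e1 e2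
  · intro z hz
    obtain ⟨t, ht, h | h | h | h⟩ := hfr z hz
    · refine Or.inr (side_case hκ hκ1 hc gw hp tL ?_)
      rw [h, ← L0]
      exact (pL.sg_spec hκ hκ1 hc ht).2
    · refine Or.inr (side_case hκ hκ1 hc gw hp tR ?_)
      rw [h, ← R0]
      exact (pR.sg_spec hκ hκ1 hc ht).2
    · obtain ⟨s, hs, hz⟩ := hb z (by
        rw [h, ← B0]
        exact (pB.ug_spec hκ hκ1 hc ht).2)
      exact Or.inl ⟨s, hs, Or.inr hz⟩
    · obtain ⟨s, hs, hz⟩ := ha z (by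
        rw [h, ← T0]
        exact (pT.ug_spec hκ hκ1 hc ht).2)
      exact Or.inl ⟨s, hs, Or.inl hz⟩

end Atlas

end Pool.Agent.Lib.MP_901be3_an.Hd
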