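import Pool.Agent.Lib.MP_901be3_an.Hd.TQuad
import Pool.Agent.Lib.MP_901be3_an.Hd.TCross
import Pool.Agent.Lib.MP_901be3_an.Hd.TTrap
import Pool.Agent.Lib.MP_901be3_an.Hd.TCont
import Pool.Agent.Lib.MP_901be3_an.Hd.PSysEx

namespace Pool.Agent.Lib.MP_901be3_an.Hd

open MeasureTheory Filter Topology Metric Set
open scoped ENNReal

variable {X : Type*} [MetricSpace X] [CompactSpace X] [MeasurableSpace X] [BorelSpace X]

namespace Atlas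

/-- almost every point of an ergodic measure with entropy at least `t` lies in a trap -/
theorem tdatum (A : Atlas X) {P : Par} {f : X ≃ₜ X} (hf : A.Good P f) {F : ℕ → X ≃ₜ X}
    (hF : ∀ᶠ n in atTop, A.Good P (F n)) (hconv : ∀ γ > 0, ∀ᶠ n in atTop, Near γ (F n) f)
    {ε δ η t : ℝ} (hε : 0 < ε) (hδ : 0 < δ) (hη : 0 < η) (ht : 0 < t) {ν : Measure X}
    [IsProbabilityMeasure ν] (hν : Ergodic f ν) (h : ENNReal.ofReal t ≤ ksEnt f ν) :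
    ∀ᵐ x ∂ν, ∃ (q : X) (N : ℕ) (c : ℕ → X) (O : Set X), x ∈ O ∧
      A.Datum P ε δ η t f F q N c O := by
  have hpos : 0 < ksEnt f ν := (ENNReal.ofReal_pos.2 ht).trans_le h
  have hL : 0 < A.L := one_pos.trans_le A.one_le_L
  obtain ⟨c₁, hc₁, hcr⟩ := tcross A P hε hδ
  obtain ⟨κ, hκ, hκ1, hS⟩ := psys A hf hν hpos
  obtain ⟨c₀, -, hc₀, ⟨S⟩⟩ := hS (min (min (1 / 4) c₁) (η / (2 * A.L))) (by positivity)
  have hc : c₀ ≤ 1 / 4 := hc₀.trans ((min_le_left _ _).trans (min_le_left _ _))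
  have hc' : c₀ ≤ c₁ := hc₀.trans ((min_le_left _ _).trans (min_le_right _ _))
  have hc'' : 2 * A.L * c₀ ≤ η := by
    have := hc₀.trans (min_le_right _ _)
    rwa [le_div_iff₀' (by positivity)] at this
  filter_upwards [tquad hκ hκ1 hc hf hν.toMeasurePreserving (noAtoms_of_ksEnt_pos hν hpos) S]
    with x ⟨j, w, N, hj, hw, h0, hq⟩
  have hw' : Loop (Edge P.α κ c₀ f) w N := ⟨hw.1, hw.2.1, fun j hj => (hw.2.2 j hj).edge hf⟩
  obtain ⟨q, hq'⟩ := hw'.exists_perPt hκ hκ1 hc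
  obtain ⟨c, hc1, hc2⟩ := tcont hκ hκ1 hc hf hF hconv hw hq'
  obtain ⟨O, o1, o2, o3, γ, hγ, o4⟩ := ttrap hκ hκ1 hc hf hw hq hε
  obtain ⟨γ', hγ', hr⟩ := hw.robust
  refine ⟨q, N, c, O, o2, o1, hc1, ⟨ν, h, S.rel hκ hκ1 hc hf (hyp_of_pos A hf hν hpos) hj hw' h0
    hq' (hw'.hyp hκ hκ1 hc hf hq')⟩, ?_⟩
  filter_upwards [hF, hc2, hconv γ hγ, hconv γ' hγ'] with n g1 g2 g3 g4
  have hl := hr _ g1 g4
  obtain ⟨K, σ, a, b, k1, k2, k3, k4, k5⟩ := o4 _ g1 g3 _ g2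
  exact ⟨g2.1, hl.hyp hκ hκ1 hc g1 g2, (hcr κ c₀ hκ hκ1 hc' hc _ g1 w N _ hl g2).mono o3,
    K, σ, a, b, k1, k2, fun y hy z hz => (k3 y hy z hz).trans hc'', k4, k5⟩

end Atlas

end Pool.Agent.Lib.MP_901be3_an.Hd
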