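import Pool.Agent.Lib.MP_901be3_an.Hd.YClose
import Pool.Agent.Lib.MP_901be3_an.Hd.AtLip
import Pool.Agent.Lib.MP_901be3_an.Hd.Cov

namespace Pool.Agent.Lib.MP_901be3_an.Hd

open MeasureTheory Filter Topology Metric Set
open scoped ENNReal

variable {X : Type*} [MetricSpace X] [MeasurableSpace X] [CompactSpace X]

namespace YCountAux

theorem card_cover (S : Finset ℝ) (T : Finset (ℝ × ℝ)) {N B : ℝ} (hB : 0 ≤ B)
    (hT : (T.card : ℝ) ≤ N) (hc : ∀ x ∈ S, ∃ t ∈ T, |x - t.1| ≤ t.2)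
    (hb : ∀ t ∈ T, ((S.filter fun x => |x - t.1| ≤ t.2).card : ℝ) ≤ B) : (S.card : ℝ) ≤ N * B := by
  classical
  have h1 : S ⊆ T.biUnion fun t => S.filter fun x => |x - t.1| ≤ t.2 := fun x hx => by
    obtain ⟨t, ht, h⟩ := hc x hx
    exact Finset.mem_biUnion.2 ⟨t, ht, Finset.mem_filter.2 ⟨hx, h⟩⟩
  have h2 : (S.card : ℝ) ≤ ∑ t ∈ T, ((S.filter fun x => |x - t.1| ≤ t.2).card : ℝ) := by
    exact_mod_cast (Finset.card_le_card h1).trans Finset.card_biUnion_le
  have h3 := Finset.sum_le_card_nsmul T _ B hb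
  rw [nsmul_eq_mul] at h3
  exact h2.trans (h3.trans (mul_le_mul_of_nonneg_right hT hB))

theorem prod_cost {K Y : ℝ} (hK : 1 ≤ K) (hY : 1 ≤ Y) {m : ℕ} {C : Finset ℕ} (R : Finset ℕ)
    (hC : C ⊆ Finset.range m) :
    ∏ i ∈ Finset.Ico 0 m, ((if i ∈ R then K else 1) * if i ∈ C then 1 else Y) ≤
      K ^ R.card * Y ^ (m - C.card) := by
  rw [Finset.prod_mul_distrib, ← Finset.range_eq_Ico, Finset.prod_ite, Finset.prod_ite,
    Finset.prod_const_one, Finset.prod_const_one, Finset.prod_const, Finset.prod_const, mul_one,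
    one_mul, ← Finset.sdiff_eq_filter, Finset.card_sdiff_of_subset hC, Finset.card_range]
  refine mul_le_mul_of_nonneg_right (pow_le_pow_right₀ hK (Finset.card_le_card fun i hi => ?_))
    (by positivity)
  exact (Finset.mem_filter.1 hi).2

end YCountAux

namespace Atlas

/-- the counting lemma -/
theorem ycount (A : Atlas X) {α : ℝ} (hα : 0 < α) (hα1 : α ≤ 1) (n : ℕ) : ∃ Cy : ℝ, 1 ≤ Cy ∧
    ∀ P : Par, P.α = α → P.n = n → ∃ ε : ℝ, 0 < ε ∧ ∀ a : ℝ, 1 ≤ a →
      ∃ K : ℝ, 1 ≤ K ∧ ∀ M₀ : ℕ, ∃ η > 0, ∀ G : X → X, A.Reg P G → A.Reg P id → A.DBd G a →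
        A.Count P ε (ε / Cy) (Cy * a ^ (1 / P.r) * (Real.log a + 1)) K M₀ η G := by
  classical
  obtain ⟨Cy, hCy, hstep⟩ := A.ystep hα hα1 n
  refine ⟨Cy, hCy, fun P hPα hPn => ?_⟩
  obtain ⟨ε, hε, hstep⟩ := hstep P hPα hPn
  refine ⟨ε, hε, fun a ha => ?_⟩
  have hδ : 0 < ε / Cy := div_pos hε (by linarith)
  obtain ⟨κ₀, hκ, hκ1, hclose⟩ := A.yclose P hε hδ
  obtain ⟨Kr, hKr, href⟩ := A.yrefine P hε hδ hκ
  obtain ⟨Λ, hΛ, hlip⟩ := A.exists_lip P
  have hL : 0 ≤ A.L * ε := mul_nonneg (zero_le_one.trans A.one_le_L) hε.le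
  have h4a : Kr ≤ 4 * a * Kr := le_mul_of_one_le_left (by linarith) (by linarith)
  set K := 4 * a * Kr + A.L * ε with hKdef
  have hK : 1 ≤ K := by linarith
  refine ⟨K, hK, fun M₀ => ?_⟩
  obtain ⟨η, hη, hclose⟩ := hclose Λ hΛ M₀
  refine ⟨η, hη, fun G hG hid hD σ m S C R ε' hσ hε' hS hcl hsep => ?_⟩
  set Y := Cy * a ^ (1 / P.r) * (Real.log a + 1) with hYdef
  have hY : 1 ≤ Y := by
    have h1 : 0 ≤ 1 / P.r := by
      have := P.α_pos
      unfold Par.r
      positivity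
    exact one_le_mul_of_one_le_of_one_le
      (one_le_mul_of_one_le_of_one_le hCy (Real.one_le_rpow ha h1))
      (by linarith [Real.log_nonneg ha])
  have hF : 0 ≤ A.L * ε / ε' + 1 := by positivity
  rcases S.eq_empty_or_nonempty with rfl | ⟨x₀, hx₀⟩
  · rw [Finset.card_empty, Nat.cast_zero]
    positivity
  have hC : C ⊆ Finset.range m := (hS x₀ hx₀).2.1 ▸ cov_subset _ _ _
  have hstep := hstep ε hε le_rfl a ha G hG hD σ
  have href := href G hid σ
  have hclose := hclose G (hlip G hG) σ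
  let cost : ℕ → ℝ := fun i => (if i ∈ R then K else 1) * if i ∈ C then 1 else Y
  have hcost : ∀ i, 1 ≤ cost i := fun i => by
    refine one_le_mul_of_one_le_of_one_le ?_ ?_
    · split_ifs
      · exact hK
      · exact le_rfl
    · split_ifs
      · exact le_rfl
      · exact hY
  have hprod : ∀ j, 0 ≤ (∏ i ∈ Finset.Ico j m, cost i) * (A.L * ε / ε' + 1) := fun j =>
    mul_nonneg (Finset.prod_nonneg fun i _ => zero_le_one.trans (hcost i)) hF
  have main : ∀ k j, j + k = m → ∀ S' ⊆ S,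
      (j ∉ C → ∃ s ρ, A.SGup P ε G σ s (3 * ρ) j ∧ ∀ x ∈ S', |x - s| ≤ ρ) →
      (∀ x ∈ S', ∀ y ∈ S', ∀ b ≤ j, ∀ ρ', A.GeoW P ε (ε / Cy) G σ x b ρ' →
        |y - x| ≤ κ₀ * ρ' / 3) →
      (S'.card : ℝ) ≤ (∏ i ∈ Finset.Ico j m, cost i) * (A.L * ε / ε' + 1) := by
    intro k
    induction k with
    | zero =>
      intro j hj S' hS' h1 _
      obtain rfl : j = m := hj
      obtain ⟨s, ρ, h2, h3⟩ := h1 fun h => lt_irrefl _ (Finset.mem_range.1 (hC h))
      rw [Finset.Ico_self, Finset.prod_empty, one_mul]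
      exact A.yfinal P hε hε' h2 S' h3 fun x hx y hy => hsep x (hS' hx) y (hS' hy)
    | succ k ih =>
      intro j hj S' hS' h1 h2
      have hjm : j < m := by omega
      have ih' := ih (j + 1) (by omega)
      rw [Finset.prod_eq_prod_Ico_succ_bot hjm, mul_assoc]
      by_cases hjC : j ∈ C
      · rcases S'.eq_empty_or_nonempty with rfl | ⟨x₁, hx₁⟩
        · rw [Finset.card_empty, Nat.cast_zero]
          exact mul_nonneg (zero_le_one.trans (hcost j)) (hprod _)
        have h3 : ∀ x ∈ S', ∀ y ∈ S', ∀ b ≤ j + 1, ∀ ρ', A.GeoW P ε (ε / Cy) G σ x b ρ' →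
            |y - x| ≤ κ₀ * ρ' / 3 := by
          intro x hx y hy b hb ρ' hw
          rcases hb.eq_or_lt with rfl | hb
          · have hc := (hS x (hS' hx)).2.1
            obtain ⟨c, c1, c2, c3, c4⟩ := cov_prev (E := A.Geo P ε (ε / Cy) G σ x)
              (hc ▸ hjC : j ∈ cov M₀ _ m) ⟨ρ', hw⟩
            obtain ⟨ρc, hρc⟩ := id c2
            exact hclose x y c (j + 1) ρc ρ' (by omega) c4 hρc hw (h2 x hx y hy c c3 ρc hρc)
              (hcl x (hS' hx) y (hS' hy) c (hc ▸ c1) c2)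
          · exact h2 x hx y hy b (by omega) ρ' hw
        refine (ih' S' hS' (fun hj1 => ?_) h3).trans (le_mul_of_one_le_left (hprod _) (hcost j))
        have hc := (hS x₁ (hS' hx₁)).2.1
        obtain ⟨ρ', hw⟩ := cov_exit (hc ▸ hjC : j ∈ cov M₀ _ m) (hc ▸ hj1)
        have hρ' : 0 < ρ' := hw.1.1
        refine ⟨x₁, κ₀ * ρ' / 3, hw.1.repar (by positivity) ?_,
          fun y hy => h3 x₁ hx₁ y hy (j + 1) le_rfl ρ' hw⟩
        rw [sub_self, abs_zero]
        nlinarith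
      obtain ⟨s, ρ, h3, h4⟩ := h1 hjC
      obtain ⟨⟨T, t1, t2, t3⟩, T', u1, u2, u3⟩ := hstep s ρ j h3
      by_cases hjR : j ∈ R
      · have h5 : 4 * a * Kr ≤ cost j := by
          simp only [cost, if_pos hjR, if_neg hjC]
          exact (le_add_of_nonneg_right hL).trans (le_mul_of_one_le_right (by linarith) hY)
        refine le_trans ?_ (mul_le_mul_of_nonneg_right h5 (hprod _))
        rw [mul_assoc]
        refine YCountAux.card_cover S' T' (mul_nonneg (by linarith) (hprod _)) u1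
          (fun x hx => u3 x (h4 x hx)) fun t ht => ?_
        obtain ⟨T'', v1, v2, v3, v4⟩ := href t.1 t.2 (j + 1) (u2 t ht)
        refine YCountAux.card_cover _ T'' (hprod _) v1
          (fun x hx => v3 x (Finset.mem_filter.1 hx).2) fun t' ht' => ?_
        have h6 : ((S'.filter fun x => |x - t.1| ≤ t.2).filter fun x => |x - t'.1| ≤ t'.2) ⊆ S' :=
          (Finset.filter_subset _ _).trans (Finset.filter_subset _ _)
        refine ih' _ (h6.trans hS') (fun _ => ⟨t'.1, t'.2, v2 t' ht',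
          fun x hx => (Finset.mem_filter.1 hx).2⟩) fun x hx y hy b hb ρ' hw => ?_
        rcases hb.eq_or_lt with rfl | hb
        · exact v4 t' ht' x y (Finset.mem_filter.1 hx).2 (Finset.mem_filter.1 hy).2 ρ' hw
        · exact h2 x (h6 hx) y (h6 hy) b (by omega) ρ' hw
      · have h5 : cost j = Y := by simp only [cost, if_neg hjR, if_neg hjC, one_mul]
        have h6 : ∀ x ∈ S', j + 1 ∉ A.Geo P ε (ε / Cy) G σ x := fun x hx h => by
          obtain ⟨-, c1, c2⟩ := hS x (hS' hx)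
          refine hjR (c2 ?_)
          unfold rst
          exact Finset.mem_filter.2 ⟨Finset.mem_range.2 hjm, c1 ▸ hjC, h⟩
        rw [h5]
        refine YCountAux.card_cover S' T (hprod _) t1
          (fun x hx => (t3 x (h4 x hx)).resolve_left (h6 x hx)) fun t ht => ?_
        have h7 : (S'.filter fun x => |x - t.1| ≤ t.2) ⊆ S' := Finset.filter_subset _ _
        refine ih' _ (h7.trans hS') (fun _ => ⟨t.1, t.2, t2 t ht,
          fun x hx => (Finset.mem_filter.1 hx).2⟩) fun x hx y hy b hb ρ' hw => ?_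
        rcases hb.eq_or_lt with rfl | hb
        · exact absurd ⟨ρ', hw⟩ (h6 x (h7 hx))
        · exact h2 x (h7 hx) y (h7 hy) b (by omega) ρ' hw
  have h0 : A.SGup P ε G σ 0 (3 * (1 / 3)) 0 := by
    refine ⟨by norm_num, by norm_num, fun l hl => ?_⟩
    obtain rfl : l = 0 := by omega
    have e : G^[0] ∘ rp σ 0 (3 * (1 / 3)) = σ := by
      funext τ
      simp [rp]
    rwa [e]
  obtain ⟨T, v1, v2, v3, v4⟩ := href 0 (1 / 3) 0 h0
  have h1 : (S.card : ℝ) ≤ Kr * ((∏ i ∈ Finset.Ico 0 m, cost i) * (A.L * ε / ε' + 1)) := by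
    refine YCountAux.card_cover S T (hprod _) v1
      (fun x hx => v3 x (by rw [sub_zero]; exact (hS x hx).1)) fun t ht => ?_
    refine main m 0 (zero_add m) _ (Finset.filter_subset _ _) (fun _ => ⟨t.1, t.2, v2 t ht,
      fun x hx => (Finset.mem_filter.1 hx).2⟩) fun x hx y hy b hb ρ' hw => ?_
    obtain rfl : b = 0 := by omega
    exact v4 t ht x y (Finset.mem_filter.1 hx).2 (Finset.mem_filter.1 hy).2 ρ' hw
  have h2 : ∏ i ∈ Finset.Ico 0 m, cost i ≤ K ^ R.card * Y ^ (m - C.card) :=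
    YCountAux.prod_cost hK hY R hC
  have h3 : A.L * ε / ε' + 1 ≤ K / ε' + 1 := by
    have : A.L * ε ≤ K := by linarith
    gcongr
  refine h1.trans ?_
  rw [pow_succ', mul_assoc, mul_assoc, ← mul_assoc (K ^ R.card)]
  exact mul_le_mul (by linarith) (mul_le_mul h2 h3 hF (by positivity)) (hprod 0) (by linarith)

end Atlas

end Pool.Agent.Lib.MP_901be3_an.Hd
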