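import Pool.Agent.Lib.MP_901be3_an.Hd.MLimit
import Pool.Agent.Lib.MP_901be3_an.Hd.MConf
import Pool.Agent.Lib.MP_901be3_an.Hd.TDatum
import Pool.Agent.Lib.MP_901be3_an.Hd.KHorse
import Pool.Agent.Lib.MP_901be3_an.Hd.YCount

namespace Pool.Agent.Lib.MP_901be3_an.Hd

open MeasureTheory Filter Topology Metric Set
open scoped ENNReal

variable {X : Type*} [MetricSpace X] [CompactSpace X] [MeasurableSpace X] [BorelSpace X]

namespace Atlas

/-- choice of the iterate -/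
theorem exists_iterate {Cy B lam r t : ℝ} (hCy : 1 ≤ Cy) (hB : 1 ≤ B) (hr : 1 ≤ r) (ht : 0 < t)
    (hlam : lam / r < t) : ∃ t₀ : ℝ, 0 < t₀ ∧ t₀ < t ∧ ∀ᶠ p : ℕ in atTop,
      Cy * (B ^ 2 * (Real.exp (lam * p) + 1)) ^ (1 / r) *
        (Real.log (B ^ 2 * (Real.exp (lam * p) + 1)) + 1) ≤ Real.exp (t₀ * p) := by
  have hr0 : 0 < r := by linarith
  set l : ℝ := max lam 0 with hl
  have hl0 : 0 ≤ l := le_max_right _ _
  have hlr : l / r < t := by
    rcases le_total lam 0 with h | h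
    · rw [hl, max_eq_right h, zero_div]; exact ht
    · rw [hl, max_eq_left h]; exact hlam
  have hlr0 : 0 ≤ l / r := div_nonneg hl0 hr0.le
  set d : ℝ := (t - l / r) / 2 with hd
  have hd0 : 0 < d := by rw [hd]; linarith
  refine ⟨l / r + d, by linarith, by rw [hd]; linarith, ?_⟩
  set c : ℝ := 2 * B ^ 2 with hc
  have hB2 : 1 ≤ B ^ 2 := one_le_pow₀ hB
  have hc1 : 1 ≤ c := by rw [hc]; linarith
  have hlim : Tendsto (fun p : ℕ => (Cy * c * (Real.log c + 1) + Cy * c * l * p) *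
      Real.exp (-(d * p))) atTop (𝓝 0) := by
    have h0 : Tendsto (fun p : ℕ => d * (p : ℝ)) atTop atTop :=
      tendsto_natCast_atTop_atTop.const_mul_atTop hd0
    have h1 : Tendsto (fun p : ℕ => Real.exp (-(d * p))) atTop (𝓝 0) :=
      Real.tendsto_exp_neg_atTop_nhds_zero.comp h0
    have h2 : Tendsto (fun p : ℕ => (d * p) ^ 1 * Real.exp (-(d * p))) atTop (𝓝 0) :=
      (Real.tendsto_pow_mul_exp_neg_atTop_nhds_zero 1).comp h0
    have h3 := (h1.const_mul (Cy * c * (Real.log c + 1))).add (h2.const_mul (Cy * c * l / d))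
    simp only [mul_zero, add_zero] at h3
    refine h3.congr fun p => ?_
    field_simp
  filter_upwards [hlim.eventually (gt_mem_nhds one_pos)] with p hp
  have hp0 : (0 : ℝ) ≤ p := Nat.cast_nonneg p
  have he1 : Real.exp (lam * p) ≤ Real.exp (l * p) :=
    Real.exp_le_exp.2 (mul_le_mul_of_nonneg_right (le_max_left _ _) hp0)
  have he2 : 1 ≤ Real.exp (l * p) := Real.one_le_exp (mul_nonneg hl0 hp0)
  have hpos : 0 < B ^ 2 * (Real.exp (lam * p) + 1) := by positivity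
  have hle : B ^ 2 * (Real.exp (lam * p) + 1) ≤ c * Real.exp (l * p) := by
    rw [hc]; nlinarith
  have hone : 1 ≤ B ^ 2 * (Real.exp (lam * p) + 1) := by
    nlinarith [Real.exp_pos (lam * p)]
  have h1 : (B ^ 2 * (Real.exp (lam * p) + 1)) ^ (1 / r) ≤ c * Real.exp (l / r * p) := by
    have hinv : 0 ≤ 1 / r := by positivity
    calc _ ≤ (c * Real.exp (l * p)) ^ (1 / r) := Real.rpow_le_rpow hpos.le hle hinv
      _ = c ^ (1 / r) * Real.exp (l / r * p) := by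
          rw [Real.mul_rpow (by linarith) (Real.exp_pos _).le, ← Real.exp_mul]
          congr 2
          ring
      _ ≤ c * Real.exp (l / r * p) := by
          refine mul_le_mul_of_nonneg_right ?_ (Real.exp_pos _).le
          calc c ^ (1 / r) ≤ c ^ (1 : ℝ) :=
                Real.rpow_le_rpow_of_exponent_le hc1 (by rw [div_le_one hr0]; exact hr)
            _ = c := Real.rpow_one c
  have h2 : Real.log (B ^ 2 * (Real.exp (lam * p) + 1)) + 1 ≤ Real.log c + 1 + l * p := by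
    have := Real.log_le_log hpos hle
    rw [Real.log_mul (by linarith) (Real.exp_pos _).ne', Real.log_exp] at this
    linarith
  have h2' : 0 ≤ Real.log (B ^ 2 * (Real.exp (lam * p) + 1)) + 1 := by
    linarith [Real.log_nonneg hone]
  have h3 : Cy * c * (Real.log c + 1) + Cy * c * l * p ≤ Real.exp (d * p) := by
    have h4 := mul_le_mul_of_nonneg_right hp.le (Real.exp_pos (d * p)).le
    rwa [mul_assoc, ← Real.exp_add, neg_add_cancel, Real.exp_zero, mul_one, one_mul] at h4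
  calc _ ≤ Cy * (c * Real.exp (l / r * p)) * (Real.log c + 1 + l * p) := by
        refine mul_le_mul (mul_le_mul_of_nonneg_left h1 (by linarith)) h2 h2' ?_
        positivity
    _ = (Cy * c * (Real.log c + 1) + Cy * c * l * p) * Real.exp (l / r * p) := by ring
    _ ≤ Real.exp (d * p) * Real.exp (l / r * p) :=
        mul_le_mul_of_nonneg_right h3 (Real.exp_pos _).le
    _ = Real.exp ((l / r + d) * p) := by rw [← Real.exp_add]; congr 1; ring

/-- the abstract theorem, forward version -/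
theorem core (A : Atlas X) {P : Par} {f : X ≃ₜ X} (hf : A.Good P f) {F : ℕ → X ≃ₜ X}
    (hF : ∀ᶠ n in atTop, A.Good P (F n)) (hconv : ∀ γ > 0, ∀ᶠ n in atTop, Near γ (F n) f)
    {t lam : ℝ} (ht : 0 < t) (hlam : lam / P.r < t)
    (hgrow : ∀ᶠ p : ℕ in atTop, ∀ x, ‖A.D f^[p] x‖ ≤ Real.exp (lam * p)) : A.Concl f F t := by
  classical
  obtain ⟨Cy, hCy, hY⟩ := A.ycount P.α_pos P.α_le P.n
  have hr : 1 ≤ P.r := by
    have := P.α_pos
    have : (0 : ℝ) ≤ P.n := Nat.cast_nonneg _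
    unfold Par.r
    linarith
  obtain ⟨t₀, ht₀, ht₀t, hev⟩ := exists_iterate (lam := lam) hCy P.one_le_B hr ht hlam
  obtain ⟨p₀, ⟨hp1, hp2⟩, hp₀⟩ := ((hev.and hgrow).and (eventually_gt_atTop 0)).exists
  obtain ⟨P', hα, hn, hP'⟩ := A.good_iter P p₀
  obtain ⟨ε, hε, hY⟩ := hY P' hα hn
  set a : ℝ := P.B ^ 2 * (Real.exp (lam * p₀) + 1) with ha_def
  have ha : 1 ≤ a := by
    have h1 : 1 ≤ P.B ^ 2 := one_le_pow₀ P.one_le_B
    nlinarith [Real.exp_pos (lam * p₀)]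
  obtain ⟨K, hK, hCount⟩ := hY a ha
  have hr' : P'.r = P.r := by unfold Par.r; rw [hα, hn]
  rw [hr'] at hCount
  set Y : ℝ := Cy * a ^ (1 / P.r) * (Real.log a + 1) with hY_def
  have hY1 : 1 ≤ Y := by
    have h1 : 1 ≤ a ^ (1 / P.r) := Real.one_le_rpow ha (by positivity)
    have h2 : 1 ≤ Real.log a + 1 := by linarith [Real.log_nonneg ha]
    exact one_le_mul_of_one_le_of_one_le (one_le_mul_of_one_le_of_one_le hCy h1) h2
  have hδ : 0 < ε / Cy := div_pos hε (by linarith)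
  set δ : ℝ := ε / Cy with hδ_def
  have hf' := hP' f hf
  obtain ⟨γ₀, hγ₀, hdbd⟩ := A.dbd_of_close P P' hf.2.2 hf'.2 hp2
  obtain ⟨γ₁, hγ₁, hit⟩ := A.iter_close P p₀ hγ₀
  have hFg : ∀ᶠ n in atTop, A.Good P' (F n) ∧ A.Reg P' (F n)^[p₀] ∧ A.DBd (F n)^[p₀] a := by
    filter_upwards [hF, hconv γ₁ hγ₁] with n h1 h2
    exact ⟨(hP' _ h1).1, (hP' _ h1).2, hdbd _ (hP' _ h1).2
      (hit _ _ hf.1 (fun x => (h2 x).1) p₀ le_rfl)⟩
  have hF' : ∀ᶠ n in atTop, A.Good P' (F n) := hFg.mono fun n h => h.1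
  by_contra hcon
  let D : Type _ := {d : ℝ × X × ℕ × (ℕ → X) × Set X //
    A.Datum P' ε δ d.1 t f F d.2.1 d.2.2.1 d.2.2.2.1 d.2.2.2.2}
  let s : ℕ → ℝ := fun j => max ((t₀ + t) / 2) (t - 1 / (j + 1))
  have hj : ∀ j : ℕ, (0 : ℝ) < 1 / (j + 1) := fun j => by positivity
  have hst : ∀ j, s j < t := fun j => max_lt (by linarith) (by linarith [hj j])
  have hs0 : ∀ j, t₀ < s j := fun j => lt_max_of_lt_left (by linarith)
  have key : ∀ k : Finset D × ℕ, ∃ n : ℕ,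
      ((A.Good P' (F n) ∧ A.Reg P' (F n)^[p₀] ∧ A.DBd (F n)^[p₀] a) ∧
        Near (1 / (k.2 + 1)) (F n) f ∧
        ∀ d ∈ k.1, (F n)^[d.1.2.2.1] (d.1.2.2.2.1 n) = d.1.2.2.2.1 n ∧
          A.Hyp (F n) (perMeas (F n) (d.1.2.2.2.1 n) d.1.2.2.1) ∧
          A.Trap P' ε δ d.1.1 (F n) (d.1.2.2.2.1 n) d.1.2.2.2.2) ∧
      ∃ μ : Measure X, IsProbabilityMeasure μ ∧ Ergodic (F n) μ ∧
        ENNReal.ofReal (s k.2) < ksEnt (F n) μ ∧
        ∀ d ∈ k.1, ¬ A.Same (F n) μ (perMeas (F n) (d.1.2.2.2.1 n) d.1.2.2.1) := by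
    intro k
    by_contra hk
    apply hcon
    let e := k.1.equivFin.symm
    refine ⟨k.1.card, fun i => (e i).1.1.2.1, fun i => (e i).1.1.2.2.1,
      fun i => (e i).1.1.2.2.2.1, s k.2, hst _, fun i => ⟨(e i).1.2.2.1, (e i).1.2.2.2.1⟩, ?_⟩
    have h3 : ∀ᶠ n in atTop, ∀ d ∈ k.1, (F n)^[d.1.2.2.1] (d.1.2.2.2.1 n) = d.1.2.2.2.1 n ∧
        A.Hyp (F n) (perMeas (F n) (d.1.2.2.2.1 n) d.1.2.2.1) ∧
        A.Trap P' ε δ d.1.1 (F n) (d.1.2.2.2.1 n) d.1.2.2.2.2 :=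
      (eventually_all_finset k.1).2 fun d _ => d.2.2.2.2
    filter_upwards [hFg, hconv _ (hj k.2), h3] with n h1 h2 h3 μ hμ1 hμ2 hμ3
    by_contra hno
    refine hk ⟨n, ⟨h1, h2, h3⟩, μ, hμ1, hμ2, hμ3, fun d hd hs => hno ⟨e.symm ⟨d, hd⟩, ?_⟩⟩
    simpa using hs
  choose nn hgood μ hμ1 hμ2 hμ3 hμ4 using key
  have hhorse : ∀ k : Finset D × ℕ, ∃ (p : X) (N : ℕ) (σ : ℝ → X) (H : Set ℝ) (ε' : ℝ),
      A.Horse P' ε (F (nn k)) (s k.2) p N σ H ε' ∧
        A.Rel (F (nn k)) (μ k) (perMeas (F (nn k)) p N) := by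
    intro k
    have := hμ1 k
    exact A.exists_horse (hgood k).1.1 (hμ2 k) (ht₀.le.trans (hs0 _).le) (hμ3 k) hε
  choose p N σ H ε' hH hrel using hhorse
  have hp₀' : (1 : ℝ) ≤ p₀ := by exact_mod_cast hp₀
  have hS : ∀ k : Finset D × ℕ, ∃ (m : ℕ) (S : Finset ℝ), k.2 ≤ m ∧ (↑S : Set ℝ) ⊆ H k ∧
      S.Nonempty ∧ Real.log (1 / ε' k + 1) ≤ 1 / (k.2 + 1) * m ∧
      (t - 2 * (1 / (k.2 + 1))) * (m * p₀) ≤ Real.log S.card ∧
      ∀ x ∈ S, ∀ y ∈ S, x ≠ y → ∃ j < m * p₀,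
        ε' k ≤ dist ((F (nn k))^[j] (σ k x)) ((F (nn k))^[j] (σ k y)) := by
    intro k
    obtain ⟨C, hC⟩ := (hH k).2.2.2.2.2.2.1
    obtain ⟨m, hm⟩ := exists_nat_ge (max (k.2 : ℝ)
      (max (Real.log (1 / ε' k + 1) * (k.2 + 1)) (C * (k.2 + 1))))
    obtain ⟨S, hS1, hS2, hS3⟩ := hC (m * p₀)
    have hk1 : (0 : ℝ) < k.2 + 1 := by positivity
    have hm1 : (k.2 : ℝ) ≤ m := (le_max_left _ _).trans hm
    have hm2 : Real.log (1 / ε' k + 1) * (k.2 + 1) ≤ m :=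
      ((le_max_left _ _).trans (le_max_right _ _)).trans hm
    have hm3 : C * (k.2 + 1) ≤ m := ((le_max_right _ _).trans (le_max_right _ _)).trans hm
    have hpos : (0 : ℝ) < S.card := (Real.exp_pos _).trans_le hS2
    refine ⟨m, S, by exact_mod_cast hm1, hS1, Finset.card_pos.1 (by exact_mod_cast hpos), ?_, ?_,
      hS3⟩
    · rw [one_div (k.2 + 1 : ℝ), inv_mul_eq_div, le_div_iff₀ hk1]; exact hm2
    · have h1 := (Real.le_log_iff_exp_le hpos).2 hS2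
      have hm0 : (0 : ℝ) ≤ m := Nat.cast_nonneg _
      have h2 : C ≤ 1 / (k.2 + 1) * (m * p₀) := by
        rw [one_div (k.2 + 1 : ℝ), inv_mul_eq_div, le_div_iff₀ hk1]; nlinarith
      have h3 : t - 1 / (k.2 + 1) ≤ s k.2 := le_max_right _ _
      have h4 := mul_le_mul_of_nonneg_right h3 (mul_nonneg hm0 (by linarith : (0 : ℝ) ≤ p₀))
      push_cast at h1
      linarith
  choose m S hm1 hSH hSne hm2 hm3 hsep using hS
  let 𝒰 : Ultrafilter (Finset D × ℕ) := Ultrafilter.of atTop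
  have h𝒰 : (𝒰 : Filter (Finset D × ℕ)) ≤ atTop := Ultrafilter.of_le _
  have hsnd : Tendsto (fun k : Finset D × ℕ => k.2) 𝒰 atTop := by
    refine Tendsto.mono_left ?_ h𝒰
    rw [← prod_atTop_atTop_eq]
    exact tendsto_snd
  have hsmall : ∀ γ > 0, ∀ᶠ k in (𝒰 : Filter (Finset D × ℕ)), (1 : ℝ) / (k.2 + 1) ≤ γ :=
    fun γ hγ => ((tendsto_one_div_add_atTop_nhds_zero_nat.comp hsnd).eventually
      (ge_mem_nhds hγ))
  refine mlimit (A := A) (P := P') (f := f) 𝒰 (g := fun k => F (nn k)) (fun k => (hgood k).1.1)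
    (fun γ hγ => (hsmall γ hγ).mono fun k hk x => ((hgood k).2.1 x).1.trans hk) hp₀
    (ε := ε) (δ := δ) (t := t) hY1 hK ht₀t hp1 ?_ σ S m ε' ?_ hSne ?_ ?_ hsep ?_ ?_ ?_
    (fun η => ⋃ d : D, ⋃ _ : d.1.1 = η, d.1.2.2.2.2) ?_ ?_ ?_
  · intro M₀
    obtain ⟨η, hη, h⟩ := hCount M₀
    exact ⟨η, hη, fun k => h _ (hgood k).1.2.1 (hgood k).1.1.2.2 (hgood k).1.2.2⟩
  · intro k
    obtain ⟨i, hi, _⟩ := (hH k).2.2.2.2.1.1
    exact ⟨i, hi⟩
  · exact fun k x hx => (hH k).2.2.2.2.2.1 x (hSH k hx)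
  · exact fun k => (hH k).2.2.2.1
  · exact tendsto_atTop_mono hm1 hsnd
  · intro γ hγ
    exact (hsmall γ hγ).mono fun k hk =>
      (hm2 k).trans (mul_le_mul_of_nonneg_right hk (Nat.cast_nonneg _))
  · intro γ hγ
    refine (hsmall (γ / 2) (by linarith)).mono fun k hk => le_trans ?_ (hm3 k)
    refine mul_le_mul_of_nonneg_right (by linarith) (by positivity)
  · exact fun η => isOpen_iUnion fun d => isOpen_iUnion fun _ => d.2.1
  · intro η hη ν hν1 hν2 hν3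
    have h := A.tdatum hf'.1 hF' hconv hε hδ hη ht hν2 hν3
    refine measure_mono_null (fun x hx => ?_) (ae_iff.1 h)
    rintro ⟨q, N', c, O, hxO, hd⟩
    exact hx (mem_iUnion.2 ⟨⟨(η, q, N', c, O), hd⟩, mem_iUnion.2 ⟨rfl, hxO⟩⟩)
  · intro η hη K' hK' hKU
    obtain ⟨T, hT⟩ := hK'.elim_finite_subcover (fun d : D => ⋃ _ : d.1.1 = η, d.1.2.2.2.2)
      (fun d => isOpen_iUnion fun _ => d.2.1) hKU
    have hev : ∀ᶠ k in (𝒰 : Filter (Finset D × ℕ)), T ⊆ k.1 :=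
      h𝒰 ((eventually_ge_atTop (T, 0)).mono fun k hk => hk.1)
    obtain ⟨η₀, -, hC0⟩ := hCount 0
    filter_upwards [hev] with k hk x hx y hy b hb hbK
    obtain ⟨d, hdT, hd⟩ := mem_iUnion₂.1 (hT hbK)
    obtain ⟨hdη, hdO⟩ := mem_iUnion.1 hd
    obtain ⟨h1, h2, h3⟩ := (hgood k).2.2 d (hk hdT)
    rw [hdη] at h3
    refine mconf (hgood k).1.1 hp₀ hδ hY1 hK
      (hC0 _ (hgood k).1.2.1 (hgood k).1.1.2.2 (hgood k).1.2.2) ?_ (hH k) d.2.2.1.1 h1 h2 h3 ?_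
      x (hSH k hx) y (hSH k hy) b hb hdO
    · exact hp1.trans_lt (Real.exp_lt_exp.2 (mul_lt_mul_of_pos_right (hs0 _) (by linarith)))
    · exact fun hs => hμ4 k d (hk hdT) (Relation.EqvGen.trans _ _ _ (Relation.EqvGen.rel _ _
        (hrel k)) hs)

end Atlas

end Pool.Agent.Lib.MP_901be3_an.Hd
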