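import Pool.Agent.Lib.MP_901be3_an.Hd.PerMeas
import Pool.Agent.Lib.MP_901be3_an.Hd.EntMore
import Pool.Agent.Lib.MP_901be3_an.Hd.Lin2

namespace Pool.Agent.Lib.MP_901be3_an.Hd

open MeasureTheory Filter Topology Metric Set
open scoped ENNReal

variable {X : Type*} [MetricSpace X] [MeasurableSpace X] [BorelSpace X] {A : Atlas X}

namespace Atlas

omit [BorelSpace X] in
theorem Tr.symm {g : X ≃ₜ X} {x y : X} (h : A.Tr g.symm x y) : A.Tr g y x := by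
  obtain ⟨i, a, b, va, vb, h1, h2, h3, h4, h5, h6⟩ := h
  refine ⟨i, b, a, vb, va, h1.symm, h3, h2, ?_, h6, h5⟩
  rw [det_swap]
  exact neg_ne_zero.2 h4

theorem Hyp.symm {g : X ≃ₜ X} {μ : Measure X} (h : A.Hyp g.symm μ) : A.Hyp g μ := by
  obtain ⟨h1, h2, lp, lm, h3, h4, h5⟩ := h
  have key : ∀ x v l, A.Rate g.symm x v l → A.Rate g x v (-l) := fun x v l h =>
    ⟨h.2, by rw [neg_neg]; exact h.1⟩
  refine ⟨h1, ergodic_symm g.symm h2, -lm, -lp, neg_pos.2 h4, neg_lt_zero.2 h3, ?_⟩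
  filter_upwards [h5] with x hx
  obtain ⟨⟨u, hu⟩, s, hs⟩ := hx
  exact ⟨⟨s, key _ _ _ hs⟩, u, key _ _ _ hu⟩

theorem Rel.symm_map {g : X ≃ₜ X} {μ ν : Measure X} (h : A.Rel g.symm μ ν) : A.Rel g μ ν := by
  obtain ⟨h1, h2, h3, h4⟩ := h
  have key : ∀ μ ν : Measure X, A.Le g.symm μ ν → A.Le g ν μ := by
    rintro μ ν ⟨S, T, a1, a2, a3, a4, a5⟩
    exact ⟨T, S, a2, a1, a4, a3, fun y hy x hx => (a5 x hx y hy).symm⟩
  exact ⟨h1.symm, h2.symm, key _ _ h4, key _ _ h3⟩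

theorem Concl.symm {f : X ≃ₜ X} {F : ℕ → X ≃ₜ X} {t : ℝ}
    (h : A.Concl f.symm (fun n => (F n).symm) t) : A.Concl f F t := by
  obtain ⟨K, q, N, c, s, hs, h1, h2⟩ := h
  have hfix : ∀ᶠ n in atTop, ∀ i, (F n)^[N i] (c i n) = c i n := by
    refine eventually_all.2 fun i => ?_
    obtain ⟨-, -, a3, W, hW, a4⟩ := (h1 i).1
    filter_upwards [a4, a3.eventually hW] with n b1 b2
    exact (symm_iter_fixed (F n) _ _).1 ((b1 _ b2).2 rfl)
  refine ⟨K, q, N, c, s, hs, fun i => ?_, ?_⟩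
  · obtain ⟨⟨a1, a2, a3, W, hW, a4⟩, ν, b1, b2⟩ := h1 i
    have a2' := (symm_iter_fixed f _ _).1 a2
    have b3 := b2.symm_map
    refine ⟨⟨a1, a2', a3, W, hW, a4.mono fun n hn z hz => ?_⟩, ν, ?_, ?_⟩
    · exact (symm_iter_fixed (F n) _ _).symm.trans (hn z hz)
    · have := b3.1.1
      rwa [ksEnt_symm f b3.1.2.1.toMeasurePreserving] at b1
    · rwa [perMeas_symm f a2'] at b3
  · filter_upwards [h2, hfix] with n hn hf μ hμ he hs'
    obtain ⟨i, hi⟩ := hn μ hμ (ergodic_symm _ he)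
      (by rwa [ksEnt_symm (F n) he.toMeasurePreserving])
    refine ⟨i, ?_⟩
    rw [perMeas_symm (F n) (hf i)] at hi
    exact Relation.EqvGen.mono (fun _ _ h => Rel.symm_map h) _ _ hi

end Atlas

end Pool.Agent.Lib.MP_901be3_an.Hd
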