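import Pool.Agent.Lib.MP_901be3_an.Hd.AAtlas
import Pool.Agent.Lib.MP_901be3_an.Hd.AReg
import Pool.Agent.Lib.MP_901be3_an.Hd.AConv
import Pool.Agent.Lib.MP_901be3_an.Hd.ATrans
import Pool.Agent.Lib.MP_901be3_an.Hd.AtInv
import Pool.Agent.Lib.MP_901be3_an.Hd.MCore
import Pool.Agent.Lib.MP_901be3_an.Hd.MSym

namespace Pool.Agent.Lib.MP_901be3_an.Hd

open MeasureTheory Filter Topology Metric Set
open scoped ENNReal

open Manifold Bundle

theorem exists_exponent {r : ℝ≥0∞} (hr : 1 < r) {l t : ℝ} (ht : 0 < t)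
    (h : l * (r⁻¹).toReal < t) : ∃ (n : ℕ) (α lam : ℝ), 0 < α ∧ α ≤ 1 ∧
      ((n + 1 : ℕ) : ℝ≥0∞) + ENNReal.ofReal α ≤ r ∧ l < lam ∧ lam / (n + 1 + α) < t := by
  rcases eq_or_ne r ⊤ with rfl | hr'
  · obtain ⟨n, hn⟩ := exists_nat_gt ((l + 1) / t)
    refine ⟨n, 1, l + 1, one_pos, le_rfl, le_top, by linarith, ?_⟩
    have h0 : (0 : ℝ) ≤ n := Nat.cast_nonneg n
    rw [div_lt_iff₀ ht] at hn
    rw [div_lt_iff₀ (by linarith)]
    nlinarith
  · set ρ : ℝ := r.toReal with hρ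
    have hρ1 : 1 < ρ := by
      have := (ENNReal.toReal_lt_toReal ENNReal.one_ne_top hr').2 hr
      simpa using this
    have hc : 2 ≤ ⌈ρ⌉₊ := Nat.lt_ceil.2 (by simpa using hρ1)
    obtain ⟨n, hn⟩ : ∃ n, ⌈ρ⌉₊ = n + 2 := ⟨⌈ρ⌉₊ - 2, by omega⟩
    have h1 : ρ ≤ (n : ℝ) + 2 := by
      have := Nat.le_ceil ρ
      rw [hn] at this
      exact_mod_cast this
    have h2 : (n : ℝ) + 1 < ρ := by
      have : n + 1 < ⌈ρ⌉₊ := by omega
      exact_mod_cast Nat.lt_ceil.1 this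
    rw [ENNReal.toReal_inv, ← hρ, ← div_eq_mul_inv, div_lt_iff₀ (by linarith)] at h
    refine ⟨n, ρ - (n + 1), (l + t * ρ) / 2, by linarith, by linarith, ?_, by linarith, ?_⟩
    · rw [← ENNReal.ofReal_natCast, ← ENNReal.ofReal_add (Nat.cast_nonneg _) (by linarith),
        ← ENNReal.ofReal_toReal hr']
      refine ENNReal.ofReal_le_ofReal (le_of_eq ?_)
      push_cast
      ring
    · rw [div_lt_iff₀ (by linarith)]
      nlinarith

theorem hypErg_of_eqvGen {M : Type*} [TopologicalSpace M] [ChartedSpace E2 M] [MeasurableSpace M]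
    [RiemannianBundle (fun x : M => TangentSpace (𝓡 2) x)]
    {f : Diffeomorph (𝓡 2) (𝓡 2) M M 1} {μ ν : Measure M}
    (h : Relation.EqvGen (HomRel f) μ ν) : HypErg f μ ↔ HypErg f ν := by
  induction h with
  | rel a b h => exact ⟨fun _ => h.2.1, fun _ => h.1⟩
  | refl a => exact Iff.rfl
  | symm a b _ ih => exact ih.symm
  | trans a b c _ _ ih1 ih2 => exact ih1.trans ih2

theorem Compat.homRel {M : Type*} [MetricSpace M] [ChartedSpace E2 M]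
    [IsManifold (𝓡 2) (⊤ : ℕ∞) M] [CompactSpace M] [MeasurableSpace M]
    [RiemannianBundle (fun x : M => TangentSpace (𝓡 2) x)]
    [IsContinuousRiemannianBundle E2 (fun x : M => TangentSpace (𝓡 2) x)]
    {A : Atlas M} (hA : Compat A) {f : Diffeomorph (𝓡 2) (𝓡 2) M M 1} {μ ν : Measure M}
    (h : A.Rel f.toHomeomorph μ ν) : HomRel f μ ν := by
  obtain ⟨h1, h2, ⟨S, T, a1, a2, a3, a4, a5⟩, ⟨S', T', b1, b2, b3, b4, b5⟩⟩ := h
  exact ⟨hA.hypErg h1, hA.hypErg h2,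
    ⟨S, T, a1, a2, a3, a4, fun x hx y hy => hA.transv (a5 x hx y hy)⟩,
    ⟨S', T', b1, b2, b3, b4, fun x hx y hy => hA.transv (b5 x hx y hy)⟩⟩

theorem final_metric {M : Type*} [MetricSpace M] [ChartedSpace E2 M]
    [IsManifold (𝓡 2) (⊤ : ℕ∞) M] [CompactSpace M] [MeasurableSpace M] [BorelSpace M]
    [RiemannianBundle (fun x : M => TangentSpace (𝓡 2) x)]
    [IsContinuousRiemannianBundle E2 (fun x : M => TangentSpace (𝓡 2) x)]
    {A : Atlas M} (hA : Compat A) (r : ℝ≥0∞) (hr : 1 < r)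
    (f : Diffeomorph (𝓡 2) (𝓡 2) M M 1) (F : ℕ → Diffeomorph (𝓡 2) (𝓡 2) M M 1)
    (hF : ∀ (k : ℕ) (α : ℝ), 1 ≤ k → 0 < α → α ≤ 1 → (k : ℝ≥0∞) + ENNReal.ofReal α ≤ r →
      BddConv k α (fun n => F n) f)
    (t : ℝ) (ht : 0 < t) (hlam : min (lamPlus f) (lamPlus f.symm) * (r⁻¹).toReal < t) :
    ∃ (K : ℕ) (q : Fin K → M) (N : Fin K → ℕ) (c : Fin K → ℕ → M),
      (∀ i, IsCont f (fun n => F n) (q i) (N i) (c i) ∧ HypErg f (perMeas f (q i) (N i))) ∧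
      ∀ᶠ n in atTop, ∀ D ∈ HClasses (F n) t, ∃ i, ∃ C ∈ HClasses f t,
        perMeas f (q i) (N i) ∈ C ∧ perMeas (F n) (c i n) (N i) ∈ D := by
  obtain ⟨n, α, lam, hα, hα1, hk, hl, hlt⟩ := exists_exponent hr ht hlam
  have hB := hF (n + 1) α (by omega) hα hα1 hk
  obtain ⟨P, hPα, hPn, hid, hf, hFk⟩ := hA.reg hα hα1 f.continuous (fun k => (F k).continuous) hB
  obtain ⟨P', hα', hn', hgf, hgF, hconv⟩ := A.good_of_reg P f.toHomeomorph
    (fun k => (F k).toHomeomorph) hid hf hFk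
    (fun i j x hi hj => hA.differentiableAt (f.symm.mdifferentiable one_ne_zero) hi hj)
    (fun k i j x hi hj => hA.differentiableAt ((F k).symm.mdifferentiable one_ne_zero) hi hj)
    (unif_of_bddConv f.continuous hB)
  have hr' : lam / P'.r < t := by
    unfold Par.r
    rw [hα', hn', hPα, hPn]
    exact hlt
  have hC : A.Concl f.toHomeomorph (fun k => (F k).toHomeomorph) t := by
    rcases min_lt_iff.1 hl with h | h
    · exact A.core hgf hgF hconv ht hr' (hA.growth hgf h)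
    · refine Atlas.Concl.symm (A.core hgf.symm (hgF.mono fun k hk => hk.symm) ?_ ht hr'
        (hA.growth (f := f.symm) hgf.symm h))
      exact fun γ hγ => (hconv γ hγ).mono fun k hk x => ⟨(hk x).2, (hk x).1⟩
  obtain ⟨K, q, N, c, s, hs, h1, h2⟩ := hC
  refine ⟨K, q, N, c, fun i => ⟨(h1 i).1, ?_⟩, ?_⟩
  · obtain ⟨ν, -, hν⟩ := (h1 i).2
    exact (hA.homRel hν).2.1
  · filter_upwards [h2] with k hk D hD
    obtain ⟨⟨μ, hμ, rfl⟩, hent⟩ := hD
    have hlt' : ENNReal.ofReal s < ENNReal.ofReal t := (ENNReal.ofReal_lt_ofReal_iff ht).2 hs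
    obtain ⟨ν, hν⟩ := lt_iSup_iff.1 (hlt'.trans_le hent)
    obtain ⟨hνD, hνs⟩ := lt_iSup_iff.1 hν
    have hνh : HypErg (F k) ν := (hypErg_of_eqvGen hνD).1 hμ
    obtain ⟨i, hi⟩ := hk ν hνh.1 hνh.2.1 hνs
    obtain ⟨ν', hν't, hν'⟩ := (h1 i).2
    have hrel := hA.homRel hν'
    refine ⟨i, {ν'' | Relation.EqvGen (HomRel f) ν' ν''}, ⟨⟨ν', hrel.1, rfl⟩, ?_⟩,
      Relation.EqvGen.rel _ _ hrel, ?_⟩
    · exact hν't.trans (le_iSup₂_of_le ν' (Relation.EqvGen.refl _) le_rfl)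
    · exact Relation.EqvGen.trans _ _ _ hνD 
        (Relation.EqvGen.mono (r := A.Rel (F k).toHomeomorph) (p := HomRel (F k))
          (fun _ _ h => hA.homRel h) _ _ hi)

theorem final {M : Type*} [TopologicalSpace M] [ChartedSpace E2 M]
    [IsManifold (𝓡 2) (⊤ : ℕ∞) M] [CompactSpace M] [T2Space M] [MeasurableSpace M] [BorelSpace M]
    [RiemannianBundle (fun x : M => TangentSpace (𝓡 2) x)]
    [IsContinuousRiemannianBundle E2 (fun x : M => TangentSpace (𝓡 2) x)]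
    (r : ℝ≥0∞) (hr : 1 < r)
    (f : Diffeomorph (𝓡 2) (𝓡 2) M M 1) (F : ℕ → Diffeomorph (𝓡 2) (𝓡 2) M M 1)
    (hf : IsCr r f) (hF : ∀ n, IsCr r (F n)) (hlim : CrTendsto r (fun n => F n) f)
    (t : ℝ) (ht : 0 < t) (hlam : min (lamPlus f) (lamPlus f.symm) * (r⁻¹).toReal < t) :
    ∃ (K : ℕ) (q : Fin K → M) (N : Fin K → ℕ) (c : Fin K → ℕ → M),
      (∀ i, IsCont f (fun n => F n) (q i) (N i) (c i) ∧ HypErg f (perMeas f (q i) (N i))) ∧
      ∀ᶠ n in atTop, ∀ D ∈ HClasses (F n) t, ∃ i, ∃ C ∈ HClasses f t,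
        perMeas f (q i) (N i) ∈ C ∧ perMeas (F n) (c i n) (N i) ∈ D := by
  obtain ⟨K, J, hJ, A, hA⟩ := exists_atlas M
  let _ : MetricSpace M := hJ.comapMetricSpace J
  exact final_metric hA r hr f F
    (fun k α _ h0 h1 hk => bddConv_of_crTendsto hf hF hlim h0 h1 hk) t ht hlam

end Pool.Agent.Lib.MP_901be3_an.Hd
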