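import Pool.Agent.Lib.MP_901be3_an.Hd.Lin2

namespace Pool.Agent.Lib.MP_901be3_an.Hd

open MeasureTheory Filter Topology Metric Set
open scoped ENNReal

namespace HCrossAux

lemma fst_le (v : V) : |v.1| ≤ ‖v‖ := norm_fst_le v

lemma snd_le (v : V) : |v.2| ≤ ‖v‖ := norm_snd_le v

lemma norm_swap (v : V) : ‖v.swap‖ = ‖v‖ := max_comm _ _

lemma steep {c c' : ℝ → V} {T : ℝ} {d : V} {ψ : ℝ → ℝ} (hd : 1 ≤ T * ‖d‖)
    (hc : ∀ τ, |τ| < T → HasDerivAt c (c' τ) τ ∧ ‖c' τ - d‖ ≤ ‖d‖ / 100) (h0 : ‖c 0‖ ≤ 1 / 4)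
    (hs : |d.2| = ‖d‖) (hn : 0 < ‖d‖) (hψ : ContinuousOn ψ (Icc (-1) 1))
    (hψ' : ∀ a, |a| ≤ 1 → |ψ a| ≤ 1 / 20) :
    ∃ τ, |τ| < T ∧ ‖c τ‖ < 1 ∧ (c τ).2 = ψ (c τ).1 := by
  obtain ⟨t, ht⟩ : ∃ t, t = 1 / (2 * ‖d‖) := ⟨_, rfl⟩
  have e : t * ‖d‖ = 1 / 2 := by rw [ht]; field_simp
  have t0 : 0 < t := by rw [ht]; positivity
  have tT : t < T := lt_of_mul_lt_mul_right (by linarith : t * ‖d‖ < T * ‖d‖) hn.le
  have sub : ∀ s ∈ Icc (-t) t, |s| < T := fun s hs => (abs_le.2 hs).trans_lt tT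
  have key : ∀ s ∈ Icc (-t) t, ‖c s - c 0 - s • d‖ ≤ 1 / 200 ∧ ‖c s‖ < 1 := fun s hs => by
    have h1 := (convex_Icc (-t) t).norm_image_sub_le_of_norm_hasDerivWithin_le
      (f := fun u => c u - u • d) (f' := fun u => c' u - d)
      (fun u hu => (((hc u (sub u hu)).1.sub ((hasDerivAt_id u).smul_const d)).congr_deriv
        (by rw [one_smul])).hasDerivWithinAt) (fun u hu => (hc u (sub u hu)).2)
      (x := 0) ⟨by linarith, t0.le⟩ hs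
    have h2 := mul_le_mul_of_nonneg_right (abs_le.2 hs : |s| ≤ t) hn.le
    rw [zero_smul, sub_zero, sub_zero, sub_right_comm, Real.norm_eq_abs] at h1
    have h3 := norm_add₃_le (a := c s - c 0 - s • d) (b := s • d) (c := c 0)
    rw [sub_add_cancel, sub_add_cancel, norm_smul, Real.norm_eq_abs] at h3
    exact ⟨by linarith, by linarith⟩
  have k : ∀ s ∈ Icc (-t) t, |(c s).2 - ψ (c s).1 - s * d.2| ≤ 2 / 5 := fun s hs => by
    have h1 : |(c s).2 - (c 0).2 - s * d.2| ≤ _ := (snd_le (c s - c 0 - s • d)).trans (key s hs).1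
    have h2 := abs_le.1 ((snd_le _).trans h0)
    have h3 := abs_le.1 (hψ' _ ((fst_le _).trans (key s hs).2.le))
    have h4 := abs_le.1 h1
    exact abs_le.2 ⟨by linarith, by linarith⟩
  have cc : ContinuousOn c (Icc (-t) t) := fun s hs =>
    (hc s (sub s hs)).1.continuousAt.continuousWithinAt
  have cont : ContinuousOn (fun s => (c s).2 - ψ (c s).1) (Icc (-t) t) :=
    cc.snd.sub (hψ.comp cc.fst fun s hs => abs_le.1 ((fst_le _).trans (key s hs).2.le))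
  have hle : -t ≤ t := by linarith
  have k1 := abs_le.1 (k _ (left_mem_Icc.2 hle))
  have k2 := abs_le.1 (k _ (right_mem_Icc.2 hle))
  rw [← hs] at e
  rcases abs_cases d.2 with l | l <;> rw [l.1] at e
  · obtain ⟨s, hs, e⟩ := intermediate_value_Icc hle cont
      (⟨by linarith [k1.2], by linarith [k2.1]⟩ : (0 : ℝ) ∈ Icc _ _)
    exact ⟨s, sub s hs, (key s hs).2, sub_eq_zero.1 e⟩
  · obtain ⟨s, hs, e⟩ := intermediate_value_Icc' hle cont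
      (⟨by linarith [k2.2], by linarith [k1.1]⟩ : (0 : ℝ) ∈ Icc _ _)
    exact ⟨s, sub s hs, (key s hs).2, sub_eq_zero.1 e⟩

end HCrossAux

open HCrossAux

/-- an almost straight curve through the middle of the box meets the horizontal graph or crosses
the vertical graph transversally -/
theorem hcross {c c' : ℝ → V} {T : ℝ} {d : V} {φ ψ : ℝ → ℝ} (hT : 0 < T) (hd : 1 ≤ T * ‖d‖)
    (hc : ∀ τ, |τ| < T → HasDerivAt c (c' τ) τ ∧ ‖c' τ - d‖ ≤ ‖d‖ / 100) (h0 : ‖c 0‖ ≤ 1 / 4)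
    (hφ : ContinuousOn φ (Icc (-1) 1)) (hφ' : ∀ b, |b| ≤ 1 → |φ b| ≤ 1 / 20)
    (hψ : ContinuousOn ψ (Icc (-1) 1)) (hψ' : ∀ a, |a| ≤ 1 → |ψ a| ≤ 1 / 20) :
    ∃ τ, |τ| < T ∧ ‖c τ‖ < 1 ∧ ((c τ).2 = ψ (c τ).1 ∨
      ((c τ).1 = φ (c τ).2 ∧ ∀ σ : ℝ, |σ| ≤ 1 / 20 → det (c' τ) (σ, 1) ≠ 0)) := by
  have hn : 0 < ‖d‖ := pos_of_mul_pos_left (one_pos.trans_le (hd.trans_eq (mul_comm _ _))) hT.le
  rcases le_total |d.1| |d.2| with k | k
  · obtain ⟨τ, h1, h2, h3⟩ := steep hd hc h0 (max_eq_right k).symm hn hψ hψ'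
    exact ⟨τ, h1, h2, Or.inl h3⟩
  · have n1 : |d.1| = ‖d‖ := (max_eq_left k).symm
    obtain ⟨τ, h1, h2, h3⟩ := steep (c := fun t => (c t).swap) (c' := fun t => (c' t).swap)
      (d := d.swap) (by rwa [norm_swap])
      (fun s hs => ⟨(hc s hs).1.snd.prodMk (hc s hs).1.fst, by
        rw [← Prod.swap_sub, norm_swap, norm_swap]; exact (hc s hs).2⟩)
      (by rwa [norm_swap]) (by rw [norm_swap]; exact n1) (by rwa [norm_swap]) hφ hφ'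
    refine ⟨τ, h1, by rwa [norm_swap] at h2, Or.inr ⟨h3, fun σ hσ e => ?_⟩⟩
    have m1 : |(c' τ).1 - d.1| ≤ _ := (fst_le (c' τ - d)).trans (hc τ h1).2
    have m2 : |(c' τ).2 - d.2| ≤ _ := (snd_le (c' τ - d)).trans (hc τ h1).2
    have m3 := abs_sub_abs_le_abs_sub d.1 (c' τ).1
    have m4 := abs_sub_abs_le_abs_sub (c' τ).2 d.2
    have m5 : |(c' τ).1| = |(c' τ).2| * |σ| := by
      rw [← abs_mul]; congr 1; unfold det at e; linarith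
    have m6 := mul_le_mul_of_nonneg_left hσ (abs_nonneg (c' τ).2)
    rw [abs_sub_comm] at m3
    linarith

/-- intersection of a vertical and a horizontal graph -/
theorem hinter {φ ψ : ℝ → ℝ} (hφ : ContinuousOn φ (Icc (-1) 1))
    (hφ' : ∀ b, |b| ≤ 1 → |φ b| ≤ 1 / 20) (hψ : ContinuousOn ψ (Icc (-1) 1))
    (hψ' : ∀ a, |a| ≤ 1 → |ψ a| ≤ 1 / 20) :
    ∃ a b : ℝ, |a| ≤ 1 / 20 ∧ |b| ≤ 1 / 20 ∧ a = φ b ∧ b = ψ a := by
  have h1 : ∀ a ∈ Icc (-1 : ℝ) 1, |ψ a| ≤ 1 := fun a ha => by linarith [hψ' a (abs_le.2 ha)]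
  have h2 := fun a ha => abs_le.1 (hφ' _ (h1 a ha))
  obtain ⟨a, ha, e⟩ := intermediate_value_Icc (by norm_num : (-1 : ℝ) ≤ 1)
    (f := fun a => a - φ (ψ a)) (continuousOn_id.sub (hφ.comp hψ fun a ha => abs_le.1 (h1 a ha)))
    (⟨by linarith [(h2 (-1) (by norm_num)).1], by linarith [(h2 1 (by norm_num)).2]⟩ :
      (0 : ℝ) ∈ Icc _ _)
  have e' : a = φ (ψ a) := sub_eq_zero.1 e
  exact ⟨a, ψ a, by rw [e']; exact hφ' _ (h1 a ha), hψ' a (abs_le.2 ha), e', rfl⟩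

end Pool.Agent.Lib.MP_901be3_an.Hd
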