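import Pool.Agent.Lib.MP_901be3_an.Hd.HGraph

namespace Pool.Agent.Lib.MP_901be3_an.Hd

open MeasureTheory Filter Topology Metric Set
open scoped ENNReal

namespace HDerivAux

open HGraphAux

lemma orb_succ {Y : Type*} (F : ℕ → Y → Y) (n : ℕ) (v : Y) : orb F (n + 1) v = F n (orb F n v) :=
  rfl

variable {κ : ℝ} {F : ℕ → V → V} {z : V}

lemma hmap_lin (hκ : 0 < κ) {G : V → V} (h : HMap κ G) (hz : ‖z‖ ≤ 1) : HMap κ (fderiv ℝ G z) := by
  obtain ⟨a, b, ha, hb, -, k⟩ := h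
  refine ⟨a, b, ha, hb, by rw [map_zero, norm_zero]; positivity, fun v _ =>
    ⟨ContinuousLinearMap.differentiableAt _, ?_⟩⟩
  rw [ContinuousLinearMap.fderiv]
  exact (k z hz).2

lemma stp_lin (hκ : 0 < κ) (hκ1 : κ ≤ 1) {G : V → V} (h : HMap κ G) (hz : ‖z‖ ≤ 1) (x : V) :
    Stp κ 0 x (fderiv ℝ G z x) := by
  obtain ⟨a, b, ha, hb, -, k⟩ := h
  have h1 := (fderiv ℝ G z - diag a b).le_of_opNorm_le (k z hz).2 x
  rw [sub_apply, diag_apply] at h1
  exact stp_of hκ hκ1 ha hb (by rw [add_zero]; exact (fst_le (_ - (a * x.1, b * x.2))).trans h1)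
    (by rw [add_zero]; exact (snd_le (_ - (a * x.1, b * x.2))).trans h1)

lemma orb_deriv (h : ∀ n, HMap κ (F n)) (hz : Stay F z) (n : ℕ) :
    DifferentiableAt ℝ (orb F n) z ∧
      ∀ x, fderiv ℝ (orb F n) z x = orb (fun j => fderiv ℝ (F j) (orb F j z)) n x := by
  induction n with
  | zero => exact ⟨differentiableAt_id, fun x => by
      rw [show orb F 0 = id from rfl, fderiv_id]; rfl⟩
  | succ n ih =>
    obtain ⟨_, _, -, -, -, k⟩ := h n
    have h1 := (k _ (hz n)).1.hasFDerivAt.comp z ih.1.hasFDerivAt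
    refine ⟨h1.differentiableAt, fun x => ?_⟩
    rw [show orb F (n + 1) = F n ∘ orb F n from rfl, h1.fderiv, ContinuousLinearMap.comp_apply,
      ih.2, orb_succ]

end HDerivAux

open HGraphAux HDerivAux

/-- the stable graph is differentiable and its tangent is contracted -/
theorem stay_deriv {κ : ℝ} (hκ : 0 < κ) (hκ1 : κ ≤ 1) {F : ℕ → V → V} (h : ∀ n, HMap κ (F n))
    {φ : ℝ → ℝ} (hφ : ∀ b, |b| ≤ 1 → Stay F (φ b, b)) {b : ℝ} (hb : |b| < 1) :
    ∃ σ : ℝ, |σ| ≤ 1 / 20 ∧ HasDerivAt φ σ b ∧ ∀ n, DifferentiableAt ℝ (orb F n) (φ b, b) ∧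
      ‖fderiv ℝ (orb F n) (φ b, b) (σ, 1)‖ ≤ (1 - κ / 3) ^ n := by
  have hz := hφ b hb.le
  set M : ℕ → V → V := fun j => fderiv ℝ (F j) (orb F j (φ b, b)) with hM
  have hm : ∀ j, HMap κ (M j) := fun j => hmap_lin hκ (h j) (hz j)
  obtain ⟨σ, hσ⟩ := exists_stay hκ hκ1 hm (b := 1) (by simp)
  have e := fun n => (orb_deriv h hz n).2
  have z0 : ∀ n, orb M n 0 = 0 := fun n => by rw [← e, map_zero]
  have hσ1 : |σ| ≤ 1 / 20 := hσ.fst_le hκ hκ1 hm
  have c : ∀ n, ‖fderiv ℝ (orb F n) (φ b, b) (σ, 1)‖ ≤ (1 - κ / 3) ^ n := fun n => by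
    have h1 := (Stay.contr hκ hκ1 hm hσ (w := 0) fun j => by rw [z0]; simp).2 n
    rw [z0, sub_zero, sub_zero] at h1
    rw [e]
    exact h1.trans (mul_le_of_le_one_right (pow_nonneg (by linarith) _) (hσ 0))
  refine ⟨σ, hσ1, ?_, fun n => ⟨(orb_deriv h hz n).1, c n⟩⟩
  have near : ∀ᶠ t in 𝓝 b, |t| ≤ 1 :=
    (continuous_abs.continuousAt.eventually (eventually_lt_nhds hb)).mono fun _ k => k.le
  have nrm : ∀ t, |t| ≤ 1 → ‖((φ t, t) : V) - (φ b, b)‖ ≤ |t - b| := fun t ht => by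
    have h1 : |φ t - φ b| ≤ |t - b| / 20 := (Stay.contr hκ hκ1 h (hφ t ht) hz).1
    exact norm_le (show |φ t - φ b| ≤ _ by linarith [abs_nonneg (t - b)]) le_rfl
  have lim : Tendsto (fun t => ((φ t, t) : V)) (𝓝 b) (𝓝 (φ b, b)) := by
    rw [tendsto_iff_norm_sub_tendsto_zero]
    refine squeeze_zero' (Eventually.of_forall fun _ => norm_nonneg _) (near.mono nrm) ?_
    have : Continuous fun t : ℝ => |t - b| := by fun_prop
    simpa using this.tendsto b
  refine hasDerivAt_iff_isLittleO.2 (Asymptotics.isLittleO_iff.2 fun ε hε => ?_)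
  obtain ⟨n, hn⟩ := exists_pow_lt_of_lt_one (show 0 < ε / 3 by positivity)
    (show 1 - κ / 3 < 1 by linarith)
  set L := fderiv ℝ (orb F n) (φ b, b) with hL
  filter_upwards [near, lim.eventually (Asymptotics.isLittleO_iff.1
    (orb_deriv h hz n).1.hasFDerivAt.isLittleO (show 0 < ε / 3 by positivity))] with t ht k
  have a0 := abs_nonneg (t - b)
  have h1 := nrm t ht
  have h2 := ((Stay.contr hκ hκ1 h (hφ t ht) hz).2 n).trans
    (mul_le_mul hn.le h1 (norm_nonneg _) (by positivity))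
  have h3 := k.trans (mul_le_mul_of_nonneg_left h1 (by positivity))
  have h4 : ‖(t - b) • L (σ, 1)‖ ≤ ε / 3 * |t - b| := by
    rw [norm_smul, mul_comm]
    exact mul_le_mul_of_nonneg_right ((c n).trans hn.le) a0
  have h5 : L (φ t - φ b - (t - b) * σ, 0) = orb F n (φ t, t) - orb F n (φ b, b) -
      (orb F n (φ t, t) - orb F n (φ b, b) - L ((φ t, t) - (φ b, b))) - (t - b) • L (σ, 1) := by
    rw [sub_sub_cancel, ← map_smul, ← map_sub]
    congr 1
    ext <;> simp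
  have h6 : ‖L (φ t - φ b - (t - b) * σ, 0)‖ ≤ ε * |t - b| := by
    rw [h5]
    exact (norm_sub_le _ _).trans ((add_le_add ((norm_sub_le _ _).trans (add_le_add h2 h3)) h4).trans
      (le_of_eq (by ring)))
  change |φ t - φ b - (t - b) * σ| ≤ ε * |t - b|
  rcases eq_or_ne (φ t - φ b - (t - b) * σ) 0 with h0 | h0
  · rw [h0, abs_zero]; positivity
  · have h7 := (off_grow hκ (x := fun j => orb M j (φ t - φ b - (t - b) * σ, 0))
      (fun j => stp_lin hκ hκ1 (h j) (hz j) _) (by simpa [orb] using h0) n).2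
    rw [hL, e] at h6
    exact (le_mul_of_one_le_left (abs_nonneg _)
      (one_le_pow₀ (show 1 ≤ 1 + κ / 2 by linarith))).trans (h7.trans ((fst_le _).trans h6))

/-- continuity of the stable graph in the sequence of maps -/
theorem stay_close {κ : ℝ} (hκ : 0 < κ) (hκ1 : κ ≤ 1) {ζ : ℝ} (hζ : 0 < ζ) :
    ∃ n : ℕ, ∃ γ > 0, ∀ F F' : ℕ → V → V, (∀ j, HMap κ (F j)) → (∀ j, HMap κ (F' j)) →
      (∀ j < n, ∀ v : V, ‖v‖ ≤ 1 → ‖F j v - F' j v‖ ≤ γ) →
      ∀ v v' : V, Stay F v → Stay F' v' → v.2 = v'.2 → |v.1 - v'.1| ≤ ζ := by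
  obtain ⟨n, hn⟩ := pow_unbounded_of_one_lt (2 / ζ) (show 1 < 1 + κ / 2 by linarith)
  rw [div_lt_iff₀ hζ] at hn
  refine ⟨n, κ * ζ / 4, by positivity, fun F F' h _ hc v v' hv hv' e => ?_⟩
  by_contra hlt
  have key : ∀ j ≤ n, |(orb F j v - orb F' j v').2| ≤ |(orb F j v - orb F' j v').1| ∧
      (1 + κ / 2) ^ j * ζ ≤ |(orb F j v - orb F' j v').1| := fun j hj => by
    induction j with
    | zero => exact ⟨by simp [orb, e], by simpa [orb] using (not_le.1 hlt).le⟩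
    | succ j ih =>
      obtain ⟨i1, i2⟩ := ih (by omega)
      obtain ⟨k1, k2⟩ : Stp κ _ _ (orb F (j + 1) v - orb F' (j + 1) v') :=
        stp_sub hκ hκ1 (h j) (hv j) (hv' j) (hc j hj _ (hv' j))
      have k3 : ‖orb F j v - orb F' j v'‖ ≤ _ := norm_le le_rfl i1
      have k4 := mul_le_mul_of_nonneg_left k3 hκ.le
      have k5 := mul_le_mul_of_nonneg_left ((le_mul_of_one_le_left hζ.le
        (one_le_pow₀ (by linarith))).trans i2) hκ.le
      have k6 := mul_le_mul_of_nonneg_left i1 (by linarith : 0 ≤ 1 - κ / 2)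
      have k7 := mul_le_mul_of_nonneg_left i2 (by linarith : 0 ≤ 1 + κ / 2)
      have k8 := mul_nonneg hκ.le (abs_nonneg (orb F j v - orb F' j v').1)
      exact ⟨by linarith, by rw [pow_succ]; linarith⟩
  linarith [(key n le_rfl).2, fst_le (orb F n v - orb F' n v'),
    norm_sub_le (orb F n v) (orb F' n v'), hv n, hv' n]

end Pool.Agent.Lib.MP_901be3_an.Hd
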