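import Pool.Agent.Lib.MP_901be3_an.Hd.QGraph
import Pool.Agent.Lib.MP_901be3_an.Hd.HCross

namespace Pool.Agent.Lib.MP_901be3_an.Hd

open MeasureTheory Filter Topology Metric Set
open scoped ENNReal

variable {X : Type*} [MetricSpace X] [MeasurableSpace X] {A : Atlas X} {α c₀ κ : ℝ}

namespace Atlas

section

variable (hκ : 0 < κ) (hκ1 : κ ≤ 1) (hc : c₀ ≤ 1 / 4) {g : X ≃ₜ X} {Wu Ws : ℕ → A.Chart}
  (hu : BPath α κ c₀ g Wu) (hs : FPath α κ c₀ g Ws) (h0 : Wu 0 = Ws 0)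
include hκ hκ1 hc hu hs h0

omit h0 in
theorem QInterAux.graphs :
    ∃ a b : ℝ, |a| ≤ 1 / 20 ∧ |b| ≤ 1 / 20 ∧ a = sg g Ws b ∧ b = ug g Wu a :=
  hinter (hs.sg_cont hκ hκ1 hc) (fun _ hb => (hs.sg_spec hκ hκ1 hc hb).1) (hu.ug_cont hκ hκ1 hc)
    fun _ ha => (hu.ug_spec hκ hκ1 hc ha).1

theorem inter_exists : ∃ z, z ∈ Fol g.symm Wu ∧ z ∈ Fol g Ws := by
  obtain ⟨a, b, ha, hb, e1, e2⟩ := QInterAux.graphs hκ hκ1 hc hu hs
  have h1 := (hu.ug_spec hκ hκ1 hc (a := a) (by linarith)).2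
  have h2 := (hs.sg_spec hκ hκ1 hc (b := b) (by linarith)).2
  rw [← e2, h0] at h1
  rw [← e1] at h2
  exact ⟨_, h1, h2⟩

theorem inter_co {z : X} (h1 : z ∈ Fol g.symm Wu) (h2 : z ∈ Fol g Ws) :
    ‖(Ws 0).co z‖ ≤ 1 / 20 := by
  obtain ⟨n1, n2⟩ := norm_prod_le_iff.1 (h2 0).2
  have e1 := hs.co_eq hκ hκ1 hc h2
  have e2 := hu.co_eq hκ hκ1 hc h1
  rw [h0] at e2
  exact norm_prod_le_iff.2 ⟨e1 ▸ (hs.sg_spec hκ hκ1 hc n2).1, e2 ▸ (hu.ug_spec hκ hκ1 hc n1).1⟩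

theorem inter_unique {z z' : X} (h1 : z ∈ Fol g.symm Wu) (h2 : z ∈ Fol g Ws)
    (h1' : z' ∈ Fol g.symm Wu) (h2' : z' ∈ Fol g Ws) : z = z' := by
  obtain ⟨n1, n2⟩ := norm_prod_le_iff.1 (h2 0).2
  obtain ⟨n1', n2'⟩ := norm_prod_le_iff.1 (h2' 0).2
  have e1 := hs.co_eq hκ hκ1 hc h2
  have e2 := hu.co_eq hκ hκ1 hc h1
  have e1' := hs.co_eq hκ hκ1 hc h2'
  have e2' := hu.co_eq hκ hκ1 hc h1'
  rw [h0] at e2 e2'
  have l1 := hs.sg_lip hκ hκ1 hc n2 n2'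
  have l2 := hu.ug_lip hκ hκ1 hc n1 n1'
  simp only [Function.iterate_zero, id] at l1 l2
  rw [← e1, ← e1'] at l1
  rw [← e2, ← e2'] at l2
  have p1 := abs_nonneg (((Ws 0).co z).1 - ((Ws 0).co z').1)
  have p2 := abs_nonneg (((Ws 0).co z).2 - ((Ws 0).co z').2)
  have e : (Ws 0).co z = (Ws 0).co z' :=
    Prod.ext (sub_eq_zero.1 (abs_eq_zero.1 (by linarith)))
      (sub_eq_zero.1 (abs_eq_zero.1 (by linarith)))
  have q1 := (hs 0).1.pt_co (h2 0).1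
  have q2 := (hs 0).1.pt_co (h2' 0).1
  simp only [Function.iterate_zero, id] at q1 q2
  rw [← q1, e, q2]

theorem inter_tr {x y : X} (hx : x ∈ Fol g.symm Wu) (hy : y ∈ Fol g Ws) : A.Tr g x y := by
  obtain ⟨a, b, ha, hb, e1, e2⟩ := QInterAux.graphs hκ hκ1 hc hu hs
  obtain ⟨σ, s1, s2, -⟩ := hu.ug_deriv hκ hκ1 hc (a := a) (by linarith)
  obtain ⟨τ, t1, t2, -⟩ := hs.sg_deriv hκ hκ1 hc (b := b) (by linarith)
  have hS : (Ws 0).Small α c₀ := (hs 0).1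
  have ev : ∀ d : ℝ, |d| ≤ 1 / 20 → ∀ᶠ t in 𝓝 (0 : ℝ), |d + t| ≤ 1 := fun d hd => by
    filter_upwards [Icc_mem_nhds (by norm_num : (-(1 / 2) : ℝ) < 0) (by norm_num : (0 : ℝ) < 1 / 2)]
      with t ht
    exact abs_le.2 ⟨by linarith [(abs_le.1 hd).1, ht.1], by linarith [(abs_le.1 hd).2, ht.2]⟩
  have d1 : HasDerivAt (fun t : ℝ => ((a + t, ug g Wu (a + t)) : V)) (1, σ) 0 :=
    ((hasDerivAt_id (0 : ℝ)).const_add a).prodMk
      (HasDerivAt.comp_const_add a 0 (by rwa [add_zero]))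
  have d2 : HasDerivAt (fun t : ℝ => ((sg g Ws (b + t), b + t) : V)) (τ, 1) 0 :=
    (HasDerivAt.comp_const_add b 0 (by rwa [add_zero])).prodMk
      ((hasDerivAt_id (0 : ℝ)).const_add b)
  have hab : ‖((a, b) : V)‖ ≤ 1 :=
    norm_prod_le_iff.2 ⟨ha.trans (by norm_num), hb.trans (by norm_num)⟩
  have hθ : 0 < 1 - κ / 3 := by linarith
  have hθ1 : 1 - κ / 3 < 1 := by linarith
  refine ⟨(Ws 0).i, _, _, _, _, ?_, hS.velAt hc (by rwa [add_zero, ← e2]) d1,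
    hS.velAt hc (by rwa [add_zero, ← e1]) d2, ?_, ⟨2 * A.L, _, hθ, hθ1, ?_⟩,
    ⟨2 * A.L, _, hθ, hθ1, ?_⟩⟩
  · simp only [add_zero, ← e1, ← e2]
  · rw [det_map, detL_Cm]
    refine mul_ne_zero hS.2.1 ?_
    have h1 : |σ * τ| ≤ 1 / 20 * (1 / 20) := by
      rw [abs_mul]
      exact mul_le_mul s1 t1 (abs_nonneg _) (by norm_num)
    have h2 := le_abs_self (σ * τ)
    simp only [det]
    linarith
  · filter_upwards [ev a ha] with t ht n
    exact hu.contr hκ hκ1 hc (h0 ▸ (hu.ug_spec hκ hκ1 hc ht).2) hx n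
  · filter_upwards [ev b hb] with t ht n
    exact hs.contr hκ hκ1 hc (hs.sg_spec hκ hκ1 hc ht).2 hy n

end

section

variable (hκ : 0 < κ) (hκ1 : κ ≤ 1) (hc : c₀ ≤ 1 / 4) {g : X ≃ₜ X} {w : ℕ → A.Chart} {N : ℕ}
  (h : Loop (Edge α κ c₀ g) w N)
include hκ hκ1 hc h

theorem Loop.exists_perPt : ∃ p, PerPt g w N p := by
  have h0 : bwd w N 0 = fwd w N 0 := (bwd_zero w N).trans (fwd_zero w N).symm
  obtain ⟨z, h1, h2⟩ := inter_exists hκ hκ1 hc h.bpath h.fpath h0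
  have inv : ∀ n x, g.symm^[n] (g^[n] x) = x := fun n =>
    Function.LeftInverse.iterate g.symm_apply_apply n
  refine ⟨z, inter_unique hκ hκ1 hc h.bpath h.fpath h0 (fun n => ?_) (fun n => ?_) h1 h2,
    fun l hl => ?_⟩
  · rcases lt_or_ge n N with e | e
    · obtain ⟨m, hm⟩ := Nat.exists_eq_add_of_le e.le
      have h3 : g^[N] z = g^[n] (g^[m] z) := by rw [hm, Function.iterate_add_apply]
      have h4 : bwd w N n = fwd w N m := by
        simp only [bwd, fwd, Nat.mod_eq_of_lt e]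
        rw [show N - n = m by omega]
      rw [h3, inv, h4]
      exact h2 m
    · obtain ⟨m, rfl⟩ := Nat.exists_eq_add_of_le e
      have h3 := bwd_add w N 1 m
      rw [one_mul] at h3
      rw [h3, add_comm, Function.iterate_add_apply, inv]
      exact h1 m
  · have h3 := fwd_add w N 1 n
    rw [one_mul] at h3
    exact h3 ▸ Fol.shift h2 N n
  · have := h2 l
    rwa [fwd, Nat.mod_eq_of_lt hl] at this

theorem Loop.perPt_unique {p p' : X} (hp : PerPt g w N p) (hp' : PerPt g w N p') : p = p' :=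
  inter_unique hκ hκ1 hc h.bpath h.fpath ((bwd_zero w N).trans (fwd_zero w N).symm)
    (hp.fol h.1).2 (hp.fol h.1).1 (hp'.fol h.1).2 (hp'.fol h.1).1

theorem Loop.perPt_co {p : X} (hp : PerPt g w N p) {l : ℕ} (hl : l < N) :
    ‖(w l).co (g^[l] p)‖ ≤ 1 / 20 := by
  obtain ⟨m, hm⟩ := Nat.exists_eq_add_of_le' hl.le
  have h1 := Fol.shift (hp.fol h.1).1 l
  have h2 := Fol.shift (hp.fol h.1).2 m
  have h3 : g.symm^[m] p = g^[l] p := by
    conv_lhs => rw [← hp.1, hm, Function.iterate_add_apply]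
    exact Function.LeftInverse.iterate g.symm_apply_apply m _
  rw [h3] at h2
  have h4 : bwd w N (m + 0) = fwd w N (l + 0) := by
    simp only [bwd, fwd, add_zero]
    rcases l.eq_zero_or_pos with rfl | e
    · simp [hm]
    · rw [Nat.mod_eq_of_lt (show m < N by omega), show N - m = l by omega]
  have := inter_co hκ hκ1 hc (Wu := fun n => bwd w N (m + n)) (Ws := fun n => fwd w N (l + n))
    (fun n => h.bpath (m + n)) (fun n => h.fpath (l + n)) h4 h2 h1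
  simpa only [fwd, add_zero, Nat.mod_eq_of_lt hl] using this

end

end Atlas

end Pool.Agent.Lib.MP_901be3_an.Hd
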