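import Pool.Agent.Lib.MP_901be3_an.Hd.QClose
import Pool.Agent.Lib.MP_901be3_an.Hd.QInter
import Pool.Agent.Lib.MP_901be3_an.Hd.PerMeas

namespace Pool.Agent.Lib.MP_901be3_an.Hd

open MeasureTheory Filter Topology Metric Set
open scoped ENNReal

variable {X : Type*} [MetricSpace X] [CompactSpace X] [MeasurableSpace X] [BorelSpace X]
  {A : Atlas X} {P : Par} {c₀ κ : ℝ}

namespace Atlas

/-- concatenation of loops of length `N`: `l` times the loop `0`, the word `ω`, then the loop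
`0` forever -/
def conc {K m : ℕ} (w : Fin (K + 1) → ℕ → A.Chart) (N l : ℕ) (ω : Fin m → Fin (K + 1)) :
    ℕ → A.Chart :=
  fun n => w (if h : l ≤ n / N ∧ n / N - l < m then ω ⟨n / N - l, h.2⟩ else 0) (n % N)

omit [CompactSpace X] [BorelSpace X] in
theorem conc_spec {g : X ≃ₜ X} {K m N : ℕ} {w : Fin (K + 1) → ℕ → A.Chart} {Φ : A.Chart}
    (hw : ∀ a, Loop (Edge P.α κ c₀ g) (w a) N ∧ w a 0 = Φ) (l : ℕ) (ω : Fin m → Fin (K + 1)) :
    FPath P.α κ c₀ g (conc w N l ω) ∧ (∀ n ≤ l * N, conc w N l ω n = fwd (w 0) N n) ∧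
      (∀ n, conc w N l ω ((l + m) * N + n) = fwd (w 0) N n) ∧
      ∀ (b : Fin m) (i : ℕ), i < N → conc w N l ω ((l + b) * N + i) = w (ω b) i := by
  have hN : 0 < N := (hw 0).1.1
  have hdiv : ∀ k i : ℕ, (k * N + i) / N = k + i / N := fun k i => by
    rw [add_comm, Nat.add_mul_div_right _ _ hN, add_comm]
  have hmod : ∀ k i : ℕ, (k * N + i) % N = i % N := fun k i => by
    rw [add_comm, Nat.add_mul_mod_self_right]
  have h0 : ∀ a a', w a 0 = w a' 0 := fun a a' => (hw a).2.trans (hw a').2.symm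
  refine ⟨fun n => ?_, fun n hn => ?_, fun n => ?_, fun b i hi => ?_⟩
  · have hj : n % N < N := Nat.mod_lt n hN
    have hn : n + 1 = n / N * N + (n % N + 1) := by
      rw [← add_assoc, Nat.div_add_mod']
    rcases (Nat.succ_le_of_lt hj).lt_or_eq with h | h
    · have e1 : (n + 1) / N = n / N := by
        rw [hn, hdiv, Nat.div_eq_of_lt h, add_zero]
      have e2 : (n + 1) % N = n % N + 1 := by
        rw [hn, hmod, Nat.mod_eq_of_lt h]
      simp only [conc, e1, e2]
      exact (hw _).1.2.2 _ hj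
    · have h' : n % N + 1 = N := h
      have e2 : (n + 1) % N = 0 := by
        rw [hn, hmod, h', Nat.mod_self]
      simp only [conc, e2]
      have := (hw (if h : l ≤ n / N ∧ n / N - l < m then ω ⟨n / N - l, h.2⟩ else 0)).1.2.2 _ hj
      rw [h', (hw _).1.2.1, h0] at this
      exact this
  · rcases hn.lt_or_eq with h | h
    · have : ¬ (l ≤ n / N ∧ n / N - l < m) := fun h' =>
        absurd ((Nat.div_lt_iff_lt_mul hN).2 h) (not_lt.2 h'.1)
      simp only [conc, fwd, dif_neg this]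
    · have e : n % N = 0 := by rw [h, Nat.mul_mod_left]
      simp only [conc, fwd, e]
      exact h0 _ _
  · have : ¬ (l ≤ ((l + m) * N + n) / N ∧ ((l + m) * N + n) / N - l < m) := fun h' => by
      have h2 := h'.2
      rw [hdiv] at h2
      generalize n / N = k at h2
      omega
    simp only [conc, fwd, dif_neg this, hmod]
  · have e1 : ((l + b) * N + i) / N = l + b := by rw [hdiv, Nat.div_eq_of_lt hi, add_zero]
    have e2 : ((l + b) * N + i) % N = i := by rw [hmod, Nat.mod_eq_of_lt hi]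
    simp only [conc, e1, e2, Nat.add_sub_cancel_left, Fin.eta]
    rw [dif_pos ⟨Nat.le_add_right _ _, b.2⟩]

omit [CompactSpace X] [MeasurableSpace X] [BorelSpace X] in
theorem KArcs_iter (g : X ≃ₜ X) (k l : ℕ) (x : X) : g^[k + l] (g.symm^[l] x) = g^[k] x := by
  rw [Function.iterate_add_apply]
  congr 1
  exact Function.LeftInverse.iterate g.apply_symm_apply l x

/-- points of a pulled back stable graph whose path ends with the loop -/
theorem spoint_graph (hκ : 0 < κ) (hκ1 : κ ≤ 1) (hc : c₀ ≤ 1 / 4) {g : X ≃ₜ X}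
    (hg : A.Good P g) {w : ℕ → A.Chart} {N : ℕ} (h : Loop (Edge P.α κ c₀ g) w N) {p : X}
    (hp : PerPt g w N p) (l : ℕ) : ∃ C : ℝ, ∀ (W : ℕ → A.Chart) (m : ℕ), FPath P.α κ c₀ g W →
      W 0 = w 0 → (∀ n, W (m + n) = fwd w N n) → ∀ b, |b| < 1 →
        A.SPoint g p C (1 - κ / 3) (g.symm^[l] ((W 0).pt (sg g W b, b))) := by
  set θ : ℝ := 1 - κ / 3 with hθ
  have hθ0 : 0 < θ := by linarith
  have hθ1 : θ < 1 := by linarith
  have hB1 : 1 ≤ P.B := P.one_le_B
  have hB0 : 0 ≤ P.B := zero_le_one.trans hB1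
  set K : ℝ := ‖Ci (w 0).u (w 0).s‖ * P.B ^ (l + 1) with hK
  have hK0 : 0 ≤ K := by positivity
  have hθl : 0 < θ ^ l := pow_pos hθ0 l
  refine ⟨(P.B * K + P.B ^ l) / θ ^ l, fun W m hW hW0 hWm b hb => ?_⟩
  have hid : A.Dif id := hg.2.2.dif
  have hgi : ∀ n, A.Dif g^[n] := hg.1.dif.iter hid
  have hsi : A.Dif g.symm^[l] := hg.2.1.dif.iter hid l
  have hsm : ∀ n, (W n).Small P.α c₀ := fun n => (hW n).1
  obtain ⟨σ, -, hσd, hσ⟩ := hW.sg_deriv hκ hκ1 hc hb
  obtain ⟨hb1, hfol⟩ := hW.sg_spec hκ hκ1 hc hb.le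
  set z' : X := (W 0).pt (sg g W b, b) with hz'
  have hgd : ∀ n, A.Gd (W n).i (g^[n] z') := fun n => by
    have h1 := (hsm n).pt_spec hc ((hfol n).2.trans one_le_two)
    rw [(hsm n).pt_co (hfol n).1] at h1
    exact h1.1
  have hcd : HasDerivAt (fun t : ℝ => (sg g W (b + t), b + t)) (σ, 1) 0 := by
    refine HasDerivAt.prodMk ?_ ((hasDerivAt_id (0 : ℝ)).const_add b)
    refine HasDerivAt.comp_const_add b 0 ?_
    rwa [add_zero]
  have hc0 : ‖(fun t : ℝ => (sg g W (b + t), b + t)) 0‖ ≤ 1 := by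
    simp only [add_zero, Prod.norm_mk, Real.norm_eq_abs]
    exact max_le (hb1.trans (by norm_num)) hb.le
  have hv0 := (hsm 0).velAt hc hc0 hcd
  have hz0 : (W 0).pt (sg g W (b + 0), b + 0) = z' := by
    simp only [add_zero, hz']
  have hv := hv0.push hsi (j := A.idx (g.symm^[l] z')) (by
    rw [hz0]
    exact A.gd_idx _)
  rw [hz0] at hv
  set v0 : V := Cm (W 0).u (W 0).s (σ, 1) with hv0d
  set v : V := A.DD g.symm^[l] (W 0).i (A.idx (g.symm^[l] z')) z' v0 with hvd
  have hlow : 1 ≤ K * ‖v‖ := by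
    have h1 : ‖v0‖ ≤ P.B ^ (l + 1) * ‖v‖ :=
      hg.symm.le_norm_DD_iter l (hgd 0) (A.gd_idx _) v0
    have h2 : (1 : ℝ) ≤ ‖((σ, 1) : V)‖ := by
      simp only [Prod.norm_mk, norm_one]
      exact le_max_right _ _
    have h3 : ‖((σ, 1) : V)‖ ≤ ‖Ci (W 0).u (W 0).s‖ * ‖v0‖ := by
      conv_lhs => rw [← Ci_Cm (hsm 0).2.1 (σ, 1)]
      exact ContinuousLinearMap.le_opNorm _ _
    rw [hK, ← hW0, mul_assoc]
    exact h2.trans (h3.trans (mul_le_mul_of_nonneg_left h1 (norm_nonneg _)))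
  refine ⟨g.symm^[l] ∘ fun t : ℝ => (W 0).pt (sg g W (b + t), b + t), v,
    congrArg (g.symm^[l]) hz0, hv, fun h0 => ?_, ⟨(N - 1) * (l + m), ?_⟩, fun n => ?_⟩
  · rw [h0, norm_zero, mul_zero] at hlow
    exact absurd hlow (by norm_num)
  · refine UConv_of_shift (m + l) (C := 2 * A.L) hθ0 hθ1 ?_
    have hev : ∀ᶠ s in 𝓝 (0 : ℝ), |b + s| < 1 := by
      have : ContinuousAt (fun s : ℝ => |b + s|) 0 := by fun_prop
      exact this.eventually (gt_mem_nhds (by simpa using hb))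
    filter_upwards [hev] with s hs n
    have h1 := Fol.shift (hW.sg_spec hκ hκ1 hc hs.le).2 m
    rw [show (fun n => W (m + n)) = fwd w N from funext hWm] at h1
    have h2 := h.fpath.contr hκ hκ1 hc h1 (hp.fol h.1).1 n
    have e1 : g^[n + (m + l)] (g^[(N - 1) * (l + m)] p) = g^[n] p := by
      obtain ⟨N', rfl⟩ : ∃ N', N = N' + 1 := ⟨N - 1, (Nat.succ_pred_eq_of_pos h.1).symm⟩
      rw [← Function.iterate_add_apply, show n + (m + l) + (N' + 1 - 1) * (l + m) =
        n + (N' + 1) * (l + m) by rw [Nat.add_sub_cancel]; ring, Function.iterate_add_apply,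
        Function.iterate_mul, Function.iterate_fixed hp.1]
    rw [e1, Function.comp_apply, ← add_assoc, KArcs_iter, Function.iterate_add_apply]
    exact h2
  · have hv0' := norm_nonneg v
    rcases le_or_gt l n with hn | hn
    · obtain ⟨k, rfl⟩ := Nat.exists_eq_add_of_le' hn
      have e1 : g^[k + l] ∘ g.symm^[l] = id ∘ g^[k] := funext (KArcs_iter g k l)
      have e2 : A.D g^[k + l] (g.symm^[l] z') v =
          A.DD id (W k).i (A.idx (g^[k] z')) (g^[k] z') (A.DD g^[k] (W 0).i (W k).i z' v0) := by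
        have h1 := DD_comp (hgi (k + l)) hsi (x := z') (hgd 0) (A.gd_idx (g.symm^[l] z'))
          (A.gd_idx (g^[k + l] (g.symm^[l] z')))
        have h2 := DD_comp hid (hgi k) (x := z') (hgd 0) (hgd k) (A.gd_idx (g^[k] z'))
        have h3 := congrArg (fun T : V →L[ℝ] V => T v0) h1
        have h4 := congrArg (fun T : V →L[ℝ] V => T v0) h2
        simp only [ContinuousLinearMap.comp_apply] at h3 h4
        rw [← h4, ← e1, ← KArcs_iter g k l z', h3]
        rfl
      have h1 : ‖A.DD id (W k).i (A.idx (g^[k] z')) (g^[k] z')‖ ≤ P.B :=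
        hg.2.2.norm_DD_le _ _ _ (hgd k) (A.gd_idx _)
      have hθk : 0 ≤ θ ^ k := (pow_pos hθ0 k).le
      calc ‖A.D g^[k + l] (g.symm^[l] z') v‖ ≤ P.B * θ ^ k := by
            rw [e2]
            exact (ContinuousLinearMap.le_opNorm _ _).trans
              (mul_le_mul h1 (hσ k) (norm_nonneg _) hB0)
        _ ≤ P.B * θ ^ k * (K * ‖v‖) := le_mul_of_one_le_right (mul_nonneg hB0 hθk) hlow
        _ ≤ (P.B * K + P.B ^ l) * θ ^ k * ‖v‖ := by
            have : 0 ≤ P.B ^ l * θ ^ k * ‖v‖ := by positivity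
            linarith
        _ = _ := by
            rw [pow_add]
            field_simp
    · refine (ContinuousLinearMap.le_opNorm _ _).trans (mul_le_mul_of_nonneg_right ?_ hv0')
      refine (hg.norm_D_iter n _).1.trans ?_
      rw [div_mul_eq_mul_div, le_div_iff₀ hθl]
      have h1 : P.B ^ n ≤ P.B * K + P.B ^ l :=
        (pow_le_pow_right₀ hB1 hn.le).trans (le_add_of_nonneg_left (mul_nonneg hB0 hK0))
      exact mul_le_mul h1 (pow_le_pow_of_le_one hθ0.le hθ1.le hn.le) hθl.le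
        ((pow_nonneg hB0 n).trans h1)

end Atlas

end Pool.Agent.Lib.MP_901be3_an.Hd
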