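import Pool.Agent.Lib.MP_901be3_an.Hd.Defs

namespace Pool.Agent.Lib.MP_901be3_an.Hd

open MeasureTheory Filter Topology Metric Set
open scoped ENNReal

namespace KraftAux

/-- starts of the full aligned blocks -/
def bl (L o : ℕ) (T : Finset ℕ) : Finset ℕ :=
  T.filter fun j => j % L = o ∧ ∀ i < L, j + i ∈ T

/-- times outside the full aligned blocks -/
def ot (L o : ℕ) (T : Finset ℕ) : Finset ℕ :=
  T.filter fun t => ¬ ∃ j ∈ bl L o T, j ≤ t ∧ t < j + L

lemma exit_ex (T : Finset ℕ) (t : ℕ) (ht : t ∈ T) (k : ℕ) (hk : t + k ∉ T) :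
    ∃ e ∈ exits T, t ≤ e ∧ e < t + k := by
  induction k with
  | zero => exact absurd ht hk
  | succ k ih =>
    by_cases h : t + k ∈ T
    · exact ⟨t + k, Finset.mem_filter.2 ⟨h, hk⟩, by omega, by omega⟩
    · obtain ⟨e, he, h1, h2⟩ := ih h
      exact ⟨e, he, h1, by omega⟩

lemma start_ex (T : Finset ℕ) (u : ℕ) (hu : u ∉ T) (k : ℕ) (hk : u + k ∈ T) :
    ∃ s ∈ T \ T.image (· + 1), u < s ∧ s ≤ u + k := by
  induction k with
  | zero => exact absurd hk hu
  | succ k ih =>
    by_cases h : u + k ∈ T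
    · obtain ⟨s, hs, h1, h2⟩ := ih h
      exact ⟨s, hs, h1, by omega⟩
    · refine ⟨u + (k + 1), Finset.mem_sdiff.2 ⟨hk, fun h' => h ?_⟩, by omega, le_rfl⟩
      obtain ⟨a, ha, e⟩ := Finset.mem_image.1 h'
      have : a = u + k := by omega
      exact this ▸ ha

lemma card_starts (T : Finset ℕ) : (T \ T.image (· + 1)).card ≤ (exits T).card := by
  have h1 : (T.image (· + 1)).card = T.card :=
    Finset.card_image_of_injective _ (add_left_injective 1)
  rw [Finset.card_sdiff_comm h1.symm]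
  refine le_trans (Finset.card_le_card ?_) (Finset.card_image_le (f := (· + 1)) (s := exits T))
  intro a ha
  obtain ⟨h2, h3⟩ := Finset.mem_sdiff.1 ha
  obtain ⟨c, hc, rfl⟩ := Finset.mem_image.1 h2
  exact Finset.mem_image.2 ⟨c, Finset.mem_filter.2 ⟨hc, h3⟩, rfl⟩

lemma card_ot {L o : ℕ} (ho : o < L) (T : Finset ℕ) {b : ℕ} (hb : (exits T).card ≤ b) :
    (ot L o T).card ≤ (2 * b + 1) * L := by
  have hsub : ot L o T ⊆ Finset.range L ∪ ((exits T).biUnion fun e => Finset.Ico (e + 1 - L) (e + 1))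
      ∪ ((T \ T.image (· + 1)).biUnion fun s => Finset.Ico s (s + L)) := by
    intro t ht
    obtain ⟨htT, hn⟩ := Finset.mem_filter.1 ht
    simp only [Finset.mem_union, Finset.mem_range, Finset.mem_biUnion, Finset.mem_Ico]
    by_cases h : t < o
    · exact Or.inl (Or.inl (by omega))
    obtain ⟨m, rfl⟩ := Nat.exists_eq_add_of_le (not_lt.1 h)
    have hL : 0 < L := by omega
    have hm := Nat.div_add_mod m L
    have hr := Nat.mod_lt m hL
    obtain ⟨j, hj⟩ : ∃ j, j = o + L * (m / L) := ⟨_, rfl⟩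
    have hjm : j % L = o := by rw [hj, Nat.add_mul_mod_self_left, Nat.mod_eq_of_lt ho]
    have hex : ∃ i < L, j + i ∉ T := by
      by_contra hc
      push Not at hc
      exact hn ⟨j, Finset.mem_filter.2 ⟨by simpa using hc 0 hL, hjm, hc⟩, by omega, by omega⟩
    obtain ⟨i, hi, hiT⟩ := hex
    rcases le_total (o + m) (j + i) with h1 | h1
    · obtain ⟨k, hk⟩ := Nat.exists_eq_add_of_le h1
      obtain ⟨e, he, h2, h3⟩ := exit_ex T _ htT k (hk ▸ hiT)
      exact Or.inl (Or.inr ⟨e, he, by omega, by omega⟩)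
    · obtain ⟨k, hk⟩ := Nat.exists_eq_add_of_le h1
      obtain ⟨s, hs, h2, h3⟩ := start_ex T _ hiT k (hk ▸ htT)
      exact Or.inr ⟨s, hs, by omega, by omega⟩
  have c1 : ((exits T).biUnion fun e => Finset.Ico (e + 1 - L) (e + 1)).card ≤ b * L :=
    (Finset.card_biUnion_le_card_mul _ _ L fun e _ => by rw [Nat.card_Ico]; omega).trans
      (Nat.mul_le_mul_right _ hb)
  have c2 : ((T \ T.image (· + 1)).biUnion fun s => Finset.Ico s (s + L)).card ≤ b * L :=
    (Finset.card_biUnion_le_card_mul _ _ L fun e _ => by rw [Nat.card_Ico]; omega).trans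
      (Nat.mul_le_mul_right _ ((card_starts T).trans hb))
  have c3 := Finset.card_le_card hsub
  have c4 := Finset.card_union_le (Finset.range L ∪
    ((exits T).biUnion fun e => Finset.Ico (e + 1 - L) (e + 1)))
    ((T \ T.image (· + 1)).biUnion fun s => Finset.Ico s (s + L))
  have c5 := Finset.card_union_le (Finset.range L)
    ((exits T).biUnion fun e => Finset.Ico (e + 1 - L) (e + 1))
  rw [Finset.card_range] at c5
  have e : (2 * b + 1) * L = b * L + b * L + L := by ring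
  omega

open Classical in
lemma fixed {ι β : Type*} [Fintype ι] {L : ℕ} (q : (Fin L → ι) → ℝ)
    (hq : ∀ w, 0 < q w) (hq1 : ∑ w, q w ≤ 1) (S : Finset β) (w : β → ℕ → ι) (T : Finset ℕ)
    (o : ℕ) (Fib : β → ℝ)
    (hF : ∀ x ∈ S, ((S.filter fun y => ∀ j ∈ T, w y j = w x j).card : ℝ) ≤ Fib x) :
    ∑ x ∈ S, (∏ j ∈ bl L o T, q fun i => w x (j + i)) / Fib x ≤
      (Fintype.card ι : ℝ) ^ (ot L o T).card := by
  let code : β → (bl L o T → Fin L → ι) × (ot L o T → ι) :=
    fun x => (fun j i => w x (j + i), fun t => w x t)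
  let Q : (bl L o T → Fin L → ι) × (ot L o T → ι) → ℝ := fun c => ∏ j, q (c.1 j)
  have Q0 : ∀ c, 0 ≤ Q c := fun c => Finset.prod_nonneg fun j _ => (hq _).le
  have hcode : ∀ x y, code y = code x → ∀ t ∈ T, w y t = w x t := fun x y h t ht => by
    by_cases hc : ∃ j ∈ bl L o T, j ≤ t ∧ t < j + L
    · obtain ⟨j, hj, h1, h2⟩ := hc
      have := congrFun (congrFun (congrArg Prod.fst h) ⟨j, hj⟩) ⟨t - j, by omega⟩
      simp only [code] at this
      rwa [show j + (t - j) = t by omega] at this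
    · exact congrFun (congrArg Prod.snd h) ⟨t, Finset.mem_filter.2 ⟨ht, hc⟩⟩
  have h1 : ∑ x ∈ S, (∏ j ∈ bl L o T, q fun i => w x (j + i)) / Fib x ≤ ∑ c, Q c := by
    rw [← Finset.sum_fiberwise S code]
    refine Finset.sum_le_sum fun c _ => ?_
    have hterm : ∀ x ∈ S.filter fun x => code x = c,
        (∏ j ∈ bl L o T, q fun i => w x (j + i)) / Fib x ≤
          Q c / (S.filter fun x => code x = c).card := fun x hx => by
      obtain ⟨hxS, hxc⟩ := Finset.mem_filter.1 hx
      have e : (∏ j ∈ bl L o T, q fun i => w x (j + i)) = Q c := by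
        rw [← hxc, ← Finset.prod_coe_sort]
      rw [e]
      refine div_le_div_of_nonneg_left (Q0 c) ?_ (le_trans ?_ (hF x hxS))
      · exact_mod_cast Finset.card_pos.2 ⟨x, hx⟩
      · refine Nat.cast_le.2 (Finset.card_le_card fun y hy => ?_)
        obtain ⟨hyS, hyc⟩ := Finset.mem_filter.1 hy
        exact Finset.mem_filter.2 ⟨hyS, hcode x y (hyc.trans hxc.symm)⟩
    refine (Finset.sum_le_card_nsmul _ _ _ hterm).trans ?_
    rw [nsmul_eq_mul]
    rcases Nat.eq_zero_or_pos (S.filter fun x => code x = c).card with h | h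
    · rw [h]
      simpa using Q0 c
    · rw [mul_div_cancel₀ _ (by exact_mod_cast h.ne')]
  refine h1.trans ?_
  rw [Fintype.sum_prod_type]
  simp only [Q, Finset.sum_const, Finset.card_univ, Fintype.card_fun, Fintype.card_coe,
    nsmul_eq_mul, Nat.cast_pow]
  rw [← Finset.mul_sum]
  refine mul_le_of_le_one_right (by positivity) ?_
  have := Finset.prod_univ_sum (fun _ : bl L o T => (Finset.univ : Finset (Fin L → ι)))
    fun _ v => q v
  rw [Fintype.piFinset_univ] at this
  rw [← this]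
  exact Finset.prod_le_one (fun _ _ => Finset.sum_nonneg fun v _ => (hq v).le) fun _ _ => hq1

lemma jensen {β : Type*} (S : Finset β) (hS : S.Nonempty) (W : β → ℝ) (hW : ∀ x ∈ S, 0 < W x)
    {A : ℝ} (hA : ∑ x ∈ S, W x ≤ A) :
    S.card * Real.log S.card ≤ S.card * Real.log A + ∑ x ∈ S, -Real.log (W x) := by
  have hn : (0 : ℝ) < S.card := by exact_mod_cast hS.card_pos
  have hA0 : 0 < A := (Finset.sum_pos hW hS).trans_le hA
  have h1 : ∀ x ∈ S, Real.log (W x) + (Real.log S.card - Real.log A) ≤ W x * (S.card / A) - 1 :=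
    fun x hx => by
      have := Real.log_le_sub_one_of_pos (mul_pos (hW x hx) (div_pos hn hA0))
      rwa [Real.log_mul (hW x hx).ne' (div_pos hn hA0).ne', Real.log_div hn.ne' hA0.ne'] at this
  have h2 := Finset.sum_le_sum h1
  rw [Finset.sum_add_distrib, Finset.sum_const, Finset.sum_sub_distrib, ← Finset.sum_mul,
    Finset.sum_const, nsmul_eq_mul, nsmul_eq_mul] at h2
  have h3 : (∑ x ∈ S, W x) * (S.card / A) ≤ A * (S.card / A) :=
    mul_le_mul_of_nonneg_right hA (div_pos hn hA0).le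
  rw [mul_div_cancel₀ _ hA0.ne'] at h3
  rw [Finset.sum_neg_distrib]
  linarith

end KraftAux

open KraftAux in
open Classical in
/-- counting through a block code -/
theorem kraft {ι β Δ : Type*} [Fintype ι] {Lb : ℕ} (hL : 0 < Lb) (q : (Fin Lb → ι) → ℝ)
    (hq : ∀ w, 0 < q w) (hq1 : ∑ w, q w ≤ 1) (S : Finset β) (hS : S.Nonempty) (w : β → ℕ → ι)
    (d : β → Δ) (T : β → Finset ℕ) (b : ℕ) (Dn : ℝ) (Fib : β → ℝ)
    (hT : ∀ x ∈ S, ∀ y ∈ S, d x = d y → T x = T y)
    (hb : ∀ x ∈ S, (exits (T x)).card ≤ b) (hD : ((S.image d).card : ℝ) ≤ Dn)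
    (hF : ∀ x ∈ S, ((S.filter fun y => d y = d x ∧ ∀ j ∈ T x, w y j = w x j).card : ℝ) ≤ Fib x) :
    Real.log S.card ≤ Real.log Dn + (∑ x ∈ S, (Real.log (Fib x) +
      (∑ j ∈ T x, -Real.log (q fun i => w x (j + i))) / Lb)) / S.card +
      (2 * b + 1) * Lb * Real.log (Fintype.card ι) := by
  obtain ⟨x0, hx0⟩ := id hS
  have hι : 0 < Fintype.card ι := Fintype.card_pos_iff.2 ⟨w x0 0⟩
  have hN : (1 : ℝ) ≤ Fintype.card ι := by exact_mod_cast hι
  have hn : (0 : ℝ) < S.card := by exact_mod_cast hS.card_pos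
  have hL' : (0 : ℝ) < Lb := by exact_mod_cast hL
  have hD0 : 0 < Dn := lt_of_lt_of_le (by exact_mod_cast (hS.image d).card_pos) hD
  have hF0 : ∀ x ∈ S, 0 < Fib x := fun x hx => by
    refine lt_of_lt_of_le (Nat.cast_pos.2 (Finset.card_pos.2 ⟨x, ?_⟩)) (hF x hx)
    exact Finset.mem_filter.2 ⟨hx, rfl, fun _ _ => rfl⟩
  have hlog : ∀ v, 0 ≤ -Real.log (q v) := fun v => neg_nonneg.2 (Real.log_nonpos (hq v).le
    ((Finset.single_le_sum (fun u _ => (hq u).le) (Finset.mem_univ v)).trans hq1))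
  have hsum : ∀ o < Lb, ∑ x ∈ S, (∏ j ∈ bl Lb o (T x), q fun i => w x (j + i)) / Fib x ≤
      Dn * (Fintype.card ι : ℝ) ^ ((2 * b + 1) * Lb) := fun o ho => by
    rw [← Finset.sum_fiberwise_of_maps_to (t := S.image d) (g := d)
      fun x hx => Finset.mem_image_of_mem d hx]
    refine (Finset.sum_le_card_nsmul _ _ ((Fintype.card ι : ℝ) ^ ((2 * b + 1) * Lb))
      fun δ hδ => ?_).trans ?_
    · obtain ⟨x1, hx1, rfl⟩ := Finset.mem_image.1 hδ
      have e : ∑ x ∈ S.filter fun x => d x = d x1,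
          (∏ j ∈ bl Lb o (T x), q fun i => w x (j + i)) / Fib x =
          ∑ x ∈ S.filter fun x => d x = d x1,
          (∏ j ∈ bl Lb o (T x1), q fun i => w x (j + i)) / Fib x :=
        Finset.sum_congr rfl fun x hx => by
          rw [hT x (Finset.mem_filter.1 hx).1 x1 hx1 (Finset.mem_filter.1 hx).2]
      rw [e]
      refine (fixed q hq hq1 _ w (T x1) o Fib fun x hx => ?_).trans
        (pow_le_pow_right₀ hN (card_ot ho _ (hb x1 hx1)))
      obtain ⟨hxS, hxd⟩ := Finset.mem_filter.1 hx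
      refine le_trans (Nat.cast_le.2 (Finset.card_le_card fun y hy => ?_)) (hF x hxS)
      obtain ⟨hy1, hy2⟩ := Finset.mem_filter.1 hy
      obtain ⟨hyS, hyd⟩ := Finset.mem_filter.1 hy1
      refine Finset.mem_filter.2 ⟨hyS, hyd.trans hxd.symm, ?_⟩
      rw [hT x hxS x1 hx1 hxd]
      exact hy2
    · rw [nsmul_eq_mul]
      exact mul_le_mul_of_nonneg_right hD (by positivity)
  have hone : ∀ o ∈ Finset.range Lb, S.card * Real.log S.card ≤
      S.card * (Real.log Dn + (2 * b + 1) * Lb * Real.log (Fintype.card ι)) +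
        ∑ x ∈ S, Real.log (Fib x) +
        ∑ x ∈ S, ∑ j ∈ (T x).filter (fun j => j % Lb = o), -Real.log (q fun i => w x (j + i)) :=
    fun o ho => by
      have h1 := jensen S hS _ (fun x hx => div_pos (Finset.prod_pos fun j _ => hq _) (hF0 x hx))
        (hsum o (Finset.mem_range.1 ho))
      rw [Real.log_mul hD0.ne' (by positivity), Real.log_pow] at h1
      push_cast at h1
      rw [add_assoc, ← Finset.sum_add_distrib]
      refine h1.trans (add_le_add le_rfl (Finset.sum_le_sum fun x hx => ?_))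
      rw [Real.log_div (Finset.prod_pos fun j _ => hq _).ne' (hF0 x hx).ne',
        Real.log_prod fun j _ => (hq _).ne', neg_sub, sub_eq_add_neg, ← Finset.sum_neg_distrib]
      refine add_le_add le_rfl (Finset.sum_le_sum_of_subset_of_nonneg ?_ fun j _ _ => hlog _)
      intro j hj
      obtain ⟨h2, h3, _⟩ := Finset.mem_filter.1 hj
      exact Finset.mem_filter.2 ⟨h2, h3⟩
  have h2 := Finset.sum_le_sum hone
  rw [Finset.sum_add_distrib, Finset.sum_const, Finset.sum_const, Finset.card_range,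
    nsmul_eq_mul, nsmul_eq_mul, Finset.sum_comm] at h2
  have e : ∑ x ∈ S, ∑ o ∈ Finset.range Lb, ∑ j ∈ (T x).filter (fun j => j % Lb = o),
      -Real.log (q fun i => w x (j + i)) =
      ∑ x ∈ S, ∑ j ∈ T x, -Real.log (q fun i => w x (j + i)) :=
    Finset.sum_congr rfl fun x _ => Finset.sum_fiberwise_of_maps_to
      (fun j _ => Finset.mem_range.2 (Nat.mod_lt j hL)) _
  rw [e] at h2
  rw [Finset.sum_add_distrib, ← Finset.sum_div]
  generalize ∑ x ∈ S, ∑ j ∈ T x, -Real.log (q fun i => w x (j + i)) = U at h2 ⊢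
  generalize ∑ x ∈ S, Real.log (Fib x) = Y at h2 ⊢
  have h3 : Real.log S.card - Real.log Dn - (2 * b + 1) * Lb * Real.log (Fintype.card ι) ≤
      (Y + U / Lb) / S.card := by
    rw [le_div_iff₀ hn, ← sub_le_iff_le_add', le_div_iff₀ hL']
    linarith
  linarith

end Pool.Agent.Lib.MP_901be3_an.Hd
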