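import Pool.Agent.Lib.MP_901be3_an.Hd.Kraft
import Pool.Agent.Lib.MP_901be3_an.Hd.Cov
import Pool.Agent.Lib.MP_901be3_an.Hd.Emp
import Pool.Agent.Lib.MP_901be3_an.Hd.EntBasic

namespace Pool.Agent.Lib.MP_901be3_an.Hd

open MeasureTheory Filter Topology Metric Set
open scoped ENNReal

variable {X : Type*} [MetricSpace X] [MeasurableSpace X] [BorelSpace X]

namespace MIneqAux

theorem image_card_le {β Δ : Type*} {S : Finset β} {d : β → Δ} {D : ℝ} (i j : DecidableEq Δ)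
    (h : ((@Finset.image β Δ i d S).card : ℝ) ≤ D) : ((@Finset.image β Δ j d S).card : ℝ) ≤ D := by
  have e : i = j := funext fun a => funext fun b => Subsingleton.elim _ _
  exact e ▸ h

theorem iter_lip {Z : Type*} [MetricSpace Z] {g : Z → Z} {Λ : ℝ} (hΛ : 1 ≤ Λ)
    (hlip : ∀ x y, dist (g x) (g y) ≤ Λ * dist x y) (r : ℕ) (x y : Z) :
    dist (g^[r] x) (g^[r] y) ≤ Λ ^ r * dist x y := by
  induction r with
  | zero => simp
  | succ r ih =>
    rw [Function.iterate_succ_apply', Function.iterate_succ_apply', pow_succ', mul_assoc]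
    exact (hlip _ _).trans (mul_le_mul_of_nonneg_left ih (by linarith))

theorem sep_iter {Z : Type*} [MetricSpace Z] {g : Z → Z} {Λ ε' : ℝ} (hΛ : 1 ≤ Λ)
    (hlip : ∀ x y, dist (g x) (g y) ≤ Λ * dist x y) {p m j : ℕ} (hp : 0 < p) (hj : j < m * p)
    {x y : Z} (h : ε' ≤ dist (g^[j] x) (g^[j] y)) :
    ∃ l ≤ m, ε' / Λ ^ p ≤ dist ((g^[p])^[l] x) ((g^[p])^[l] y) := by
  refine ⟨j / p, ((Nat.div_lt_iff_lt_mul hp).2 hj).le, ?_⟩
  rw [div_le_iff₀ (by positivity), ← Function.iterate_mul, mul_comm _ (Λ ^ p)]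
  have h1 := iter_lip hΛ hlip (j % p) (g^[p * (j / p)] x) (g^[p * (j / p)] y)
  rw [← Function.iterate_add_apply, ← Function.iterate_add_apply, Nat.mod_add_div] at h1
  exact h.trans (h1.trans (mul_le_mul_of_nonneg_right
    (pow_le_pow_right₀ hΛ (Nat.mod_lt j hp).le) dist_nonneg))

end MIneqAux

namespace Atlas

/-- empirical measure on the covered times -/
noncomputable def covEmp (A : Atlas X) (P : Par) (ε δ : ℝ) (g : X → X) (p₀ : ℕ) (σ : ℝ → X)
    (S : Finset ℝ) (m M : ℕ) : Measure X :=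
  emp g σ S (fun x => tms p₀ m (cov M (A.Geo P ε δ g^[p₀] σ x) m)) (m * p₀)

open Classical in
/-- the entropy inequality at a finite level -/
theorem mineq {A : Atlas X} {P : Par} {g : X → X} (hg : Continuous g) {p₀ : ℕ} (hp₀ : 0 < p₀)
    {ε δ Y K η Λ ε' Dn : ℝ} {M₀ M m : ℕ} (hY : 1 ≤ Y) (hK : 1 ≤ K) (hΛ : 1 ≤ Λ) (hε' : 0 < ε')
    (hM₀ : 0 < M₀) (hM : M₀ ≤ M) (hm : 0 < m)
    (hlip : ∀ x y, dist (g x) (g y) ≤ Λ * dist x y)
    (hC : A.Count P ε δ Y K M₀ η g^[p₀]) {σ : ℝ → X} (hσ : A.SG P ε σ) {S : Finset ℝ}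
    (hS : S.Nonempty) (hS1 : ∀ x ∈ S, |x| ≤ 1 / 3)
    (hsep : ∀ x ∈ S, ∀ y ∈ S, x ≠ y → ∃ j < m * p₀, ε' ≤ dist (g^[j] (σ x)) (g^[j] (σ y)))
    {k : ℕ} {Q : X → Fin (k + 1)} (hQ : ∀ a, MeasurableSet (Q ⁻¹' {a}))
    (hcl : ∀ x ∈ S, ∀ y ∈ S, ∀ a ∈ A.Geo P ε δ g^[p₀] σ x,
      Q ((g^[p₀])^[a] (σ x)) = Q ((g^[p₀])^[a] (σ y)) →
        dist ((g^[p₀])^[a] (σ x)) ((g^[p₀])^[a] (σ y)) ≤ η)
    {Lb : ℕ} (hL : 0 < Lb) {q : (Fin Lb → Fin (k + 1)) → ℝ} (hq : ∀ w, 0 < q w)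
    (hq1 : ∑ w, q w ≤ 1)
    (hD : ((S.image fun x => (cov M₀ (A.Geo P ε δ g^[p₀] σ x) m,
      rst M₀ (A.Geo P ε δ g^[p₀] σ x) m, cov M (A.Geo P ε δ g^[p₀] σ x) m)).card : ℝ) ≤ Dn) :
    Real.log S.card ≤ Real.log Dn + (m / M₀ + 2) * Real.log K +
      Real.log (K * Λ ^ p₀ / ε' + 1) +
      m * (1 - (A.covEmp P ε δ g p₀ σ S m M₀).real univ) * Real.log Y +
      (m * p₀ / Lb) * ∑ w, (A.covEmp P ε δ g p₀ σ S m M).real (name g Q Lb ⁻¹' {w}) *
        -Real.log (q w) +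
      (2 * (m / M + 1) + 1) * Lb * Real.log (k + 1) := by
  set E : ℝ → Set ℕ := fun x => A.Geo P ε δ g^[p₀] σ x with hE
  have hΛp : 0 < Λ ^ p₀ := by positivity
  have hc : 0 < K * Λ ^ p₀ / ε' + 1 := by positivity
  have hSc : (0 : ℝ) < S.card := Nat.cast_pos.2 hS.card_pos
  have hm' : (0 : ℝ) < m := Nat.cast_pos.2 hm
  have hp' : (0 : ℝ) < p₀ := Nat.cast_pos.2 hp₀
  have hL' : (0 : ℝ) < Lb := Nat.cast_pos.2 hL
  have hmp : 0 < m * p₀ := Nat.mul_pos hm hp₀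
  have hcm : ∀ x, (cov M₀ (E x) m).card ≤ m := fun x =>
    (Finset.card_le_card (cov_subset M₀ (E x) m)).trans (Finset.card_range m).le
  have hk := kraft hL q hq hq1 S hS (fun x j => Q (g^[j] (σ x)))
    (fun x => (cov M₀ (E x) m, rst M₀ (E x) m, cov M (E x) m))
    (fun x => tms p₀ m (cov M (E x) m)) (m / M + 1) Dn
    (fun x => K ^ ((rst M₀ (E x) m).card + 1) * Y ^ (m - (cov M₀ (E x) m).card) *
      (K * Λ ^ p₀ / ε' + 1))
    (fun x _ y _ h => by
      simp only [Prod.mk.injEq] at h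
      simp only [h.2.2])
    (fun x _ => by
      rw [exits_tms_card hp₀ (cov_subset _ _ _)]
      exact exits_cov_card _ _ _)
    (MIneqAux.image_card_le _ _ hD)
    (fun x hx => by
      have e : K * Λ ^ p₀ / ε' = K / (ε' / Λ ^ p₀) := by field_simp
      rw [e]
      refine hC σ m _ _ _ _ hσ (by positivity) (fun y hy => ?_) (fun y hy z hz a ha ha' => ?_)
        (fun y hy z hz hne => ?_)
      · simp only [Finset.mem_filter, Prod.mk.injEq] at hy
        exact ⟨hS1 y hy.1, hy.2.1.1, hy.2.1.2.1.le⟩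
      · simp only [Finset.mem_filter] at hy hz
        refine hcl y hy.1 z hz.1 a ha' ?_
        have h := mul_mem_tms hp₀ (cov_subset M (E x) m) (cov_mono hM _ _ ha)
        rw [← Function.iterate_mul]
        exact (hy.2.2 _ h).trans (hz.2.2 _ h).symm
      · simp only [Finset.mem_filter] at hy hz
        obtain ⟨j, hj, h⟩ := hsep y hy.1 z hz.1 hne
        exact MIneqAux.sep_iter hΛ hlip hp₀ hj h)
  have h1 : (A.covEmp P ε δ g p₀ σ S m M₀).real univ =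
      (∑ x ∈ S, ((cov M₀ (E x) m).card : ℝ)) / (S.card * m) := by
    unfold covEmp
    rw [emp_real_univ g σ hS _ hmp, Finset.sum_congr rfl fun x _ => by
      rw [tms_card (cov_subset _ _ _), Nat.cast_mul], ← Finset.mul_sum]
    push_cast
    field_simp
    rfl
  have h2 : ∑ w, (A.covEmp P ε δ g p₀ σ S m M).real (name g Q Lb ⁻¹' {w}) * -Real.log (q w) =
      (∑ x ∈ S, ∑ j ∈ tms p₀ m (cov M (E x) m),
        -Real.log (q fun i => Q (g^[j + i] (σ x)))) / (S.card * (m * p₀)) := by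
    unfold covEmp
    rw [emp_sum g σ hS _ hmp (measurableSet_name hg.measurable hQ Lb) (fun w => -Real.log (q w))]
    push_cast
    congr 1
    refine Finset.sum_congr rfl fun x _ => Finset.sum_congr rfl fun j _ => ?_
    congr 3
    funext i
    rw [name, add_comm j, Function.iterate_add_apply]
  have h3 : ∀ x ∈ S, Real.log (K ^ ((rst M₀ (E x) m).card + 1) *
      Y ^ (m - (cov M₀ (E x) m).card) * (K * Λ ^ p₀ / ε' + 1)) ≤
      (((m : ℝ) / M₀ + 2) * Real.log K + Real.log (K * Λ ^ p₀ / ε' + 1) + m * Real.log Y) -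
        (cov M₀ (E x) m).card * Real.log Y := by
    intro x _
    rw [Real.log_mul (by positivity) hc.ne', Real.log_mul (by positivity) (by positivity),
      Real.log_pow, Real.log_pow, Nat.cast_sub (hcm x)]
    have a1 : ((rst M₀ (E x) m).card : ℝ) ≤ ((m / M₀ : ℕ) : ℝ) + 1 := by
      exact_mod_cast rst_card hM₀ (E x) m
    have a2 : ((m / M₀ : ℕ) : ℝ) ≤ (m : ℝ) / M₀ := Nat.cast_div_le
    have a3 := mul_le_mul_of_nonneg_right (a1.trans (add_le_add_left a2 1)) (Real.log_nonneg hK)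
    push_cast
    linarith
  have h4 := Finset.sum_le_sum h3
  rw [Finset.sum_sub_distrib, Finset.sum_const, nsmul_eq_mul, ← Finset.sum_mul] at h4
  have h5 : (2 * ((m / M + 1 : ℕ) : ℝ) + 1) * Lb * Real.log (Fintype.card (Fin (k + 1))) ≤
      (2 * ((m : ℝ) / M + 1) + 1) * Lb * Real.log (k + 1) := by
    have a2 : ((m / M : ℕ) : ℝ) ≤ (m : ℝ) / M := Nat.cast_div_le
    have a3 : 0 ≤ Real.log ((k : ℝ) + 1) := Real.log_nonneg (by linarith [k.cast_nonneg (α := ℝ)])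
    rw [Fintype.card_fin, Nat.cast_add, Nat.cast_add, Nat.cast_one]
    gcongr
  rw [Finset.sum_add_distrib, ← Finset.sum_div, add_div] at hk
  have h6 := div_le_div_of_nonneg_right h4 hSc.le
  rw [h1, h2]
  refine hk.trans ?_
  have h7 : ∀ a c u : ℝ, (S.card * (a + m * Real.log Y) - c * Real.log Y) / S.card +
      u / Lb / S.card = a + m * (1 - c / (S.card * m)) * Real.log Y +
        (m * p₀ / Lb) * (u / (S.card * (m * p₀))) := by
    intro a c u
    field_simp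
    ring
  have h8 := h7 (((m : ℝ) / M₀ + 2) * Real.log K + Real.log (K * Λ ^ p₀ / ε' + 1))
    (∑ x ∈ S, ((cov M₀ (E x) m).card : ℝ))
    (∑ x ∈ S, ∑ j ∈ tms p₀ m (cov M (E x) m), -Real.log (q fun i => Q (g^[j + i] (σ x))))
  linarith

end Atlas

end Pool.Agent.Lib.MP_901be3_an.Hd
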