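import Pool.Agent.Lib.MP_901be3_an.Hd.MIneq
import Pool.Agent.Lib.MP_901be3_an.Hd.Limit
import Pool.Agent.Lib.MP_901be3_an.Hd.CodeBound
import Pool.Agent.Lib.MP_901be3_an.Hd.AtLip

namespace Pool.Agent.Lib.MP_901be3_an.Hd

open MeasureTheory Filter Topology Metric Set
open scoped ENNReal

variable {X : Type*} [MetricSpace X] [CompactSpace X] [MeasurableSpace X] [BorelSpace X]

namespace MLimitAux

theorem exists_nat_div_le (c : ℝ) {γ : ℝ} (hγ : 0 < γ) :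
    ∃ N : ℕ, 0 < N ∧ ∀ M : ℕ, N ≤ M → c ≤ γ * M := by
  refine ⟨⌈c / γ⌉₊ + 1, Nat.succ_pos _, fun M hM => ?_⟩
  have h1 : c / γ ≤ M := (Nat.le_ceil _).trans (by exact_mod_cast (Nat.le_succ _).trans hM)
  rwa [div_le_iff₀' hγ] at h1

theorem final {t t' t₀ β γ m p M₀ M Lb lS lK lc lY lk x W C C₁ : ℝ} (hγ : 0 < γ) (hm : 0 < m)
    (hp : 1 ≤ p) (hM₀ : 0 < M₀) (hM : 0 < M) (hL : 0 < Lb) (hβ : β ≤ 1)
    (hgap : γ * (9 + t₀) ≤ t - t' * β - (1 - β) * t₀) (hlY0 : 0 ≤ lY) (hlY : lY ≤ t₀ * p)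
    (hK : lK ≤ γ * M₀) (hk : 2 * Lb * lk ≤ γ * M) (hc : lc ≤ C₁ + γ * m) (hx : β - γ ≤ x)
    (hW : W ≤ Lb * (t' * β + 2 * γ)) (hC : C + 2 * lK + C₁ + 3 * Lb * lk ≤ γ * m)
    (h1 : (t - γ) * (m * p) ≤ lS)
    (h2 : lS ≤ γ * m + C + (m / M₀ + 2) * lK + lc + m * (1 - x) * lY + m * p / Lb * W +
      (2 * (m / M + 1) + 1) * Lb * lk) : False := by
  have a1 : m / M₀ * lK ≤ γ * m := by
    rw [div_mul_eq_mul_div, div_le_iff₀ hM₀]
    nlinarith [mul_le_mul_of_nonneg_left hK hm.le]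
  have a2 : m / M * (2 * Lb * lk) ≤ γ * m := by
    rw [div_mul_eq_mul_div, div_le_iff₀ hM]
    nlinarith [mul_le_mul_of_nonneg_left hk hm.le]
  have a3 : m * (1 - x) * lY ≤ m * p * ((1 - β + γ) * t₀) := by
    calc m * (1 - x) * lY ≤ m * (1 - β + γ) * lY :=
          mul_le_mul_of_nonneg_right (mul_le_mul_of_nonneg_left (by linarith) hm.le) hlY0
      _ ≤ m * (1 - β + γ) * (t₀ * p) :=
          mul_le_mul_of_nonneg_left hlY (mul_nonneg hm.le (by linarith))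
      _ = _ := by ring
  have hmp : 0 < m * p := by positivity
  have a4 : m * p / Lb * W ≤ m * p * (t' * β + 2 * γ) := by
    calc m * p / Lb * W ≤ m * p / Lb * (Lb * (t' * β + 2 * γ)) :=
          mul_le_mul_of_nonneg_left hW (by positivity)
      _ = _ := by field_simp
  have a5 : γ * m ≤ γ * (m * p) := mul_le_mul_of_nonneg_left (by nlinarith) hγ.le
  have a6 : (t - γ) * (m * p) ≤ (m * p) * (5 * γ + (1 - β + γ) * t₀ + (t' * β + 2 * γ)) := by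
    nlinarith
  have a7 : t - γ ≤ 5 * γ + (1 - β + γ) * t₀ + (t' * β + 2 * γ) := by
    rw [mul_comm] at a6
    exact le_of_mul_le_mul_left a6 hmp
  nlinarith

end MLimitAux

namespace Atlas

/-- the contradiction in the limit -/
theorem mlimit {A : Atlas X} {P : Par} {f : X ≃ₜ X} {I : Type*} (𝒰 : Ultrafilter I)
    {g : I → X ≃ₜ X} (hg : ∀ k, A.Good P (g k))
    (hconv : ∀ γ > 0, ∀ᶠ k in (𝒰 : Filter I), ∀ x, dist (g k x) (f x) ≤ γ)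
    {p₀ : ℕ} (hp₀ : 0 < p₀) {ε δ Y K t t₀ : ℝ} (hY : 1 ≤ Y) (hK : 1 ≤ K) (ht₀ : t₀ < t)
    (hYt : Y ≤ Real.exp (t₀ * p₀))
    (hC : ∀ M₀ : ℕ, ∃ η > 0, ∀ k, A.Count P ε δ Y K M₀ η (g k)^[p₀])
    (σ : I → ℝ → X) (S : I → Finset ℝ) (m : I → ℕ) (ε' : I → ℝ)
    (hσ : ∀ k, A.SG P ε (σ k)) (hS : ∀ k, (S k).Nonempty) (hS1 : ∀ k, ∀ x ∈ S k, |x| ≤ 1 / 3)
    (hε' : ∀ k, 0 < ε' k)
    (hsep : ∀ k, ∀ x ∈ S k, ∀ y ∈ S k, x ≠ y →
      ∃ j < m k * p₀, ε' k ≤ dist ((g k)^[j] (σ k x)) ((g k)^[j] (σ k y)))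
    (hm : Tendsto m 𝒰 atTop)
    (hε'm : ∀ γ > 0, ∀ᶠ k in (𝒰 : Filter I), Real.log (1 / ε' k + 1) ≤ γ * m k)
    (hcard : ∀ γ > 0, ∀ᶠ k in (𝒰 : Filter I), (t - γ) * (m k * p₀) ≤ Real.log (S k).card)
    (U : ℝ → Set X) (hUo : ∀ η, IsOpen (U η))
    (hU : ∀ η > 0, ∀ ν : Measure X, IsProbabilityMeasure ν → Ergodic f ν →
      ENNReal.ofReal t ≤ ksEnt f ν → ν (U η)ᶜ = 0)
    (htrap : ∀ η > 0, ∀ K' : Set X, IsCompact K' → K' ⊆ U η → ∀ᶠ k in (𝒰 : Filter I),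
      ∀ x ∈ S k, ∀ y ∈ S k, ∀ a ∈ A.Geo P ε δ (g k)^[p₀] (σ k) x,
        ((g k)^[p₀])^[a] (σ k x) ∈ K' →
          dist (((g k)^[p₀])^[a] (σ k x)) (((g k)^[p₀])^[a] (σ k y)) ≤ η) : False := by
  classical
  have hp1 : (1 : ℝ) ≤ p₀ := by exact_mod_cast hp₀
  have hlY0 : 0 ≤ Real.log Y := Real.log_nonneg hY
  have hlY : Real.log Y ≤ t₀ * p₀ := by
    rw [Real.log_le_iff_le_exp (by linarith)]
    exact hYt
  have ht0 : 0 ≤ t₀ := by
    by_contra h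
    nlinarith [not_le.1 h]
  have hmN : ∀ N : ℕ, ∀ᶠ k in (𝒰 : Filter I), N ≤ m k := fun N => hm.eventually_ge_atTop N
  obtain ⟨Λ, hΛ, hlip⟩ := exists_lip A P
  obtain ⟨ζ, hζ1, hζ, hmass, hname⟩ := limit_measure 𝒰 f.continuous
    (g := fun k => ⇑(g k)) (fun k => (g k).continuous) hconv
    (fun k M => A.covEmp P ε δ (g k) p₀ (σ k) (S k) (m k) M)
    (fun k M => emp_univ_le _ _ _ _ _ fun x _ => tms_subset _ _ _)
    (fun k M M' h => emp_mono _ _ _ _ fun x _ => tms_mono _ _ (cov_mono h _ _))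
    (by
      intro γ hγ
      obtain ⟨N, hN0, hN⟩ := MLimitAux.exists_nat_div_le 4 hγ
      refine ⟨N, fun M hM => (hmN N).mono fun k hk φ hφ hφ1 => ?_⟩
      have hm0 : 0 < m k := hN0.trans_le hk
      have hM0 : 0 < M := hN0.trans_le hM
      refine (emp_almost_inv (b := m k / M + 1) (g k).continuous (σ k) (hS k) _
        (Nat.mul_pos hm0 hp₀) (fun x _ => ?_) hφ hφ1).trans ?_
      · rw [exits_tms_card hp₀ (cov_subset _ _ _)]
        exact exits_cov_card _ _ _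
      · have h1 : (0 : ℝ) < m k := by exact_mod_cast hm0
        have h2 : (0 : ℝ) < M := by exact_mod_cast hM0
        have h3 : ((m k / M : ℕ) : ℝ) ≤ γ * m k / 4 := by
          refine Nat.cast_div_le.trans ?_
          rw [div_le_div_iff₀ h2 (by norm_num)]
          nlinarith [mul_le_mul_of_nonneg_left (hN M hM) h1.le]
        have h4 := hN _ hk
        push_cast
        rw [div_le_iff₀ (by positivity)]
        nlinarith [mul_le_mul_of_nonneg_left hp1 (mul_pos hγ h1).le])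
  have : IsFiniteMeasure ζ := ⟨hζ1.trans_lt ENNReal.one_lt_top⟩
  have hβ0 : 0 ≤ ζ.real univ := measureReal_nonneg
  have hβ1 : ζ.real univ ≤ 1 := by
    simpa [Measure.real] using ENNReal.toReal_mono ENNReal.one_ne_top hζ1
  obtain ⟨t', ht', hcode⟩ := codeBound hζ (ht0.trans_lt ht₀) U hUo hU
  have hgap : 0 < t - t' * ζ.real univ - (1 - ζ.real univ) * t₀ := by
    rcases le_total t' t₀ with h | h
    · nlinarith [mul_le_mul_of_nonneg_right h hβ0]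
    · nlinarith [mul_le_mul_of_nonneg_left h (sub_nonneg.2 hβ1)]
  obtain ⟨γ, hγ, hγ'⟩ : ∃ γ > 0, γ * (9 + t₀) ≤ t - t' * ζ.real univ - (1 - ζ.real univ) * t₀ :=
    ⟨_ / (9 + t₀), div_pos hgap (by linarith), (div_mul_cancel₀ _ (by linarith)).le⟩
  obtain ⟨N₁, hN₁, C, hdata⟩ := data_card hγ
  obtain ⟨N₂, hN₂⟩ := hmass γ hγ
  obtain ⟨N₃, -, hN₃⟩ := MLimitAux.exists_nat_div_le (Real.log K) hγ
  obtain ⟨M₀, e1, e2, e3⟩ : ∃ M₀ : ℕ, N₁ ≤ M₀ ∧ N₂ ≤ M₀ ∧ N₃ ≤ M₀ :=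
    ⟨N₁ + N₂ + N₃, by omega, by omega, by omega⟩
  have hM₀ : 0 < M₀ := hN₁.trans_le e1
  obtain ⟨η, hη, hCη⟩ := hC M₀
  obtain ⟨κ, Q, K', Lb, q, hQ, hfr, hK'c, hK'U, hQd, hL, hq, hq1, hsum⟩ := hcode η hη γ hγ
  obtain ⟨N₄, -, hN₄⟩ := MLimitAux.exists_nat_div_le (2 * Lb * Real.log (κ + 1)) hγ
  obtain ⟨M, e4, e5⟩ : ∃ M : ℕ, M₀ ≤ M ∧ N₄ ≤ M := ⟨M₀ + N₄, by omega, by omega⟩
  have hlq : ∀ w, 0 ≤ -Real.log (q w) := fun w => neg_nonneg.2 (Real.log_nonpos (hq w).le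
    ((Finset.single_le_sum (fun w _ => (hq w).le) (Finset.mem_univ w)).trans hq1))
  have hW0 : 0 ≤ ∑ w, -Real.log (q w) := Finset.sum_nonneg fun w _ => hlq w
  obtain ⟨N₅, hN₅0, hN₅⟩ := MLimitAux.exists_nat_div_le
    (C + 2 * Real.log K + Real.log (K * Λ ^ p₀) + 3 * Lb * Real.log (κ + 1)) hγ
  obtain ⟨k, ⟨⟨⟨⟨k1, k2⟩, k3⟩, k4⟩, k5⟩, k6⟩ := ((((((hmN N₅).and (hN₂ M₀ e2)).and
    (hname (κ + 1) Q Lb hfr (γ / (∑ w, -Real.log (q w) + 1)) (by positivity) M)).and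
    (hε'm γ hγ)).and (hcard γ hγ)).and (htrap η hη K' hK'c hK'U)).exists
  have hm0 : 0 < m k := hN₅0.trans_le k1
  have hL1 : (1 : ℝ) ≤ Lb := by exact_mod_cast hL
  have key := mineq (g k).continuous hp₀ hY hK hΛ (hε' k) hM₀ e4 hm0 (hlip _ (hg k).1) (hCη k)
    (hσ k) (hS k) (hS1 k) (hsep k) hQ
    (fun x hx y hy a ha h => (hQd _ _ h).elim id (k6 x hx y hy a ha)) hL hq hq1
    (hdata M₀ M (m k) e1 e4 (S k) fun x => A.Geo P ε δ (g k)^[p₀] (σ k) x)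
  rw [Real.log_exp] at key
  refine MLimitAux.final hγ (by exact_mod_cast hm0) hp1 (by exact_mod_cast hM₀)
    (by exact_mod_cast hM₀.trans_le e4) (by linarith) hβ1 hγ' hlY0 hlY (hN₃ M₀ e3) (hN₄ M e5)
    (C₁ := Real.log (K * Λ ^ p₀)) ?_ k2 ?_ (hN₅ _ k1) k5 key
  · have hc : 1 ≤ K * Λ ^ p₀ := one_le_mul_of_one_le_of_one_le hK (one_le_pow₀ hΛ)
    have he := hε' k
    calc Real.log (K * Λ ^ p₀ / ε' k + 1) ≤ Real.log (K * Λ ^ p₀ * (1 / ε' k + 1)) := by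
          refine Real.log_le_log (by positivity) ?_
          rw [mul_add, mul_one_div, mul_one]
          linarith
      _ = Real.log (K * Λ ^ p₀) + Real.log (1 / ε' k + 1) :=
          Real.log_mul (by positivity) (by positivity)
      _ ≤ _ := by linarith
  · refine (Finset.sum_le_sum fun w _ => mul_le_mul_of_nonneg_right (k3 w) (hlq w)).trans ?_
    simp only [add_mul]
    rw [Finset.sum_add_distrib, ← Finset.mul_sum]
    have h1 : γ / (∑ w, -Real.log (q w) + 1) * ∑ w, -Real.log (q w) ≤ γ := by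
      rw [div_mul_eq_mul_div, div_le_iff₀ (by linarith)]
      nlinarith
    nlinarith [mul_le_mul_of_nonneg_right hL1 hγ.le]

end Atlas

end Pool.Agent.Lib.MP_901be3_an.Hd
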