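import Pool.Agent.Lib.MP_901be3_an.Hd.YPure
import Pool.Agent.Lib.MP_901be3_an.Hd.CcComp
import Pool.Agent.Lib.MP_901be3_an.Hd.AtBasic

namespace Pool.Agent.Lib.MP_901be3_an.Hd

open MeasureTheory Filter Topology Metric Set
open scoped ENNReal

variable {X : Type*} [MetricSpace X] [MeasurableSpace X] {A : Atlas X}

namespace YStepAux

theorem zero_mem : (0 : ℝ) ∈ II := ⟨by norm_num, by norm_num⟩

theorem mem_II {s ρ τ : ℝ} (hρ : 0 < ρ) (hs : |s| + ρ ≤ 1) (hτ : τ ∈ II) : s + ρ * τ ∈ II := by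
  have h1 := le_abs_self s
  have h2 := neg_abs_le s
  have h3 := mul_lt_mul_of_pos_left hτ.1 hρ
  have h4 := mul_lt_mul_of_pos_left hτ.2 hρ
  constructor <;> linarith

theorem scale {P : Par} {ε : ℝ} {i : Fin A.N} {γ : ℝ → X}
    (h : ∀ τ ∈ II, A.Gd i (γ τ) ∧ DifferentiableAt ℝ (A.e i ∘ γ) τ) {s ρ : ℝ} (hρ : 0 < ρ)
    (hs : |s| + ρ ≤ 1)
    (hc : Cc P.α P.n ε (fun τ => ρ • deriv (A.e i ∘ γ) (s + ρ * τ)) II) :
    A.SGin P ε i (rp γ s ρ) :=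
  ⟨fun _ hτ => ⟨(h _ (mem_II hρ hs hτ)).1, (deriv_rp (h _ (mem_II hρ hs hτ)).2).1⟩,
    hc.congr isOpen_Ioo fun _ hτ => (deriv_rp (h _ (mem_II hρ hs hτ)).2).2⟩

theorem cc_scale {α : ℝ} (hα : 0 < α) {n : ℕ} {B : ℝ} {u : ℝ → V} (h : Cc α n B u II) {s ρ : ℝ}
    (hρ : 0 < ρ) (hs : |s| + ρ ≤ 1) : Cc α n (ρ * B) (fun τ => ρ • u (s + ρ * τ)) II := by
  have h1 := (h.repar hα hρ.ne' (s := s) (by rwa [abs_of_pos hρ])).smul isOpen_Ioo ρ
  rw [abs_of_pos hρ] at h1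
  exact h1

theorem rp_rp {Y : Type*} (σ : ℝ → Y) (s ρ a μ : ℝ) :
    rp (rp σ s ρ) a μ = rp σ (s + ρ * a) (ρ * μ) := by
  funext τ
  simp only [rp]
  congr 1
  ring

/-- the image of a small curve -/
theorem next (A : Atlas X) (P : Par) : ∃ ε₀ > 0, ∀ ε : ℝ, 0 < ε → ε ≤ ε₀ → ∀ a : ℝ, 1 ≤ a →
    ∀ G : X → X, A.Reg P G → A.DBd G a → ∀ γ : ℝ → X, A.SG P ε γ →
      ∃ i, (∀ τ ∈ II, A.Gd i ((G ∘ γ) τ) ∧ DifferentiableAt ℝ (A.e i ∘ G ∘ γ) τ) ∧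
        Cc P.α P.n (2 * a * ε) (deriv (A.e i ∘ G ∘ γ)) II := by
  obtain ⟨ε₁, hε₁, hcomp⟩ := Cc_comp P.α_pos P.α_le P.n P.B 1 one_pos
  have hB := P.one_le_B
  have hρ := P.ρ_pos
  refine ⟨min ε₁ (min (P.ρ / 2) (1 / (2 * P.B))), by positivity, ?_⟩
  rintro ε hε hle a ha G hG hD γ ⟨i, h1, h2⟩
  have e1 : ε ≤ ε₁ := hle.trans (min_le_left _ _)
  have e2 : ε ≤ P.ρ / 2 := hle.trans ((min_le_right _ _).trans (min_le_left _ _))
  have e3 : ε ≤ 1 / (2 * P.B) := hle.trans ((min_le_right _ _).trans (min_le_right _ _))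
  have e4 : P.B * ε ≤ 1 / 2 := by
    rw [le_div_iff₀ (by positivity)] at e3
    linarith
  have h0 := (h1 0 zero_mem).1
  have h0' := A.gd_idx (G (γ 0))
  have hdist : ∀ τ ∈ II, ‖A.e i (γ τ) - A.e i (γ 0)‖ ≤ ε := by
    intro τ hτ
    have := norm_sub_le_of_deriv (c := A.e i ∘ γ) (d := 0) (B := ε)
      (fun τ hτ => ⟨(h1 τ hτ).2, by rw [sub_zero]; exact h2.hol.1 τ hτ⟩) τ hτ 0 zero_mem
    rw [smul_zero, sub_zero, sub_zero] at this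
    exact this.trans (mul_le_of_le_one_right hε.le (abs_le.2 ⟨hτ.1.le, hτ.2.le⟩))
  have hball : MapsTo (A.e i ∘ γ) II (ball (A.e i (γ 0)) P.ρ) := fun τ hτ =>
    mem_ball_iff_norm.2 ((hdist τ hτ).trans_lt (by linarith))
  obtain ⟨hsrc, hcr⟩ := hG.2 i _ _ h0 h0'
  have heq : EqOn (A.e (A.idx (G (γ 0))) ∘ G ∘ γ)
      (A.rep G i (A.idx (G (γ 0))) ∘ A.e i ∘ γ) II := fun τ hτ => by
    simp only [Function.comp_apply, Atlas.rep, (A.e i).left_inv (h1 τ hτ).1.1]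
  have hev : ∀ τ ∈ II, (A.e (A.idx (G (γ 0))) ∘ G ∘ γ) =ᶠ[𝓝 τ]
      (A.rep G i (A.idx (G (γ 0))) ∘ A.e i ∘ γ) := fun τ hτ =>
    heq.eventuallyEq_of_mem (isOpen_Ioo.mem_nhds hτ)
  obtain ⟨hd, hc⟩ := hcomp ε hε e1 _ _ _ hcr hball (fun τ hτ => (h1 τ hτ).2) h2
  refine ⟨A.idx (G (γ 0)), fun τ hτ => ⟨⟨?_, ?_⟩, (hd τ hτ).congr_of_eventuallyEq (hev τ hτ)⟩, ?_⟩
  · have := hsrc _ (hball hτ)
    rwa [Function.comp_apply, (A.e i).left_inv (h1 τ hτ).1.1] at this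
  · have h3 := hG.rep_lip h0 h0' _ (hball hτ) _ (hball zero_mem)
    have h4 : ‖A.e (A.idx (G (γ 0))) (G (γ τ)) - A.e (A.idx (G (γ 0))) (G (γ 0))‖ ≤
        P.B * ‖A.e i (γ τ) - A.e i (γ 0)‖ := by
      have e5 := heq hτ
      have e6 := heq zero_mem
      simp only [Function.comp_apply] at e5 e6 h3
      rw [e5, e6]
      exact h3
    have h5 := mul_le_mul_of_nonneg_left (hdist τ hτ) (by linarith : 0 ≤ P.B)
    have h6 := A.idx_lt (G (γ 0))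
    have h7 := norm_sub_norm_le (A.e (A.idx (G (γ 0))) (G (γ τ))) (A.e (A.idx (G (γ 0))) (G (γ 0)))
    change ‖A.e (A.idx (G (γ 0))) (G (γ τ))‖ < 2
    linarith
  · have h3 := hc.add (h2.clm isOpen_Ioo (A.DD G i (A.idx (G (γ 0))) (γ 0))) isOpen_Ioo
    refine (h3.mono_B ?_).congr isOpen_Ioo fun τ hτ => ?_
    · have := mul_le_mul_of_nonneg_right (hD i _ _ h0 h0') hε.le
      nlinarith
    · rw [(hev τ hτ).deriv_eq]
      exact (sub_add_cancel _ _).symm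

theorem crude {a : ℝ} (ha : 1 ≤ a) : ∃ T : Finset ℝ, (T.card : ℝ) ≤ 4 * a ∧
    (∀ t ∈ T, |t| ≤ 1 / 2) ∧ ∀ x : ℝ, |x| ≤ 1 / 3 → ∃ t ∈ T, |x - t| ≤ 1 / (6 * a) := by
  have ha0 : 0 < a := by linarith
  have hf := Nat.floor_le (by positivity : 0 ≤ 2 * a)
  refine ⟨(Finset.range (⌊2 * a⌋₊ + 1)).image fun k : ℕ => -1 / 3 + (2 * k + 1) / (6 * a),
    ?_, ?_, fun x hx => ?_⟩
  · refine (Nat.cast_le.2 Finset.card_image_le).trans ?_
    rw [Finset.card_range]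
    push_cast
    linarith
  · intro t ht
    obtain ⟨k, hk, rfl⟩ := Finset.mem_image.1 ht
    have h1 : (k : ℝ) ≤ ⌊2 * a⌋₊ := Nat.cast_le.2 (Nat.lt_succ_iff.1 (Finset.mem_range.1 hk))
    have h2 : 0 ≤ (2 * k + 1 : ℝ) / (6 * a) := by positivity
    have h3 : (2 * k + 1 : ℝ) / (6 * a) ≤ 5 / 6 := by
      rw [div_le_iff₀ (by positivity)]
      linarith
    rw [abs_le]
    constructor <;> linarith
  · obtain ⟨hx1, hx2⟩ := abs_le.1 hx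
    have h0 : 0 ≤ (x + 1 / 3) * (3 * a) := mul_nonneg (by linarith) (by positivity)
    have h1 := Nat.floor_le h0
    have h2 := Nat.lt_floor_add_one ((x + 1 / 3) * (3 * a))
    refine ⟨_, Finset.mem_image.2 ⟨⌊(x + 1 / 3) * (3 * a)⌋₊,
      Finset.mem_range.2 (Nat.lt_succ_iff.2 (Nat.floor_le_floor (by nlinarith))), rfl⟩, ?_⟩
    have e : x - (-1 / 3 + (2 * (⌊(x + 1 / 3) * (3 * a)⌋₊ : ℝ) + 1) / (6 * a)) =
        (2 * ((x + 1 / 3) * (3 * a)) - (2 * (⌊(x + 1 / 3) * (3 * a)⌋₊ : ℝ) + 1)) / (6 * a) := by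
      field_simp
      ring
    rw [e, abs_div, abs_of_pos (by positivity : 0 < 6 * a)]
    refine div_le_div_of_nonneg_right (abs_le.2 ⟨?_, ?_⟩) (by positivity) <;> linarith

theorem abs_resc {x s R t r : ℝ} (hR : 0 < R) (h : |(x - s) / R - t| ≤ r) :
    |x - (s + R * t)| ≤ R * r := by
  have e : x - (s + R * t) = R * ((x - s) / R - t) := by
    field_simp
    ring
  rw [e, abs_mul, abs_of_pos hR]
  exact mul_le_mul_of_nonneg_left h hR.le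

end YStepAux

open YStepAux

namespace Atlas

theorem SGin.repar {P : Par} {ε : ℝ} {i : Fin A.N} {γ : ℝ → X} (h : A.SGin P ε i γ) {s ρ : ℝ}
    (hρ : 0 < ρ) (hs : |s| + ρ ≤ 1) : A.SGin P ε i (rp γ s ρ) := by
  have hε : 0 ≤ ε := (norm_nonneg _).trans (h.2.hol.1 0 zero_mem)
  refine scale h.1 hρ hs ((cc_scale P.α_pos h.2 hρ hs).mono_B (mul_le_of_le_one_left hε ?_))
  linarith [abs_nonneg s]

theorem SGup.repar {P : Par} {ε : ℝ} {G : X → X} {σ : ℝ → X} {s ρ s' ρ' : ℝ} {j : ℕ}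
    (h : A.SGup P ε G σ s ρ j) (hρ : 0 < ρ') (hs : |s' - s| + ρ' ≤ ρ) :
    A.SGup P ε G σ s' ρ' j := by
  obtain ⟨h0, h1, h2⟩ := h
  refine ⟨hρ, by linarith [abs_sub_abs_le_abs_sub s' s], fun l hl => ?_⟩
  obtain ⟨i, hi⟩ := h2 l hl
  have e : rp σ s' ρ' = rp (rp σ s ρ) ((s' - s) / ρ) (ρ' / ρ) := by
    rw [rp_rp, mul_div_cancel₀ _ h0.ne', mul_div_cancel₀ _ h0.ne', add_sub_cancel]
  rw [e]
  refine ⟨i, hi.repar (div_pos hρ h0) ?_⟩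
  rw [abs_div, abs_of_pos h0, ← add_div, div_le_one h0]
  exact hs

/-- one step of the reparametrization, fine version and crude version -/
theorem ystep (A : Atlas X) {α : ℝ} (hα : 0 < α) (hα1 : α ≤ 1) (n : ℕ) : ∃ Cy : ℝ, 1 ≤ Cy ∧
    ∀ P : Par, P.α = α → P.n = n → ∃ ε₀ > 0, ∀ ε : ℝ, 0 < ε → ε ≤ ε₀ → ∀ a : ℝ, 1 ≤ a →
      ∀ G : X → X, A.Reg P G → A.DBd G a → ∀ (σ : ℝ → X) (s ρ : ℝ) (j : ℕ),
        A.SGup P ε G σ s (3 * ρ) j →
        (∃ T : Finset (ℝ × ℝ), (T.card : ℝ) ≤ Cy * a ^ (1 / P.r) * (Real.log a + 1) ∧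
          (∀ t ∈ T, A.SGup P ε G σ t.1 (3 * t.2) (j + 1)) ∧
          ∀ x, |x - s| ≤ ρ → j + 1 ∈ A.Geo P ε (ε / Cy) G σ x ∨ ∃ t ∈ T, |x - t.1| ≤ t.2) ∧
        ∃ T : Finset (ℝ × ℝ), (T.card : ℝ) ≤ 4 * a ∧
          (∀ t ∈ T, A.SGup P ε G σ t.1 (3 * t.2) (j + 1)) ∧
          ∀ x, |x - s| ≤ ρ → ∃ t ∈ T, |x - t.1| ≤ t.2 := by
  classical
  obtain ⟨C, hC, hpure⟩ := ypure hα hα1 n
  refine ⟨4 * C, by linarith, ?_⟩
  rintro P rfl rfl
  obtain ⟨ε₀, hε₀, hnext⟩ := next A P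
  refine ⟨ε₀, hε₀, fun ε hε hle a ha G hG hD σ s ρ j hup => ?_⟩
  have ha0 : 0 < a := by linarith
  have hR : 0 < 3 * ρ := hup.1
  obtain ⟨i, h1, h2⟩ := hnext ε hε hle a ha G hG hD _ (hup.2.2 j le_rfl)
  have eG : ∀ b μ, G^[j + 1] ∘ rp σ (s + 3 * ρ * b) (3 * ρ * μ) =
      rp (G ∘ G^[j] ∘ rp σ s (3 * ρ)) b μ := fun b μ => by
    rw [← rp_rp, Function.iterate_succ']
    rfl
  have piece : ∀ b μ : ℝ, 0 < μ → |b| + μ ≤ 1 →
      Cc P.α P.n ε (fun τ => μ • deriv (A.e i ∘ G ∘ G^[j] ∘ rp σ s (3 * ρ)) (b + μ * τ)) II →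
      A.SGup P ε G σ (s + 3 * ρ * b) (3 * ρ * μ) (j + 1) ∧
        A.SGin P ε i (G^[j + 1] ∘ rp σ (s + 3 * ρ * b) (3 * ρ * μ)) := by
    intro b μ hμ hb hc
    have h3 : A.SGin P ε i (G^[j + 1] ∘ rp σ (s + 3 * ρ * b) (3 * ρ * μ)) := by
      rw [eG]
      exact scale h1 hμ hb hc
    have h4 : A.SGup P ε G σ (s + 3 * ρ * b) (3 * ρ * μ) j := by
      refine hup.repar (mul_pos hR hμ) ?_
      rw [add_sub_cancel_left, abs_mul, abs_of_pos hR, ← mul_add]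
      exact mul_le_of_le_one_right hR.le hb
    refine ⟨⟨h4.1, h4.2.1, fun l hl => ?_⟩, h3⟩
    rcases hl.eq_or_lt with rfl | hl
    · exact ⟨i, h3⟩
    · exact h4.2.2 l (Nat.lt_succ_iff.1 hl)
  have hx3 : ∀ x, |x - s| ≤ ρ → |(x - s) / (3 * ρ)| ≤ 1 / 3 := fun x hx => by
    rw [abs_div, abs_of_pos hR, div_le_iff₀ hR]
    linarith
  constructor
  · obtain ⟨T, hT1, hT2, hT3⟩ := hpure ε (2 * a) _ hε (by linarith) h2
    refine ⟨T.image fun t => (s + 3 * ρ * t.1, 3 * ρ * t.2), ?_, fun t ht => ?_, fun x hx => ?_⟩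
    · refine (Nat.cast_le.2 Finset.card_image_le).trans (hT1.trans ?_)
      have hr : (1 : ℝ) ≤ (P.n : ℝ) + 1 + P.α := by linarith [P.n.cast_nonneg (α := ℝ)]
      have h3 : (2 * a) ^ (1 / ((P.n : ℝ) + 1 + P.α)) ≤ 2 * a ^ (1 / P.r) := by
        rw [Real.mul_rpow zero_le_two ha0.le]
        refine mul_le_mul_of_nonneg_right ?_ (by positivity)
        exact (Real.rpow_le_rpow_of_exponent_le one_le_two
          ((div_le_one (by linarith)).2 hr)).trans_eq (Real.rpow_one 2)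
      have h4 : Real.log (2 * a) + 1 ≤ 2 * (Real.log a + 1) := by
        rw [Real.log_mul two_ne_zero ha0.ne']
        linarith [Real.log_le_sub_one_of_pos (two_pos : (0 : ℝ) < 2), Real.log_nonneg ha]
      have h5 : 0 ≤ Real.log (2 * a) + 1 := by
        linarith [Real.log_nonneg (by linarith : 1 ≤ 2 * a)]
      calc _ ≤ C * (2 * a ^ (1 / P.r)) * (2 * (Real.log a + 1)) := by gcongr
        _ = _ := by ring
    · obtain ⟨t', ht', rfl⟩ := Finset.mem_image.1 ht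
      obtain ⟨h3, h4, h5⟩ := hT2 t' ht'
      have h6 := (piece t'.1 (3 * t'.2) (by positivity) h4 h5).1
      rwa [mul_left_comm (3 * ρ)] at h6
    · rcases hT3 _ (hx3 x hx) with ⟨t, ht, h3⟩ | ⟨μ, hμ, h3, h4, h5⟩
      · exact Or.inr ⟨_, Finset.mem_image_of_mem _ ht, abs_resc hR h3⟩
      · obtain ⟨h6, h7⟩ := piece _ μ hμ h3 h4
        have e : s + 3 * ρ * ((x - s) / (3 * ρ)) = x := by
          rw [mul_div_cancel₀ _ hR.ne', add_sub_cancel]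
        have h8 := (deriv_rp (h1 _ (mem_II hμ h3 zero_mem)).2).2
        rw [mul_zero, add_zero] at h8
        have h9 : ε / (4 * C) ≤ ‖deriv (A.e i ∘ G^[j + 1] ∘
            rp σ (s + 3 * ρ * ((x - s) / (3 * ρ))) (3 * ρ * μ)) 0‖ := by
          rw [eG]
          refine le_trans ?_ (h5.trans_eq (congrArg norm h8.symm))
          exact div_le_div_of_nonneg_left hε.le (by linarith) (by linarith)
        rw [e] at h6 h7 h9
        exact Or.inl ⟨_, h6, i, h7, h9⟩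
  · obtain ⟨T, hT1, hT2, hT3⟩ := crude ha
    refine ⟨T.image fun t => (s + 3 * ρ * t, 3 * ρ * (1 / (6 * a))),
      (Nat.cast_le.2 Finset.card_image_le).trans hT1, fun t ht => ?_, fun x hx => ?_⟩
    · obtain ⟨t', ht', rfl⟩ := Finset.mem_image.1 ht
      have hμ : 0 < 3 * (1 / (6 * a)) := by positivity
      have e : 3 * (1 / (6 * a)) * (2 * a * ε) = ε := by
        field_simp
        ring
      have h3 : |t'| + 3 * (1 / (6 * a)) ≤ 1 := by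
        have : 1 / (6 * a) ≤ 1 / 6 := one_div_le_one_div_of_le (by norm_num) (by linarith)
        linarith [hT2 t' ht']
      have h4 := cc_scale hα h2 hμ h3
      rw [e] at h4
      have h6 := (piece t' _ hμ h3 h4).1
      rwa [mul_left_comm (3 * ρ)] at h6
    · obtain ⟨t, ht, h3⟩ := hT3 _ (hx3 x hx)
      exact ⟨_, Finset.mem_image_of_mem _ ht, abs_resc hR h3⟩

end Atlas

end Pool.Agent.Lib.MP_901be3_an.Hd
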