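import Pool.Agent.Lib.MP_901be3_an.Hd.AtLip
import Pool.Agent.Lib.MP_901be3_an.Hd.Cov
import Pool.Agent.Lib.MP_901be3_an.Hd.YStep

namespace Pool.Agent.Lib.MP_901be3_an.Hd

open MeasureTheory Filter Topology Metric Set
open scoped ENNReal

variable {X : Type*} [MetricSpace X] [MeasurableSpace X] [CompactSpace X]

namespace MSardAux

theorem iter_lip {Y : Type*} [MetricSpace Y] {g : Y → Y} {Λ : ℝ} (hΛ : 1 ≤ Λ)
    (h : ∀ x y, dist (g x) (g y) ≤ Λ * dist x y) (r : ℕ) (x y : Y) :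
    dist (g^[r] x) (g^[r] y) ≤ Λ ^ r * dist x y := by
  induction r with
  | zero => simp
  | succ r ih =>
    rw [Function.iterate_succ_apply', Function.iterate_succ_apply', pow_succ]
    calc dist (g (g^[r] x)) (g (g^[r] y)) ≤ Λ * dist (g^[r] x) (g^[r] y) := h _ _
      _ ≤ Λ * (Λ ^ r * dist x y) := by gcongr
      _ = Λ ^ r * Λ * dist x y := by ring

omit [CompactSpace X] in
/-- a geometric time bounds the contraction from below -/
theorem geo_bound {A : Atlas X} {P : Par} {g : X ≃ₜ X} (hg : A.Good P g) {p₀ : ℕ}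
    {ε δ : ℝ} {σ : ℝ → X} (hσ : A.SG P ε σ) (a : ℕ) {C θ : ℝ} (hθ0 : 0 < θ) {x : ℝ}
    (hx : |x| ≤ 1 / 3)
    (hv : ∀ v, A.VelAt (A.idx (g^[a] (σ x))) (fun t => g^[a] (σ (x + t))) v →
        ∀ l, ‖A.D g^[l] (g^[a] (σ x)) v‖ ≤ C * θ ^ l * ‖v‖) {m l : ℕ} (hml : p₀ * m = l + a)
    (hm : m ∈ A.Geo P ε δ g^[p₀] σ x) :
    δ ≤ P.B * (|C| * (P.B ^ (a + 1) * |ε|)) * θ ^ l := by
  obtain ⟨i0, hσ1, hσ2⟩ := hσ
  have hxI : x ∈ II := by
    have := abs_le.1 hx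
    constructor <;> linarith [this.1, this.2]
  have hdg : A.Dif g := hg.1.dif
  have hdid : A.Dif id := hg.2.2.dif
  have hB0 : 0 ≤ P.B := le_trans zero_le_one P.one_le_B
  obtain ⟨-, hv0⟩ := Atlas.velAt_of_curve hσ1 hxI
  have hu0 : ‖deriv (A.e i0 ∘ σ) x‖ ≤ |ε| := (hσ2.hol.1 x hxI).trans (le_abs_self ε)
  have hgd0 : A.Gd i0 (σ x) := (hσ1 x hxI).1
  have hv1 := hv0.push (hdg.iter hdid a) (j := A.idx (g^[a] (σ x)))
    (by simpa using A.gd_idx (g^[a] (σ x)))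
  simp only [add_zero] at hv1
  set v := A.DD g^[a] i0 (A.idx (g^[a] (σ x))) (σ x) (deriv (A.e i0 ∘ σ) x) with hvdef
  have hvn : ‖v‖ ≤ P.B ^ (a + 1) * |ε| := by
    have h1 := hg.norm_DD_iter a i0 _ (σ x) hgd0 (A.gd_idx (g^[a] (σ x)))
    calc ‖v‖ ≤ _ := ContinuousLinearMap.le_opNorm _ _
      _ ≤ P.B ^ (a + 1) * |ε| := by gcongr
  have hw := hv v hv1 l
  have hv2 := hv1.push (hdg.iter hdid l) (j := A.idx (g^[l] (g^[a] (σ x))))
    (by simpa using A.gd_idx (g^[l] (g^[a] (σ x))))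
  simp only [Function.comp_apply, add_zero] at hv2
  obtain ⟨ρ, ⟨hρ0, hρ1, -⟩, i, ⟨hi1, -⟩, hδ⟩ := hm
  have hit : ∀ z, (g^[p₀])^[m] z = g^[l] (g^[a] z) := by
    intro z
    rw [← Function.iterate_mul, hml, Function.iterate_add_apply]
  have hgi : A.Gd i (g^[l] (g^[a] (σ x))) := by
    have := (hi1 0 (by constructor <;> norm_num)).1
    simpa [rp, hit] using this
  have hv3 := hv2.push hdid (j := i) (by simpa using hgi)
  simp only [Function.comp_apply, add_zero] at hv3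
  set w := A.DD g^[l] (A.idx (g^[a] (σ x))) (A.idx (g^[l] (g^[a] (σ x)))) (g^[a] (σ x)) v
    with hwdef
  have hw' : ‖w‖ ≤ C * θ ^ l * ‖v‖ := hw
  set w' := A.DD id (A.idx (g^[l] (g^[a] (σ x)))) i (g^[l] (g^[a] (σ x))) w with hw'def
  have hw'n : ‖w'‖ ≤ P.B * ‖w‖ := by
    have h1 := hg.2.2.norm_DD_le _ i (g^[l] (g^[a] (σ x))) (A.gd_idx _) hgi
    calc ‖w'‖ ≤ _ := ContinuousLinearMap.le_opNorm _ _
      _ ≤ P.B * ‖w‖ := by gcongr
  have hd := hv3.2.2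
  have hlin : HasDerivAt (fun τ : ℝ => ρ * τ) ρ 0 := by
    simpa using (hasDerivAt_id (0 : ℝ)).const_mul ρ
  have hd2 := HasDerivAt.scomp_of_eq (0 : ℝ) hd hlin (by simp)
  have hfun : (A.e i ∘ (g^[p₀])^[m] ∘ rp σ x ρ) =
      ((A.e i ∘ id ∘ g^[l] ∘ g^[a] ∘ fun t => σ (x + t)) ∘ fun τ : ℝ => ρ * τ) := by
    funext τ
    simp [rp, hit]
  rw [hfun, hd2.deriv, norm_smul, Real.norm_eq_abs, abs_of_pos hρ0] at hδ
  have hρ1' : ρ ≤ 1 := by linarith [abs_nonneg x]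
  have hθl : 0 < θ ^ l := pow_pos hθ0 l
  calc δ ≤ ρ * ‖w'‖ := hδ
    _ ≤ 1 * ‖w'‖ := by gcongr
    _ ≤ P.B * ‖w‖ := by rw [one_mul]; exact hw'n
    _ ≤ P.B * (|C| * θ ^ l * ‖v‖) := by
        refine mul_le_mul_of_nonneg_left (hw'.trans ?_) hB0
        gcongr
        exact le_abs_self C
    _ ≤ P.B * (|C| * θ ^ l * (P.B ^ (a + 1) * |ε|)) := by gcongr
    _ = _ := by ring

end MSardAux

namespace Atlas

/-- counting separated points of a smooth curve at which the tangent is contracted -/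
theorem msard {A : Atlas X} {P : Par} {g : X ≃ₜ X} (hg : A.Good P g) {p₀ : ℕ} (hp : 0 < p₀)
    {ε δ Y K η : ℝ} (hδ : 0 < δ) (hY : 1 ≤ Y) (hK : 1 ≤ K)
    (hC : A.Count P ε δ Y K 0 η g^[p₀]) {σ : ℝ → X} (hσ : A.SG P ε σ) (a : ℕ) {C θ ε' : ℝ}
    (hθ0 : 0 < θ) (hθ : θ < 1) (hε' : 0 < ε') :
    ∃ C' : ℝ, ∀ (n : ℕ) (S : Finset ℝ),
      (∀ x ∈ S, |x| ≤ 1 / 3 ∧ ∀ v, A.VelAt (A.idx (g^[a] (σ x))) (fun t => g^[a] (σ (x + t))) v →
        ∀ l, ‖A.D g^[l] (g^[a] (σ x)) v‖ ≤ C * θ ^ l * ‖v‖) →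
      (∀ x ∈ S, ∀ y ∈ S, x ≠ y → ∃ j < n, ε' ≤ dist (g^[j + a] (σ x)) (g^[j + a] (σ y))) →
      (S.card : ℝ) ≤ C' * Y ^ (n / p₀) := by
  obtain ⟨Λ, hΛ, hlip⟩ := A.exists_lip P
  have hlg := hlip g hg.1
  set E := P.B * (|C| * (P.B ^ (a + 1) * |ε|)) with hE
  have hlim : Tendsto (fun l : ℕ => E * θ ^ l) atTop (𝓝 0) := by
    simpa using (tendsto_pow_atTop_nhds_zero_of_lt_one hθ0.le hθ).const_mul E
  obtain ⟨l0, hl0⟩ := eventually_atTop.1 (hlim.eventually (gt_mem_nhds hδ))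
  have hΛp : 0 < Λ ^ p₀ := pow_pos (by linarith) _
  refine ⟨K ^ (a + l0 + 1) * Y ^ (a + 1) * (K / (ε' / Λ ^ p₀) + 1), fun n S hS hsep => ?_⟩
  have key := hC σ (n / p₀ + (a + 1)) S ∅ (Finset.range (a + l0)) (ε' / Λ ^ p₀) hσ
    (div_pos hε' hΛp) ?_ (by simp) ?_
  · rw [Finset.card_range, Finset.card_empty, Nat.sub_zero, pow_add Y] at key
    calc (S.card : ℝ) ≤ _ := key
      _ = _ := by ring
  · intro x hx
    refine ⟨(hS x hx).1, cov_zero _ _, fun j hj => ?_⟩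
    have hj1 : j + 1 ∈ A.Geo P ε δ g^[p₀] σ x := by
      simp only [rst, Finset.mem_filter] at hj
      exact hj.2.2
    rw [Finset.mem_range]
    by_contra hcon
    have hge : j + 1 ≤ p₀ * (j + 1) := Nat.le_mul_of_pos_left _ hp
    have hb := MSardAux.geo_bound hg hσ a hθ0 (hS x hx).1 (hS x hx).2
      (l := p₀ * (j + 1) - a) (by omega) hj1
    have := hl0 (p₀ * (j + 1) - a) (by omega)
    exact absurd hb (not_le.2 this)
  · intro x hx y hy hxy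
    obtain ⟨j, hj, hd⟩ := hsep x hx y hy hxy
    refine ⟨(j + a) / p₀, ?_, ?_⟩
    · apply Nat.div_le_of_le_mul
      have h1 := Nat.div_add_mod n p₀
      have h2 := Nat.mod_lt n hp
      have h3 : a ≤ p₀ * a := Nat.le_mul_of_pos_left _ hp
      rw [Nat.mul_add, Nat.mul_add]
      omega
    · have hit : ∀ z, g^[j + a] z = g^[(j + a) % p₀] ((g^[p₀])^[(j + a) / p₀] z) := by
        intro z
        rw [← Function.iterate_mul, ← Function.iterate_add_apply, Nat.mod_add_div]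
      rw [hit, hit] at hd
      have h1 := hd.trans (MSardAux.iter_lip hΛ hlg _ _ _)
      rw [div_le_iff₀ hΛp, mul_comm]
      refine h1.trans ?_
      gcongr
      exact (Nat.mod_lt _ hp).le

end Atlas

end Pool.Agent.Lib.MP_901be3_an.Hd
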