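import Pool.Agent.Lib.MP_901be3_an.Hd.QInter
import Pool.Agent.Lib.MP_901be3_an.Hd.PerMeas

namespace Pool.Agent.Lib.MP_901be3_an.Hd

open MeasureTheory Filter Topology Metric Set
open scoped ENNReal

variable {X : Type*} [MetricSpace X] [MeasurableSpace X] {A : Atlas X} {P : Par} {κ c₀ : ℝ} {f : X ≃ₜ X} {μ : Measure X}

namespace Atlas

/-- forward path of charts of a point of the block `j` -/
def PSys.fp (S : A.PSys P κ c₀ f μ) (j : ℕ) (x : X) : ℕ → A.Chart :=
  fun n => if n = 0 then S.Φ j else S.Ψ (f^[n] x)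

/-- backward path of charts of a point of the block `j` -/
def PSys.bp (S : A.PSys P κ c₀ f μ) (j : ℕ) (x : X) : ℕ → A.Chart :=
  fun n => if n = 0 then S.Φ j else S.Ψ (f.symm^[n] x)

/-- loop of charts along a return of length `N` to the block `j` -/
def PSys.lp (S : A.PSys P κ c₀ f μ) (j : ℕ) (x : X) (N : ℕ) : ℕ → A.Chart :=
  fun n => if n = 0 ∨ n = N then S.Φ j else S.Ψ (f^[n] x)

theorem PSysBasicAux.iter_mem (S : A.PSys P κ c₀ f μ) {x : X} (hx : x ∈ S.G) (n : ℕ) :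
    f^[n] x ∈ S.G := by
  induction n with
  | zero => exact hx
  | succ n ih => rw [Function.iterate_succ_apply']; exact S.G_fwd _ ih

theorem PSysBasicAux.iter_symm_mem (S : A.PSys P κ c₀ f μ) {x : X} (hx : x ∈ S.G) (n : ℕ) :
    f.symm^[n] x ∈ S.G := by
  induction n with
  | zero => exact hx
  | succ n ih => rw [Function.iterate_succ_apply']; exact S.G_bwd _ ih

theorem PSys.fp_spec (S : A.PSys P κ c₀ f μ) {j : ℕ} {x : X} (hx : x ∈ S.Γ j) :
    (∀ n, REdge P κ c₀ f (S.fp j x n) (S.fp j x (n + 1))) ∧ x ∈ Fol f (S.fp j x) := by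
  have hG := S.Γ_sub j hx
  refine ⟨fun n => ?_, fun n => ?_⟩
  · rcases Nat.eq_zero_or_pos n with rfl | hn
    · simpa [PSys.fp] using S.Γ_out j x hx
    · have h1 : S.fp j x n = S.Ψ (f^[n] x) := if_neg hn.ne'
      have h2 : S.fp j x (n + 1) = S.Ψ (f (f^[n] x)) := by
        rw [← Function.iterate_succ_apply' f]
        exact if_neg (Nat.succ_ne_zero n)
      rw [h1, h2]
      exact S.edge _ (PSysBasicAux.iter_mem S hG n)
  · rcases Nat.eq_zero_or_pos n with rfl | hn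
    · simpa [PSys.fp] using S.Γ_box j x hx
    · have h1 : S.fp j x n = S.Ψ (f^[n] x) := if_neg hn.ne'
      rw [h1]
      exact S.box _ (PSysBasicAux.iter_mem S hG n)

theorem PSys.bp_spec (S : A.PSys P κ c₀ f μ) {j : ℕ} {x : X} (hx : x ∈ S.Γ j) :
    (∀ n, REdge P κ c₀ f (S.bp j x (n + 1)) (S.bp j x n)) ∧ x ∈ Fol f.symm (S.bp j x) := by
  have hG := S.Γ_sub j hx
  refine ⟨fun n => ?_, fun n => ?_⟩
  · rcases Nat.eq_zero_or_pos n with rfl | hn
    · simpa [PSys.bp] using S.Γ_in j x hx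
    · have h1 : S.bp j x n = S.Ψ (f (f.symm^[n + 1] x)) := by
        rw [Function.iterate_succ_apply', Homeomorph.apply_symm_apply]
        exact if_neg hn.ne'
      have h2 : S.bp j x (n + 1) = S.Ψ (f.symm^[n + 1] x) := if_neg (Nat.succ_ne_zero n)
      rw [h1, h2]
      exact S.edge _ (PSysBasicAux.iter_symm_mem S hG (n + 1))
  · rcases Nat.eq_zero_or_pos n with rfl | hn
    · simpa [PSys.bp] using S.Γ_box j x hx
    · have h1 : S.bp j x n = S.Ψ (f.symm^[n] x) := if_neg hn.ne'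
      rw [h1]
      exact S.box _ (PSysBasicAux.iter_symm_mem S hG n)

theorem PSys.lp_spec (S : A.PSys P κ c₀ f μ) {j : ℕ} {x : X} (hx : x ∈ S.Γ j) {N : ℕ}
    (hN : 2 ≤ N) (hx' : f^[N] x ∈ S.Γ j) :
    Loop (REdge P κ c₀ f) (S.lp j x N) N ∧ S.lp j x N 0 = S.Φ j ∧
      ∀ l < N, (S.lp j x N l).Box (f^[l] x) := by
  have hG := S.Γ_sub j hx
  have h0 : S.lp j x N 0 = S.Φ j := if_pos (Or.inl rfl)
  have hN' : S.lp j x N N = S.Φ j := if_pos (Or.inr rfl)
  have hmid : ∀ l, 0 < l → l < N → S.lp j x N l = S.Ψ (f^[l] x) := fun l h1 h2 =>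
    if_neg (by omega)
  refine ⟨⟨by omega, by rw [h0, hN'], fun l hl => ?_⟩, h0, fun l hl => ?_⟩
  · rcases Nat.eq_zero_or_pos l with rfl | hl0
    · rw [h0, hmid (0 + 1) (by omega) (by omega)]
      simpa using S.Γ_out j x hx
    · rcases Nat.lt_or_ge (l + 1) N with h | h
      · rw [hmid l hl0 hl, hmid (l + 1) (by omega) h, Function.iterate_succ_apply']
        exact S.edge _ (PSysBasicAux.iter_mem S hG l)
      · have hl1 : l + 1 = N := by omega
        have h1 := S.Γ_in j _ hx'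
        have h2 : f.symm (f^[N] x) = f^[l] x := by
          rw [← hl1, Function.iterate_succ_apply', Homeomorph.symm_apply_apply]
        rw [h2] at h1
        rw [hmid l hl0 hl, hl1, hN']
        exact h1
  · rcases Nat.eq_zero_or_pos l with rfl | hl0
    · rw [h0]
      exact S.Γ_box j x hx
    · rw [hmid l hl0 hl]
      exact S.box _ (PSysBasicAux.iter_mem S hG l)

/-- the measure is related to the periodic orbit of any loop based at a block -/
theorem PSys.rel [BorelSpace X] (hκ : 0 < κ) (hκ1 : κ ≤ 1) (hc : c₀ ≤ 1 / 4) (hf : A.Good P f)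
    (S : A.PSys P κ c₀ f μ) (hμ : A.Hyp f μ) {j : ℕ} (hj : μ (S.Γ j) ≠ 0) {w : ℕ → A.Chart}
    {N : ℕ} (hw : Loop (Edge P.α κ c₀ f) w N) (h0 : w 0 = S.Φ j) {p : X} (hp : PerPt f w N p)
    (hp' : A.Hyp f (perMeas f p N)) : A.Rel f μ (perMeas f p N) := by
  have hN := hw.1
  have hs : perMeas f p N {p} ≠ 0 := by
    simpa using perMeas_singleton_ne hN hp.1 0
  obtain ⟨hp1, hp2⟩ := hp.fol hN
  refine ⟨hμ, hp', ⟨S.Γ j, {p}, S.Γ_meas j, measurableSet_singleton p, hj, hs, ?_⟩,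
    ⟨{p}, S.Γ j, measurableSet_singleton p, S.Γ_meas j, hs, hj, ?_⟩⟩
  · intro x hx y hy
    rw [mem_singleton_iff.1 hy]
    obtain ⟨h1, h2⟩ := S.bp_spec hx
    have hb : BPath P.α κ c₀ f (S.bp j x) := fun n => (h1 n).edge hf
    refine inter_tr hκ hκ1 hc hb hw.fpath ?_ h2 hp1
    rw [fwd_zero, h0]
    exact if_pos rfl
  · intro y hy x hx
    rw [mem_singleton_iff.1 hy]
    obtain ⟨h1, h2⟩ := S.fp_spec hx
    have hb : FPath P.α κ c₀ f (S.fp j x) := fun n => (h1 n).edge hf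
    refine inter_tr hκ hκ1 hc hw.bpath hb ?_ hp2 h2
    rw [bwd_zero, h0]
    exact (if_pos rfl).symm

end Atlas

end Pool.Agent.Lib.MP_901be3_an.Hd
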