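import Pool.Agent.Lib.MP_901be3_an.Hd.CcBasic

namespace Pool.Agent.Lib.MP_901be3_an.Hd

open MeasureTheory Filter Topology Metric Set
open scoped ENNReal

namespace PolyAux

theorem coeff_bound (k : ℕ) : ∃ C : ℝ, 1 ≤ C ∧
    ∀ (E : Type) [NormedAddCommGroup E] [NormedSpace ℝ E] (c : ℕ → E) (B : ℝ),
      (∀ x ∈ II, ‖∑ j ∈ Finset.range k, x ^ j • c j‖ ≤ B) → ∀ j < k, ‖c j‖ ≤ C * B := by
  let x : Fin k → ℝ := fun i => (i : ℝ) / k
  have hx : Function.Injective x := fun i j h => by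
    have hk : (k : ℝ) ≠ 0 := Nat.cast_ne_zero.2 i.pos.ne'
    have h1 : (i : ℝ) = j := (div_left_inj' hk).1 h
    exact Fin.ext (Nat.cast_injective h1)
  have hxI : ∀ i, x i ∈ II := fun i => by
    have hk : (0 : ℝ) < k := Nat.cast_pos.2 i.pos
    have h0 : 0 ≤ x i := div_nonneg (Nat.cast_nonneg _) hk.le
    exact ⟨by linarith, (div_lt_one hk).2 (Nat.cast_lt.2 i.2)⟩
  have hW : (Matrix.vandermonde x)⁻¹ * Matrix.vandermonde x = 1 :=
    Matrix.nonsing_inv_mul _ (Matrix.det_vandermonde_ne_zero_iff.2 hx).isUnit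
  generalize (Matrix.vandermonde x)⁻¹ = W at hW
  have h0 : ∀ j, 0 ≤ ∑ i, |W j i| := fun j => Finset.sum_nonneg fun i _ => abs_nonneg _
  refine ⟨1 + ∑ j, ∑ i, |W j i|, le_add_of_nonneg_right (Finset.sum_nonneg fun j _ => h0 j),
    fun E _ _ c B h j₀ hj₀ => ?_⟩
  have hB : 0 ≤ B := (norm_nonneg _).trans (h 0 (by constructor <;> norm_num))
  obtain ⟨j, rfl⟩ : ∃ j : Fin k, (j : ℕ) = j₀ := ⟨⟨j₀, hj₀⟩, rfl⟩
  have e : c j = ∑ i, W j i • ∑ l : Fin k, x i ^ (l : ℕ) • c l := by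
    simp only [Finset.smul_sum, smul_smul]
    rw [Finset.sum_comm]
    simp only [← Finset.sum_smul]
    have e1 : ∀ l : Fin k, ∑ i, W j i * x i ^ (l : ℕ) = if j = l then 1 else 0 := fun l => by
      rw [← Matrix.one_apply, ← hW, Matrix.mul_apply]
      rfl
    simp only [e1, ite_smul, one_smul, zero_smul, Finset.sum_ite_eq, Finset.mem_univ, if_true]
  have h1 : ∑ i, |W j i| ≤ ∑ j, ∑ i, |W j i| :=
    Finset.single_le_sum (f := fun j => ∑ i, |W j i|) (fun j _ => h0 j) (Finset.mem_univ j)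
  calc ‖c j‖ ≤ ∑ i, |W j i| * B := by
        rw [e]
        refine norm_sum_le_of_le _ fun i _ => ?_
        rw [norm_smul, Real.norm_eq_abs]
        have h2 := h _ (hxI i)
        rw [Finset.sum_range] at h2
        exact mul_le_mul_of_nonneg_left h2 (abs_nonneg _)
    _ = (∑ i, |W j i|) * B := (Finset.sum_mul _ _ _).symm
    _ ≤ _ := mul_le_mul_of_nonneg_right (by linarith) hB

variable {F : Type} [NormedAddCommGroup F] [NormedSpace ℝ F]

/-- coefficients of the primitive -/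
noncomputable def prim (a : F) (c : ℕ → F) : ℕ → F
  | 0 => a
  | j + 1 => ((j : ℝ) + 1)⁻¹ • c j

theorem step {m : ℕ} {H : ℝ} {u : ℝ → F} {c : ℕ → F} (hu : ∀ s ∈ II, DifferentiableAt ℝ u s)
    (h : ∀ τ ∈ II, ‖deriv u τ - ∑ j ∈ Finset.range m, τ ^ j • c j‖ ≤ H) :
    ∀ τ ∈ II, ‖u τ - ∑ j ∈ Finset.range (m + 1), τ ^ j • prim (u 0) c j‖ ≤ H := by
  have h0 : (0 : ℝ) ∈ II := by constructor <;> norm_num
  have hH : 0 ≤ H := (norm_nonneg _).trans (h 0 h0)
  have hd : ∀ τ ∈ II, HasDerivAt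
      (fun t => u t - ∑ j ∈ Finset.range m, t ^ (j + 1) • (((j : ℝ) + 1)⁻¹ • c j))
      (deriv u τ - ∑ j ∈ Finset.range m, τ ^ j • c j) τ := by
    intro τ hτ
    refine (hu τ hτ).hasDerivAt.sub (HasDerivAt.fun_sum fun j _ => ?_)
    have h1 := (hasDerivAt_pow (j + 1) τ).smul_const (((j : ℝ) + 1)⁻¹ • c j)
    have h2 : (((j + 1 : ℕ) : ℝ) * τ ^ (j + 1 - 1)) • (((j : ℝ) + 1)⁻¹ • c j) = τ ^ j • c j := by
      rw [smul_smul, Nat.add_sub_cancel]
      congr 1
      push_cast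
      field_simp
    rwa [h2] at h1
  intro τ hτ
  have h3 := norm_sub_le_of_deriv (d := (0 : F)) (B := H) (a := -1) (b := 1)
    (fun t ht => ⟨(hd t ht).differentiableAt, by rw [(hd t ht).deriv, sub_zero]; exact h t ht⟩)
    τ hτ 0 h0
  have h4 : |τ - 0| ≤ 1 := by rw [sub_zero]; exact abs_le.2 ⟨hτ.1.le, hτ.2.le⟩
  have h5 := mul_le_mul_of_nonneg_left h4 hH
  rw [Finset.sum_range_succ']
  simp only [prim, pow_zero, one_smul]
  simp only [smul_zero, sub_zero, ne_eq, Nat.add_eq_zero_iff, one_ne_zero, and_false,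
    not_false_eq_true, zero_pow, zero_smul, Finset.sum_const_zero] at h3
  rw [sub_zero, mul_one] at h5
  rw [← sub_sub]
  exact h3.trans h5

theorem taylor {α : ℝ} (hα : 0 < α) {n : ℕ} {H : ℝ} {u : ℝ → F} (h : TopH α n H u II) :
    ∃ c : ℕ → F, ∀ τ ∈ II, ‖u τ - ∑ j ∈ Finset.range (n + 1), τ ^ j • c j‖ ≤ H := by
  induction n generalizing u with
  | zero =>
    have h0 : (0 : ℝ) ∈ II := by constructor <;> norm_num
    have hH : 0 ≤ H := by
      have h1 := (norm_nonneg _).trans (h (1 / 2) (by constructor <;> norm_num) 0 h0)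
      exact nonneg_of_mul_nonneg_left h1 (Real.rpow_pos_of_pos (by norm_num) _)
    refine ⟨fun _ => u 0, fun τ hτ => ?_⟩
    have h1 := h τ hτ 0 h0
    have h2 : |τ - 0| ^ α ≤ 1 := Real.rpow_le_one (abs_nonneg _)
      (by rw [sub_zero]; exact abs_le.2 ⟨hτ.1.le, hτ.2.le⟩) hα.le
    have h3 := mul_le_mul_of_nonneg_left h2 hH
    simp only [zero_add, Finset.range_one, Finset.sum_singleton, pow_zero, one_smul]
    linarith
  | succ n ih =>
    obtain ⟨c, hc⟩ := ih h.2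
    exact ⟨_, step h.1 hc⟩

theorem sum_bound {k : ℕ} {c : ℕ → F} {B y R : ℝ} (hc : ∀ j < k, ‖c j‖ ≤ B) (hB : 0 ≤ B)
    (hy : |y| ≤ R) (hR : 1 ≤ R) : ‖∑ j ∈ Finset.range k, y ^ j • c j‖ ≤ k * (R ^ k * B) := by
  refine (norm_sum_le _ _).trans ?_
  have h := Finset.sum_le_card_nsmul (Finset.range k) (fun j => ‖y ^ j • c j‖) (R ^ k * B)
    (fun j hj => by
      have hj' := Finset.mem_range.1 hj
      rw [norm_smul, norm_pow, Real.norm_eq_abs]
      refine mul_le_mul ?_ (hc j hj') (norm_nonneg _) (by positivity)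
      exact (pow_le_pow_left₀ (abs_nonneg _) hy j).trans (pow_le_pow_right₀ hR hj'.le))
  rwa [Finset.card_range, nsmul_eq_mul] at h

end PolyAux

/-- Taylor approximation -/
theorem taylor_topH {α : ℝ} (hα : 0 < α) {n : ℕ} {H : ℝ} {u : ℝ → V} (h : TopH α n H u II) :
    ∃ p q : Polynomial ℝ, p.natDegree ≤ n ∧ q.natDegree ≤ n ∧
      ∀ τ ∈ II, ‖u τ - (p.eval τ, q.eval τ)‖ ≤ H := by
  obtain ⟨c, hc⟩ := PolyAux.taylor hα h
  refine ⟨∑ j ∈ Finset.range (n + 1), Polynomial.monomial j (c j).1,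
    ∑ j ∈ Finset.range (n + 1), Polynomial.monomial j (c j).2, ?_, ?_, fun τ hτ => ?_⟩
  · exact Polynomial.natDegree_sum_le_of_forall_le _ _ fun j hj =>
      (Polynomial.natDegree_monomial_le _).trans (Nat.lt_succ_iff.1 (Finset.mem_range.1 hj))
  · exact Polynomial.natDegree_sum_le_of_forall_le _ _ fun j hj =>
      (Polynomial.natDegree_monomial_le _).trans (Nat.lt_succ_iff.1 (Finset.mem_range.1 hj))
  · refine le_of_eq_of_le ?_ (hc τ hτ)
    congr 2
    ext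
    · simp only [Polynomial.eval_finsetSum, Polynomial.eval_monomial, Prod.fst_sum, Prod.smul_fst,
        smul_eq_mul, mul_comm]
    · simp only [Polynomial.eval_finsetSum, Polynomial.eval_monomial, Prod.snd_sum, Prod.smul_snd,
        smul_eq_mul, mul_comm]

/-- extrapolation of polynomials -/
theorem remez (n : ℕ) : ∃ C : ℝ, 1 ≤ C ∧ ∀ (p : Polynomial ℝ) (k e H : ℝ), p.natDegree ≤ n →
    0 < e → (∀ x, |x - k| ≤ e → |p.eval x| ≤ H) → ∀ x, |x - k| ≤ 10 * e → |p.eval x| ≤ C * H := by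
  obtain ⟨C, hC, hM⟩ := PolyAux.coeff_bound (n + 1)
  have h1 : (1 : ℝ) ≤ ((n + 1 : ℕ) : ℝ) := by exact_mod_cast Nat.succ_pos n
  have h2 : (1 : ℝ) ≤ 10 ^ (n + 1) := one_le_pow₀ (by norm_num)
  refine ⟨((n + 1 : ℕ) : ℝ) * (10 ^ (n + 1) * C),
    one_le_mul_of_one_le_of_one_le h1 (one_le_mul_of_one_le_of_one_le h2 hC), ?_⟩
  intro p k e H hp he h x hx
  have hH : 0 ≤ H := (abs_nonneg _).trans (h k (by simp [he.le]))
  obtain ⟨q, hq⟩ : ∃ q, q = p.comp (Polynomial.C e * Polynomial.X + Polynomial.C k) := ⟨_, rfl⟩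
  have hqd : q.natDegree < n + 1 := by
    rw [hq]
    refine Nat.lt_succ_of_le (Polynomial.natDegree_comp_le.trans ?_)
    exact (Nat.mul_le_mul hp Polynomial.natDegree_linear_le).trans (by omega)
  have hev : ∀ y : ℝ, p.eval (e * y + k) = ∑ j ∈ Finset.range (n + 1), y ^ j • q.coeff j := by
    intro y
    have h3 := Polynomial.eval_eq_sum_range' hqd y
    simp only [smul_eq_mul, mul_comm (y ^ _)]
    rw [← h3, hq]
    simp
  have hc := hM ℝ q.coeff H fun y hy => by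
    rw [← hev, Real.norm_eq_abs]
    refine h _ ?_
    rw [add_sub_cancel_right, abs_mul, abs_of_pos he]
    exact mul_le_of_le_one_right he.le (abs_le.2 ⟨hy.1.le, hy.2.le⟩)
  have hy : |(x - k) / e| ≤ 10 := by
    rw [abs_div, abs_of_pos he, div_le_iff₀ he]
    exact hx
  have h4 := PolyAux.sum_bound hc (by positivity) hy (by norm_num)
  rw [← hev, Real.norm_eq_abs, mul_div_cancel₀ _ he.ne', sub_add_cancel] at h4
  linarith

/-- interpolation -/
theorem interp {α : ℝ} (hα : 0 < α) (hα1 : α ≤ 1) (n : ℕ) : ∃ C : ℝ, 1 ≤ C ∧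
    ∀ (H : ℝ) (u : ℝ → V), TopH α n H u II → (∀ τ ∈ II, ‖u τ‖ ≤ H) → Cc α n (C * H) u II := by
  induction n with
  | zero => exact ⟨1, le_rfl, fun H u h hs => by rw [one_mul]; exact ⟨hs, h⟩⟩
  | succ n ih =>
    obtain ⟨C, hC, ih⟩ := ih
    obtain ⟨C₀, hC₀, hM⟩ := PolyAux.coeff_bound (n + 1 + 1)
    obtain ⟨K, hK⟩ : ∃ K : ℝ, K = 1 + ((n + 1 : ℕ) : ℝ) * (((n + 1 : ℕ) : ℝ) * (C₀ * 2)) := ⟨_, rfl⟩
    have hK1 : 1 ≤ K := by
      rw [hK]
      exact le_add_of_nonneg_right (by positivity)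
    have hCK : 1 ≤ C * K := one_le_mul_of_one_le_of_one_le hC hK1
    refine ⟨2 * (C * K), by linarith, fun H u h hs => ?_⟩
    have h0 : (0 : ℝ) ∈ II := by constructor <;> norm_num
    have hH : 0 ≤ H := (norm_nonneg _).trans (hs 0 h0)
    obtain ⟨c, hc⟩ := PolyAux.taylor hα h.2
    have h1 := PolyAux.step h.1 hc
    have h2 := hM V (PolyAux.prim (u 0) c) (2 * H) fun x hx => by
      have h3 := norm_sub_norm_le
        (∑ j ∈ Finset.range (n + 1 + 1), x ^ j • PolyAux.prim (u 0) c j) (u x)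
      rw [norm_sub_rev] at h3
      linarith [h1 x hx, hs x hx]
    have h3 : ∀ j < n + 1, ‖c j‖ ≤ ((n + 1 : ℕ) : ℝ) * (C₀ * (2 * H)) := by
      intro j hj
      have h4 := h2 (j + 1) (by omega)
      have h5 : (0 : ℝ) < (j : ℝ) + 1 := by positivity
      simp only [PolyAux.prim] at h4
      rw [norm_smul, norm_inv, Real.norm_of_nonneg h5.le, inv_mul_le_iff₀ h5] at h4
      refine h4.trans (mul_le_mul_of_nonneg_right ?_ (by positivity))
      exact_mod_cast hj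
    have h4 : ∀ τ ∈ II, ‖deriv u τ‖ ≤ K * H := by
      intro τ hτ
      have h5 := PolyAux.sum_bound h3 (by positivity) (abs_le.2 ⟨hτ.1.le, hτ.2.le⟩) le_rfl
      have h6 := norm_sub_norm_le (deriv u τ) (∑ j ∈ Finset.range (n + 1), τ ^ j • c j)
      have h7 := hc τ hτ
      rw [one_pow, one_mul] at h5
      rw [hK]
      linarith
    have hKH : H ≤ K * H := le_mul_of_one_le_left hH hK1
    have hCKH : K * H ≤ C * (K * H) := le_mul_of_one_le_left (by positivity) hC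
    refine ⟨⟨fun x hx => (hs x hx).trans (by linarith), fun x hx y hy => ?_⟩, h.1,
      (ih (K * H) _ (h.2.mono hKH) h4).mono_B (by linarith)⟩
    have h5 := norm_sub_le_of_deriv (d := (0 : V)) (B := K * H) (a := -1) (b := 1)
      (fun t ht => ⟨h.1 t ht, by rw [sub_zero]; exact h4 t ht⟩) x hx y hy
    rw [smul_zero, sub_zero] at h5
    rw [Real.norm_eq_abs]
    have h6 : |x - y| / 2 ≤ 1 := by
      have : |x - y| ≤ 2 := abs_le.2 ⟨by linarith [hx.1, hy.2], by linarith [hx.2, hy.1]⟩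
      linarith
    have h7 : |x - y| / 2 ≤ (|x - y| / 2) ^ α :=
      Real.self_le_rpow_of_le_one (by positivity) h6 hα1
    have h8 : (|x - y| / 2) ^ α ≤ |x - y| ^ α :=
      Real.rpow_le_rpow (by positivity) (by linarith [abs_nonneg (x - y)]) hα.le
    have h9 : |x - y| ≤ 2 * |x - y| ^ α := by linarith
    have h10 := mul_le_mul hCKH h9 (abs_nonneg _) (by positivity)
    linarith

end Pool.Agent.Lib.MP_901be3_an.Hd
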