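import Pool.Agent.Lib.MP_901be3_an.Hd.QGraph

namespace Pool.Agent.Lib.MP_901be3_an.Hd

open MeasureTheory Filter Topology Metric Set
open scoped ENNReal

variable {X : Type*} [MetricSpace X] [MeasurableSpace X] {α c₀ κ : ℝ}

namespace Atlas

namespace QCloseAux

variable {A : Atlas X}

/-- the maps of a path in the coordinates of the charts -/
noncomputable def pm (g : X → X) (W : ℕ → A.Chart) (n : ℕ) (v : V) : V :=
  (W (n + 1)).co (g ((W n).pt v))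

theorem stay (hκ : 0 < κ) (hκ1 : κ ≤ 1) (hc : c₀ ≤ 1 / 4) {g : X ≃ₜ X} {W : ℕ → A.Chart}
    (h : FPath α κ c₀ g W) {b : ℝ} (hb : |b| ≤ 1) : Stay (pm g W) (sg g W b, b) := by
  obtain ⟨h1, h2⟩ := h.sg_spec hκ hκ1 hc hb
  have h3 : ‖((sg g W b, b) : V)‖ ≤ 2 := by
    rw [Prod.norm_def, Real.norm_eq_abs, Real.norm_eq_abs]
    exact max_le (by linarith) (by linarith)
  have key : ∀ n, orb (pm g W) n (sg g W b, b) = (W n).co (g^[n] ((W 0).pt (sg g W b, b))) := by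
    intro n
    induction n with
    | zero => exact ((h 0).1.pt_spec hc h3).2.2.symm
    | succ n ih =>
      change pm g W n (orb (pm g W) n (sg g W b, b)) = _
      rw [ih, pm, (h n).1.pt_co (h2 n).1, Function.iterate_succ_apply']
  intro n
  rw [key]
  exact (h2 n).2

theorem close (A : Atlas X) (hκ : 0 < κ) (hκ1 : κ ≤ 1) (hc : c₀ ≤ 1 / 4) {ζ : ℝ}
    (hζ : 0 < ζ) : ∃ n : ℕ, ∃ γ > 0, ∀ (g g' : X ≃ₜ X) (W W' : ℕ → A.Chart),
      (∀ j < n, ∀ v : V, ‖v‖ ≤ 1 → ‖pm g W j v - pm g' W' j v‖ ≤ γ) →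
      FPath α κ c₀ g W → FPath α κ c₀ g' W' → ∀ b, |b| ≤ 1 → |sg g W b - sg g' W' b| ≤ ζ := by
  obtain ⟨n, γ, hγ, H⟩ := stay_close hκ hκ1 hζ
  exact ⟨n, γ, hγ, fun g g' W W' hd h h' b hb => H (pm g W) (pm g' W') (fun j => (h j).2.2.1.2)
    (fun j => (h' j).2.2.1.2) hd _ _ (stay hκ hκ1 hc h hb) (stay hκ hκ1 hc h' hb) rfl⟩

theorem close' (hκ : 0 < κ) (hκ1 : κ ≤ 1) (hc : c₀ ≤ 1 / 4) {ζ : ℝ}
    (hζ : 0 < ζ) (W : ℕ → A.Chart) : ∃ γ > 0, ∀ g g' : X ≃ₜ X, (∀ x, dist (g x) (g' x) ≤ γ) →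
      FPath α κ c₀ g W → FPath α κ c₀ g' W → ∀ b, |b| ≤ 1 → |sg g W b - sg g' W b| ≤ ζ := by
  obtain ⟨n, γ, hγ, H⟩ := close (α := α) A hκ hκ1 hc hζ
  have hL : 0 < A.L := by linarith [A.one_le_L]
  have hM : 0 ≤ ∑ j ∈ Finset.range n, ‖Ci (W (j + 1)).u (W (j + 1)).s‖ :=
    Finset.sum_nonneg fun _ _ => norm_nonneg _
  have hM' : ∀ j < n, ‖Ci (W (j + 1)).u (W (j + 1)).s‖ ≤
      ∑ j ∈ Finset.range n, ‖Ci (W (j + 1)).u (W (j + 1)).s‖ + 1 := fun j hj =>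
    (Finset.single_le_sum (f := fun j => ‖Ci (W (j + 1)).u (W (j + 1)).s‖)
      (fun _ _ => norm_nonneg _) (Finset.mem_range.2 hj)).trans (by linarith)
  generalize ∑ j ∈ Finset.range n, ‖Ci (W (j + 1)).u (W (j + 1)).s‖ = M at hM hM'
  refine ⟨γ / ((M + 1) * A.L), by positivity, fun g g' hd h h' =>
    H g g' W W (fun j hj v hv => ?_) h h'⟩
  have e1 := (A.lip_low _ _ ((h j).2.2.1.1 v hv).1 _ ((h' j).2.2.1.1 v hv).1).trans
    (mul_le_mul_of_nonneg_left (hd _) hL.le)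
  rw [pm, pm, Chart.co, Chart.co, ← map_sub, sub_sub_sub_cancel_right]
  refine (ContinuousLinearMap.le_opNorm _ _).trans
    ((mul_le_mul (hM' j hj) e1 (norm_nonneg _) (by positivity)).trans (le_of_eq ?_))
  field_simp

end QCloseAux

/-- graphs of paths with a long common beginning are close -/
theorem graph_close (A : Atlas X) (hκ : 0 < κ) (hκ1 : κ ≤ 1) (hc : c₀ ≤ 1 / 4) {ζ : ℝ}
    (hζ : 0 < ζ) : ∃ n : ℕ, ∀ (g : X ≃ₜ X) (W W' : ℕ → A.Chart), (∀ j ≤ n, W j = W' j) →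
      (FPath α κ c₀ g W → FPath α κ c₀ g W' → ∀ b, |b| ≤ 1 → |sg g W b - sg g W' b| ≤ ζ) ∧
      (BPath α κ c₀ g W → BPath α κ c₀ g W' → ∀ a, |a| ≤ 1 → |ug g W a - ug g W' a| ≤ ζ) := by
  obtain ⟨n, γ, hγ, H⟩ := QCloseAux.close (α := α) A hκ hκ1 hc hζ
  refine ⟨n, fun g W W' hW => ⟨H g g W W' fun j hj v _ => ?_, fun h h' =>
    H g.symm g.symm (fun n => (W n).sw) (fun n => (W' n).sw) (fun j hj v _ => ?_) h.sw h'.sw⟩⟩
  · simp only [QCloseAux.pm, hW j hj.le, hW (j + 1) hj, sub_self, norm_zero]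
    exact hγ.le
  · simp only [QCloseAux.pm, hW j hj.le, hW (j + 1) hj, sub_self, norm_zero]
    exact hγ.le

/-- graphs of a path for two close maps are close -/
theorem graph_close' {A : Atlas X} (hκ : 0 < κ) (hκ1 : κ ≤ 1) (hc : c₀ ≤ 1 / 4) {ζ : ℝ}
    (hζ : 0 < ζ) (W : ℕ → A.Chart) : ∃ γ > 0, ∀ g g' : X ≃ₜ X, Near γ g g' →
      (FPath α κ c₀ g W → FPath α κ c₀ g' W → ∀ b, |b| ≤ 1 → |sg g W b - sg g' W b| ≤ ζ) ∧
      (BPath α κ c₀ g W → BPath α κ c₀ g' W → ∀ a, |a| ≤ 1 → |ug g W a - ug g' W a| ≤ ζ) := by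
  obtain ⟨γ, hγ, H⟩ := QCloseAux.close' (α := α) hκ hκ1 hc hζ W
  obtain ⟨γ', hγ', H'⟩ := QCloseAux.close' (α := α) hκ hκ1 hc hζ fun n => (W n).sw
  exact ⟨min γ γ', lt_min hγ hγ', fun g g' hd =>
    ⟨H g g' fun x => (hd x).1.trans (min_le_left _ _), fun h h' =>
      H' g.symm g'.symm (fun x => (hd x).2.trans (min_le_right _ _)) h.sw h'.sw⟩⟩

end Atlas

end Pool.Agent.Lib.MP_901be3_an.Hd
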