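import Pool.Agent.Lib.MP_901be3_an.Hd.QInter
import Pool.Agent.Lib.MP_901be3_an.Hd.PerMeas

namespace Pool.Agent.Lib.MP_901be3_an.Hd

open MeasureTheory Filter Topology Metric Set
open scoped ENNReal

variable {X : Type*} [MetricSpace X] [MeasurableSpace X] [BorelSpace X] {A : Atlas X} {P : Par}
  {c₀ κ : ℝ}

namespace QEigAux

lemma tendsto_div {f : ℕ → ℝ} {c C : ℝ} (h : ∀ n : ℕ, |f n - c * n| ≤ C) :
    Tendsto (fun n : ℕ => f n / n) atTop (𝓝 c) := by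
  have h1 : Tendsto (fun n : ℕ => (f n - c * n) / n) atTop (𝓝 0) := by
    refine squeeze_zero_norm (fun n => ?_) (tendsto_const_div_atTop_nhds_zero_nat C)
    rw [Real.norm_eq_abs, abs_div, Nat.abs_cast]
    exact div_le_div_of_nonneg_right (h n) n.cast_nonneg
  have h2 := h1.add_const c
  rw [zero_add] at h2
  refine h2.congr' ?_
  filter_upwards [eventually_gt_atTop 0] with n hn
  have : (n : ℝ) ≠ 0 := by exact_mod_cast hn.ne'
  field_simp
  ring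

omit [BorelSpace X] in
lemma D_pow {g : X → X} (hg : A.Dif g) (hid : A.Dif id) {y : X} {N : ℕ} (hy : g^[N] y = y)
    (k : ℕ) : A.D g^[k * N] y = A.D g^[N] y ^ k := by
  induction k with
  | zero => rw [zero_mul, Function.iterate_zero, Atlas.D_id, pow_zero]; rfl
  | succ k ih => rw [add_one_mul, Atlas.D_iter_add hg hid, hy, ih, pow_succ]; rfl

lemma pow_eigen {T : V →L[ℝ] V} {v : V} {μ : ℝ} (h : T v = μ • v) (k : ℕ) :
    (T ^ k) v = μ ^ k • v := by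
  induction k with
  | zero => simp
  | succ k ih =>
    rw [pow_succ, ContinuousLinearMap.mul_apply, h, map_smul, ih, smul_smul, pow_succ']

omit [BorelSpace X] in
lemma iter_fix {g : X → X} {y : X} {N : ℕ} (hy : g^[N] y = y) (k : ℕ) : g^[k * N] y = y := by
  rw [mul_comm, Function.iterate_mul]
  exact Function.iterate_fixed hy k

omit [BorelSpace X] in
lemma D_ne {g : X ≃ₜ X} (hg : A.Good P g) (n : ℕ) (y : X) {v : V} (hv : v ≠ 0) :
    A.D g^[n] y v ≠ 0 := fun h0 => by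
  have := (hg.norm_D_iter n y).2 v
  rw [h0, norm_zero, mul_zero] at this
  exact hv (norm_le_zero_iff.1 this)

omit [BorelSpace X] in
lemma mu_ne {g : X ≃ₜ X} (hg : A.Good P g) {y : X} {N : ℕ} {v : V} (hv : v ≠ 0) {μ : ℝ}
    (h : A.D g^[N] y v = μ • v) : μ ≠ 0 := fun h0 =>
  D_ne hg N y hv (by rw [h, h0, zero_smul])

omit [BorelSpace X] in
lemma rate_fwd {g : X ≃ₜ X} (hg : A.Good P g) {y : X} {N : ℕ} (hN : 0 < N)
    (hy : g^[N] y = y) {v : V} (hv : v ≠ 0) {μ : ℝ} (h : A.D g^[N] y v = μ • v) :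
    Tendsto (fun n : ℕ => Real.log ‖A.D g^[n] y v‖ / n) atTop (𝓝 (Real.log |μ| / N)) := by
  have hμ := mu_ne hg hv h
  have hB := P.one_le_B
  have hB0 : 0 < P.B := one_pos.trans_le hB
  have hlB : 0 ≤ Real.log P.B := Real.log_nonneg hB
  have hN' : (0 : ℝ) < N := by exact_mod_cast hN
  have hv' : 0 < ‖v‖ := norm_pos_iff.2 hv
  refine tendsto_div (C := N * Real.log P.B + |Real.log ‖v‖| + |Real.log (|μ|)|) fun n => ?_
  obtain ⟨k, l, hl, rfl⟩ : ∃ k l : ℕ, l < N ∧ n = l + k * N :=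
    ⟨n / N, n % N, Nat.mod_lt _ hN, (Nat.mod_add_div' n N).symm⟩
  have e : A.D g^[l + k * N] y v = μ ^ k • A.D g^[l] y v := by
    rw [Atlas.D_iter_add hg.1.dif hg.2.2.dif, iter_fix hy, ContinuousLinearMap.comp_apply,
      D_pow hg.1.dif hg.2.2.dif hy, pow_eigen h, map_smul]
  have hp : 0 < ‖A.D g^[l] y v‖ := norm_pos_iff.2 (D_ne hg l y hv)
  have hBl : 0 < P.B ^ l := pow_pos hB0 l
  have h1 := Real.log_le_log hp (((A.D g^[l] y).le_opNorm v).trans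
    (mul_le_mul_of_nonneg_right (hg.norm_D_iter l y).1 hv'.le))
  have h2 := Real.log_le_log hv' ((hg.norm_D_iter l y).2 v)
  rw [Real.log_mul hBl.ne' hv'.ne', Real.log_pow] at h1
  rw [Real.log_mul hBl.ne' hp.ne', Real.log_pow] at h2
  have hl' : (l : ℝ) ≤ N := by exact_mod_cast hl.le
  have hl0 : (0 : ℝ) ≤ l := l.cast_nonneg
  have h3 : (l : ℝ) * Real.log P.B ≤ N * Real.log P.B := mul_le_mul_of_nonneg_right hl' hlB
  have h4 : |Real.log |μ| / N * l| ≤ |Real.log (|μ|)| := by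
    rw [div_mul_eq_mul_div, mul_div_assoc, abs_mul]
    refine mul_le_of_le_one_right (abs_nonneg _) ?_
    rw [abs_of_nonneg (by positivity)]
    exact (div_le_one hN').2 hl'
  have e2 : Real.log ‖A.D g^[l + k * N] y v‖ - Real.log |μ| / N * ((l + k * N : ℕ) : ℝ) =
      Real.log ‖A.D g^[l] y v‖ - Real.log |μ| / N * l := by
    rw [e, norm_smul, Real.log_mul (norm_ne_zero_iff.2 (pow_ne_zero _ hμ)) hp.ne', norm_pow,
      Real.log_pow, Real.norm_eq_abs]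
    push_cast
    field_simp
    ring
  rw [e2, abs_le]
  have h5 := abs_le.1 h4
  constructor <;> linarith [le_abs_self (Real.log ‖v‖), neg_abs_le (Real.log ‖v‖), h5.1, h5.2]

omit [BorelSpace X] in
lemma D_conj {G : X → X} (hG : A.Dif G) (hid : A.Dif id) {p : X} (hp : G p = p) {i : Fin A.N}
    (hi : A.Gd i p) (u : V) : A.D G p (A.DD id i (A.idx p) p u) =
      A.DD id i (A.idx p) p (A.DD G i i p u) := by
  have h1 := Atlas.DD_comp hG hid (i := i) (k := A.idx p) (j := A.idx p) (x := p) hi (A.gd_idx p)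
    (by rw [id, hp]; exact A.gd_idx p)
  have h2 := Atlas.DD_comp hid hG (i := i) (k := i) (j := A.idx p) (x := p) hi
    (by rw [hp]; exact hi) (by rw [id, hp]; exact A.gd_idx p)
  rw [Function.comp_id, id] at h1
  rw [Function.id_comp, hp] at h2
  rw [Atlas.D, hp]
  exact (DFunLike.congr_fun h1 u).symm.trans (DFunLike.congr_fun h2 u)

omit [BorelSpace X] in
lemma trans_ne (hid : A.Dif id) {p : X} {i : Fin A.N} (hi : A.Gd i p) {u : V} (hu : u ≠ 0) :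
    A.DD id i (A.idx p) p u ≠ 0 := fun h0 => by
  have h1 := Atlas.DD_comp hid hid (i := i) (k := A.idx p) (j := i) (x := p) hi (A.gd_idx p) hi
  rw [Function.comp_id, Atlas.DD_id_self hi] at h1
  have h2 := DFunLike.congr_fun h1 u
  rw [ContinuousLinearMap.comp_apply, h0, map_zero] at h2
  exact hu h2

omit [BorelSpace X] in
lemma contr {g : X ≃ₜ X} (hg : A.Good P g) {p : X} {N : ℕ} (hN : 0 < N) (hp : g^[N] p = p)
    {i : Fin A.N} (hi : A.Gd i p) {u : V} {θ : ℝ} (h0 : 0 < θ) (h1 : θ ≤ 1)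
    (h : ∀ k : ℕ, ‖A.DD g^[k * N] i i p u‖ ≤ θ ^ (k * N)) (k : ℕ) :
    ‖(A.D g^[N] p ^ k) (A.DD id i (A.idx p) p u)‖ ≤ P.B * θ ^ k := by
  rw [← D_pow hg.1.dif hg.2.2.dif hp, D_conj (hg.1.dif.iter hg.2.2.dif _) hg.2.2.dif
    (iter_fix hp k) hi]
  refine ((A.DD id i (A.idx p) p).le_opNorm _).trans (mul_le_mul
    (hg.2.2.norm_DD_le i _ p hi (A.gd_idx p)) ((h k).trans ?_) (norm_nonneg _)
    (zero_le_one.trans P.one_le_B))
  exact pow_le_pow_of_le_one h0.le h1 (Nat.le_mul_of_pos_right k hN)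

lemma Cm_ne {u s v : V} (h : det u s ≠ 0) (hv : v ≠ 0) : Cm u s v ≠ 0 := fun h0 => by
  have := Ci_Cm h v
  rw [h0, map_zero] at this
  exact hv this.symm

end QEigAux

open QEigAux

namespace Atlas

omit [BorelSpace X] in
theorem rate_of_eigen {g : X ≃ₜ X} (hg : A.Good P g) {y : X} {N : ℕ} (hN : 0 < N)
    (hy : g^[N] y = y) {v : V} (hv : v ≠ 0) {μ : ℝ} (h : A.D g^[N] y v = μ • v) :
    A.Rate g y v (Real.log |μ| / N) := by
  refine ⟨rate_fwd hg hN hy hv h, ?_⟩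
  have hμ := mu_ne hg hv h
  have h1 := DFunLike.congr_fun (hg.D_symm_iter N y) v
  rw [ContinuousLinearMap.comp_apply, hy, h, map_smul, ContinuousLinearMap.id_apply] at h1
  have h2 : A.D g.symm^[N] y v = μ⁻¹ • v := by
    conv_rhs => rw [← h1]
    rw [smul_smul, inv_mul_cancel₀ hμ, one_smul]
  have h3 := rate_fwd hg.symm hN ((symm_iter_fixed g y N).2 hy) hv h2
  rwa [abs_inv, Real.log_inv, neg_div] at h3

omit [BorelSpace X] in
theorem Loop.eigen (hκ : 0 < κ) (hκ1 : κ ≤ 1) (hc : c₀ ≤ 1 / 4) {g : X ≃ₜ X} (hg : A.Good P g)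
    {w : ℕ → A.Chart} {N : ℕ} (h : Loop (Edge P.α κ c₀ g) w N) {p : X} (hp : PerPt g w N p) :
    ∃ (v v' : V) (μ Λ K : ℝ), v ≠ 0 ∧ v' ≠ 0 ∧ |μ| < 1 ∧ 1 < |Λ| ∧ A.D g^[N] p v = μ • v ∧
      A.D g^[N] p v' = Λ • v' ∧ ∀ k : ℕ, A.D g^[k * N] p v' = Λ ^ k • v' ∧
        ‖A.D g^[k * N] p‖ ≤ K * |Λ| ^ k := by
  have hN := h.1
  have hs : (w 0).Small P.α c₀ := (h.2.2 0 hN).1
  have hbox : (w 0).Box p := hp.2 0 hN
  have hco : ‖(w 0).co p‖ ≤ 1 / 20 := h.perPt_co hκ hκ1 hc hp hN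
  have hpt : (w 0).pt ((w 0).co p) = p := hs.pt_co hbox.1
  have hi : A.Gd (w 0).i p := by
    have := (hs.pt_spec hc (v := (w 0).co p) (by linarith)).1
    rwa [hpt] at this
  obtain ⟨f1, f2⟩ := hp.fol hN
  have hθ0 : 0 < 1 - κ / 3 := by linarith
  have hθ1 : 1 - κ / 3 < 1 := by linarith
  have hp' := (symm_iter_fixed g p N).2 hp.1
  obtain ⟨σ, -, -, h1⟩ := h.fpath.sg_deriv hκ hκ1 hc (b := ((w 0).co p).2)
    (((norm_snd_le _).trans hco).trans_lt (by norm_num))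
  obtain ⟨σ', -, -, h2⟩ := h.bpath.ug_deriv hκ hκ1 hc (a := ((w 0).co p).1)
    (((norm_fst_le _).trans hco).trans_lt (by norm_num))
  have e1 := h.fpath.co_eq hκ hκ1 hc f1
  have e2 := h.bpath.co_eq hκ hκ1 hc f2
  rw [fwd_zero] at e1 h1
  rw [bwd_zero] at e2 h2
  rw [← e1, Prod.mk.eta, hpt] at h1
  rw [← e2, Prod.mk.eta, hpt] at h2
  have c1 := contr hg hN hp.1 hi hθ0 hθ1.le (u := Cm (w 0).u (w 0).s (σ, 1)) fun k => by
    have := h1 (k * N)
    rwa [show fwd w N (k * N) = w 0 from (fwd_add w N k 0).trans (fwd_zero w N)] at this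
  have c2 := contr hg.symm hN hp' hi hθ0 hθ1.le (u := Cm (w 0).u (w 0).s (1, σ')) fun k => by
    have := h2 (k * N)
    rwa [show bwd w N (k * N) = w 0 from (bwd_add w N k 0).trans (bwd_zero w N)] at this
  have n1 := trans_ne hg.2.2.dif hi (Cm_ne hs.2.1 (v := (σ, 1)) (by simp))
  have n2 := trans_ne hg.2.2.dif hi (Cm_ne hs.2.1 (v := (1, σ')) (by simp))
  have hST := hg.D_symm_iter N p
  rw [hp.1] at hST
  obtain ⟨μ, Λ, K, a1, a2, a3, a4, a5⟩ := eigen_of_contr hST n1 n2 hθ0 hθ1 c1 c2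
  refine ⟨_, _, μ, Λ, K, n1, n2, a1, a2, a3, a4, fun k => ?_⟩
  rw [D_pow hg.1.dif hg.2.2.dif hp.1]
  exact ⟨pow_eigen a4 k, a5 k⟩

theorem Loop.hyp (hκ : 0 < κ) (hκ1 : κ ≤ 1) (hc : c₀ ≤ 1 / 4) {g : X ≃ₜ X} (hg : A.Good P g)
    {w : ℕ → A.Chart} {N : ℕ} (h : Loop (Edge P.α κ c₀ g) w N) {p : X} (hp : PerPt g w N p) :
    A.Hyp g (perMeas g p N) := by
  have hN := h.1
  have hN' : (0 : ℝ) < N := by exact_mod_cast hN
  obtain ⟨v, v', μ, Λ, K, n1, n2, a1, a2, a3, a4, -⟩ := h.eigen hκ hκ1 hc hg hp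
  have key : ∀ (i : ℕ) {u : V} {t : ℝ}, u ≠ 0 → A.D g^[N] p u = t • u →
      A.Rate g (g^[i] p) (A.D g^[i] p u) (Real.log |t| / N) := fun i u t hu ht => by
    refine rate_of_eigen hg hN ?_ (D_ne hg i p hu) ?_
    · rw [← Function.iterate_add_apply, add_comm, Function.iterate_add_apply, hp.1]
    · rw [← ContinuousLinearMap.comp_apply, ← D_iter_add hg.1.dif hg.2.2.dif, add_comm,
        D_iter_add hg.1.dif hg.2.2.dif, hp.1, ContinuousLinearMap.comp_apply, ht, map_smul]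
  refine ⟨perMeas_prob _ _ hN, perMeas_ergodic g.continuous.measurable hN hp.1,
    Real.log |Λ| / N, Real.log |μ| / N, div_pos (Real.log_pos a2) hN',
    div_neg_of_neg_of_pos (Real.log_neg (abs_pos.2 (mu_ne hg n1 a3)) a1) hN',
    perMeas_ae fun i _ => ⟨⟨_, key i n2 a4⟩, _, key i n1 a3⟩⟩

end Atlas

end Pool.Agent.Lib.MP_901be3_an.Hd
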