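import Pool.Agent.Lib.MP_901be3_an.Hd.ChBasic
import Pool.Agent.Lib.MP_901be3_an.Hd.HDeriv

namespace Pool.Agent.Lib.MP_901be3_an.Hd

open MeasureTheory Filter Topology Metric Set
open scoped ENNReal

variable {X : Type*} [MetricSpace X] [MeasurableSpace X] {A : Atlas X} {α c₀ κ : ℝ}

namespace Atlas

namespace QGraphAux

/-- the map `g` read in the charts of the path -/
noncomputable def FF (g : X → X) (W : ℕ → A.Chart) (n : ℕ) (v : V) : V :=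
  (W (n + 1)).co (g ((W n).pt v))

variable {g : X ≃ₜ X} {W : ℕ → A.Chart}

theorem hmap (h : FPath α κ c₀ g W) (n : ℕ) : HMap κ (FF g W n) := (h n).2.2.1.2

theorem orb_co (h : FPath α κ c₀ g W) {x : X} (n : ℕ)
    (hx : ∀ j < n, g^[j] x ∈ (A.e (W j).i).source) :
    orb (FF g W) n ((W 0).co x) = (W n).co (g^[n] x) := by
  induction n with
  | zero => rfl
  | succ n ih =>
    change FF g W n (orb (FF g W) n ((W 0).co x)) = _
    rw [ih fun j hj => hx j (Nat.lt_succ_of_lt hj), FF, (h n).1.pt_co (hx n n.lt_succ_self),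
      Function.iterate_succ_apply']

theorem stay_of_fol (h : FPath α κ c₀ g W) {x : X} (hx : x ∈ Fol g W) :
    Stay (FF g W) ((W 0).co x) := fun n => by
  rw [orb_co h n fun j _ => (hx j).1]
  exact (hx n).2

theorem fol_of_stay (hc : c₀ ≤ 1 / 4) (h : FPath α κ c₀ g W) {v : V} (hv : Stay (FF g W) v) :
    (W 0).pt v ∈ Fol g W := by
  have key : ∀ n, g^[n] ((W 0).pt v) = (W n).pt (orb (FF g W) n v) := by
    intro n
    induction n with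
    | zero => rfl
    | succ n ih =>
      rw [Function.iterate_succ_apply', ih]
      exact ((h n).2.1.pt_co ((h n).2.2.1.1 _ (hv n)).1).symm
  intro n
  rw [key]
  exact (h n).1.box_pt hc (hv n)

theorem sg_eps (hκ : 0 < κ) (hκ1 : κ ≤ 1) (hc : c₀ ≤ 1 / 4) (h : FPath α κ c₀ g W) {b : ℝ}
    (hb : |b| ≤ 1) : |sg g W b| ≤ 1 ∧ (W 0).pt (sg g W b, b) ∈ Fol g W := by
  obtain ⟨a, ha⟩ := exists_stay hκ hκ1 (hmap h) hb
  refine Classical.epsilon_spec (p := fun a => |a| ≤ 1 ∧ (W 0).pt (a, b) ∈ Fol g W)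
    ⟨a, (ha.fst_le hκ hκ1 (hmap h)).trans (by norm_num), fol_of_stay hc h ha⟩

theorem stay_sg (hκ : 0 < κ) (hκ1 : κ ≤ 1) (hc : c₀ ≤ 1 / 4) (h : FPath α κ c₀ g W) {b : ℝ}
    (hb : |b| ≤ 1) : Stay (FF g W) (sg g W b, b) := by
  obtain ⟨h1, h2⟩ := sg_eps hκ hκ1 hc h hb
  have h3 := stay_of_fol h h2
  rwa [((h 0).1.pt_spec hc (v := (sg g W b, b)) ?_).2.2] at h3
  rw [Prod.norm_mk, Real.norm_eq_abs, Real.norm_eq_abs]
  exact max_le (h1.trans one_le_two) (hb.trans one_le_two)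

theorem DD_eq (hc : c₀ ≤ 1 / 4) (h : FPath α κ c₀ g W) {v : V} (hv : Stay (FF g W) v) (n : ℕ)
    (hd : DifferentiableAt ℝ (orb (FF g W) n) v) (w : V) :
    A.DD g^[n] (W 0).i (W n).i ((W 0).pt v) (Cm (W 0).u (W 0).s w) =
      Cm (W n).u (W n).s (fderiv ℝ (orb (FF g W) n) v w) := by
  have hx := fol_of_stay hc h hv
  obtain ⟨p1, p2, -⟩ := (h 0).1.pt_spec hc (v := v) ((hv 0).trans one_le_two)
  have ht : A.e (W 0).i ((W 0).pt v) ∈ (A.e (W 0).i).target := (A.e (W 0).i).map_source p1.1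
  have hs : (A.e (W 0).i).symm (A.e (W 0).i ((W 0).pt v)) = (W 0).pt v :=
    (A.e (W 0).i).left_inv p1.1
  have hcont : ContinuousAt (A.e (W 0).i).symm (A.e (W 0).i ((W 0).pt v)) :=
    (A.e (W 0).i).continuousAt_symm ht
  have e1 : ∀ᶠ y in 𝓝 (A.e (W 0).i ((W 0).pt v)), ∀ j ∈ Finset.range n,
      g^[j] ((A.e (W 0).i).symm y) ∈ (A.e (W j).i).source := by
    refine (Finset.eventually_all _).2 fun j _ => ?_
    refine ((g.continuous.iterate j).continuousAt.comp hcont).eventually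
      ((A.e (W j).i).open_source.mem_nhds ?_)
    change g^[j] ((A.e (W 0).i).symm _) ∈ _
    rw [hs]
    exact (hx j).1
  have e2 : A.rep g^[n] (W 0).i (W n).i =ᶠ[𝓝 (A.e (W 0).i ((W 0).pt v))] fun y =>
      (W n).c + Cm (W n).u (W n).s (orb (FF g W) n (Ci (W 0).u (W 0).s (y - (W 0).c))) := by
    filter_upwards [e1, (A.e (W 0).i).open_target.mem_nhds ht] with y hy hy'
    have h1 := orb_co h n fun j hj => hy j (Finset.mem_range.2 hj)
    rw [Chart.co, (A.e (W 0).i).right_inv hy'] at h1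
    rw [h1, Chart.co, Cm_Ci (h n).1.2.1, add_sub_cancel]
    rfl
  have e3 : Ci (W 0).u (W 0).s (A.e (W 0).i ((W 0).pt v) - (W 0).c) = v := by
    rw [p2, add_sub_cancel_left, Ci_Cm (h 0).1.2.1]
  have d1 : HasFDerivAt (fun y => Ci (W 0).u (W 0).s (y - (W 0).c)) (Ci (W 0).u (W 0).s)
      (A.e (W 0).i ((W 0).pt v)) :=
    (hasFDerivAt_comp_sub _).2 (Ci (W 0).u (W 0).s).hasFDerivAt
  have d2 : HasFDerivAt (orb (FF g W) n) (fderiv ℝ (orb (FF g W) n) v)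
      (Ci (W 0).u (W 0).s (A.e (W 0).i ((W 0).pt v) - (W 0).c)) := by
    rw [e3]
    exact hd.hasFDerivAt
  have d3 : HasFDerivAt (fun y =>
      (W n).c + Cm (W n).u (W n).s (orb (FF g W) n (Ci (W 0).u (W 0).s (y - (W 0).c))))
      ((Cm (W n).u (W n).s).comp ((fderiv ℝ (orb (FF g W) n) v).comp (Ci (W 0).u (W 0).s)))
      (A.e (W 0).i ((W 0).pt v)) :=
    ((Cm (W n).u (W n).s).hasFDerivAt.comp (A.e (W 0).i ((W 0).pt v))
      (HasFDerivAt.comp (f := fun y => Ci (W 0).u (W 0).s (y - (W 0).c))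
        (A.e (W 0).i ((W 0).pt v)) d2 d1)).const_add (W n).c
  rw [DD, e2.fderiv_eq, d3.fderiv]
  simp only [ContinuousLinearMap.comp_apply, Ci_Cm (h 0).1.2.1]

end QGraphAux

section Stable

variable (hκ : 0 < κ) (hκ1 : κ ≤ 1) (hc : c₀ ≤ 1 / 4) {g : X ≃ₜ X} {W : ℕ → A.Chart}
  (h : FPath α κ c₀ g W)
include hκ hκ1 hc h

theorem FPath.sg_spec {b : ℝ} (hb : |b| ≤ 1) :
    |sg g W b| ≤ 1 / 20 ∧ (W 0).pt (sg g W b, b) ∈ Fol g W := by
  exact ⟨(QGraphAux.stay_sg hκ hκ1 hc h hb).fst_le hκ hκ1 (QGraphAux.hmap h),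
    (QGraphAux.sg_eps hκ hκ1 hc h hb).2⟩

theorem FPath.co_eq {x : X} (hx : x ∈ Fol g W) :
    ((W 0).co x).1 = sg g W ((W 0).co x).2 := by
  have hb : |((W 0).co x).2| ≤ 1 := (norm_snd_le ((W 0).co x)).trans (hx 0).2
  have h1 := ((QGraphAux.stay_of_fol h hx).contr hκ hκ1 (QGraphAux.hmap h)
    (QGraphAux.stay_sg hκ hκ1 hc h hb)).1
  simp only [sub_self, abs_zero, zero_div, abs_nonpos_iff] at h1
  exact sub_eq_zero.1 h1

theorem FPath.sg_lip {b b' : ℝ} (hb : |b| ≤ 1) (hb' : |b'| ≤ 1) :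
    |sg g W b - sg g W b'| ≤ |b - b'| / 20 := by
  exact ((QGraphAux.stay_sg hκ hκ1 hc h hb).contr hκ hκ1 (QGraphAux.hmap h)
    (QGraphAux.stay_sg hκ hκ1 hc h hb')).1

theorem FPath.sg_cont : ContinuousOn (sg g W) (Icc (-1) 1) := by
  refine (LipschitzOnWith.of_dist_le_mul (K := 1) fun b hb b' hb' => ?_).continuousOn
  have h1 := h.sg_lip hκ hκ1 hc (abs_le.2 hb) (abs_le.2 hb')
  rw [Real.dist_eq, Real.dist_eq, NNReal.coe_one]
  linarith [abs_nonneg (b - b')]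

theorem FPath.contr {x y : X} (hx : x ∈ Fol g W) (hy : y ∈ Fol g W) (n : ℕ) :
    dist (g^[n] x) (g^[n] y) ≤ 2 * A.L * (1 - κ / 3) ^ n := by
  have h1 := ((QGraphAux.stay_of_fol h hx).contr hκ hκ1 (QGraphAux.hmap h)
    (QGraphAux.stay_of_fol h hy)).2 n
  rw [QGraphAux.orb_co h n fun j _ => (hx j).1, QGraphAux.orb_co h n fun j _ => (hy j).1] at h1
  have h2 := (h n).1.dist_pt hc ((hx n).2.trans one_le_two) ((hy n).2.trans one_le_two)
  rw [(h n).1.pt_co (hx n).1, (h n).1.pt_co (hy n).1] at h2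
  have hx0 : ‖(W 0).co x‖ ≤ 1 := (hx 0).2
  have hy0 : ‖(W 0).co y‖ ≤ 1 := (hy 0).2
  have h3 : ‖(W 0).co x - (W 0).co y‖ ≤ 2 := (norm_sub_le _ _).trans (by linarith)
  have hθ : 0 ≤ (1 - κ / 3) ^ n := pow_nonneg (by linarith) n
  have hL : 0 ≤ A.L := zero_le_one.trans A.one_le_L
  have h4 := h1.trans (mul_le_mul_of_nonneg_left h3 hθ)
  calc _ ≤ _ := h2
    _ ≤ A.L * 1 * ((1 - κ / 3) ^ n * 2) :=
        mul_le_mul (mul_le_mul_of_nonneg_left (by linarith) hL) h4 (norm_nonneg _) (by linarith)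
    _ = _ := by ring

theorem FPath.sg_deriv {b : ℝ} (hb : |b| < 1) :
    ∃ σ : ℝ, |σ| ≤ 1 / 20 ∧ HasDerivAt (sg g W) σ b ∧ ∀ n,
      ‖A.DD g^[n] (W 0).i (W n).i ((W 0).pt (sg g W b, b)) (Cm (W 0).u (W 0).s (σ, 1))‖ ≤
        (1 - κ / 3) ^ n := by
  obtain ⟨σ, h1, h2, h3⟩ := stay_deriv hκ hκ1 (QGraphAux.hmap h)
    (fun b hb => QGraphAux.stay_sg hκ hκ1 hc h hb) hb
  refine ⟨σ, h1, h2, fun n => ?_⟩
  rw [QGraphAux.DD_eq hc h (QGraphAux.stay_sg hκ hκ1 hc h hb.le) n (h3 n).1]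
  refine (ContinuousLinearMap.le_opNorm _ _).trans ?_
  have h4 : ‖Cm (W n).u (W n).s‖ ≤ 1 := by linarith [(h n).1.2.2.1]
  simpa using mul_le_mul h4 (h3 n).2 (norm_nonneg _) zero_le_one

end Stable

section Unstable

variable (hκ : 0 < κ) (hκ1 : κ ≤ 1) (hc : c₀ ≤ 1 / 4) {g : X ≃ₜ X} {W : ℕ → A.Chart}
  (h : BPath α κ c₀ g W)
include hκ hκ1 hc h

theorem BPath.ug_spec {a : ℝ} (ha : |a| ≤ 1) :
    |ug g W a| ≤ 1 / 20 ∧ (W 0).pt (a, ug g W a) ∈ Fol g.symm W := by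
  have h1 := h.sw.sg_spec hκ hκ1 hc ha
  rw [Chart.sw_pt, fol_sw] at h1
  exact h1

theorem BPath.co_eq {x : X} (hx : x ∈ Fol g.symm W) :
    ((W 0).co x).2 = ug g W ((W 0).co x).1 := by
  have h1 := h.sw.co_eq hκ hκ1 hc (x := x) (by rwa [fol_sw])
  rw [Chart.sw_co] at h1
  exact h1

theorem BPath.ug_lip {a a' : ℝ} (ha : |a| ≤ 1) (ha' : |a'| ≤ 1) :
    |ug g W a - ug g W a'| ≤ |a - a'| / 20 := by
  exact h.sw.sg_lip hκ hκ1 hc ha ha'

theorem BPath.ug_cont : ContinuousOn (ug g W) (Icc (-1) 1) := by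
  exact h.sw.sg_cont hκ hκ1 hc

theorem BPath.contr {x y : X} (hx : x ∈ Fol g.symm W) (hy : y ∈ Fol g.symm W) (n : ℕ) :
    dist (g.symm^[n] x) (g.symm^[n] y) ≤ 2 * A.L * (1 - κ / 3) ^ n := by
  exact h.sw.contr hκ hκ1 hc (by rwa [fol_sw]) (by rwa [fol_sw]) n

theorem BPath.ug_deriv {a : ℝ} (ha : |a| < 1) :
    ∃ σ : ℝ, |σ| ≤ 1 / 20 ∧ HasDerivAt (ug g W) σ a ∧ ∀ n,
      ‖A.DD g.symm^[n] (W 0).i (W n).i ((W 0).pt (a, ug g W a)) (Cm (W 0).u (W 0).s (1, σ))‖ ≤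
        (1 - κ / 3) ^ n := by
  obtain ⟨σ, h1, h2, h3⟩ := h.sw.sg_deriv hκ hκ1 hc ha
  refine ⟨σ, h1, h2, fun n => ?_⟩
  have h4 := h3 n
  rw [Chart.sw_pt] at h4
  rw [← Cm_swap]
  exact h4

end Unstable

end Atlas

end Pool.Agent.Lib.MP_901be3_an.Hd
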