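import Pool.Agent.Lib.MP_901be3_an.Hd.ChBasic
import Pool.Agent.Lib.MP_901be3_an.Hd.AtLip

namespace Pool.Agent.Lib.MP_901be3_an.Hd

open MeasureTheory Filter Topology Metric Set
open scoped ENNReal

variable {X : Type*} [MetricSpace X] [MeasurableSpace X] [CompactSpace X]

namespace REdgeAux

open Atlas

/-- a positive margin for an affine strict inequality -/
theorem exists_margin {p q k : ℝ} (h : p < k) (hq : 0 ≤ q) :
    ∃ t > 0, ∀ t' ≤ t, p + q * t' ≤ k := by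
  refine ⟨(k - p) / (q + 1), div_pos (by linarith) (by linarith), fun t' ht' => ?_⟩
  have h1 : q * t' ≤ q * ((k - p) / (q + 1)) := mul_le_mul_of_nonneg_left ht' hq
  have h2 : q * ((k - p) / (q + 1)) ≤ k - p := by
    rw [← mul_div_assoc, div_le_iff₀ (by linarith)]
    nlinarith
  linarith

/-- the forward edge under explicit strict inequalities -/
theorem fedge_of (A : Atlas X) (P : Par) {κ : ℝ} {f : X → X} (hf : A.Reg P f) {x : X}
    (Φ Φ' : A.Chart) (hxi : x ∈ (A.e Φ.i).source) (hx1 : ‖A.e Φ.i x‖ < 1)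
    (hyj : f x ∈ (A.e Φ'.i).source) (hy1 : ‖A.e Φ'.i (f x)‖ < 1) {a b : ℝ}
    (ha : 1 + κ ≤ |a|) (hb : |b| ≤ (1 + κ)⁻¹)
    (hr : ‖Φ.c - A.e Φ.i x‖ + ‖Cm Φ.u Φ.s‖ < P.ρ)
    (hBr : P.B * (‖Φ.c - A.e Φ.i x‖ + ‖Cm Φ.u Φ.s‖) < 1 / 2)
    (h1 : ‖Ci Φ'.u Φ'.s‖ * (P.B * (‖Φ.c - A.e Φ.i x‖ + ‖Cm Φ.u Φ.s‖) ^ P.α) * ‖Cm Φ.u Φ.s‖ +
      ‖(Ci Φ'.u Φ'.s).comp ((A.DD f Φ.i Φ'.i x).comp (Cm Φ.u Φ.s)) - diag a b‖ < κ / 100)
    (h2 : ‖Ci Φ'.u Φ'.s‖ * (P.B * ‖Φ.c - A.e Φ.i x‖ + ‖A.e Φ'.i (f x) - Φ'.c‖) < κ / 100) :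
    ∃ γ > 0, ∀ g : X → X, A.Reg P g → (∀ y, dist (g y) (f y) ≤ γ) → FEdge κ g Φ Φ' := by
  obtain ⟨i, c, u, s⟩ := Φ
  obtain ⟨j, c', u', s'⟩ := Φ'
  simp only [Chart.i, Chart.c, Chart.u, Chart.s] at hxi hx1 hyj hy1 hr hBr h1 h2
  have hL : 0 < A.L := lt_of_lt_of_le one_pos A.one_le_L
  have hB : 0 ≤ P.B := le_trans zero_le_one P.one_le_B
  obtain ⟨t₁, ht₁, H₁⟩ := exists_margin h1
    (mul_nonneg (norm_nonneg (Ci u' s')) (norm_nonneg (Cm u s)))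
  obtain ⟨t₂, ht₂, H₂⟩ := exists_margin h2 (mul_nonneg (norm_nonneg (Ci u' s')) hL.le)
  obtain ⟨γ₁, hγ₁, hD⟩ := A.DD_close P ht₁
  have hgx : A.Gd i x := ⟨hxi, by linarith⟩
  have hgy : A.Gd j (f x) := ⟨hyj, by linarith⟩
  set r := ‖c - A.e i x‖ + ‖Cm u s‖ with hrdef
  have hw : ∀ v : V, ‖v‖ ≤ 1 → ‖c + Cm u s v - A.e i x‖ ≤ r := by
    intro v hv
    have e1 : c + Cm u s v - A.e i x = (c - A.e i x) + Cm u s v := by abel
    have e2 : ‖Cm u s v‖ ≤ ‖Cm u s‖ := by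
      calc ‖Cm u s v‖ ≤ ‖Cm u s‖ * ‖v‖ := (Cm u s).le_opNorm v
        _ ≤ ‖Cm u s‖ * 1 := mul_le_mul_of_nonneg_left hv (norm_nonneg _)
        _ = ‖Cm u s‖ := mul_one _
    rw [e1]
    exact (norm_add_le _ _).trans (by linarith)
  have hball : ∀ v : V, ‖v‖ ≤ 1 → c + Cm u s v ∈ ball (A.e i x) P.ρ := by
    intro v hv
    rw [mem_ball, dist_eq_norm]
    exact (hw v hv).trans_lt hr
  have hn2 : ∀ v : V, ‖v‖ ≤ 1 → ‖c + Cm u s v‖ < 2 := by
    intro v hv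
    have e1 : c + Cm u s v = (c + Cm u s v - A.e i x) + A.e i x := by abel
    have e2 := norm_add_le (c + Cm u s v - A.e i x) (A.e i x)
    rw [← e1] at e2
    have e3 := hw v hv
    have e4 := P.ρ_le
    linarith
  have hrep0 : A.rep f i j (A.e i x) = A.e j (f x) := by
    simp only [Atlas.rep, (A.e i).left_inv hxi]
  have hlip : ∀ v : V, ‖v‖ ≤ 1 →
      ‖A.rep f i j (c + Cm u s v) - A.e j (f x)‖ ≤ P.B * ‖c + Cm u s v - A.e i x‖ := by
    intro v hv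
    rw [← hrep0]
    exact hf.rep_lip hgx hgy _ (hball v hv) _ (mem_ball_self P.ρ_pos)
  refine ⟨min γ₁ (min t₂ (1 / (4 * A.L))), by positivity, fun g hg hclose => ?_⟩
  set γ := min γ₁ (min t₂ (1 / (4 * A.L))) with hγ
  have hγ1 : γ ≤ γ₁ := min_le_left _ _
  have hγ2 : γ ≤ t₂ := (min_le_right _ _).trans (min_le_left _ _)
  have hγ3 : γ ≤ 1 / (4 * A.L) := (min_le_right _ _).trans (min_le_right _ _)
  have hγ4 : A.L * γ ≤ 1 / 4 := by
    calc A.L * γ ≤ A.L * (1 / (4 * A.L)) := mul_le_mul_of_nonneg_left hγ3 hL.le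
      _ = 1 / 4 := by field_simp
  have hγ5 : γ < A.L⁻¹ := by
    refine hγ3.trans_lt ?_
    rw [one_div]
    exact inv_strictAnti₀ hL (by linarith)
  have key : ∀ v : V, ‖v‖ ≤ 1 →
      A.Gd i ((A.e i).symm (c + Cm u s v)) ∧
      A.e i ((A.e i).symm (c + Cm u s v)) = c + Cm u s v ∧
      A.Gd j (f ((A.e i).symm (c + Cm u s v))) ∧ A.Gd j (g ((A.e i).symm (c + Cm u s v))) ∧
      ‖A.rep g i j (c + Cm u s v) - A.rep f i j (c + Cm u s v)‖ ≤ A.L * γ := by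
    intro v hv
    obtain ⟨m1, m2⟩ := A.symm_mem i (v := c + Cm u s v) (by linarith [hn2 v hv])
    have m3 : f ((A.e i).symm (c + Cm u s v)) ∈ (A.e j).source :=
      (hf.2 i j x hgx hgy).1 _ (hball v hv)
    have m4 : ‖A.rep f i j (c + Cm u s v)‖ < 3 / 2 := by
      have e1 : A.rep f i j (c + Cm u s v) =
          (A.rep f i j (c + Cm u s v) - A.e j (f x)) + A.e j (f x) := by abel
      have e2 := norm_add_le (A.rep f i j (c + Cm u s v) - A.e j (f x)) (A.e j (f x))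
      rw [← e1] at e2
      have e3 := hlip v hv
      have e4 := mul_le_mul_of_nonneg_left (hw v hv) hB
      linarith
    have m4' : ‖A.e j (f ((A.e i).symm (c + Cm u s v)))‖ < 2 := by
      have := m4
      simp only [Atlas.rep] at this
      linarith
    have m5 : g ((A.e i).symm (c + Cm u s v)) ∈ (A.e j).source := by
      refine A.leb j _ m3 m4' _ ?_
      rw [dist_comm]
      exact (hclose _).trans_lt hγ5
    have m6 : ‖A.rep g i j (c + Cm u s v) - A.rep f i j (c + Cm u s v)‖ ≤ A.L * γ :=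
      (A.lip_low j _ m5 _ m3).trans (mul_le_mul_of_nonneg_left (hclose _) hL.le)
    refine ⟨⟨m1, by rw [m2]; exact hn2 v hv⟩, m2, ⟨m3, m4'⟩, ⟨m5, ?_⟩, m6⟩
    have e1 : A.rep g i j (c + Cm u s v) =
        (A.rep g i j (c + Cm u s v) - A.rep f i j (c + Cm u s v)) + A.rep f i j (c + Cm u s v) := by
      abel
    have e2 := norm_add_le (A.rep g i j (c + Cm u s v) - A.rep f i j (c + Cm u s v))
      (A.rep f i j (c + Cm u s v))
    rw [← e1] at e2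
    change ‖A.rep g i j (c + Cm u s v)‖ < 2
    linarith
  refine ⟨fun v hv => (key v hv).2.2.2.1, a, b, ha, hb, ?_, fun v hv => ?_⟩
  · change ‖Ci u' s' (A.rep g i j (c + Cm u s 0) - c')‖ ≤ κ / 100
    have h0 : ‖(0 : V)‖ ≤ 1 := by simp
    have e1 := (key 0 h0).2.2.2.2
    have e2 := hlip 0 h0
    have e3 : c + Cm u s 0 - A.e i x = c - A.e i x := by simp
    rw [e3] at e2
    have e4 : A.rep g i j (c + Cm u s 0) - c' =
        (A.rep g i j (c + Cm u s 0) - A.rep f i j (c + Cm u s 0)) +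
        (A.rep f i j (c + Cm u s 0) - A.e j (f x)) + (A.e j (f x) - c') := by abel
    have e5 : ‖A.rep g i j (c + Cm u s 0) - c'‖ ≤
        A.L * γ + P.B * ‖c - A.e i x‖ + ‖A.e j (f x) - c'‖ := by
      rw [e4]
      exact norm_add₃_le.trans (by linarith)
    have e6 := (Ci u' s').le_opNorm (A.rep g i j (c + Cm u s 0) - c')
    have e7 := mul_le_mul_of_nonneg_left e5 (norm_nonneg (Ci u' s'))
    have e8 := H₂ γ hγ2
    nlinarith
  · obtain ⟨k1, k2, k3, k4, -⟩ := key v hv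
    have hdiff : DifferentiableAt ℝ (A.rep g i j) (c + Cm u s v) := by
      have := hg.dif.2 i j _ k1 k4
      rwa [k2] at this
    have hF : HasFDerivAt (fun v => Ci u' s' (A.rep g i j (c + Cm u s v) - c'))
        ((Ci u' s').comp ((fderiv ℝ (A.rep g i j) (c + Cm u s v)).comp (Cm u s))) v := by
      have e1 : HasFDerivAt (fun v => c + Cm u s v) (Cm u s) v :=
        (Cm u s).hasFDerivAt.const_add c
      have e2 := (hdiff.hasFDerivAt.comp v e1).sub_const c'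
      exact (Ci u' s').hasFDerivAt.comp v e2
    change DifferentiableAt ℝ (fun v => Ci u' s' (A.rep g i j (c + Cm u s v) - c')) v ∧
      ‖fderiv ℝ (fun v => Ci u' s' (A.rep g i j (c + Cm u s v) - c')) v - diag a b‖ ≤ κ / 100
    refine ⟨hF.differentiableAt, ?_⟩
    rw [hF.fderiv]
    have d1 := hD g f hg hf (fun y => (hclose y).trans hγ1) i j _ k1 k4 k3
    simp only [Atlas.DD, k2] at d1
    have d2 : ‖fderiv ℝ (A.rep f i j) (c + Cm u s v) - A.DD f i j x‖ ≤ P.B * r ^ P.α := by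
      have hC : Cr P.α P.n P.B (fderiv ℝ (A.rep f i j)) (ball (A.e i x) P.ρ) :=
        (hf.2 i j x hgx hgy).2.2.2
      refine (hC.hol.2 _ (hball v hv) _ (mem_ball_self P.ρ_pos)).trans ?_
      exact mul_le_mul_of_nonneg_left
        (Real.rpow_le_rpow (norm_nonneg _) (hw v hv) P.α_pos.le) hB
    have d3 : ‖fderiv ℝ (A.rep g i j) (c + Cm u s v) - A.DD f i j x‖ ≤ t₁ + P.B * r ^ P.α := by
      have e1 : fderiv ℝ (A.rep g i j) (c + Cm u s v) - A.DD f i j x =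
          (fderiv ℝ (A.rep g i j) (c + Cm u s v) - fderiv ℝ (A.rep f i j) (c + Cm u s v)) +
          (fderiv ℝ (A.rep f i j) (c + Cm u s v) - A.DD f i j x) := by abel
      rw [e1]
      exact (norm_add_le _ _).trans (add_le_add d1 d2)
    have d4 : (Ci u' s').comp ((fderiv ℝ (A.rep g i j) (c + Cm u s v)).comp (Cm u s)) - diag a b =
        (Ci u' s').comp ((fderiv ℝ (A.rep g i j) (c + Cm u s v) - A.DD f i j x).comp (Cm u s)) +
        ((Ci u' s').comp ((A.DD f i j x).comp (Cm u s)) - diag a b) := by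
      rw [ContinuousLinearMap.sub_comp, ContinuousLinearMap.comp_sub]
      abel
    have d5 : ‖(Ci u' s').comp ((fderiv ℝ (A.rep g i j) (c + Cm u s v) - A.DD f i j x).comp
        (Cm u s))‖ ≤ ‖Ci u' s'‖ * ((t₁ + P.B * r ^ P.α) * ‖Cm u s‖) := by
      refine (ContinuousLinearMap.opNorm_comp_le _ _).trans ?_
      refine mul_le_mul_of_nonneg_left ?_ (norm_nonneg _)
      refine (ContinuousLinearMap.opNorm_comp_le _ _).trans ?_
      exact mul_le_mul_of_nonneg_right d3 (norm_nonneg _)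
    rw [d4]
    refine (norm_add_le _ _).trans ?_
    have d6 := H₁ t₁ le_rfl
    nlinarith

omit [CompactSpace X] in
theorem cont_c (A : Atlas X) : Continuous fun Φ : A.Chart => Φ.c :=
  continuous_fst.comp continuous_snd

omit [CompactSpace X] in
theorem cont_us (A : Atlas X) : Continuous fun Φ : A.Chart => (Φ.u, Φ.s) :=
  continuous_snd.comp continuous_snd

omit [CompactSpace X] in
theorem cont_Cm (A : Atlas X) : Continuous fun Φ : A.Chart => Cm Φ.u Φ.s :=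
  continuous_Cm.comp (cont_us A)

omit [CompactSpace X] in
theorem contAt_Ci (A : Atlas X) {Φ₀ : A.Chart} (h : det Φ₀.u Φ₀.s ≠ 0) :
    ContinuousAt (fun Φ : A.Chart => Ci Φ.u Φ.s) Φ₀ :=
  ContinuousAt.comp (f := fun Φ : A.Chart => (Φ.u, Φ.s)) (g := fun p : V × V => Ci p.1 p.2)
    (continuousAt_Ci h) (cont_us A).continuousAt

omit [CompactSpace X] in
theorem ev_i (A : Atlas X) (Φ₀ : A.Chart) : ∀ᶠ Φ : A.Chart in 𝓝 Φ₀, Φ.i = Φ₀.i := by
  have h : Continuous fun Φ : A.Chart => Φ.i := continuous_fst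
  exact h.continuousAt.eventually (p := fun k => k = Φ₀.i)
    ((isOpen_discrete {Φ₀.i}).mem_nhds rfl)

omit [CompactSpace X] in
theorem ev_small (A : Atlas X) {α c₀ : ℝ} (hα : 0 < α) {Φ₀ : A.Chart} (h : Φ₀.Small α c₀) :
    ∀ᶠ Φ : A.Chart in 𝓝 Φ₀, Φ.Small α c₀ := by
  obtain ⟨h1, h2, h3, h4⟩ := h
  have e1 := (cont_c A).norm.continuousAt.eventually_lt continuousAt_const h1
  have e2 := (continuous_det.comp (cont_us A)).continuousAt.eventually_ne h2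
  have e3 := (cont_Cm A).norm.continuousAt.eventually_lt continuousAt_const h3
  have e4 := ((contAt_Ci A h2).norm.mul ((cont_Cm A).norm.continuousAt.rpow_const
    (p := 1 + α) (Or.inr (by linarith)))).eventually_lt continuousAt_const h4
  filter_upwards [e1, e2, e3, e4] with Φ a1 a2 a3 a4
  exact ⟨a1, a2, a3, a4⟩

/-- the forward edge near a Lyapunov frame -/
theorem fedge_ev (A : Atlas X) (P : Par) {κ c₀ : ℝ} (hκ : 0 < κ) (hc1 : c₀ ≤ κ / (200 * P.B))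
    (hc2 : c₀ ≤ P.ρ) (hc3 : c₀ ≤ 1 / (2 * P.B)) {f : X → X} (hf : A.Reg P f) {x y : X}
    (hxy : f x = y) {i j : Fin A.N} (hxi : x ∈ (A.e i).source) (hx1 : ‖A.e i x‖ < 1)
    (hyj : y ∈ (A.e j).source) (hy1 : ‖A.e j y‖ < 1) {u s u' s' : V} {a b : ℝ}
    (hd' : det u' s' ≠ 0) (ha : 1 + κ ≤ |a|) (hb : |b| ≤ (1 + κ)⁻¹)
    (hu : A.DD f i j x u = a • u') (hs : A.DD f i j x s = b • s') (hC : ‖Cm u s‖ < c₀)
    (hI : ‖Ci u' s'‖ * ‖Cm u s‖ ^ (1 + P.α) < c₀) :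
    ∀ᶠ Φ : A.Chart × A.Chart in 𝓝 ((i, A.e i x, u, s), (j, A.e j y, u', s')),
      ∃ γ > 0, ∀ g : X → X, A.Reg P g → (∀ y, dist (g y) (f y) ≤ γ) → FEdge κ g Φ.1 Φ.2 := by
  subst hxy
  have hB : 0 < P.B := lt_of_lt_of_le one_pos P.one_le_B
  set Φ₀ : A.Chart × A.Chart := ((i, A.e i x, u, s), (j, A.e j (f x), u', s')) with hΦ₀
  have c1 : ContinuousAt (fun Φ : A.Chart × A.Chart => ‖Φ.1.c - A.e i x‖) Φ₀ :=
    (((cont_c A).comp continuous_fst).sub continuous_const).norm.continuousAt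
  have c2 : ContinuousAt (fun Φ : A.Chart × A.Chart => Cm Φ.1.u Φ.1.s) Φ₀ :=
    ((cont_Cm A).comp continuous_fst).continuousAt
  have c3 : ContinuousAt (fun Φ : A.Chart × A.Chart => Ci Φ.2.u Φ.2.s) Φ₀ :=
    ContinuousAt.comp (f := fun Φ : A.Chart × A.Chart => Φ.2)
      (g := fun Φ : A.Chart => Ci Φ.u Φ.s) (contAt_Ci A hd') continuousAt_snd
  have c4 : ContinuousAt (fun Φ : A.Chart × A.Chart => ‖A.e j (f x) - Φ.2.c‖) Φ₀ :=
    (continuous_const.sub ((cont_c A).comp continuous_snd)).norm.continuousAt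
  have c5 := c1.add c2.norm
  have z1 : ‖Φ₀.1.c - A.e i x‖ = 0 := by simp [hΦ₀, Chart.c]
  have z2 : ‖A.e j (f x) - Φ₀.2.c‖ = 0 := by simp [hΦ₀, Chart.c]
  have z3 : Cm Φ₀.1.u Φ₀.1.s = Cm u s := rfl
  have z4 : Ci Φ₀.2.u Φ₀.2.s = Ci u' s' := rfl
  have z5 : (Ci u' s').comp ((A.DD f i j x).comp (Cm u s)) = diag a b := by
    refine ContinuousLinearMap.ext fun v => ?_
    have e1 : A.DD f i j x (Cm u s v) = Cm u' s' (diag a b v) := by
      rw [Cm_apply, Cm_apply, diag_apply, map_add, map_smul, map_smul, hu, hs, smul_smul,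
        smul_smul, mul_comm v.1, mul_comm v.2]
    simp only [ContinuousLinearMap.comp_apply, e1, Ci_Cm hd']
  have e1 : ∀ᶠ Φ : A.Chart × A.Chart in 𝓝 Φ₀, Φ.1.i = i :=
    continuousAt_fst.eventually (ev_i A Φ₀.1)
  have e2 : ∀ᶠ Φ : A.Chart × A.Chart in 𝓝 Φ₀, Φ.2.i = j :=
    continuousAt_snd.eventually (ev_i A Φ₀.2)
  have e3 : ∀ᶠ Φ : A.Chart × A.Chart in 𝓝 Φ₀,
      ‖Φ.1.c - A.e i x‖ + ‖Cm Φ.1.u Φ.1.s‖ < P.ρ := by
    refine c5.eventually_lt continuousAt_const ?_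
    simp only [Pi.add_apply, z1, z3]
    linarith
  have e4 : ∀ᶠ Φ : A.Chart × A.Chart in 𝓝 Φ₀,
      P.B * (‖Φ.1.c - A.e i x‖ + ‖Cm Φ.1.u Φ.1.s‖) < 1 / 2 := by
    refine (continuousAt_const.mul c5).eventually_lt continuousAt_const ?_
    simp only [Pi.add_apply, Pi.mul_apply, z1, z3, zero_add]
    calc P.B * ‖Cm u s‖ < P.B * (1 / (2 * P.B)) := mul_lt_mul_of_pos_left (hC.trans_le hc3) hB
      _ = 1 / 2 := by field_simp
  have e5 : ∀ᶠ Φ : A.Chart × A.Chart in 𝓝 Φ₀,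
      ‖Ci Φ.2.u Φ.2.s‖ * (P.B * (‖Φ.1.c - A.e i x‖ + ‖Cm Φ.1.u Φ.1.s‖) ^ P.α) *
        ‖Cm Φ.1.u Φ.1.s‖ +
      ‖(Ci Φ.2.u Φ.2.s).comp ((A.DD f i j x).comp (Cm Φ.1.u Φ.1.s)) - diag a b‖ < κ / 100 := by
    refine (((c3.norm.mul (continuousAt_const.mul (c5.rpow_const (p := P.α)
      (Or.inr P.α_pos.le)))).mul c2.norm).add ((c3.clm_comp (continuousAt_const.clm_comp c2)).sub
      continuousAt_const).norm).eventually_lt continuousAt_const ?_
    simp only [Pi.add_apply, Pi.mul_apply, Pi.sub_apply, z1, z3, z4, z5, zero_add, sub_self,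
      norm_zero, add_zero]
    have p1 : ‖Cm u s‖ ^ (1 + P.α) = ‖Cm u s‖ * ‖Cm u s‖ ^ P.α := by
      rw [Real.rpow_add' (norm_nonneg _) (by linarith [P.α_pos]), Real.rpow_one]
    have p2 : P.B * (‖Ci u' s'‖ * ‖Cm u s‖ ^ (1 + P.α)) < P.B * (κ / (200 * P.B)) :=
      mul_lt_mul_of_pos_left (hI.trans_le hc1) hB
    have p3 : P.B * (κ / (200 * P.B)) = κ / 200 := by field_simp
    rw [p3, p1] at p2
    nlinarith
  have e6 : ∀ᶠ Φ : A.Chart × A.Chart in 𝓝 Φ₀,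
      ‖Ci Φ.2.u Φ.2.s‖ * (P.B * ‖Φ.1.c - A.e i x‖ + ‖A.e j (f x) - Φ.2.c‖) < κ / 100 := by
    refine (c3.norm.mul ((continuousAt_const.mul c1).add c4)).eventually_lt continuousAt_const ?_
    simp only [Pi.add_apply, Pi.mul_apply, z1, z2, mul_zero, add_zero]
    linarith
  filter_upwards [e1, e2, e3, e4, e5, e6] with Φ a1 a2 a3 a4 a5 a6
  subst a1 a2
  exact fedge_of A P hf Φ.1 Φ.2 hxi hx1 hyj hy1 ha hb a3 a4 a5 a6

end REdgeAux

namespace Atlas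

/-- Lyapunov frames give robust edges, in an open way -/
theorem redge (A : Atlas X) (P : Par) {κ : ℝ} (hκ : 0 < κ) (hκ1 : κ ≤ 1) : ∃ c₁ > 0,
    ∀ c₀ ≤ c₁, ∀ f : X ≃ₜ X, A.Good P f → ∀ (x : X) (u s u' s' : V) (a b : ℝ),
      det u s ≠ 0 → det u' s' ≠ 0 → 1 + κ ≤ |a| → b ≠ 0 → |b| ≤ (1 + κ)⁻¹ →
      A.D f x u = a • u' → A.D f x s = b • s' → ‖Cm u s‖ < c₀ → ‖Cm u' s'‖ < c₀ →
      ‖Ci u s‖ * ‖Cm u s‖ ^ (1 + P.α) < c₀ → ‖Ci u' s'‖ * ‖Cm u' s'‖ ^ (1 + P.α) < c₀ →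
      ‖Ci u' s'‖ * ‖Cm u s‖ ^ (1 + P.α) < c₀ → ‖Ci u s‖ * ‖Cm u' s'‖ ^ (1 + P.α) < c₀ →
      ∀ᶠ Φ : A.Chart × A.Chart in 𝓝 ((A.idx x, A.e (A.idx x) x, u, s),
        (A.idx (f x), A.e (A.idx (f x)) (f x), u', s')), REdge P κ c₀ f Φ.1 Φ.2 := by
  have hB : 0 < P.B := lt_of_lt_of_le one_pos P.one_le_B
  have hρ := P.ρ_pos
  refine ⟨min (κ / (200 * P.B)) (min P.ρ (1 / (2 * P.B))), by positivity, ?_⟩
  intro c₀ hc f hf x u s u' s' a b hd hd' ha hb0 hb hu hs hC hC' hI1 hI2 hI3 hI4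
  have hc1 : c₀ ≤ κ / (200 * P.B) := hc.trans (min_le_left _ _)
  have hc2 : c₀ ≤ P.ρ := hc.trans ((min_le_right _ _).trans (min_le_left _ _))
  have hc3 : c₀ ≤ 1 / (2 * P.B) := hc.trans ((min_le_right _ _).trans (min_le_right _ _))
  have hκ' : 0 < 1 + κ := by linarith
  have ha0 : a ≠ 0 := by
    rintro rfl
    simp only [abs_zero] at ha
    linarith
  have hinv : ∀ v, A.DD f.symm (A.idx (f x)) (A.idx x) (f x) (A.D f x v) = v := by
    intro v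
    have h1 := congrArg (fun T : V →L[ℝ] V => T v) (hf.D_symm_iter 1 x)
    simp only [Function.iterate_one, ContinuousLinearMap.comp_apply,
      ContinuousLinearMap.id_apply] at h1
    have h2 : A.D f.symm (f x) = A.DD f.symm (A.idx (f x)) (A.idx x) (f x) := by
      simp only [Atlas.D, Homeomorph.symm_apply_apply]
    rwa [h2] at h1
  have hu' : A.DD f.symm (A.idx (f x)) (A.idx x) (f x) u' = a⁻¹ • u := by
    have h1 := hinv u
    rw [hu, map_smul] at h1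
    rw [← h1, smul_smul, inv_mul_cancel₀ ha0, one_smul]
  have hs' : A.DD f.symm (A.idx (f x)) (A.idx x) (f x) s' = b⁻¹ • s := by
    have h1 := hinv s
    rw [hs, map_smul] at h1
    rw [← h1, smul_smul, inv_mul_cancel₀ hb0, one_smul]
  have hbi : 1 + κ ≤ |b⁻¹| := by
    rw [abs_inv]
    exact (le_inv_comm₀ (abs_pos.mpr hb0) hκ').mp hb
  have hai : |a⁻¹| ≤ (1 + κ)⁻¹ := by
    rw [abs_inv]
    exact inv_anti₀ hκ' ha
  have E1 := REdgeAux.fedge_ev A P hκ hc1 hc2 hc3 hf.1 (x := x) rfl (A.idx_src x) (A.idx_lt x)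
    (A.idx_src (f x)) (A.idx_lt (f x)) hd' ha hb hu hs hC hI3
  have hds : det s u ≠ 0 := by
    rw [det_swap]
    exact neg_ne_zero.mpr hd
  have E2 := REdgeAux.fedge_ev A P hκ hc1 hc2 hc3 hf.2.1 (x := f x) (f.symm_apply_apply x)
    (A.idx_src (f x)) (A.idx_lt (f x)) (A.idx_src x) (A.idx_lt x) hds hbi hai hs' hu'
    (by rwa [norm_Cm_swap]) (by rwa [norm_Cm_swap, norm_Ci_swap])
  have hsw : Continuous fun Φ : A.Chart => Φ.sw := by
    unfold Chart.sw Chart.i Chart.c Chart.u Chart.s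
    fun_prop
  have hsw2 : Continuous fun Φ : A.Chart × A.Chart => (Φ.2.sw, Φ.1.sw) :=
    (hsw.comp continuous_snd).prodMk (hsw.comp continuous_fst)
  have E3 := (hsw2.continuousAt (x := ((A.idx x, A.e (A.idx x) x, u, s),
        (A.idx (f x), A.e (A.idx (f x)) (f x), u', s')))).eventually E2
  have S1 := REdgeAux.ev_small A P.α_pos (c₀ := c₀) (Φ₀ := (A.idx x, A.e (A.idx x) x, u, s))
    ⟨A.idx_lt x, hd, hC, hI1⟩
  have S2 := REdgeAux.ev_small A P.α_pos (c₀ := c₀)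
    (Φ₀ := (A.idx (f x), A.e (A.idx (f x)) (f x), u', s')) ⟨A.idx_lt (f x), hd', hC', hI2⟩
  have E4 := (continuousAt_fst (p := (((A.idx x, A.e (A.idx x) x, u, s),
        (A.idx (f x), A.e (A.idx (f x)) (f x), u', s')) : A.Chart × A.Chart))).eventually S1
  have E5 := (continuousAt_snd (p := (((A.idx x, A.e (A.idx x) x, u, s),
        (A.idx (f x), A.e (A.idx (f x)) (f x), u', s')) : A.Chart × A.Chart))).eventually S2
  filter_upwards [E1, E3, E4, E5] with Φ a1 a2 a3 a4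
  obtain ⟨γ₁, hγ₁, H₁⟩ := a1
  obtain ⟨γ₂, hγ₂, H₂⟩ := a2
  refine ⟨min γ₁ γ₂, lt_min hγ₁ hγ₂, fun g hg hn => ⟨a3, a4, ?_, ?_⟩⟩
  · exact H₁ g hg.1 fun y => (hn y).1.trans (min_le_left _ _)
  · exact H₂ g.symm hg.2.1 fun y => (hn y).2.trans (min_le_right _ _)

end Atlas

end Pool.Agent.Lib.MP_901be3_an.Hd
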