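import Pool.Agent.Lib.MP_901be3_an.Hd.Katok
import Pool.Agent.Lib.MP_901be3_an.Hd.AtLip
import Pool.Agent.Lib.MP_901be3_an.Hd.AtIter

namespace Pool.Agent.Lib.MP_901be3_an.Hd

open MeasureTheory Filter Topology Metric Set
open scoped ENNReal

namespace RuelleAux

theorem tree {X κ : Type*} (M : κ → Finset κ) (m : ℕ) :
    ∀ (a : κ) (S : Finset X) (w : X → ℕ → κ), (∀ x ∈ S, w x 0 = a) →
      (∀ x ∈ S, ∀ j, w x (j + 1) ∈ M (w x j)) →
      (∀ x ∈ S, ∀ y ∈ S, (∀ j ≤ m, w x j = w y j) → x = y) →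
      ∑ x ∈ S, ∏ j ∈ Finset.range m, ((M (w x j)).card : ℝ)⁻¹ ≤ 1 := by
  classical
  induction m with
  | zero =>
    intro a S w h0 _ hi
    have h1 : S.card ≤ 1 := Finset.card_le_one.2 fun x hx y hy => hi x hx y hy fun j hj => by
      rw [Nat.le_zero.1 hj, h0 x hx, h0 y hy]
    simp only [Finset.range_zero, Finset.prod_empty, Finset.sum_const, nsmul_eq_mul, mul_one]
    exact_mod_cast h1
  | succ m ih =>
    intro a S w h0 hM hi
    have h1 : ∑ x ∈ S, ∏ j ∈ Finset.range (m + 1), ((M (w x j)).card : ℝ)⁻¹ =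
        (∑ x ∈ S, ∏ j ∈ Finset.range m, ((M (w x (j + 1))).card : ℝ)⁻¹) *
          ((M a).card : ℝ)⁻¹ := by
      rw [Finset.sum_mul]
      exact Finset.sum_congr rfl fun x hx => by rw [Finset.prod_range_succ', h0 x hx]
    have h2 : ∑ x ∈ S, ∏ j ∈ Finset.range m, ((M (w x (j + 1))).card : ℝ)⁻¹ ≤ (M a).card := by
      rw [← Finset.sum_fiberwise_of_maps_to (s := S) (t := M a) (g := fun x => w x 1)
        fun x hx => by rw [← h0 x hx]; exact hM x hx 0]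
      refine (Finset.sum_le_card_nsmul _ _ 1 fun b _ => ?_).trans (by simp)
      refine ih b _ (fun x j => w x (j + 1)) (fun x hx => (Finset.mem_filter.1 hx).2)
        (fun x hx j => hM x (Finset.mem_filter.1 hx).1 (j + 1)) fun x hx y hy hxy => ?_
      refine hi x (Finset.mem_filter.1 hx).1 y (Finset.mem_filter.1 hy).1 fun j hj => ?_
      cases j with
      | zero => rw [h0 x (Finset.mem_filter.1 hx).1, h0 y (Finset.mem_filter.1 hy).1]
      | succ j => exact hxy j (Nat.le_of_succ_le_succ hj)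
    rw [h1]
    calc _ ≤ ((M a).card : ℝ) * ((M a).card : ℝ)⁻¹ :=
          mul_le_mul_of_nonneg_right h2 (inv_nonneg.2 (Nat.cast_nonneg _))
      _ ≤ 1 := mul_inv_le_one

theorem count {X κ : Type*} (M : κ → Finset κ) (K : Finset κ) (m : ℕ) (S : Finset X)
    (w : X → ℕ → κ) (h0 : ∀ x ∈ S, w x 0 ∈ K) (hM : ∀ x ∈ S, ∀ j, w x (j + 1) ∈ M (w x j))
    (hi : ∀ x ∈ S, ∀ y ∈ S, (∀ j ≤ m, w x j = w y j) → x = y) {E : ℝ} (hE0 : 0 ≤ E)
    (hE : ∀ x ∈ S, ∏ j ∈ Finset.range m, ((M (w x j)).card : ℝ) ≤ E) :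
    (S.card : ℝ) ≤ K.card * E := by
  classical
  have h1 : ∑ x ∈ S, ∏ j ∈ Finset.range m, ((M (w x j)).card : ℝ)⁻¹ ≤ K.card := by
    rw [← Finset.sum_fiberwise_of_maps_to (s := S) (t := K) (g := fun x => w x 0) h0]
    refine (Finset.sum_le_card_nsmul _ _ 1 fun b _ => ?_).trans (by simp)
    exact tree M m b _ w (fun x hx => (Finset.mem_filter.1 hx).2)
      (fun x hx j => hM x (Finset.mem_filter.1 hx).1 j)
      fun x hx y hy hxy => hi x (Finset.mem_filter.1 hx).1 y (Finset.mem_filter.1 hy).1 hxy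
  have h2 : ∀ x ∈ S, (1 : ℝ) ≤ (∏ j ∈ Finset.range m, ((M (w x j)).card : ℝ)⁻¹) * E := by
    intro x hx
    have h3 : 0 < ∏ j ∈ Finset.range m, ((M (w x j)).card : ℝ) :=
      Finset.prod_pos fun j _ => Nat.cast_pos.2 (Finset.card_pos.2 ⟨_, hM x hx j⟩)
    rw [Finset.prod_inv_distrib, ← div_eq_inv_mul, le_div_iff₀ h3, one_mul]
    exact hE x hx
  calc (S.card : ℝ) = ∑ _x ∈ S, (1 : ℝ) := by simp
    _ ≤ ∑ x ∈ S, (∏ j ∈ Finset.range m, ((M (w x j)).card : ℝ)⁻¹) * E := Finset.sum_le_sum h2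
    _ ≤ K.card * E := by
      rw [← Finset.sum_mul]
      exact mul_le_mul_of_nonneg_right h1 hE0

theorem card_int (F : Finset ℤ) {L : ℝ} (hL : 0 ≤ L)
    (h : ∀ a ∈ F, ∀ b ∈ F, (a : ℝ) - b ≤ L + 1) : (F.card : ℝ) ≤ L + 2 := by
  rcases F.eq_empty_or_nonempty with rfl | hF
  · simp only [Finset.card_empty, Nat.cast_zero]
    linarith
  have h1 : F ⊆ Finset.Icc (F.min' hF) (F.max' hF) := fun a ha =>
    Finset.mem_Icc.2 ⟨F.min'_le a ha, F.le_max' a ha⟩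
  have h2 := Finset.card_le_card h1
  have h3 := Int.card_Icc_of_le (F.min' hF) (F.max' hF)
    ((F.min'_le_max' hF).trans (le_add_of_nonneg_right zero_le_one))
  have h4 : (F.card : ℤ) ≤ F.max' hF + 1 - F.min' hF := by
    rw [← h3]
    exact_mod_cast h2
  have h5 : (F.card : ℝ) ≤ F.max' hF + 1 - F.min' hF := by exact_mod_cast h4
  linarith [h _ (F.max'_mem hF) _ (F.min'_mem hF)]

theorem floor_sub {a b ρ R : ℝ} (hρ : 0 < ρ) (h : |a - b| ≤ R * ρ) :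
    ((⌊a / ρ⌋ : ℤ) : ℝ) - (⌊b / ρ⌋ : ℤ) ≤ R + 1 := by
  have h4 : a / ρ - b / ρ ≤ R := by
    rw [← sub_div, div_le_iff₀ hρ]
    exact (le_abs_self _).trans h
  have h5 := Int.floor_le (a / ρ)
  have h6 := Int.lt_floor_add_one (b / ρ)
  linarith

theorem unif {X : Type*} [MetricSpace X] [CompactSpace X] {T : X → X} (hc : Continuous T)
    {ε : ℝ} (hε : 0 < ε) (N : ℕ) : ∃ ρ, 0 < ρ ∧
      ∀ i < N, ∀ x y, dist x y ≤ ρ → dist (T^[i] x) (T^[i] y) < ε := by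
  induction N with
  | zero => exact ⟨1, one_pos, fun i hi => absurd hi (Nat.not_lt_zero i)⟩
  | succ N ih =>
    obtain ⟨ρ, h1, h3⟩ := ih
    obtain ⟨δ, h4, h5⟩ := Metric.uniformContinuous_iff_le.1
      (CompactSpace.uniformContinuous_of_continuous (hc.iterate N)) (ε / 2) (half_pos hε)
    refine ⟨min ρ δ, lt_min h1 h4, fun i hi x y hxy => ?_⟩
    rcases Nat.lt_succ_iff_lt_or_eq.1 hi with h | rfl
    · exact h3 i h x y (hxy.trans (min_le_left _ _))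
    · exact (h5 (hxy.trans (min_le_right _ _))).trans_lt (half_lt_self hε)

theorem log_add_one_le {d : ℝ} (h : 0 ≤ d) :
    Real.log (d + 1) ≤ Real.log 2 + max (Real.log d) 0 := by
  rcases le_total d 1 with h1 | h1
  · have := Real.log_le_log (by linarith) (show d + 1 ≤ 2 by linarith)
    linarith [le_max_right (Real.log d) 0]
  · have := Real.log_le_log (by linarith) (show d + 1 ≤ 2 * d by linarith)
    rw [Real.log_mul two_ne_zero (by linarith)] at this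
    linarith [le_max_left (Real.log d) 0]

theorem int_lim {X : Type*} [MeasurableSpace X] {μ : Measure X} [IsProbabilityMeasure μ]
    {d : ℕ → X → ℝ} (hm : ∀ n, Measurable (d n)) (h0 : ∀ n x, 0 ≤ d n x) {B : ℝ} (hB : 1 ≤ B)
    (hb : ∀ n x, d n x ≤ B ^ n) {l : ℝ} (hl0 : l ≤ 0)
    (hl : ∀ᵐ x ∂μ, Tendsto (fun n : ℕ => Real.log (d n x) / n) atTop (𝓝 l)) :
    Tendsto (fun n : ℕ => ∫ x, Real.log (d n x + 1) / n ∂μ) atTop (𝓝 0) := by
  have hnn : ∀ (n : ℕ) x, 0 ≤ Real.log (d n x + 1) / n := fun n x =>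
    div_nonneg (Real.log_nonneg (by linarith [h0 n x])) (Nat.cast_nonneg n)
  have h1 := tendsto_integral_of_dominated_convergence (μ := μ)
    (F := fun (n : ℕ) x => Real.log (d n x + 1) / n) (f := fun _ => (0 : ℝ))
    (fun _ => Real.log (2 * B))
    (fun n => ((((hm n).add_const 1).log).div_const _).aestronglyMeasurable)
    (integrable_const _) (fun n => ae_of_all _ fun x => ?_) ?_
  · simpa using h1
  · rw [Real.norm_of_nonneg (hnn n x)]
    rcases Nat.eq_zero_or_pos n with rfl | hn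
    · simp only [Nat.cast_zero, div_zero]
      exact Real.log_nonneg (by linarith)
    · rw [div_le_iff₀ (Nat.cast_pos.2 hn), mul_comm, ← Real.log_pow]
      refine Real.log_le_log (by linarith [h0 n x]) ?_
      have h2 : (1 : ℝ) ≤ B ^ n := one_le_pow₀ hB
      have h3 : (2 : ℝ) ≤ 2 ^ n := le_self_pow₀ one_le_two hn.ne'
      rw [mul_pow]
      nlinarith [hb n x]
  · filter_upwards [hl] with x hx
    have h2 : Tendsto (fun n : ℕ => Real.log 2 / n + max (Real.log (d n x) / n) 0) atTop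
        (𝓝 (0 + max l 0)) :=
      (tendsto_const_div_atTop_nhds_zero_nat _).add (hx.max tendsto_const_nhds)
    rw [max_eq_right hl0, add_zero] at h2
    refine squeeze_zero (fun n => hnn n x) (fun n => ?_) h2
    have h3 : max (Real.log (d n x) / n) 0 = max (Real.log (d n x)) 0 / n := by
      rw [← max_div_div_right (Nat.cast_nonneg n), zero_div]
    rw [h3, ← add_div]
    exact div_le_div_of_nonneg_right (log_add_one_le (h0 n x)) (Nat.cast_nonneg n)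

theorem markov {X : Type*} [MeasurableSpace X] {μ : Measure X} [IsProbabilityMeasure μ]
    {T : X → X} (hT : MeasurePreserving T μ μ) {φ : X → ℝ} (hm : Measurable φ)
    (h0 : ∀ x, 0 ≤ φ x) (hi : Integrable φ μ) {δ : ℝ} (hδ : 0 < δ) {m : ℕ} (hm0 : 0 < m) :
    MeasurableSet {x | ∑ j ∈ Finset.range m, φ (T^[j] x) < m * ((∫ x, φ x ∂μ + 1) / δ)} ∧
      1 - δ ≤ μ.real {x | ∑ j ∈ Finset.range m, φ (T^[j] x) < m * ((∫ x, φ x ∂μ + 1) / δ)} := by
  have h1 : Measurable fun x => ∑ j ∈ Finset.range m, φ (T^[j] x) :=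
    Finset.measurable_sum _ fun j _ => hm.comp (hT.iterate j).measurable
  have h2 := measurableSet_lt h1 (measurable_const (a := m * ((∫ x, φ x ∂μ + 1) / δ)))
  refine ⟨h2, ?_⟩
  have h3 : ∀ j ∈ Finset.range m, Integrable (fun x => φ (T^[j] x)) μ := fun j _ =>
    (hT.iterate j).integrable_comp_of_integrable hi
  have h4 : ∀ j ∈ Finset.range m, ∫ x, φ (T^[j] x) ∂μ = ∫ x, φ x ∂μ := fun j _ => by
    have h5 := integral_map (hT.iterate j).measurable.aemeasurable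
      (f := φ) (μ := μ) hm.aestronglyMeasurable
    rw [(hT.iterate j).map_eq] at h5
    exact h5.symm
  have h5 := mul_meas_ge_le_integral_of_nonneg (μ := μ)
    (f := fun x => ∑ j ∈ Finset.range m, φ (T^[j] x))
    (ae_of_all _ fun x => Finset.sum_nonneg fun j _ => h0 _) (integrable_finsetSum _ h3)
    (m * ((∫ x, φ x ∂μ + 1) / δ))
  rw [integral_finsetSum _ h3, Finset.sum_congr rfl h4, Finset.sum_const, Finset.card_range,
    nsmul_eq_mul] at h5
  have h6 := probReal_compl_eq_one_sub (μ := μ) h2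
  have h7 : {x | ∑ j ∈ Finset.range m, φ (T^[j] x) < m * ((∫ x, φ x ∂μ + 1) / δ)}ᶜ =
      {x | m * ((∫ x, φ x ∂μ + 1) / δ) ≤ ∑ j ∈ Finset.range m, φ (T^[j] x)} := by
    ext x
    simp only [mem_compl_iff, mem_ofPred_eq, not_lt]
  rw [h7] at h6
  rw [h6, mul_assoc] at h5
  have h8 := le_of_mul_le_mul_left h5 (Nat.cast_pos.2 hm0)
  have hI : 0 ≤ ∫ x, φ x ∂μ := integral_nonneg h0
  rw [div_mul_eq_mul_div, div_le_iff₀ hδ] at h8
  by_contra hc
  push Not at hc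
  nlinarith

variable {X : Type*} [MetricSpace X] [MeasurableSpace X]

/-- the grid cell of a point -/
noncomputable def cell (A : Atlas X) (ρ : ℝ) (x : X) : Fin A.N × ℤ × ℤ :=
  (A.idx x, ⌊(A.e (A.idx x) x).1 / ρ⌋, ⌊(A.e (A.idx x) x).2 / ρ⌋)

theorem cell_mem (A : Atlas X) {ρ : ℝ} (hρ : 0 < ρ) (x : X) :
    cell A ρ x ∈ (Finset.univ ×ˢ Finset.Icc ⌊-1 / ρ⌋ ⌊1 / ρ⌋ ×ˢ Finset.Icc ⌊-1 / ρ⌋ ⌊1 / ρ⌋ :
      Finset (Fin A.N × ℤ × ℤ)) := by
  have h1 := abs_le.1 ((norm_fst_le (A.e (A.idx x) x)).trans (A.idx_lt x).le)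
  have h2 := abs_le.1 ((norm_snd_le (A.e (A.idx x) x)).trans (A.idx_lt x).le)
  simp only [cell, Finset.mem_product, Finset.mem_univ, Finset.mem_Icc, true_and]
  exact ⟨⟨Int.floor_mono (div_le_div_of_nonneg_right h1.1 hρ.le),
    Int.floor_mono (div_le_div_of_nonneg_right h1.2 hρ.le)⟩,
    Int.floor_mono (div_le_div_of_nonneg_right h2.1 hρ.le),
    Int.floor_mono (div_le_div_of_nonneg_right h2.2 hρ.le)⟩

theorem cell_eq (A : Atlas X) {ρ : ℝ} (hρ : 0 < ρ) {x y : X} (h : cell A ρ x = cell A ρ y) :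
    A.idx x = A.idx y ∧ ‖A.e (A.idx y) x - A.e (A.idx y) y‖ < ρ := by
  obtain ⟨h1, h2⟩ := Prod.mk.inj h
  obtain ⟨h2, h3⟩ := Prod.mk.inj h2
  rw [h1] at h2 h3
  have h4 := Int.abs_sub_lt_one_of_floor_eq_floor h2
  have h5 := Int.abs_sub_lt_one_of_floor_eq_floor h3
  rw [← sub_div, abs_div, abs_of_pos hρ, div_lt_one hρ] at h4 h5
  exact ⟨h1, max_lt h4 h5⟩

theorem cell_dist (A : Atlas X) {ρ : ℝ} (hρ : 0 < ρ) {x y : X} (h : cell A ρ x = cell A ρ y) :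
    dist x y ≤ A.L * ρ := by
  obtain ⟨h1, h2⟩ := cell_eq A hρ h
  exact (A.lip_up _ x (h1 ▸ A.idx_src x) y (A.idx_src y)).trans
    (mul_le_mul_of_nonneg_left h2.le (zero_le_one.trans A.one_le_L))

theorem cell_card (A : Atlas X) {ρ : ℝ} (hρ : 0 < ρ) (F : Finset (Fin A.N × ℤ × ℤ)) {R : ℝ}
    (hR : 0 ≤ R)
    (hF : ∀ a ∈ F, ∀ b ∈ F, ∃ x y, cell A ρ x = a ∧ cell A ρ y = b ∧ dist x y ≤ R * ρ) :
    (F.card : ℝ) ≤ A.N * (A.L * R + 2) ^ 2 := by
  have hL : 0 ≤ A.L := zero_le_one.trans A.one_le_L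
  rw [Finset.card_eq_sum_card_fiberwise (s := F) (t := Finset.univ) (f := fun a => a.1)
    fun _ _ => Finset.mem_coe.2 (Finset.mem_univ _), Nat.cast_sum]
  refine (Finset.sum_le_card_nsmul _ _ ((A.L * R + 2) ^ 2) fun i _ => ?_).trans (by simp)
  set F' := F.filter fun a => a.1 = i with hF'
  have key : ∀ a ∈ F', ∀ b ∈ F', ∃ v w : V, a.2 = (⌊v.1 / ρ⌋, ⌊v.2 / ρ⌋) ∧
      b.2 = (⌊w.1 / ρ⌋, ⌊w.2 / ρ⌋) ∧ ‖v - w‖ ≤ A.L * R * ρ := by
    intro a ha b hb
    obtain ⟨ha1, ha2⟩ := Finset.mem_filter.1 ha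
    obtain ⟨hb1, hb2⟩ := Finset.mem_filter.1 hb
    obtain ⟨x, y, rfl, rfl, hxy⟩ := hF a ha1 b hb1
    have h1 : A.idx x = A.idx y := ha2.trans hb2.symm
    refine ⟨A.e (A.idx x) x, A.e (A.idx y) y, rfl, rfl, ?_⟩
    rw [h1, mul_assoc]
    exact (A.lip_low _ x (h1 ▸ A.idx_src x) y (A.idx_src y)).trans
      (mul_le_mul_of_nonneg_left hxy hL)
  have h1 : F'.card ≤ ((F'.image fun a => a.2.1) ×ˢ (F'.image fun a => a.2.2)).card := by
    refine Finset.card_le_card_of_injOn (fun a => a.2) (fun a ha => ?_) fun a ha b hb hab => ?_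
    · exact Finset.mem_coe.2 (Finset.mem_product.2
        ⟨Finset.mem_image_of_mem _ ha, Finset.mem_image_of_mem _ ha⟩)
    · exact Prod.ext ((Finset.mem_filter.1 ha).2.trans (Finset.mem_filter.1 hb).2.symm) hab
  rw [Finset.card_product] at h1
  have h2 : ((F'.image fun a => a.2.1).card : ℝ) ≤ A.L * R + 2 := by
    refine card_int _ (mul_nonneg hL hR) fun p hp q hq => ?_
    obtain ⟨a, ha, rfl⟩ := Finset.mem_image.1 hp
    obtain ⟨b, hb, rfl⟩ := Finset.mem_image.1 hq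
    obtain ⟨v, w, h3, h4, h5⟩ := key a ha b hb
    rw [h3, h4]
    exact floor_sub hρ ((norm_fst_le (v - w)).trans h5)
  have h3 : ((F'.image fun a => a.2.2).card : ℝ) ≤ A.L * R + 2 := by
    refine card_int _ (mul_nonneg hL hR) fun p hp q hq => ?_
    obtain ⟨a, ha, rfl⟩ := Finset.mem_image.1 hp
    obtain ⟨b, hb, rfl⟩ := Finset.mem_image.1 hq
    obtain ⟨v, w, h3, h4, h5⟩ := key a ha b hb
    rw [h3, h4]
    exact floor_sub hρ ((norm_snd_le (v - w)).trans h5)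
  have h4 : (F'.card : ℝ) ≤ ((F'.image fun a => a.2.1).card : ℝ) *
      ((F'.image fun a => a.2.2).card : ℝ) := by exact_mod_cast h1
  rw [sq]
  exact h4.trans (mul_le_mul h2 h3 (Nat.cast_nonneg _) (by positivity))

theorem cell_image (A : Atlas X) {P : Par} {G : X → X} (hG : A.Reg P G) {ρ : ℝ} (hρ : 0 < ρ)
    (hρ1 : ρ ≤ P.ρ) (hρ2 : P.B * ρ ^ P.α ≤ 1) {x y z : X} (hy : cell A ρ y = cell A ρ x)
    (hz : cell A ρ z = cell A ρ x) : dist (G y) (G z) ≤ A.L * (‖A.D G x‖ + 1) * ρ := by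
  have hL : 0 ≤ A.L := zero_le_one.trans A.one_le_L
  have hB : 0 ≤ P.B := zero_le_one.trans P.one_le_B
  obtain ⟨h1, h2⟩ := hG.2 _ _ x (A.gd_idx x) (A.gd_idx (G x))
  obtain ⟨hy1, hy2⟩ := cell_eq A hρ hy
  obtain ⟨hz1, hz2⟩ := cell_eq A hρ hz
  obtain ⟨-, hyz⟩ := cell_eq A hρ (hy.trans hz.symm)
  rw [hz1] at hyz
  have hsub : ball (A.e (A.idx x) x) ρ ⊆ ball (A.e (A.idx x) x) P.ρ := ball_subset_ball hρ1
  have hys : y ∈ (A.e (A.idx x)).source := hy1 ▸ A.idx_src y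
  have hzs : z ∈ (A.e (A.idx x)).source := hz1 ▸ A.idx_src z
  have hyb : A.e (A.idx x) y ∈ ball (A.e (A.idx x) x) ρ := mem_ball_iff_norm.2 hy2
  have hzb : A.e (A.idx x) z ∈ ball (A.e (A.idx x) x) ρ := mem_ball_iff_norm.2 hz2
  have h3 := (convex_ball (A.e (A.idx x) x) ρ).norm_image_sub_le_of_norm_fderiv_le (𝕜 := ℝ)
    (f := A.rep G (A.idx x) (A.idx (G x))) (C := ‖A.D G x‖ + 1)
    (fun v hv => h2.2.1 v (hsub hv)) (fun v hv => ?_) hzb hyb
  · have h4 := h1 _ (hsub hyb)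
    have h5 := h1 _ (hsub hzb)
    simp only [Atlas.rep, (A.e _).left_inv hys, (A.e _).left_inv hzs] at h3 h4 h5
    refine (A.lip_up _ _ h4 _ h5).trans ?_
    rw [mul_assoc]
    exact mul_le_mul_of_nonneg_left
      (h3.trans (mul_le_mul_of_nonneg_left hyz.le (by positivity))) hL
  · have h4 := (Cr.hol h2.2.2).2 v (hsub hv) _ (mem_ball_self P.ρ_pos)
    have h5 : ‖v - A.e (A.idx x) x‖ ^ P.α ≤ ρ ^ P.α :=
      Real.rpow_le_rpow (norm_nonneg _) (mem_ball_iff_norm.1 hv).le P.α_pos.le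
    have h6 := norm_le_norm_add_norm_sub' (fderiv ℝ (A.rep G (A.idx x) (A.idx (G x))) v) (A.D G x)
    have h7 := mul_le_mul_of_nonneg_left h5 hB
    have h8 : A.D G x = fderiv ℝ (A.rep G (A.idx x) (A.idx (G x))) (A.e (A.idx x) x) := rfl
    rw [← h8] at h4
    linarith

/-- counting of separated points through the grid -/
theorem sep_count (A : Atlas X) {P : Par} {G : X → X} (hG : A.Reg P G) {ρ : ℝ} (hρ : 0 < ρ)
    (hρ1 : ρ ≤ P.ρ) (hρ2 : P.B * ρ ^ P.α ≤ 1) : ∃ K : ℝ, ∀ (m : ℕ) (S : Finset X) (E : ℝ),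
      (∀ x ∈ S, ∀ y ∈ S, (∀ j ≤ m, dist (G^[j] x) (G^[j] y) ≤ A.L * ρ) → x = y) →
      (∀ x ∈ S, ∑ j ∈ Finset.range m, Real.log (‖A.D G (G^[j] x)‖ + 1) ≤ E) →
      (S.card : ℝ) ≤ K * Real.exp (m * (9 * A.N * A.L ^ 4) + 2 * E) := by
  classical
  have hL := A.one_le_L
  set K0 : Finset (Fin A.N × ℤ × ℤ) :=
    Finset.univ ×ˢ Finset.Icc ⌊-1 / ρ⌋ ⌊1 / ρ⌋ ×ˢ Finset.Icc ⌊-1 / ρ⌋ ⌊1 / ρ⌋ with hK0
  refine ⟨K0.card, fun m S E hS hE => ?_⟩
  have hM : ∀ x, ((K0.filter fun b => ∃ y, cell A ρ y = cell A ρ x ∧ cell A ρ (G y) = b).card : ℝ)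
      ≤ Real.exp (9 * A.N * A.L ^ 4 + 2 * Real.log (‖A.D G x‖ + 1)) := by
    intro x
    have hd : 1 ≤ ‖A.D G x‖ + 1 := by linarith [norm_nonneg (A.D G x)]
    refine (cell_card A hρ _ (R := A.L * (‖A.D G x‖ + 1)) (by positivity) fun a ha b hb => ?_).trans
      ?_
    · obtain ⟨y, hy, rfl⟩ := (Finset.mem_filter.1 ha).2
      obtain ⟨z, hz, rfl⟩ := (Finset.mem_filter.1 hb).2
      exact ⟨_, _, rfl, rfl, cell_image A hG hρ hρ1 hρ2 hy hz⟩
    · have h1 : Real.exp (2 * Real.log (‖A.D G x‖ + 1)) = (‖A.D G x‖ + 1) ^ 2 := by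
        rw [two_mul, Real.exp_add, Real.exp_log (by linarith), sq]
      have h2 : 1 ≤ A.L * (A.L * (‖A.D G x‖ + 1)) :=
        one_le_mul_of_one_le_of_one_le hL (one_le_mul_of_one_le_of_one_le hL hd)
      have h3 := Real.add_one_le_exp (9 * A.N * A.L ^ 4)
      rw [Real.exp_add, h1]
      calc (A.N : ℝ) * (A.L * (A.L * (‖A.D G x‖ + 1)) + 2) ^ 2
          ≤ A.N * (3 * (A.L * (A.L * (‖A.D G x‖ + 1)))) ^ 2 := by
            gcongr
            linarith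
        _ = (9 * A.N * A.L ^ 4) * (‖A.D G x‖ + 1) ^ 2 := by ring
        _ ≤ _ := mul_le_mul_of_nonneg_right (by linarith) (by positivity)
  refine count (fun a => K0.filter fun b => ∃ y, cell A ρ y = a ∧ cell A ρ (G y) = b) K0 m S
    (fun x j => cell A ρ (G^[j] x)) (fun x _ => cell_mem A hρ _) (fun x _ j => ?_)
    (fun x hx y hy hxy => hS x hx y hy fun j hj => cell_dist A hρ (hxy j hj))
    (Real.exp_pos _).le fun x hx => ?_
  · exact Finset.mem_filter.2 ⟨cell_mem A hρ _, G^[j] x, rfl, by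
      rw [Function.iterate_succ_apply']⟩
  · refine (Finset.prod_le_prod (fun j _ => Nat.cast_nonneg _) fun j _ => hM _).trans ?_
    rw [← Real.exp_sum, Finset.sum_add_distrib, Finset.sum_const, Finset.card_range,
      nsmul_eq_mul, ← Finset.mul_sum]
    exact Real.exp_le_exp.2 (by linarith [hE x hx])

end RuelleAux

open RuelleAux in
/-- positive entropy forces a positive top exponent -/
theorem ruelle {X : Type*} [MetricSpace X] [CompactSpace X] [MeasurableSpace X] [BorelSpace X]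
    (A : Atlas X) {P : Par} {g : X ≃ₜ X} (hg : A.Good P g) {μ : Measure X}
    [IsProbabilityMeasure μ] (hμ : MeasurePreserving g μ μ) (h : 0 < ksEnt g μ) {l : ℝ}
    (hl : ∀ᵐ x ∂μ, Tendsto (fun n : ℕ => Real.log ‖A.D g^[n] x‖ / n) atTop (𝓝 l)) :
    0 < l := by
  by_contra hl0
  push Not at hl0
  obtain ⟨s, -, hs, hs'⟩ := ENNReal.lt_iff_exists_real_btwn.1 h
  rw [ENNReal.ofReal_pos] at hs
  obtain ⟨ε, hε, δ, hδ, hk⟩ := katok hμ hs.le hs'
  have hL : 0 < A.L := one_pos.trans_le A.one_le_L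
  have hme : ∀ n : ℕ, Measurable fun x => ‖A.D g^[n] x‖ := fun n =>
    (Atlas.measurable_D (g.continuous.iterate n)).norm
  have h1 := int_lim (μ := μ) (d := fun n x => ‖A.D g^[n] x‖) hme (fun _ _ => norm_nonneg _)
    P.one_le_B (fun n x => (hg.norm_D_iter n x).1) hl0 hl
  have h2 : ∀ᶠ n : ℕ in atTop, 9 * A.N * A.L ^ 4 + 2 / δ < s / 2 * n :=
    (tendsto_natCast_atTop_atTop.const_mul_atTop (half_pos hs)).eventually_gt_atTop _
  obtain ⟨N, hN1, hN2, hN⟩ := ((h1.eventually (gt_mem_nhds (show 0 < s * δ / 4 by positivity))).and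
    (h2.and (eventually_gt_atTop 0))).exists
  have hN' : (0 : ℝ) < N := Nat.cast_pos.2 hN
  rw [integral_div, div_lt_iff₀ hN'] at hN1
  obtain ⟨P', -, -, hP'⟩ := A.good_iter P N
  have hG := (hP' g hg).2
  obtain ⟨ρ₁, hρ₁, hu⟩ := unif g.continuous hε N
  have hB : 0 < P'.B := one_pos.trans_le P'.one_le_B
  have hρ₂ : 0 < P'.B⁻¹ ^ P'.α⁻¹ := Real.rpow_pos_of_pos (inv_pos.2 hB) _
  set ρ := min (min P'.ρ (P'.B⁻¹ ^ P'.α⁻¹)) (ρ₁ / A.L) with hρdef
  have hρ : 0 < ρ := lt_min (lt_min P'.ρ_pos hρ₂) (div_pos hρ₁ hL)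
  have hρa : ρ ≤ P'.ρ := (min_le_left _ _).trans (min_le_left _ _)
  have hρb : P'.B * ρ ^ P'.α ≤ 1 := by
    have h3 : ρ ^ P'.α ≤ (P'.B⁻¹ ^ P'.α⁻¹) ^ P'.α :=
      Real.rpow_le_rpow hρ.le ((min_le_left _ _).trans (min_le_right _ _)) P'.α_pos.le
    rw [Real.rpow_inv_rpow (inv_pos.2 hB).le P'.α_pos.ne'] at h3
    exact (mul_le_mul_of_nonneg_left h3 hB.le).trans_eq (mul_inv_cancel₀ hB.ne')
  have hρc : A.L * ρ ≤ ρ₁ := by
    rw [mul_comm, ← le_div_iff₀ hL]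
    exact min_le_right _ _
  obtain ⟨K, hK⟩ := sep_count A hG hρ hρa hρb
  set φ : X → ℝ := fun x => Real.log (‖A.D g^[N] x‖ + 1) with hφ
  have hφm : Measurable φ := ((hme N).add_const 1).log
  have hφ0 : ∀ x, 0 ≤ φ x := fun x =>
    Real.log_nonneg (by linarith [norm_nonneg (A.D g^[N] x)])
  have hφi : Integrable φ μ := by
    refine Integrable.of_bound hφm.aestronglyMeasurable (Real.log (P.B ^ N + 1))
      (ae_of_all _ fun x => ?_)
    rw [Real.norm_of_nonneg (hφ0 x)]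
    exact Real.log_le_log (by positivity) (by linarith [(hg.norm_D_iter N x).1])
  set η := s * N - (9 * A.N * A.L ^ 4 + 2 * ((∫ x, φ x ∂μ + 1) / δ)) with hη
  have hη0 : 0 < η := by
    have h3 : (∫ x, φ x ∂μ) / δ < s / 4 * N := by
      rw [div_lt_iff₀ hδ]
      linarith
    have h4 : 2 * ((∫ x, φ x ∂μ + 1) / δ) = 2 * ((∫ x, φ x ∂μ) / δ) + 2 / δ := by ring
    rw [hη, h4]
    linarith
  have h3 : Tendsto (fun m : ℕ => m * N) atTop atTop :=
    tendsto_atTop_mono (fun m => Nat.le_mul_of_pos_right m hN) tendsto_id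
  have h4 : ∀ᶠ m : ℕ in atTop, K < η * m :=
    (tendsto_natCast_atTop_atTop.const_mul_atTop hη0).eventually_gt_atTop _
  obtain ⟨m, hm1, hm2, hm⟩ := ((h3.eventually hk).and (h4.and (eventually_gt_atTop 0))).exists
  obtain ⟨hB1, hB2⟩ := markov (hμ.iterate N) hφm hφ0 hφi hδ hm
  obtain ⟨S, hS1, hS2, hS3⟩ := hm1 _ hB1 hB2
  have h5 := hK m S (m * ((∫ x, φ x ∂μ + 1) / δ)) (fun x hx y hy hxy => ?_)
    fun x hx => le_of_lt (hS1 (Finset.mem_coe.2 hx))
  · have h6 := hS2.trans h5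
    have h7 : s * ((m * N : ℕ) : ℝ) = η * m +
        (m * (9 * A.N * A.L ^ 4) + 2 * (m * ((∫ x, φ x ∂μ + 1) / δ))) := by
      rw [hη]
      push_cast
      ring
    rw [h7, Real.exp_add] at h6
    have h8 := le_of_mul_le_mul_right h6 (Real.exp_pos _)
    linarith [Real.add_one_le_exp (η * m)]
  · by_contra hne
    obtain ⟨j, hj, hd⟩ := hS3 x hx y hy hne
    have h6 : j / N < m := (Nat.div_lt_iff_lt_mul hN).2 hj
    have h7 := hu _ (Nat.mod_lt j hN) _ _ ((hxy _ h6.le).trans hρc)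
    rw [← Function.iterate_mul, ← Function.iterate_add_apply, ← Function.iterate_add_apply,
      Nat.mod_add_div] at h7
    exact absurd hd (not_le.2 h7)

end Pool.Agent.Lib.MP_901be3_an.Hd
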