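import Mathlib

/-!
Definitions used in the statement, part 1: Kolmogorov-Sinai entropy, periodic measures,
continuation of a periodic point.
-/

namespace Pool.Agent.Lib.MP_901be3_an.Hd

open MeasureTheory Filter Topology Set
open scoped ENNReal

/-- Shannon entropy of the finite partition into the fibres of `P`. -/
noncomputable def partEnt {X ι : Type*} [MeasurableSpace X] [Fintype ι] (μ : Measure X)
    (P : X → ι) : ℝ :=
  ∑ a, Real.negMulLog (μ.real (P ⁻¹' {a}))

/-- The `n`-name of a point: its fibres are the atoms of `P ∨ T⁻¹ P ∨ … ∨ T^{-(n-1)} P`. -/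
def name {X ι : Type*} (T : X → X) (P : X → ι) (n : ℕ) (x : X) : Fin n → ι :=
  fun j => P (T^[j] x)

/-- The entropy `h(T, μ, P)` of `T` with respect to the finite partition `P`. -/
noncomputable def partRate {X ι : Type*} [MeasurableSpace X] [Fintype ι] (T : X → X)
    (μ : Measure X) (P : X → ι) : ℝ :=
  limsup (fun n : ℕ => partEnt μ (name T P n) / n) atTop

/-- Kolmogorov-Sinai entropy `h(T, μ)`: supremum over finite measurable partitions. -/
noncomputable def ksEnt {X : Type*} [MeasurableSpace X] (T : X → X) (μ : Measure X) : ℝ≥0∞ :=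
  ⨆ (K : ℕ) (P : X → Fin K) (_ : Measurable P), ENNReal.ofReal (partRate T μ P)

/-- The probability measure equidistributed on the orbit of a point `q` with `T^N q = q`. -/
noncomputable def perMeas {X : Type*} [MeasurableSpace X] (T : X → X) (q : X) (N : ℕ) :
    Measure X :=
  (N : ℝ≥0∞)⁻¹ • ∑ i ∈ Finset.range N, Measure.dirac (T^[i] q)

/-- `q` is a fixed point of `f^N`, `N ≥ 1`, the points `c n` tend to `q`, and for large `n` the
point `c n` is the unique fixed point of `(F n)^N` in a fixed neighbourhood of `q`. -/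
def IsCont {X : Type*} [TopologicalSpace X] (f : X → X) (F : ℕ → X → X) (q : X) (N : ℕ)
    (c : ℕ → X) : Prop :=
  0 < N ∧ f^[N] q = q ∧ Tendsto c atTop (𝓝 q) ∧
    ∃ W ∈ 𝓝 q, ∀ᶠ n in atTop, ∀ z ∈ W, ((F n)^[N] z = z ↔ z = c n)

end Pool.Agent.Lib.MP_901be3_an.Hd
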