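import Pool.Agent.Lib.MP_901be3_an.Hd.SBase

/-!
The notions of the statement specialized to the model plane (used inside the proof).
-/

namespace Pool.Agent.Lib.MP_901be3_an.Hd

open MeasureTheory Filter Topology Manifold Bundle Metric Set
open scoped ENNReal

/-- The model plane. -/
abbrev E2 : Type := EuclideanSpace ℝ (Fin 2)

variable {M : Type*} [TopologicalSpace M] [ChartedSpace E2 M]

/-- The map `g` read in the charts at `x` and at `y`. -/
noncomputable def inCharts (g : M → M) (x y : M) : E2 → E2 :=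
  extChartAt (𝓡 2) y ∘ g ∘ (extChartAt (𝓡 2) x).symm

/-- `f` is of class `C^r`, `r` real or infinite: `C^j` for all integers `j ≤ r`, and if
`j < r < j + 1` the `j`-th derivative in charts is locally `(r - j)`-Hölder. -/
def IsCr (r : ℝ≥0∞) (f : M → M) : Prop :=
  (∀ j : ℕ, (j : ℝ≥0∞) ≤ r → ContMDiff (𝓡 2) (𝓡 2) j f) ∧
  ∀ j : ℕ, (j : ℝ≥0∞) < r → r < j + 1 → ∀ x : M, ∃ U ∈ 𝓝 (extChartAt (𝓡 2) x x), ∃ C : NNReal,
    HolderOnWith C (r - j).toNNReal (iteratedFDeriv ℝ j (inCharts f x (f x))) U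

/-- `F n → f` in the `C^r` topology: near every point, in charts, the derivatives of integer
order `j ≤ r` converge uniformly, and if `j < r < j + 1` the `(r - j)`-Hölder constant of the
difference of the `j`-th derivatives tends to zero. -/
def CrTendsto (r : ℝ≥0∞) (F : ℕ → M → M) (f : M → M) : Prop :=
  ∀ x : M, ∃ U ∈ 𝓝 (extChartAt (𝓡 2) x x),
    (∀ᶠ n in atTop, MapsTo (F n ∘ (extChartAt (𝓡 2) x).symm) U (extChartAt (𝓡 2) (f x)).source) ∧
    (∀ j : ℕ, (j : ℝ≥0∞) ≤ r →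
      TendstoUniformlyOn (fun n => iteratedFDeriv ℝ j (inCharts (F n) x (f x)))
        (iteratedFDeriv ℝ j (inCharts f x (f x))) atTop U) ∧
    ∀ j : ℕ, (j : ℝ≥0∞) < r → r < j + 1 → ∀ ε : NNReal, 0 < ε → ∀ᶠ n in atTop,
      HolderOnWith ε (r - j).toNNReal (iteratedFDeriv ℝ j (inCharts (F n) x (f x)) -
        iteratedFDeriv ℝ j (inCharts f x (f x))) U

variable [RiemannianBundle (fun x : M => TangentSpace (𝓡 2) x)]

/-- `λ⁺(g) = lim (1/n) log max_x ‖D_x g^n‖` (the limit exists, it is written as a limsup). -/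
noncomputable def lamPlus (g : M → M) : ℝ :=
  limsup (fun n : ℕ => Real.log (⨆ x : M, ‖mfderiv (𝓡 2) (𝓡 2) g^[n] x‖) / n) atTop

/-- The points `b s`, `s` near `0`, lie in the stable manifold of `y` for `g`, with uniform
exponential convergence in the Riemannian distance. -/
def ExpConv (g : M → M) (b : ℝ → M) (y : M) : Prop :=
  ∃ C c : ℝ, 0 < c ∧ ∃ n₀ : ℕ, ∀ᶠ s in 𝓝 (0 : ℝ), ∀ n ≥ n₀,
    riemannianEDist (𝓡 2) (g^[n] (b s)) (g^[n] y) ≤ ENNReal.ofReal (C * Real.exp (-c * n))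

/-- The unstable manifold of `x` meets the stable manifold of `y` transversally: there are arcs
`a` of the first and `b` of the second through a common point `z` with independent velocities. -/
def Transv (f : Diffeomorph (𝓡 2) (𝓡 2) M M 1) (x y : M) : Prop :=
  ∃ (z : M) (a b : ℝ → M) (va vb : E2), a 0 = z ∧ b 0 = z ∧ ContinuousAt a 0 ∧ ContinuousAt b 0 ∧
    HasDerivAt (extChartAt (𝓡 2) z ∘ a) va 0 ∧ HasDerivAt (extChartAt (𝓡 2) z ∘ b) vb 0 ∧
    LinearIndependent ℝ ![va, vb] ∧ ExpConv f.symm a x ∧ ExpConv f b y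

variable [MeasurableSpace M]

/-- Ergodic invariant probability measure with one positive and one negative Lyapunov exponent. -/
def HypErg (f : Diffeomorph (𝓡 2) (𝓡 2) M M 1) (μ : Measure M) : Prop :=
  IsProbabilityMeasure μ ∧ Ergodic f μ ∧ ∃ lp lm : ℝ, 0 < lp ∧ lm < 0 ∧ ∀ᵐ x ∂μ,
    (∃ v : TangentSpace (𝓡 2) x, Tendsto
      (fun n : ℕ => Real.log ‖mfderiv (𝓡 2) (𝓡 2) f^[n] x v‖ / n) atTop (𝓝 lp)) ∧
    ∃ v : TangentSpace (𝓡 2) x, Tendsto
      (fun n : ℕ => Real.log ‖mfderiv (𝓡 2) (𝓡 2) f^[n] x v‖ / n) atTop (𝓝 lm)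

/-- Homoclinic relation of hyperbolic ergodic measures: for all `x`, `y` in sets of full measure,
the unstable manifold of the orbit of `x` meets the stable manifold of the orbit of `y`
transversally, and the same with `x` and `y` exchanged. -/
def HRel (f : Diffeomorph (𝓡 2) (𝓡 2) M M 1) (μ ν : Measure M) : Prop :=
  HypErg f μ ∧ HypErg f ν ∧ ∃ A B : Set M, μ Aᶜ = 0 ∧ ν Bᶜ = 0 ∧ ∀ x ∈ A, ∀ y ∈ B,
    (∃ i j : ℕ, Transv f (f^[i] x) (f^[j] y)) ∧ ∃ i j : ℕ, Transv f (f^[j] y) (f^[i] x)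

/-- `μ ⪯ ν`: there are measurable sets `A`, `B` of positive measure for `μ`, `ν` such that for all
`x ∈ A`, `y ∈ B` the unstable manifold of `x` meets the stable manifold of `y` transversally. -/
def Prec (f : Diffeomorph (𝓡 2) (𝓡 2) M M 1) (μ ν : Measure M) : Prop :=
  ∃ A B : Set M, MeasurableSet A ∧ MeasurableSet B ∧ μ A ≠ 0 ∧ ν B ≠ 0 ∧
    ∀ x ∈ A, ∀ y ∈ B, Transv f x y

/-- Homoclinic relation of two hyperbolic ergodic measures: `μ ⪯ ν` and `ν ⪯ μ`. -/
def HomRel (f : Diffeomorph (𝓡 2) (𝓡 2) M M 1) (μ ν : Measure M) : Prop :=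
  HypErg f μ ∧ HypErg f ν ∧ Prec f μ ν ∧ Prec f ν μ

/-- The set `H(f, t)` of homoclinic classes of measures with entropy at least `t`. -/
def HClasses (f : Diffeomorph (𝓡 2) (𝓡 2) M M 1) (t : ℝ) : Set (Set (Measure M)) :=
  {C | (∃ μ, HypErg f μ ∧ C = {ν | Relation.EqvGen (HomRel f) μ ν}) ∧
    ENNReal.ofReal t ≤ ⨆ ν ∈ C, ksEnt f ν}

end Pool.Agent.Lib.MP_901be3_an.Hd
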