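import Pool.Agent.Lib.MP_901be3_an.Hd.SBase

/-!
Definitions used in the statement, part 2: `C^r` topology, Lyapunov exponents, homoclinic classes
of measures, on a manifold `M` modelled on a normed space `E` (the plane in the theorem) with a
Riemannian metric.
-/

namespace Pool.Agent.Lib.MP_901be3_an.Hd.St

open MeasureTheory Filter Topology Manifold Bundle Set
open scoped ENNReal

section Defs

variable (E : Type) [NormedAddCommGroup E] [NormedSpace ℝ E]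
  {M : Type*} [TopologicalSpace M] [ChartedSpace E M]

/-- The map `g` read in the charts at `x` and at `y`. -/
noncomputable def inCharts (g : M → M) (x y : M) : E → E :=
  extChartAt 𝓘(ℝ, E) y ∘ g ∘ (extChartAt 𝓘(ℝ, E) x).symm

/-- `f` is of class `C^r`, `r` real or infinite: `C^j` for all integers `j ≤ r`, and if
`j < r < j + 1` the `j`-th derivative in charts is locally `(r - j)`-Hölder. -/
def IsCr (r : ℝ≥0∞) (f : M → M) : Prop :=
  (∀ j : ℕ, (j : ℝ≥0∞) ≤ r → ContMDiff 𝓘(ℝ, E) 𝓘(ℝ, E) j f) ∧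
  ∀ j : ℕ, (j : ℝ≥0∞) < r → r < j + 1 → ∀ x : M, ∃ U ∈ 𝓝 (extChartAt 𝓘(ℝ, E) x x), ∃ C : NNReal,
    HolderOnWith C (r - j).toNNReal (iteratedFDeriv ℝ j (inCharts E f x (f x))) U

/-- `F n → f` in the `C^r` topology: near every point, in charts, the derivatives of integer
order `j ≤ r` converge uniformly, and if `j < r < j + 1` the `(r - j)`-Hölder constant of the
difference of the `j`-th derivatives tends to zero. -/
def CrTendsto (r : ℝ≥0∞) (F : ℕ → M → M) (f : M → M) : Prop :=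
  ∀ x : M, ∃ U ∈ 𝓝 (extChartAt 𝓘(ℝ, E) x x),
    (∀ᶠ n in atTop, MapsTo (F n ∘ (extChartAt 𝓘(ℝ, E) x).symm) U (extChartAt 𝓘(ℝ, E) (f x)).source) ∧
    (∀ j : ℕ, (j : ℝ≥0∞) ≤ r →
      TendstoUniformlyOn (fun n => iteratedFDeriv ℝ j (inCharts E (F n) x (f x)))
        (iteratedFDeriv ℝ j (inCharts E f x (f x))) atTop U) ∧
    ∀ j : ℕ, (j : ℝ≥0∞) < r → r < j + 1 → ∀ ε : NNReal, 0 < ε → ∀ᶠ n in atTop,
      HolderOnWith ε (r - j).toNNReal (iteratedFDeriv ℝ j (inCharts E (F n) x (f x)) -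
        iteratedFDeriv ℝ j (inCharts E f x (f x))) U

variable [RiemannianBundle (fun x : M => TangentSpace 𝓘(ℝ, E) x)]

/-- `λ⁺(g) = lim (1/n) log max_x ‖D_x g^n‖` (the limit exists, it is written as a limsup). -/
noncomputable def lamPlus (g : M → M) : ℝ :=
  limsup (fun n : ℕ => Real.log (⨆ x : M, ‖mfderiv 𝓘(ℝ, E) 𝓘(ℝ, E) g^[n] x‖) / n) atTop

/-- The points `b s`, `s` near `0`, lie in the stable manifold of `y` for `g`, with uniform
exponential convergence in the Riemannian distance. -/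
def ExpConv (g : M → M) (b : ℝ → M) (y : M) : Prop :=
  ∃ C c : ℝ, 0 < c ∧ ∃ n₀ : ℕ, ∀ᶠ s in 𝓝 (0 : ℝ), ∀ n ≥ n₀,
    riemannianEDist 𝓘(ℝ, E) (g^[n] (b s)) (g^[n] y) ≤ ENNReal.ofReal (C * Real.exp (-c * n))

/-- The unstable manifold of `x` meets the stable manifold of `y` transversally: there are arcs
`a` of the first and `b` of the second through a common point `z` with independent velocities. -/
def Transv (f : Diffeomorph 𝓘(ℝ, E) 𝓘(ℝ, E) M M 1) (x y : M) : Prop :=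
  ∃ (z : M) (a b : ℝ → M) (va vb : E), a 0 = z ∧ b 0 = z ∧ ContinuousAt a 0 ∧ ContinuousAt b 0 ∧
    HasDerivAt (extChartAt 𝓘(ℝ, E) z ∘ a) va 0 ∧ HasDerivAt (extChartAt 𝓘(ℝ, E) z ∘ b) vb 0 ∧
    LinearIndependent ℝ ![va, vb] ∧ ExpConv E f.symm a x ∧ ExpConv E f b y

variable [MeasurableSpace M]

/-- Ergodic invariant probability measure with one positive and one negative Lyapunov exponent. -/
def HypErg (f : Diffeomorph 𝓘(ℝ, E) 𝓘(ℝ, E) M M 1) (μ : Measure M) : Prop :=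
  IsProbabilityMeasure μ ∧ Ergodic f μ ∧ ∃ lp lm : ℝ, 0 < lp ∧ lm < 0 ∧ ∀ᵐ x ∂μ,
    (∃ v : TangentSpace 𝓘(ℝ, E) x, Tendsto
      (fun n : ℕ => Real.log ‖mfderiv 𝓘(ℝ, E) 𝓘(ℝ, E) f^[n] x v‖ / n) atTop (𝓝 lp)) ∧
    ∃ v : TangentSpace 𝓘(ℝ, E) x, Tendsto
      (fun n : ℕ => Real.log ‖mfderiv 𝓘(ℝ, E) 𝓘(ℝ, E) f^[n] x v‖ / n) atTop (𝓝 lm)

/-- `μ ⪯ ν`: there are measurable sets `A`, `B` of positive measure for `μ`, `ν` such that for all
`x ∈ A`, `y ∈ B` the unstable manifold of `x` meets the stable manifold of `y` transversally. -/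
def Prec (f : Diffeomorph 𝓘(ℝ, E) 𝓘(ℝ, E) M M 1) (μ ν : Measure M) : Prop :=
  ∃ A B : Set M, MeasurableSet A ∧ MeasurableSet B ∧ μ A ≠ 0 ∧ ν B ≠ 0 ∧
    ∀ x ∈ A, ∀ y ∈ B, Transv E f x y

/-- Homoclinic relation of two hyperbolic ergodic measures: `μ ⪯ ν` and `ν ⪯ μ`. -/
def HomRel (f : Diffeomorph 𝓘(ℝ, E) 𝓘(ℝ, E) M M 1) (μ ν : Measure M) : Prop :=
  HypErg E f μ ∧ HypErg E f ν ∧ Prec E f μ ν ∧ Prec E f ν μ

/-- The set `H(f, t)` of homoclinic classes of measures with entropy at least `t`. -/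
def HClasses (f : Diffeomorph 𝓘(ℝ, E) 𝓘(ℝ, E) M M 1) (t : ℝ) : Set (Set (Measure M)) :=
  {C | (∃ μ, HypErg E f μ ∧ C = {ν | Relation.EqvGen (HomRel E f) μ ν}) ∧
    ENNReal.ofReal t ≤ ⨆ ν ∈ C, ksEnt f ν}

/-- There are finitely many hyperbolic periodic orbits of `f`, with continuations `c i n` to `F n`,
such that for all large `n` every class in `H(F n, t)` contains the measure on the continuation
of one of them, whose own measure lies in a class in `H(f, t)`. -/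
def Continued (f : Diffeomorph 𝓘(ℝ, E) 𝓘(ℝ, E) M M 1)
    (F : ℕ → Diffeomorph 𝓘(ℝ, E) 𝓘(ℝ, E) M M 1) (t : ℝ) : Prop :=
  ∃ (K : ℕ) (q : Fin K → M) (N : Fin K → ℕ) (c : Fin K → ℕ → M),
    (∀ i, IsCont f (fun n => F n) (q i) (N i) (c i) ∧ HypErg E f (perMeas f (q i) (N i))) ∧
    ∀ᶠ n in atTop, ∀ D ∈ HClasses E (F n) t, ∃ i, ∃ C ∈ HClasses E f t,
      perMeas f (q i) (N i) ∈ C ∧ perMeas (F n) (c i n) (N i) ∈ D

end Defs

/-- The statement for compact smooth boundaryless manifolds modelled on `E`, with any continuous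
Riemannian metric: if `F n → f` in the `C^r` topology, `1 < r ≤ ∞`, `t > 0` and
`t > λ_min(f) / r`, then `Continued E f F t`. -/
def Statement.{u} (E : Type) [NormedAddCommGroup E] [NormedSpace ℝ E] : Prop :=
  ∀ (M : Type u) [TopologicalSpace M] [ChartedSpace E M] [IsManifold 𝓘(ℝ, E) (⊤ : ℕ∞) M]
    [CompactSpace M] [T2Space M] [MeasurableSpace M] [BorelSpace M]
    [RiemannianBundle (fun x : M => TangentSpace 𝓘(ℝ, E) x)]
    [IsContinuousRiemannianBundle E (fun x : M => TangentSpace 𝓘(ℝ, E) x)]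
    (r : ℝ≥0∞) (f : Diffeomorph 𝓘(ℝ, E) 𝓘(ℝ, E) M M 1)
    (F : ℕ → Diffeomorph 𝓘(ℝ, E) 𝓘(ℝ, E) M M 1) (t : ℝ),
    1 < r → IsCr E r f → (∀ n, IsCr E r (F n)) → CrTendsto E r (fun n => F n) f → 0 < t →
    min (lamPlus E f) (lamPlus E f.symm) * (r⁻¹).toReal < t → Continued E f F t

end Pool.Agent.Lib.MP_901be3_an.Hd.St
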