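import Pool.Agent.Lib.MP_901be3_an.Hd.PSysBasic
import Pool.Agent.Lib.MP_901be3_an.Hd.QClose
import Pool.Agent.Lib.MP_901be3_an.Hd.EntMore

namespace Pool.Agent.Lib.MP_901be3_an.Hd

open MeasureTheory Filter Topology Metric Set
open scoped ENNReal

variable {X : Type*} [MetricSpace X] [CompactSpace X] [MeasurableSpace X] [BorelSpace X]

namespace TQuadAux

theorem null_of_contr {ν : Measure X} [IsProbabilityMeasure ν] (hat : ∀ x, ν {x} = 0) {T : X → X}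
    (hT : MeasurePreserving T ν ν) {C θ : ℝ} (h0 : 0 ≤ θ) (h1 : θ < 1) {Z : Set X}
    (hZ : ∀ x ∈ Z, ∀ y ∈ Z, ∀ l, dist (T^[l] x) (T^[l] y) ≤ C * θ ^ l) : ν Z = 0 := by
  by_contra hne
  obtain ⟨x, hx⟩ := nonempty_of_measure_ne_zero hne
  obtain ⟨z, φ, hφ, hz⟩ := CompactSpace.tendsto_subseq fun l => T^[l] x
  obtain ⟨U, hU, ho, hlt⟩ := Set.exists_isOpen_lt_of_lt (μ := ν) {z} (ν Z)
    (by rw [hat]; exact pos_iff_ne_zero.2 hne)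
  obtain ⟨r, hr, hb⟩ := Metric.isOpen_iff.1 ho z (hU rfl)
  have h2 : Tendsto (fun l => C * θ ^ φ l) atTop (𝓝 (C * 0)) :=
    ((tendsto_pow_atTop_nhds_zero_of_lt_one h0 h1).comp hφ.tendsto_atTop).const_mul C
  rw [mul_zero] at h2
  obtain ⟨l, a1, a2⟩ := ((hz.eventually (ball_mem_nhds z (half_pos hr))).and
    (h2.eventually (gt_mem_nhds (half_pos hr)))).exists
  have h3 : Z ⊆ T^[φ l] ⁻¹' U := fun y hy => hb (by
    have a3 := hZ y hy x hx (φ l)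
    have a4 := dist_triangle (T^[φ l] y) (T^[φ l] x) z
    have a5 : dist (T^[φ l] x) z < r / 2 := a1
    rw [mem_ball]
    linarith)
  have h4 := measure_mono (μ := ν) h3
  rw [(hT.iterate _).measure_preimage ho.measurableSet.nullMeasurableSet] at h4
  exact absurd hlt (not_lt.2 h4)

theorem ae_between {ν : Measure X} [IsProbabilityMeasure ν] (hat : ∀ x, ν {x} = 0) {T : X → X}
    (hT : MeasurePreserving T ν ν) {C θ : ℝ} (h0 : 0 ≤ θ) (h1 : θ < 1) {Γ : Set X}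
    (φ : X → ℝ → ℝ) (a : X → ℝ) (hφ : ∀ y ∈ Γ, ContinuousOn (φ y) (Icc (-1) 1))
    (ha : ∀ x ∈ Γ, a x ∈ Icc (-1 : ℝ) 1)
    (hx : ∀ x ∈ Γ, ∀ y ∈ Γ, ∀ t ∈ Icc (-1 : ℝ) 1, φ x t = φ y t →
      ∀ l, dist (T^[l] x) (T^[l] y) ≤ C * θ ^ l) :
    ∀ᵐ x ∂ν, x ∈ Γ → (∃ y ∈ Γ, φ y (a x) < φ x (a x)) ∧ ∃ y ∈ Γ, φ x (a x) < φ y (a x) := by
  have n1 : ν {x | x ∈ Γ ∧ ∀ y ∈ Γ, φ x (a x) ≤ φ y (a x)} = 0 := by
    refine null_of_contr (C := C) hat hT h0 h1 fun x h y h' => ?_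
    obtain ⟨t, ht, e⟩ := isPreconnected_Icc.intermediate_value₂ (ha x h.1) (ha y h'.1) (hφ x h.1)
      (hφ y h'.1) (h.2 y h'.1) (h'.2 x h.1)
    exact hx x h.1 y h'.1 t ht e
  have n2 : ν {x | x ∈ Γ ∧ ∀ y ∈ Γ, φ y (a x) ≤ φ x (a x)} = 0 := by
    refine null_of_contr (C := C) hat hT h0 h1 fun x h y h' => ?_
    obtain ⟨t, ht, e⟩ := isPreconnected_Icc.intermediate_value₂ (ha x h.1) (ha y h'.1) (hφ y h'.1)
      (hφ x h.1) (h.2 y h'.1) (h'.2 x h.1)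
    exact hx x h.1 y h'.1 t ht e.symm
  filter_upwards [measure_eq_zero_iff_ae_notMem.1 n1, measure_eq_zero_iff_ae_notMem.1 n2]
    with x a1 a2 h
  constructor
  · by_contra hn
    exact a1 ⟨h, fun y hy => not_lt.1 fun e => hn ⟨y, hy, e⟩⟩
  · by_contra hn
    exact a2 ⟨h, fun y hy => not_lt.1 fun e => hn ⟨y, hy, e⟩⟩

theorem glue {Y : Type*} {E : Y → Y → Prop} {W₁ W₂ : ℕ → Y} (h1 : ∀ n, E (W₁ n) (W₁ (n + 1)))
    (h2 : ∀ n, E (W₂ n) (W₂ (n + 1))) {k : ℕ} (h : E (W₁ k) (W₂ 0)) :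
    ∃ W : ℕ → Y, (∀ n ≤ k, W n = W₁ n) ∧ (∀ n, W (k + 1 + n) = W₂ n) ∧
      ∀ n, E (W n) (W (n + 1)) := by
  refine ⟨fun n => if n ≤ k then W₁ n else W₂ (n - (k + 1)), fun n hn => if_pos hn, fun n => ?_,
    fun n => ?_⟩
  · dsimp only
    rw [if_neg (by omega), Nat.add_sub_cancel_left]
  · dsimp only
    rcases lt_trichotomy n k with e | e | e
    · rw [if_pos e.le, if_pos (Nat.succ_le_of_lt e)]
      exact h1 n
    · rw [e, if_pos le_rfl, if_neg (by omega), Nat.sub_self]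
      exact h
    · rw [if_neg (by omega), if_neg (by omega), show n + 1 - (k + 1) = n - (k + 1) + 1 by omega]
      exact h2 _

open Atlas

omit [CompactSpace X] [BorelSpace X]

variable {A : Atlas X} {P : Par} {κ c₀ : ℝ} (hκ : 0 < κ) (hκ1 : κ ≤ 1) (hc : c₀ ≤ 1 / 4)
  {f : X ≃ₜ X} (hf : A.Good P f) {ν : Measure X} (S : A.PSys P κ c₀ f ν) {j : ℕ}
  {w : ℕ → A.Chart} {N : ℕ} (hw : Loop (REdge P κ c₀ f) w N) (h0 : w 0 = S.Φ j)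
include hκ hκ1 hc hf hw h0

theorem fwd_approx {y : X} (hy : y ∈ S.Γ j) (hr : ∃ᶠ n in atTop, f^[n] y ∈ S.Γ j) {ζ : ℝ}
    (hζ : 0 < ζ) : ∃ (W : ℕ → A.Chart) (l : ℕ), W 0 = w 0 ∧
      (∀ n, REdge P κ c₀ f (W n) (W (n + 1))) ∧ (∀ n, W (l + n) = fwd w N n) ∧
      ∀ b, |b| ≤ 1 → |sg f W b - sg f (S.fp j y) b| ≤ ζ := by
  obtain ⟨n, hn⟩ := graph_close (α := P.α) A hκ hκ1 hc hζ
  obtain ⟨l, hl, hl'⟩ := frequently_atTop.1 hr (n + 2)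
  obtain ⟨k, rfl⟩ : ∃ k, l = k + 1 := ⟨l - 1, by omega⟩
  have e : REdge P κ c₀ f (S.fp j y k) (fwd w N 0) := by
    have := S.Γ_in j _ hl'
    rw [Function.iterate_succ_apply', f.symm_apply_apply] at this
    rw [fwd_zero, h0, PSys.fp, if_neg (by omega)]
    exact this
  obtain ⟨W, a1, a2, a3⟩ := glue (S.fp_spec hy).1 hw.fwd_edge e
  exact ⟨W, k + 1, (a1 0 (Nat.zero_le k)).trans h0.symm, a3, a2,
    (hn f W _ fun i hi => a1 i (by omega)).1 (fun i => (a3 i).edge hf)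
      fun i => ((S.fp_spec hy).1 i).edge hf⟩

theorem bwd_approx {y : X} (hy : y ∈ S.Γ j) (hr : ∃ᶠ n in atTop, f.symm^[n] y ∈ S.Γ j) {ζ : ℝ}
    (hζ : 0 < ζ) : ∃ (W : ℕ → A.Chart) (l : ℕ), W 0 = w 0 ∧
      (∀ n, REdge P κ c₀ f (W (n + 1)) (W n)) ∧ (∀ n, W (l + n) = bwd w N n) ∧
      ∀ a, |a| ≤ 1 → |ug f W a - ug f (S.bp j y) a| ≤ ζ := by
  obtain ⟨n, hn⟩ := graph_close (α := P.α) A hκ hκ1 hc hζ
  obtain ⟨l, hl, hl'⟩ := frequently_atTop.1 hr (n + 2)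
  obtain ⟨k, rfl⟩ : ∃ k, l = k + 1 := ⟨l - 1, by omega⟩
  have e : REdge P κ c₀ f (bwd w N 0) (S.bp j y k) := by
    have := S.Γ_out j _ hl'
    rw [Function.iterate_succ_apply', f.apply_symm_apply] at this
    rw [bwd_zero, h0, PSys.bp, if_neg (by omega)]
    exact this
  obtain ⟨W, a1, a2, a3⟩ := glue (E := fun Φ Φ' => REdge P κ c₀ f Φ' Φ) (S.bp_spec hy).1
    hw.bwd_edge e
  exact ⟨W, k + 1, (a1 0 (Nat.zero_le k)).trans h0.symm, a3, a2,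
    (hn f W _ fun i hi => a1 i (by omega)).2 (fun i => (a3 i).edge hf)
      fun i => ((S.bp_spec hy).1 i).edge hf⟩

end TQuadAux

namespace Atlas

/-- almost every point is surrounded by four graphs attached to one loop -/
theorem tquad {A : Atlas X} {P : Par} {κ c₀ : ℝ} (hκ : 0 < κ) (hκ1 : κ ≤ 1) (hc : c₀ ≤ 1 / 4)
    {f : X ≃ₜ X} (hf : A.Good P f) {ν : Measure X} [IsProbabilityMeasure ν]
    (hν : MeasurePreserving f ν ν) (hat : ∀ x, ν {x} = 0) (S : A.PSys P κ c₀ f ν) :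
    ∀ᵐ x ∂ν, ∃ (j : ℕ) (w : ℕ → A.Chart) (N : ℕ), ν (S.Γ j) ≠ 0 ∧
      Loop (REdge P κ c₀ f) w N ∧ w 0 = S.Φ j ∧ A.Quad P κ c₀ f w N x := by
  have hν' := measurePreserving_symm f hν
  have t0 : 0 ≤ 1 - κ / 3 := by linarith
  have t1 : 1 - κ / 3 < 1 := by linarith
  have hF : ∀ {j y}, y ∈ S.Γ j → FPath P.α κ c₀ f (S.fp j y) := fun hy i =>
    ((S.fp_spec hy).1 i).edge hf
  have hB : ∀ {j y}, y ∈ S.Γ j → BPath P.α κ c₀ f (S.bp j y) := fun hy i =>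
    ((S.bp_spec hy).1 i).edge hf
  let R : ℕ → Set X := fun j => {x | x ∈ S.Γ j ∧ (∃ᶠ n in atTop, f^[n] x ∈ S.Γ j) ∧
    ∃ᶠ n in atTop, f.symm^[n] x ∈ S.Γ j}
  have b1 : ∀ j, ∀ x ∈ S.Γ j, |((S.Φ j).co x).1| ≤ 1 := fun j x hx =>
    (norm_fst_le _).trans (S.Γ_box j x hx).2
  have b2 : ∀ j, ∀ x ∈ S.Γ j, |((S.Φ j).co x).2| ≤ 1 := fun j x hx =>
    (norm_snd_le _).trans (S.Γ_box j x hx).2
  have u1 := fun j => TQuadAux.ae_between (Γ := R j) (C := 4 * A.L) hat hν' t0 t1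
    (fun y => ug f (S.bp j y)) (fun x => ((S.Φ j).co x).1)
    (fun y hy => (hB hy.1).ug_cont hκ hκ1 hc) (fun x hx => abs_le.1 (b1 j x hx.1))
    fun x hx y hy t ht e l => by
      have a1 := ((hB hx.1).ug_spec hκ hκ1 hc (abs_le.2 ht)).2
      have a2 := ((hB hy.1).ug_spec hκ hκ1 hc (abs_le.2 ht)).2
      rw [e] at a1
      have a3 := (hB hx.1).contr hκ hκ1 hc (S.bp_spec hx.1).2 a1 l
      have a4 : dist (f.symm^[l] ((S.bp j x 0).pt (t, ug f (S.bp j y) t))) (f.symm^[l] y) ≤ _ :=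
        (hB hy.1).contr hκ hκ1 hc a2 (S.bp_spec hy.1).2 l
      exact (dist_triangle _ _ _).trans ((add_le_add a3 a4).trans_eq (by ring))
  have u2 := fun j => TQuadAux.ae_between (Γ := R j) (C := 4 * A.L) hat hν t0 t1
    (fun y => sg f (S.fp j y)) (fun x => ((S.Φ j).co x).2)
    (fun y hy => (hF hy.1).sg_cont hκ hκ1 hc) (fun x hx => abs_le.1 (b2 j x hx.1))
    fun x hx y hy t ht e l => by
      have a1 := ((hF hx.1).sg_spec hκ hκ1 hc (abs_le.2 ht)).2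
      have a2 := ((hF hy.1).sg_spec hκ hκ1 hc (abs_le.2 ht)).2
      rw [e] at a1
      have a3 := (hF hx.1).contr hκ hκ1 hc (S.fp_spec hx.1).2 a1 l
      have a4 : dist (f^[l] ((S.fp j x 0).pt (sg f (S.fp j y) t, t))) (f^[l] y) ≤ _ :=
        (hF hy.1).contr hκ hκ1 hc a2 (S.fp_spec hy.1).2 l
      exact (dist_triangle _ _ _).trans ((add_le_add a3 a4).trans_eq (by ring))
  have u3 : ∀ j, ∀ᵐ x ∂ν, x ∈ S.Γ j → ν (S.Γ j) ≠ 0 := fun j => by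
    by_cases h : ν (S.Γ j) = 0
    · exact (measure_eq_zero_iff_ae_notMem.1 h).mono fun x hx hx' => absurd hx' hx
    · exact Eventually.of_forall fun _ _ => h
  filter_upwards [mem_ae_iff.2 S.G_full, ae_all_iff.2 u1, ae_all_iff.2 u2, ae_all_iff.2 u3,
    ae_all_iff.2 fun j => hν.conservative.ae_mem_imp_frequently_image_mem
      (S.Γ_meas j).nullMeasurableSet,
    ae_all_iff.2 fun j => hν'.conservative.ae_mem_imp_frequently_image_mem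
      (S.Γ_meas j).nullMeasurableSet] with x hG v1 v2 v3 v4 v5
  obtain ⟨j, hx⟩ := mem_iUnion.1 (S.cover hG)
  have hR : x ∈ R j := ⟨hx, v4 j hx, v5 j hx⟩
  obtain ⟨N, hN, hN'⟩ := frequently_atTop.1 hR.2.1 2
  obtain ⟨hw, h0, -⟩ := S.lp_spec hx hN hN'
  obtain ⟨⟨yB, hyB, eB⟩, yT, hyT, eT⟩ := v1 j hR
  obtain ⟨⟨yL, hyL, eL⟩, yR, hyR, eR⟩ := v2 j hR
  have e1 : ((S.Φ j).co x).2 = ug f (S.bp j x) ((S.Φ j).co x).1 :=
    (hB hx).co_eq hκ hκ1 hc (S.bp_spec hx).2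
  have e2 : ((S.Φ j).co x).1 = sg f (S.fp j x) ((S.Φ j).co x).2 :=
    (hF hx).co_eq hκ hκ1 hc (S.fp_spec hx).2
  rw [← e1] at eB eT
  rw [← e2] at eL eR
  obtain ⟨WT, lT, T1, T2, T3, T4⟩ := TQuadAux.bwd_approx hκ hκ1 hc hf S hw h0 hyT.1 hyT.2.2
    (half_pos (sub_pos.2 eT))
  obtain ⟨WB, lB, B1, B2, B3, B4⟩ := TQuadAux.bwd_approx hκ hκ1 hc hf S hw h0 hyB.1 hyB.2.2
    (half_pos (sub_pos.2 eB))
  obtain ⟨WL, lL, L1, L2, L3, L4⟩ := TQuadAux.fwd_approx hκ hκ1 hc hf S hw h0 hyL.1 hyL.2.1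
    (half_pos (sub_pos.2 eL))
  obtain ⟨WR, lR, R1, R2, R3, R4⟩ := TQuadAux.fwd_approx hκ hκ1 hc hf S hw h0 hyR.1 hyR.2.1
    (half_pos (sub_pos.2 eR))
  have c1 := abs_le.1 (T4 _ (b1 j x hx))
  have c2 := abs_le.1 (B4 _ (b1 j x hx))
  have c3 := abs_le.1 (L4 _ (b2 j x hx))
  have c4 := abs_le.1 (R4 _ (b2 j x hx))
  refine ⟨j, _, N, v3 j hx, hw, h0, WT, WB, WL, WR, lT, lB, lL, lR, T1, B1, L1, R1, T2, B2, L2, R2,
    T3, B3, L3, R3, ?_⟩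
  rw [h0]
  exact ⟨S.Γ_box j x hx,
    inter_co hκ hκ1 hc (hB hx) (hF hx) rfl (S.bp_spec hx).2 (S.fp_spec hx).2,
    by linarith [c2.2], by linarith [c1.1], by linarith [c3.2], by linarith [c4.1]⟩

end Atlas

end Pool.Agent.Lib.MP_901be3_an.Hd
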