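import Pool.Agent.Lib.MP_901be3_an.Hd.Birk
import Pool.Agent.Lib.MP_901be3_an.Hd.EntMore

namespace Pool.Agent.Lib.MP_901be3_an.Hd

open MeasureTheory Filter Topology Metric Set
open scoped ENNReal

namespace TemperAux

theorem bdd {u : ℕ → ℝ} {ε : ℝ} (h : Tendsto (fun n : ℕ => u n / n) atTop (𝓝 0))
    (hl : 0 < ε) : BddAbove (range fun n : ℕ => u n - ε * n) := by
  refine IsBoundedUnder.bddAbove_range ⟨0, ?_⟩
  rw [eventually_map]
  filter_upwards [h.eventually (gt_mem_nhds hl), eventually_gt_atTop 0] with n h1 h2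
  rw [div_lt_iff₀ (Nat.cast_pos.2 h2)] at h1
  linarith

theorem step {Y : Type*} {T S : Y → Y} {φ : Y → ℝ} {ε : ℝ} (hε : 0 < ε) {x : Y}
    (ST : S (T x) = x) (bT : BddAbove (range fun n : ℕ => φ (T^[n] x) - ε * n))
    (bS : BddAbove (range fun n : ℕ => φ (S^[n] x) - ε * n)) :
    max (⨆ n : ℕ, (φ (T^[n] (T x)) - ε * n)) (⨆ n : ℕ, (φ (S^[n] (T x)) - ε * n)) ≤
      max (⨆ n : ℕ, (φ (T^[n] x) - ε * n)) (⨆ n : ℕ, (φ (S^[n] x) - ε * n)) + ε := by
  have a1 := le_max_left (⨆ n : ℕ, (φ (T^[n] x) - ε * n)) (⨆ n : ℕ, (φ (S^[n] x) - ε * n))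
  have a2 := le_max_right (⨆ n : ℕ, (φ (T^[n] x) - ε * n)) (⨆ n : ℕ, (φ (S^[n] x) - ε * n))
  refine max_le (ciSup_le fun n => ?_) (ciSup_le fun n => ?_)
  · have h1 := le_ciSup bT (n + 1)
    rw [Function.iterate_succ_apply] at h1
    push_cast at h1
    linarith
  · cases n with
    | zero =>
      have h1 := le_ciSup bT 1
      simp only [Function.iterate_one, Nat.cast_one, mul_one] at h1
      simp only [Function.iterate_zero_apply, Nat.cast_zero, mul_zero, sub_zero]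
      linarith
    | succ n =>
      have h1 := le_ciSup bS n
      rw [Function.iterate_succ_apply, ST]
      push_cast
      linarith

end TemperAux

open TemperAux in
/-- tempering kernel -/
theorem temper_kernel {X : Type*} [MetricSpace X] [MeasurableSpace X] [BorelSpace X]
    {μ : Measure X} [IsProbabilityMeasure μ] (g : X ≃ₜ X) (hg : Ergodic g μ) {W : X → ℝ}
    (hW : Measurable W) {B : ℝ}
    (hB : ∀ᵐ x ∂μ, 0 < W x ∧ |Real.log (W (g x)) - Real.log (W x)| ≤ B) {γ : ℝ} (hγ : 0 < γ) :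
    ∃ q : X → ℝ, Measurable q ∧ ∀ᵐ x ∂μ, 0 < q x ∧ q x * W x ≤ 1 ∧
      q (g x) ≤ Real.exp γ * q x ∧ q x ≤ Real.exp γ * q (g x) := by
  have hS := ergodic_symm g hg
  set φ : X → ℝ := fun x => Real.log (W x) with hφ
  have mφ : Measurable φ := hW.log
  have hD : ∀ᵐ x ∂μ, |φ (g x) - φ x| ≤ B := hB.mono fun _ h => h.2
  have hD' : ∀ᵐ x ∂μ, |φ (g.symm x) - φ x| ≤ B := by
    filter_upwards [hS.toMeasurePreserving.quasiMeasurePreserving.ae hD] with x hx
    rwa [g.apply_symm_apply, abs_sub_comm] at hx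
  have hb : ∀ᵐ x ∂μ, BddAbove (range fun n : ℕ => φ (g^[n] x) - γ * n) ∧
      BddAbove (range fun n : ℕ => φ (g.symm^[n] x) - γ * n) := by
    filter_upwards [tempered hg mφ hD, tempered hS mφ hD'] with x h1 h2
    exact ⟨bdd h1 hγ, bdd h2 hγ⟩
  refine ⟨fun x => Real.exp (-max (⨆ n : ℕ, (φ (g^[n] x) - γ * n))
    (⨆ n : ℕ, (φ (g.symm^[n] x) - γ * n))),
    ((Measurable.iSup fun n => (mφ.comp (g.measurable.iterate n)).sub_const _).max
      (Measurable.iSup fun n => (mφ.comp (g.symm.measurable.iterate n)).sub_const _)).neg.exp, ?_⟩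
  filter_upwards [hb, hg.toMeasurePreserving.quasiMeasurePreserving.ae hb, hB] with x h1 h2 h0
  have h3 := step hγ (g.symm_apply_apply x) h1.1 h1.2
  have h4 := step hγ (g.apply_symm_apply (g x)) h2.2 h2.1
  rw [g.symm_apply_apply, max_comm (⨆ n : ℕ, (φ (g.symm^[n] x) - γ * n)),
    max_comm (⨆ n : ℕ, (φ (g.symm^[n] (g x)) - γ * n))] at h4
  have h5 := le_ciSup h1.1 0
  simp only [Function.iterate_zero_apply, Nat.cast_zero, mul_zero, sub_zero] at h5
  refine ⟨Real.exp_pos _, ?_, ?_, ?_⟩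
  · rw [← Real.exp_log h0.1, ← Real.exp_add]
    exact Real.exp_le_one_iff.2 (by linarith [h5.trans (le_max_left _
      (⨆ n : ℕ, (φ (g.symm^[n] x) - γ * n)))])
  · rw [← Real.exp_add]
    exact Real.exp_le_exp.2 (by linarith)
  · rw [← Real.exp_add]
    exact Real.exp_le_exp.2 (by linarith)

end Pool.Agent.Lib.MP_901be3_an.Hd
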