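import Pool.Agent.Lib.MP_901be3_an.Hd.YStep

namespace Pool.Agent.Lib.MP_901be3_an.Hd

open MeasureTheory Filter Topology Metric Set
open scoped ENNReal

variable {X : Type*} [MetricSpace X] [MeasurableSpace X]

namespace YCloseAux

theorem mem_Ioo_div {s x ρ κ : ℝ} (hρ : 0 < ρ) (h : |x - s| < κ * ρ) :
    (x - s) / ρ ∈ Ioo (-κ) κ := by
  rw [mem_Ioo, ← abs_lt, abs_div, abs_of_pos hρ, div_lt_iff₀ hρ]
  exact h

theorem rp_div {Y : Type*} (σ : ℝ → Y) (s x : ℝ) {ρ : ℝ} (hρ : 0 < ρ) :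
    rp σ s ρ ((x - s) / ρ) = σ x := by
  rw [rp, mul_div_cancel₀ _ hρ.ne', add_sub_cancel]

theorem up {A : Atlas X} {P : Par} {ε : ℝ} {g : X → X} {σ : ℝ → X} {s ρ : ℝ} (hρ : 0 < ρ)
    (h : A.SG P ε (g ∘ rp σ s ρ)) {x y : ℝ} (hx : |x - s| < ρ) (hy : |y - s| < ρ) :
    dist (g (σ x)) (g (σ y)) * ρ ≤ A.L * ε * |y - x| := by
  obtain ⟨i, h1, h2⟩ := h
  have hx' : (x - s) / ρ ∈ II := mem_Ioo_div hρ (by rwa [one_mul])
  have hy' : (y - s) / ρ ∈ II := mem_Ioo_div hρ (by rwa [one_mul])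
  have h3 := norm_sub_le_of_deriv (c := A.e i ∘ g ∘ rp σ s ρ) (d := 0) (B := ε)
    (fun τ hτ => ⟨(h1 τ hτ).2, by rw [sub_zero]; exact h2.hol.1 τ hτ⟩) _ hx' _ hy'
  have h4 := A.lip_up i _ (h1 _ hx').1.1 _ (h1 _ hy').1.1
  simp only [Function.comp_apply, rp_div σ s _ hρ, smul_zero, sub_zero] at h3 h4
  rw [← sub_div, abs_div, abs_of_pos hρ, ← mul_div_assoc, le_div_iff₀ hρ, sub_sub_sub_cancel_right,
    abs_sub_comm] at h3
  have hL : 0 ≤ A.L := zero_le_one.trans A.one_le_L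
  calc _ ≤ A.L * ‖A.e i (g (σ x)) - A.e i (g (σ y))‖ * ρ := mul_le_mul_of_nonneg_right h4 hρ.le
    _ = A.L * (‖A.e i (g (σ x)) - A.e i (g (σ y))‖ * ρ) := by ring
    _ ≤ A.L * (ε * |y - x|) := mul_le_mul_of_nonneg_left h3 hL
    _ = _ := by ring

theorem exists_kappa (P : Par) {ε δ : ℝ} (hε : 0 < ε) (hδ : 0 < δ) :
    ∃ κ : ℝ, 0 < κ ∧ κ ≤ 1 ∧ ε * κ ^ P.α ≤ δ / 2 := by
  have h0 : 0 < δ / (2 * ε) := by positivity
  refine ⟨min 1 ((δ / (2 * ε)) ^ P.α⁻¹), by positivity, min_le_left _ _, ?_⟩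
  calc _ ≤ ε * ((δ / (2 * ε)) ^ P.α⁻¹) ^ P.α := mul_le_mul_of_nonneg_left
        (Real.rpow_le_rpow (by positivity) (min_le_right _ _) P.α_pos.le) hε.le
    _ = δ / 2 := by rw [Real.rpow_inv_rpow h0.le P.α_pos.ne']; field_simp

theorem low {A : Atlas X} {P : Par} {ε δ κ : ℝ} (hε : 0 < ε) (hκ : 0 < κ) (hκ1 : κ ≤ 1)
    (hκδ : ε * κ ^ P.α ≤ δ / 2) {G : X → X} {σ : ℝ → X} {x y ρ : ℝ} {m : ℕ}
    (h : A.GeoW P ε δ G σ x m ρ) (hy : |y - x| < κ * ρ) :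
    δ / 2 * |y - x| ≤ A.L * dist (G^[m] (σ x)) (G^[m] (σ y)) * ρ := by
  obtain ⟨⟨hρ, -, -⟩, i, ⟨h1, h2⟩, h3⟩ := h
  have hsub : Ioo (-κ) κ ⊆ II := Ioo_subset_Ioo (by linarith) hκ1
  have hy' := mem_Ioo_div hρ hy
  have h0 : (0 : ℝ) ∈ Ioo (-κ) κ := ⟨by linarith, hκ⟩
  have h4 := norm_sub_le_of_deriv (c := A.e i ∘ G^[m] ∘ rp σ x ρ)
    (d := deriv (A.e i ∘ G^[m] ∘ rp σ x ρ) 0) (B := δ / 2) (fun τ hτ => ⟨(h1 τ (hsub hτ)).2, by
      refine (h2.hol.2 τ (hsub hτ) 0 (hsub h0)).trans (le_trans ?_ hκδ)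
      refine mul_le_mul_of_nonneg_left (Real.rpow_le_rpow (norm_nonneg _) ?_ P.α_pos.le) hε.le
      rw [sub_zero, Real.norm_eq_abs]
      exact (abs_lt.mpr hτ).le⟩) _ hy' _ h0
  have h5 := A.lip_low i _ (h1 _ (hsub hy')).1.1 _ (h1 _ (hsub h0)).1.1
  have e0 : rp σ x ρ 0 = σ x := by rw [rp, mul_zero, add_zero]
  generalize deriv (A.e i ∘ G^[m] ∘ rp σ x ρ) 0 = u at h3 h4
  simp only [Function.comp_apply, rp_div σ x _ hρ, e0, sub_zero] at h4 h5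
  have h6 := norm_sub_norm_le (((y - x) / ρ) • u)
    (A.e i (G^[m] (σ y)) - A.e i (G^[m] (σ x)))
  rw [norm_sub_rev (_ • u), norm_smul, Real.norm_eq_abs] at h6
  have h7 := mul_le_mul_of_nonneg_left h3 (abs_nonneg ((y - x) / ρ))
  have h8 : δ / 2 * |(y - x) / ρ| ≤ A.L * dist (G^[m] (σ y)) (G^[m] (σ x)) := by linarith
  rwa [abs_div, abs_of_pos hρ, ← mul_div_assoc, div_le_iff₀ hρ, dist_comm] at h8

omit [MeasurableSpace X] in
theorem lip_iter {G : X → X} {Λ : ℝ} (hΛ : 0 ≤ Λ) (h : ∀ x y, dist (G x) (G y) ≤ Λ * dist x y)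
    (k : ℕ) (x y : X) : dist (G^[k] x) (G^[k] y) ≤ Λ ^ k * dist x y := by
  induction k with
  | zero => simp
  | succ k ih =>
    rw [Function.iterate_succ_apply', Function.iterate_succ_apply', pow_succ', mul_assoc]
    exact (h _ _).trans (mul_le_mul_of_nonneg_left ih hΛ)

end YCloseAux

namespace Atlas

/-- refinement at a fixed time -/
theorem yrefine (A : Atlas X) (P : Par) {ε δ κ₀ : ℝ} (hε : 0 < ε) (hδ : 0 < δ) (hκ : 0 < κ₀) :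
    ∃ K : ℝ, 1 ≤ K ∧ ∀ G : X → X, A.Reg P id → ∀ (σ : ℝ → X) (s ρ : ℝ) (j : ℕ),
      A.SGup P ε G σ s (3 * ρ) j →
      ∃ T : Finset (ℝ × ℝ), (T.card : ℝ) ≤ K ∧ (∀ t ∈ T, A.SGup P ε G σ t.1 (3 * t.2) j) ∧
        (∀ x, |x - s| ≤ ρ → ∃ t ∈ T, |x - t.1| ≤ t.2) ∧
        ∀ t ∈ T, ∀ x y, |x - t.1| ≤ t.2 → |y - t.1| ≤ t.2 → ∀ ρ', A.GeoW P ε δ G σ x j ρ' →
          |y - x| ≤ κ₀ * ρ' / 3 := by
  classical
  obtain ⟨κ, hκ0, hκ1, hκδ⟩ := YCloseAux.exists_kappa P hε hδ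
  have hL : 0 < A.L := zero_lt_one.trans_le A.one_le_L
  obtain ⟨K, hK⟩ := exists_nat_ge (max 2 (4 * A.L ^ 2 * ε / (κ₀ * δ)))
  have hK2 : (2 : ℝ) ≤ K := (le_max_left _ _).trans hK
  have hK3 : 4 * A.L ^ 2 * ε ≤ K * (κ₀ * δ) :=
    (div_le_iff₀ (by positivity)).mp ((le_max_right _ _).trans hK)
  have hK0 : (0 : ℝ) < K := by linarith
  refine ⟨2 * K + 1, by linarith, fun G _ σ s ρ j h => ?_⟩
  have hρ : 0 < ρ := by linarith [h.1]
  obtain ⟨r, hr, hrK⟩ : ∃ r : ℝ, 0 < r ∧ K * r = ρ := ⟨ρ / K, by positivity, by field_simp⟩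
  have hr2 : 2 * r ≤ ρ := by nlinarith
  have hmem : ∀ t ∈ (Finset.range (2 * K + 1)).image fun i : ℕ => (s - ρ + i * r, r),
      |t.1 - s| ≤ ρ ∧ t.2 = r := fun t ht => by
    obtain ⟨i, hi, rfl⟩ := Finset.mem_image.mp ht
    have h1 : (i : ℝ) ≤ 2 * K := by exact_mod_cast Nat.lt_succ_iff.mp (Finset.mem_range.mp hi)
    have h2 : (0 : ℝ) ≤ i * r := by positivity
    have h3 := mul_le_mul_of_nonneg_right h1 hr.le
    exact ⟨abs_le.mpr ⟨by dsimp only; linarith, by dsimp only; linarith⟩, rfl⟩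
  refine ⟨(Finset.range (2 * K + 1)).image fun i : ℕ => (s - ρ + i * r, r), ?_, fun t ht => ?_,
    fun x hx => ?_, fun t ht x y hx hy ρ' hg => ?_⟩
  · have := (Finset.card_image_le (f := fun i : ℕ => (s - ρ + i * r, r))
      (s := Finset.range (2 * K + 1))).trans (Finset.card_range _).le
    exact_mod_cast this
  · obtain ⟨h1, h2⟩ := hmem t ht
    exact h.repar (by linarith) (by linarith)
  · obtain ⟨h1, h2⟩ := abs_le.mp hx
    have h3 : 0 ≤ (x - (s - ρ)) / r := div_nonneg (by linarith) hr.le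
    have h4 := (le_div_iff₀ hr).mp (Nat.floor_le h3)
    have h5 := (div_lt_iff₀ hr).mp (Nat.lt_floor_add_one ((x - (s - ρ)) / r))
    refine ⟨_, Finset.mem_image_of_mem _ (Finset.mem_range.mpr (Nat.lt_succ_iff.mpr
      (Nat.floor_le_of_le (a := (x - (s - ρ)) / r) ?_))),
      abs_le.mpr ⟨by dsimp only; linarith, by dsimp only; linarith⟩⟩
    rw [div_le_iff₀ hr]
    push_cast
    linarith
  · obtain ⟨h1, h2⟩ := hmem t ht
    rw [h2] at hx hy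
    have hρ' : 0 < ρ' := hg.1.1
    obtain ⟨d, hd, hd1, hd2⟩ : ∃ d : ℝ, 0 < d ∧ d < κ * ρ' ∧ d < ρ :=
      ⟨min (κ * ρ') ρ / 2, by positivity, by linarith [min_le_left (κ * ρ') ρ, mul_pos hκ0 hρ'],
        by linarith [min_le_right (κ * ρ') ρ]⟩
    obtain ⟨h3, h4⟩ := abs_le.mp h1
    obtain ⟨h5, h6⟩ := abs_le.mp hx
    obtain ⟨h7, h8⟩ := abs_le.mp hy
    have e : |x + d - x| = d := by rw [add_sub_cancel_left, abs_of_pos hd]
    have h9 := YCloseAux.low hε hκ0 hκ1 hκδ hg (y := x + d) (by rwa [e])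
    have h10 := YCloseAux.up h.1 (h.2.2 j le_rfl) (x := x) (y := x + d)
      (abs_lt.mpr ⟨by linarith, by linarith⟩) (abs_lt.mpr ⟨by linarith, by linarith⟩)
    rw [e] at h9 h10
    have h11 : δ / 2 * (3 * ρ) ≤ A.L ^ 2 * ε * ρ' := by
      refine le_of_mul_le_mul_right ?_ hd
      calc δ / 2 * (3 * ρ) * d = δ / 2 * d * (3 * ρ) := by ring
        _ ≤ A.L * dist (G^[j] (σ x)) (G^[j] (σ (x + d))) * ρ' * (3 * ρ) :=
            mul_le_mul_of_nonneg_right h9 h.1.le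
        _ = A.L * ρ' * (dist (G^[j] (σ x)) (G^[j] (σ (x + d))) * (3 * ρ)) := by ring
        _ ≤ A.L * ρ' * (A.L * ε * d) := mul_le_mul_of_nonneg_left h10 (by positivity)
        _ = _ := by ring
    have h12 : 2 * r ≤ κ₀ * ρ' / 3 := by
      refine le_of_mul_le_mul_left ?_ (mul_pos hK0 hδ)
      have h13 := mul_le_mul_of_nonneg_right hK3 hρ'.le
      calc K * δ * (2 * r) = 4 / 3 * (δ / 2 * (3 * (K * r))) := by ring
        _ ≤ 4 / 3 * (A.L ^ 2 * ε * ρ') := by rw [hrK]; linarith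
        _ ≤ K * δ * (κ₀ * ρ' / 3) := by linarith
    exact abs_le.mpr ⟨by linarith, by linarith⟩

/-- propagation of closeness from a geometric time to a later one -/
theorem yclose (A : Atlas X) (P : Par) {ε δ : ℝ} (hε : 0 < ε) (hδ : 0 < δ) :
    ∃ κ₀ : ℝ, 0 < κ₀ ∧ κ₀ ≤ 1 ∧ ∀ Λ : ℝ, 1 ≤ Λ → ∀ M₀ : ℕ, ∃ η > 0, ∀ G : X → X,
      (∀ x y, dist (G x) (G y) ≤ Λ * dist x y) → ∀ (σ : ℝ → X) (x y : ℝ) (a b : ℕ) (ρa ρb : ℝ),
        a ≤ b → b ≤ a + M₀ → A.GeoW P ε δ G σ x a ρa → A.GeoW P ε δ G σ x b ρb →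
        |y - x| ≤ κ₀ * ρa / 3 → dist (G^[a] (σ x)) (G^[a] (σ y)) ≤ η →
        |y - x| ≤ κ₀ * ρb / 3 := by
  obtain ⟨κ, hκ0, hκ1, hκδ⟩ := YCloseAux.exists_kappa P hε hδ
  have hL : 0 < A.L := zero_lt_one.trans_le A.one_le_L
  refine ⟨κ, hκ0, hκ1, fun Λ hΛ M₀ => ?_⟩
  have hΛ0 : 0 < Λ := by linarith
  obtain ⟨η, hη, hηe⟩ : ∃ η : ℝ, 0 < η ∧ 24 * A.L ^ 3 * ε * Λ ^ M₀ * η = κ * δ ^ 2 :=
    ⟨κ * δ ^ 2 / (24 * A.L ^ 3 * ε * Λ ^ M₀), by positivity, by field_simp⟩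
  refine ⟨η, hη, fun G hG σ x y a b ρa ρb hab hb ha' hb' hy hd => ?_⟩
  by_contra hcon
  push Not at hcon
  have hρa : 0 < ρa := ha'.1.1
  have hρb : 0 < ρb := hb'.1.1
  have hκa := mul_pos hκ0 hρa
  have hκb := mul_pos hκ0 hρb
  have hκa' : κ * ρa ≤ ρa := mul_le_of_le_one_left hρa.le hκ1
  have e : |x + κ * ρb / 3 - x| = κ * ρb / 3 := by
    rw [add_sub_cancel_left, abs_of_pos (by positivity)]
  have h1 := YCloseAux.low hε hκ0 hκ1 hκδ hb' (y := x + κ * ρb / 3) (by rw [e]; linarith)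
  have h2 := YCloseAux.low hε hκ0 hκ1 hκδ ha' (y := y) (by linarith)
  have h3 := YCloseAux.up hρa (ha'.1.2.2 a le_rfl) (x := x) (y := x + κ * ρb / 3)
    (by simpa using hρa) (by rw [e]; linarith)
  have h4 := YCloseAux.lip_iter hΛ0.le hG (b - a) (G^[a] (σ x)) (G^[a] (σ (x + κ * ρb / 3)))
  rw [← Function.iterate_add_apply, ← Function.iterate_add_apply, Nat.sub_add_cancel hab] at h4
  rw [e] at h1 h3
  have h5 : Λ ^ (b - a) ≤ Λ ^ M₀ := pow_le_pow_right₀ hΛ (by omega)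
  have h6 := h4.trans (mul_le_mul_of_nonneg_right h5 dist_nonneg)
  generalize dist (G^[b] (σ x)) (G^[b] (σ (x + κ * ρb / 3))) = db at h1 h6
  generalize dist (G^[a] (σ x)) (G^[a] (σ (x + κ * ρb / 3))) = da at h3 h6
  have h7 : δ / 2 * (κ / 3) ≤ A.L * db := le_of_mul_le_mul_right (by linarith) hρb
  have h8 : δ / 2 * da ≤ A.L ^ 2 * ε * η := by
    refine le_of_mul_le_mul_right ?_ hρa
    calc δ / 2 * da * ρa = δ / 2 * (da * ρa) := by ring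
      _ ≤ δ / 2 * (A.L * ε * |y - x|) := mul_le_mul_of_nonneg_left
          (h3.trans (mul_le_mul_of_nonneg_left hcon.le (by positivity))) (by positivity)
      _ = A.L * ε * (δ / 2 * |y - x|) := by ring
      _ ≤ A.L * ε * (A.L * η * ρa) := mul_le_mul_of_nonneg_left (h2.trans
          (mul_le_mul_of_nonneg_right (mul_le_mul_of_nonneg_left hd hL.le) hρa.le)) (by positivity)
      _ = _ := by ring
  have h9 : δ / 2 * (δ / 2 * (κ / 3)) ≤ A.L * Λ ^ M₀ * (A.L ^ 2 * ε * η) :=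
    calc _ ≤ δ / 2 * (A.L * (Λ ^ M₀ * da)) := mul_le_mul_of_nonneg_left
          (h7.trans (mul_le_mul_of_nonneg_left h6 hL.le)) (by positivity)
      _ = A.L * Λ ^ M₀ * (δ / 2 * da) := by ring
      _ ≤ _ := mul_le_mul_of_nonneg_left h8 (by positivity)
  have h10 : 0 < κ * δ ^ 2 := by positivity
  linarith

/-- separated points in a piece which is small at all times -/
theorem yfinal (A : Atlas X) (P : Par) {ε ε' : ℝ} (hε : 0 < ε) (hε' : 0 < ε') {G : X → X}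
    {σ : ℝ → X} {s ρ : ℝ} {m : ℕ} (h : A.SGup P ε G σ s (3 * ρ) m) (S : Finset ℝ)
    (hS : ∀ x ∈ S, |x - s| ≤ ρ)
    (hsep : ∀ x ∈ S, ∀ y ∈ S, x ≠ y → ∃ j ≤ m, ε' ≤ dist (G^[j] (σ x)) (G^[j] (σ y))) :
    (S.card : ℝ) ≤ A.L * ε / ε' + 1 := by
  have hL : 0 < A.L := zero_lt_one.trans_le A.one_le_L
  have hρ : 0 < ρ := by linarith [h.1]
  obtain ⟨d, hd, hde⟩ : ∃ d : ℝ, 0 < d ∧ A.L * ε * d = ε' * (3 * ρ) :=
    ⟨ε' * (3 * ρ) / (A.L * ε), by positivity, by field_simp⟩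
  have h1 : ∀ x ∈ S, ∀ y ∈ S, x ≠ y → d ≤ |y - x| := fun x hx y hy hxy => by
    obtain ⟨j, hj, h2⟩ := hsep x hx y hy hxy
    have h3 := YCloseAux.up h.1 (h.2.2 j hj) (x := x) (y := y) (by linarith [hS x hx])
      (by linarith [hS y hy])
    refine le_of_mul_le_mul_left ?_ (mul_pos hL hε)
    rw [hde]
    exact (mul_le_mul_of_nonneg_right h2 h.1.le).trans h3
  have h0 : ∀ x ∈ S, 0 ≤ (x - (s - ρ)) / d := fun x hx =>
    div_nonneg (by linarith [(abs_le.mp (hS x hx)).1]) hd.le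
  have h2 : S.card ≤ (Finset.range (⌊2 * ρ / d⌋₊ + 1)).card :=
    Finset.card_le_card_of_injOn (fun x => ⌊(x - (s - ρ)) / d⌋₊)
      (fun x hx => Finset.mem_coe.mpr (Finset.mem_range.mpr (Nat.lt_succ_iff.mpr (Nat.floor_mono
        (div_le_div_of_nonneg_right (by linarith [(abs_le.mp (hS x hx)).2]) hd.le)))))
      fun x hx y hy hxy => by
        by_contra hne
        have h3 := (le_div_iff₀ hd).mp (Nat.floor_le (h0 x hx))
        have h4 := (div_lt_iff₀ hd).mp (Nat.lt_floor_add_one ((x - (s - ρ)) / d))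
        have h5 := (le_div_iff₀ hd).mp (Nat.floor_le (h0 y hy))
        have h6 := (div_lt_iff₀ hd).mp (Nat.lt_floor_add_one ((y - (s - ρ)) / d))
        have h7 : (⌊(x - (s - ρ)) / d⌋₊ : ℝ) = ⌊(y - (s - ρ)) / d⌋₊ := congrArg Nat.cast hxy
        rw [h7] at h3 h4
        exact (h1 x hx y hy hne).not_gt (abs_lt.mpr ⟨by linarith, by linarith⟩)
  rw [Finset.card_range] at h2
  have h3 : (S.card : ℝ) ≤ ⌊2 * ρ / d⌋₊ + 1 := by exact_mod_cast h2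
  have h4 : 2 * ρ / d ≤ A.L * ε / ε' := by
    rw [div_le_div_iff₀ hd hε']
    nlinarith [mul_pos hε' hρ]
  linarith [Nat.floor_le (show 0 ≤ 2 * ρ / d by positivity)]

end Atlas

end Pool.Agent.Lib.MP_901be3_an.Hd
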