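import Pool.Agent.Lib.MP_901be3_an.Hd.Poly

namespace Pool.Agent.Lib.MP_901be3_an.Hd

open MeasureTheory Filter Topology Metric Set
open scoped ENNReal

namespace YPureAux

open Polynomial

/-- the window of centre `c` and radius `ρ` is small -/
def Gd (α : ℝ) (n : ℕ) (ε : ℝ) (u : ℝ → V) (c ρ : ℝ) : Prop :=
  0 < ρ ∧ |c| + ρ ≤ 1 ∧ Cc α n ε (fun τ => ρ • u (c + ρ * τ)) II

/-- all tripled windows of `T` are small -/
def AllGd (α : ℝ) (n : ℕ) (ε : ℝ) (u : ℝ → V) (T : Finset (ℝ × ℝ)) : Prop :=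
  ∀ t ∈ T, Gd α n ε u t.1 (3 * t.2)

variable {α ε : ℝ} {n : ℕ} {u v : ℝ → V}

lemma Gd.up {k L c ρ : ℝ} (hL : 0 < L) (hk : |k| + L ≤ 1)
    (h : Gd α n ε (fun τ => L • u (k + L * τ)) c ρ) : Gd α n ε u (k + L * c) (L * ρ) := by
  obtain ⟨h1, h2, h3⟩ := h
  refine ⟨mul_pos hL h1, ?_, ?_⟩
  · have := abs_add_le k (L * c)
    rw [abs_mul, abs_of_pos hL] at this
    nlinarith
  · convert h3 using 2 with τ
    rw [smul_smul, mul_comm ρ L]
    congr 2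
    ring

lemma gd_of_cc (hα : 0 < α) (hε : 0 < ε) {K s μ : ℝ} (h : Cc α n (K * ε) u II) (hμ : 0 < μ)
    (hs : |s| + μ ≤ 1) (hK : μ * K ≤ 1) : Gd α n ε u s μ := by
  have h1 := (h.repar hα (s := s) hμ.ne' (by rwa [abs_of_pos hμ])).smul isOpen_Ioo μ
  rw [abs_of_pos hμ] at h1
  exact ⟨hμ, hs, h1.mono_B (B' := ε) (by nlinarith)⟩

lemma grid {A μ : ℝ} (hA : 0 ≤ A) (hμ : 0 < μ) : ∃ S : Finset ℝ, (S.card : ℝ) ≤ 2 * A / μ + 1 ∧
    (∀ s ∈ S, |s| ≤ A) ∧ ∀ x, |x| ≤ A → ∃ s ∈ S, |x - s| ≤ μ := by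
  classical
  have h0 : 0 ≤ 2 * A / μ := by positivity
  refine ⟨(Finset.range (⌊2 * A / μ⌋₊ + 1)).image fun j : ℕ => -A + j * μ, ?_, ?_, ?_⟩
  · have h1 : ((((Finset.range (⌊2 * A / μ⌋₊ + 1)).image fun j : ℕ => -A + j * μ).card : ℕ) : ℝ) ≤
        ((⌊2 * A / μ⌋₊ + 1 : ℕ) : ℝ) := by
      exact_mod_cast Finset.card_image_le.trans (Finset.card_range _).le
    have h2 := Nat.floor_le h0
    push_cast at h1
    linarith
  · intro s hs
    obtain ⟨j, hj, rfl⟩ := Finset.mem_image.1 hs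
    have h1 : (j : ℝ) ≤ 2 * A / μ :=
      (Nat.cast_le.2 (Nat.lt_succ_iff.1 (Finset.mem_range.1 hj))).trans (Nat.floor_le h0)
    rw [le_div_iff₀ hμ] at h1
    have h2 : 0 ≤ (j : ℝ) * μ := by positivity
    rw [abs_le]
    constructor <;> linarith
  · intro x hx
    obtain ⟨h1, h2⟩ := abs_le.1 hx
    have h3 : 0 ≤ (x + A) / μ := div_nonneg (by linarith) hμ.le
    refine ⟨_, Finset.mem_image.2 ⟨⌊(x + A) / μ⌋₊, Finset.mem_range.2 (Nat.lt_succ_of_le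
      (Nat.floor_le_floor (div_le_div_of_nonneg_right (by linarith) hμ.le))), rfl⟩, ?_⟩
    have h4 := Nat.floor_le h3
    have h5 := Nat.lt_floor_add_one ((x + A) / μ)
    rw [le_div_iff₀ hμ] at h4
    rw [div_lt_iff₀ hμ] at h5
    rw [abs_le]
    constructor <;> linarith

lemma cover_up {k L : ℝ} (hL : 0 < L) (hk : |k| + L ≤ 1) {T : Finset (ℝ × ℝ)}
    (h : AllGd α n ε (fun τ => L • u (k + L * τ)) T) : ∃ T' : Finset (ℝ × ℝ),
      T'.card ≤ T.card ∧ AllGd α n ε u T' ∧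
      ∀ y, (∃ t ∈ T, |y - t.1| ≤ t.2) → ∃ t ∈ T', |k + L * y - t.1| ≤ t.2 := by
  classical
  refine ⟨T.image fun t => (k + L * t.1, L * t.2), Finset.card_image_le, fun t ht => ?_, ?_⟩
  · obtain ⟨t', ht', rfl⟩ := Finset.mem_image.1 ht
    have := (h t' ht').up hL hk
    rwa [mul_left_comm] at this
  · rintro y ⟨t, ht, hy⟩
    refine ⟨_, Finset.mem_image_of_mem _ ht, ?_⟩
    rw [show k + L * y - (k + L * t.1) = L * (y - t.1) by ring, abs_mul, abs_of_pos hL]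
    exact mul_le_mul_of_nonneg_left hy hL.le

lemma small_cover (hα : 0 < α) (hε : 0 < ε) {K : ℝ} (hK : 1 ≤ K) (h : Cc α n (K * ε) u II) :
    ∃ T : Finset (ℝ × ℝ), (T.card : ℝ) ≤ K + 1 ∧ AllGd α n ε u T ∧
      ∀ x, |x| ≤ 1 / 10 → ∃ t ∈ T, |x - t.1| ≤ t.2 := by
  classical
  have hμ : 0 < 1 / (4 * K) := by positivity
  have h4 : 1 / (4 * K) * K = 1 / 4 := by field_simp
  obtain ⟨S, h1, h2, h3⟩ := grid (A := 1 / 10) (by norm_num) hμ
  refine ⟨S.image fun s => (s, 1 / (4 * K)), ?_, fun t ht => ?_, fun x hx => ?_⟩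
  · refine (Nat.cast_le.2 Finset.card_image_le).trans (h1.trans ?_)
    rw [div_div_eq_mul_div, div_one]
    linarith
  · obtain ⟨s, hs, rfl⟩ := Finset.mem_image.1 ht
    have := h2 s hs
    refine gd_of_cc hα hε h (by positivity) ?_ ?_
    · nlinarith
    · linarith
  · obtain ⟨s, hs, hx⟩ := h3 x hx
    exact ⟨_, Finset.mem_image_of_mem _ hs, hx⟩

lemma topH_win (hα : 0 < α) (hε : 0 < ε) (h : TopH α n ε v II) {k L K : ℝ} (hL : 0 < L)
    (hk : |k| + L ≤ 1) (hK : 1 ≤ K) : TopH α n (K * ε) (fun τ => L • v (k + L * τ)) II := by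
  refine (h.scale hα hL hk).mono ?_
  have h1 : L ^ ((n : ℝ) + 1 + α) ≤ 1 :=
    Real.rpow_le_one hL.le (by linarith [abs_nonneg k]) (by positivity)
  nlinarith

lemma mem_win {k L τ : ℝ} (hL : 0 < L) (hk : |k| + L ≤ 1) (hτ : τ ∈ II) :
    k + L * τ ∈ II ∧ |k + L * τ - k| ≤ L := by
  have h1 := mul_lt_mul_of_pos_left hτ.1 hL
  have h2 := mul_lt_mul_of_pos_left hτ.2 hL
  have h3 := le_abs_self k
  have h4 := neg_abs_le k
  exact ⟨⟨by linarith, by linarith⟩, abs_le.2 ⟨by linarith, by linarith⟩⟩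

lemma norm_le_of {p q : ℝ[X]} {y H : ℝ} (h : ‖v y - (p.eval y, q.eval y)‖ ≤ ε)
    (hp : |p.eval y| ≤ H) (hq : |q.eval y| ≤ H) : ‖v y‖ ≤ H + ε := by
  have h1 : ‖((p.eval y, q.eval y) : V)‖ ≤ H := norm_prod_le_iff.2 ⟨hp, hq⟩
  have h2 := norm_sub_norm_le (v y) (p.eval y, q.eval y)
  linarith

lemma window (hα : 0 < α) (hα1 : α ≤ 1) (n : ℕ) : ∃ N : ℝ, ∀ (ε : ℝ) (v : ℝ → V) (p q : ℝ[X])
    (k e H : ℝ), 0 < ε → TopH α n ε v II → p.natDegree ≤ n → q.natDegree ≤ n →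
    (∀ τ ∈ II, ‖v τ - (p.eval τ, q.eval τ)‖ ≤ ε) → 0 < e → |k| + 10 * e ≤ 1 →
    (∀ x, |x - k| ≤ e → |p.eval x| ≤ H ∧ |q.eval x| ≤ H) → e * H ≤ ε →
    ∃ T : Finset (ℝ × ℝ), (T.card : ℝ) ≤ N ∧ AllGd α n ε v T ∧
      ∀ x, |x - k| ≤ e → ∃ t ∈ T, |x - t.1| ≤ t.2 := by
  obtain ⟨CR, hR1, hR⟩ := remez n
  obtain ⟨CI, hI1, hI⟩ := interp hα hα1 n
  refine ⟨CI * (10 * CR + 1) + 1, fun ε v p q k e H hε ht hp hq ha he hk hb hH => ?_⟩
  have hL : 0 < 10 * e := by positivity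
  have h1 := hI _ _ (topH_win hα hε ht hL hk (K := 10 * CR + 1) (by linarith)) fun τ hτ => by
    obtain ⟨m1, m2⟩ := mem_win hL hk hτ
    have h2 := norm_le_of (ha _ m1) (hR p k e H hp he (fun x hx => (hb x hx).1) _ m2)
      (hR q k e H hq he (fun x hx => (hb x hx).2) _ m2)
    rw [norm_smul, Real.norm_of_nonneg hL.le]
    have h3 := mul_le_mul_of_nonneg_left h2 hL.le
    have h4 := mul_le_mul_of_nonneg_left hH (by linarith : 0 ≤ 10 * CR)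
    have h5 : 10 * e * ε ≤ 1 * ε :=
      mul_le_mul_of_nonneg_right (by linarith [abs_nonneg k]) hε.le
    linarith
  rw [← mul_assoc] at h1
  obtain ⟨T, c1, c2, c3⟩ := small_cover hα hε (by nlinarith) h1
  obtain ⟨T', d1, d2, d3⟩ := cover_up hL hk c2
  refine ⟨T', (Nat.cast_le.2 d1).trans c1, d2, fun x hx => ?_⟩
  have := d3 ((x - k) / (10 * e)) (c3 _ (by
    rw [abs_div, abs_of_pos hL, div_le_iff₀ hL]
    linarith))
  rwa [mul_div_cancel₀ _ hL.ne', add_sub_cancel] at this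

lemma good_point (hα : 0 < α) (hα1 : α ≤ 1) (n : ℕ) : ∃ C : ℝ, 1 ≤ C ∧ ∀ (ε : ℝ) (v : ℝ → V)
    (p q : ℝ[X]) (x l H : ℝ), 0 < ε → TopH α n ε v II →
    (∀ τ ∈ II, ‖v τ - (p.eval τ, q.eval τ)‖ ≤ ε) → 0 < l → |x| + l ≤ 1 →
    (∀ y, |y - x| ≤ l → |p.eval y| ≤ H ∧ |q.eval y| ≤ H) → l * H ≤ ε →
    Gd α n ε v x (l / C) := by
  obtain ⟨CI, hI1, hI⟩ := interp hα hα1 n
  refine ⟨CI * 2, by linarith, fun ε v p q x l H hε ht ha hl hx hb hH => ?_⟩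
  have h1 := hI _ _ (topH_win hα hε ht hl hx (K := 2) (by norm_num)) fun τ hτ => by
    obtain ⟨m1, m2⟩ := mem_win hl hx hτ
    have h2 := norm_le_of (ha _ m1) (hb _ m2).1 (hb _ m2).2
    rw [norm_smul, Real.norm_of_nonneg hl.le]
    have h3 := mul_le_mul_of_nonneg_left h2 hl.le
    have h5 : l * ε ≤ 1 * ε := mul_le_mul_of_nonneg_right (by linarith [abs_nonneg x]) hε.le
    linarith
  rw [← mul_assoc] at h1
  have h2 : (CI * 2)⁻¹ * (CI * 2) = 1 := inv_mul_cancel₀ (by positivity)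
  have h3 : 0 < (CI * 2)⁻¹ := by positivity
  have := (gd_of_cc (s := 0) hα hε h1 h3 (by rw [abs_zero]; nlinarith) h2.le).up hl hx
  rwa [mul_zero, add_zero, ← div_eq_mul_inv] at this

lemma nonpos_of_noroot {f : ℝ[X]} {b b' x y : ℝ} (hx : x ∈ Ioo b b') (hy : y ∈ Icc b b')
    (h : ∀ z ∈ Ioo b b', z ∉ f.roots) (h0 : f.eval x < 0) : f.eval y ≤ 0 := by
  by_contra h1
  have hf : f ≠ 0 := fun e => by simp [e] at h0
  have hm : (0 : ℝ) ∈ Ioo (f.eval x) (f.eval y) := ⟨h0, not_le.1 h1⟩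
  rcases le_total x y with e | e
  · obtain ⟨z, hz, hz0⟩ := intermediate_value_Ioo e f.continuous.continuousOn hm
    exact h z ⟨hx.1.trans hz.1, hz.2.trans_le hy.2⟩ ((mem_roots hf).2 hz0)
  · obtain ⟨z, hz, hz0⟩ := intermediate_value_Ioo' e f.continuous.continuousOn hm
    exact h z ⟨hy.1.trans_lt hz.1, hz.2.trans hx.2⟩ ((mem_roots hf).2 hz0)

lemma card_roots_sub {p : ℝ[X]} (hp : p.natDegree ≤ n) (H : ℝ) :
    (p - C H).roots.toFinset.card ≤ n :=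
  (Multiset.toFinset_card_le _).trans ((card_roots' _).trans (by rwa [natDegree_sub_C]))

lemma cuts {p q : ℝ[X]} (hp : p.natDegree ≤ n) (hq : q.natDegree ≤ n) (H : ℝ) :
    ∃ Z : Finset ℝ, Z.card ≤ 4 * n + 2 ∧ (∀ z ∈ Z, |z| ≤ 1 / 16) ∧ ∀ x, |x| ≤ 1 / 32 →
      |p.eval x| < H → |q.eval x| < H → ∃ b ∈ Z, ∃ b' ∈ Z, b < x ∧ x < b' ∧
        ∀ y ∈ Icc b b', |p.eval y| ≤ H ∧ |q.eval y| ≤ H := by
  classical
  let W : Finset ℝ := (p - C H).roots.toFinset ∪ (-p - C H).roots.toFinset ∪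
    (q - C H).roots.toFinset ∪ (-q - C H).roots.toFinset
  let Z : Finset ℝ := insert (-(1 / 16)) (insert (1 / 16) (W.filter fun z => |z| ≤ 1 / 16))
  have hW : W.card ≤ 4 * n := by
    have h1 := card_roots_sub hp H
    have h2 := card_roots_sub (p := -p) ((natDegree_neg p).trans_le hp) H
    have h3 := card_roots_sub hq H
    have h4 := card_roots_sub (p := -q) ((natDegree_neg q).trans_le hq) H
    refine (Finset.card_union_le _ _).trans ((Nat.add_le_add_right ((Finset.card_union_le _ _).trans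
      (Nat.add_le_add_right (Finset.card_union_le _ _) _)) _).trans ?_)
    omega
  have hZ : ∀ z ∈ Z, |z| ≤ 1 / 16 := fun z hz => by
    rcases Finset.mem_insert.1 hz with rfl | hz
    · rw [abs_neg, abs_of_pos (by norm_num)]
    rcases Finset.mem_insert.1 hz with rfl | hz
    · rw [abs_of_pos (by norm_num)]
    · exact (Finset.mem_filter.1 hz).2
  refine ⟨Z, ?_, hZ, fun x hx h1 h2 => ?_⟩
  · refine (Finset.card_insert_le _ _).trans (Nat.succ_le_succ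
      ((Finset.card_insert_le _ _).trans (Nat.succ_le_succ ?_)))
    exact (Finset.card_filter_le _ _).trans hW
  obtain ⟨x1, x2⟩ := abs_le.1 hx
  obtain ⟨b, hb, hbm⟩ := Finset.exists_max_image (Z.filter fun z => z < x) id
    ⟨-(1 / 16), Finset.mem_filter.2 ⟨Finset.mem_insert_self _ _, by linarith⟩⟩
  obtain ⟨b', hb', hbm'⟩ := Finset.exists_min_image (Z.filter fun z => x < z) id
    ⟨1 / 16, Finset.mem_filter.2
      ⟨Finset.mem_insert_of_mem (Finset.mem_insert_self _ _), by linarith⟩⟩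
  obtain ⟨b1, b2⟩ := Finset.mem_filter.1 hb
  obtain ⟨b3, b4⟩ := Finset.mem_filter.1 hb'
  have key : ∀ f : ℝ[X], f.roots.toFinset ⊆ W → f.eval x < 0 → ∀ y ∈ Icc b b', f.eval y ≤ 0 := by
    intro f hf h0 y hy
    refine nonpos_of_noroot ⟨b2, b4⟩ hy (fun z hz hr => ?_) h0
    have z1 : z ∈ Z := Finset.mem_insert_of_mem (Finset.mem_insert_of_mem (Finset.mem_filter.2
      ⟨hf (Multiset.mem_toFinset.2 hr), abs_le.2
        ⟨(abs_le.1 (hZ b b1)).1.trans hz.1.le, hz.2.le.trans (abs_le.1 (hZ b' b3)).2⟩⟩))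
    rcases lt_trichotomy z x with e | e | e
    · exact (hbm z (Finset.mem_filter.2 ⟨z1, e⟩)).not_gt hz.1
    · exact h0.ne (e ▸ isRoot_of_mem_roots hr)
    · exact (hbm' z (Finset.mem_filter.2 ⟨z1, e⟩)).not_gt hz.2
  obtain ⟨p1, p2⟩ := abs_lt.1 h1
  obtain ⟨q1, q2⟩ := abs_lt.1 h2
  refine ⟨b, b1, b', b3, b2, b4, fun y hy => ?_⟩
  have k1 := key (p - C H) (fun z hz => by simp only [W, Finset.mem_union]; tauto)
    (by simp only [eval_sub, eval_C]; linarith) y hy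
  have k2 := key (-p - C H) (fun z hz => by simp only [W, Finset.mem_union]; tauto)
    (by simp only [eval_sub, eval_neg, eval_C]; linarith) y hy
  have k3 := key (q - C H) (fun z hz => by simp only [W, Finset.mem_union]; tauto)
    (by simp only [eval_sub, eval_C]; linarith) y hy
  have k4 := key (-q - C H) (fun z hz => by simp only [W, Finset.mem_union]; tauto)
    (by simp only [eval_sub, eval_neg, eval_C]; linarith) y hy
  simp only [eval_sub, eval_neg, eval_C] at k1 k2 k3 k4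
  exact ⟨abs_le.2 ⟨by linarith, by linarith⟩, abs_le.2 ⟨by linarith, by linarith⟩⟩

lemma card_biUnion_real {ι : Type} (S : Finset ι) (T : ι → Finset (ℝ × ℝ)) {N : ℝ}
    (h : ∀ i ∈ S, ((T i).card : ℝ) ≤ N) : ((S.biUnion T).card : ℝ) ≤ S.card * N := by
  have h1 : ((S.biUnion T).card : ℝ) ≤ ∑ i ∈ S, ((T i).card : ℝ) := by
    exact_mod_cast Finset.card_biUnion_le
  exact h1.trans ((Finset.sum_le_card_nsmul _ _ _ h).trans_eq (nsmul_eq_mul _ _))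

lemma level (hα : 0 < α) (hα1 : α ≤ 1) (n : ℕ) : ∃ N C : ℝ, 0 ≤ N ∧ 1 ≤ C ∧ ∀ (ε : ℝ) (v : ℝ → V)
    (p q : ℝ[X]) (l H : ℝ), 0 < ε → TopH α n ε v II → p.natDegree ≤ n → q.natDegree ≤ n →
    (∀ τ ∈ II, ‖v τ - (p.eval τ, q.eval τ)‖ ≤ ε) → 0 < l → l ≤ 1 / 8 → 0 < H → l * H ≤ ε →
    ∃ T : Finset (ℝ × ℝ), (T.card : ℝ) ≤ N ∧ AllGd α n ε v T ∧
      ∀ x, |x| ≤ 1 / 32 → |p.eval x| < H → |q.eval x| < H →
        (∃ t ∈ T, |x - t.1| ≤ t.2) ∨ (l < 1 / 8 ∧ Gd α n ε v x (l / C)) := by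
  classical
  obtain ⟨N, hN⟩ := window hα hα1 n
  obtain ⟨C, hC1, hC⟩ := good_point hα hα1 n
  refine ⟨((4 * n + 2) * (4 * n + 2) : ℕ) * (2 * |N|), C, by positivity, hC1,
    fun ε v p q l H hε ht hp hq ha hl hl8 hH hlH => ?_⟩
  obtain ⟨Z, z1, z2, z3⟩ := cuts hp hq H
  have one : ∀ c d : ℝ, ∃ T : Finset (ℝ × ℝ), (T.card : ℝ) ≤ |N| ∧ AllGd α n ε v T ∧
      (c < d → d - c ≤ l → |c| ≤ 1 / 16 → |d| ≤ 1 / 16 →
        (∀ y ∈ Icc c d, |p.eval y| ≤ H ∧ |q.eval y| ≤ H) →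
        ∀ x ∈ Icc c d, ∃ t ∈ T, |x - t.1| ≤ t.2) := by
    intro c d
    by_cases e : c < d ∧ d - c ≤ l ∧ |c| ≤ 1 / 16 ∧ |d| ≤ 1 / 16 ∧
        ∀ y ∈ Icc c d, |p.eval y| ≤ H ∧ |q.eval y| ≤ H
    · obtain ⟨e1, e2, e3, e4, e5⟩ := e
      obtain ⟨c1, c2⟩ := abs_le.1 e3
      obtain ⟨d1, d2⟩ := abs_le.1 e4
      have e6 : |(c + d) / 2| ≤ 1 / 16 := abs_le.2 ⟨by linarith, by linarith⟩
      obtain ⟨T, t1, t2, t3⟩ := hN ε v p q ((c + d) / 2) ((d - c) / 2) H hε ht hp hq ha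
        (by linarith) (by linarith)
        (fun x hx => e5 x ⟨by linarith [(abs_le.1 hx).1], by linarith [(abs_le.1 hx).2]⟩)
        (by nlinarith)
      exact ⟨T, t1.trans (le_abs_self _), t2, fun _ _ _ _ _ x hx =>
        t3 x (abs_le.2 ⟨by linarith [hx.1], by linarith [hx.2]⟩)⟩
    · exact ⟨∅, by simp, fun _ h => absurd h (Finset.notMem_empty _),
        fun e1 e2 e3 e4 e5 => absurd ⟨e1, e2, e3, e4, e5⟩ e⟩
  choose T t1 t2 t3 using one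
  refine ⟨(Z ×ˢ Z).biUnion fun z => T z.1 (min z.2 (z.1 + l)) ∪ T (max z.1 (z.2 - l)) z.2, ?_,
    fun t ht => ?_, fun x hx h1 h2 => ?_⟩
  · refine (card_biUnion_real _ _ (N := 2 * |N|) fun z _ => ?_).trans ?_
    · have h1 := t1 z.1 (min z.2 (z.1 + l))
      have h2 := t1 (max z.1 (z.2 - l)) z.2
      have h3 : (((T z.1 (min z.2 (z.1 + l)) ∪ T (max z.1 (z.2 - l)) z.2).card : ℕ) : ℝ) ≤ _ :=
        Nat.cast_le.2 (Finset.card_union_le _ _)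
      push_cast at h3
      linarith
    · refine mul_le_mul_of_nonneg_right (Nat.cast_le.2 ?_) (by positivity)
      rw [Finset.card_product]
      exact Nat.mul_le_mul z1 z1
  · obtain ⟨z, -, hz⟩ := Finset.mem_biUnion.1 ht
    rcases Finset.mem_union.1 hz with hz | hz
    · exact t2 _ _ t hz
    · exact t2 _ _ t hz
  obtain ⟨b, hb, b', hb', b1, b2, b3⟩ := z3 x hx h1 h2
  obtain ⟨x1, x2⟩ := abs_le.1 hx
  obtain ⟨c1, c2⟩ := abs_le.1 (z2 b hb)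
  obtain ⟨d1, d2⟩ := abs_le.1 (z2 b' hb')
  have hm : (b, b') ∈ Z ×ˢ Z := Finset.mem_product.2 ⟨hb, hb'⟩
  by_cases e1 : x ≤ b + l
  · have m1 := min_le_left b' (b + l)
    have m2 := min_le_right b' (b + l)
    have m3 : x ≤ min b' (b + l) := le_min b2.le e1
    obtain ⟨t, ht, hx⟩ := t3 b (min b' (b + l)) (by linarith) (by linarith) (z2 b hb)
      (abs_le.2 ⟨by linarith, by linarith⟩) (fun y hy => b3 y ⟨hy.1, hy.2.trans m1⟩) x ⟨b1.le, m3⟩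
    exact Or.inl ⟨t, Finset.mem_biUnion.2 ⟨_, hm, Finset.mem_union_left _ ht⟩, hx⟩
  by_cases e2 : b' - l ≤ x
  · have m1 := le_max_left b (b' - l)
    have m2 := le_max_right b (b' - l)
    have m3 : max b (b' - l) ≤ x := max_le b1.le e2
    obtain ⟨t, ht, hx⟩ := t3 (max b (b' - l)) b' (by linarith) (by linarith)
      (abs_le.2 ⟨by linarith, by linarith⟩) (z2 b' hb')
      (fun y hy => b3 y ⟨m1.trans hy.1, hy.2⟩) x ⟨m3, b2.le⟩
    exact Or.inl ⟨t, Finset.mem_biUnion.2 ⟨_, hm, Finset.mem_union_right _ ht⟩, hx⟩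
  exact Or.inr ⟨by linarith, hC ε v p q x l H hε ht ha hl (by linarith)
    (fun y hy => b3 y ⟨by linarith [(abs_le.1 hy).1], by linarith [(abs_le.1 hy).2]⟩) hlH⟩

lemma normal (hα : 0 < α) (hα1 : α ≤ 1) (n : ℕ) : ∃ C : ℝ, 1 ≤ C ∧ ∀ (ε a : ℝ) (v : ℝ → V),
    0 < ε → 1 ≤ a → TopH α n ε v II → (∀ τ ∈ II, ‖v τ‖ ≤ a * ε) →
    ∃ T : Finset (ℝ × ℝ), (T.card : ℝ) ≤ C * (Real.log a + 1) ∧ AllGd α n ε v T ∧
      ∀ x, |x| ≤ 1 / 32 → (∃ t ∈ T, |x - t.1| ≤ t.2) ∨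
        ∃ ρ, Gd α n ε v x ρ ∧ ε / C ≤ ‖ρ • v x‖ := by
  classical
  obtain ⟨N, C, hN, hC, h⟩ := level hα hα1 n
  refine ⟨2 * N + 16 * C, by linarith, fun ε a v hε ha ht hs => ?_⟩
  obtain ⟨p, q, hp, hq, hpq⟩ := taylor_topH hα ht
  obtain ⟨m, m1, m2⟩ := exists_nat_pow_near ha (one_lt_two : (1 : ℝ) < 2)
  have hl : ∀ i : ℕ, (0 : ℝ) < 1 / (8 * 2 ^ i) := fun i => by positivity
  choose T t1 t2 t3 using fun i : ℕ => h ε v p q (1 / (8 * 2 ^ i)) (4 * 2 ^ i * ε) hε ht hp hq hpq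
    (hl i) (one_div_le_one_div_of_le (by norm_num)
      (by linarith [one_le_pow₀ (one_le_two : (1 : ℝ) ≤ 2) (n := i)])) (by positivity)
    (by rw [show 1 / (8 * 2 ^ i) * (4 * 2 ^ i * ε) = ε / 2 by field_simp; ring]; linarith)
  have hlog := Real.log_nonneg ha
  refine ⟨(Finset.range (m + 2)).biUnion T, ?_, fun t ht => ?_, fun x hx => ?_⟩
  · refine (card_biUnion_real _ _ fun i _ => t1 i).trans ?_
    have h1 := Real.log_le_log (by positivity) m1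
    rw [Real.log_pow] at h1
    have h2 := Real.log_two_gt_d9
    have h3 : (m : ℝ) ≤ 2 * Real.log a := by nlinarith [(Nat.cast_nonneg m : (0 : ℝ) ≤ m)]
    rw [Finset.card_range]
    push_cast
    nlinarith [mul_le_mul_of_nonneg_right h3 hN]
  · obtain ⟨i, -, hi⟩ := Finset.mem_biUnion.1 ht
    exact t2 i t hi
  have hx' : x ∈ II := ⟨by linarith [(abs_le.1 hx).1], by linarith [(abs_le.1 hx).2]⟩
  have h1 := norm_sub_norm_le (v x) (p.eval x, q.eval x)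
  have h2 := norm_sub_norm_le (p.eval x, q.eval x) (v x)
  rw [norm_sub_rev] at h2
  have h3 := hpq x hx'
  have h4 := hs x hx'
  have hm : ‖((p.eval x, q.eval x) : V)‖ ≤ 2 * 2 ^ (m + 1) * ε := by nlinarith
  have hex : ∃ i : ℕ, ‖((p.eval x, q.eval x) : V)‖ ≤ 2 * 2 ^ i * ε := ⟨_, hm⟩
  have i1 := Nat.find_spec hex
  have i2 := Nat.find_min' hex hm
  have i3 := fun j => Nat.find_min hex (m := j)
  generalize Nat.find hex = i at i1 i2 i3
  have h5 : (0 : ℝ) < 2 ^ i * ε := by positivity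
  obtain ⟨n1, n2⟩ := norm_prod_le_iff.1 i1
  rw [Real.norm_eq_abs] at n1 n2
  rcases t3 i x hx (by linarith) (by linarith) with ⟨t, ht, hx⟩ | ⟨e1, e2⟩
  · exact Or.inl ⟨t, Finset.mem_biUnion.2 ⟨i, Finset.mem_range.2 (by omega), ht⟩, hx⟩
  refine Or.inr ⟨_, e2, ?_⟩
  rcases i with _ | j
  · norm_num at e1
  have h6 := not_le.1 (i3 j (Nat.lt_succ_self j))
  have h7 : (1 : ℝ) ≤ 2 ^ j := one_le_pow₀ one_le_two
  have h8 : 2 ^ j * ε ≤ ‖v x‖ := by nlinarith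
  rw [norm_smul, Real.norm_of_nonneg e2.1.le]
  calc ε / (2 * N + 16 * C) ≤ ε / (16 * C) :=
        div_le_div_of_nonneg_left hε.le (by positivity) (by linarith)
    _ = 1 / (8 * 2 ^ (j + 1)) / C * (2 ^ j * ε) := by field_simp; ring
    _ ≤ _ := mul_le_mul_of_nonneg_left h8 e2.1.le

end YPureAux

open YPureAux in
/-- the analytic reparametrization step -/
theorem ypure {α : ℝ} (hα : 0 < α) (hα1 : α ≤ 1) (n : ℕ) : ∃ Cy : ℝ, 1 ≤ Cy ∧
    ∀ (ε a : ℝ) (u : ℝ → V), 0 < ε → 1 ≤ a → Cc α n (a * ε) u II →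
      ∃ T : Finset (ℝ × ℝ),
        (T.card : ℝ) ≤ Cy * a ^ (1 / ((n : ℝ) + 1 + α)) * (Real.log a + 1) ∧
        (∀ t ∈ T, 0 < t.2 ∧ |t.1| + 3 * t.2 ≤ 1 ∧
          Cc α n ε (fun τ => (3 * t.2) • u (t.1 + 3 * t.2 * τ)) II) ∧
        ∀ x : ℝ, |x| ≤ 1 / 3 → (∃ t ∈ T, |x - t.1| ≤ t.2) ∨
          ∃ ρ : ℝ, 0 < ρ ∧ |x| + ρ ≤ 1 ∧ Cc α n ε (fun τ => ρ • u (x + ρ * τ)) II ∧
            ε / Cy ≤ ‖ρ • u x‖ := by
  classical
  obtain ⟨C, hC, h⟩ := normal hα hα1 n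
  refine ⟨44 * C, by linarith, fun ε a u hε ha hu => ?_⟩
  have hr : 0 < (n : ℝ) + 1 + α := by positivity
  set w := a ^ (1 / ((n : ℝ) + 1 + α)) with hw
  have w1 : 1 ≤ w := Real.one_le_rpow ha (by positivity)
  have w2 : w ^ ((n : ℝ) + 1 + α) = a := by
    rw [hw, ← Real.rpow_mul (by linarith), one_div_mul_cancel hr.ne', Real.rpow_one]
  have hL : 0 < 1 / (2 * w) := by positivity
  have hL1 : 1 / (2 * w) ≤ 1 / 2 := one_div_le_one_div_of_le (by norm_num) (by linarith)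
  have hL2 : a * (1 / (2 * w)) ^ ((n : ℝ) + 1 + α) ≤ 1 := by
    have h1 : (w * (1 / (2 * w))) ^ ((n : ℝ) + 1 + α) ≤ 1 :=
      Real.rpow_le_one (by positivity) (by
        rw [show w * (1 / (2 * w)) = 1 / 2 by field_simp]; norm_num) hr.le
    rwa [Real.mul_rpow (by linarith) hL.le, w2] at h1
  have hL3 : 2 * (1 / 3) / (1 / (2 * w) / 32) + 1 ≤ 44 * w := by
    rw [show 2 * (1 / 3) / (1 / (2 * w) / 32) = 128 / 3 * w by field_simp; ring]
    linarith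
  generalize 1 / (2 * w) = L at hL hL1 hL2 hL3
  obtain ⟨S, s1, s2, s3⟩ := grid (A := 1 / 3) (μ := L / 32) (by norm_num) (by positivity)
  have one : ∀ s : ℝ, ∃ T : Finset (ℝ × ℝ), (T.card : ℝ) ≤ C * (Real.log a + 1) ∧
      AllGd α n ε u T ∧ (|s| ≤ 1 / 3 → ∀ x, |x - s| ≤ L / 32 → (∃ t ∈ T, |x - t.1| ≤ t.2) ∨
        ∃ ρ, Gd α n ε u x ρ ∧ ε / C ≤ ‖ρ • u x‖) := by
    intro s
    by_cases hs : |s| ≤ 1 / 3
    swap
    · exact ⟨∅, by simpa using mul_nonneg (by linarith) (by linarith [Real.log_nonneg ha]),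
        fun _ h => absurd h (Finset.notMem_empty _), fun e => absurd e hs⟩
    have hk : |s| + L ≤ 1 := by linarith
    obtain ⟨T, t1, t2, t3⟩ := h ε a (fun τ => L • u (s + L * τ)) hε ha
      ((hu.topH.scale hα hL hk).mono (by nlinarith)) fun τ hτ => by
        have h1 := hu.hol.1 _ (mem_win hL hk hτ).1
        rw [norm_smul, Real.norm_of_nonneg hL.le]
        nlinarith [norm_nonneg (u (s + L * τ))]
    obtain ⟨T', d1, d2, d3⟩ := cover_up hL hk t2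
    refine ⟨T', (Nat.cast_le.2 d1).trans t1, d2, fun _ x hx => ?_⟩
    have e : s + L * ((x - s) / L) = x := by rw [mul_div_cancel₀ _ hL.ne', add_sub_cancel]
    rcases t3 ((x - s) / L) (by
      rw [abs_div, abs_of_pos hL, div_le_iff₀ hL]
      linarith) with h1 | ⟨ρ, h1, h2⟩
    · exact Or.inl (e ▸ d3 _ h1)
    · refine Or.inr ⟨L * ρ, e ▸ h1.up hL hk, ?_⟩
      rwa [e, smul_smul, mul_comm] at h2
  choose T t1 t2 t3 using one
  refine ⟨S.biUnion T, ?_, fun t ht => ?_, fun x hx => ?_⟩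
  · refine (card_biUnion_real _ _ fun s _ => t1 s).trans ?_
    rw [show 44 * C * w * (Real.log a + 1) = 44 * w * (C * (Real.log a + 1)) by ring]
    exact mul_le_mul_of_nonneg_right (s1.trans hL3)
      (mul_nonneg (by linarith) (by linarith [Real.log_nonneg ha]))
  · obtain ⟨s, -, hs⟩ := Finset.mem_biUnion.1 ht
    obtain ⟨h1, h2, h3⟩ := t2 s t hs
    exact ⟨by linarith, h2, h3⟩
  obtain ⟨s, hs, hxs⟩ := s3 x hx
  rcases t3 s (s2 s hs) x hxs with ⟨t, ht, h1⟩ | ⟨ρ, ⟨h1, h2, h3⟩, h4⟩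
  · exact Or.inl ⟨t, Finset.mem_biUnion.2 ⟨s, hs, ht⟩, h1⟩
  · exact Or.inr ⟨ρ, h1, h2, h3,
      (div_le_div_of_nonneg_left hε.le (by linarith) (by linarith)).trans h4⟩

end Pool.Agent.Lib.MP_901be3_an.Hd
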